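import Pool.Agent.Lib.HS32.MAll
import Pool.Agent.Lib.SV.Defs

/-! Project ex41: polarisation kit. Calculus of the sum of squares of finitely many functions. -/

open scoped Classical Topology ContDiff ComplexOrder Matrix MatrixOrder
open Set Complex Filter

set_option linter.unusedVariables false

noncomputable section

namespace Pool.Agent.Lib.EX.K62

open Pool.Agent.Lib.SV (E nsq)
open Pool.Agent.Lib.HS32

section alg

variable {ι : Type} [Fintype ι]

/-- The Hermitian product, antilinear in the first vector. -/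
def hp (u a : ι → ℂ) : ℂ := ∑ k, star (u k) * a k

theorem nsq_nn (u : ι → ℂ) : 0 ≤ nsq u := Finset.sum_nonneg fun _ _ => normSq_nonneg _

theorem nsq_coe (u : ι → ℂ) : (nsq u : ℂ) = hp u u := by
  simp only [nsq, hp, ofReal_sum, normSq_eq_conj_mul_self, star_def]

theorem nsq_coe' (u : ι → ℂ) : (nsq u : ℂ) = ∑ k, u k * star (u k) := by
  rw [nsq_coe, hp]; exact Finset.sum_congr rfl fun k _ => mul_comm _ _

theorem star_hp (u a : ι → ℂ) : star (hp u a) = hp a u := by
  simp only [hp, star_sum, star_mul', star_star]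
  exact Finset.sum_congr rfl fun k _ => mul_comm _ _

theorem nsq_pos_iff (u : ι → ℂ) : 0 < nsq u ↔ ∃ k, u k ≠ 0 := by
  constructor
  · intro h
    by_contra h'
    push Not at h'
    simp [nsq, h'] at h
  · rintro ⟨k, hk⟩
    exact Finset.sum_pos' (fun _ _ => normSq_nonneg _) ⟨k, Finset.mem_univ _, normSq_pos.2 hk⟩

theorem nsq_eq_zero {u : ι → ℂ} (h : nsq u = 0) (k : ι) : u k = 0 := by
  by_contra hk
  exact ((nsq_pos_iff u).2 ⟨k, hk⟩).ne' h

theorem nsq_smul (c : ℂ) (u : ι → ℂ) : nsq (fun k => u k * c) = nsq u * normSq c := by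
  simp only [nsq, map_mul, Finset.sum_mul]

/-- The identity of Lagrange. -/
theorem lagrange (u a : ι → ℂ) :
    2 * (nsq u * nsq a - normSq (hp u a)) = ∑ k, ∑ l, normSq (u k * a l - u l * a k) := by
  have h : ((2 * (nsq u * nsq a - normSq (hp u a)) : ℝ) : ℂ) =
      ((∑ k, ∑ l, normSq (u k * a l - u l * a k) : ℝ) : ℂ) := by
    have e1 : (nsq u : ℂ) * nsq a = ∑ k, ∑ l, star (u k) * u k * (star (a l) * a l) := by
      rw [nsq_coe, nsq_coe, hp, hp, Finset.sum_mul_sum]
    have e2 : (nsq u : ℂ) * nsq a = ∑ k, ∑ l, star (u l) * u l * (star (a k) * a k) := by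
      rw [e1, Finset.sum_comm]
    have e3 : (normSq (hp u a) : ℂ) = ∑ k, ∑ l, star (a k) * u k * (star (u l) * a l) := by
      rw [normSq_eq_conj_mul_self, ← star_def, star_hp, hp, hp, Finset.sum_mul_sum]
    have e4 : (normSq (hp u a) : ℂ) = ∑ k, ∑ l, star (a l) * u l * (star (u k) * a k) := by
      rw [e3, Finset.sum_comm]
    have e5 : ((2 * (nsq u * nsq a - normSq (hp u a)) : ℝ) : ℂ) =
        (nsq u : ℂ) * nsq a + (nsq u : ℂ) * nsq a - normSq (hp u a) - normSq (hp u a) := by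
      push_cast; ring
    rw [e5]
    nth_rewrite 1 [e1]
    nth_rewrite 1 [e2]
    nth_rewrite 1 [e3]
    rw [e4]
    simp only [ofReal_sum, ← Finset.sum_add_distrib, ← Finset.sum_sub_distrib]
    refine Finset.sum_congr rfl fun k _ => Finset.sum_congr rfl fun l _ => ?_
    rw [normSq_eq_conj_mul_self, ← star_def, star_sub, star_mul', star_mul']
    ring
  exact_mod_cast h

/-- The inequality of Cauchy and Schwarz. -/
theorem cs (u a : ι → ℂ) : normSq (hp u a) ≤ nsq u * nsq a := by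
  have h := lagrange u a
  have : 0 ≤ ∑ k, ∑ l, normSq (u k * a l - u l * a k) :=
    Finset.sum_nonneg fun _ _ => Finset.sum_nonneg fun _ _ => normSq_nonneg _
  linarith

/-- The case of equality. -/
theorem par_of_eq {u a : ι → ℂ} (h : nsq u * nsq a - normSq (hp u a) = 0) (k l : ι) :
    u k * a l = u l * a k := by
  have h1 := lagrange u a
  rw [h, mul_zero] at h1
  have h2 := (Finset.sum_eq_zero_iff_of_nonneg fun k _ =>
    Finset.sum_nonneg fun l _ => normSq_nonneg (u k * a l - u l * a k)).1 h1.symm k (Finset.mem_univ _)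
  have h3 := (Finset.sum_eq_zero_iff_of_nonneg fun l _ =>
    normSq_nonneg (u k * a l - u l * a k)).1 h2 l (Finset.mem_univ _)
  exact sub_eq_zero.1 (normSq_eq_zero.1 h3)

/-- A vector parallel to `u` is a multiple of `u`. -/
theorem par_mul {u a : ι → ℂ} (h : ∀ k l, u k * a l = u l * a k) (l : ι) :
    (nsq u : ℂ) * a l = u l * hp u a := by
  rw [nsq_coe, hp, hp, Finset.sum_mul, Finset.mul_sum]
  refine Finset.sum_congr rfl fun k _ => ?_
  rw [mul_assoc, h k l]; ring

theorem par_div {u a : ι → ℂ} (hu : 0 < nsq u) (h : ∀ k l, u k * a l = u l * a k) (l : ι) :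
    a l = u l * (hp u a / nsq u) := by
  have h0 : (nsq u : ℂ) ≠ 0 := ofReal_ne_zero.2 hu.ne'
  rw [← mul_div_assoc, ← par_mul h l]; field_simp

/-- The polarisation matrix. -/
def pm (s : ℝ) (u : ι → ℂ) (l k : ι) : ℂ :=
  (if l = k then 1 else 0) - s * (u l * star (u k) / nsq u)

theorem star_pm (s : ℝ) (u : ι → ℂ) (l k : ι) : star (pm s u l k) = pm s u k l := by
  simp only [pm, star_sub, star_mul', star_div₀, star_def, conj_ofReal, eq_comm (a := l)]
  split_ifs <;> simp [mul_comm]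

theorem pm_sum (s : ℝ) (u a : ι → ℂ) (l : ι) :
    ∑ k, pm s u l k * a k = a l - s * (u l * hp u a / nsq u) := by
  simp only [pm, sub_mul, Finset.sum_sub_distrib, ite_mul, one_mul, zero_mul,
    Finset.sum_ite_eq, Finset.mem_univ, if_true, hp, Finset.mul_sum, Finset.sum_div]
  congr 1
  exact Finset.sum_congr rfl fun k _ => by ring

theorem pm_smul (s : ℝ) (u : ι → ℂ) {c : ℂ} (hc : c ≠ 0) : pm s (fun k => u k * c) = pm s u := by
  funext l k
  simp only [pm, nsq_smul, ofReal_mul, normSq_eq_conj_mul_self, star_mul', star_def]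
  have : (starRingEnd ℂ) c ≠ 0 := (map_ne_zero _).2 hc
  congr 2
  by_cases h0 : (nsq u : ℂ) = 0
  · simp [h0]
  · field_simp

/-- The value of the polarisation form on a vector of scalars. -/
theorem pm_form (s : ℝ) (u a : ι → ℂ) :
    ∑ l, (∑ k, pm s u l k * a k) * star (a l) = ((nsq a - s * (normSq (hp u a) / nsq u) : ℝ) : ℂ) := by
  simp only [pm_sum, sub_mul, Finset.sum_sub_distrib]
  push_cast
  rw [nsq_coe' a, normSq_eq_conj_mul_self, ← star_def, star_hp]
  congr 1
  rw [show hp a u = ∑ k, star (a k) * u k from rfl, Finset.sum_mul, Finset.sum_div, Finset.mul_sum]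
  exact Finset.sum_congr rfl fun l _ => by ring

theorem pm_low {s : ℝ} (hs : 0 ≤ s) (u a : ι → ℂ) :
    (1 - s) * nsq a ≤ nsq a - s * (normSq (hp u a) / nsq u) := by
  have h : normSq (hp u a) / nsq u ≤ nsq a := by
    rcases (nsq_nn u).eq_or_lt with h0 | h0
    · rw [← h0, div_zero]; exact nsq_nn a
    · rw [div_le_iff₀ h0, mul_comm]; exact cs u a
  nlinarith

variable {n : ℕ}

/-- The sesquilinear form of a matrix. -/
def sq (H : Mat n) (v w : E n) : ℂ := star v ⬝ᵥ H *ᵥ w

theorem nq_nn {H : Mat n} (hH : H.PosSemidef) (v : E n) : 0 ≤ nq H v :=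
  (Complex.nonneg_iff.1 (hH.dotProduct_mulVec_nonneg v)).1

theorem sq_self {H : Mat n} (hH : H.PosSemidef) (v : E n) : sq H v v = nq H v := by
  have := (Complex.nonneg_iff.1 (hH.dotProduct_mulVec_nonneg v)).2
  exact Complex.ext rfl (by simpa [sq] using this.symm)

theorem sq_sum_right (H : Mat n) (v : E n) (c : ι → ℂ) (W : ι → E n) :
    sq H v (∑ k, c k • W k) = ∑ k, c k * sq H v (W k) := by
  simp only [sq, Matrix.mulVec_sum, dotProduct_sum, Matrix.mulVec_smul, dotProduct_smul,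
    smul_eq_mul]

theorem sq_sum_left (H : Mat n) (w : E n) (c : ι → ℂ) (W : ι → E n) :
    sq H (∑ k, c k • W k) w = ∑ k, star (c k) * sq H (W k) w := by
  simp only [sq, star_sum, star_smul, sum_dotProduct, smul_dotProduct, smul_eq_mul]

/-- The value of the polarisation form on a family of vectors. -/
theorem pm_sq {H : Mat n} (hH : H.PosSemidef) (s : ℝ) (u : ι → ℂ) (V : ι → E n) :
    ∑ l, ∑ k, pm s u l k * sq H (V l) (V k) =
      ((∑ k, nq H (V k) - s * (nq H (∑ k, star (u k) • V k) / nsq u) : ℝ) : ℂ) := by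
  simp only [pm_sum, Finset.sum_sub_distrib]
  push_cast
  simp only [← sq_self hH]
  congr 1
  rw [sq_sum_left, Finset.sum_div, Finset.mul_sum]
  refine Finset.sum_congr rfl fun l _ => ?_
  rw [sq_sum_right, star_star, hp]

theorem cs_sq {H : Mat n} (hH : H.PosSemidef) (u : ι → ℂ) (V : ι → E n) :
    nq H (∑ k, star (u k) • V k) ≤ nsq u * ∑ k, nq H (V k) := by
  obtain ⟨B, hB⟩ := CStarAlgebra.nonneg_iff_eq_star_mul_self.1 hH.nonneg
  obtain rfl : H = Bᴴ * B := hB
  have e : ∀ v : E n, nq (Bᴴ * B) v = nsq (B *ᵥ v) := fun v => by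
    have : star v ⬝ᵥ (Bᴴ * B) *ᵥ v = (nsq (B *ᵥ v) : ℂ) := by
      rw [← Matrix.mulVec_mulVec, Matrix.dotProduct_mulVec, Matrix.vecMul_conjTranspose, star_star,
        nsq_coe]
      rfl
    rw [nq, this, ofReal_re]
  simp only [e, nsq]
  rw [Finset.sum_comm, Finset.mul_sum]
  refine Finset.sum_le_sum fun i _ => ?_
  have : (B *ᵥ ∑ k, star (u k) • V k) i = hp u fun k => (B *ᵥ V k) i := by
    simp only [Matrix.mulVec_sum, Matrix.mulVec_smul, Finset.sum_apply, Pi.smul_apply, smul_eq_mul,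
      hp]
  rw [this]
  exact cs u _

/-- Positivity of the polarisation form. -/
theorem pm_sq_low {H : Mat n} (hH : H.PosSemidef) {s : ℝ} (hs : 0 ≤ s) (u : ι → ℂ) (V : ι → E n) :
    (1 - s) * ∑ k, nq H (V k) ≤
      ∑ k, nq H (V k) - s * (nq H (∑ k, star (u k) • V k) / nsq u) := by
  have h : nq H (∑ k, star (u k) • V k) / nsq u ≤ ∑ k, nq H (V k) := by
    rcases (nsq_nn u).eq_or_lt with h0 | h0
    · rw [← h0, div_zero]; exact Finset.sum_nonneg fun k _ => nq_nn hH _
    · rw [div_le_iff₀ h0, mul_comm]; exact cs_sq hH u V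
  nlinarith

end alg

section calc1

variable {ι : Type} [Fintype ι] {n : ℕ} {f : E n → ι → ℂ} {z : E n}

theorem diff_nsqC (hf : ∀ k, DifferentiableAt ℝ (fun w => f w k) z) :
    DifferentiableAt ℝ (fun w => (nsq (f w) : ℂ)) z := by
  simp only [nsq_coe']
  exact DifferentiableAt.fun_sum fun k _ => (hf k).mul (diff_star (hf k))

theorem diff_nsq (hf : ∀ k, DifferentiableAt ℝ (fun w => f w k) z) :
    DifferentiableAt ℝ (fun w => nsq (f w)) z :=
  reCLM.differentiableAt.comp z (diff_nsqC hf)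

theorem cd_nsqC (hf : ∀ k, ContDiffAt ℝ ∞ (fun w => f w k) z) :
    ContDiffAt ℝ ∞ (fun w => (nsq (f w) : ℂ)) z := by
  simp only [nsq_coe']
  exact ContDiffAt.sum fun k _ => (hf k).mul (cd_star (hf k))

theorem cd_nsq (hf : ∀ k, ContDiffAt ℝ ∞ (fun w => f w k) z) :
    ContDiffAt ℝ ∞ (fun w => nsq (f w)) z := cd_re (cd_nsqC hf)

theorem dz_nsq (hf : ∀ k, DifferentiableAt ℝ (fun w => f w k) z) (j : Fin n) :
    dz j (fun w => (nsq (f w) : ℂ)) z =
      hp (f z) (fun k => dz j (fun w => f w k) z) +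
        star (hp (f z) fun k => dzb j (fun w => f w k) z) := by
  simp only [nsq_coe']
  rw [dz_sum fun k _ => (hf k).fun_mul (diff_star (hf k)), star_hp, hp, hp, ← Finset.sum_add_distrib]
  refine Finset.sum_congr rfl fun k _ => ?_
  rw [dz_mul (hf k) (diff_star (hf k)), dz_star (hf k)]; ring

theorem dzb_nsq (hf : ∀ k, DifferentiableAt ℝ (fun w => f w k) z) (j : Fin n) :
    dzb j (fun w => (nsq (f w) : ℂ)) z =
      hp (f z) (fun k => dzb j (fun w => f w k) z) +
        star (hp (f z) fun k => dz j (fun w => f w k) z) := by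
  simp only [nsq_coe']
  rw [dzb_sum fun k _ => (hf k).fun_mul (diff_star (hf k)), star_hp, hp, hp, ← Finset.sum_add_distrib]
  refine Finset.sum_congr rfl fun k _ => ?_
  rw [dzb_mul (hf k) (diff_star (hf k)), dzb_star (hf k)]; ring

theorem cd_rpow (hf : ∀ k, ContDiffAt ℝ ∞ (fun w => f w k) z) (h0 : 0 < nsq (f z)) (t : ℝ) :
    ContDiffAt ℝ ∞ (fun w => nsq (f w) ^ t) z := (cd_nsq hf).rpow_const_of_ne h0.ne'

theorem cd_log (hf : ∀ k, ContDiffAt ℝ ∞ (fun w => f w k) z) (h0 : 0 < nsq (f z)) :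
    ContDiffAt ℝ ∞ (fun w => Real.log (nsq (f w))) z := (cd_nsq hf).log h0.ne'

theorem cd_pm (hf : ∀ k, ContDiffAt ℝ ∞ (fun w => f w k) z) (h0 : 0 < nsq (f z)) (s : ℝ)
    (l k : ι) : ContDiffAt ℝ ∞ (fun w => pm s (f w) l k) z := by
  simp only [pm, div_eq_mul_inv]
  exact contDiffAt_const.sub (contDiffAt_const.mul
    (((hf l).mul (cd_star (hf k))).mul ((cd_nsqC hf).inv (ofReal_ne_zero.2 h0.ne'))))

theorem diff_rpowC (hf : ∀ k, DifferentiableAt ℝ (fun w => f w k) z) (h0 : 0 < nsq (f z)) (t : ℝ) :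
    DifferentiableAt ℝ (fun w => ((nsq (f w) ^ t : ℝ) : ℂ)) z :=
  ofRealCLM.differentiableAt.comp z ((diff_nsq hf).rpow_const (Or.inl h0.ne'))

theorem dz_rpow (hf : ∀ k, DifferentiableAt ℝ (fun w => f w k) z) (h0 : 0 < nsq (f z)) (t : ℝ)
    (j : Fin n) : dz j (fun w => ((nsq (f w) ^ t : ℝ) : ℂ)) z =
      (nsq (f z) ^ t : ℝ) * (t * (dz j (fun w => (nsq (f w) : ℂ)) z / nsq (f z))) := by
  rw [dz_comp_real (φ := fun x => x ^ t) (Real.hasDerivAt_rpow_const (Or.inl h0.ne')) (diff_nsq hf),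
    Real.rpow_sub_one h0.ne']
  push_cast; ring

theorem dzb_rpow (hf : ∀ k, DifferentiableAt ℝ (fun w => f w k) z) (h0 : 0 < nsq (f z)) (t : ℝ)
    (j : Fin n) : dzb j (fun w => ((nsq (f w) ^ t : ℝ) : ℂ)) z =
      (nsq (f z) ^ t : ℝ) * (t * (dzb j (fun w => (nsq (f w) : ℂ)) z / nsq (f z))) := by
  rw [dzb_comp_real (φ := fun x => x ^ t) (Real.hasDerivAt_rpow_const (Or.inl h0.ne')) (diff_nsq hf),
    Real.rpow_sub_one h0.ne']
  push_cast; ring

theorem dz_log (hf : ∀ k, DifferentiableAt ℝ (fun w => f w k) z) (h0 : 0 < nsq (f z))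
    (j : Fin n) : dz j (fun w => (Real.log (nsq (f w)) : ℂ)) z =
      dz j (fun w => (nsq (f w) : ℂ)) z / nsq (f z) := by
  rw [dz_comp_real (Real.hasDerivAt_log h0.ne') (diff_nsq hf)]
  push_cast; ring

theorem dzb_log (hf : ∀ k, DifferentiableAt ℝ (fun w => f w k) z) (h0 : 0 < nsq (f z))
    (j : Fin n) : dzb j (fun w => (Real.log (nsq (f w)) : ℂ)) z =
      dzb j (fun w => (nsq (f w) : ℂ)) z / nsq (f z) := by
  rw [dzb_comp_real (Real.hasDerivAt_log h0.ne') (diff_nsq hf)]
  push_cast; ring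

/-- The `(0,1)` derivative of `g` times a negative power of the sum of squares. -/
theorem dzb_mul_rpow {g : E n → ℂ} (hg : DifferentiableAt ℝ g z)
    (hf : ∀ k, DifferentiableAt ℝ (fun w => f w k) z) (h0 : 0 < nsq (f z)) (s : ℝ) (j : Fin n) :
    dzb j (fun w => g w * ((nsq (f w) ^ (-s) : ℝ) : ℂ)) z = (nsq (f z) ^ (-s) : ℝ) *
      (dzb j g z - s * (g z * hp (f z) (fun k => dzb j (fun w => f w k) z) / nsq (f z)) -
        s * (g z * star (hp (f z) (fun k => dz j (fun w => f w k) z) / nsq (f z)))) := by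
  rw [dzb_mul hg (diff_rpowC hf h0 _), dzb_rpow hf h0, dzb_nsq hf, star_div₀, star_def, conj_ofReal]
  push_cast; ring

/-- The polarisation identity. -/
theorem dzb_pol (hf : ∀ k, DifferentiableAt ℝ (fun w => f w k) z) (h0 : 0 < nsq (f z)) (s : ℝ)
    (l : ι) (j : Fin n) :
    dzb j (fun w => f w l * ((nsq (f w) ^ (-s) : ℝ) : ℂ)) z = (nsq (f z) ^ (-s) : ℝ) *
      (∑ k, pm s (f z) l k * dzb j (fun w => f w k) z -
        s * (f z l * star (hp (f z) (fun k => dz j (fun w => f w k) z) / nsq (f z)))) := by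
  rw [dzb_mul_rpow (hf l) hf h0, pm_sum]

end calc1

section hol

variable {ι : Type} [Fintype ι] {n : ℕ} {u : E n → ι → ℂ} {z : E n}

/-- The derivative of the family `u` along the vector `v`. -/
def du (u : E n → ι → ℂ) (z v : E n) : ι → ℂ := fun k => ∑ j, dz j (fun w => u w k) z * v j

theorem hp_du (a : ι → ℂ) (v : E n) :
    hp a (du u z v) = ∑ j, hp a (fun k => dz j (fun w => u w k) z) * v j := by
  simp only [hp, du, Finset.mul_sum, Finset.sum_mul, mul_assoc]
  exact Finset.sum_comm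

omit [Fintype ι] in
theorem hol_sm (hu : ∀ k, HolN (fun w => u w k) z) (k : ι) : ContDiffAt ℝ ∞ (fun w => u w k) z :=
  ((mHOL n _ z).2.2 (hu k)).1

theorem dzb_hol {g : E n → ℂ} (hg : DifferentiableAt ℂ g z) (j : Fin n) : dzb j g z = 0 :=
  ((mHOL n g z).1 (hg.restrictScalars ℝ)).1 hg j

theorem dz_nsq_hol (hu : ∀ k, DifferentiableAt ℂ (fun w => u w k) z) (j : Fin n) :
    dz j (fun w => (nsq (u w) : ℂ)) z = hp (u z) fun k => dz j (fun w => u w k) z := by
  rw [dz_nsq fun k => (hu k).restrictScalars ℝ]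
  simp [hp, dzb_hol (hu _)]

theorem dzb_nsq_hol (hu : ∀ k, DifferentiableAt ℂ (fun w => u w k) z) (j : Fin n) :
    dzb j (fun w => (nsq (u w) : ℂ)) z = star (hp (u z) fun k => dz j (fun w => u w k) z) := by
  rw [dzb_nsq fun k => (hu k).restrictScalars ℝ]
  simp [hp, dzb_hol (hu _)]

/-- The Hessian of the logarithm of a sum of squares of holomorphic functions. -/
theorem hess_log (hu : ∀ k, HolN (fun w => u w k) z) (h0 : 0 < nsq (u z)) (i j : Fin n) :
    hess (fun w => (Real.log (nsq (u w)) : ℂ)) z i j =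
      (nsq (u z) * hp (fun k => dz i (fun w => u w k) z) (fun k => dz j (fun w => u w k) z) -
        star (hp (u z) fun k => dz i (fun w => u w k) z) *
          hp (u z) fun k => dz j (fun w => u w k) z) / nsq (u z) ^ 2 := by
  have hs := hol_sm hu
  have h1 : ∀ᶠ w in 𝓝 z, ∀ k, DifferentiableAt ℂ (fun w => u w k) w := eventually_all.2 hu
  have h2 : ∀ᶠ w in 𝓝 z, 0 < nsq (u w) := (cd_nsq hs).continuousAt.eventually (lt_mem_nhds h0)
  have e : dz j (fun w => (Real.log (nsq (u w)) : ℂ)) =ᶠ[𝓝 z] fun w =>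
      (∑ k, star (u w k) * dz j (fun w => u w k) w) * ((nsq (u w) : ℂ))⁻¹ := by
    filter_upwards [h1, h2] with w a b
    rw [dz_log (fun k => (a k).restrictScalars ℝ) b, dz_nsq_hol a, hp, div_eq_mul_inv]
  have hd : ∀ k, DifferentiableAt ℝ (fun w => star (u w k) * dz j (fun w => u w k) w) z :=
    fun k => (diff_star (cd_diff (hs k))).mul (cd_diff (cd_dz (hs k) j))
  have hN := diff_nsqC fun k => cd_diff (hs k)
  have h0' : (nsq (u z) : ℂ) ≠ 0 := ofReal_ne_zero.2 h0.ne'
  rw [hess, Matrix.of_apply, dzb_congr e, dzb_mul (DifferentiableAt.fun_sum fun k _ => hd k)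
    (hN.fun_inv h0'), dzb_inv hN h0', dzb_nsq_hol h1.self_of_nhds, dzb_sum fun k _ => hd k]
  have e2 : ∀ k, dzb i (fun w => star (u w k) * dz j (fun w => u w k) w) z =
      star (dz i (fun w => u w k) z) * dz j (fun w => u w k) z := fun k => by
    rw [dzb_mul (diff_star (cd_diff (hs k))) (cd_diff (cd_dz (hs k) j)), dzb_star (cd_diff (hs k)),
      dzb_hol (((mHOL n _ z).2.2 (hu k)).2.1 j).self_of_nhds, mul_zero, add_zero]
  simp only [e2, hp]
  field_simp
  ring

theorem sq_hess_log (hu : ∀ k, HolN (fun w => u w k) z) (h0 : 0 < nsq (u z)) (v v' : E n) :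
    sq (hess (fun w => (Real.log (nsq (u w)) : ℂ)) z) v v' =
      (nsq (u z) * hp (du u z v) (du u z v') -
        star (hp (u z) (du u z v)) * hp (u z) (du u z v')) / nsq (u z) ^ 2 := by
  have e1 : hp (du u z v) (du u z v') = ∑ i, ∑ j, star (v i) *
      (hp (fun k => dz i (fun w => u w k) z) (fun k => dz j (fun w => u w k) z) * v' j) := by
    rw [← star_hp, hp_du, star_sum]
    refine Finset.sum_congr rfl fun i _ => ?_
    rw [star_mul', star_hp, hp_du, Finset.sum_mul]
    exact Finset.sum_congr rfl fun j _ => by ring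
  rw [e1, hp_du, hp_du, star_sum, Finset.sum_mul_sum, Finset.mul_sum, ← Finset.sum_sub_distrib,
    Finset.sum_div, sq, dotProduct]
  refine Finset.sum_congr rfl fun i _ => ?_
  rw [Finset.mul_sum, ← Finset.sum_sub_distrib, Finset.sum_div, Matrix.mulVec, dotProduct,
    Finset.mul_sum]
  refine Finset.sum_congr rfl fun j _ => ?_
  rw [hess_log hu h0, star_mul', Pi.star_apply]; ring

theorem nq_hess_log (hu : ∀ k, HolN (fun w => u w k) z) (h0 : 0 < nsq (u z)) (v : E n) :
    nq (hess (fun w => (Real.log (nsq (u w)) : ℂ)) z) v =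
      (nsq (u z) * nsq (du u z v) - normSq (hp (u z) (du u z v))) / nsq (u z) ^ 2 := by
  have h := sq_hess_log hu h0 v v
  rw [← nsq_coe, star_def, ← normSq_eq_conj_mul_self] at h
  rw [nq, ← sq, h]
  norm_cast

/-- The form of Fubini and Study is semi-positive. -/
theorem psd_hess_log (hu : ∀ k, HolN (fun w => u w k) z) (h0 : 0 < nsq (u z)) :
    (hess (fun w => (Real.log (nsq (u w)) : ℂ)) z).PosSemidef := by
  refine Matrix.PosSemidef.of_dotProduct_mulVec_nonneg (hess_herm (cd_log (hol_sm hu) h0)) fun v => ?_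
  have h := sq_hess_log hu h0 v v
  rw [← nsq_coe, star_def, ← normSq_eq_conj_mul_self] at h
  rw [← sq, h]
  have : 0 ≤ (nsq (u z) * nsq (du u z v) - normSq (hp (u z) (du u z v))) / nsq (u z) ^ 2 :=
    div_nonneg (sub_nonneg.2 (cs _ _)) (by positivity)
  exact_mod_cast this

/-- A null vector of the form of Fubini and Study moves `u` parallel to itself. -/
theorem par_of_nq (hu : ∀ k, HolN (fun w => u w k) z) (h0 : 0 < nsq (u z)) {v : E n}
    (h : nq (hess (fun w => (Real.log (nsq (u w)) : ℂ)) z) v = 0) (k l : ι) :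
    u z k * du u z v l = u z l * du u z v k := by
  rw [nq_hess_log hu h0, div_eq_zero_iff] at h
  exact par_of_eq (h.resolve_right (by positivity)) k l

theorem par_of_mulVec (hu : ∀ k, HolN (fun w => u w k) z) (h0 : 0 < nsq (u z)) {v : E n}
    (h : hess (fun w => (Real.log (nsq (u w)) : ℂ)) z *ᵥ v = 0) (k l : ι) :
    u z k * du u z v l = u z l * du u z v k :=
  par_of_nq hu h0 (by rw [nq, h, dotProduct_zero, zero_re]) k l

theorem mulVec_of_par (hu : ∀ k, HolN (fun w => u w k) z) (h0 : 0 < nsq (u z)) {v : E n}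
    (h : ∀ k l, u z k * du u z v l = u z l * du u z v k) :
    hess (fun w => (Real.log (nsq (u w)) : ℂ)) z *ᵥ v = 0 := by
  rw [← (psd_hess_log hu h0).dotProduct_mulVec_zero_iff, ← sq, sq_self (psd_hess_log hu h0),
    nq_hess_log hu h0]
  have h1 := lagrange (u z) (du u z v)
  simp only [h, sub_self, map_zero, Finset.sum_const_zero] at h1
  rw [show nsq (u z) * nsq (du u z v) - normSq (hp (u z) (du u z v)) = 0 by linarith]
  simp

/-- The polarisation matrix is constant along the conjugate of a null vector. -/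
theorem dzb_pm (hu : ∀ k, DifferentiableAt ℂ (fun w => u w k) z) (h0 : 0 < nsq (u z)) {v : E n}
    (h : ∀ k l, u z k * du u z v l = u z l * du u z v k) (s : ℝ) (l k : ι) :
    ∑ j, star (v j) * dzb j (fun w => pm s (u w) l k) z = 0 := by
  have hr := fun k => (hu k).restrictScalars ℝ
  have hN := diff_nsqC hr
  have h0' : (nsq (u z) : ℂ) ≠ 0 := ofReal_ne_zero.2 h0.ne'
  have e : ∀ j, dzb j (fun w => pm s (u w) l k) z = -(s * (u z l *
      (star (dz j (fun w => u w k) z) / nsq (u z) - star (u z k) *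
        star (hp (u z) fun k => dz j (fun w => u w k) z) / nsq (u z) ^ 2))) := fun j => by
    simp only [pm, div_eq_mul_inv]
    have h1 := (hr l).fun_mul (diff_star (hr k))
    have h2 := hN.fun_inv h0'
    rw [dzb_sub (differentiableAt_const _) ((h1.fun_mul h2).const_mul _), dzb_const,
      dzb_const_mul _ (h1.fun_mul h2), dzb_mul h1 h2,
      dzb_mul (hr l) (diff_star (hr k)), dzb_star (hr k), dzb_hol (hu l), dzb_inv hN h0',
      dzb_nsq_hol hu]
    ring
  have e2 : ∑ j, star (v j) * dzb j (fun w => pm s (u w) l k) z = -(s * (u z l *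
      (star (du u z v k) / nsq (u z) - star (u z k) * star (hp (u z) (du u z v)) / nsq (u z) ^ 2))) := by
    simp only [e, hp_du, du, star_sum, star_mul', Finset.mul_sum, Finset.sum_div, mul_sub,
      ← Finset.sum_sub_distrib, ← Finset.sum_neg_distrib]
    exact Finset.sum_congr rfl fun j _ => by ring
  rw [e2, par_div h0 h k, star_mul', star_div₀, star_def, conj_ofReal]
  field_simp
  ring

end hol

end Pool.Agent.Lib.EX.K62
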