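import Pool.Agent.Lib.EX.Blue

/-! Project ex41: the adjoint of the sum of the normal components. -/

open scoped Classical Topology ContDiff ComplexOrder Matrix
open Set MeasureTheory Complex Metric Filter

set_option linter.unusedVariables false

noncomputable section

namespace Pool.Agent.Lib.EX

open Pool.Agent.Lib.SV (E)
open Pool.Agent.Lib.HS32
open Pool.Agent.Lib.EXA (Val SmN emb)

namespace ADJ98

theorem ev_B2 {n : ℕ} {z : E n} (hz : z ∈ B2 n) : ∀ᶠ y in 𝓝 z, y ∈ B2 n :=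
  isOpen_ball.mem_nhds hz

theorem sm_comp {n : ℕ} {V : E n → E n} {z : E n} (hz : z ∈ B2 n)
    (h : ∀ y ∈ B2 n, DifferentiableAt ℂ V y) (j : Fin n) : SmN (fun y => V y j) z := by
  have h1 : HolN (fun y => V y j) z :=
    (ev_B2 hz).mono fun y hy => differentiableAt_pi.1 (h y hy) j
  exact h1.eventually_nhds.mono fun w hw => ((mHOL n _ w).2.2 hw).1

end ADJ98

open ADJ98 in
theorem bADJ98 (hML : St_ML) (hPRD : St_PRD) (hMAIN : St_MAIN) (hRES : St_RES) (hINC : St_INC)
    (hUT : St_UT) (hDEL : St_DEL) (hMOD : St_MOD) : St_ADJ := by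
  intro n M _ H ι _ _ D κ _ L p V V' F σ hp hV hF hR
  have hrT : ∀ i ∈ L.T, L.r i = 0 := fun i hi => (L.rT i hi).1
  have hU := (hUT n M ι D κ L).1
  have hb : ∀ d, ∀ z ∈ B2 n, SmN (L.b d) z := fun d z hz =>
    (ev_B2 hz).mono fun y hy => (hU d y hy).2.2.2.1
  have hP : D.All fun d z => Pol (D.c d) L.G (D.rd F d) z := fun d z hz =>
    (hINC n ι (D.c d) L.G L.r L.T (p + 1 + 1) _ z).2.2.2.2.2.1
      ((hRES n ι (D.c d) L.G L.T (p + 1) _ 0 _ 0 z (D.inj d)).1 (hF d z hz)).1
  have hD := hDEL n M ι D L.G L.T p V fun I hI => (hV I hI).toFld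
  refine hML n M ι D κ L p V F L.G _ _ hp hV (fun i _ _ => le_rfl) hP ?_ ?_
  · intro d z hz
    have hM := fun ρ ρ' F F' => hMAIN n ι (D.c d) L.r L.T p ρ ρ' F F' z
    have hvh : ∀ j, Res (D.c d) L.G L.T p (fun I y => V I d y j) (fun y => L.vh p V d y j) z :=
      fun j => (hRES n ι (D.c d) L.G L.T p _ 0 0 0 z (D.inj d)).2.2.2.2.2.2.2.2.1
        fun I hI => sm_comp hz ((hV I hI).hol d) j
    choose ρ hρ hρ' using hR d z hz
    have h1 : ∀ j, Main (D.c d) L.r L.T p (fun I y => (L.b d y : ℝ) * (ρ j I y * star (V I d y j)))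
        (fun y => (L.dd d y : ℝ) * (dzb j (D.rd F d) y * star (L.vh p V d y j))) z := fun j =>
      (hPRD n ι (D.c d) L.G L.r L.T p (L.b d) _ _ z (hb d z hz) hrT).2.2 _ _ (hρ j) (hvh j)
    have hN := (hMOD n ι (D.c d) L.G L.r L.T p).2.2.2.2.2.2
    have h2 : ∀ j, Nul (D.c d) L.r p (fun y => (-L.s : ℂ) * ((L.dd d y : ℝ) *
        ((D.rd F d y * L.eta d j y) * star (L.vh p V d y j)))) z := by
      intro j
      rcases hp with hp | hp
      · have e1 : Pol (D.c d) (L.G + -sp L.a) (D.rd F d * L.eta d j) z :=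
          ((hINC n ι (D.c d) L.G L.r L.T p _ z).2.2.2.1 _ _).1 (hP d z hz)
            ((hU d z hz).2.2.2.2.2.2.2.2.2.2 j).1
        have e2 : Pol (D.c d) (fun i => L.G i - if i ∈ L.T then 1 else 0)
            (D.rd F d * L.eta d j) z := by
          refine ((hINC n ι (D.c d) _ L.r L.T p _ z).2.2.1 _ fun i => ?_).1 e1
          simp only [Pi.add_apply, Pi.neg_apply, sp]
          by_cases hi : i ∈ L.T
          · rw [if_neg (L.rT i hi).2, if_pos hi]; omega
          · rw [if_neg hi]; split_ifs <;> omega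
        have e3 := (hINC n ι (D.c d) L.G L.r L.T p (D.rd F d * L.eta d j) z).2.2.2.2.2.2.2.2.2.1.2 e2
        have e4 := ((hINC n ι (D.c d) L.G L.r L.T 1 (D.rd F d * L.eta d j) z).2.2.2.2.1 p hp).1 e3
        have e5 := (hPRD n ι (D.c d) L.G L.r L.T p (L.b d) _ _ z (hb d z hz) hrT).2.1 e4
          ((hRES n ι (D.c d) L.G L.T p _ 0 _ 0 z (D.inj d)).1 (hvh j)).1
        exact hN.mul (fun _ => (-L.s : ℂ)) _ z (Eventually.of_forall fun _ => contDiffAt_const) e5
      · refine hN.cong _ _ z (hN.zero z) (Eventually.of_forall fun y _ => ?_)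
        simp [hp]
    have h3 := (hM 0 0 0 0).2.2.2.2 (Fin n) Finset.univ _ _ fun j _ =>
      (hM _ _ _ _).2.1 (h1 j) ((hM 0 0 _ 0).1 (h2 j))
    refine (hM _ _ _ _).2.2.2.1 h3 (Eventually.of_forall fun y _ => ?_) fun I hI => ?_
    · simp only [Finset.sum_apply, Pi.add_apply, Finset.mul_sum, Lv.nab]
      exact Finset.sum_congr rfl fun j _ => by ring
    · have e : ∀ᶠ y in 𝓝 z, ∀ j, ¬ Nm (D.c d) I j → Sl (D.c d) I y →
          ρ j I y = (H (D.e d) y *ᵥ V' I d y) j := by
        refine eventually_all.2 fun j => ?_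
        by_cases hj : Nm (D.c d) I j
        · exact Eventually.of_forall fun y h => absurd hj h
        · exact (hρ' j I hI hj).mono fun y h _ => h
      filter_upwards [e, ev_B2 hz] with y hy hyB hs
      simp only [Finset.sum_apply, Pi.add_apply, Pi.zero_apply, add_zero, dotProduct,
        Finset.mul_sum, Pi.star_apply]
      refine Finset.sum_congr rfl fun j _ => ?_
      by_cases hj : Nm (D.c d) I j
      · rw [(hV I hI).nm d y hyB j hj]; simp
      · rw [hy j hj hs]; ring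
  · intro d z hz
    have hh : Res (D.c d) L.G L.T (p + 1) (fun J => D.dl L.T p V J d)
        (hat (D.c d) L.G L.T (p + 1) fun J => D.dl L.T p V J d) z :=
      (hRES n ι (D.c d) L.G L.T (p + 1) _ 0 0 0 z (D.inj d)).2.2.2.2.2.2.2.2.1
        fun I hI => (ev_B2 hz).mono fun y hy => (hD.sec I hI).sm d y hy
    exact (hPRD n ι (D.c d) L.G L.r L.T (p + 1) (L.b d) _ _ z (hb d z hz) hrT).2.2 _ _
      (hF d z hz) hh

end Pool.Agent.Lib.EX
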