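import Pool.Agent.Lib.EX.Blue

/-! Project ex41: averages of local functions. -/

open scoped Classical Topology ContDiff
open Set Filter

noncomputable section

namespace Pool.Agent.Lib.EX

open Pool.Agent.Lib.SV (E)
open Pool.Agent.Lib.HS32
open Pool.Agent.Lib.EXA (SmN)

namespace AVG

variable {n : ℕ} {M : Mf n} {ι : Type} [Fintype ι] [DecidableEq ι] (D : Ad M ι)

omit [Fintype ι] [DecidableEq ι] in
/-- The functions of the partition of unity are smooth in every chart. -/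
theorem chi_sm (a b : D.A) {z : E n} (hz : z ∈ B2 n) :
    SmN (fun y => ((D.rd (D.χ b) a y : ℝ) : ℂ)) z :=
  (Mf.AllOn.ev (D.sm b) (D.mem a) (D.tgt a ▸ hz)).mono fun _ h => cd_ofReal h

/-- A sum against the partition of unity. -/
theorem sum_mem [M.Cpt] (hT : St_TRF) {P : (E n → ℂ) → E n → Prop} {a : D.A}
    (hP : Mod (D.c a) P) (F : D.A → E n → ℂ) {z : E n} (hz : z ∈ B2 n)
    (h : ∀ b, (D.e a).symm z ∈ (D.e b).source → P (F b) z) :
    P (fun y => ∑ b, ((D.rd (D.χ b) a y : ℝ) : ℂ) * F b y) z := by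
  obtain ⟨-, t2, t3, -⟩ := hT n M ι D
  obtain ⟨m, r, -⟩ := t2 a z hz
  refine hP.cong _ _ z (hP.sum _ Finset.univ
    (fun b => (fun y => ((D.rd (D.χ b) a y : ℝ) : ℂ)) * F b) z fun b _ => ?_)
    (Eventually.of_forall fun y _ => by simp)
  by_cases hb : (D.e a).symm z ∈ (D.e b).source
  · exact hP.mul _ _ z (chi_sm D a b hz) (h b hb)
  · have := t3 b a _ m hb
    rw [r] at this
    exact hP.cong _ _ z (hP.zero z) (this.mono fun y hy _ => by simp [hy])

end AVG

theorem bAVG (hT : St_TRF) : St_AVG := by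
  intro n M _ ι _ _ D P g hP
  have t2 := (hT n M ι D).2.1
  refine ⟨fun h a z hz => ?_, fun h a z hz => ?_⟩
  · obtain ⟨m, r, -⟩ := t2 a z hz
    refine (hP a).cong _ _ z (AVG.sum_mem D hT (hP a) (fun b => D.tr b a (g b) - g a) hz
      fun b hb => r ▸ h b a _ hb m) (Eventually.of_forall fun y _ => ?_)
    have s : ∑ b, ((D.χ b ((D.e a).symm y) : ℝ) : ℂ) = 1 := by exact_mod_cast D.sum _
    simp only [Pi.sub_apply, mul_sub, Finset.sum_sub_distrib, ← Finset.sum_mul, Ad.rd, Ad.tr,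
      Ad.avg, s, one_mul]
  · obtain ⟨m, r, -⟩ := t2 a z hz
    exact AVG.sum_mem D hT (hP a) (fun b => D.tr b a (g b)) hz fun b hb => r ▸ h b a _ hb m

end Pool.Agent.Lib.EX
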