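import Pool.Agent.Lib.EX.Blue

/-! Project ex41, row CECH: from holomorphic differences to potentials on the strata. -/

open scoped Classical Topology ContDiff ComplexOrder Matrix
open Set MeasureTheory Complex Metric Filter

set_option linter.unusedVariables false
set_option linter.unusedSectionVars false

noncomputable section

namespace Pool.Agent.Lib.EX

open Pool.Agent.Lib.SV (E)
open Pool.Agent.Lib.HS32
open Pool.Agent.Lib.EXA (Val SmN emb)

namespace CECH

variable {n : ℕ} {ι : Type} [Fintype ι] [DecidableEq ι]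

theorem cd_prj (c : ι → Option (Fin n)) (I : Finset ι) : ContDiff ℝ ∞ (prj c I : E n → E n) := by
  refine contDiff_pi.2 fun j => ?_
  unfold prj
  split_ifs
  · exact contDiff_const
  · exact contDiff_apply ℝ ℂ j

theorem holN_congr {f g : E n → ℂ} {z : E n} (hf : HolN f z) (h : g =ᶠ[𝓝 z] f) : HolN g z :=
  (Eventually.and hf h.eventuallyEq_nhds).mono fun _ hw => hw.1.congr_of_eventuallyEq hw.2

/-- The function on the stratum glued from germs. -/
def gl (c : ι → Option (Fin n)) (s : E n → Finset ι → E n → ℂ) (I : Finset ι) (z : E n) : ℂ :=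
  if ∀ i ∈ I, c i ≠ none then s (prj c I z) I (prj c I z) else 0

theorem gl_prj (hM : St_MON) (c : ι → Option (Fin n)) (s : E n → Finset ι → E n → ℂ)
    (I : Finset ι) (z : E n) : gl c s I (prj c I z) = gl c s I z := by
  obtain ⟨-, -, -, -, -, -, -, -, -, -, hp, -⟩ := hM n ι c
  unfold gl
  rw [(hp I z).2.1]

/-- Residues of a function of weight at most `p` on the whole polydisc. -/
theorem glue (hM : St_MON) (hR : St_RES) (c : ι → Option (Fin n)) (hc : Inj c) (G : ι → ℤ)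
    (T : Finset ι) (p : ℕ) (F : E n → ℂ) (hF : ∀ z ∈ B2 n, Wt c G T (p + 1) F z) :
    ∃ σ : Finset ι → E n → ℂ, (∀ I, Iv c I (σ I)) ∧
      (∀ I ∈ T.powersetCard p, ∀ z ∈ B2 n, ContDiffAt ℝ ∞ (σ I) z) ∧
      ∀ z ∈ B2 n, Res c G T p σ F z := by
  obtain ⟨-, -, -, -, -, -, -, -, -, -, hp, -⟩ := hM n ι c
  have h1 : ∀ z, ∃ s : Finset ι → E n → ℂ, z ∈ B2 n → (∀ I, SmN (s I) z) ∧ Res c G T p s F z := by
    intro z
    by_cases hz : z ∈ B2 n
    · obtain ⟨s, hs⟩ := (hR n ι c G T p 0 0 F F z hc).2.1 (hF z hz)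
      exact ⟨s, fun _ => hs⟩
    · exact ⟨0, fun h => absurd h hz⟩
  choose s hs using h1
  have ag : ∀ z ∈ B2 n, ∀ I ∈ T.powersetCard p,
      ∀ᶠ y in 𝓝 z, Sl c I y → gl c s I y = s z I y := by
    intro z hz I hI
    filter_upwards [((hR n ι c G T p (s z) 0 F F z hc).1 (hs z hz).2).2,
      isOpen_ball.eventually_mem hz] with y h1 h2 h3
    have h4 := (hR n ι c G T p (s y) (s z) F F y hc).2.2.2.2.2.2.2.1 (hs y h2).2 h1 I hI
    unfold gl
    rw [if_pos ((hp I y).2.2.2.2.2 h3), (hp I y).2.2.2.1 h3]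
    exact h4.self_of_nhds h3
  refine ⟨gl c s, fun I z _ => gl_prj hM c s I z, fun I hI z hz => ?_, fun z hz =>
    (hR n ι c G T p (s z) (gl c s) F F z hc).2.2.2.2.2.2.1 (hs z hz).2
      (Eventually.of_forall fun _ _ => rfl) (ag z hz)⟩
  by_cases h : ∀ i ∈ I, c i ≠ none
  · have hz' : prj c I z ∈ B2 n := by
      rw [mem_ball_zero_iff] at hz ⊢
      exact (hp I z).1.trans_lt hz
    have h2 : ContDiffAt ℝ ∞ (fun y => s (prj c I z) I (prj c I y)) z :=
      ((hs _ hz').1 I).self_of_nhds.comp z (cd_prj c I).contDiffAt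
    refine h2.congr_of_eventuallyEq ?_
    filter_upwards [(cd_prj c I).continuous.continuousAt.eventually (ag _ hz' I hI)] with y hy
    rw [← gl_prj hM c s I y]
    exact hy ((hp I y).2.2.2.2.1 h)
  · have : gl c s I = fun _ => 0 := funext fun y => if_neg h
    rw [this]
    exact contDiffAt_const

/-- Near a point of an overlap the points of the chart `b` lie in the chart `a`. -/
theorem ev_src {M : Mf n} (D : Ad M ι) (a b : D.A) {x : M.X} (ha : x ∈ (D.e a).source)
    (hb : x ∈ (D.e b).source) : ∀ᶠ z in 𝓝 (D.e b x), (D.e b).symm z ∈ (D.e a).source := by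
  refine ((D.e b).continuousAt_symm ((D.e b).map_source hb)).eventually ?_
  rw [(D.e b).left_inv hb]
  exact (D.e a).open_source.eventually_mem ha

end CECH

open CECH in
theorem bCECH (hAVG : St_AVG) (hTRF : St_TRF) (hRES : St_RES) (hINC : St_INC) (hMOD : St_MOD)
    (hMON : St_MON) : St_CECH := by
  intro n M _ ι _ _ D G T p g hg
  have hW := (hAVG n M ι D (fun a => Wt (D.c a) G T (p + 1)) g
    (fun a => (hMOD n ι (D.c a) G 0 T (p + 1)).2.2.1)).1
    (fun a b x ha hb => (hINC n ι (D.c b) G 0 T (p + 1) _ _).2.1 (hg a b x ha hb))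
  choose σ h1 h2 h3 using fun a => glue hMON hRES (D.c a) (D.inj a) G T p _ (hW a)
  refine ⟨fun I a => σ a I, fun I hI => ⟨fun a => h2 a I hI, fun a => h1 a I, ?_⟩, h3⟩
  intro a b x ha hb hx
  obtain ⟨-, -, -, -, -, -, -, -, -, -, hp, -⟩ := hMON n ι (D.c b)
  obtain ⟨-, -, -, hO⟩ := hTRF n M ι D
  obtain ⟨za, -, -, -, -, -, -, -, hT⟩ := hO a b x ha hb
  have zb := (hO b a x hb ha).1
  have R := fun ρ ρ' F F' => hRES n ι (D.c b) G T p ρ ρ' F F' (D.e b x) (D.inj b)
  obtain ⟨h, hh, r1⟩ := (R 0 0 _ 0).2.2.1 (hg a b x ha hb)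
  have r2 := (hT G T p _).2.2.2.2 _ (h3 a _ za)
  have r3 := (R _ _ _ _).2.2.2.2.1 r1 r2
  have r4 := (R _ _ _ (D.rd (D.avg g) b - g b)).2.2.2.2.2.2.1 r3 (by
    filter_upwards [ev_src D a b ha hb] with y hy _
    simp only [Ad.tr, Ad.rd, Pi.sub_apply, Pi.add_apply, (D.e a).left_inv hy]
    ring) (fun _ _ => Eventually.of_forall fun _ _ => rfl)
  have r5 := (R _ _ _ 0).2.2.2.2.2.2.2.1 (h3 b _ zb) r4 I hI
  have e := (hp I (D.e b x)).2.2.2.1 hx
  have ct : Tendsto (prj (D.c b) I) (𝓝 (D.e b x)) (𝓝 (D.e b x)) := by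
    simpa [ContinuousAt, e] using
      (cd_prj (D.c b) I).continuous.continuousAt (x := D.e b x)
  have h5 : HolN (fun z => h I (prj (D.c b) I z)) (D.e b x) := by
    filter_upwards [ct.eventually (hh I), (hp I (D.e b x)).2.2.1] with y k1 k2
    exact k1.comp y k2
  refine holN_congr h5 ?_
  filter_upwards [ct.eventually r5, isOpen_ball.eventually_mem zb] with y k1 k2
  have k3 := k1 ((hp I y).2.2.2.2.1 ((hp I _).2.2.2.2.2 hx))
  rw [← h1 b I y k2, k3]
  simp only [Pi.add_apply, Pi.mul_apply]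
  ring

end Pool.Agent.Lib.EX
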