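import Pool.Agent.Lib.EX.Blue

/-! Project ex41, block CHG: change of variables between the charts of an adapted atlas. -/

open scoped Classical Topology ContDiff ComplexOrder Matrix
open Set MeasureTheory Complex Metric Filter

noncomputable section

namespace Pool.Agent.Lib.EX

open Pool.Agent.Lib.SV (E)
open Pool.Agent.Lib.HS32

namespace CHG

variable {n : ℕ} {M : Mf n} {e e' : M.Ch}

theorem img (e e' : M.Ch) : (e ∘ e'.symm) '' (e'.target ∩ e'.symm ⁻¹' e.source) =
    e.target ∩ e.symm ⁻¹' e'.source := by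
  ext z
  refine ⟨?_, fun h => ⟨e' (e.symm z), ⟨e'.map_source h.2, ?_⟩, ?_⟩⟩
  · rintro ⟨w, hw, rfl⟩
    refine ⟨e.map_source hw.2, ?_⟩
    rw [mem_preimage, Function.comp_apply, e.left_inv hw.2]
    exact e'.map_target hw.1
  · rw [mem_preimage, e'.left_inv h.2]
    exact e.map_target h.1
  · rw [Function.comp_apply, e'.left_inv h.2, e.right_inv h.1]

/-- Change of variables for a function that vanishes off the overlap. -/
theorem chg (he : e ∈ M.C) (he' : e' ∈ M.C) {g g' : E n → ℂ}
    (h0 : ∀ z ∈ e.target, e.symm z ∉ e'.source → g z = 0)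
    (h0' : ∀ z ∈ e'.target, e'.symm z ∉ e.source → g' z = 0)
    (h : ∀ x ∈ e.source, x ∈ e'.source → g' (e' x) = normSq (M.J e e' x).det * g (e x)) :
    (IntegrableOn g e.target → IntegrableOn g' e'.target) ∧
      ∫ z in e.target, g z = ∫ z in e'.target, g' z := by
  have o := e'.isOpen_inter_preimage_symm e.open_source
  have o' := e.isOpen_inter_preimage_symm e'.open_source
  have h1 : ∀ w ∈ e'.target ∩ e'.symm ⁻¹' e.source, DifferentiableAt ℂ (e ∘ e'.symm) w :=
    fun w hw => (M.hol e he e' he').differentiableAt (o.mem_nhds hw)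
  have h2 : ∀ w ∈ e'.target ∩ e'.symm ⁻¹' e.source, HasFDerivWithinAt (e ∘ e'.symm)
      (fderiv ℝ (e ∘ e'.symm) w) (e'.target ∩ e'.symm ⁻¹' e.source) w :=
    fun w hw => ((h1 w hw).restrictScalars ℝ).hasFDerivAt.hasFDerivWithinAt
  have h3 : InjOn (e ∘ e'.symm) (e'.target ∩ e'.symm ⁻¹' e.source) := fun w hw v hv h =>
    e'.symm.injOn hw.1 hv.1 (e.injOn hw.2 hv.2 h)
  have h4 : EqOn (fun w => |(fderiv ℝ (e ∘ e'.symm) w).det| • g ((e ∘ e'.symm) w)) g'
      (e'.target ∩ e'.symm ⁻¹' e.source) := fun w hw => by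
    have h5 := h _ hw.2 (e'.map_target hw.1)
    rw [Mf.J, e'.right_inv hw.1] at h5
    simp only [h5, BCHN.det_real (h1 w hw), abs_of_nonneg (normSq_nonneg _), real_smul,
      Function.comp_apply]
  have z1 : ∀ z ∈ e.target \ (e.target ∩ e.symm ⁻¹' e'.source), g z = 0 :=
    fun z hz => h0 z hz.1 fun a => hz.2 ⟨hz.1, a⟩
  have z2 : ∀ z ∈ e'.target \ (e'.target ∩ e'.symm ⁻¹' e.source), g' z = 0 :=
    fun z hz => h0' z hz.1 fun a => hz.2 ⟨hz.1, a⟩
  refine ⟨fun hi => ?_, ?_⟩
  · have h6 := hi.mono_set (inter_subset_left (t := e.symm ⁻¹' e'.source))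
    rw [← img, integrableOn_image_iff_integrableOn_abs_det_fderiv_smul volume o.measurableSet h2 h3]
      at h6
    exact (h6.congr_fun h4 o.measurableSet).of_forall_sdiff_eq_zero e'.open_target.measurableSet z2
  · rw [setIntegral_eq_of_subset_of_forall_sdiff_eq_zero e.open_target.measurableSet
      inter_subset_left z1, setIntegral_eq_of_subset_of_forall_sdiff_eq_zero
      e'.open_target.measurableSet inter_subset_left z2, ← img,
      integral_image_eq_integral_abs_det_fderiv_smul volume o.measurableSet h2 h3]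
    exact setIntegral_congr_fun o.measurableSet h4

end CHG

theorem bCHG : St_CHG := by
  intro n M _ ι _ _ D d Φ a hd h0 hi
  have h1 : ∀ b, IntegrableOn (fun z => D.rd (D.χ b) a z * (d a z * D.rd Φ a z)) (B2 n) := by
    intro b
    refine hi.bdd_mul (c := 1) (ContinuousOn.aestronglyMeasurable (fun z hz => ?_)
      measurableSet_ball) (Eventually.of_forall fun z => ?_)
    · exact (continuous_ofReal.continuousAt.comp
        (D.sm b _ (D.mem a) z (D.tgt a ▸ hz)).continuousAt).continuousWithinAt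
    · rw [norm_real, Ad.rd, Real.norm_of_nonneg (D.nn b _), ← D.sum ((D.e a).symm z)]
      exact Finset.single_le_sum (fun b _ => D.nn b _) (Finset.mem_univ b)
  have h2 := fun b => CHG.chg (D.mem a) (D.mem b)
    (g := fun z => D.rd (D.χ b) a z * (d a z * D.rd Φ a z))
    (g' := fun z => D.rd (D.χ b) b z * (d b z * D.rd Φ b z))
    (fun z _ h => by
      rw [show D.rd (D.χ b) a z = 0 from by_contra fun h' => h (D.supp b _ h').1, ofReal_zero,
        zero_mul])
    (fun z _ h => by
      rw [show D.rd Φ b z = 0 from by_contra fun h' => h (h0 _ h'), mul_zero, mul_zero])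
    fun x hx hx' => by
      simp only [Ad.rd, (D.e a).left_inv hx, (D.e b).left_inv hx', hd a b x hx hx', Ad.J,
        ofReal_mul]
      ring
  simp only [D.tgt] at h2
  refine ⟨fun b => (h2 b).1 (h1 b), ?_⟩
  rw [← Finset.sum_congr rfl fun b _ => (h2 b).2, ← integral_finsetSum _ fun b _ => h1 b]
  refine integral_congr_ae (Eventually.of_forall fun z => ?_)
  simp only [Ad.rd]
  rw [← Finset.sum_mul, ← ofReal_sum, D.sum, ofReal_one, one_mul]

end Pool.Agent.Lib.EX
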