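import Pool.Agent.Lib.EX.Blue
import Pool.Agent.Lib.HS32.B_HOL

/-! Project ex41: the cut-off function. -/

open scoped Classical Topology ContDiff ComplexOrder Matrix
open Set MeasureTheory Complex Metric Filter

set_option linter.unusedVariables false

noncomputable section

namespace Pool.Agent.Lib.EX

open Pool.Agent.Lib.SV (E)
open Pool.Agent.Lib.HS32
open Pool.Agent.Lib.EXA (Val SmN emb)

theorem bCUT (hTRF : St_TRF) : St_CUT := by
  intro n M _ ι _ _ D
  obtain ⟨-, h2, h3, -⟩ := hTRF n M ι D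
  refine ⟨fun x => ∑ b, D.χ b x * normSq (xs (D.c b) Finset.univ (D.e b x)),
    fun a => D.rd (fun x => ∑ b, D.χ b x * normSq (∏ i, D.u b a i x)) a,
    fun a z hz => ?_, fun a z hz => ?_, fun a z hz => ?_⟩
  · obtain ⟨hs, he, -, -⟩ := h2 a z hz
    refine ContDiffAt.sum fun b _ => ?_
    by_cases hb : (D.e a).symm z ∈ (D.e b).source
    · have c1 : ContDiffAt ℝ ∞ (D.χ b ∘ (D.e a).symm) z :=
        D.sm b (D.e a) (D.mem a) z (by rw [D.tgt]; exact hz)
      have c2 : ContDiffAt ℝ ∞ (fun w => ∏ i, D.u b a i ((D.e a).symm w)) z :=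
        contDiffAt_prod fun i _ => by
          have := BHOL.smooth (D.uhol b a i _ hb hs)
          rwa [he] at this
      exact c1.mul (Mf.cd_normSq c2)
    · have e := h3 b a _ hs hb
      rw [he] at e
      refine (contDiffAt_const (c := (0 : ℝ))).congr_of_eventuallyEq ?_
      filter_upwards [e] with w hw
      rw [show D.χ b ((D.e a).symm w) = 0 from hw, zero_mul]
  · obtain ⟨hs, -, -, -⟩ := h2 a z hz
    obtain ⟨b, -, hb⟩ := Finset.exists_ne_zero_of_sum_ne_zero
      (s := Finset.univ) (f := fun b => D.χ b ((D.e a).symm z)) (by rw [D.sum]; exact one_ne_zero)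
    refine Finset.sum_pos' (fun d _ => mul_nonneg (D.nn d _) (normSq_nonneg _))
      ⟨b, Finset.mem_univ b, mul_pos ((D.nn b _).lt_of_ne' hb) (normSq_pos.2 ?_)⟩
    exact Finset.prod_ne_zero_iff.2 fun i _ => D.une b a i _ (D.supp b _ hb).1 hs
  · obtain ⟨hs, he, -, -⟩ := h2 a z hz
    simp only [Ad.rd, Finset.sum_mul]
    refine Finset.sum_congr rfl fun b _ => ?_
    by_cases hb : D.χ b ((D.e a).symm z) = 0
    · rw [hb, zero_mul, zero_mul, zero_mul]
    · rw [mul_assoc, ← map_mul, xs, xs, ← Finset.prod_mul_distrib]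
      congr 2
      refine Finset.prod_congr rfl fun i _ => ?_
      rw [D.urel b a i _ (D.supp b _ hb).1 hs, he]

end Pool.Agent.Lib.EX
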