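import Pool.Agent.Lib.EX.Blue

/-! Project ex41: decomposition into an exact and a harmonic part. -/

open scoped Classical Topology ContDiff ComplexOrder Matrix
open Set MeasureTheory Complex Metric Filter

set_option linter.unusedVariables false

noncomputable section

namespace Pool.Agent.Lib.EX

open Pool.Agent.Lib.SV (E)
open Pool.Agent.Lib.HS32
open Pool.Agent.Lib.EXA (Val SmN emb)

theorem bDEC (hC : St_CECH) (hW : St_WGT) (hH : St_HL) (hT : St_THE) (hX : St_XT) (hR : St_RES)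
    (hI : St_INC) (hF : St_TRF) : St_DEC := by
  intro n M _ H ι _ _ D κ _ L p K g hK hp hg hd
  obtain ⟨σ, hσ1, hσ2⟩ := hC n M ι D L.G L.T p g hd
  have hsub : ∀ I ∈ L.T.powersetCard p, I ⊆ L.T := fun I h => (Finset.mem_powersetCard.1 h).1
  have hne : ∀ I ∈ L.T.powersetCard p, I.Nonempty ∨ L.s = 0 := fun I h =>
    hp.imp_left fun h' => Finset.card_pos.1 ((Finset.mem_powersetCard.1 h).2 ▸ h')
  choose! w V hw hV hwV using fun I hIp => hH n M H ι D I hK (D.kap L.G L.T I) L.r L.b (σ I)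
    ((hF n M ι D).1 _) (hW n M ι D κ L I (hsub I hIp) (hne I hIp)) (hσ1 I hIp)
  refine ⟨w, V, hw, fun I hIp => hT n M ι D κ L I (V I) (hsub I hIp) (hne I hIp) (hV I hIp)
    fun a z hz hs => (hwV I hIp a z hz hs).2, fun a z hz j => ?_⟩
  have hB : ∀ᶠ y in 𝓝 z, y ∈ B2 n := isOpen_ball.mem_nhds hz
  have r := fun ρ ρ' F F' => hR n ι (D.c a) L.G L.T p ρ ρ' F F' z (D.inj a)
  have h1 := (r _ 0 _ 0).2.2.2.2.2.1 (fun _ => -1) (Eventually.of_forall fun _ => contDiffAt_const)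
    (hX n M ι D L.G L.T p w hw a z hz)
  have h2 : Res (D.c a) L.G L.T p (fun I => σ I a - w I a)
      (D.rd (D.avg g) a - g a - D.rd (D.ext L.G L.T p w) a) z := by
    refine (r _ _ _ _).2.2.2.2.2.2.1 ((r _ _ _ _).2.2.2.2.1 (hσ2 a z hz) h1)
      (Eventually.of_forall fun y _ => ?_) fun I _ => Eventually.of_forall fun y _ => ?_
    · simp only [Pi.add_apply, Pi.sub_apply, Pi.mul_apply]
      ring
    · simp only [Pi.add_apply, Pi.sub_apply, Pi.mul_apply]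
      ring
  obtain ⟨τ, h3, h4⟩ := (r _ 0 _ 0).2.2.2.2.2.2.2.2.2.2.2.1 h2 j
  have i1 := hI n ι (D.c a) L.G L.r L.T (p + 1)
    (D.rd (D.avg g) a - g a - D.rd (D.ext L.G L.T p w) a) z
  have i2 := hI n ι (D.c a) K L.r L.T p (g a) z
  have h5 := i1.2.2.2.2.2.2.2.2.2.2.2.2.2.2.2.1 (i1.2.2.2.2.2.1 ((r _ 0 _ 0).1 h2).1)
  have h6 := i2.2.2.2.2.2.2.2.2.2.2.2.2.2.2.2.2.1 (hg a z hz)
  have h7 := (i2.2.2.2.2.2.2.2.2.2.2.2.2.2.2.2.2.2 j).2.2 (hg a z hz)
  refine ⟨τ, (r _ _ _ _).2.2.2.2.2.2.1 h3 ?_ fun I _ => Eventually.of_forall fun y _ => rfl,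
    fun I hIp hj => ?_⟩
  · filter_upwards [h5, h6, h7] with y y5 y6 y7 ho
    have e : D.rd (D.avg g - D.ext L.G L.T p w) a = fun x =>
        (D.rd (D.avg g) a - g a - D.rd (D.ext L.G L.T p w) a) x + g a x := by
      funext x
      simp only [Ad.rd, Pi.sub_apply]
      ring
    rw [e, dzb_add (cd_diff (y5 ho).self_of_nhds)
      ((y6 ho).self_of_nhds.restrictScalars ℝ), y7 ho, add_zero]
  · have h8 : SmN (σ I a - w I a) z := hB.mono fun y hy =>
      ((hσ1 I hIp).sm a y hy).sub ((hw I hIp).sm a y hy)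
    filter_upwards [h4 I hIp hj h8, hB] with y y1 y2 hs
    rw [y1 hs, (hwV I hIp a y y2 hs).1 j hj]

end Pool.Agent.Lib.EX
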