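import Pool.Agent.Lib.EX.Blue

/-! Project ex41, block DEL: the normal components form a holomorphic section. -/

open scoped Classical Topology ContDiff ComplexOrder Matrix
open Set MeasureTheory Complex Metric Filter

noncomputable section

namespace Pool.Agent.Lib.EX

open Pool.Agent.Lib.SV (E)
open Pool.Agent.Lib.HS32

namespace DEL

variable {n : ℕ} {ι : Type} [Fintype ι] [DecidableEq ι]

omit [Fintype ι] [DecidableEq ι] in
theorem prj_mem (c : ι → Option (Fin n)) (I : Finset ι) {z : E n} (hz : z ∈ B2 n) :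
    prj c I z ∈ B2 n := by
  rw [mem_ball_zero_iff] at hz ⊢
  refine lt_of_le_of_lt ((pi_norm_le_iff_of_nonneg (norm_nonneg z)).2 fun j => ?_) hz
  unfold prj
  split_ifs
  · simp
  · exact norm_le_pi_norm z j

omit [Fintype ι] [DecidableEq ι] in
theorem prj_prj (c : ι → Option (Fin n)) (I : Finset ι) (z : E n) :
    prj c I (prj c I z) = prj c I z := by
  funext j; unfold prj; split_ifs <;> rfl

omit [Fintype ι] [DecidableEq ι] in
theorem prj_diff (c : ι → Option (Fin n)) (I : Finset ι) (z : E n) :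
    DifferentiableAt ℂ (prj c I) z := by
  refine differentiableAt_pi.2 fun j => ?_
  unfold prj
  split_ifs
  · exact differentiableAt_const _
  · exact differentiableAt_apply j z

omit [Fintype ι] [DecidableEq ι] in
theorem prj_sl {c : ι → Option (Fin n)} {I : Finset ι} {z : E n} (h : Sl c I z) :
    prj c I z = z := by
  funext j
  unfold prj
  split_ifs with hj
  · obtain ⟨i, hi, hc⟩ := hj
    have := h i hi
    rw [xi, hc] at this
    exact this.symm
  · rfl

omit [Fintype ι] [DecidableEq ι] in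
theorem ne_none {c : ι → Option (Fin n)} {I : Finset ι} {z : E n} (h : Sl c I z) :
    ∀ i ∈ I, c i ≠ none := fun i hi hc => by
  have := h i hi
  rw [xi, hc] at this
  exact one_ne_zero this

variable {M : Mf n} (D : Ad M ι)

omit [Fintype ι] [DecidableEq ι] in
theorem mem_b2 {a : D.A} {x : M.X} (hx : x ∈ (D.e a).source) : D.e a x ∈ B2 n :=
  D.tgt a ▸ (D.e a).map_source hx

omit [Fintype ι] [DecidableEq ι] in
theorem sl_tr {a b : D.A} {x : M.X} (ha : x ∈ (D.e a).source) (hb : x ∈ (D.e b).source)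
    {I : Finset ι} (h : Sl (D.c b) I (D.e b x)) : Sl (D.c a) I (D.e a x) := fun i hi => by
  rw [D.urel a b i x ha hb, h i hi, mul_zero]

omit [Fintype ι] [DecidableEq ι] in
/-- The row of the Jacobian matrix that belongs to the equation of a component. -/
theorem row {a b : D.A} {x : M.X} (ha : x ∈ (D.e a).source) (hb : x ∈ (D.e b).source) {l : ι}
    {j k : Fin n} (hj : D.c a l = some j) (hk : D.c b l = some k) (h0 : D.e b x k = 0)
    (W : E n) : (D.J a b x *ᵥ W) j = D.u a b l x * W k := by
  obtain ⟨hψ, -, -, hev, -⟩ := (mTR n M).2.1 _ (D.mem a) _ (D.mem b) x ha hb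
  have h1 := (mCHN n _ _ hψ).2.2.2.2.2.1 W
  have hu := (D.uhol a b l x ha hb).self_of_nhds
  have e1 : (fun z => (D.e a ∘ (D.e b).symm) z j) =ᶠ[𝓝 (D.e b x)]
      fun z => (D.u a b l ∘ (D.e b).symm) z * z k := by
    filter_upwards [hev] with z hz
    have := D.urel a b l _ hz.2.1 hz.2.2.1
    rw [xi, xi, hj, hk, hz.2.2.2.2.2.1] at this
    exact this
  have d1 : HasFDerivAt (fun z => (D.e a ∘ (D.e b).symm) z j)
      ((ContinuousLinearMap.proj j).comp (fderiv ℂ (D.e a ∘ (D.e b).symm) (D.e b x)))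
      (D.e b x) := (hasFDerivAt_pi'.1 hψ.self_of_nhds.hasFDerivAt) j
  have d2 := hu.hasFDerivAt.mul (hasFDerivAt_apply (𝕜 := ℂ) k (D.e b x))
  have e2 := (d1.congr_of_eventuallyEq e1.symm).unique d2
  have e3 := congrArg (fun L => L W) e2
  refine (congrFun h1 j).symm.trans (e3.trans ?_)
  simp [h0, (D.e b).left_inv hb]

theorem kap_erase {a b : D.A} {x : M.X} (ha : x ∈ (D.e a).source) (hb : x ∈ (D.e b).source)
    (G : ι → ℤ) {T J : Finset ι} (hJ : J ⊆ T) {l : ι} (hl : l ∈ J) :
    D.kap G T (J.erase l) a b x = D.u a b l x * D.kap G T J a b x := by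
  unfold Ad.kap Ad.um
  rw [← Finset.mul_prod_erase _ _ (Finset.mem_univ l),
    ← Finset.mul_prod_erase _ _ (Finset.mem_univ l), ← mul_assoc]
  congr 1
  · have h1 : l ∈ T \ J.erase l := by simp [hJ hl]
    have h2 : l ∉ T \ J := by simp [hl]
    simp only [h1, h2, if_true, if_false, add_zero]
    rw [zpow_add_one₀ (D.une a b l x ha hb), mul_comm]
  · refine Finset.prod_congr rfl fun i hi => ?_
    have hi : i ≠ l := Finset.ne_of_mem_erase hi
    simp [hi]

omit [Fintype ι] in
theorem erase_mem {T J : Finset ι} {p : ℕ} (hJ : J ∈ T.powersetCard (p + 1)) {l : ι}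
    (hl : l ∈ J) : J.erase l ∈ T.powersetCard p := by
  rw [Finset.mem_powersetCard] at hJ ⊢
  exact ⟨(Finset.erase_subset _ _).trans hJ.1, by rw [Finset.card_erase_of_mem hl, hJ.2]; rfl⟩

end DEL

open DEL in
theorem bDEL : St_DEL := by
  intro n M _ ι _ _ D G T p V hV
  have hol : ∀ J, D.All fun a z => DifferentiableAt ℂ (D.dl T p V J a) z := by
    intro J a z hz
    by_cases h : J ∈ T.powersetCard (p + 1) ∧ ∀ i ∈ J, D.c a i ≠ none
    · have e : D.dl T p V J a =ᶠ[𝓝 z] del (D.c a) (fun I => V I a) J := by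
        filter_upwards [isOpen_ball.mem_nhds hz] with y hy
        exact if_pos ⟨h.1, hy, h.2⟩
      refine DifferentiableAt.congr_of_eventuallyEq ?_ e
      refine DifferentiableAt.fun_sum fun l hl => ?_
      have h1 := ((hV _ (erase_mem h.1 hl)).hol a _ (prj_mem (D.c a) J hz)).comp z
        (prj_diff (D.c a) J z)
      cases D.c a l with
      | none => exact differentiableAt_const _
      | some j => exact differentiableAt_pi.1 h1 j
    · have e : D.dl T p V J a = fun _ => 0 := by
        funext y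
        exact if_neg fun h' => h ⟨h'.1, h'.2.2⟩
      rw [e]; exact differentiableAt_const _
  refine ⟨fun J hJ => ⟨fun a z hz => ?_, fun a z hz => ?_, fun a b x ha hb hs => ?_⟩, hol,
    fun J hJ => ?_, fun J a z hz => if_neg fun h => hz h.2.1, fun J a i hi hc => ?_⟩
  · refine ((mHOL n _ z).2.2 ?_).1
    filter_upwards [isOpen_ball.mem_nhds hz] with y hy using hol J a y hy
  · unfold Ad.dl del
    simp only [prj_prj, hz, prj_mem (D.c a) J hz]
  · have hs' := sl_tr D ha hb hs
    unfold Ad.dl del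
    rw [if_pos ⟨hJ, mem_b2 D hb, ne_none hs⟩, if_pos ⟨hJ, mem_b2 D ha, ne_none hs'⟩, prj_sl hs,
      prj_sl hs', Finset.sum_mul]
    refine Finset.sum_congr rfl fun l hl => ?_
    obtain ⟨j, hj⟩ := Option.ne_none_iff_exists'.1 (ne_none hs' l hl)
    obtain ⟨k, hk⟩ := Option.ne_none_iff_exists'.1 (ne_none hs l hl)
    have h0 : D.e b x k = 0 := by
      have := hs l hl
      rwa [xi, hk] at this
    have h1 := congrFun ((hV _ (erase_mem hJ hl)).cmp a b x ha hb
      fun i hi => hs i (Finset.mem_of_mem_erase hi)) j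
    rw [row D ha hb hj hk h0, kap_erase D ha hb G (Finset.mem_powersetCard.1 hJ).1 hl,
      Pi.smul_apply, smul_eq_mul, mul_assoc] at h1
    rw [hj, hk, mul_comm]
    exact mul_left_cancel₀ (D.une a b l x ha hb) h1
  · funext a z
    exact if_neg fun h => hJ h.1
  · funext z
    exact if_neg fun h => h.2.2 i hi hc

end Pool.Agent.Lib.EX
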