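import Pool.Agent.Lib.HS32.B_HOL
import Pool.Agent.Lib.SV.Ext85

/-! Coordinate hyperplanes: projections to the strata, holomorphic division. -/

open scoped Classical Topology ENNReal ContDiff ComplexConjugate
open Set MeasureTheory Complex Metric Filter

set_option linter.unusedVariables false

noncomputable section

namespace Pool.Agent.Lib.EX.K68

open Pool.Agent.Lib.SV (E)
open Pool.Agent.Lib.HS32

variable {n : ℕ} {I J T : Finset (Fin n)} {z x c : E n} {f g m : E n → ℂ} {i j : Fin n}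
  {U : Set (E n)}

/-! ### Projections -/

/-- Set the coordinates in `J` to zero. -/
def pz (J : Finset (Fin n)) (z : E n) : E n := fun j => if j ∈ J then 0 else z j

/-- The same map as a complex linear map. -/
def pzL (J : Finset (Fin n)) : E n →L[ℂ] E n :=
  ContinuousLinearMap.pi fun j => if j ∈ J then 0 else ContinuousLinearMap.proj j

theorem pzL_apply (J : Finset (Fin n)) (z : E n) : pzL J z = pz J z := by
  funext j
  simp only [pzL, pz, ContinuousLinearMap.pi_apply]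
  split_ifs <;> rfl

theorem pzL_eq (J : Finset (Fin n)) : (pzL J : E n → E n) = pz J := funext (pzL_apply J)

theorem pz_mem (h : j ∈ J) : pz J z j = 0 := if_pos h

theorem pz_not_mem (h : j ∉ J) : pz J z j = z j := if_neg h

theorem pz_of_zero (h : z j = 0) : pz J z j = 0 := by
  simp only [pz, h, ite_self]

@[simp] theorem pz_empty : pz ∅ z = z := funext fun _ => if_neg (Finset.notMem_empty _)

theorem pz_pz : pz I (pz J z) = pz (I ∪ J) z := by
  funext j
  by_cases h : j ∈ I <;> by_cases h' : j ∈ J <;> simp [pz, h, h']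

theorem pz_comm : pz I (pz J z) = pz J (pz I z) := by rw [pz_pz, pz_pz, Finset.union_comm]

theorem pz_idem : pz J (pz J z) = pz J z := by rw [pz_pz, Finset.union_self]

theorem pz_insert : pz (insert i J) z = pz J (pz {i} z) := by
  rw [pz_pz, Finset.union_comm, Finset.insert_eq]

theorem pz_eq_self (h : ∀ j ∈ J, z j = 0) : pz J z = z := by
  funext j
  by_cases h' : j ∈ J
  · rw [pz_mem h', h j h']
  · exact pz_not_mem h'

theorem pz_single_self (h : z i = 0) : pz {i} z = z :=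
  pz_eq_self fun j hj => by rw [Finset.mem_singleton.1 hj, h]

theorem pz_sub (z w : E n) : pz J (z - w) = pz J z - pz J w := by
  rw [← pzL_apply, map_sub, pzL_apply, pzL_apply]

theorem norm_pz_le : ‖pz J z‖ ≤ ‖z‖ := by
  refine (pi_norm_le_iff_of_nonneg (norm_nonneg _)).2 fun j => ?_
  by_cases h : j ∈ J
  · rw [pz_mem h, norm_zero]; exact norm_nonneg _
  · rw [pz_not_mem h]; exact norm_le_pi_norm z j

theorem pz_ball {r : ℝ} (hc : ∀ j ∈ J, c j = 0) (hz : z ∈ ball c r) : pz J z ∈ ball c r := by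
  rw [mem_ball, dist_eq_norm] at hz ⊢
  rw [← pz_eq_self hc, ← pz_sub]
  exact norm_pz_le.trans_lt hz

theorem sub_pz_single : z - pz {i} z = Pi.single i (z i) := by
  funext j
  by_cases h : j = i
  · subst h; simp [pz]
  · simp [pz, h]

theorem diff_pz (J : Finset (Fin n)) : Differentiable ℂ (pz J : E n → E n) :=
  pzL_eq J ▸ (pzL J).differentiable

theorem cont_pz (J : Finset (Fin n)) : Continuous (pz J : E n → E n) := (diff_pz J).continuous

theorem cd_pz (J : Finset (Fin n)) : ContDiff ℝ ∞ (pz J : E n → E n) :=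
  pzL_eq J ▸ ((pzL J).restrictScalars ℝ).contDiff

theorem tendsto_pz (hx : ∀ j ∈ J, x j = 0) : Tendsto (pz J) (𝓝 x) (𝓝 x) := by
  have := (cont_pz J).tendsto x
  rwa [pz_eq_self hx] at this

theorem fderiv_pz (h : DifferentiableAt ℝ f (pz J z)) (v : E n) :
    fderiv ℝ (fun w => f (pz J w)) z v = fderiv ℝ f (pz J z) (pz J v) := by
  have h1 : HasFDerivAt (pz J : E n → E n) ((pzL J).restrictScalars ℝ) z :=
    pzL_eq J ▸ ((pzL J).restrictScalars ℝ).hasFDerivAt
  have := (h.hasFDerivAt.comp z h1).fderiv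
  rw [show (fun w => f (pz J w)) = f ∘ pz J from rfl, this, ← pzL_apply J v]
  rfl

theorem pz_single (a : ℂ) :
    pz J (Pi.single j a : E n) = if j ∈ J then 0 else Pi.single j a := by
  funext k
  by_cases h : j ∈ J <;> by_cases h' : k = j <;> by_cases h'' : k ∈ J <;> simp_all [pz]

theorem dz_pz (h : DifferentiableAt ℝ f (pz J z)) :
    dz j (fun w => f (pz J w)) z = if j ∈ J then 0 else dz j f (pz J z) := by
  simp only [dz, fderiv_pz h, pz_single]
  split_ifs <;> simp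

theorem dzb_pz (h : DifferentiableAt ℝ f (pz J z)) :
    dzb j (fun w => f (pz J w)) z = if j ∈ J then 0 else dzb j f (pz J z) := by
  simp only [dzb, fderiv_pz h, pz_single]
  split_ifs <;> simp

/-- A function that is holomorphic along a stratum gives a holomorphic function. -/
theorem hol_pz (h : DifferentiableAt ℝ f (pz J z)) (h0 : ∀ j ∉ J, dzb j f (pz J z) = 0) :
    DifferentiableAt ℂ (fun w => f (pz J w)) z := by
  refine BHOL.diff_of (h.comp z (cd_diff (cd_pz J).contDiffAt)) fun j => ?_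
  rw [dzb_pz h]
  split_ifs with hj
  · rfl
  · exact h0 j hj

/-- Functions that agree on a stratum have the same derivatives along it. -/
theorem dz_strat (hx : ∀ j ∈ J, x j = 0) (hf : DifferentiableAt ℝ f x)
    (hg : DifferentiableAt ℝ g x) (e : ∀ᶠ w in 𝓝 x, (∀ j ∈ J, w j = 0) → f w = g w)
    (hi : i ∉ J) : dz i f x = dz i g x ∧ dzb i f x = dzb i g x := by
  have e' : (fun w => f (pz J w)) =ᶠ[𝓝 x] fun w => g (pz J w) :=
    ((tendsto_pz hx).eventually e).mono fun w hw => hw fun j hj => pz_mem hj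
  have h1 := dz_congr (j := i) e'
  have h2 := dzb_congr (j := i) e'
  have ex := pz_eq_self hx
  rw [dz_pz (ex.symm ▸ hf), dz_pz (ex.symm ▸ hg), if_neg hi, if_neg hi, ex] at h1
  rw [dzb_pz (ex.symm ▸ hf), dzb_pz (ex.symm ▸ hg), if_neg hi, if_neg hi, ex] at h2
  exact ⟨h1, h2⟩

/-! ### Density -/

theorem freq_ne (x : E n) (I : Finset (Fin n)) :
    ∃ᶠ w in 𝓝 x, (∀ i ∈ I, w i ≠ 0) ∧ ∀ j ∉ I, w j = x j := by
  have h1 : Tendsto (fun t : ℂ => (fun j => if j ∈ I then x j + t else x j : E n))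
      (𝓝[≠] 0) (𝓝 x) := by
    refine Tendsto.mono_left (tendsto_pi_nhds.2 fun j => ?_) nhdsWithin_le_nhds
    split_ifs
    · exact (by fun_prop : Continuous fun t : ℂ => x j + t).tendsto' 0 (x j) (add_zero _)
    · exact tendsto_const_nhds
  refine h1.frequently (Eventually.frequently ?_)
  have h2 : ∀ᶠ t : ℂ in 𝓝[≠] 0, ∀ i, x i + t ≠ 0 := eventually_all.2 fun i => by
    by_cases h : x i = 0
    · filter_upwards [self_mem_nhdsWithin] with t ht
      rw [h, zero_add]; exact ht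
    · exact ((continuous_const.add continuous_id).continuousAt.eventually_ne
        (by simpa using h)).filter_mono nhdsWithin_le_nhds
  filter_upwards [h2] with t ht
  exact ⟨fun i hi => by simpa only [if_pos hi] using ht i, fun j hj => if_neg hj⟩

/-- Continuous functions that agree off the hyperplanes agree. -/
theorem eq_of_off {F : Type*} [TopologicalSpace F] [T2Space F] {f g : E n → F}
    (hf : ContinuousAt f x) (hg : ContinuousAt g x)
    (e : ∀ᶠ w in 𝓝 x, (∀ i ∈ I, w i ≠ 0) → (∀ j ∉ I, w j = x j) → f w = g w) : f x = g x :=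
  tendsto_nhds_unique_of_frequently_eq hf hg
    (((freq_ne x I).and_eventually e).mono fun w hw => hw.2 hw.1.1 hw.1.2)

/-- The monomial with exponents `k`. -/
def mon (k : Fin n → ℕ) (z : E n) : ℂ := ∏ i, z i ^ k i

theorem diff_mon (k : Fin n → ℕ) : Differentiable ℂ (mon k) := by
  unfold mon
  fun_prop

theorem diff_prod (I : Finset (Fin n)) : Differentiable ℂ fun z : E n => ∏ i ∈ I, z i := by
  fun_prop

theorem mon_ne {k : Fin n → ℕ} (h : ∀ i, z i ≠ 0) : mon k z ≠ 0 :=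
  Finset.prod_ne_zero_iff.2 fun i _ => pow_ne_zero _ (h i)

theorem freq_mon (k : Fin n → ℕ) (x : E n) : ∃ᶠ w in 𝓝 x, mon k w ≠ 0 :=
  (freq_ne x Finset.univ).mono fun w hw => mon_ne fun i => hw.1 i (Finset.mem_univ i)

theorem freq_prod (I : Finset (Fin n)) (x : E n) : ∃ᶠ w in 𝓝 x, ∏ i ∈ I, w i ≠ 0 :=
  (freq_ne x I).mono fun w hw => Finset.prod_ne_zero_iff.2 hw.1

/-! ### Holomorphic division -/

/-- Division when the quotient is locally square integrable. -/
theorem div_sq (hU : IsOpen U) (hf : DifferentiableOn ℂ f U) (hm : DifferentiableOn ℂ m U)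
    (h0 : ∀ x ∈ U, ∃ᶠ w in 𝓝 x, m w ≠ 0)
    (hi : ∀ x ∈ U, ∃ V ∈ 𝓝 x,
      ∫⁻ w in {w | w ∈ V ∧ m w ≠ 0}, ENNReal.ofReal (‖f w / m w‖ ^ 2) ≠ ⊤) :
    ∃ g, DifferentiableOn ℂ g U ∧ ∀ w ∈ U, f w = m w * g w := by
  obtain ⟨g, hg, e⟩ := SV.H85.ext_sq volume (f := fun w => f w / m w) hU hm
    (fun x hx h => h0 x hx (h.mono fun w hw => not_not.2 hw))
    (fun w hw => by
      simpa only [div_eq_mul_inv] using ((hf.differentiableAt (hU.mem_nhds hw.1)).fun_mul
        ((hm.differentiableAt (hU.mem_nhds hw.1)).fun_inv hw.2)).differentiableWithinAt) hi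
  refine ⟨g, hg, fun x hx => ?_⟩
  have hx' := hU.mem_nhds hx
  refine tendsto_nhds_unique_of_frequently_eq (hf.continuousOn.continuousAt hx')
    ((hm.mul hg).continuousOn.continuousAt hx') (((h0 x hx).and_eventually hx').mono ?_)
  intro w hw
  rw [Pi.mul_apply, e w hw.2 hw.1, mul_div_cancel₀ _ hw.1]

/-- Division when the quotient is locally bounded. -/
theorem div_bdd (hU : IsOpen U) (hf : DifferentiableOn ℂ f U) (hm : DifferentiableOn ℂ m U)
    (h0 : ∀ x ∈ U, ∃ᶠ w in 𝓝 x, m w ≠ 0)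
    (hb : ∀ x ∈ U, ∃ C, ∀ᶠ w in 𝓝 x, ‖f w‖ ≤ C * ‖m w‖) :
    ∃ g, DifferentiableOn ℂ g U ∧ ∀ w ∈ U, f w = m w * g w := by
  refine div_sq hU hf hm h0 fun x hx => ?_
  obtain ⟨C, hC⟩ := hb x hx
  obtain ⟨r, r0, hr⟩ := Metric.eventually_nhds_iff_ball.1 hC
  refine ⟨ball x r, ball_mem_nhds x r0, ?_⟩
  refine ne_top_of_le_ne_top ?_ (setLIntegral_mono (g := fun _ => ENNReal.ofReal (C ^ 2))
    measurable_const fun w hw => ENNReal.ofReal_le_ofReal
      (pow_le_pow_left₀ (norm_nonneg _) ?_ 2))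
  · rw [setLIntegral_const]
    exact ENNReal.mul_ne_top ENNReal.ofReal_ne_top (ne_top_of_le_ne_top
      (measure_ball_lt_top (x := x) (r := r)).ne (measure_mono fun w hw => hw.1))
  · have h1 : m w ≠ 0 := hw.2
    rw [norm_div, div_le_iff₀ (norm_pos_iff.2 h1)]
    exact hr w hw.1

/-- A `C¹` function that vanishes on a hyperplane is bounded by the coordinate. -/
theorem bd_coord (hf : ContDiffAt ℝ 1 f x) (h0 : ∀ᶠ w in 𝓝 x, w i = 0 → f w = 0) :
    ∃ C, ∀ᶠ w in 𝓝 x, ‖f w‖ ≤ C * ‖w i‖ := by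
  by_cases hx : x i = 0
  · obtain ⟨K, V, hV, hK⟩ := hf.exists_lipschitzOnWith
    have ht := tendsto_pz (J := {i}) (x := x) fun j hj => by rw [Finset.mem_singleton.1 hj, hx]
    refine ⟨K, ?_⟩
    filter_upwards [hV, ht.eventually hV, ht.eventually h0] with w h1 h2 h3
    have := hK.norm_sub_le h1 h2
    rwa [h3 (pz_mem (Finset.mem_singleton_self i)), sub_zero, sub_pz_single, Pi.norm_single] at this
  · have h1 : ContinuousAt (fun w : E n => ‖f w / w i‖) x :=
      (hf.continuousAt.div (continuous_apply i).continuousAt hx).norm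
    refine ⟨‖f x / x i‖ + 1, ?_⟩
    filter_upwards [h1.eventually (gt_mem_nhds (lt_add_one _)),
      (continuous_apply i).continuousAt.eventually_ne hx] with w h2 h3
    rw [norm_div, div_lt_iff₀ (norm_pos_iff.2 h3)] at h2
    exact h2.le

theorem holN_of (hU : IsOpen U) (hf : DifferentiableOn ℂ f U) (hx : x ∈ U) : HolN f x :=
  (hU.eventually_mem hx).mono fun w hw => hf.differentiableAt (hU.mem_nhds hw)

theorem div_coord (hU : IsOpen U) (hf : DifferentiableOn ℂ f U)
    (h0 : ∀ w ∈ U, w i = 0 → f w = 0) :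
    ∃ g, DifferentiableOn ℂ g U ∧ ∀ w ∈ U, f w = w i * g w :=
  div_bdd hU hf (m := fun w => w i) (differentiable_apply i).differentiableOn
    (fun x _ => (freq_ne x {i}).mono fun w hw => hw.1 i (Finset.mem_singleton_self i))
    fun x hx => bd_coord (cd_le (BHOL.smooth (holN_of hU hf hx)) 1)
      ((hU.eventually_mem hx).mono h0)

/-- Division by a product of coordinates. -/
theorem div_prod (hU : IsOpen U) (I : Finset (Fin n)) (hf : DifferentiableOn ℂ f U)
    (h0 : ∀ w ∈ U, ∀ i ∈ I, w i = 0 → f w = 0) :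
    ∃ g, DifferentiableOn ℂ g U ∧ ∀ w ∈ U, f w = (∏ i ∈ I, w i) * g w := by
  induction I using Finset.induction_on with
  | empty => exact ⟨f, hf, fun w _ => by simp⟩
  | insert a I ha ih =>
    obtain ⟨g, hg, e⟩ := ih fun w hw i hi => h0 w hw i (Finset.mem_insert_of_mem hi)
    obtain ⟨g', hg', e'⟩ := div_coord (i := a) hU hg fun x hx hxa =>
      eq_of_off (I := I) (g := fun _ => 0) (hg.continuousOn.continuousAt (hU.mem_nhds hx))
        continuousAt_const ((hU.eventually_mem hx).mono fun w hw h1 h2 => by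
          have := h0 w hw a (Finset.mem_insert_self a I) ((h2 a ha).trans hxa)
          rw [e w hw] at this
          exact (mul_eq_zero.1 this).resolve_left (Finset.prod_ne_zero_iff.2 h1))
    refine ⟨g', hg', fun w hw => ?_⟩
    rw [e w hw, e' w hw, Finset.prod_insert ha]
    ring

/-! ### Inclusion-exclusion -/

/-- The part of `f` that vanishes on every hyperplane of `I`. -/
def rm (I : Finset (Fin n)) (f : E n → ℂ) (z : E n) : ℂ :=
  ∑ K ∈ I.powerset, (-1) ^ K.card * f (pz K z)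

@[simp] theorem rm_empty : rm ∅ f z = f z := by simp [rm]

theorem rm_insert (h : i ∉ I) : rm (insert i I) f z = rm I f z - rm I f (pz {i} z) := by
  rw [rm, Finset.sum_powerset_insert h, rm, rm, sub_eq_add_neg, ← Finset.sum_neg_distrib]
  refine congrArg _ (Finset.sum_congr rfl fun K hK => ?_)
  rw [Finset.card_insert_of_notMem fun h' => h (Finset.mem_powerset.1 hK h'), pz_insert]
  ring

theorem rm_zero (hi : i ∈ I) (hz : z i = 0) : rm I f z = 0 := by
  rw [← Finset.insert_erase hi, rm_insert (Finset.notMem_erase i I), pz_single_self hz, sub_self]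

theorem rm_pz : rm I (fun w => f (pz J w)) z = rm I f (pz J z) := by
  simp only [rm, pz_comm (I := J)]

theorem rm_eq (h : ∀ K ⊆ I, K.Nonempty → f (pz K z) = 0) : rm I f z = f z := by
  rw [rm, Finset.sum_eq_single_of_mem ∅ (Finset.empty_mem_powerset I)]
  · simp
  · intro K hK h0
    rw [h K (Finset.mem_powerset.1 hK) (Finset.nonempty_iff_ne_empty.2 h0), mul_zero]

/-- Every function is the sum of its parts. -/
theorem sum_rm (T : Finset (Fin n)) (f : E n → ℂ) (z : E n) :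
    f z = ∑ J ∈ T.powerset, rm (T \ J) f (pz J z) := by
  induction T using Finset.induction_on with
  | empty => simp
  | insert a T ha ih =>
    rw [Finset.sum_powerset_insert ha, ← Finset.sum_add_distrib, ih]
    refine Finset.sum_congr rfl fun J hJ => ?_
    have hJ' : a ∉ J := fun h => ha (Finset.mem_powerset.1 hJ h)
    rw [Finset.insert_sdiff_of_notMem _ hJ', rm_insert fun h => ha (Finset.mem_sdiff.1 h).1,
      Finset.insert_sdiff_insert, Finset.sdiff_insert_of_notMem ha, pz_insert, pz_comm (I := J)]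
    ring

/-- `U` is stable under the projections to the strata of `T`. -/
def Stab (T : Finset (Fin n)) (U : Set (E n)) : Prop := ∀ J ⊆ T, ∀ z ∈ U, pz J z ∈ U

theorem stab_ball {r : ℝ} (hc : ∀ j ∈ T, c j = 0) : Stab T (ball c r) :=
  fun J hJ z hz => pz_ball (fun j hj => hc j (hJ hj)) hz

theorem stab_univ : Stab T (univ : Set (E n)) := fun _ _ _ _ => mem_univ _

theorem Stab.mono (h : Stab T U) (hI : I ⊆ T) : Stab I U := fun J hJ => h J (hJ.trans hI)

theorem hol_comp_pz (hS : Stab T U) (hJ : J ⊆ T) (hf : DifferentiableOn ℂ f U) :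
    DifferentiableOn ℂ (fun w => f (pz J w)) U :=
  hf.comp (diff_pz J).differentiableOn fun w hw => hS J hJ w hw

theorem hol_rm (hS : Stab I U) (hf : DifferentiableOn ℂ f U) : DifferentiableOn ℂ (rm I f) U :=
  DifferentiableOn.fun_sum fun K hK =>
    (hol_comp_pz hS (Finset.mem_powerset.1 hK) hf).const_mul _

/-- The parts of depth above `q` vanish. -/
theorem rm_deep {q : ℕ} (hS : Stab T U) (hJ : J ⊆ T) (hq : q < J.card) (hz : z ∈ U)
    (h0 : ∀ I ⊆ T, I.card = q + 1 → ∀ w ∈ U, (∀ i ∈ I, w i = 0) → f w = 0) :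
    rm (T \ J) f (pz J z) = 0 := by
  obtain ⟨I, hI, hc⟩ := Finset.exists_subset_card_eq (show q + 1 ≤ J.card from hq)
  refine Finset.sum_eq_zero fun K hK => ?_
  rw [h0 I (hI.trans hJ) hc _ (hS K ((Finset.mem_powerset.1 hK).trans Finset.sdiff_subset) _
    (hS J hJ z hz)) fun i hi => pz_of_zero (pz_mem (hI hi)), mul_zero]

/-- Holomorphic parts: `f = ∑ x_(T - J) g_J` with `g_J` independent of `x_J`. -/
theorem hol_parts (hU : IsOpen U) (hS : Stab T U) (hf : DifferentiableOn ℂ f U) :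
    ∃ g : Finset (Fin n) → E n → ℂ, (∀ J, DifferentiableOn ℂ (g J) U) ∧
      ∀ J ⊆ T, ∀ w ∈ U, rm (T \ J) f (pz J w) = (∏ i ∈ T \ J, w i) * g J w ∧
        g J (pz J w) = g J w := by
  have key : ∀ J : Finset (Fin n), ∃ g : E n → ℂ, DifferentiableOn ℂ g U ∧ (J ⊆ T → ∀ w ∈ U,
      rm (T \ J) f (pz J w) = (∏ i ∈ T \ J, w i) * g w ∧ g (pz J w) = g w) := fun J => by
    by_cases hJ : J ⊆ T
    · obtain ⟨g, hg, e⟩ := div_prod hU (T \ J) (hol_rm (hS.mono Finset.sdiff_subset) hf)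
        fun w _ i hi h => rm_zero hi h
      refine ⟨fun w => g (pz J w), hol_comp_pz hS hJ hg, fun _ w hw => ⟨?_, congrArg g pz_idem⟩⟩
      rw [e _ (hS J hJ w hw)]
      exact congrArg (· * _) (Finset.prod_congr rfl fun i hi => pz_not_mem (Finset.mem_sdiff.1 hi).2)
    · exact ⟨0, differentiableOn_const 0, fun h => absurd h hJ⟩
  choose g h1 h2 using key
  exact ⟨g, h1, h2⟩

/-- Regrouping a sum over sets of size at most `q` into sets of size `q`. -/
theorem regroup {q : ℕ} (hq : q ≤ T.card) : ∃ s : Finset (Fin n) → Finset (Fin n),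
    ∀ (g : Finset (Fin n) → ℂ) (w : E n),
      ∑ J ∈ T.powerset with J.card ≤ q, (∏ i ∈ T \ J, w i) * g J =
        ∑ K ∈ T.powersetCard q, (∏ i ∈ T \ K, w i) *
          ∑ J ∈ T.powerset with J.card ≤ q ∧ s J = K, (∏ i ∈ K \ J, w i) * g J := by
  have key : ∀ J : Finset (Fin n), ∃ K, J ⊆ T → J.card ≤ q → J ⊆ K ∧ K ⊆ T ∧ K.card = q :=
    fun J => by
      by_cases h : J ⊆ T ∧ J.card ≤ q
      · obtain ⟨K, hK⟩ := Finset.exists_subsuperset_card_eq h.1 h.2 hq
        exact ⟨K, fun _ _ => hK⟩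
      · exact ⟨∅, fun h1 h2 => absurd ⟨h1, h2⟩ h⟩
  choose s hs using key
  refine ⟨s, fun g w => ?_⟩
  rw [← Finset.sum_fiberwise_of_maps_to (g := s) (t := T.powersetCard q) fun J hJ => ?_]
  · refine Finset.sum_congr rfl fun K hK => ?_
    rw [Finset.filter_filter, Finset.mul_sum]
    refine Finset.sum_congr rfl fun J hJ => ?_
    obtain ⟨h1, h2, h3⟩ := Finset.mem_filter.1 hJ
    have h4 := hs J (Finset.mem_powerset.1 h1) h2
    rw [h3] at h4
    rw [← mul_assoc, ← Finset.prod_union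
      (Finset.disjoint_left.2 fun a ha hb => (Finset.mem_sdiff.1 ha).2 (Finset.mem_sdiff.1 hb).1),
      Finset.sdiff_union_sdiff_cancel h4.2.1 h4.1]
  · obtain ⟨h1, h2⟩ := Finset.mem_filter.1 hJ
    have h4 := hs J (Finset.mem_powerset.1 h1) h2
    exact Finset.mem_powersetCard.2 ⟨h4.2.1, h4.2.2⟩

/-- A holomorphic function that vanishes on all strata of depth `q + 1` lies in the ideal of the
`x_(T - J)`, `|J| ≤ q`, with coefficients independent of `x_J`. -/
theorem hol_ideal_le {q : ℕ} (hU : IsOpen U) (hS : Stab T U) (hf : DifferentiableOn ℂ f U)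
    (h0 : ∀ I ⊆ T, I.card = q + 1 → ∀ w ∈ U, (∀ i ∈ I, w i = 0) → f w = 0) :
    ∃ g : Finset (Fin n) → E n → ℂ, (∀ J, DifferentiableOn ℂ (g J) U) ∧
      (∀ J ⊆ T, ∀ w ∈ U, g J (pz J w) = g J w) ∧
      ∀ w ∈ U, f w = ∑ J ∈ T.powerset with J.card ≤ q, (∏ i ∈ T \ J, w i) * g J w := by
  obtain ⟨g, h1, h2⟩ := hol_parts hU hS hf
  refine ⟨g, h1, fun J hJ w hw => (h2 J hJ w hw).2, fun w hw => ?_⟩
  rw [sum_rm T f w, Finset.sum_filter]
  refine Finset.sum_congr rfl fun J hJ => ?_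
  have hJ' := Finset.mem_powerset.1 hJ
  split_ifs with h
  · exact (h2 J hJ' w hw).1
  · exact rm_deep hS hJ' (not_le.1 h) hw h0

/-- The same with the generators `x_(T - J)`, `|J| = q`. -/
theorem hol_ideal {q : ℕ} (hU : IsOpen U) (hS : Stab T U) (hq : q ≤ T.card)
    (hf : DifferentiableOn ℂ f U)
    (h0 : ∀ I ⊆ T, I.card = q + 1 → ∀ w ∈ U, (∀ i ∈ I, w i = 0) → f w = 0) :
    ∃ g : Finset (Fin n) → E n → ℂ, (∀ J, DifferentiableOn ℂ (g J) U) ∧
      ∀ w ∈ U, f w = ∑ J ∈ T.powersetCard q, (∏ i ∈ T \ J, w i) * g J w := by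
  obtain ⟨g, h1, -, h2⟩ := hol_ideal_le hU hS hf h0
  obtain ⟨s, hs⟩ := regroup hq
  refine ⟨fun K w => ∑ J ∈ T.powerset with J.card ≤ q ∧ s J = K, (∏ i ∈ K \ J, w i) * g J w,
    fun K => DifferentiableOn.fun_sum fun J _ => (diff_prod _).differentiableOn.fun_mul (h1 J),
    fun w hw => ?_⟩
  rw [h2 w hw, hs (fun J => g J w) w]

/-! ### Germ forms -/

theorem holN_ball (hf : HolN f x) {P : E n → Prop} (hP : ∀ᶠ w in 𝓝 x, P w) :
    ∃ r, 0 < r ∧ DifferentiableOn ℂ f (ball x r) ∧ ∀ w ∈ ball x r, P w := by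
  obtain ⟨r, r0, hr⟩ := Metric.eventually_nhds_iff_ball.1 (Eventually.and hf hP)
  exact ⟨r, r0, fun w hw => (hr w hw).1.differentiableWithinAt, fun w hw => (hr w hw).2⟩

theorem div_bdd_germ {C : ℝ} (hf : HolN f x) (hm : HolN m x)
    (h0 : ∀ᶠ y in 𝓝 x, ∃ᶠ w in 𝓝 y, m w ≠ 0) (hb : ∀ᶠ w in 𝓝 x, ‖f w‖ ≤ C * ‖m w‖) :
    ∃ g, HolN g x ∧ ∀ᶠ w in 𝓝 x, f w = m w * g w := by
  obtain ⟨r, r0, h1, h2⟩ := holN_ball hf (Eventually.and hm (h0.and hb.eventually_nhds))
  obtain ⟨g, hg, e⟩ := div_bdd isOpen_ball h1 (fun w hw => (h2 w hw).1.differentiableWithinAt)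
    (fun w hw => (h2 w hw).2.1) fun w hw => ⟨C, (h2 w hw).2.2⟩
  exact ⟨g, holN_of isOpen_ball hg (mem_ball_self r0), mem_of_superset (ball_mem_nhds x r0) e⟩

theorem div_mon_germ {C : ℝ} {k : Fin n → ℕ} (hf : HolN f x)
    (hb : ∀ᶠ w in 𝓝 x, ‖f w‖ ≤ C * ‖mon k w‖) :
    ∃ g, HolN g x ∧ ∀ᶠ w in 𝓝 x, f w = mon k w * g w :=
  div_bdd_germ hf (Eventually.of_forall (diff_mon k)) (Eventually.of_forall (freq_mon k)) hb

theorem div_prod_germ (hf : HolN f x) (h0 : ∀ᶠ w in 𝓝 x, ∀ i ∈ I, w i = 0 → f w = 0) :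
    ∃ g, HolN g x ∧ ∀ᶠ w in 𝓝 x, f w = (∏ i ∈ I, w i) * g w := by
  obtain ⟨r, r0, h1, h2⟩ := holN_ball hf h0
  obtain ⟨g, hg, e⟩ := div_prod isOpen_ball I h1 h2
  exact ⟨g, holN_of isOpen_ball hg (mem_ball_self r0), mem_of_superset (ball_mem_nhds x r0) e⟩

/-- From the hyperplanes through a point to all hyperplanes. -/
theorem sum_sub {q : ℕ} {S : Finset (Fin n)} (hS : S ⊆ T) (g : Finset (Fin n) → ℂ)
    (hz : ∀ i ∈ T \ S, z i ≠ 0) :
    ∑ J ∈ S.powerset with J.card ≤ q, (∏ i ∈ S \ J, z i) * g J =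
      ∑ J ∈ T.powerset with J.card ≤ q, (∏ i ∈ T \ J, z i) *
        if J ⊆ S then (∏ i ∈ T \ S, z i)⁻¹ * g J else 0 := by
  rw [← Finset.sum_subset (Finset.filter_subset_filter _ (Finset.powerset_mono.2 hS))]
  · refine Finset.sum_congr rfl fun J hJ => ?_
    have h1 := Finset.mem_powerset.1 (Finset.mem_filter.1 hJ).1
    rw [if_pos h1, ← Finset.sdiff_union_sdiff_cancel hS h1, Finset.prod_union
      (Finset.disjoint_left.2 fun a ha hb => (Finset.mem_sdiff.1 ha).2 (Finset.mem_sdiff.1 hb).1)]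
    have := Finset.prod_ne_zero_iff.2 hz
    field_simp
  · intro J h1 h2
    rw [if_neg fun h => h2 (Finset.mem_filter.2
      ⟨Finset.mem_powerset.2 h, (Finset.mem_filter.1 h1).2⟩), mul_zero]

theorem ev_ne (x : E n) (T : Finset (Fin n)) :
    ∀ᶠ w in 𝓝 x, ∀ i ∈ T \ T.filter fun i => x i = 0, w i ≠ 0 :=
  (eventually_all_finset _).2 fun i hi => (continuous_apply i).continuousAt.eventually_ne
    fun h => (Finset.mem_sdiff.1 hi).2 (Finset.mem_filter.2 ⟨(Finset.mem_sdiff.1 hi).1, h⟩)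

/-- Germ form of `hol_ideal`, at any point. -/
theorem hol_ideal_germ {q : ℕ} (hq : q ≤ T.card) (hf : HolN f x)
    (h0 : ∀ᶠ w in 𝓝 x, ∀ I ⊆ T, I.card = q + 1 → (∀ i ∈ I, w i = 0) → f w = 0) :
    ∃ g : Finset (Fin n) → E n → ℂ, (∀ J, HolN (g J) x) ∧
      ∀ᶠ w in 𝓝 x, f w = ∑ J ∈ T.powersetCard q, (∏ i ∈ T \ J, w i) * g J w := by
  obtain ⟨r, r0, h1, h2⟩ := holN_ball hf (h0.and (ev_ne x T))
  have hS := Finset.filter_subset (fun i => x i = 0) T
  obtain ⟨g, hg, -, e⟩ := hol_ideal_le (q := q) isOpen_ball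
    (stab_ball (T := T.filter fun i => x i = 0) fun j hj => (Finset.mem_filter.1 hj).2) h1
    fun I hI hc w hw => (h2 w hw).1 I (hI.trans hS) hc
  obtain ⟨s, hs⟩ := regroup hq
  refine ⟨fun K w => ∑ J ∈ T.powerset with J.card ≤ q ∧ s J = K, (∏ i ∈ K \ J, w i) *
    if J ⊆ T.filter fun i => x i = 0 then (∏ i ∈ T \ T.filter fun i => x i = 0, w i)⁻¹ * g J w
    else 0, fun K => holN_of isOpen_ball (DifferentiableOn.fun_sum fun J _ =>
      (diff_prod _).differentiableOn.fun_mul ?_) (mem_ball_self r0), ?_⟩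
  · split_ifs
    · exact ((diff_prod _).differentiableOn.fun_inv
        fun w hw => Finset.prod_ne_zero_iff.2 (h2 w hw).2).fun_mul (hg J)
    · exact differentiableOn_const 0
  · filter_upwards [ball_mem_nhds x r0] with w hw
    rw [e w hw, sum_sub hS (fun J => g J w) (h2 w hw).2, hs]

end Pool.Agent.Lib.EX.K68
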