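import Pool.Agent.Lib.EX.Blue
import Pool.Agent.Lib.EX.K68A

/-! Project ex41: holomorphic division. -/

open scoped Classical Topology ContDiff ComplexOrder Matrix
open Set MeasureTheory Complex Metric Filter

set_option linter.unusedVariables false
set_option linter.unusedSectionVars false

noncomputable section

namespace Pool.Agent.Lib.EX

open Pool.Agent.Lib.SV (E)
open Pool.Agent.Lib.HS32

namespace DIV

variable {n : ℕ} {ι : Type} [DecidableEq ι] {c : ι → Option (Fin n)} {ν : E n → ℂ} {z₀ : E n}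
  {a : ι} {T : Finset ι}

theorem xi_diff (c : ι → Option (Fin n)) (i : ι) : Differentiable ℂ (xi c i) := by
  unfold xi
  cases c i with
  | none => exact differentiable_const _
  | some j => exact differentiable_apply j

theorem unit (hν : HolN ν z₀) (h : xi c a z₀ ≠ 0) :
    ∃ g, HolN g z₀ ∧ ∀ᶠ z in 𝓝 z₀, ν z = xi c a z * g z := by
  have h1 := (xi_diff c a).continuous.continuousAt.eventually_ne h
  refine ⟨fun z => (xi c a z)⁻¹ * ν z, ?_, h1.mono fun z hz => (mul_inv_cancel_left₀ hz _).symm⟩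
  filter_upwards [hν, h1] with z h2 h3 using ((xi_diff c a z).fun_inv h3).fun_mul h2

theorem split (hc : Inj c) (hν : HolN ν z₀) (h : xi c a z₀ = 0) : ∃ (π : E n → E n) (g : E n → ℂ),
    HolN g z₀ ∧ HolN (fun z => ν (π z)) z₀ ∧ Tendsto π (𝓝 z₀) (𝓝 z₀) ∧
    (∀ I z, Sl c I z → Sl c (insert a I) (π z)) ∧
    (∀ᶠ z in 𝓝 z₀, ν z = ν (π z) + xi c a z * g z) ∧
    ∀ I, a ∉ I → ∀ z, Sl c I z → ∃ᶠ w in 𝓝 z, Sl c I w ∧ xi c a w ≠ 0 := by
  obtain ⟨j, hj⟩ : ∃ j, c a = some j := by
    unfold xi at h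
    cases e : c a with
    | none => rw [e] at h; exact absurd h one_ne_zero
    | some j => exact ⟨j, rfl⟩
  have e : ∀ z, xi c a z = z j := fun z => by rw [xi, hj]; rfl
  have ht := K68.tendsto_pz (J := {j}) (x := z₀) fun k hk => by
    rw [Finset.mem_singleton.1 hk, ← e z₀, h]
  have h1 : HolN (fun z => ν (K68.pz {j} z)) z₀ :=
    (ht.eventually hν).mono fun z hz => hz.comp z (K68.diff_pz _ z)
  obtain ⟨g, g1, g2⟩ := K68.div_prod_germ (I := {j}) (f := fun z => ν z - ν (K68.pz {j} z))
    ((Eventually.and hν h1).mono fun z hz => hz.1.fun_sub hz.2)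
    (Eventually.of_forall fun w i hi h0 => by
      rw [K68.pz_single_self (Finset.mem_singleton.1 hi ▸ h0), sub_self])
  refine ⟨K68.pz {j}, g, g1, h1, ht, fun I z hz i hi => ?_, g2.mono fun z hz => ?_,
    fun I ha z hz => (K68.freq_ne z {j}).mono fun w hw =>
      ⟨fun i hi => ?_, e w ▸ hw.1 j (Finset.mem_singleton_self j)⟩⟩
  · rcases Finset.mem_insert.1 hi with rfl | hi
    · rw [e]; exact K68.pz_mem (Finset.mem_singleton_self j)
    · have := hz i hi
      unfold xi at this ⊢
      cases e' : c i with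
      | none => rw [e'] at this; exact this
      | some k => rw [e'] at this; exact K68.pz_of_zero this
  · rw [Finset.prod_singleton] at hz
    rw [e, ← hz]
    ring
  · have := hz i hi
    unfold xi at this ⊢
    cases e' : c i with
    | none => rw [e'] at this; exact this
    | some k =>
      rw [e'] at this
      exact (hw.2 k fun hk => ha (hc a i j hj (Finset.mem_singleton.1 hk ▸ e') ▸ hi)).trans this

theorem one (hc : Inj c) (I : Finset ι) : ∀ {ν : E n → ℂ}, HolN ν z₀ →
    (∀ᶠ z in 𝓝 z₀, Sl c I z → ν z = 0) → ∃ t : ι → E n → ℂ, (∀ i, HolN (t i) z₀) ∧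
      ∀ᶠ z in 𝓝 z₀, ν z = ∑ i ∈ I, xi c i z * t i z := by
  induction I using Finset.induction_on with
  | empty =>
    exact fun hν h0 => ⟨fun _ => _, fun _ => hν, h0.mono fun z hz => hz fun _ h => by simp at h⟩
  | insert a I ha ih =>
    intro ν hν h0
    have key : ∃ (g : E n → ℂ) (t : ι → E n → ℂ), HolN g z₀ ∧ (∀ i, HolN (t i) z₀) ∧
        ∀ᶠ z in 𝓝 z₀, ν z = xi c a z * g z + ∑ i ∈ I, xi c i z * t i z := by
      by_cases h : xi c a z₀ = 0
      · obtain ⟨π, g, h1, h2, h3, h4, h5, -⟩ := split hc hν h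
        obtain ⟨t, t1, t2⟩ := ih h2 ((h3.eventually h0).mono fun z hz hs => hz (h4 I z hs))
        exact ⟨g, t, h1, t1, (h5.and t2).mono fun z hz => by rw [hz.1, hz.2, add_comm]⟩
      · obtain ⟨g, h1, h2⟩ := unit hν h
        exact ⟨g, fun _ _ => 0, h1, fun _ => Eventually.of_forall (differentiable_const 0),
          h2.mono fun z hz => by simp [hz]⟩
    obtain ⟨g, t, h1, h2, h3⟩ := key
    refine ⟨Function.update t a g, fun i => ?_, h3.mono fun z hz => ?_⟩
    · by_cases h : i = a
      · rwa [h, Function.update_self]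
      · rw [Function.update_of_ne h]; exact h2 i
    · rw [hz, Finset.sum_insert ha, Function.update_self]
      exact congrArg _ (Finset.sum_congr rfl fun i hi => by
        rw [Function.update_of_ne fun h : i = a => ha (h ▸ hi)])

theorem comb (ha : a ∉ T) (q : ℕ) (A B : Finset ι → E n → ℂ) (z : E n) :
    ∑ J ∈ lt (insert a T) (q + 1), xs c (insert a T \ J) z *
        (if a ∈ J then B (J.erase a) else A J) z =
      xi c a z * ∑ J ∈ lt T (q + 1), xs c (T \ J) z * A J z +
        ∑ J ∈ lt T q, xs c (T \ J) z * B J z := by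
  simp only [lt, Finset.sum_filter]
  rw [Finset.sum_powerset_insert ha, Finset.mul_sum]
  refine congrArg₂ _ (Finset.sum_congr rfl fun J hJ => ?_) (Finset.sum_congr rfl fun J hJ => ?_)
  · have h : a ∉ J := fun h => ha (Finset.mem_powerset.1 hJ h)
    rw [if_neg h, Finset.insert_sdiff_of_notMem _ h, xs, xs,
      Finset.prod_insert fun h => ha (Finset.mem_sdiff.1 h).1]
    split_ifs <;> ring
  · have h : a ∉ J := fun h => ha (Finset.mem_powerset.1 hJ h)
    rw [if_pos (Finset.mem_insert_self a J), Finset.erase_insert h, Finset.insert_sdiff_insert,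
      Finset.sdiff_insert_of_notMem ha, Finset.card_insert_of_notMem h]
    simp only [Nat.add_lt_add_iff_right]

theorem two (hc : Inj c) (T : Finset ι) : ∀ (p : ℕ) {ν : E n → ℂ}, HolN ν z₀ →
    (∀ I ∈ T.powersetCard p, ∀ᶠ z in 𝓝 z₀, Sl c I z → ν z = 0) →
    ∃ s : Finset ι → E n → ℂ, (∀ J, HolN (s J) z₀) ∧
      ∀ᶠ z in 𝓝 z₀, ν z = ∑ J ∈ lt T p, xs c (T \ J) z * s J z := by
  have zero : ∀ (T : Finset ι) {ν : E n → ℂ}, HolN ν z₀ →
      (∀ I ∈ T.powersetCard 0, ∀ᶠ z in 𝓝 z₀, Sl c I z → ν z = 0) →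
      ∃ s : Finset ι → E n → ℂ, (∀ J, HolN (s J) z₀) ∧
        ∀ᶠ z in 𝓝 z₀, ν z = ∑ J ∈ lt T 0, xs c (T \ J) z * s J z := fun T ν hν h0 =>
    ⟨fun _ => ν, fun _ => hν, (h0 ∅ (by simp)).mono fun z hz => by
      simpa [lt] using hz fun _ h => by simp at h⟩
  induction T using Finset.induction_on with
  | empty =>
    rintro (_ | q) ν hν h0
    · exact zero _ hν h0
    · exact ⟨fun _ => ν, fun _ => hν, Eventually.of_forall fun z => by
        simp [lt, xs, Finset.filter_singleton]⟩
  | insert a T ha ih =>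
    rintro (_ | q) ν hν h0
    · exact zero _ hν h0
    have sub : ∀ I ∈ T.powersetCard (q + 1), ∀ᶠ z in 𝓝 z₀, Sl c I z → ν z = 0 := fun I hI =>
      h0 I (Finset.powersetCard_mono (Finset.subset_insert a T) hI)
    have key : ∃ g f : E n → ℂ, HolN g z₀ ∧ HolN f z₀ ∧
        (∀ I ∈ T.powersetCard (q + 1), ∀ᶠ z in 𝓝 z₀, Sl c I z → g z = 0) ∧
        (∀ I ∈ T.powersetCard q, ∀ᶠ z in 𝓝 z₀, Sl c I z → f z = 0) ∧
        ∀ᶠ z in 𝓝 z₀, ν z = xi c a z * g z + f z := by
      by_cases h : xi c a z₀ = 0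
      · obtain ⟨π, g, h1, h2, h3, h4, h5, h6⟩ := split hc hν h
        refine ⟨g, _, h1, h2, fun I hI => ?_, fun I hI => ?_,
          h5.mono fun z hz => by rw [add_comm]; exact hz⟩
        · have hI' := (Finset.mem_powersetCard.1 hI).1
          filter_upwards [h1, (h5.and ((sub I hI).and (h3.eventually (sub I hI)))).eventually_nhds]
            with z a1 a2 hz
          refine tendsto_nhds_unique_of_frequently_eq a1.continuousAt continuousAt_const
            (((h6 I (fun h => ha (hI' h)) z hz).and_eventually a2).mono fun w hw => ?_)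
          have := hw.2.1
          rw [hw.2.2.1 hw.1.1, hw.2.2.2 fun i hi => h4 I w hw.1.1 i (Finset.mem_insert_of_mem hi),
            zero_add] at this
          exact (mul_eq_zero.1 this.symm).resolve_left hw.1.2
        · obtain ⟨h7, h8⟩ := Finset.mem_powersetCard.1 hI
          exact (h3.eventually (h0 (insert a I) (Finset.mem_powersetCard.2
            ⟨Finset.insert_subset_insert a h7, by
              rw [Finset.card_insert_of_notMem fun h => ha (h7 h), h8]⟩))).mono
            fun z hz hs => hz (h4 I z hs)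
      · obtain ⟨g, h1, h2⟩ := unit hν h
        refine ⟨g, fun _ => 0, h1, Eventually.of_forall (differentiable_const 0), fun I hI => ?_,
          fun _ _ => Eventually.of_forall fun _ _ => rfl, h2.mono fun z hz => by rw [hz, add_zero]⟩
        filter_upwards [h2, sub I hI, (xi_diff c a).continuous.continuousAt.eventually_ne h]
          with z a1 a2 a3 hz
        exact (mul_eq_zero.1 (a1.symm.trans (a2 hz))).resolve_left a3
    obtain ⟨g, f, h1, h2, h3, h4, h5⟩ := key
    obtain ⟨A, A1, A2⟩ := ih _ h1 h3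
    obtain ⟨B, B1, B2⟩ := ih _ h2 h4
    refine ⟨fun J => if a ∈ J then B (J.erase a) else A J, fun J => ?_, ?_⟩
    · beta_reduce
      split_ifs
      · exact B1 _
      · exact A1 _
    · filter_upwards [h5, A2, B2] with z a1 a2 a3
      rw [comb ha, a1, a2, a3]

end DIV

theorem bDIV : St_DIV := fun n ι _ _ c ν z₀ hc hν =>
  ⟨fun I => DIV.one hc I hν, fun T p => DIV.two hc T p hν⟩

end Pool.Agent.Lib.EX
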