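import Pool.Agent.Lib.EX.Blue
import Pool.Agent.Lib.HS32.EKit

/-! Project ex41, block EXP: the pointwise expansion of the divergence. -/

open scoped Classical Topology ContDiff
open Complex

noncomputable section

namespace Pool.Agent.Lib.EX

open Pool.Agent.Lib.HS32

theorem bEXP : St_EXP := by
  intro n d χ l F X z hd hd0 hχ hl hF hX
  have hr : ∀ {u : SV.E n → ℝ}, DifferentiableAt ℝ u z →
      DifferentiableAt ℝ (fun y => (u y : ℂ)) z := fun h =>
    ofRealCLM.differentiableAt.comp z h
  have hj : ∀ j, DifferentiableAt ℝ (fun y => X y j) z := differentiableAt_pi.1 hX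
  have h0 : (d z : ℂ) ≠ 0 := ofReal_ne_zero.2 hd0
  constructor
  · have h1 : star (dvD d X z) =
        (∑ j, (dzb j (fun y => (d y : ℂ)) z * star (X z j) +
          d z * dzb j (fun y => star (X y j)) z)) / d z := by
      rw [dvD, star_div₀, star_sum]
      congr 1
      · refine Finset.sum_congr rfl fun j _ => ?_
        rw [dz_mul (hr hd) (hj j), star_add, star_mul', star_mul', star_dz_ofReal (hr hd),
          dzb_star (hj j)]
        simp
      · simp
    have h2 : (d z : ℂ) * (F z * star (dvD d X z)) =
        ∑ j, F z * (dzb j (fun y => (d y : ℂ)) z * star (X z j) +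
          d z * dzb j (fun y => star (X y j)) z) := by
      rw [h1, ← Finset.mul_sum]
      field_simp
    rw [h2, app, star_sum]
    simp only [Finset.mul_sum, ← Finset.sum_add_distrib]
    refine Finset.sum_congr rfl fun j _ => ?_
    have h3 := diff_star (hj j)
    rw [dzb_mul (hr hχ) ((hr hd).fun_mul (hF.fun_mul h3)), dzb_mul (hr hd) (hF.fun_mul h3),
      dzb_mul hF h3,
      star_mul', star_dz_ofReal (hr hχ)]
    ring
  · rw [app, star_sum]
    simp only [Finset.mul_sum]
    refine Finset.sum_congr rfl fun j _ => ?_
    rw [star_mul', star_dz_ofReal (hr hl)]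
    ring

end Pool.Agent.Lib.EX
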