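import Pool.Agent.Lib.EX.Blue

/-! Holomorphic sections on the strata form a space of finite dimension. -/

open scoped Classical Topology ContDiff ComplexOrder Matrix
open Set MeasureTheory Complex Metric Filter

set_option linter.unusedVariables false
set_option linter.unusedSectionVars false

noncomputable section

namespace Pool.Agent.Lib.EX

open Pool.Agent.Lib.SV (E)
open Pool.Agent.Lib.HS32

namespace FIN

variable {n : ℕ} {ι : Type} [Fintype ι] [DecidableEq ι]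

theorem prj_le (c : ι → Option (Fin n)) (I : Finset ι) (z : E n) : ‖prj c I z‖ ≤ ‖z‖ := by
  refine (pi_norm_le_iff_of_nonneg (norm_nonneg _)).2 fun j => ?_
  unfold prj
  split_ifs
  exacts [by simp, norm_le_pi_norm z j]

theorem prj_mem (c : ι → Option (Fin n)) (I : Finset ι) {z : E n} (hz : z ∈ B2 n) :
    prj c I z ∈ B2 n := mem_ball_zero_iff.2 ((prj_le c I z).trans_lt (mem_ball_zero_iff.1 hz))

theorem prj_cont (c : ι → Option (Fin n)) (I : Finset ι) : Continuous (prj c I) := by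
  refine continuous_pi fun j => ?_
  unfold prj
  split_ifs
  exacts [continuous_const, continuous_apply j]

theorem prj_sl (c : ι → Option (Fin n)) {I : Finset ι} (h : ∀ i ∈ I, c i ≠ none) (z : E n) :
    Sl c I (prj c I z) := by
  intro i hi
  obtain ⟨j, hj⟩ := Option.ne_none_iff_exists'.1 (h i hi)
  have : Nm c I j := ⟨i, hi, hj⟩
  simp only [xi, hj, Option.elim, prj, if_pos this]

variable {M : Mf n} (D : Ad M ι) (G : ι → ℤ) (T : Finset ι) (q : ℕ)

/-- A bound on the closed unit polydiscs. -/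
def Bd (σ : Finset ι → D.A → E n → ℂ) (m : ℝ) : Prop := ∀ I a z, ‖z‖ ≤ 1 → ‖σ I a z‖ ≤ m

theorem ctl (I : Finset ι) (a : D.A) {z₀ : E n} (h₀ : z₀ ∈ B2 n) : ∃ C : ℝ, 0 < C ∧ ∀ᶠ z in 𝓝 z₀,
    z ∈ B2 n ∧ ∀ σ m, D.HSec G T q σ → Bd D σ m → ‖σ I a z‖ ≤ C * m := by
  have hB : ∀ᶠ z in 𝓝 z₀, z ∈ B2 n := isOpen_ball.mem_nhds h₀
  have hm : ∀ σ m, Bd D σ m → 0 ≤ m := fun σ m h => (norm_nonneg _).trans (h I a 0 (by simp))
  by_cases hI : I ∈ T.powersetCard q
  swap
  · refine ⟨1, one_pos, hB.mono fun z hz => ⟨hz, fun σ m h hb => ?_⟩⟩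
    simpa [h.z1 I hI] using hm σ m hb
  by_cases hc : ∀ i ∈ I, D.c a i ≠ none
  swap
  · push Not at hc
    obtain ⟨i, hi, hc⟩ := hc
    refine ⟨1, one_pos, hB.mono fun z hz => ⟨hz, fun σ m h hb => ?_⟩⟩
    simpa [h.z3 I a i hi hc] using hm σ m hb
  have hy := prj_mem (D.c a) I h₀
  set y₀ := prj (D.c a) I z₀
  have ht : ∀ y ∈ B2 n, y ∈ (D.e a).target := fun y h => (D.tgt a).symm ▸ h
  obtain ⟨b, -, hb⟩ := Finset.exists_ne_zero_of_sum_ne_zero
    ((D.sum ((D.e a).symm y₀)).trans_ne one_ne_zero)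
  have hs := (D.e a).map_target (ht _ hy)
  have c1 : ContinuousAt (D.χ b ∘ (D.e a).symm) y₀ :=
    (D.sm b _ (D.mem a) _ (ht _ hy)).continuousAt
  have c2 : ContinuousAt (fun y => ‖D.kap G T I b a ((D.e a).symm y)‖) y₀ := by
    refine ContinuousAt.norm (tendsto_finsetProd _ fun i _ => ?_)
    have h := (D.uhol b a i _ (D.supp _ _ hb).1 hs).self_of_nhds.continuousAt
    rw [(D.e a).right_inv (ht _ hy)] at h
    exact h.zpow₀ _ (Or.inl (D.une b a i _ (D.supp _ _ hb).1 hs))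
  have e1 : ∀ᶠ y in 𝓝 y₀, D.χ b ((D.e a).symm y) ≠ 0 := c1.eventually_ne hb
  have e2 := c2.eventually_lt_const (lt_add_one _)
  refine ⟨‖D.kap G T I b a ((D.e a).symm y₀)‖ + 1, by positivity, ?_⟩
  filter_upwards [hB, (prj_cont (D.c a) I).continuousAt.eventually e1,
    (prj_cont (D.c a) I).continuousAt.eventually e2] with z hz f1 f2
  refine ⟨hz, fun σ m h hb => ?_⟩
  have hy' := ht _ (prj_mem (D.c a) I hz)
  have k := (h.sec I hI).cmp b a _ (D.supp _ _ f1).1 ((D.e a).map_target hy')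
  dsimp only at k
  rw [(D.e a).right_inv hy'] at k
  rw [← (h.sec I hI).iv a z hz, k (prj_sl _ hc z), norm_mul, mul_comm]
  exact mul_le_mul f2.le (hb _ _ _ (D.supp _ _ f1).2) (norm_nonneg _) (by positivity)

theorem osc (I : Finset ι) (a : D.A) {z₀ : E n} (h₀ : z₀ ∈ B2 n) : ∀ᶠ z in 𝓝 z₀,
    ∀ σ m, D.HSec G T q σ → Bd D σ m → ‖σ I a z - σ I a z₀‖ ≤ m / 2 := by
  obtain ⟨C, hC, h⟩ := ctl D G T q I a h₀
  obtain ⟨ρ, hρ, h⟩ := Metric.eventually_nhds_iff_ball.1 h
  filter_upwards [ball_mem_nhds z₀ hρ, ball_mem_nhds z₀ (show 0 < ρ / (4 * C) by positivity)]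
    with z h1 h2 σ m hσ hb
  have hm : 0 ≤ m := (norm_nonneg _).trans (hb I a 0 (by simp))
  have k := Complex.dist_le_div_mul_dist_of_mapsTo_ball (f := σ I a) (R₂ := 2 * (C * m))
    (fun y hy => (hσ.hol I a y (h y hy).1).differentiableWithinAt) (fun y hy => by
      rw [mem_closedBall, dist_eq_norm]
      linarith [(h y hy).2 σ m hσ hb, (h z₀ (mem_ball_self hρ)).2 σ m hσ hb,
        norm_sub_le (σ I a y) (σ I a z₀)]) h1
  rw [← dist_eq_norm]
  refine k.trans ((mul_le_mul_of_nonneg_left (mem_ball.1 h2).le (by positivity)).trans_eq ?_)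
  field_simp
  ring

theorem net (I : Finset ι) (a : D.A) : ∃ S : Finset (E n), ∀ σ m, D.HSec G T q σ → Bd D σ m →
    (∀ z ∈ S, σ I a z = 0) → ∀ z, ‖z‖ ≤ 1 → ‖σ I a z‖ ≤ m / 2 := by
  obtain ⟨S, -, hS⟩ := (isCompact_closedBall (0 : E n) 1).elim_nhds_subcover
    (fun z₀ => {z | ∀ σ m, D.HSec G T q σ → Bd D σ m → ‖σ I a z - σ I a z₀‖ ≤ m / 2})
    fun z₀ h => osc D G T q I a (closedBall_subset_ball (by norm_num) h)
  refine ⟨S, fun σ m hσ hb h0 z hz => ?_⟩
  obtain ⟨z₀, h1, h2⟩ := mem_iUnion₂.1 (hS (mem_closedBall_zero_iff.2 hz))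
  simpa [h0 z₀ h1] using h2 σ m hσ hb

theorem bdd {σ : Finset ι → D.A → E n → ℂ} (hσ : D.HSec G T q σ) : ∃ m, Bd D σ m := by
  have h : ∀ I a, ∃ m, ∀ z ∈ closedBall (0 : E n) 1, ‖σ I a z‖ ≤ m := fun I a =>
    (isCompact_closedBall _ _).exists_bound_of_continuousOn fun z hz =>
      (hσ.hol I a z (closedBall_subset_ball (by norm_num) hz)).continuousAt.continuousWithinAt
  choose m hm using h
  obtain ⟨B, hB⟩ := (finite_range fun p : Finset ι × D.A => m p.1 p.2).bddAbove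
  exact ⟨B, fun I a z hz => (hm I a z (mem_closedBall_zero_iff.2 hz)).trans (hB ⟨(I, a), rfl⟩)⟩

end FIN

theorem bFIN : St_FIN := by
  intro n M _ ι _ _ D G T q R hR
  choose S hS using FIN.net D G T q
  let φ : R →ₗ[ℂ] ((I : Finset ι) → (a : D.A) → S I a → ℂ) :=
    { toFun := fun σ I a z => σ.1 I a z
      map_add' := fun _ _ => rfl
      map_smul' := fun _ _ => rfl }
  refine FiniteDimensional.of_injective φ ((injective_iff_map_eq_zero φ).2 fun σ h => ?_)
  have hσ := hR _ σ.2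
  obtain ⟨m, hm⟩ := FIN.bdd D G T q hσ
  have h1 : ∀ k : ℕ, FIN.Bd D σ.1 (m * (1 / 2) ^ k) := by
    intro k
    induction k with
    | zero => simpa using hm
    | succ k ih =>
      intro I a z hz
      refine (hS I a _ _ hσ ih (fun y hy => congrFun (congrFun (congrFun h I) a) ⟨y, hy⟩) z
        hz).trans_eq (by ring)
  have h2 : FIN.Bd D σ.1 0 := fun I a z hz => by
    have t := (tendsto_pow_atTop_nhds_zero_of_lt_one (r := (1 / 2 : ℝ)) (by norm_num)
      (by norm_num)).const_mul m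
    rw [mul_zero] at t
    exact ge_of_tendsto' t fun k => h1 k I a z hz
  refine Subtype.ext (funext fun I => funext fun a => funext fun z => ?_)
  by_cases hz : z ∈ B2 n
  · obtain ⟨C, -, hC⟩ := FIN.ctl D G T q I a hz
    simpa using hC.self_of_nhds.2 _ 0 hσ h2
  · exact hσ.z2 I a z hz

end Pool.Agent.Lib.EX
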