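import Pool.Agent.Lib.EX.Blue

/-! Project ex41, block GLUE: one step down in the weight. -/

open scoped Classical Topology ContDiff ComplexOrder Matrix
open Set MeasureTheory Complex Metric Filter

noncomputable section

namespace Pool.Agent.Lib.EX

open Pool.Agent.Lib.SV (E)
open Pool.Agent.Lib.HS32
open Pool.Agent.Lib.EXA (Val SmN emb)

namespace GLUE

variable {n : ℕ} {ι : Type} [Fintype ι] [DecidableEq ι] {c : ι → Option (Fin n)} {G K : ι → ℤ}
  {T : Finset ι} {p : ℕ} {ρ ρ' : Finset ι → E n → ℂ} {F F' : E n → ℂ} {z : E n}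

theorem res_sub (hR : St_RES) (hc : Inj c) (h : Res c G T p ρ F z) (h' : Res c G T p ρ' F' z) :
    Res c G T p (ρ - ρ') (F - F') z := by
  have h1 := (hR n ι c G T p ρ' ρ' F' F' z hc).2.2.2.2.2.1 (fun _ => -1)
    (Eventually.of_forall fun _ => contDiffAt_const) h'
  have h2 := (hR n ι c G T p ρ _ F _ z hc).2.2.2.2.1 h h1
  convert h2 using 1
  · ext I y
    simp [sub_eq_add_neg]
  · ext y
    simp [sub_eq_add_neg]

theorem res_congr (hR : St_RES) (hc : Inj c) (h : Res c G T p ρ F z)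
    (h1 : ∀ᶠ y in 𝓝 z, Off c y → F' y = F y)
    (h2 : ∀ I ∈ T.powersetCard p, ∀ᶠ y in 𝓝 z, Sl c I y → ρ' I y = ρ I y) :
    Res c G T p ρ' F' z := (hR n ι c G T p ρ ρ' F F' z hc).2.2.2.2.2.2.1 h h1 h2

theorem smN_of {φ : E n → ℂ} (h : ∀ y ∈ B2 n, ContDiffAt ℝ ∞ φ y) (hz : z ∈ B2 n) : SmN φ z := by
  filter_upwards [isOpen_ball.mem_nhds hz] with y hy using h y hy

/-- The tangential derivatives of the residues vanish. -/
theorem tang (hR : St_RES) (hI : St_INC) (hc : Inj c) {g : E n → ℂ} (hg : PolH c K g z)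
    (h : Res c G T p ρ (F - g) z) {j : Fin n} (h' : Res c G T p ρ' (dzb j F) z) {I : Finset ι}
    (hT : I ∈ T.powersetCard p) (hj : ¬ Nm c I j) (hs : SmN (ρ I) z) (hz : Sl c I z) :
    dzb j (ρ I) z = ρ' I z := by
  obtain ⟨σ, h1, h2⟩ := (hR n ι c G T p ρ ρ (F - g) F z hc).2.2.2.2.2.2.2.2.2.2.2.1 h j
  have h3 := ((hR n ι c G T p ρ ρ (F - g) F z hc).1 h).1
  have h4 := (hI n ι c G 0 T (p + 1) (F - g) z).2.2.2.2.2.1 h3
  have h5 := (hI n ι c G 0 T p (F - g) z).2.2.2.2.2.2.2.2.2.2.2.2.2.2.2.1 h4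
  have h6 := (hI n ι c K 0 T p g z).2.2.2.2.2.2.2.2.2.2.2.2.2.2.2.2.1 hg
  have h7 := ((hI n ι c K 0 T p g z).2.2.2.2.2.2.2.2.2.2.2.2.2.2.2.2.2 j).2.2 hg
  have h8 : Res c G T p σ (dzb j F) z := by
    refine res_congr hR hc h1 ?_ fun _ _ => Eventually.of_forall fun _ _ => rfl
    filter_upwards [h5, h6, h7] with y a b d hy
    have e : F = fun w => (F - g) w + g w := by
      funext w
      simp
    conv_lhs => rw [e]
    rw [dzb_add (cd_diff (a hy).self_of_nhds) ((b hy).self_of_nhds.restrictScalars ℝ), d hy,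
      add_zero]
  have h9 := (hR n ι c G T p σ ρ' (dzb j F) F z hc).2.2.2.2.2.2.2.1 h8 h' I hT
  exact ((h2 I hT hj hs).self_of_nhds hz).symm.trans (h9.self_of_nhds hz)

/-- A smooth function on a stratum with vanishing tangential derivatives is holomorphic. -/
theorem hol (hM : St_MON) {φ : E n → ℂ} {I : Finset ι} (hI : ∀ i ∈ I, c i ≠ none)
    (h : ∀ y ∈ B2 n, ContDiffAt ℝ ∞ φ y) (hv : Iv c I φ)
    (h0 : ∀ y ∈ B2 n, Sl c I y → ∀ j, ¬ Nm c I j → dzb j φ y = 0) (hz : z ∈ B2 n) : HolN φ z := by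
  obtain ⟨-, -, -, -, -, -, -, -, -, -, m1, m2, -⟩ := hM n ι c
  filter_upwards [isOpen_ball.mem_nhds hz] with y hy
  refine ((mHOL n φ y).1 (cd_diff (h y hy))).2 fun j => ?_
  have h1 : prj c I y ∈ B2 n := mem_ball_zero_iff.2 ((m1 I y).1.trans_lt (mem_ball_zero_iff.1 hy))
  have h2 : φ =ᶠ[𝓝 y] fun w => φ (prj c I w) := by
    filter_upwards [isOpen_ball.mem_nhds hy] with w hw using (hv w hw).symm
  rw [dzb_congr h2, (m2 I φ y j (cd_diff (h _ h1))).2]
  split_ifs with hj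
  · rfl
  · exact h0 _ h1 ((m1 I y).2.2.2.2.1 hI) j hj

end GLUE

theorem bGLUE (hC : St_CECH) (hE : St_XT) (hR : St_RES) (hI : St_INC) (hT : St_TRF)
    (hM : St_MON) (hD : St_MOD) : St_GLUE := by
  intro n M _ H ι _ _ D G K T p g w hg hd hw hrep
  obtain ⟨σ, hσ, hres⟩ := hC n M ι D G T p g hd
  set F : M.X → ℂ := D.avg g - D.ext G T p w with hF
  have h1 : D.All fun a z => Res (D.c a) G T p (fun I => σ I a - w I a) (D.rd F a - g a) z := by
    intro a z hz
    refine GLUE.res_congr hR (D.inj a)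
      (GLUE.res_sub hR (D.inj a) (hres a z hz) (hE n M ι D G T p w hw a z hz))
      (Eventually.of_forall fun y _ => ?_) fun _ _ => Eventually.of_forall fun _ _ => rfl
    simp only [hF, Ad.rd, Pi.sub_apply]
    ring
  have hs : ∀ I ∈ T.powersetCard p, ∀ a, ∀ y ∈ B2 n, ContDiffAt ℝ ∞ (σ I a - w I a) y :=
    fun I hI a y hy => ((hσ I hI).sm a y hy).sub ((hw I hI).sm a y hy)
  let k : D.A → Finset ι → E n → ℂ := fun a I =>
    if ∀ i ∈ I, D.c a i ≠ none then σ I a - w I a else 0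
  have hk : D.All fun a z => ∀ I ∈ T.powersetCard p, HolN (k a I) z := by
    intro a z hz I hI'
    simp only [k]
    split_ifs with h
    · refine GLUE.hol hM h (hs I hI' a) (fun y hy => ?_) (fun y hy hy' j hj => ?_) hz
      · rw [Pi.sub_apply, Pi.sub_apply, (hσ I hI').iv a y hy, (hw I hI').iv a y hy]
      · obtain ⟨ρ, h2, h3⟩ := hrep a y hy j
        rw [GLUE.tang hR hI (D.inj a) (hg a y hy) (h1 a y hy) h2 hI' hj
          (GLUE.smN_of (hs I hI' a) hy) hy', (h3 I hI' hj).self_of_nhds hy']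
        simp
    · exact Eventually.of_forall fun _ => differentiableAt_const _
  have h2 : D.All fun a z => WtH (D.c a) G T (p + 1) (hat (D.c a) G T p (k a)) z := fun a z hz =>
    (hR n ι (D.c a) G T p (k a) (k a) 0 0 z (D.inj a)).2.2.2.2.2.2.2.2.2.1 (hk a z hz)
  have h3 : D.All fun a z =>
      Res (D.c a) G T p 0 (D.rd F a - (g a + hat (D.c a) G T p (k a))) z := by
    intro a z hz
    have h4 := (hR n ι (D.c a) G T p (k a) (k a) 0 0 z (D.inj a)).2.2.2.2.2.2.2.2.1 fun I hI' =>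
      (hk a z hz I hI').eventually_nhds.mono fun y hy => ((mHOL n _ y).2.2 hy).1
    refine GLUE.res_congr hR (D.inj a) (GLUE.res_sub hR (D.inj a) (h1 a z hz) h4)
      (Eventually.of_forall fun y _ => ?_) fun I _ => Eventually.of_forall fun y hy => ?_
    · simp only [Pi.sub_apply, Pi.add_apply]
      ring
    · have h5 := ((hM n ι (D.c a)).2.2.2.2.2.2.2.2.2.2.1 I y).2.2.2.2.2 hy
      simp only [k, Pi.sub_apply, if_pos h5, Pi.zero_apply, sub_self]
  refine ⟨fun a => g a + hat (D.c a) G T p (k a), fun a z hz => ?_, fun a b x ha hb => ?_⟩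
  · show PolH (D.c a) G (g a + hat (D.c a) G T p (k a) - g a) z
    rw [add_sub_cancel_left]
    exact (hI n ι (D.c a) G 0 T (p + 1) _ z).2.2.2.2.2.2.1 (h2 a z hz)
  obtain ⟨-, -, -, t⟩ := hT n M ι D
  obtain ⟨t1, -, -, -, -, -, -, -, t2⟩ := t a b x ha hb
  have t3 := (t b a x hb ha).1
  have m := (hD n ι (D.c b) G 0 T (p + 1)).2.2.2.1
  refine (hR n ι (D.c b) G T p 0 0 _ 0 _ (D.inj b)).2.2.2.2.2.2.2.2.2.2.1 ?_ ?_
  · have h4 := m.mul (fun _ => -1) _ _ (Eventually.of_forall fun _ => differentiableAt_const _)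
      (h2 b _ t3)
    refine m.cong _ _ _ (m.add _ _ _ (m.add _ _ _ (hd a b x ha hb)
      ((t2 G T (p + 1) _).2.2.2.1 (h2 a _ t1))) h4) (Eventually.of_forall fun y _ => ?_)
    simp only [Ad.tr, Pi.sub_apply, Pi.add_apply, Pi.mul_apply]
    ring
  · refine GLUE.res_congr hR (D.inj b) (GLUE.res_sub hR (D.inj b) (h3 b _ t3)
      ((t2 G T p _).2.2.2.2 _ (h3 a _ t1))) ?_ fun I _ => Eventually.of_forall fun y _ => ?_
    · have h4 : (D.e a).source ∈ 𝓝 ((D.e b).symm (D.e b x)) := by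
        rw [(D.e b).left_inv hb]
        exact (D.e a).open_source.mem_nhds ha
      filter_upwards [((D.e b).continuousAt_symm ((D.e b).map_source hb)).preimage_mem_nhds h4]
        with y hy _
      simp only [Ad.tr, Ad.rd, Pi.sub_apply, Pi.add_apply, (D.e a).left_inv hy]
      ring
    · simp [Ad.tr]

end Pool.Agent.Lib.EX
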