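import Pool.Agent.Lib.EX.Blue

/-! Project ex41: the correction by holomorphic sections on the deeper strata. -/

open scoped Classical Topology ContDiff ComplexOrder Matrix
open Set Filter

set_option linter.unusedVariables false

noncomputable section

namespace Pool.Agent.Lib.EX

open Pool.Agent.Lib.SV (E)
open Pool.Agent.Lib.HS32
open Pool.Agent.Lib.EXA (Val SmN emb)

namespace GYS

section lin

variable {X : Type} [AddCommGroup X] [Module ℂ X]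

/-- The subspace given by a linear condition. -/
def subm (P : X → Prop) (h0 : P 0) (h : ∀ x x' (t : ℂ), P x → P x' → P (x + t • x')) :
    Submodule ℂ X where
  carrier := {x | P x}
  zero_mem' := h0
  add_mem' := fun {x y} hx hy => by simpa using h x y 1 hx hy
  smul_mem' := fun t x hx => by simpa using h 0 x t h0 hx

theorem form (S : Submodule ℂ X) (f : X → X → ℂ)
    (h : ∀ x x' y (t : ℂ), x ∈ S → x' ∈ S → y ∈ S →
      f (x + t • x') y = f x y + t * f x' y ∧ f y x = star (f x y)) :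
    ∃ a : S →ₗ[ℂ] S →ₗ⋆[ℂ] ℂ, ∀ x y, a x y = f x y := by
  have h0 : ∀ y ∈ S, f 0 y = 0 := fun y hy => by
    have := (h 0 0 y 1 S.zero_mem S.zero_mem hy).1
    simpa using this
  have ha : ∀ x x' y : S, f (x + x' : S) y = f x y + f x' y := fun x x' y => by
    simpa using (h x x' y 1 x.2 x'.2 y.2).1
  have hs : ∀ (t : ℂ) (x y : S), f (t • x : S) y = t * f x y := fun t x y => by
    simpa [h0 y y.2] using (h 0 x y t S.zero_mem x.2 y.2).1
  have hc : ∀ x y : S, f y x = star (f x y) := fun x y => (h x x y 1 x.2 x.2 y.2).2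
  refine ⟨LinearMap.mk₂'ₛₗ (RingHom.id ℂ) (starRingEnd ℂ) (fun x y : S => f x y) ha
    (fun t x y => hs t x y) (fun x y y' => ?_) (fun t x y => ?_), fun _ _ => rfl⟩
  · rw [hc (y + y') x, ha, star_add, ← hc, ← hc]
  · rw [hc (t • y) x, hs, star_mul', ← hc]
    rfl

theorem lmap {Y : Type} [AddCommGroup Y] [Module ℂ Y] (S : Submodule ℂ X) (R : Submodule ℂ Y)
    (f : X → Y) (h : ∀ x x' (t : ℂ), f (x + t • x') = f x + t • f x') (hm : ∀ x ∈ S, f x ∈ R) :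
    ∃ δ : S →ₗ[ℂ] R, ∀ x, (δ x : Y) = f x := by
  have h0 : f 0 = 0 := by simpa using h 0 0 1
  exact ⟨⟨⟨fun x => ⟨f x, hm x x.2⟩, fun x y => Subtype.ext (by simpa using h x y 1)⟩,
    fun t x => Subtype.ext (by simpa [h0] using h 0 x t)⟩, fun _ => rfl⟩

end lin

variable {n : ℕ} {M : Mf n} [M.Cpt] {ι : Type} [Fintype ι] [DecidableEq ι] (D : Ad M ι)

theorem res (hE : St_XT) (hR : St_RES) {G : ι → ℤ} {T : Finset ι} {p : ℕ}
    {σ w : Finset ι → D.A → E n → ℂ} (hσ : D.SecF G T (p + 1) σ) (hw : D.SecF G T p w) :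
    D.All fun d z => Res (D.c d) G T (p + 1) (fun I => σ I d)
      (D.rd (D.ext G T (p + 1) σ - D.ext G T p w) d) z := by
  intro d z hz
  have h1 := hE n M ι D G T (p + 1) σ hσ d z hz
  have h2 := ((hR n ι (D.c d) G T p _ 0 _ 0 z (D.inj d)).1 (hE n M ι D G T p w hw d z hz)).1
  have h3 := (hR n ι (D.c d) G T (p + 1) 0 0 _ 0 z (D.inj d)).2.2.2.1 h2
  have h4 := (hR n ι (D.c d) G T (p + 1) _ 0 _ 0 z (D.inj d)).2.2.2.2.2.1 (fun _ => (-1 : ℂ))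
    (Eventually.of_forall fun _ => contDiffAt_const) h3
  have h5 := (hR n ι (D.c d) G T (p + 1) _ _ _ _ z (D.inj d)).2.2.2.2.1 h1 h4
  refine (hR n ι (D.c d) G T (p + 1) _ _ _ _ z (D.inj d)).2.2.2.2.2.2.1 h5
    (Eventually.of_forall fun y _ => ?_) fun I _ => Eventually.of_forall fun y _ => ?_
  · simp [Ad.rd, sub_eq_add_neg]
  · simp

theorem pol (hE : St_XT) (hR : St_RES) (hI : St_INC) {G : ι → ℤ} {T : Finset ι} {p : ℕ}
    {σ w : Finset ι → D.A → E n → ℂ} (hσ : D.SecF G T (p + 1) σ) (hw : D.SecF G T p w) :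
    D.All fun d z => Pol (D.c d) G (D.rd (D.ext G T (p + 1) σ - D.ext G T p w) d) z :=
  fun d z hz => (hI n ι (D.c d) G 0 T (p + 1 + 1) _ z).2.2.2.2.2.1
    ((hR n ι (D.c d) G T (p + 1) _ 0 _ 0 z (D.inj d)).1 (res D hE hR hσ hw d z hz)).1

end GYS

open GYS in
theorem bGYS (hLA : St_LA) (hFIN : St_FIN) (hDEL : St_DEL) (hIP : St_IP) (hADJ : St_ADJ)
    (hHAT : St_HAT) (hDEC : St_DEC) (hLIN : St_LIN) (hEXT : St_XT) (hRES : St_RES)
    (hINC : St_INC) : St_GYS := by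
  intro n M _ H ι _ _ D κ _ L p V hK hp hV
  obtain ⟨⟨r0, r1⟩, e1, -, ⟨s0, s1⟩, -, d1⟩ := hLIN n M H ι D L.G L.T p
  obtain ⟨-, e2, -, ⟨-, s2⟩, ⟨t0, t1⟩, -⟩ := hLIN n M H ι D L.G L.T (p + 1)
  obtain ⟨⟨v0, v1⟩, v2, -⟩ := hIP n M H ι D κ L p hK.toMet
  obtain ⟨-, -, w2⟩ := hIP n M H ι D κ L (p + 1) hK.toMet
  let R := subm (D.HSec L.G L.T (p + 1)) t0 t1
  let S := subm (L.HarF p) v0 v1
  have : FiniteDimensional ℂ R := hFIN n M ι D L.G L.T (p + 1) R fun _ h => h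
  obtain ⟨a, ha⟩ := form R (L.ipS (p + 1)) fun x x' y t hx hx' hy =>
    ⟨(w2 x x' y t hx hx' hy).1, (w2 x x' y t hx hx' hy).2.1⟩
  obtain ⟨b, hb⟩ := form S (L.ipV H p) fun x x' y t hx hx' hy =>
    ⟨(v2 x x' y t hx hx' hy).1, (v2 x x' y t hx hx' hy).2.1⟩
  obtain ⟨δ, hδ⟩ := lmap S R (D.dl L.T p) d1 fun x hx =>
    hDEL n M ι D L.G L.T p x fun I hI => (hx I hI).toFld
  have ez : ∀ q, D.ext L.G L.T q 0 = 0 := fun q => by
    simpa using (hLIN n M H ι D L.G L.T q).2.1 0 0 1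
  let Γ : Submodule ℂ (R × S) := subm (fun x => ∃ w, D.SecF L.G L.T p w ∧
      D.Rep H L.G L.T p (D.ext L.G L.T (p + 1) x.1.1 - D.ext L.G L.T p w) x.2.1)
    ⟨0, s0, by simpa [ez] using r0⟩ (by
      rintro x x' t ⟨w, hw, h⟩ ⟨w', hw', h'⟩
      refine ⟨w + t • w', s1 _ _ t hw hw', ?_⟩
      have h1 := r1 _ _ _ _ t L.G (pol D hEXT hRES hINC x.1.2.sec hw)
        (pol D hEXT hRES hINC x'.1.2.sec hw') h h'
      have e : D.ext L.G L.T (p + 1) (x + t • x').1.1 - D.ext L.G L.T p (w + t • w') =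
          D.ext L.G L.T (p + 1) x.1.1 - D.ext L.G L.T p w +
            t • (D.ext L.G L.T (p + 1) x'.1.1 - D.ext L.G L.T p w') := by
        change D.ext L.G L.T (p + 1) (x.1.1 + t • x'.1.1) - _ = _
        rw [e1, e2, smul_sub]
        abel
      rw [e]
      exact h1)
  obtain ⟨x, y, ⟨w, hw, hxy⟩, h0⟩ := hLA R S a b δ Γ
    (fun x y => by rw [ha, ha]; exact (w2 x.1 x.1 y.1 1 x.2 x.2 y.2).2.1)
    (fun x y => by rw [hb, hb]; exact (v2 x.1 x.1 y.1 1 x.2 x.2 y.2).2.1)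
    (fun x => by rw [ha]; exact (w2 x.1 x.1 x.1 1 x.2 x.2 x.2).2.2.1)
    (fun x h => Subtype.ext ((w2 x.1 x.1 x.1 1 x.2 x.2 x.2).2.2.2 (ha x x ▸ h)))
    (fun x => by rw [hb]; exact (v2 x.1 x.1 x.1 1 x.2 x.2 x.2).2.2)
    (fun x => by
      obtain ⟨h1, h2⟩ := hHAT n M ι D L.G L.T (p + 1) x.1 x.2
      obtain ⟨w, V', hw, hV', hr⟩ := hDEC n M H ι D κ L p L.G _ hK hp h1 h2
      exact ⟨⟨V', hV'⟩, w, hw, hr⟩)
    (by
      rintro x y ⟨w, hw, h⟩ v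
      rw [ha, hb, hδ]
      exact hADJ n M H ι D κ L p v.1 y.1 _ x.1 hp v.2 (res D hEXT hRES x.2.sec hw) h)
    ⟨V, hV⟩
  refine ⟨x.1, w, y.1, x.2, hw, y.2, ((⟨V, hV⟩ : S) - y).2, hxy, ?_⟩
  have h1 := hδ (⟨V, hV⟩ - y)
  rw [h0] at h1
  exact h1.symm

end Pool.Agent.Lib.EX
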