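import Pool.Agent.Lib.EX.Blue

/-! Project ex41, block HAT: holomorphic sections on the strata give local functions whose
differences have lower weight. -/

open scoped Classical Topology ContDiff
open Set Metric Filter

noncomputable section

namespace Pool.Agent.Lib.EX

open Pool.Agent.Lib.SV (E)
open Pool.Agent.Lib.HS32
open Pool.Agent.Lib.EXA (SmN)

namespace HAT

variable {n : ℕ} {M : Mf n} {ι : Type} {D : Ad M ι}

theorem near {p : D.A → E n → Prop} (h : D.All p) (a : D.A) {z : E n} (hz : z ∈ B2 n) :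
    ∀ᶠ y in 𝓝 z, p a y :=
  Filter.eventually_of_mem (isOpen_ball.mem_nhds hz) fun y hy => h a y hy

theorem tgt (a : D.A) {x : M.X} (hx : x ∈ (D.e a).source) : D.e a x ∈ B2 n :=
  D.tgt a ▸ (D.e a).map_source hx

/-- Near a point of an overlap the points of the chart come from the overlap. -/
theorem ovl {a b : D.A} {x : M.X} (ha : x ∈ (D.e a).source) (hb : x ∈ (D.e b).source) :
    ∀ᶠ y in 𝓝 (D.e b x), (D.e b).symm y ∈ (D.e a).source ∧ (D.e b).symm y ∈ (D.e b).source ∧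
      D.e b ((D.e b).symm y) = y :=
  ((mTR n M).2.1 _ (D.mem a) _ (D.mem b) x ha hb).2.2.2.1.mono fun _ h =>
    ⟨h.2.1, h.2.2.1, h.2.2.2.2.2.1⟩

theorem smN_neg (z : E n) : SmN (fun _ : E n => (-1 : ℂ)) z :=
  Filter.Eventually.of_forall fun _ => contDiffAt_const

theorem holN_neg (z : E n) : HolN (fun _ : E n => (-1 : ℂ)) z :=
  Filter.Eventually.of_forall fun _ => differentiableAt_const _

theorem sub_eq (F F' : E n → ℂ) : F - F' = F + (fun _ => (-1 : ℂ)) * F' := by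
  ext y
  simp [sub_eq_add_neg]

end HAT

open HAT in
theorem bHAT (hT : St_TRF) (hR : St_RES) (hI : St_INC) (hM : St_MOD) : St_HAT := by
  intro n M _ ι _ _ D G T q σ h
  have hol : ∀ I, D.All fun a z => HolN (σ I a) z := fun I a z hz => near (h.hol I) a hz
  have sm : ∀ I ∈ T.powersetCard q, D.All fun a z => SmN (σ I a) z := fun I hI a z hz =>
    near (h.sec I hI).sm a hz
  have w1 : D.All fun a z => WtH (D.c a) G T (q + 1) (hat (D.c a) G T q fun I => σ I a) z :=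
    fun a z hz => (hR n ι (D.c a) G T q (fun I => σ I a) 0 0 0 z (D.inj a)).2.2.2.2.2.2.2.2.2.1
      fun I _ => hol I a z hz
  have r1 : D.All fun a z =>
      Res (D.c a) G T q (fun I => σ I a) (hat (D.c a) G T q fun I => σ I a) z :=
    fun a z hz => (hR n ι (D.c a) G T q (fun I => σ I a) 0 0 0 z (D.inj a)).2.2.2.2.2.2.2.2.1
      fun I hI => sm I hI a z hz
  refine ⟨fun a z hz => (hI n ι (D.c a) G 0 T (q + 1) _ z).2.2.2.2.2.2.1 (w1 a z hz),
    fun a b x ha hb => ?_⟩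
  obtain ⟨-, -, -, w2, r2⟩ := ((hT n M ι D).2.2.2 a b x ha hb).2.2.2.2.2.2.2.2 G T (q + 1)
    (hat (D.c a) G T q fun I => σ I a)
  obtain ⟨-, -, -, -, r3⟩ := ((hT n M ι D).2.2.2 a b x ha hb).2.2.2.2.2.2.2.2 G T q
    (hat (D.c a) G T q fun I => σ I a)
  have m := (hM n ι (D.c b) G 0 T (q + 1)).2.2.2.1
  have R := fun ρ ρ' F F' => hR n ι (D.c b) G T q ρ ρ' F F' (D.e b x) (D.inj b)
  beta_reduce
  rw [sub_eq]
  refine (R 0 0 _ 0).2.2.2.2.2.2.2.2.2.2.1
    (m.add _ _ _ (w2 (w1 a _ (tgt a ha))) (m.mul _ _ _ (holN_neg _) (w1 b _ (tgt b hb)))) ?_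
  have r4 := (R _ _ _ _).2.2.2.2.1 (r3 _ (r1 a _ (tgt a ha)))
    ((R _ 0 _ 0).2.2.2.2.2.1 _ (smN_neg _) (r1 b _ (tgt b hb)))
  refine (R _ 0 _ _).2.2.2.2.2.2.1 r4 (Filter.Eventually.of_forall fun _ _ => rfl)
    fun I hI => ?_
  filter_upwards [ovl ha hb] with y ⟨y1, y2, y3⟩ hy
  have := (h.sec I hI).cmp a b _ y1 y2 (by rwa [y3])
  rw [y3] at this
  simp [Ad.tr, Ad.rd, this]

end Pool.Agent.Lib.EX
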