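import Pool.Agent.Lib.KP.Kit
import Pool.Agent.Lib.EXA.ABlue

/-! Project ex41: the objects. -/

open scoped Classical Topology ContDiff ComplexOrder Matrix
open Set MeasureTheory Complex Metric Filter

set_option linter.unusedVariables false

noncomputable section

namespace Pool.Agent.Lib.EX

open Pool.Agent.Lib.SV (E)
open Pool.Agent.Lib.HS32
open Pool.Agent.Lib.EXA (Val SmN emb)

/-! ### Coordinates -/

section euc

variable {n : ℕ} {ι : Type} [Fintype ι] [DecidableEq ι]

/-- The polydisc of radius two. -/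
abbrev B2 (n : ℕ) : Set (E n) := ball 0 2

/-- The derivative of `φ` along the field `X`. -/
def app (X : E n → E n) (φ : E n → ℂ) (z : E n) : ℂ := ∑ j, X z j * dz j φ z

/-- The divergence of `X` with respect to the density `d`. -/
def dvD (d : E n → ℝ) (X : E n → E n) (z : E n) : ℂ :=
  (∑ j, dz j (fun y => (d y : ℂ) * X y j) z) / d z

variable (c : ι → Option (Fin n))

/-- Different components have different coordinates. -/
def Inj : Prop := ∀ i i' j, c i = some j → c i' = some j → i = i'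

/-- The equation of the component `i`: a coordinate, or `1`. -/
def xi (i : ι) (z : E n) : ℂ := (c i).elim 1 z

/-- A monomial with integer exponents. -/
def xm (G : ι → ℤ) (z : E n) : ℂ := ∏ i, xi c i z ^ G i

/-- A square-free monomial. -/
def xs (J : Finset ι) (z : E n) : ℂ := ∏ i ∈ J, xi c i z

/-- A product of real powers of squared moduli. -/
def xr (r : ι → ℝ) (z : E n) : ℝ := ∏ i, normSq (xi c i z) ^ r i

/-- The point is on no component. -/
def Off (z : E n) : Prop := ∀ i, xi c i z ≠ 0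

/-- The point is on all components in `I`. -/
def Sl (I : Finset ι) (z : E n) : Prop := ∀ i ∈ I, xi c i z = 0

/-- The coordinate `j` is normal to the stratum `I`. -/
def Nm (I : Finset ι) (j : Fin n) : Prop := ∃ i ∈ I, c i = some j

/-- The projection on the stratum `I`. -/
def prj (I : Finset ι) (z : E n) : E n := fun j => if Nm c I j then 0 else z j

/-- The function does not depend on the normal coordinates. -/
def Iv {F : Type} (I : Finset ι) (f : E n → F) : Prop := ∀ z ∈ B2 n, f (prj c I z) = f z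

/-- The coordinates tangent to the stratum `I`. -/
def tg (I : Finset ι) : Finset (Fin n) := Finset.univ.filter fun j => ¬ Nm c I j

/-- The parametrisation of the stratum `I`. -/
def par (I : Finset ι) (y : E (tg c I).card) : E n := emb ((tg c I).orderEmbOfFin rfl) y

/-- The integral over the stratum `I`, times a power of `π`. -/
def SI (I : Finset ι) (Φ : E n → ℂ) : ℂ :=
  if ∀ i ∈ I, c i ≠ none then (Real.pi : ℂ) ^ I.card * ∫ y, Φ (par c I y) else 0

/-- The integral over the stratum converges. -/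
def SIi (I : Finset ι) (Φ : E n → ℂ) : Prop :=
  (∀ i ∈ I, c i ≠ none) → Integrable fun y => Φ (par c I y)

/-- The logarithm of the cut-off function. -/
def lg (v : E n → ℝ) (z : E n) : ℂ := (Real.log (v z * normSq (xs c Finset.univ z)) : ℝ)

/-- The cut-off factor. -/
def cut (v : E n → ℝ) (t : ℝ) (z : E n) : ℂ := ((v z * normSq (xs c Finset.univ z)) ^ t : ℝ)

/-- The density. -/
def den (G : ι → ℤ) (r : ι → ℝ) (T : Finset ι) (b : E n → ℝ) (z : E n) : ℝ :=
  b z * xr c r z * normSq (xm c G z) / normSq (xs c T z)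

/-- The function with prescribed coefficients at depth `q`. -/
def hat (G : ι → ℤ) (T : Finset ι) (q : ℕ) (σ : Finset ι → E n → ℂ) (z : E n) : ℂ :=
  xm c (-G) z * ∑ I ∈ T.powersetCard q, xs c (T \ I) z * σ I z

/-- Smooth, with poles at most `K`. -/
def Pol (K : ι → ℤ) (F : E n → ℂ) (z₀ : E n) : Prop :=
  ∃ s, SmN s z₀ ∧ ∀ᶠ z in 𝓝 z₀, Off c z → F z = xm c (-K) z * s z

/-- Meromorphic, with poles at most `K`. -/
def PolH (K : ι → ℤ) (F : E n → ℂ) (z₀ : E n) : Prop :=
  ∃ s, HolN s z₀ ∧ ∀ᶠ z in 𝓝 z₀, Off c z → F z = xm c (-K) z * s z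

/-- The subsets of `T` with less than `q` elements. -/
def lt (T : Finset ι) (q : ℕ) : Finset (Finset ι) := T.powerset.filter fun J => J.card < q

/-- Smooth, of weight less than `q`. -/
def Wt (G : ι → ℤ) (T : Finset ι) (q : ℕ) (F : E n → ℂ) (z₀ : E n) : Prop :=
  ∃ s : Finset ι → E n → ℂ, (∀ J, SmN (s J) z₀) ∧
    ∀ᶠ z in 𝓝 z₀, Off c z → F z = xm c (-G) z * ∑ J ∈ lt T q, xs c (T \ J) z * s J z

/-- Meromorphic, of weight less than `q`. -/
def WtH (G : ι → ℤ) (T : Finset ι) (q : ℕ) (F : E n → ℂ) (z₀ : E n) : Prop :=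
  ∃ s : Finset ι → E n → ℂ, (∀ J, HolN (s J) z₀) ∧
    ∀ᶠ z in 𝓝 z₀, Off c z → F z = xm c (-G) z * ∑ J ∈ lt T q, xs c (T \ J) z * s J z

/-- Smooth, of weight at most `p`, with residues `ρ`. -/
def Res (G : ι → ℤ) (T : Finset ι) (p : ℕ) (ρ : Finset ι → E n → ℂ) (F : E n → ℂ) (z₀ : E n) :
    Prop :=
  ∃ s : Finset ι → E n → ℂ, (∀ J, SmN (s J) z₀) ∧
    (∀ᶠ z in 𝓝 z₀, Off c z → F z = xm c (-G) z * ∑ J ∈ lt T (p + 1), xs c (T \ J) z * s J z) ∧
    ∀ I ∈ T.powersetCard p, ∀ᶠ z in 𝓝 z₀, Sl c I z → s I z = ρ I z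

/-- The components with a fractional exponent. -/
def fr (r : ι → ℝ) : Finset ι := Finset.univ.filter fun i => r i ≠ 0

/-- The index sets of the class `WQ`. -/
def wq (r : ι → ℝ) (T : Finset ι) (q : ℕ) : Finset (Finset ι) :=
  (fr r)ᶜ.powerset.filter fun J => J.card < q ∨ (J.card = q ∧ (J \ T).Nonempty)

/-- Weight less than `q`, with harmless additional simple poles. -/
def WQ (G : ι → ℤ) (r : ι → ℝ) (T : Finset ι) (q : ℕ) (F : E n → ℂ) (z₀ : E n) : Prop :=
  ∃ s : Finset ι → E n → ℂ, (∀ J, SmN (s J) z₀) ∧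
    ∀ᶠ z in 𝓝 z₀, Off c z →
      F z = xm c (-G) z * xs c T z / xs c (fr r) z * ∑ J ∈ wq r T q, s J z / xs c J z

/-- In the ideal of smooth functions generated by the equations of the components in `I`. -/
def Idl (I : Finset ι) (F : E n → ℂ) (z₀ : E n) : Prop :=
  ∃ t : ι → E n → ℂ, (∀ i, SmN (t i) z₀) ∧ ∀ᶠ z in 𝓝 z₀, Off c z → F z = ∑ i ∈ I, xi c i z * t i z

/-- The exponents `P`, `Q` give no contribution at order `p`. -/
def Harm (r : ι → ℝ) (p : ℕ) (P Q : ι → ℤ) : Prop :=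
  (∀ i, r i = 0 → -1 ≤ Q i) ∧
    ((Finset.univ.filter fun i => r i = 0 ∧ Q i = -1).card < p ∨
      ((Finset.univ.filter fun i => r i = 0 ∧ Q i = -1).card = p ∧
        ∃ i, r i = 0 ∧ Q i = -1 ∧ 0 ≤ P i))

/-- A finite sum of terms without contribution at order `p`. -/
def Nul (r : ι → ℝ) (p : ℕ) (Φ : E n → ℂ) (z₀ : E n) : Prop :=
  ∃ (τ : Type) (_ : Fintype τ) (P Q : τ → ι → ℤ) (s : τ → E n → ℂ), (∀ t, SmN (s t) z₀) ∧
    (∀ t, Harm r p (P t) (Q t)) ∧ ∀ᶠ z in 𝓝 z₀, Off c z →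
      Φ z = (xr c r z : ℝ) * ∑ t, xm c (P t) z * star (xm c (Q t) z) * s t z

/-- The contribution at order `p` is given by the functions `ρ` on the strata. -/
def Main (r : ι → ℝ) (T : Finset ι) (p : ℕ) (ρ : Finset ι → E n → ℂ) (Φ : E n → ℂ) (z₀ : E n) :
    Prop :=
  ∃ s : Finset ι → E n → ℂ, (∀ I, SmN (s I) z₀) ∧
    Nul c r p (fun z => Φ z - (xr c r z : ℝ) *
      ∑ I ∈ T.powersetCard p, s I z / (normSq (xs c I z) : ℝ)) z₀ ∧
    ∀ I ∈ T.powersetCard p, ∀ᶠ z in 𝓝 z₀, Sl c I z → s I z = ρ I z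

/-- The sum of the normal components. -/
def del (V : Finset ι → E n → E n) (J : Finset ι) (z : E n) : ℂ :=
  ∑ l ∈ J, (c l).elim 0 (V (J.erase l) (prj c J z))

end euc

/-! ### Adapted atlases -/

variable {n : ℕ}

/-- A finite atlas of polydiscs adapted to a divisor with normal crossings. -/
structure Ad (M : Mf n) (ι : Type) where
  A : Type
  [fA : Fintype A]
  e : A → M.Ch
  c : A → ι → Option (Fin n)
  χ : A → M.X → ℝ
  u : A → A → ι → M.X → ℂ
  mem : ∀ a, e a ∈ M.C
  tgt : ∀ a, (e a).target = B2 n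
  inj : ∀ a, Inj (c a)
  sm : ∀ a, M.Sm (χ a)
  nn : ∀ a x, 0 ≤ χ a x
  sum : ∀ x, ∑ a, χ a x = 1
  supp : ∀ a x, χ a x ≠ 0 → x ∈ (e a).source ∧ ‖e a x‖ ≤ 1
  uhol : ∀ a b i, ∀ x ∈ (e a).source, x ∈ (e b).source → HolN (u a b i ∘ (e b).symm) (e b x)
  une : ∀ a b i, ∀ x ∈ (e a).source, x ∈ (e b).source → u a b i x ≠ 0
  urel : ∀ a b i, ∀ x ∈ (e a).source, x ∈ (e b).source →
    xi (c a) i (e a x) = u a b i x * xi (c b) i (e b x)
  umul : ∀ a b d i, ∀ x ∈ (e a).source, x ∈ (e b).source → x ∈ (e d).source →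
    u a d i x = u a b i x * u b d i x

attribute [instance] Ad.fA

namespace Ad

variable {M : Mf n} {ι : Type} [Fintype ι] [DecidableEq ι] (D : Ad M ι)

/-- A property holds at all points of all charts. -/
def All (p : D.A → E n → Prop) : Prop := ∀ a, ∀ z ∈ B2 n, p a z

/-- A relation holds on all overlaps. -/
def Ov (p : D.A → D.A → M.X → Prop) : Prop :=
  ∀ a b, ∀ x ∈ (D.e a).source, x ∈ (D.e b).source → p a b x

/-- A function on the manifold read in a chart. -/
def rd {F : Type} (g : M.X → F) (a : D.A) : E n → F := fun z => g ((D.e a).symm z)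

/-- A function of the coordinates of the chart `a` read in the chart `b`. -/
def tr {F : Type} (a b : D.A) (f : E n → F) : E n → F := fun z => f (D.e a ((D.e b).symm z))

/-- The Jacobian matrix. -/
def J (a b : D.A) (x : M.X) : Mat n := M.J (D.e a) (D.e b) x

/-- A monomial in the units. -/
def um (K : ι → ℤ) (a b : D.A) (x : M.X) : ℂ := ∏ i, D.u a b i x ^ K i

/-- The average of local functions. -/
def avg (g : D.A → E n → ℂ) (x : M.X) : ℂ := ∑ a, (D.χ a x : ℂ) * g a (D.e a x)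

/-- The differences of the local functions have the property `P`. -/
def Dif (P : D.A → (E n → ℂ) → E n → Prop) (g : D.A → E n → ℂ) : Prop :=
  D.Ov fun a b x => P b (D.tr a b (g a) - g b) (D.e b x)

/-- A holomorphic cocycle. -/
structure Coc (κ : D.A → D.A → M.X → ℂ) : Prop where
  hol : D.Ov fun a b x => HolN (D.rd (κ a b) b) (D.e b x)
  ne : D.Ov fun a b x => κ a b x ≠ 0
  mul : D.Ov fun a b x => ∀ d, x ∈ (D.e d).source → κ a d x = κ a b x * κ b d x

/-- A global function that vanishes on the divisor. -/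
structure Cut (N : M.X → ℝ) (v : D.A → E n → ℝ) : Prop where
  sm : D.All fun a z => ContDiffAt ℝ ∞ (v a) z
  pos : D.All fun a z => 0 < v a z
  rep : D.All fun a z => D.rd N a z = v a z * normSq (xs (D.c a) Finset.univ z)

/-- A smooth section on the stratum `I`. -/
structure Sec (I : Finset ι) (κ : D.A → D.A → M.X → ℂ) (w : D.A → E n → ℂ) : Prop where
  sm : D.All fun a z => ContDiffAt ℝ ∞ (w a) z
  iv : ∀ a, Iv (D.c a) I (w a)
  cmp : D.Ov fun a b x => Sl (D.c b) I (D.e b x) → w b (D.e b x) = w a (D.e a x) * κ a b x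

/-- Local smooth functions on the stratum `I` with holomorphic differences. -/
structure Pot (I : Finset ι) (κ : D.A → D.A → M.X → ℂ) (g : D.A → E n → ℂ) : Prop where
  sm : D.All fun a z => ContDiffAt ℝ ∞ (g a) z
  iv : ∀ a, Iv (D.c a) I (g a)
  cmp : D.Ov fun a b x => Sl (D.c b) I (D.e b x) →
    HolN (fun z => g b z - (D.tr a b (g a) * D.rd (κ a b) b) (prj (D.c b) I z)) (D.e b x)

/-- A holomorphic twisted vector field on the stratum `I`. -/
structure Fld (I : Finset ι) (κ : D.A → D.A → M.X → ℂ) (V : D.A → E n → E n) : Prop where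
  hol : D.All fun a z => DifferentiableAt ℂ (V a) z
  iv : ∀ a, Iv (D.c a) I (V a)
  nm : D.All fun a z => ∀ j, Nm (D.c a) I j → V a z j = 0
  cmp : D.Ov fun a b x => Sl (D.c b) I (D.e b x) →
    D.J a b x *ᵥ V b (D.e b x) = κ a b x • V a (D.e a x)

/-- A singular weight on the stratum `I` with semi-positive smooth part. -/
structure Wgt (I : Finset ι) (κ : D.A → D.A → M.X → ℂ) (r : ι → ℝ) (b : D.A → E n → ℝ) :
    Prop where
  r0 : ∀ i, -1 < r i ∧ r i ≤ 0
  rI : ∀ i ∈ I, r i = 0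
  sm : D.All fun a z => ContDiffAt ℝ ∞ (b a) z
  pos : D.All fun a z => 0 < b a z
  cmp : D.Ov fun a d x => Sl (D.c d) I (D.e d x) →
    b d (D.e d x) * normSq (κ a d x) * ∏ i ∈ I, normSq (D.u a d i x) =
      b a (D.e a x) * (∏ i, normSq (D.u a d i x) ^ r i) * normSq (D.J a d x).det
  cur : D.All fun a z => Sl (D.c a) I z →
    (-hess (fun y => (Real.log (b a (prj (D.c a) I y)) : ℂ)) z).PosSemidef

/-- The harmonic lemma on the stratum `I`. -/
def HL (H : M.Fam (Mat n)) (I : Finset ι) : Prop :=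
  ∀ (κ : D.A → D.A → M.X → ℂ) (r : ι → ℝ) (b : D.A → E n → ℝ) (g : D.A → E n → ℂ), D.Coc κ →
    D.Wgt I κ r b → D.Pot I κ g → ∃ (w : D.A → E n → ℂ) (V : D.A → E n → E n), D.Sec I κ w ∧
      D.Fld I κ V ∧ D.All fun a z => Sl (D.c a) I z →
        (∀ j, ¬ Nm (D.c a) I j → dzb j (g a - w a) z = (H (D.e a) z *ᵥ V a z) j) ∧
        hess (fun y => (Real.log (b a (prj (D.c a) I y)) : ℂ)) z *ᵥ V a z = 0 ∧
        ((∀ i ∉ I, xi (D.c a) i z ≠ 0) →
          dvD (fun y => b a (prj (D.c a) I y) * xr (D.c a) r y) (V a) z = 0)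

/-- The cocycle of the residues on the stratum `I`. -/
def kap (G : ι → ℤ) (T I : Finset ι) : D.A → D.A → M.X → ℂ :=
  D.um fun i => -G i + if i ∈ T \ I then 1 else 0

/-- The extension of functions on the strata of depth `q`. -/
def ext (G : ι → ℤ) (T : Finset ι) (q : ℕ) (σ : Finset ι → D.A → E n → ℂ) : M.X → ℂ :=
  D.avg fun a => hat (D.c a) G T q fun I => σ I a

/-- A family of smooth sections on the strata of depth `q`. -/
def SecF (G : ι → ℤ) (T : Finset ι) (q : ℕ) (σ : Finset ι → D.A → E n → ℂ) : Prop :=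
  ∀ I ∈ T.powersetCard q, D.Sec I (D.kap G T I) (σ I)

/-- A normalised family of holomorphic sections on the strata of depth `q`. -/
structure HSec (G : ι → ℤ) (T : Finset ι) (q : ℕ) (σ : Finset ι → D.A → E n → ℂ) : Prop where
  sec : D.SecF G T q σ
  hol : ∀ I, D.All fun a z => DifferentiableAt ℂ (σ I a) z
  z1 : ∀ I ∉ T.powersetCard q, σ I = 0
  z2 : ∀ I a, ∀ z ∉ B2 n, σ I a z = 0
  z3 : ∀ I a, ∀ i ∈ I, D.c a i = none → σ I a = 0

/-- The residues of the `(0,1)` derivative of `F` are dual to the fields `V`. -/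
def Rep (H : M.Fam (Mat n)) (G : ι → ℤ) (T : Finset ι) (p : ℕ) (F : M.X → ℂ)
    (V : Finset ι → D.A → E n → E n) : Prop :=
  D.All fun a z => ∀ j, ∃ ρ, Res (D.c a) G T p ρ (dzb j (D.rd F a)) z ∧
    ∀ I ∈ T.powersetCard p, ¬ Nm (D.c a) I j →
      ∀ᶠ y in 𝓝 z, Sl (D.c a) I y → ρ I y = (H (D.e a) y *ᵥ V I a y) j

/-- The normalised sum of the normal components. -/
def dl (T : Finset ι) (p : ℕ) (V : Finset ι → D.A → E n → E n) : Finset ι → D.A → E n → ℂ :=
  fun J a z => if J ∈ T.powersetCard (p + 1) ∧ z ∈ B2 n ∧ ∀ i ∈ J, D.c a i ≠ none then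
    del (D.c a) (fun I => V I a) J z else 0

/-- The sum of the integrals over the strata of depth `q`. -/
def SS (r : ι → ℝ) (T : Finset ι) (q : ℕ) (ρ : Finset ι → D.A → E n → ℂ) : ℂ :=
  ∑ a, ∑ I ∈ T.powersetCard q, SI (D.c a) I
    ((B2 n).indicator fun z => (D.rd (D.χ a) a z * xr (D.c a) r z : ℝ) * ρ I a z)

end Ad

/-! ### The data of one level -/

/-- The indicator of the support. -/
def sp {ι : Type} (a : ι → ℕ) : ι → ℤ := fun i => if a i = 0 then 0 else 1

/-- The data of one level. -/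
structure Lv {M : Mf n} {ι : Type} [Fintype ι] [DecidableEq ι] (D : Ad M ι) (κ : Type) where
  a : ι → ℕ
  k : ι → ℤ
  m : ℕ
  w : D.A → E n → ℂ
  G : ι → ℤ
  r : ι → ℝ
  T : Finset ι
  s : ℝ
  U : κ → D.A → E n → ℂ
  k0 : κ
  m0 : 0 < m
  s0 : 0 ≤ s
  s1 : s < 1
  r0 : ∀ i, -1 < r i ∧ r i ≤ 0
  rT : ∀ i ∈ T, r i = 0 ∧ a i ≠ 0
  rZ : ∀ i ∉ T, r i = 0 → a i = 0 ∧ 0 ≤ G i
  rel : ∀ i, s * a i + k i / m = r i + G i - if i ∈ T then 1 else 0
  whol : D.All fun b z => DifferentiableAt ℂ (w b) z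
  wne : D.All fun b z => w b z ≠ 0
  wcmp : D.Ov fun b d x => w d (D.e d x) = w b (D.e b x) * D.um k b d x * (D.J b d x).det ^ m
  Uhol : ∀ l, D.All fun b z => DifferentiableAt ℂ (U l b) z
  one : ∀ b z, U k0 b z = xm (D.c b) (fun i => a i) z
  gen : D.All fun b z => ∃ l, U l b z ≠ 0
  difS : ∀ l, D.Dif (fun b => PolH (D.c b) fun i => a i - sp a i)
    fun b z => xm (D.c b) (-fun i => (a i : ℤ)) z * U l b z
  difG : ∀ l, D.Dif (fun b => PolH (D.c b) G) fun b z => xm (D.c b) (-fun i => (a i : ℤ)) z * U l b z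

namespace Lv

variable {M : Mf n} {ι : Type} [Fintype ι] [DecidableEq ι] {D : Ad M ι} {κ : Type} [Fintype κ]
  (L : Lv D κ)

/-- The local lifts as meromorphic functions. -/
def f (l : κ) (b : D.A) (z : E n) : ℂ := xm (D.c b) (-fun i => (L.a i : ℤ)) z * L.U l b z

/-- The numerators of the smooth lifts. -/
def ut (l : κ) (b : D.A) : E n → ℂ :=
  D.rd (fun x => ∑ d, (D.χ d x : ℂ) * (L.U l d (D.e d x) * D.um (-fun i => (L.a i : ℤ)) d b x)) b

/-- The squared norm of the numerators. -/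
def nn (b : D.A) (z : E n) : ℝ := ∑ l, normSq (L.ut l b z)

/-- The smooth part of the density. -/
def b (d : D.A) (z : E n) : ℝ := L.nn d z ^ (-L.s) * normSq (L.w d z) ^ (1 / L.m : ℝ)

/-- The density. -/
def dd (d : D.A) : E n → ℝ := den (D.c d) L.G L.r L.T (L.b d)

/-- The connection form. -/
def eta (d : D.A) (j : Fin n) (z : E n) : ℂ :=
  (∑ l, dzb j (L.ut l d) z * star (L.ut l d z)) / (L.nn d z : ℝ)

/-- The twisted `(0,1)` derivative. -/
def nab (d : D.A) (j : Fin n) (F : E n → ℂ) (z : E n) : ℂ := dzb j F z - L.s * F z * L.eta d j z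

/-- The projector on the line of the numerators. -/
def cc (l l' : κ) (d : D.A) (z : E n) : ℂ := L.ut l d z * star (L.ut l' d z) / (L.nn d z : ℝ)

/-- A harmonic field on the stratum `I`. -/
structure Har (I : Finset ι) (V : D.A → E n → E n) : Prop extends D.Fld I (D.kap L.G L.T I) V where
  th : D.All fun d z => Sl (D.c d) I z → ∀ l l',
    L.s * (L.U l' d z * app (V d) (L.U l d) z - L.U l d z * app (V d) (L.U l' d) z) = 0
  dv : D.All fun d z => Sl (D.c d) I z → (∀ i ∉ I, xi (D.c d) i z ≠ 0) →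
    dv (V d) z + app (V d) (L.w d) z / (L.m * L.w d z) -
      L.s * (∑ l, app (V d) (L.U l d) z * star (L.U l d z)) / (∑ l, normSq (L.U l d z) : ℝ) +
      ∑ i, L.r i * (D.c d i).elim 0 (V d z) / xi (D.c d) i z = 0

/-- A family of harmonic fields on the strata of depth `p`. -/
def HarF (p : ℕ) (V : Finset ι → D.A → E n → E n) : Prop := ∀ I ∈ L.T.powersetCard p, L.Har I (V I)

/-- The test field in a chart. -/
def vh (p : ℕ) (V : Finset ι → D.A → E n → E n) (d : D.A) (z : E n) : E n :=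
  fun j => hat (D.c d) L.G L.T p (fun I y => V I d y j) z

/-- The scalar product of two families of fields. -/
def ipV (H : M.Fam (Mat n)) (p : ℕ) (V' V : Finset ι → D.A → E n → E n) : ℂ :=
  D.SS L.r L.T p fun I d z => (L.b d z : ℝ) * (star (V I d z) ⬝ᵥ H (D.e d) z *ᵥ V' I d z)

/-- The scalar product of two families of sections. -/
def ipS (q : ℕ) (σ' σ : Finset ι → D.A → E n → ℂ) : ℂ :=
  D.SS L.r L.T q fun I d z => (L.b d z : ℝ) * (σ' I d z * star (σ I d z))

/-- Corrected lifts whose differences have weight less than `q`. -/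
structure Cor (q : ℕ) (g : κ → D.A → E n → ℂ) : Prop where
  cor : ∀ l, D.All fun d z => PolH (D.c d) L.G (g l d - L.f l d) z
  dif : ∀ l, D.Dif (fun d => WtH (D.c d) L.G L.T q) (g l)

end Lv

end Pool.Agent.Lib.EX
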