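import Pool.Agent.Lib.EX.K19c
import Pool.Agent.Lib.EX.Defs
import Pool.Agent.Lib.EXA.B_MINT

/-! Coordinates on a stratum. -/

open scoped Classical Topology ContDiff ComplexOrder Matrix ENNReal
open Set Complex Metric Filter Function MeasureTheory

set_option linter.unusedVariables false
set_option linter.unusedSectionVars false

noncomputable section

namespace Pool.Agent.Lib.EX.K19

open Pool.Agent.Lib.SV (E)
open Pool.Agent.Lib.HS32
open Pool.Agent.Lib.HS68 (wdv)

variable {n m : ℕ}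

section dn

variable {t : Fin m → Fin n}

theorem dn_single_in (h : Injective t) (k : Fin m) (c : ℂ) :
    dn t (Pi.single (t k) c) = Pi.single k c := by rw [← up_single h, dn_up h]

theorem dn_single_out {i : Fin n} (hi : i ∉ range t) (c : ℂ) : dn t (Pi.single i c) = 0 :=
  funext fun j => by
    show (Pi.single i c : E n) (t j) = 0
    rw [Pi.single_apply, if_neg fun e => hi ⟨j, e⟩]

theorem fderiv_dn {F : Type} [NormedAddCommGroup F] [NormedSpace ℝ F] {f : E m → F} {w : E n}
    (hf : DifferentiableAt ℝ f (dn t w)) (v : E n) :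
    fderiv ℝ (f ∘ dn t) w v = fderiv ℝ f (dn t w) (dn t v) := by
  rw [(hf.hasFDerivAt.comp w ((dn_fd t w).restrictScalars ℝ)).fderiv]; rfl

variable {f : E m → ℂ} {w : E n}

theorem dz_dn (h : Injective t) (hf : DifferentiableAt ℝ f (dn t w)) (k : Fin m) :
    dz (t k) (f ∘ dn t) w = dz k f (dn t w) := by simp only [dz, fderiv_dn hf, dn_single_in h]

theorem dzb_dn (h : Injective t) (hf : DifferentiableAt ℝ f (dn t w)) (k : Fin m) :
    dzb (t k) (f ∘ dn t) w = dzb k f (dn t w) := by simp only [dzb, fderiv_dn hf, dn_single_in h]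

theorem dzb_dn_out (hf : DifferentiableAt ℝ f (dn t w)) {i : Fin n} (hi : i ∉ range t) :
    dzb i (f ∘ dn t) w = 0 := by simp [dzb, fderiv_dn hf, dn_single_out hi]

theorem mulVec_up_apply (h : Injective t) (J : Mat n) (v : E m) (i : Fin n) :
    (J *ᵥ up t v) i = ∑ j, J i (t j) * v j := by
  simp only [Matrix.mulVec, dotProduct]
  rw [sum_range h fun k hk => by rw [up_out _ hk, mul_zero]]
  simp only [up_in h]

theorem hess_dn_ker (h : Injective t) (hf : ContDiffAt ℝ ∞ f (dn t w)) {v : E m}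
    (hv : hess f (dn t w) *ᵥ v = 0) : hess (f ∘ dn t) w *ᵥ up t v = 0 := by
  funext i
  have e : ∀ k, dz (t k) (f ∘ dn t) =ᶠ[𝓝 w] dz k f ∘ dn t := fun k =>
    ((dn_cont t).continuousAt.eventually (cd_ev_diff hf)).mono fun y hy => dz_dn h hy k
  rw [mulVec_up_apply h]
  simp only [hess_apply, dzb_congr (e _)]
  by_cases hi : i ∈ range t
  · obtain ⟨k, rfl⟩ := hi
    simp only [dzb_dn h (cd_diff (cd_dz hf _))]
    exact congrFun hv k
  · simp only [dzb_dn_out (cd_diff (cd_dz hf _)) hi, zero_mul, Finset.sum_const_zero,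
      Pi.zero_apply]

theorem norm_dn (t : Fin m → Fin n) (w : E n) : ‖dn t w‖ ≤ ‖w‖ :=
  (pi_norm_le_iff_of_nonneg (norm_nonneg w)).2 fun j => norm_le_pi_norm w _

theorem up_smul (c : ℂ) (v : E m) : up t (c • v) = c • up t v := by rw [← upL_eq, map_smul]

theorem div_exp {Φ : E m → ℝ} {V : E m → E m} {z : E m} (hΦ : ContDiffAt ℝ ∞ Φ z)
    (hV : ∀ k, DifferentiableAt ℝ (fun w => V w k) z) :
    ∑ k, dz k (fun w => ((Real.exp (-Φ w) : ℝ) : ℂ) * V w k) z =
      (Real.exp (-Φ z) : ℝ) * wdv Φ V z := by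
  rw [wdv, Finset.mul_sum]
  refine Finset.sum_congr rfl fun k _ => ?_
  have h1 : HasDerivAt (fun x : ℝ => Real.exp (-x)) (-Real.exp (-Φ z)) (Φ z) := by
    simpa using ((hasDerivAt_id (Φ z)).neg).exp
  rw [dz_mul (cd_diff (cd_ofReal hΦ.neg.exp)) (hV k), dz_comp_real h1 (cd_diff hΦ)]
  push_cast
  ring

end dn

section str

variable {ι : Type} [Fintype ι] [DecidableEq ι] {c : ι → Option (Fin n)} {I : Finset ι}

/-- All components in `I` meet the chart. -/
def Act (c : ι → Option (Fin n)) (I : Finset ι) : Prop := ∀ i ∈ I, c i ≠ none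

theorem act_of_sl {z : E n} (h : Sl c I z) : Act c I := fun i hi e => by
  have := h i hi
  rw [xi, e] at this
  exact one_ne_zero this

theorem Act.ex (h : Act c I) : ∃ k : I → Fin n, ∀ i : I, c i = some (k i) := by
  choose k hk using fun i : I => Option.ne_none_iff_exists'.1 (h i i.2)
  exact ⟨k, hk⟩

theorem card_tg (hi : Inj c) (h : Act c I) : (tg c I).card = n - I.card := by
  obtain ⟨k, hk⟩ := h.ex
  have e : (Finset.univ.filter fun j => Nm c I j) = Finset.univ.image k := by
    ext j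
    simp only [Finset.mem_filter, Finset.mem_univ, true_and, Finset.mem_image]
    exact ⟨fun ⟨i, h1, h2⟩ => ⟨⟨i, h1⟩, Option.some_injective _ ((hk _).symm.trans h2)⟩,
      fun ⟨i, h1⟩ => ⟨i, i.2, h1 ▸ hk i⟩⟩
  have h1 := Finset.card_filter_add_card_filter_not (s := Finset.univ) fun j => Nm c I j
  have ik : Injective k := fun i i' e' => Subtype.ext (hi _ _ _ (hk i) (e' ▸ hk i'))
  rw [e, Finset.card_image_of_injective _ ik, Finset.card_univ, Finset.card_univ,
    Fintype.card_coe, Fintype.card_fin] at h1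
  rw [tg]
  omega

variable (c I) in
/-- The tangent coordinates. -/
def ta : Fin (n - I.card) → Fin n :=
  if h : (tg c I).card = n - I.card then (tg c I).orderEmbOfFin h else Fin.castLE (Nat.sub_le _ _)

theorem ta_inj : Injective (ta c I) := by
  rw [ta]
  split_ifs with h
  · exact ((tg c I).orderEmbOfFin h).injective
  · exact Fin.castLE_injective _

theorem mem_ta (hi : Inj c) (h : Act c I) (j : Fin n) : j ∈ range (ta c I) ↔ ¬ Nm c I j := by
  rw [ta, dif_pos (card_tg hi h), Finset.range_orderEmbOfFin]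
  simp [tg]

theorem ta_bij (hi : Inj c) (h : Act c I) {k : I → Fin n} (hk : ∀ i : I, c i = some (k i)) :
    Bijective (Sum.elim (ta c I) k) := by
  refine ⟨ta_inj.sumElim (fun i i' e => Subtype.ext (hi _ _ _ (hk i) (e ▸ hk i'))) fun j i e =>
    (mem_ta hi h _).1 ⟨j, rfl⟩ ⟨i, i.2, e ▸ hk i⟩, fun j => ?_⟩
  by_cases hj : Nm c I j
  · obtain ⟨i, h1, h2⟩ := hj
    exact ⟨.inr ⟨i, h1⟩, Option.some_injective _ ((hk _).symm.trans h2)⟩
  · obtain ⟨i, h1⟩ := (mem_ta hi h j).2 hj
    exact ⟨.inl i, h1⟩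

theorem sl_iff (hi : Inj c) (h : Act c I) (z : E n) :
    Sl c I z ↔ ∀ j ∉ range (ta c I), z j = 0 := by
  refine ⟨fun hz j hj => ?_, fun hz i h1 => ?_⟩
  · obtain ⟨i, h1, h2⟩ := not_not.1 (mt (mem_ta hi h j).2 hj)
    have := hz i h1
    rwa [xi, h2] at this
  · obtain ⟨j, hj⟩ := Option.ne_none_iff_exists'.1 (h i h1)
    rw [xi, hj]
    exact hz j fun h2 => (mem_ta hi h j).1 h2 ⟨i, h1, hj⟩

theorem prj_eq (hi : Inj c) (h : Act c I) (z : E n) :
    prj c I z = up (ta c I) (dn (ta c I) z) := by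
  funext j
  by_cases hj : Nm c I j
  · rw [prj, if_pos hj, up_out _ fun h2 => (mem_ta hi h j).1 h2 hj]
  · rw [prj, if_neg hj]
    obtain ⟨k, rfl⟩ := (mem_ta hi h j).2 hj
    rw [up_in ta_inj]; rfl

theorem prj_up (hi : Inj c) (h : Act c I) (y : E (n - I.card)) :
    prj c I (up (ta c I) y) = up (ta c I) y := by rw [prj_eq hi h, dn_up ta_inj]

theorem sl_up (hi : Inj c) (h : Act c I) (y : E (n - I.card)) : Sl c I (up (ta c I) y) :=
  (sl_iff hi h _).2 fun j hj => up_out _ hj

theorem xi_prj (hi : Inj c) {i : ι} (h : i ∉ I) (z : E n) : xi c i (prj c I z) = xi c i z := by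
  rw [xi, xi]
  cases e : c i with
  | none => rfl
  | some j => exact if_neg fun ⟨i', h1, h2⟩ => h (hi _ _ _ h2 e ▸ h1)

theorem xi_diff (c : ι → Option (Fin n)) (i : ι) : Differentiable ℂ (xi c i) := by
  unfold xi
  cases c i with
  | none => exact differentiable_const _
  | some j => exact differentiable_apply j

theorem itg_mon (hi : Inj c) (h : Act c I) {r : ι → ℝ} (hr : ∀ i, -1 < r i) :
    ∫⁻ y in ball 0 2, ∏ i, ‖if i ∈ I then 1 else xi c i (up (ta c I) y)‖ₑ ^ (-2 * -r i) < ⊤ := by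
  have hI := EXA.MINT.int_prod Finset.univ
    (fun j => ∑ i, if c i = some (ta c I j) then 2 * r i else 0) (fun j _ => by
      by_cases e : ∃ i, c i = some (ta c I j)
      · obtain ⟨i, e⟩ := e
        rw [Finset.sum_eq_single i (fun i' _ h' => if_neg fun e' => h' (hi _ _ _ e' e))
          (fun h' => absurd (Finset.mem_univ i) h'), if_pos e]
        linarith [hr i]
      · rw [Finset.sum_eq_zero fun i _ => if_neg fun e' => e ⟨i, e'⟩]
        norm_num) 2 two_pos
  refine lt_of_eq_of_lt (lintegral_congr_ae (ae_restrict_of_ae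
    ((EXA.MINT.ae_off Finset.univ).mono fun y hy => ?_))) hI.lintegral_lt_top
  have p : ∀ j, 0 < ‖y j‖ := fun j => norm_pos_iff.2 (hy j (Finset.mem_univ j))
  beta_reduce
  rw [Finset.prod_congr rfl fun j _ => Real.rpow_sum_of_pos (p j) _ _, Finset.prod_comm, ENNReal.ofReal_prod_of_nonneg fun i _ =>
    Finset.prod_nonneg fun j _ => Real.rpow_nonneg (norm_nonneg _) _]
  refine Finset.prod_congr rfl fun i _ => ?_
  by_cases e : ∃ j, c i = some (ta c I j)
  · obtain ⟨j, e⟩ := e
    have hI : i ∉ I := fun h1 => (mem_ta hi h _).1 ⟨j, rfl⟩ ⟨i, h1, e⟩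
    rw [Finset.prod_eq_single j (fun j' _ h' => by
        rw [if_neg fun e' => h' (ta_inj (Option.some_injective _ (e'.symm.trans e))),
          Real.rpow_zero]) (fun h' => absurd (Finset.mem_univ j) h'), if_pos e, if_neg hI, xi, e,
      Option.elim_some, up_in ta_inj, ← ofReal_norm, ENNReal.ofReal_rpow_of_pos (p j),
      show -2 * -r i = 2 * r i by ring]
  · have : (if i ∈ I then 1 else xi c i (up (ta c I) y)) = 1 := by
      split_ifs with hI
      · rfl
      · rw [xi]
        cases e' : c i with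
        | none => rfl
        | some j =>
          obtain ⟨k, rfl⟩ := (mem_ta hi h j).2 fun ⟨i', h1, h2⟩ => hI (hi _ _ _ h2 e' ▸ h1)
          exact absurd ⟨k, e'⟩ e
    rw [this, Finset.prod_eq_one fun j _ => by
      rw [if_neg fun e' => e ⟨j, e'⟩, Real.rpow_zero]]
    simp

end str

end Pool.Agent.Lib.EX.K19
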