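import Pool.Agent.Lib.EX.Blue
import Pool.Agent.Lib.EX.K19d

/-! Project ex41, row HL: the harmonic lemma on all strata. -/

open scoped Classical Topology ContDiff ComplexOrder Matrix ENNReal
open Set Complex Metric Filter Function MeasureTheory

set_option linter.unusedVariables false
set_option linter.unusedSectionVars false

noncomputable section

namespace Pool.Agent.Lib.EX

open Pool.Agent.Lib.SV (E)
open Pool.Agent.Lib.HS32 K19
open Pool.Agent.Lib.HS68 (wdv)

namespace HL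

variable {n : ℕ} {M : Mf n} {ι : Type} [Fintype ι] [DecidableEq ι] (D : Ad M ι) (I : Finset ι)

/-- The stratum. -/
def St : Set M.X := {x | ∀ a, x ∈ (D.e a).source → Sl (D.c a) I (D.e a x)}

variable {D I}

theorem cov (x : M.X) : ∃ a, x ∈ (D.e a).source := by
  by_contra h
  have := D.sum x
  rw [Finset.sum_eq_zero fun a _ => by_contra fun h0 => h ⟨a, (D.supp a x h0).1⟩] at this
  exact zero_ne_one this

theorem mem_St {a : D.A} {x : M.X} (hx : x ∈ (D.e a).source) :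
    x ∈ St D I ↔ Sl (D.c a) I (D.e a x) :=
  ⟨fun h => h a hx, fun h b hb i hi => by rw [D.urel b a i x hb hx, h i hi, mul_zero]⟩

theorem closed_St : IsClosed (St D I) := by
  refine isOpen_compl_iff.1 (isOpen_iff_mem_nhds.2 fun x hx => ?_)
  obtain ⟨a, ha⟩ := cov (D := D) x
  have h : ¬ Sl (D.c a) I (D.e a x) := fun h => hx ((mem_St ha).2 h)
  simp only [Sl, not_forall] at h
  obtain ⟨i, hi, h⟩ := h
  filter_upwards [(D.e a).open_source.mem_nhds ha, (((xi_diff (D.c a) i).continuous.continuousAt).comp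
    ((D.e a).continuousAt ha)).eventually_ne h] with y h1 h2 h3
  exact h2 (h3 a h1 i hi)

theorem adp_St {a : D.A} (h : Act (D.c a) I) : Adp (St D I) (D.e a) (ta (D.c a) I) :=
  ⟨D.mem a, ta_inj, fun x _ hx => ((D.e a).open_source.eventually_mem hx).mono fun y hy =>
    (mem_St hy).trans (sl_iff (D.inj a) h _)⟩

theorem up_tgt (a : D.A) {y : E (n - I.card)} (hy : y ∈ B2 (n - I.card)) :
    up (ta (D.c a) I) y ∈ (D.e a).target := by
  rw [D.tgt, mem_ball_zero_iff, norm_up ta_inj]; exact mem_ball_zero_iff.1 hy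

theorem up_St {a : D.A} (h : Act (D.c a) I) {y : E (n - I.card)} (hy : y ∈ B2 (n - I.card)) :
    (D.e a).symm (up (ta (D.c a) I) y) ∈ St D I :=
  (mem_St ((D.e a).map_target (up_tgt a hy))).2 (by
    rw [(D.e a).right_inv (up_tgt a hy)]; exact sl_up (D.inj a) h y)

theorem dn_B2 {m : ℕ} (t : Fin m → Fin n) {z : E n} (hz : z ∈ B2 n) : dn t z ∈ B2 m :=
  mem_ball_zero_iff.2 ((norm_dn t z).trans_lt (mem_ball_zero_iff.1 hz))

/-- The properties of the output in one chart. -/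
structure P1 (c : ι → Option (Fin n)) (I : Finset ι) (H : E n → Mat n) (r : ι → ℝ) (b : E n → ℝ)
    (g w : E n → ℂ) (V : E n → E n) : Prop where
  sm : ∀ z ∈ B2 n, ContDiffAt ℝ ∞ w z
  iw : Iv c I w
  hol : ∀ z ∈ B2 n, DifferentiableAt ℂ V z
  iv : Iv c I V
  nm : ∀ z ∈ B2 n, ∀ j, Nm c I j → V z j = 0
  eq : ∀ z ∈ B2 n, Sl c I z → (∀ j, ¬ Nm c I j → dzb j (g - w) z = (H z *ᵥ V z) j) ∧
    hess (fun y => (Real.log (b (prj c I y)) : ℂ)) z *ᵥ V z = 0 ∧
    ((∀ i ∉ I, xi c i z ≠ 0) → dvD (fun y => b (prj c I y) * xr c r y) V z = 0)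

/-- From the coordinates of the stratum to the coordinates of the chart. -/
theorem p1_of {c : ι → Option (Fin n)} (hi : Inj c) (h : Act c I) {H : E n → Mat n} {r : ι → ℝ}
    {b : E n → ℝ} {g : E n → ℂ} {s : E (n - I.card) → ℂ} {v : E (n - I.card) → E (n - I.card)}
    (rI : ∀ i ∈ I, r i = 0) (bs : ∀ z ∈ B2 n, ContDiffAt ℝ ∞ b z ∧ 0 < b z)
    (gs : ∀ z ∈ B2 n, ContDiffAt ℝ ∞ g z)
    (ho : ∀ y ∈ B2 (n - I.card), ContDiffAt ℝ ∞ s y ∧ (∀ j, HolN (fun w => v w j) y) ∧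
      (∀ i, dzb i (fun w => g (up (ta c I) w) - s w) y =
        ((H (up (ta c I) y)).submatrix (ta c I) (ta c I) *ᵥ v y) i) ∧
      hess (fun w => (Real.log (b (up (ta c I) w)) : ℂ)) y *ᵥ v y = 0 ∧
      ((∀ i, (if i ∈ I then 1 else xi c i (up (ta c I) y)) ≠ 0) →
        wdv (fun w => ∑ i, -r i * Real.log (normSq (if i ∈ I then 1 else xi c i (up (ta c I) w))) -
          Real.log (b (up (ta c I) w))) v y = 0)) :
    P1 c I H r b g (s ∘ dn (ta c I)) (up (ta c I) ∘ v ∘ dn (ta c I)) := by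
  have tj : Injective (ta c I) := ta_inj
  have ub : ∀ y ∈ B2 (n - I.card), up (ta c I) y ∈ B2 n := fun y hy => by
    rw [mem_ball_zero_iff, norm_up tj]; exact mem_ball_zero_iff.1 hy
  have dp : ∀ z, dn (ta c I) (prj c I z) = dn (ta c I) z := fun z => by
    rw [prj_eq hi h, dn_up tj]
  refine ⟨fun z hz => cd_dn (ho _ (dn_B2 _ hz)).1, fun z hz => congrArg s (dp z),
    fun z hz => (up_diff _ _).comp z (DifferentiableAt.comp z (differentiableAt_pi.2 fun j =>
      ((ho _ (dn_B2 _ hz)).2.1 j).self_of_nhds) (dn_diff _ z)),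
    fun z hz => congrArg (up _ ∘ v) (dp z),
    fun z hz j hj => up_out _ fun h2 => (mem_ta hi h j).1 h2 hj, fun z hz hs => ?_⟩
  obtain ⟨y, rfl⟩ : ∃ y, z = up (ta c I) y := ⟨_, (up_dn tj ((sl_iff hi h z).1 hs)).symm⟩
  have hy : y ∈ B2 (n - I.card) := dn_up tj y ▸ dn_B2 (ta c I) hz
  obtain ⟨o1, o2, o3, o4, o5⟩ := ho y hy
  have dy := dn_up tj y
  have lb : ContDiffAt ℝ ∞ (fun w => Real.log (b (up (ta c I) w))) y :=
    (cd_up (bs _ hz).1).log (bs _ hz).2.ne'
  refine ⟨fun j hj => ?_, ?_, fun h0 => ?_⟩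
  · obtain ⟨k, rfl⟩ := (mem_ta hi h j).2 hj
    rw [← dzb_up (f := g - s ∘ dn (ta c I)) tj
      (cd_diff ((gs _ hz).sub (cd_dn (dy.symm ▸ o1)))) k]
    simp only [Function.comp_apply, dy]
    rw [mulVec_up_apply tj]
    refine Eq.trans (dzb_congr (Eventually.of_forall fun w => ?_)) (o3 k)
    simp only [Function.comp_apply, Pi.sub_apply, dn_up tj]
  · have := hess_dn_ker (f := fun w => (Real.log (b (up (ta c I) w)) : ℂ)) (w := up (ta c I) y)
      (v := v y) tj (dy.symm ▸ cd_ofReal lb) (dy.symm ▸ o4)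
    simp only [Function.comp_apply, dy, prj_eq hi h]
    exact this
  · have f0 : ∀ i, (if i ∈ I then 1 else xi c i (up (ta c I) y)) ≠ 0 := fun i => by
      split_ifs with hI
      · exact one_ne_zero
      · exact h0 i hI
    have fh : ∀ i, HolN (fun w => if i ∈ I then 1 else xi c i (up (ta c I) w)) y := fun i => by
      split_ifs
      · exact Eventually.of_forall fun w => differentiableAt_const _
      · exact Eventually.of_forall fun w => ((xi_diff c i).comp (up_diff _)) w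
    have hΦ : ContDiffAt ℝ ∞ (fun w => ∑ i, -r i *
        Real.log (normSq (if i ∈ I then 1 else xi c i (up (ta c I) w))) -
          Real.log (b (up (ta c I) w))) y :=
      (ContDiffAt.sum fun i _ => contDiffAt_const.mul
        (((mHOL _ _ _).2.2 (fh i)).2.2.2 (f0 i)).1).sub lb
    have e1 := div_exp hΦ fun k => cd_diff (cd_hol (o2 k))
    rw [o5 f0, mul_zero] at e1
    have e2 : ∀ᶠ w in 𝓝 y, b (up (ta c I) w) * xr c r (up (ta c I) w) = Real.exp (-(∑ i, -r i *
        Real.log (normSq (if i ∈ I then 1 else xi c i (up (ta c I) w))) -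
          Real.log (b (up (ta c I) w)))) := by
      filter_upwards [isOpen_ball.eventually_mem hy, eventually_all.2 fun i =>
        (fh i).self_of_nhds.continuousAt.eventually_ne (f0 i)] with w a1 a2
      rw [neg_sub, sub_eq_add_neg, Real.exp_add, Real.exp_log (bs _ (ub w a1)).2,
        ← Finset.sum_neg_distrib, Real.exp_sum, xr]
      refine congrArg _ (Finset.prod_congr rfl fun i _ => ?_)
      have := a2 i
      split_ifs at this ⊢ with hI
      · simp [rI i hI]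
      · rw [Real.rpow_def_of_pos (normSq_pos.2 this)]
        exact congrArg _ (by ring)
    have e3 : ∀ z, xr c r z = xr c r (up (ta c I) (dn (ta c I) z)) := fun z => by
      rw [← prj_eq hi h]
      refine Finset.prod_congr rfl fun i _ => ?_
      by_cases hI : i ∈ I
      · simp [rI i hI]
      · rw [xi_prj hi hI]
    rw [dvD, sum_range tj fun j hj => by
      simp only [Function.comp_apply, up_out _ hj, mul_zero, dz_const], div_eq_zero_iff]
    refine Or.inl (Eq.trans (Finset.sum_congr rfl fun k _ => ?_) e1)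
    have e4 : (fun w => ((b (up (ta c I) w) * xr c r (up (ta c I) w) : ℝ) : ℂ) * v w k) =ᶠ[𝓝 y] _ :=
      e2.mono fun w hw => congrArg (fun t : ℝ => (t : ℂ) * v w k) hw
    rw [← dz_congr e4, ← dy, ← dz_dn tj (by
      rw [dy]
      exact ((cd_diff (cd_ofReal hΦ.neg.exp)).fun_mul
        (cd_diff (cd_hol (o2 k)))).congr_of_eventuallyEq e4) k, dy]
    refine dz_congr (Eventually.of_forall fun z => ?_)
    simp only [Function.comp_apply, up_in tj, ← e3, prj_eq hi h]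

section comp

variable {W : Set M.X} {Q : D.A → Prop} {H : M.Fam (Mat n)} {κ : D.A → D.A → M.X → ℂ} {r : ι → ℝ}
  {b : D.A → E n → ℝ} {g : D.A → E n → ℂ}

theorem adj (a d : D.A) (ha : Act (D.c a) I) (hd : Act (D.c d) I) {x : M.X}
    (hx : x ∈ (D.e a).source) (hx' : x ∈ (D.e d).source) (hs : Sl (D.c d) I (D.e d x)) :
    normSq (D.J a d x).det = normSq ((D.J a d x).submatrix (ta (D.c a) I) (ta (D.c d) I)).det *
      ∏ i ∈ I, normSq (D.u a d i x) := by
  obtain ⟨k, hk⟩ := ha.ex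
  obtain ⟨k', hk'⟩ := hd.ex
  obtain ⟨t1, -, -, t3, -⟩ := (mTR n M).2.1 _ (D.mem a) _ (D.mem d) x hx hx'
  rw [adjunction (ta_bij (D.inj a) ha hk) (ta_bij (D.inj d) hd hk') (u := fun i => D.u a d i x)
    fun i j => ?_, Finset.prod_coe_sort I fun i => normSq (D.u a d i x)]
  have := jm_row (i := k i) (i' := k' i) t1.self_of_nhds (D.uhol a d i x hx hx').self_of_nhds
    (t3.mono fun w hw => by
      have := D.urel a d i _ hw.2.1 hw.2.2.1
      rwa [xi, xi, hk, hk', hw.2.2.2.2.2.1] at this) (by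
      have := hs i i.2
      rwa [xi, hk'] at this) j
  rwa [Function.comp_apply, (D.e d).left_inv hx'] at this

/-- The lemma on one component. -/
theorem comp [M.Cpt] (hHD : EXH.St_HD) (hH : M.Kae H) (hκ : D.Coc κ) (hb : D.Wgt I κ r b)
    (hg : D.Pot I κ g) (w1 : IsCompact W) (w2 : IsConnected W) (w3 : W ⊆ St D I)
    (q1 : ∀ a, Q a → Act (D.c a) I ∧ Adp W (D.e a) (ta (D.c a) I) ∧
      ∀ y ∈ B2 (n - I.card), (D.e a).symm (up (ta (D.c a) I) y) ∈ W)
    (q2 : ∀ x ∈ W, ∃ a, Q a ∧ x ∈ (D.e a).source) :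
    ∃ (w : D.A → E n → ℂ) (V : D.A → E n → E n),
      (∀ a, Q a → P1 (D.c a) I (H (D.e a)) r (b a) (g a) (w a) (V a)) ∧
      ∀ a d, Q a → Q d → ∀ x ∈ W, x ∈ (D.e a).source → x ∈ (D.e d).source →
        w d (D.e d x) = w a (D.e a x) * κ a d x ∧
          D.J a d x *ᵥ V d (D.e d x) = κ a d x • V a (D.e a x) := by
  obtain ⟨x₁, h₁⟩ := w2.nonempty
  obtain ⟨a₁, ha₁, -⟩ := q2 x₁ h₁
  have hc : ∀ x ∈ W, ∃ e ∈ {e | ∃ a, Q a ∧ D.e a = e}, x ∈ e.source ∧
      ∃ t : Fin (n - I.card) → Fin n, Adp W e t := fun x hx => by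
    obtain ⟨a, ha, hx'⟩ := q2 x hx
    exact ⟨_, ⟨a, ha, rfl⟩, hx', _, (q1 a ha).2.1⟩
  let N := sub ⟨x₁, h₁⟩ _ hc
  have : N.Cpt := cpt w1 w2
  have ex : ∀ d : N.Ch, ∃ a : {a // Q a}, d ∈ N.C →
      d.source ⊆ (sl ⟨x₁, h₁⟩ (q1 a a.2).2.1).source := fun d => by
    by_cases hd : d ∈ N.C
    · obtain ⟨_, ⟨a, ha, rfl⟩, h⟩ := hd.sml
      exact ⟨⟨a, ha⟩, fun _ => h⟩
    · exact ⟨⟨a₁, ha₁⟩, fun h => absurd h hd⟩
  choose ix hix using ex
  let X : Ix N {a // Q a} := ⟨fun a => sl ⟨x₁, h₁⟩ (q1 a a.2).2.1,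
    fun a => sl_mem _ ⟨a, a.2, rfl⟩, ix, fun d hd => hix d hd⟩
  obtain ⟨H', hH', hr⟩ := resKae (x₀ := ⟨x₁, h₁⟩) (hc := hc) hH
  have ud : ∀ a : {a // Q a}, ∀ x ∈ (X.c a).source, up (ta (D.c a) I) (X.c a x) = D.e a x.1 :=
    fun a x hx => (q1 a a.2).2.1.up_dn x.2 hx
  have ev : ∀ a : {a // Q a}, ∀ x ∈ (X.c a).source, ∀ᶠ w in 𝓝 (X.c a x),
      ((X.c a).symm w).1 = (D.e a).symm (up (ta (D.c a) I) w) ∧
        D.e a ((X.c a).symm w).1 = up (ta (D.c a) I) w := fun a x hx =>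
    ((X.c a).open_target.eventually_mem ((X.c a).map_source hx)).mono fun w hw =>
      ⟨sl_symm (q1 a a.2).2.1 hw, by
        rw [← ud a _ ((X.c a).map_target hw), (X.c a).right_inv hw]⟩
  have hol : ∀ (a : {a // Q a}) (F : E n → ℂ) (G : N.X → ℂ), ∀ x ∈ (X.c a).source,
      HolN F (D.e a x.1) → (∀ᶠ w in 𝓝 (X.c a x), G ((X.c a).symm w) = F (up (ta (D.c a) I) w)) →
      HolN (fun w => G ((X.c a).symm w)) (X.c a x) := fun a F G x hx h1 h2 => by
    filter_upwards [holN_up (ι := ta (D.c a) I) (by rw [ud a x hx]; exact h1),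
      h2.eventually_nhds] with w a1 a2
    exact a1.congr_of_eventuallyEq a2
  have tb : ∀ a : D.A, ∀ x ∈ (D.e a).source, D.e a x ∈ B2 n :=
    fun a x hx => D.tgt a ▸ (D.e a).map_source hx
  have sl' : ∀ a : D.A, ∀ x : N.X, x.1 ∈ (D.e a).source → Sl (D.c a) I (D.e a x.1) :=
    fun a x hx => w3 x.2 a hx
  have lb : ∀ a : {a // Q a}, ∀ x ∈ (X.c a).source,
      ContDiffAt ℝ ∞ (fun y => Real.log (b a y)) (up (ta (D.c a) I) (X.c a x)) := fun a x hx => by
    rw [ud a x hx]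
    exact (hb.sm a _ (tb a _ hx)).log (hb.pos a _ (tb a _ hx)).ne'
  have dat : Dat X (fun a d x => κ a d x.1) (fun i => -r i)
      (fun i a x => if i ∈ I then 1 else xi (D.c a) i (D.e a x.1))
      (fun i a d x => if i ∈ I then 1 else (D.u a d i x.1)⁻¹)
      (fun a x => Real.log (b a (D.e a x.1))) := by
    refine ⟨⟨fun a d x hx hx' => hol d _ (fun y => κ a d y.1) x hx' (hκ.hol a d x.1 hx hx')
        ((ev d x hx').mono fun w hw => congrArg (κ a d) hw.1),
        fun a d x hx hx' => hκ.ne a d x.1 hx hx',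
        fun a d e x h1 h2 h3 => hκ.mul a d x.1 h1 h2 e h3⟩, fun i => ⟨fun a d x hx hx' => ?_,
        fun a d x hx hx' => ?_, fun a d e x h1 h2 h3 => ?_⟩,
      fun i => ⟨neg_nonneg.2 (hb.r0 i).2, by linarith [(hb.r0 i).1]⟩, fun i a x hx => ?_,
      fun i a d x hx hx' => ?_, fun a x hx => ?_, fun a d x hx hx' => ?_, fun a x hx => ?_,
      fun x => ?_⟩
    · split_ifs
      · exact Eventually.of_forall fun w => differentiableAt_const _
      · have h1 := D.uhol a d i x.1 hx hx'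
        refine hol d (fun z => ((D.u a d i ∘ (D.e d).symm) z)⁻¹) (fun y => (D.u a d i y.1)⁻¹) x hx'
          ?_ ((ev d x hx').mono fun w hw => congrArg (fun y => (D.u a d i y)⁻¹) hw.1)
        filter_upwards [h1, h1.self_of_nhds.continuousAt.eventually_ne (y := 0) (by
          rw [Function.comp_apply, (D.e d).left_inv hx']; exact D.une a d i x.1 hx hx')]
          with w a1 a2
        exact a1.inv a2
    · split_ifs
      · exact one_ne_zero
      · exact inv_ne_zero (D.une a d i x.1 hx hx')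
    · split_ifs
      · exact (one_mul _).symm
      · rw [D.umul a d e i x.1 h1 h2 h3, mul_inv]
    · split_ifs
      · exact Eventually.of_forall fun w => differentiableAt_const _
      · exact hol a (xi (D.c a) i) (fun y => xi (D.c a) i (D.e a y.1)) x hx
          (Eventually.of_forall (xi_diff _ i)) ((ev a x hx).mono fun w hw => congrArg _ hw.2)
    · split_ifs
      · exact (one_mul _).symm
      · rw [D.urel a d i x.1 hx hx', mul_comm (D.u a d i x.1), mul_inv_cancel_right₀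
          (D.une a d i x.1 hx hx')]
    · exact (cd_up (lb a x hx)).congr_of_eventuallyEq ((ev a x hx).mono fun w hw =>
        congrArg (fun y => Real.log (b a y)) hw.2)
    · have h1 := hb.cmp a d x.1 hx hx' (sl' d x hx')
      have un : ∀ i, 0 < normSq (D.u a d i x.1) := fun i => normSq_pos.2 (D.une a d i x.1 hx hx')
      have hJ : N.J (X.c a) (X.c d) x = (D.J a d x.1).submatrix (ta (D.c a) I) (ta (D.c d) I) :=
        J_sl (q1 a a.2).2.1 (q1 d d.2).2.1 hx hx'
      have j0 := ((mTR _ N).2.1 _ (X.mem a) _ (X.mem d) x hx hx').2.1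
      beta_reduce at h1 j0
      rw [adj (D := D) (x := x.1) a.1 d.1 (q1 a a.2).1 (q1 d d.2).1 hx hx' (sl' d x hx'),
        ← mul_assoc, ← hJ] at h1
      have h2 := congrArg Real.log
        (mul_right_cancel₀ (Finset.prod_pos fun i _ => un i).ne' h1)
      rw [Real.log_mul (hb.pos d _ (tb d _ hx')).ne' (normSq_pos.2 (hκ.ne a d x.1 hx hx')).ne',
        Real.log_mul (mul_pos (hb.pos a _ (tb a _ hx)) (Finset.prod_pos fun i _ =>
          Real.rpow_pos_of_pos (un i) _)).ne' (normSq_pos.2 j0).ne',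
        Real.log_mul (hb.pos a _ (tb a _ hx)).ne' (Finset.prod_pos fun i _ =>
          Real.rpow_pos_of_pos (un i) _).ne',
        Real.log_prod fun i _ => (Real.rpow_pos_of_pos (un i) _).ne'] at h2
      rw [h2, add_right_comm]
      refine congrArg _ (Finset.sum_congr rfl fun i _ => ?_)
      rw [Real.log_rpow (un i)]
      split_ifs with hI
      · simp [hb.rI i hI]
      · rw [map_inv₀, Real.log_inv]; ring
    · have h1 := (hb.cur a _ (tb a _ hx) (sl' a x hx)).submatrix (ta (D.c a) I)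
      have h2 : ContDiffAt ℝ ∞ (fun y => Real.log (b a (prj (D.c a) I y)))
          (up (ta (D.c a) I) (X.c a x)) := by
        simp only [prj_eq (D.inj a) (q1 a a.2).1]
        exact cd_dn (f := (fun y => Real.log (b a y)) ∘ up (ta (D.c a) I))
          (by rw [dn_up ta_inj]; exact cd_up (lb a x hx))
      rw [← ud a x hx, Matrix.submatrix_neg, Pi.neg_apply, Pi.neg_apply,
        ← hess_up ta_inj (cd_ofReal h2)] at h1
      rwa [hess_congr ((ev a x hx).mono fun w hw => ?_)]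
      simp only [Function.comp_apply, hw.2, prj_up (D.inj a) (q1 a a.2).1]
    · obtain ⟨a, ha, hx⟩ := q2 x.1 x.2
      obtain ⟨U, hU, h1, h2⟩ := _root_.mem_nhds_iff.1 (inter_mem (ev ⟨a, ha⟩ x hx)
        (isOpen_ball.mem_nhds (dn_B2 (ta (D.c a) I) (tb a _ hx))))
      refine ⟨⟨a, ha⟩, hx, U, h1.mem_nhds h2, lt_of_eq_of_lt (setLIntegral_congr_fun
        h1.measurableSet fun z hz => ?_) ((lintegral_mono_set fun z hz => (hU hz).2).trans_lt
        (itg_mon (D.inj a) (q1 a ha).1 fun i => (hb.r0 i).1))⟩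
      simp only [(hU hz).1.2]
  obtain ⟨s, V, o⟩ := dat.hd hHD hH' (c := fun a x => g a (D.e a x.1))
    (fun a x hx => (cd_up (f := g a) (by
      rw [ud a x hx]; exact hg.sm a _ (tb a _ hx))).congr_of_eventuallyEq
      ((ev a x hx).mono fun w hw => congrArg (g a) hw.2))
    fun a d x hx hx' => hol d _ (fun y => g d (D.e d y.1) - g a (D.e a y.1) * κ a d y.1) x hx'
      (hg.cmp a d x.1 hx hx' (sl' d x hx')) ((ev d x hx').mono fun w hw => by
        rw [prj_up (D.inj d) (q1 d d.2).1, hw.2, hw.1]; rfl)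
  refine ⟨fun a => if h : Q a then (fun y => s ⟨a, h⟩ ((X.c ⟨a, h⟩).symm y)) ∘ dn (ta (D.c a) I)
      else 0, fun a => if h : Q a then up (ta (D.c a) I) ∘
        (fun y => V ⟨a, h⟩ ((X.c ⟨a, h⟩).symm y)) ∘ dn (ta (D.c a) I) else 0,
    fun a ha => ?_, fun a d ha hd x hW hx hx' => ?_⟩
  · simp only [dif_pos ha]
    refine p1_of (D.inj a) (q1 a ha).1 hb.rI (fun z hz => ⟨hb.sm a z hz, hb.pos a z hz⟩) (hg.sm a)
      fun y hy => ?_
    have ht : y ∈ (X.c ⟨a, ha⟩).target := ⟨up_tgt a hy, (q1 a ha).2.2 y hy⟩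
    obtain ⟨x, hx, rfl⟩ : ∃ x ∈ (X.c ⟨a, ha⟩).source, X.c ⟨a, ha⟩ x = y :=
      ⟨_, (X.c ⟨a, ha⟩).map_target ht, (X.c ⟨a, ha⟩).right_inv ht⟩
    have e := ev ⟨a, ha⟩ x hx
    have li := (X.c ⟨a, ha⟩).left_inv hx
    refine ⟨o.ss _ x hx, o.vh _ x hx, fun i => ?_, ?_, fun h0 => ?_⟩
    · rw [li, ← hr _ ⟨a, ha, rfl⟩ _ (q1 a ha).2.1 _ ht]
      exact Eq.trans (dzb_congr (e.mono fun w hw => by simp only [hw.2])) (o.eq _ x hx i)
    · rw [li]
      exact Eq.trans (congrArg (· *ᵥ _) (hess_congr (e.mono fun w hw => by simp only [hw.2])))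
        (o.ker _ x hx)
    · refine Eq.trans (wdv_congr (e.mono fun w hw => by simp only [hw.2]) EventuallyEq.rfl)
        (o.dv _ x hx fun i => ?_)
      have := h0 i
      rwa [ud ⟨a, ha⟩ x hx] at this
  · have l1 : (X.c ⟨a, ha⟩).symm (dn (ta (D.c a) I) (D.e a x)) = ⟨x, hW⟩ :=
      (X.c ⟨a, ha⟩).left_inv (x := ⟨x, hW⟩) hx
    have l2 : (X.c ⟨d, hd⟩).symm (dn (ta (D.c d) I) (D.e d x)) = ⟨x, hW⟩ :=
      (X.c ⟨d, hd⟩).left_inv (x := ⟨x, hW⟩) hx'
    simp only [dif_pos ha, dif_pos hd, Function.comp_apply, l1, l2]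
    refine ⟨o.sc ⟨a, ha⟩ ⟨d, hd⟩ ⟨x, hW⟩ hx hx', ?_⟩
    have hJ : N.J (X.c ⟨a, ha⟩) (X.c ⟨d, hd⟩) ⟨x, hW⟩ =
        (D.J a d x).submatrix (ta (D.c a) I) (ta (D.c d) I) :=
      J_sl (q1 a ha).2.1 (q1 d hd).2.1 (x := ⟨x, hW⟩) hx hx'
    rw [mulVec_up (J := D.J a d x) ta_inj ta_inj (J_out (q1 a ha).2.1 (q1 d hd).2.1 hW hx hx'),
      ← hJ, o.vc ⟨a, ha⟩ ⟨d, hd⟩ ⟨x, hW⟩ hx hx', up_smul]

end comp

end HL

open HL in
theorem bHL (hHD : EXH.St_HD) : St_HL := by
  intro n M _ H ι _ _ D I hH κ r b g hκ hb hg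
  obtain ⟨K, -, hK⟩ := comps (m := n - I.card) (closed_St (D := D) (I := I)) fun x hx => by
    obtain ⟨a, ha⟩ := cov (D := D) x
    exact ⟨_, ha, _, adp_St (act_of_sl (hx a ha))⟩
  have con : ∀ a, Act (D.c a) I → ∀ y ∈ B2 (n - I.card),
      K ((D.e a).symm (up (ta (D.c a) I) y)) = K ((D.e a).symm (up (ta (D.c a) I) 0)) :=
    fun a ha y hy => by
      refine (convex_ball (0 : E (n - I.card)) 2).isPreconnected.induction₂'
        (fun y y' => K ((D.e a).symm (up (ta (D.c a) I) y)) =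
          K ((D.e a).symm (up (ta (D.c a) I) y'))) (fun y hy => ?_) (fun _ _ _ _ _ _ => Eq.trans) hy
        (mem_ball_self two_pos)
      filter_upwards [nhdsWithin_le_nhds ((((D.e a).continuousAt_symm (up_tgt a hy)).comp
        (up_cont _).continuousAt).eventually (hK _ (up_St ha hy)).2.2.2.2.2),
        self_mem_nhdsWithin] with y' h1 h2
      exact ⟨(h1 (up_St ha h2)).symm, h1 (up_St ha h2)⟩
  have kx : ∀ a, ∀ x ∈ St D I, x ∈ (D.e a).source →
      K ((D.e a).symm (up (ta (D.c a) I) 0)) = K x := fun a x hx ha => by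
    have h := act_of_sl (hx a ha)
    rw [← con a h _ (dn_B2 _ (D.tgt a ▸ (D.e a).map_source ha)), (adp_St h).up_dn hx ha,
      (D.e a).left_inv ha]
  have key : ∀ W ∈ K '' St D I, ∃ (w : D.A → E n → ℂ) (V : D.A → E n → E n),
      (∀ a, Act (D.c a) I ∧ K ((D.e a).symm (up (ta (D.c a) I) 0)) = W →
        P1 (D.c a) I (H (D.e a)) r (b a) (g a) (w a) (V a)) ∧
      ∀ a d, Act (D.c a) I ∧ K ((D.e a).symm (up (ta (D.c a) I) 0)) = W →
        Act (D.c d) I ∧ K ((D.e d).symm (up (ta (D.c d) I) 0)) = W →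
        ∀ x ∈ W, x ∈ (D.e a).source → x ∈ (D.e d).source →
          w d (D.e d x) = w a (D.e a x) * κ a d x ∧
            D.J a d x *ᵥ V d (D.e d x) = κ a d x • V a (D.e a x) := by
    rintro _ ⟨x₁, h₁, rfl⟩
    obtain ⟨-, k2, k3, k4, k5, -⟩ := hK x₁ h₁
    refine comp hHD hH hκ hb hg k3 k4 k2 (fun a ha => ⟨ha.1, (adp_St ha.1).rel k2 fun x hx =>
      (hK x (k2 hx)).2.2.2.2.2.mono fun y hy hy' => ?_, fun y hy => ?_⟩) fun x hx => ?_
    · rw [← k5 x hx, ← hy hy']
      exact (hK y hy').1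
    · rw [← ha.2, ← con a ha.1 y hy]
      exact (hK _ (up_St ha.1 hy)).1
    · obtain ⟨a, ha⟩ := cov (D := D) x
      exact ⟨a, ⟨act_of_sl (k2 hx a ha), (kx a x (k2 hx) ha).trans (k5 x hx)⟩, ha⟩
  choose! w V h1 h2 using key
  have p1 := fun a (ha : Act (D.c a) I) =>
    h1 _ ⟨_, up_St ha (mem_ball_self two_pos), rfl⟩ a ⟨ha, rfl⟩
  have p2 : D.Ov fun a d x => Sl (D.c d) I (D.e d x) → Act (D.c a) I ∧ Act (D.c d) I ∧
      w (K ((D.e d).symm (up (ta (D.c d) I) 0))) d (D.e d x) =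
        w (K ((D.e a).symm (up (ta (D.c a) I) 0))) a (D.e a x) * κ a d x ∧
      D.J a d x *ᵥ V (K ((D.e d).symm (up (ta (D.c d) I) 0))) d (D.e d x) =
        κ a d x • V (K ((D.e a).symm (up (ta (D.c a) I) 0))) a (D.e a x) :=
    fun a d x hx hx' hs => by
      have hT := (mem_St hx').2 hs
      have ha := act_of_sl (hT a hx)
      have hd := act_of_sl hs
      rw [kx a x hT hx, kx d x hT hx']
      exact ⟨ha, hd, h2 _ ⟨x, hT, rfl⟩ a d ⟨ha, kx a x hT hx⟩ ⟨hd, kx d x hT hx'⟩ x (hK x hT).1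
        hx hx'⟩
  refine ⟨fun a => if Act (D.c a) I then w (K ((D.e a).symm (up (ta (D.c a) I) 0))) a else 0,
    fun a => if Act (D.c a) I then V (K ((D.e a).symm (up (ta (D.c a) I) 0))) a else 0,
    ⟨fun a z hz => ?_, fun a => ?_, fun a d x hx hx' hs => ?_⟩,
    ⟨fun a z hz => ?_, fun a => ?_, fun a z hz j hj => ?_, fun a d x hx hx' hs => ?_⟩,
    fun a z hz hs => ?_⟩
  · beta_reduce
    split_ifs with ha
    · exact (p1 a ha).sm z hz
    · exact contDiffAt_const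
  · split_ifs with ha
    · exact (p1 a ha).iw
    · exact fun z hz => rfl
  · obtain ⟨ha, hd, h, -⟩ := p2 a d x hx hx' hs
    simp only [if_pos ha, if_pos hd, h]
  · beta_reduce
    split_ifs with ha
    · exact (p1 a ha).hol z hz
    · exact differentiableAt_const _
  · split_ifs with ha
    · exact (p1 a ha).iv
    · exact fun z hz => rfl
  · split_ifs with ha
    · exact (p1 a ha).nm z hz j hj
    · rfl
  · obtain ⟨ha, hd, -, h⟩ := p2 a d x hx hx' hs
    simp only [if_pos ha, if_pos hd, h]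
  · simp only [if_pos (act_of_sl hs)]
    exact (p1 a (act_of_sl hs)).eq z hz hs

end Pool.Agent.Lib.EX
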