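import Pool.Agent.Lib.EX.Blue

/-! Project ex41: inclusions between the classes of germs. -/

open scoped Classical Topology ContDiff ComplexOrder Matrix
open Set MeasureTheory Complex Metric Filter

set_option linter.unusedVariables false

noncomputable section

namespace Pool.Agent.Lib.EX

open Pool.Agent.Lib.SV (E)
open Pool.Agent.Lib.HS32
open Pool.Agent.Lib.EXA (Val SmN emb)

namespace INC

variable {n : ℕ} {ι : Type} [Fintype ι] [DecidableEq ι] {c : ι → Option (Fin n)}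
  {G K : ι → ℤ} {r : ι → ℝ} {T : Finset ι} {q q' : ℕ} {F F' : E n → ℂ} {z : E n}

omit [Fintype ι] [DecidableEq ι] in
theorem d_xi (i : ι) : Differentiable ℂ (xi c i) := by
  unfold xi
  cases c i with
  | none => exact differentiable_const _
  | some j => exact differentiable_apply j

omit [Fintype ι] [DecidableEq ι] in
theorem d_prod {S : Finset ι} {f : ι → E n → ℂ} (h : ∀ i ∈ S, DifferentiableAt ℂ (f i) z) :
    DifferentiableAt ℂ (fun y => ∏ i ∈ S, f i y) z := by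
  classical
  exact (HasFDerivAt.finsetProd fun i hi => (h i hi).hasFDerivAt).differentiableAt

omit [Fintype ι] [DecidableEq ι] in
theorem d_xs (J : Finset ι) : Differentiable ℂ (xs c J) := fun y =>
  d_prod fun i _ => d_xi i y

omit [DecidableEq ι] in
theorem off_ev (h : Off c z) : ∀ᶠ y in 𝓝 z, Off c y :=
  eventually_all.2 fun i => (d_xi (c := c) i).continuous.continuousAt.eventually_ne (h i)

omit [DecidableEq ι] in
theorem d_xm (h : Off c z) (G : ι → ℤ) : DifferentiableAt ℂ (xm c G) z :=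
  d_prod fun i _ => (d_xi i z).zpow (Or.inl (h i))

omit [DecidableEq ι] in
theorem d_xm' (h : 0 ≤ G) : Differentiable ℂ (xm c G) := fun y =>
  d_prod fun i _ => (d_xi i y).zpow (Or.inr (h i))

omit [DecidableEq ι] in
theorem xm_add (h : Off c z) (G K : ι → ℤ) : xm c (G + K) z = xm c G z * xm c K z := by
  simp only [xm, Pi.add_apply, zpow_add₀ (h _), Finset.prod_mul_distrib]

theorem xm_ind (J : Finset ι) : xm c (fun i => if i ∈ J then 1 else 0) z = xs c J z := by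
  rw [xm, xs, ← Finset.univ_inter J, ← Finset.prod_ite_mem, Finset.univ_inter]
  exact Finset.prod_congr rfl fun i _ => by split_ifs <;> simp

omit [Fintype ι] [DecidableEq ι] in
theorem xs_ne (h : Off c z) (J : Finset ι) : xs c J z ≠ 0 :=
  Finset.prod_ne_zero_iff.2 fun i _ => h i

omit [Fintype ι] in
theorem xs_sd {J : Finset ι} (h : J ⊆ T) : xs c (T \ J) z * xs c J z = xs c T z :=
  Finset.prod_sdiff h

theorem hol_of {f : E n → ℂ} (h : Differentiable ℂ f) : HolN f z := Eventually.of_forall h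

theorem sm_of {f : E n → ℂ} (h : HolN f z) : SmN f z :=
  h.eventually_nhds.mono fun w hw => BHOL.smooth hw

/-- An algebra of germs that contains the holomorphic germs. -/
structure Cl (C : (E n → ℂ) → E n → Prop) : Prop where
  hol : ∀ {f z}, HolN f z → C f z
  mul : ∀ {f g z}, C f z → C g z → C (fun y => f y * g y) z
  sum : ∀ {τ : Type} {S : Finset τ} {f : τ → E n → ℂ} {z}, (∀ t ∈ S, C (f t) z) →
    C (fun y => ∑ t ∈ S, f t y) z
  cong : ∀ {f g z}, C f z → g =ᶠ[𝓝 z] f → C g z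
  ev : ∀ {f z}, C f z → ∀ᶠ y in 𝓝 z, C f y

theorem clS : Cl (n := n) SmN where
  hol := sm_of
  mul hf hg := (hf.and hg).mono fun w h => h.1.mul h.2
  sum h := ((Finset.eventually_all _).2 h).mono fun w hw => ContDiffAt.sum hw
  cong h e := (h.and e.eventuallyEq_nhds).mono fun w hw => hw.1.congr_of_eventuallyEq hw.2
  ev h := h.eventually_nhds

theorem clH : Cl (n := n) HolN where
  hol h := h
  mul hf hg := (hf.and hg).mono fun w h => h.1.fun_mul h.2
  sum h := ((Finset.eventually_all _).2 h).mono fun w hw => DifferentiableAt.fun_sum hw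
  cong h e := (h.and e.eventuallyEq_nhds).mono fun w hw => hw.1.congr_of_eventuallyEq hw.2
  ev h := h.eventually_nhds

variable {C : (E n → ℂ) → E n → Prop}

theorem Cl.ite (hC : Cl C) {p : Prop} [Decidable p] {f : E n → ℂ} (h : p → C f z) :
    C (if p then f else 0) z := by
  split_ifs with hp
  · exact h hp
  · exact hC.hol (hol_of (differentiable_const 0))

/-- The class `Pol` over the algebra `C`. -/
def GP (C : (E n → ℂ) → E n → Prop) (c : ι → Option (Fin n)) (K : ι → ℤ) (F : E n → ℂ)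
    (z : E n) : Prop := ∃ s, C s z ∧ ∀ᶠ y in 𝓝 z, Off c y → F y = xm c (-K) y * s y

/-- The class `Wt` over the algebra `C`. -/
def GW (C : (E n → ℂ) → E n → Prop) (c : ι → Option (Fin n)) (G : ι → ℤ) (T : Finset ι) (q : ℕ)
    (F : E n → ℂ) (z : E n) : Prop := ∃ s : Finset ι → E n → ℂ, (∀ J, C (s J) z) ∧
  ∀ᶠ y in 𝓝 z, Off c y → F y = xm c (-G) y * ∑ J ∈ lt T q, xs c (T \ J) y * s J y

omit [DecidableEq ι] in
theorem gp_mono (hC : Cl C) (h : G ≤ K) : GP C c G F z → GP C c K F z := by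
  rintro ⟨s, hs, e⟩
  refine ⟨fun y => xm c (K - G) y * s y, hC.mul (hC.hol (hol_of (d_xm' (sub_nonneg.2 h)))) hs,
    e.mono fun y hy ho => ?_⟩
  rw [hy ho, ← mul_assoc, ← xm_add ho, show -K + (K - G) = -G by abel]

omit [DecidableEq ι] in
theorem gp_mul (hC : Cl C) : GP C c G F z → GP C c K F' z → GP C c (G + K) (F * F') z := by
  rintro ⟨s, hs, e⟩ ⟨s', hs', e'⟩
  refine ⟨fun y => s y * s' y, hC.mul hs hs', (e.and e').mono fun y hy ho => ?_⟩
  rw [Pi.mul_apply, hy.1 ho, hy.2 ho, neg_add, xm_add ho]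
  ring

theorem sum_ext {τ : Type} [DecidableEq τ] {S S' : Finset τ} (h : S ⊆ S') (a : τ → ℂ → ℂ)
    (ha : ∀ t, a t 0 = 0) (s : τ → E n → ℂ) (y : E n) :
    ∑ t ∈ S, a t (s t y) = ∑ t ∈ S', a t ((if t ∈ S then s t else 0) y) := by
  rw [← Finset.sum_subset h fun t _ ht => by rw [if_neg ht]; exact ha t]
  exact Finset.sum_congr rfl fun t ht => by rw [if_pos ht]

omit [Fintype ι] [DecidableEq ι] in
theorem mem_lt {J : Finset ι} : J ∈ lt T q ↔ J ⊆ T ∧ J.card < q := by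
  simp only [lt, Finset.mem_filter, Finset.mem_powerset]

theorem gw_mono (hC : Cl C) (h : q ≤ q') : GW C c G T q F z → GW C c G T q' F z := by
  rintro ⟨s, hs, e⟩
  refine ⟨fun J => if J ∈ lt T q then s J else 0, fun J => hC.ite fun _ => hs J,
    e.mono fun y hy ho => ?_⟩
  rw [hy ho, sum_ext (S' := lt T q') (fun J hJ => mem_lt.2 ⟨(mem_lt.1 hJ).1,
    (mem_lt.1 hJ).2.trans_le h⟩) (fun J t => xs c (T \ J) y * t) (fun _ => mul_zero _)]

theorem gw_gp (hC : Cl C) : GW C c G T q F z → GP C c G F z := by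
  rintro ⟨s, hs, e⟩
  exact ⟨_, hC.sum fun J _ => hC.mul (hC.hol (hol_of (d_xs _))) (hs J), e⟩

theorem gp_gw (hC : Cl C) : GP C c G F z → GW C c G T (T.card + 1) F z := by
  rintro ⟨s, hs, e⟩
  refine ⟨fun J => if J ∈ ({T} : Finset (Finset ι)) then s else 0, fun J => hC.ite fun _ => hs,
    e.mono fun y hy ho => ?_⟩
  rw [hy ho, ← sum_ext (S := {T}) (Finset.singleton_subset_iff.2
    (mem_lt.2 ⟨subset_rfl, Nat.lt_succ_self _⟩)) (fun J t => xs c (T \ J) y * t)
    (fun _ => mul_zero _) (fun _ => s)]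
  simp [xs]

theorem gw_one : GW C c G T 1 F z ↔ GP C c (fun i => G i - if i ∈ T then 1 else 0) F z := by
  have h1 : lt T 1 = {∅} := by
    ext J
    rw [mem_lt, Finset.mem_singleton, Nat.lt_one_iff, Finset.card_eq_zero]
    exact ⟨fun h => h.2, fun h => ⟨h ▸ Finset.empty_subset _, h⟩⟩
  have h2 : ∀ y, Off c y → xm c (-fun i => G i - if i ∈ T then 1 else 0) y =
      xm c (-G) y * xs c T y := fun y ho => by
    rw [← xm_ind, ← xm_add ho]
    congr 1
    funext i
    simp only [Pi.neg_apply, Pi.add_apply]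
    ring
  simp only [GW, GP, h1, Finset.sum_singleton, Finset.sdiff_empty]
  constructor
  · rintro ⟨s, hs, e⟩
    exact ⟨s ∅, hs ∅, e.mono fun y hy ho => by rw [hy ho, h2 y ho, mul_assoc]⟩
  · rintro ⟨s, hs, e⟩
    exact ⟨fun _ => s, fun _ => hs, e.mono fun y hy ho => by rw [hy ho, h2 y ho, mul_assoc]⟩

theorem gw_zero (hC : Cl C) : GW C c G T 0 F z ↔ ∀ᶠ y in 𝓝 z, Off c y → F y = 0 := by
  have h1 : lt T 0 = ∅ := Finset.filter_eq_empty_iff.2 fun _ _ => Nat.not_lt_zero _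
  simp only [GW, h1, Finset.sum_empty, mul_zero]
  exact ⟨fun ⟨_, _, e⟩ => e, fun e => ⟨0, fun _ => hC.hol (hol_of (differentiable_const 0)), e⟩⟩

omit [DecidableEq ι] in
theorem loc {s : E n → ℂ} (e : ∀ᶠ y in 𝓝 z, Off c y → F y = xm c G y * s y) :
    ∀ᶠ y in 𝓝 z, Off c y → HolN (xm c G) y ∧ F =ᶠ[𝓝 y] fun x => xm c G x * s x :=
  e.eventually_nhds.mono fun y hy ho => ⟨(off_ev ho).mono fun x hx => d_xm hx G,
    (hy.and (off_ev ho)).mono fun x hx => hx.1 hx.2⟩

omit [DecidableEq ι] in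
theorem gp_ev (hC : Cl C) : GP C c G F z → ∀ᶠ y in 𝓝 z, Off c y → C F y := by
  rintro ⟨s, hs, e⟩
  exact ((loc e).and (hC.ev hs)).mono fun y hy ho =>
    hC.cong (hC.mul (hC.hol (hy.1 ho).1) hy.2) (hy.1 ho).2

theorem mem_wq {J : Finset ι} : J ∈ wq r T q ↔
    J ⊆ (fr r)ᶜ ∧ (J.card < q ∨ (J.card = q ∧ (J \ T).Nonempty)) := by
  simp only [wq, Finset.mem_filter, Finset.mem_powerset]

theorem lt_or {k : ℕ} {p : Prop} (h : q ≤ q') (h' : k < q ∨ (k = q ∧ p)) :
    k < q' ∨ (k = q' ∧ p) := by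
  rcases h' with h' | ⟨h', hp⟩
  · exact Or.inl (h'.trans_le h)
  · exact (h' ▸ h).lt_or_eq.imp id fun e => ⟨e, hp⟩

theorem wq_mono (h : q ≤ q') : WQ c G r T q F z → WQ c G r T q' F z := by
  rintro ⟨s, hs, e⟩
  refine ⟨fun J => if J ∈ wq r T q then s J else 0, fun J => clS.ite fun _ => hs J,
    e.mono fun y hy ho => ?_⟩
  rw [hy ho, sum_ext (S' := wq r T q') (fun J hJ => mem_wq.2 ⟨(mem_wq.1 hJ).1,
    lt_or h (mem_wq.1 hJ).2⟩) (fun J t => t / xs c J y) (fun _ => zero_div _)]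

omit [DecidableEq ι] in
theorem nul_mono (h : q ≤ q') : Nul c r q F z → Nul c r q' F z := by
  rintro ⟨τ, i, P, Q, s, hs, hh, e⟩
  exact ⟨τ, i, P, Q, s, hs, fun t => ⟨(hh t).1, lt_or h (hh t).2⟩, e⟩

theorem wq_of (hr : ∀ i ∈ T, r i = 0) {m : E n → ℂ} (hm : SmN m z) (h : Wt c G T q F z)
    (e' : ∀ y, Off c y → F' y = m y * F y / xs c (fr r) y) : WQ c G r T q F' z := by
  obtain ⟨s, hs, e⟩ := h
  refine ⟨fun J => if J ∈ lt T q then fun y => m y * s J y else 0,
    fun J => clS.ite fun _ => clS.mul hm (hs J), e.mono fun y hy ho => ?_⟩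
  rw [e' y ho, hy ho, ← sum_ext (S := lt T q) (fun J hJ => mem_wq.2 ⟨fun i hi => by
    simp [fr, hr i ((mem_lt.1 hJ).1 hi)], Or.inl (mem_lt.1 hJ).2⟩) (fun J t => t / xs c J y)
    (fun _ => zero_div _) fun J y => m y * s J y]
  simp only [Finset.mul_sum, Finset.sum_div]
  refine Finset.sum_congr rfl fun J hJ => ?_
  rw [← xs_sd (c := c) (z := y) (mem_lt.1 hJ).1]
  have := xs_ne ho J
  have := xs_ne ho (fr r)
  field_simp

theorem idl_wt {I : Finset ι} (hI : I ∈ T.powersetCard q) (h : Idl c I F z) :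
    Wt c G T q (fun y => xm c (-G) y * (xs c (T \ I) y * F y)) z := by
  obtain ⟨t, ht, e⟩ := h
  obtain ⟨hT, hq⟩ := Finset.mem_powersetCard.1 hI
  refine ⟨fun J y => ∑ i ∈ I with I.erase i = J, t i y, fun J => clS.sum fun i _ => ht i,
    e.mono fun y hy ho => ?_⟩
  have h1 : ∀ i ∈ I, I.erase i ∈ lt T q := fun i hi =>
    mem_lt.2 ⟨(Finset.erase_subset i I).trans hT, hq ▸ Finset.card_erase_lt_of_mem hi⟩
  simp only [hy ho]
  congr 1
  rw [Finset.mul_sum, ← Finset.sum_fiberwise_of_maps_to h1]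
  refine Finset.sum_congr rfl fun J _ => ?_
  rw [Finset.mul_sum]
  refine Finset.sum_congr rfl fun i hi => ?_
  obtain ⟨hi', rfl⟩ := Finset.mem_filter.1 hi
  rw [Finset.sdiff_erase (hT hi'), xs, xs,
    Finset.prod_insert fun h => (Finset.mem_sdiff.1 h).2 hi']
  ring

omit [Fintype ι] in
theorem idl_of {i : ι} (hi : i ∈ T) (h0 : xi c i z ≠ 0) (h : SmN F z) : Idl c T F z := by
  have h1 : HolN (fun y => (xi c i y)⁻¹) z :=
    ((d_xi (c := c) i).continuous.continuousAt.eventually_ne h0).mono fun y hy =>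
      (d_xi i y).fun_inv hy
  refine ⟨fun k => if k ∈ ({i} : Finset ι) then fun y => (xi c i y)⁻¹ * F y else 0,
    fun k => clS.ite fun _ => clS.mul (sm_of h1) h, Eventually.of_forall fun y ho => ?_⟩
  rw [← sum_ext (S := {i}) (Finset.singleton_subset_iff.2 hi) (fun k t => xi c k y * t)
    (fun _ => mul_zero _) fun _ y => (xi c i y)⁻¹ * F y, Finset.sum_singleton,
    mul_inv_cancel_left₀ (ho i)]

theorem dzb_hm {f s : E n → ℂ} (hf : DifferentiableAt ℂ f z) (hs : ContDiffAt ℝ ∞ s z)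
    (j : Fin n) : dzb j (fun y => f y * s y) z = f z * dzb j s z := by
  rw [dzb_mul (hf.restrictScalars ℝ) (cd_diff hs), BHOL.dzb_zero hf, zero_mul, zero_add]

omit [DecidableEq ι] in
theorem dzb_loc {s : E n → ℂ} (hs : SmN s z) (e : ∀ᶠ y in 𝓝 z, Off c y → F y = xm c G y * s y)
    (j : Fin n) : ∀ᶠ y in 𝓝 z, Off c y → dzb j F y = xm c G y * dzb j s y :=
  ((loc e).and hs).mono fun y hy ho => by
    rw [dzb_congr (hy.1 ho).2, dzb_hm (d_xm ho G) hy.2]

omit [DecidableEq ι] in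
theorem pol_dzb (j : Fin n) : Pol c G F z → Pol c G (dzb j F) z := by
  rintro ⟨s, hs, e⟩
  exact ⟨dzb j s, hs.mono fun y hy => cd_dzb hy j, dzb_loc hs e j⟩

theorem wt_dzb (j : Fin n) : Wt c G T q F z → Wt c G T q (dzb j F) z := by
  rintro ⟨s, hs, e⟩
  have h1 : ∀ J, SmN (fun y => xs c (T \ J) y * s J y) z := fun J =>
    clS.mul (sm_of (hol_of (d_xs _))) (hs J)
  refine ⟨fun J => dzb j (s J), fun J => (hs J).mono fun y hy => cd_dzb hy j, ?_⟩
  filter_upwards [dzb_loc (clS.sum fun J _ => h1 J) e j, eventually_all.2 h1,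
    eventually_all.2 hs] with y h2 h3 h4 ho
  rw [h2 ho, dzb_sum fun J _ => cd_diff (h3 J)]
  simp only [dzb_hm (d_xs _ y) (h4 _)]

end INC

open INC in
theorem bINC : St_INC := by
  intro n ι _ _ c G r T q F z
  refine ⟨fun ⟨s, hs, e⟩ => ⟨s, sm_of hs, e⟩, fun ⟨s, hs, e⟩ => ⟨s, fun J => sm_of (hs J), e⟩,
    fun K h => ⟨gp_mono clS h, gp_mono clH h⟩, fun K F' => ⟨gp_mul clS, gp_mul clH⟩,
    fun q' h => ⟨gw_mono clS h, gw_mono clH h, wq_mono h, nul_mono h⟩, gw_gp clS, gw_gp clH,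
    gp_gw clS, gp_gw clH, gw_one (C := SmN), gw_one (C := HolN), gw_zero clH,
    fun hr h => wq_of hr (sm_of (hol_of (d_xs (c := c) (fr r)))) h fun y ho => ?_,
    fun I hI h => ⟨idl_wt hI h, fun hr => wq_of hr (m := fun _ => 1)
      (sm_of (hol_of (differentiable_const 1))) (idl_wt hI h) fun y ho => by rw [one_mul]⟩,
    fun i => idl_of, gp_ev clS, gp_ev clH, fun j => ⟨pol_dzb j, wt_dzb j, fun h =>
      (gp_ev clH h).mono fun y hy ho => BHOL.dzb_zero (hy ho).self_of_nhds j⟩⟩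
  rw [mul_div_cancel_left₀ _ (xs_ne ho _)]

end Pool.Agent.Lib.EX
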