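import Pool.Agent.Lib.EX.Blue

/-! Project ex41, row IP: harmonic fields form a vector space, and the scalar products. -/

open scoped Classical Topology ContDiff ComplexOrder Matrix
open Set Complex Metric Filter

noncomputable section

namespace Pool.Agent.Lib.EX

open Pool.Agent.Lib.SV (E)
open Pool.Agent.Lib.HS32

namespace IP

variable {n : ℕ} {ι : Type} [Fintype ι] [DecidableEq ι]

lemma app_lin (X X' : E n → E n) (t : ℂ) (φ : E n → ℂ) (z : E n) :
    app (X + t • X') φ z = app X φ z + t * app X' φ z := by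
  simp only [app, Pi.add_apply, Pi.smul_apply, smul_eq_mul, Finset.mul_sum,
    ← Finset.sum_add_distrib]
  exact Finset.sum_congr rfl fun j _ => by ring

lemma dv_lin {X X' : E n → E n} {z : E n} (t : ℂ) (h : DifferentiableAt ℂ X z)
    (h' : DifferentiableAt ℂ X' z) : dv (X + t • X') z = dv X z + t * dv X' z := by
  simp only [dv, Pi.add_apply, Pi.smul_apply, smul_eq_mul, Finset.mul_sum,
    ← Finset.sum_add_distrib]
  refine Finset.sum_congr rfl fun j _ => ?_
  have a := (differentiableAt_pi.1 h j).restrictScalars ℝ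
  have b := (differentiableAt_pi.1 h' j).restrictScalars ℝ
  rw [dz_add a (b.const_mul t), dz_const_mul t b]

lemma elim_lin (o : Option (Fin n)) (v v' : E n) (t : ℂ) :
    o.elim 0 (v + t • v') = o.elim 0 v + t * o.elim 0 v' := by
  cases o <;> simp

omit [Fintype ι] [DecidableEq ι] in
lemma prj_mem (c : ι → Option (Fin n)) (I : Finset ι) {z : E n} (hz : z ∈ B2 n) :
    prj c I z ∈ B2 n := by
  rw [mem_ball_zero_iff] at hz ⊢
  refine lt_of_le_of_lt ((pi_norm_le_iff_of_nonneg (norm_nonneg z)).2 fun j => ?_) hz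
  unfold prj
  split_ifs
  · simp
  · exact norm_le_pi_norm z j

omit [Fintype ι] [DecidableEq ι] in
lemma sl_prj (c : ι → Option (Fin n)) (I : Finset ι) (h : ∀ i ∈ I, c i ≠ none) (z : E n) :
    Sl c I (prj c I z) := by
  intro i hi
  obtain ⟨j, hj⟩ := Option.ne_none_iff_exists'.1 (h i hi)
  have : Nm c I j := ⟨i, hi, hj⟩
  simp [xi, hj, prj, this]

variable {M : Mf n} {D : Ad M ι} {κ : Type} [Fintype κ] {L : Lv D κ}

lemma har_zero (I : Finset ι) : L.Har I 0 where
  hol := fun _ _ _ => differentiableAt_const _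
  iv := fun _ _ _ => rfl
  nm := fun _ _ _ _ _ => rfl
  cmp := fun _ _ _ _ _ _ => by simp
  th := fun _ _ _ _ _ _ => by simp [app]
  dv := fun d z _ _ _ => by
    have : ∀ o : Option (Fin n), o.elim 0 (0 : E n) = 0 := fun o => by cases o <;> rfl
    simp [app, dv, this]

lemma har_lin {I : Finset ι} {V V' : D.A → E n → E n} (t : ℂ) (h : L.Har I V) (h' : L.Har I V') :
    L.Har I (V + t • V') where
  hol := fun a z hz => (h.hol a z hz).add ((h'.hol a z hz).const_smul t)
  iv := fun a z hz => by
    simp only [Pi.add_apply, Pi.smul_apply, h.iv a z hz, h'.iv a z hz]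
  nm := fun a z hz j hj => by
    simp only [Pi.add_apply, Pi.smul_apply, h.nm a z hz j hj, h'.nm a z hz j hj, smul_zero,
      add_zero]
  cmp := fun a b x hx hx' hs => by
    simp only [Pi.add_apply, Pi.smul_apply, Matrix.mulVec_add, Matrix.mulVec_smul,
      h.cmp a b x hx hx' hs, h'.cmp a b x hx hx' hs, smul_add, smul_comm t]
  th := fun d z hz hs l l' => by
    rw [Pi.add_apply, Pi.smul_apply, app_lin, app_lin]
    linear_combination h.th d z hz hs l l' + t * h'.th d z hz hs l l'
  dv := fun d z hz hs ho => by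
    have e1 : ∑ l, app (V d + t • V' d) (L.U l d) z * star (L.U l d z) =
        ∑ l, app (V d) (L.U l d) z * star (L.U l d z) +
          t * ∑ l, app (V' d) (L.U l d) z * star (L.U l d z) := by
      rw [Finset.mul_sum, ← Finset.sum_add_distrib]
      exact Finset.sum_congr rfl fun l _ => by rw [app_lin]; ring
    have e2 : ∑ i, L.r i * (D.c d i).elim 0 ((V d + t • V' d) z) / xi (D.c d) i z =
        ∑ i, L.r i * (D.c d i).elim 0 (V d z) / xi (D.c d) i z +
          t * ∑ i, L.r i * (D.c d i).elim 0 (V' d z) / xi (D.c d) i z := by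
      rw [Finset.mul_sum, ← Finset.sum_add_distrib]
      exact Finset.sum_congr rfl fun i _ => by
        rw [Pi.add_apply, Pi.smul_apply, elim_lin]
        ring
    rw [Pi.add_apply, Pi.smul_apply, dv_lin t (h.hol d z hz) (h'.hol d z hz), app_lin, e1, e2]
    linear_combination h.dv d z hz hs ho + t * h'.dv d z hz hs ho

end IP

theorem bIP (hS : St_SS) (hU : St_UT) (hT : St_TRF) : St_IP := by
  intro n M _ H ι _ _ D κ _ L p hH
  have hS' := hS n M ι D L.r L.T p L.r0 fun i hi => (L.rT i hi).1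
  have hb : ∀ d, ∀ z ∈ B2 n, ContinuousAt (fun z => ((L.b d z : ℝ) : ℂ)) z ∧ 0 < L.b d z :=
    fun d z hz => by
      obtain ⟨-, -, -, a, b, -⟩ := (hU n M ι D κ L).1 d z hz
      exact ⟨(cd_ofReal a).continuousAt, b⟩
  have tg : ∀ d, ∀ z ∈ B2 n, z ∈ (D.e d).target := fun d z hz => by rwa [D.tgt]
  refine ⟨⟨fun I _ => IP.har_zero I, fun V V' t h h' I hI => IP.har_lin t (h I hI) (h' I hI)⟩,
    fun V V' W t h h' hW => ?_, fun σ σ' τ t h h' hτ => ?_⟩
  · have ct : ∀ V W : Finset ι → D.A → E n → E n, L.HarF p V → L.HarF p W →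
        ∀ I ∈ L.T.powersetCard p, D.All fun d z => ContinuousAt (fun z => ((L.b d z : ℝ) : ℂ) *
          (star (W I d z) ⬝ᵥ H (D.e d) z *ᵥ V I d z)) z := by
      intro V W h hW I hI d z hz
      refine (hb d z hz).1.mul ?_
      simp only [dotProduct, Matrix.mulVec, Pi.star_apply]
      refine tendsto_finsetSum _ fun i _ => ContinuousAt.mul
        (continuousAt_pi.1 ((hW I hI).hol d z hz).continuousAt i).star
        (tendsto_finsetSum _ fun j _ => ContinuousAt.mul
          (hH.sm _ (D.mem d) z (tg d z hz) i j).continuousAt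
          (continuousAt_pi.1 ((h I hI).hol d z hz).continuousAt j))
    refine ⟨?_, ?_, ?_⟩
    · unfold Lv.ipV
      rw [← (hS' _ 0).2.2.1 t]
      refine Eq.trans ((hS' _ _).1 fun I _ d z _ _ => ?_) (((hS' _ _).2.2.2 (ct V W h hW)).1
        fun I hI d z hz => (ct V' W h' hW I hI d z hz).const_smul t)
      simp only [Pi.add_apply, Pi.smul_apply, Matrix.mulVec_add, Matrix.mulVec_smul,
        dotProduct_add, dotProduct_smul, smul_eq_mul]
      ring
    · unfold Lv.ipV
      rw [← (hS' _ 0).2.1]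
      refine (hS' _ _).1 fun I _ d z hz _ => ?_
      simp only [Pi.star_apply]
      rw [star_mul', Complex.star_def, conj_ofReal, ← Complex.star_def, ← Matrix.star_dotProduct,
        Matrix.star_mulVec, (hH.herm _ (D.mem d) z (tg d z hz)).eq, ← Matrix.dotProduct_mulVec]
    · exact (((hS' _ 0).2.2.2 (ct V V h h)).2 fun I _ d z hz _ => mul_nonneg
        (by exact_mod_cast (hb d z hz).2.le)
        ((hH.pos _ (D.mem d) z (tg d z hz)).posSemidef.dotProduct_mulVec_nonneg _)).1
  · have ct : ∀ σ τ : Finset ι → D.A → E n → ℂ, D.HSec L.G L.T p σ → D.HSec L.G L.T p τ →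
        ∀ I ∈ L.T.powersetCard p, D.All fun d z => ContinuousAt (fun z => ((L.b d z : ℝ) : ℂ) *
          (σ I d z * star (τ I d z))) z := fun σ τ h hτ I _ d z hz =>
      (hb d z hz).1.mul ((h.hol I d z hz).continuousAt.mul (hτ.hol I d z hz).continuousAt.star)
    have ps := ((hS' _ 0).2.2.2 (ct σ σ h h)).2 fun I _ d z hz _ => mul_nonneg
      (by exact_mod_cast (hb d z hz).2.le) (mul_star_self_nonneg _)
    refine ⟨?_, ?_, ps.1, fun h0 => ?_⟩
    · unfold Lv.ipS
      rw [← (hS' _ 0).2.2.1 t]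
      refine Eq.trans ((hS' _ _).1 fun I _ d z _ _ => ?_) (((hS' _ _).2.2.2 (ct σ τ h hτ)).1
        fun I hI d z hz => (ct σ' τ h' hτ I hI d z hz).const_smul t)
      simp only [Pi.add_apply, Pi.smul_apply, smul_eq_mul]
      ring
    · unfold Lv.ipS
      rw [← (hS' _ 0).2.1]
      refine (hS' _ _).1 fun I _ d z hz _ => ?_
      simp only [Pi.star_apply, star_mul', Complex.star_def, conj_ofReal, conj_conj]
      ring
    · funext I a z
      change σ I a z = 0
      by_cases hI : I ∈ L.T.powersetCard p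
      swap
      · rw [h.z1 I hI]
        rfl
      by_cases hz : z ∈ B2 n
      swap
      · exact h.z2 I a z hz
      by_cases hc : ∀ i ∈ I, D.c a i ≠ none
      swap
      · push Not at hc
        obtain ⟨i, hi, hc⟩ := hc
        rw [h.z3 I a i hi hc]
        rfl
      obtain ⟨-, t2, -, t4⟩ := hT n M ι D
      have hz' := IP.prj_mem (D.c a) I hz
      obtain ⟨x1, x2, -⟩ := t2 a _ hz'
      have hs := IP.sl_prj (D.c a) I hc z
      rw [← (h.sec I hI).iv a z hz, ← x2]
      rw [← x2] at hs
      generalize (D.e a).symm (prj (D.c a) I z) = x at x1 hs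
      obtain ⟨b, -, hb0⟩ := Finset.exists_ne_zero_of_sum_ne_zero
        (show ∑ b, D.χ b x ≠ 0 by rw [D.sum]; exact one_ne_zero)
      have y1 := (D.supp b x hb0).1
      obtain ⟨y2, -, y3, -⟩ := t4 b a x y1 x1
      have y4 := ps.2 h0 I hI b _ y2 ((y3 I).2 hs) (by
        rwa [Ad.rd, (D.e b).left_inv y1])
      have y5 : σ I b (D.e b x) = 0 := by
        have := (mul_eq_zero.1 y4).resolve_left (by exact_mod_cast (hb b _ y2).2.ne')
        exact (mul_eq_zero.1 this).elim id star_eq_zero.1
      rw [(h.sec I hI).cmp b a x y1 x1 hs, y5, zero_mul]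

end Pool.Agent.Lib.EX
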