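import Pool.Agent.Lib.EX.Blue
import Pool.Agent.Lib.EX.K62

/-! Project ex41, block KEY: the harmonic parts vanish. -/

open scoped Classical Topology ContDiff ComplexOrder Matrix
open Set Complex Metric Filter

noncomputable section

namespace Pool.Agent.Lib.EX

open Pool.Agent.Lib.SV (E nsq)
open Pool.Agent.Lib.HS32

namespace KEY

variable {n : ℕ}

theorem ss_sum (hSS : St_SS) {M : Mf n} [M.Cpt] {ι : Type} [Fintype ι] [DecidableEq ι]
    (D : Ad M ι) {r : ι → ℝ} {T : Finset ι} (q : ℕ) (hr : ∀ i, -1 < r i ∧ r i ≤ 0)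
    (hT : ∀ i ∈ T, r i = 0) {κ : Type} (S : Finset κ) (ρ : κ → Finset ι → D.A → E n → ℂ)
    (h : ∀ l, ∀ I ∈ T.powersetCard q, D.All fun a z => ContinuousAt (ρ l I a) z) :
    (∀ I ∈ T.powersetCard q, D.All fun a z => ContinuousAt ((∑ l ∈ S, ρ l) I a) z) ∧
      D.SS r T q (∑ l ∈ S, ρ l) = ∑ l ∈ S, D.SS r T q (ρ l) := by
  induction S using Finset.induction_on with
  | empty =>
    refine ⟨fun I _ a z _ => continuousAt_const, ?_⟩
    have := (hSS n M ι D r T q hr hT 0 0).2.2.1 0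
    simpa using this
  | insert l S hl ih =>
    rw [Finset.sum_insert hl, Finset.sum_insert hl, ← ih.2]
    exact ⟨fun I hI a z hz => (h l I hI a z hz).add (ih.1 I hI a z hz),
      ((hSS n M ι D r T q hr hT _ _).2.2.2 (h l)).1 ih.1⟩

theorem cont_sq {H : E n → Mat n} {v w : E n → E n} {z : E n} (hH : ContinuousAt H z)
    (hv : ContinuousAt v z) (hw : ContinuousAt w z) :
    ContinuousAt (fun y => star (v y) ⬝ᵥ H y *ᵥ w y) z := by
  have h : Continuous fun p : E n × Mat n × E n => star p.1 ⬝ᵥ p.2.1 *ᵥ p.2.2 := by fun_prop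
  exact h.continuousAt.comp (f := fun y => (v y, H y, w y)) (hv.prodMk (hH.prodMk hw))

theorem point {κ : Type} [Fintype κ] {H : Mat n} (hH : H.PosDef) {s b : ℝ} (s0 : 0 ≤ s)
    (s1 : s < 1) (hb : 0 < b) (u : κ → ℂ) (V : κ → E n) {x : ℂ}
    (hx : x = ∑ l, (b : ℂ) * (star (V l) ⬝ᵥ H *ᵥ V l -
      s * ∑ l', u l * star (u l') / (nsq u : ℝ) * (star (V l) ⬝ᵥ H *ᵥ V l'))) :
    0 ≤ x ∧ (x = 0 → ∀ l, V l = 0) := by
  have h1 : x = ((b * (∑ k, nq H (V k) - s * (nq H (∑ k, star (u k) • V k) / nsq u)) : ℝ) : ℂ) := by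
    rw [ofReal_mul, ← K62.pm_sq hH.posSemidef, hx, Finset.mul_sum]
    refine Finset.sum_congr rfl fun l _ => ?_
    simp only [K62.pm, K62.sq, sub_mul, Finset.sum_sub_distrib, ite_mul, one_mul, zero_mul,
      Finset.sum_ite_eq, Finset.mem_univ, if_true, Finset.mul_sum, mul_assoc]
  have h2 := K62.pm_sq_low hH.posSemidef s0 u V
  have h3 : ∀ k, 0 ≤ nq H (V k) := fun k => K62.nq_nn hH.posSemidef _
  have h4 : 0 ≤ ∑ k, nq H (V k) := Finset.sum_nonneg fun k _ => h3 k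
  have h5 := mul_nonneg (sub_pos.2 s1).le h4
  refine ⟨h1 ▸ zero_le_real.2 (mul_nonneg hb.le (h5.trans h2)), fun h0 l => ?_⟩
  rw [h1, ofReal_eq_zero, mul_eq_zero, or_iff_right hb.ne'] at h0
  have h6 : ∑ k, nq H (V k) = 0 := by nlinarith
  have h7 := (Finset.sum_eq_zero_iff_of_nonneg fun k _ => h3 k).1 h6 l (Finset.mem_univ _)
  by_contra h8
  exact (Complex.pos_iff.1 (hH.dotProduct_mulVec_pos h8)).1.ne' h7

end KEY

theorem bKEY (hKEY1 : St_KEY1) (hSS : St_SS) (hUT : St_UT) (hTRF : St_TRF) : St_KEY := by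
  intro n M _ H ι _ _ D κ _ L p V F hH hp hV hd hP hR
  have h1 := hKEY1 n M H ι D κ L p V F hp hV hd hP hR
  have hU := (hUT n M ι D κ L).1
  obtain ⟨tC, tS, -, tO⟩ := hTRF n M ι D
  have hT : ∀ i ∈ L.T, L.r i = 0 := fun i hi => (L.rT i hi).1
  have hm : ∀ a, ∀ z ∈ B2 n, z ∈ (D.e a).target := fun a z hz => (D.tgt a).symm ▸ hz
  obtain ⟨h2, h3⟩ := KEY.ss_sum hSS D p L.r0 hT Finset.univ
    (fun l I d z => (L.b d z : ℝ) * (star (V l I d z) ⬝ᵥ H (D.e d) z *ᵥ V l I d z -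
      L.s * ∑ l', L.cc l l' d z * (star (V l I d z) ⬝ᵥ H (D.e d) z *ᵥ V l' I d z)))
    fun l I hI a z hz => by
      have c1 := (hH.sm _ (D.mem a) z (hm a z hz)).continuousAt
      have c2 : ∀ l, ContinuousAt (V l I a) z := fun l => ((hV l I hI).hol a z hz).continuousAt
      obtain ⟨-, -, -, c3, -, c4, -⟩ := hU a z hz
      exact (cd_ofReal c3).continuousAt.mul ((KEY.cont_sq c1 (c2 l) (c2 l)).sub
        (continuousAt_const.mul (tendsto_finsetSum _ fun l' _ =>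
          (c4 l l').continuousAt.mul (KEY.cont_sq c1 (c2 l) (c2 l')))))
  rw [Finset.sum_eq_zero fun l _ => h1 l] at h3
  have h4 := fun I a z (hz : z ∈ B2 n) => KEY.point (hH.pos _ (D.mem a) z (hm a z hz)) L.s0 L.s1
    (hU a z hz).2.2.2.2.1 (fun l => L.ut l a z) (fun l => V l I a z) rfl
  have h5 := (((hSS n M ι D L.r L.T p L.r0 hT _ 0).2.2.2 h2).2 fun I _ a z hz _ => by
    simp only [Finset.sum_apply]
    exact (h4 I a z hz).1).2 h3
  have h6 : ∀ l, ∀ I ∈ L.T.powersetCard p, ∀ a, ∀ z ∈ B2 n, Sl (D.c a) I z → V l I a z = 0 := by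
    intro l I hI a z hz hs
    obtain ⟨s1, s2, -⟩ := tS a z hz
    obtain ⟨d, -, hd⟩ := Finset.exists_ne_zero_of_sum_ne_zero
      ((D.sum ((D.e a).symm z)).trans_ne one_ne_zero)
    have s3 := (D.supp d _ hd).1
    have s4 := ((tO a d _ s1 s3).2.2.1 I).1 (s2.symm ▸ hs)
    have s5 := (tO d a _ s3 s1).1
    have s6 := h5 I hI d _ s5 s4 (by rwa [Ad.rd, (D.e d).left_inv s3])
    simp only [Finset.sum_apply] at s6
    have s7 := (h4 I d _ s5).2 s6 l
    have s8 := (hV l I hI).cmp a d _ s1 s3 s4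
    rw [s7, Matrix.mulVec_zero, s2, eq_comm, smul_eq_zero] at s8
    exact s8.resolve_left ((tC _).ne a d _ s1 s3)
  intro l a z hz j
  obtain ⟨ρ, r1, r2⟩ := hR l a z hz j
  refine ⟨ρ, r1, fun I hI hj => ?_⟩
  filter_upwards [r2 I hI hj, isOpen_ball.mem_nhds hz] with y e1 e2 hy
  rw [e1 hy, h6 l I hI a y e2 hy]
  rfl

end Pool.Agent.Lib.EX
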