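import Mathlib

/-! Linear algebra of the weight induction: an operator and its adjoint between a space with a
definite form and a space with a semi-definite form. -/

noncomputable section

namespace Pool.Agent.Lib.EX.K67

variable {R H W : Type*} [AddCommGroup R] [Module ℂ R]

/-- A Hermitian form on the subspace `S`, linear in the first variable. -/
structure Herm (S : Submodule ℂ R) (b : R → R → ℂ) : Prop where
  add : ∀ x ∈ S, ∀ y ∈ S, ∀ z ∈ S, b (x + y) z = b x z + b y z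
  smul : ∀ (c : ℂ), ∀ x ∈ S, ∀ z ∈ S, b (c • x) z = c * b x z
  symm : ∀ x ∈ S, ∀ y ∈ S, b x y = star (b y x)

namespace Herm

variable {S : Submodule ℂ R} {b : R → R → ℂ} (h : Herm S b) {x y z : R}
include h

theorem mono {S' : Submodule ℂ R} (hS : S' ≤ S) : Herm S' b :=
  ⟨fun x hx y hy z hz => h.add x (hS hx) y (hS hy) z (hS hz),
    fun c x hx z hz => h.smul c x (hS hx) z (hS hz), fun x hx y hy => h.symm x (hS hx) y (hS hy)⟩

theorem zero (hz : z ∈ S) : b 0 z = 0 := by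
  simpa using h.smul 0 0 S.zero_mem z hz

theorem zero' (hz : z ∈ S) : b z 0 = 0 := by
  rw [h.symm z hz 0 S.zero_mem, h.zero hz, star_zero]

theorem sub (hx : x ∈ S) (hy : y ∈ S) (hz : z ∈ S) : b (x - y) z = b x z - b y z := by
  rw [eq_sub_iff_add_eq, ← h.add _ (S.sub_mem hx hy) y hy z hz, sub_add_cancel]

theorem add' (hx : x ∈ S) (hy : y ∈ S) (hz : z ∈ S) : b z (x + y) = b z x + b z y := by
  rw [h.symm z hz _ (S.add_mem hx hy), h.add x hx y hy z hz, star_add, ← h.symm z hz x hx,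
    ← h.symm z hz y hy]

theorem sub' (hx : x ∈ S) (hy : y ∈ S) (hz : z ∈ S) : b z (x - y) = b z x - b z y := by
  rw [eq_sub_iff_add_eq, ← h.add' (S.sub_mem hx hy) hy hz, sub_add_cancel]

theorem smul' (c : ℂ) (hx : x ∈ S) (hz : z ∈ S) : b z (c • x) = star c * b z x := by
  rw [h.symm z hz _ (S.smul_mem c hx), h.smul c x hx z hz, star_mul', ← h.symm z hz x hx]

/-- Null vectors of a semi-definite form are orthogonal to everything. -/
theorem null (hp : ∀ x ∈ S, 0 ≤ (b x x).re) (hx : x ∈ S) (hy : y ∈ S) (h0 : b x x = 0) :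
    b x y = 0 := by
  by_contra hn
  have h1 : 0 < Complex.normSq (b x y) := Complex.normSq_pos.2 hn
  set t : ℝ := ((b y y).re + 1) / Complex.normSq (b x y) with ht
  have hc := S.smul_mem ((t : ℂ) * star (b x y)) hx
  have h2 := hp _ (S.sub_mem hy hc)
  rw [h.sub hy hc (S.sub_mem hy hc), h.sub' hy hc hy, h.sub' hy hc hc, h.smul' _ hx hy,
    h.smul' _ hx hc, h.smul _ x hx y hy, h.smul _ x hx x hx, h0, h.symm y hy x hx] at h2
  have h3 : t * Complex.normSq (b x y) = (b y y).re + 1 := div_mul_cancel₀ _ h1.ne'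
  have h4 := hp y hy
  rw [Complex.normSq_apply] at h3
  simp only [Complex.sub_re, Complex.mul_re, Complex.mul_im, star_mul', Complex.star_def,
    Complex.conj_re, Complex.conj_im, Complex.ofReal_re, Complex.ofReal_im, Complex.zero_re,
    Complex.zero_im, Complex.conj_conj, Complex.conj_ofReal] at h2
  nlinarith

end Herm

/-- The definite, finite-dimensional case. -/
theorem la0 [FiniteDimensional ℂ R] {b : R → R → ℂ} (hb : Herm ⊤ b)
    (hd : ∀ x, b x x = 0 → x = 0) (B : H → H → ℂ) (hs : ∀ V U, B V U = star (B U V))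
    (hn : ∀ V U, B V V = 0 → B V U = 0) (δ : H → R) (G : R → H) {c : ℂ} (hc : c ≠ 0)
    (adj : ∀ ρ V, B (G ρ) V = c * b ρ (δ V)) (V : H) : ∃ ρ, δ (G ρ) = δ V := by
  have m := @Submodule.mem_top ℂ R _ _ _
  have k : ∀ σ ρ, c * b σ (δ (G ρ)) = star (c * b ρ (δ (G σ))) := fun σ ρ => by
    rw [← adj, ← adj, ← hs]
  have e : ∀ x y, (∀ σ, c * b σ x = c * b σ y) → x = y := fun x y h => by
    refine sub_eq_zero.1 (hd _ ?_)
    rw [hb.sub' m m m, mul_left_cancel₀ hc (h _), sub_self]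
  let T : R →ₗ[ℂ] R :=
    { toFun := fun ρ => δ (G ρ)
      map_add' := fun x y => e _ _ fun σ => by
        rw [hb.add' m m m, mul_add, k, k σ x, k σ y, hb.add _ m _ m _ m, mul_add, star_add]
      map_smul' := fun a x => e _ _ fun σ => by
        rw [RingHom.id_apply, hb.smul' _ m m, mul_left_comm, k, k σ x, hb.smul _ _ m _ m,
          mul_left_comm, star_mul'] }
  have o : ∀ σ ρ, T σ = 0 → b σ (T ρ) = 0 := fun σ ρ h => by
    have h1 : δ (G σ) = 0 := h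
    have h2 := k σ ρ
    rw [h1, hb.zero' m, mul_zero, star_zero] at h2
    exact (mul_eq_zero.1 h2).resolve_left hc
  have d : Disjoint (LinearMap.range T) (LinearMap.ker T) := by
    rw [Submodule.disjoint_def]
    rintro _ ⟨ρ, rfl⟩ h
    exact hd _ (o _ ρ h)
  have t := Submodule.eq_top_of_disjoint _ _ (LinearMap.finrank_range_add_finrank_ker T).ge d
  obtain ⟨_, ⟨ρ, rfl⟩, σ, hσ, h⟩ := Submodule.mem_sup.1 (t.ge (m (x := δ V)))
  have h1 : δ (G σ) = 0 := hσ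
  have h2 := hn (G σ) V (by rw [adj, h1, hb.zero' m, mul_zero])
  rw [adj, ← h, hb.add' m m m, o σ ρ hσ, zero_add] at h2
  rw [hd σ ((mul_eq_zero.1 h2).resolve_left hc), add_zero] at h
  exact ⟨ρ, h⟩

/-- A subspace on which a map to a finite-dimensional space has kernel in `N` is the sum of a
finite-dimensional subspace that meets `N` in zero and of a part of `N`. -/
theorem compl [AddCommGroup W] [Module ℂ W] [FiniteDimensional ℂ W] (S N : Submodule ℂ R)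
    (π : R →ₗ[ℂ] W) (hπ : ∀ x ∈ S, π x = 0 → x ∈ N) :
    ∃ S₀ : Submodule ℂ R, FiniteDimensional ℂ S₀ ∧ S₀ ≤ S ∧ (∀ x ∈ S₀, x ∈ N → x = 0) ∧
      ∀ x ∈ S, ∃ y ∈ S₀, x - y ∈ N := by
  obtain ⟨C, hC⟩ := (N.comap S.subtype).exists_isCompl
  have z : ∀ x : S, x ∈ C → (x : R) ∈ N → x = 0 := fun x hx h =>
    Submodule.disjoint_def.1 hC.disjoint x h hx
  have f : FiniteDimensional ℂ C := FiniteDimensional.of_injective
    (π ∘ₗ S.subtype ∘ₗ C.subtype) ((injective_iff_map_eq_zero _).2 fun x hx =>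
      Subtype.ext (z x x.2 (hπ _ x.1.2 hx)))
  refine ⟨C.map S.subtype, inferInstance, S.map_subtype_le C, ?_, fun x hx => ?_⟩
  · rintro _ ⟨x, hx, rfl⟩ h
    rw [z x hx h, map_zero]
  · obtain ⟨u, hu, v, hv, h⟩ := Submodule.mem_sup.1 (hC.sup_eq_top.ge (Submodule.mem_top
      (x := (⟨x, hx⟩ : S))))
    refine ⟨v, ⟨v, hv, rfl⟩, ?_⟩
    have h1 : (u : R) + v = x := congrArg Subtype.val h
    rw [← h1, add_sub_cancel_right]
    exact hu

/-- A finite family that spans `S` modulo `N`. -/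
theorem span_fin [AddCommGroup W] [Module ℂ W] [FiniteDimensional ℂ W] (S N : Submodule ℂ R)
    (π : R →ₗ[ℂ] W) (hπ : ∀ x ∈ S, π x = 0 → x ∈ N) :
    ∃ (m : ℕ) (g : Fin m → R), (∀ i, g i ∈ S) ∧
      ∀ x ∈ S, ∃ a : Fin m → ℂ, x - ∑ i, a i • g i ∈ N := by
  obtain ⟨C, f, h1, -, h2⟩ := compl S N π hπ
  let β := Module.finBasis ℂ C
  refine ⟨_, fun i => β i, fun i => h1 (β i).2, fun x hx => ?_⟩
  obtain ⟨y, hy, h⟩ := h2 x hx
  refine ⟨fun i => β.repr ⟨y, hy⟩ i, ?_⟩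
  have h3 := congrArg C.subtype (β.sum_repr ⟨y, hy⟩)
  simp only [map_sum, map_smul, Submodule.subtype_apply] at h3
  rwa [h3]

/-- The lemma modulo a null space `N`, with `S` finite-dimensional modulo `N`; the vectors of the
second space satisfy `P`, and the adjoint is given as a relation `Q`. -/
theorem la [AddCommGroup W] [Module ℂ W] [FiniteDimensional ℂ W] {S N : Submodule ℂ R}
    (π : R →ₗ[ℂ] W) (hπ : ∀ x ∈ S, π x = 0 → x ∈ N) {b : R → R → ℂ} (hb : Herm S b)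
    (hd : ∀ x ∈ S, b x x = 0 → x ∈ N) (hN : ∀ x ∈ S, ∀ y ∈ S, y ∈ N → b x y = 0)
    {P : H → Prop} {B : H → H → ℂ} (hs : ∀ V U, P V → P U → B V U = star (B U V))
    (hn : ∀ V U, P V → P U → B V V = 0 → B V U = 0) {δ : H → R} (hδ : ∀ V, P V → δ V ∈ S)
    {Q : R → H → Prop} {c : ℂ} (hc : c ≠ 0)
    (adj : ∀ ρ ∈ S, ∃ U, P U ∧ Q ρ U ∧ ∀ V, P V → B U V = c * b ρ (δ V)) {V : H} (hV : P V) :
    ∃ ρ ∈ S, ∃ U, P U ∧ Q ρ U ∧ δ V - δ U ∈ N := by
  obtain ⟨C, f, h1, h2, h3⟩ := compl S N π hπ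
  have : Nonempty H := ⟨V⟩
  choose! G g1 g2 g3 using adj
  choose p p1 p2 using fun U : {U // P U} => h3 _ (hδ U U.2)
  obtain ⟨ρ, h⟩ := la0 (R := C) (H := {U // P U}) (b := fun x y => b x y)
    ⟨fun x _ y _ z _ => hb.add _ (h1 x.2) _ (h1 y.2) _ (h1 z.2),
      fun a x _ z _ => hb.smul a _ (h1 x.2) _ (h1 z.2),
      fun x _ y _ => hb.symm _ (h1 x.2) _ (h1 y.2)⟩
    (fun x hx => Subtype.ext (h2 _ x.2 (hd _ (h1 x.2) hx))) (fun V U => B V U)
    (fun V U => hs _ _ V.2 U.2) (fun V U => hn _ _ V.2 U.2) (fun U => ⟨p U, p1 U⟩)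
    (fun ρ => ⟨G ρ, g1 _ (h1 ρ.2)⟩) hc (fun ρ U => by
      have h4 := hN ρ (h1 ρ.2) _ (S.sub_mem (hδ U U.2) (h1 (p1 U))) (p2 U)
      rw [hb.sub' (hδ U U.2) (h1 (p1 U)) (h1 ρ.2), sub_eq_zero] at h4
      simp only [g3 _ (h1 ρ.2) _ U.2, h4]) ⟨V, hV⟩
  refine ⟨ρ, h1 ρ.2, G ρ, g1 _ (h1 ρ.2), g2 _ (h1 ρ.2), ?_⟩
  have h4 : p ⟨G ρ, g1 _ (h1 ρ.2)⟩ = p ⟨V, hV⟩ := congrArg Subtype.val h
  have h5 := N.sub_mem (p2 ⟨V, hV⟩) (p2 ⟨G ρ, g1 _ (h1 ρ.2)⟩)
  rwa [h4, sub_sub_sub_cancel_right] at h5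

/-- The lemma for a finite-dimensional subspace with a definite form. -/
theorem la1 {S : Submodule ℂ R} [FiniteDimensional ℂ S] {b : R → R → ℂ} (hb : Herm S b)
    (hd : ∀ x ∈ S, b x x = 0 → x = 0) {B : H → H → ℂ} (hs : ∀ V U, B V U = star (B U V))
    (hn : ∀ V U, B V V = 0 → B V U = 0) {δ : H → R} (hδ : ∀ V, δ V ∈ S) {G : R → H} {c : ℂ}
    (hc : c ≠ 0) (adj : ∀ ρ ∈ S, ∀ V, B (G ρ) V = c * b ρ (δ V)) (V : H) :
    ∃ ρ ∈ S, δ (G ρ) = δ V := by
  obtain ⟨ρ, h⟩ := la0 (R := S) (b := fun x y => b x y)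
    ⟨fun x _ y _ z _ => hb.add _ x.2 _ y.2 _ z.2, fun a x _ z _ => hb.smul a _ x.2 _ z.2,
      fun x _ y _ => hb.symm _ x.2 _ y.2⟩ (fun x hx => Subtype.ext (hd _ x.2 hx)) B hs hn
    (fun U => ⟨δ U, hδ U⟩) (fun ρ => G ρ) hc (fun ρ U => adj ρ ρ.2 U) V
  exact ⟨ρ, ρ.2, congrArg Subtype.val h⟩

end Pool.Agent.Lib.EX.K67
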