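import Pool.Agent.Lib.EX.Blue
import Pool.Agent.Lib.EX.K67A

/-! The linear algebra lemma. -/

open scoped ComplexOrder

namespace Pool.Agent.Lib.EX

theorem bLA : St_LA := by
  intro R H _ _ _ _ _ a b δ Γ ha hb _ hd hp hΓ adj v
  choose G hG using hΓ
  have h1 : K67.Herm ⊤ fun x y => a x y :=
    ⟨fun x _ y _ z _ => by simp, fun c x _ z _ => by simp, fun x _ y _ => ha y x⟩
  have h2 : K67.Herm ⊤ fun x y => b x y :=
    ⟨fun x _ y _ z _ => by simp, fun c x _ z _ => by simp, fun x _ y _ => hb y x⟩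
  obtain ⟨ρ, h⟩ := K67.la0 h1 hd (fun x y => b x y) (fun V U => hb U V)
    (fun V U => h2.null (fun x _ => (Complex.nonneg_iff.1 (hp x)).1) trivial trivial) δ G
    (c := -1) (by simp) (fun ρ V => by
      rw [neg_one_mul, eq_neg_iff_add_eq_zero]
      exact adj _ _ (hG ρ) V) v
  exact ⟨ρ, G ρ, hG ρ, by rw [map_sub, h, sub_self]⟩

end Pool.Agent.Lib.EX
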