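import Pool.Agent.Lib.EX.Blue

/-! Project ex41: the induction on the depth. -/

open scoped Classical Topology ContDiff ComplexOrder Matrix
open Set MeasureTheory Complex Metric Filter

set_option linter.unusedVariables false

noncomputable section

namespace Pool.Agent.Lib.EX

open Pool.Agent.Lib.SV (E)
open Pool.Agent.Lib.HS32

theorem bLEVEL (hSTEP : St_STEP) (hINC : St_INC) (hMOD : St_MOD) : St_LEVEL := by
  intro n M _ H ι _ _ D κ _ L hH
  have h0 : L.Cor (L.T.card + 1) L.f := by
    refine ⟨fun l d z hz => ?_, fun l a b x hx hx' => ?_⟩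
    · simp only [sub_self]
      exact (hMOD n ι (D.c d) L.G L.r L.T 0).2.1.zero z
    · exact (hINC n ι (D.c b) L.G L.r L.T 0 _ _).2.2.2.2.2.2.2.2.1 (L.difG l a b x hx hx')
  have h1 : ∀ k, ∀ q, 1 ≤ q → q + k = L.T.card + 1 → ∃ g, L.Cor q g := by
    intro k
    induction k with
    | zero => intro q _ hq; exact ⟨L.f, by rw [show q = L.T.card + 1 by omega]; exact h0⟩
    | succ k ih =>
      intro q hq1 hq
      obtain ⟨g, hg⟩ := ih (q + 1) (by omega) (by omega)
      exact hSTEP n M H ι D κ L q g hH (Or.inl hq1) hg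
  obtain ⟨g, hg⟩ := h1 L.T.card 1 le_rfl (by omega)
  exact ⟨⟨g, hg⟩, fun hs => hSTEP n M H ι D κ L 0 g hH (Or.inr hs) hg⟩

end Pool.Agent.Lib.EX
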