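import Pool.Agent.Lib.EX.Blue

/-! Project ex41, row LIN: linearity. -/

open scoped Classical Topology ContDiff ComplexOrder Matrix
open Set MeasureTheory Complex Metric Filter

noncomputable section

namespace Pool.Agent.Lib.EX

open Pool.Agent.Lib.SV (E)
open Pool.Agent.Lib.HS32
open Pool.Agent.Lib.EXA (Val SmN emb)

namespace LIN

variable {n : ℕ} {M : Mf n} {ι : Type} [Fintype ι] [DecidableEq ι] (D : Ad M ι)

theorem avg_lin (g g' : D.A → E n → ℂ) (t : ℂ) : D.avg (g + t • g') = D.avg g + t • D.avg g' := by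
  funext x
  simp only [Ad.avg, Pi.add_apply, Pi.smul_apply, smul_eq_mul, Finset.mul_sum,
    ← Finset.sum_add_distrib]
  exact Finset.sum_congr rfl fun a _ => by ring

theorem hat_lin (c : ι → Option (Fin n)) (G : ι → ℤ) (T : Finset ι) (q : ℕ)
    (σ σ' : Finset ι → E n → ℂ) (t : ℂ) :
    hat c G T q (σ + t • σ') = hat c G T q σ + t • hat c G T q σ' := by
  funext z
  simp only [hat, Pi.add_apply, Pi.smul_apply, smul_eq_mul, Finset.mul_sum,
    ← Finset.sum_add_distrib]
  exact Finset.sum_congr rfl fun a _ => by ring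

omit [Fintype ι] in
theorem sec_zero (I : Finset ι) (κ : D.A → D.A → M.X → ℂ) : D.Sec I κ 0 :=
  ⟨fun _ _ _ => contDiffAt_const, fun _ _ _ => rfl, fun _ _ _ _ _ _ => by simp⟩

omit [Fintype ι] in
theorem sec_lin {I : Finset ι} {κ : D.A → D.A → M.X → ℂ} {w w' : D.A → E n → ℂ} (t : ℂ)
    (h : D.Sec I κ w) (h' : D.Sec I κ w') : D.Sec I κ (w + t • w') :=
  ⟨fun a z hz => (h.sm a z hz).add ((h'.sm a z hz).const_smul t), fun a z hz => by
    simp only [Pi.add_apply, Pi.smul_apply, h.iv a z hz, h'.iv a z hz], fun a b x ha hb hs => by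
    simp only [Pi.add_apply, Pi.smul_apply, smul_eq_mul, h.cmp a b x ha hb hs,
      h'.cmp a b x ha hb hs]
    ring⟩

end LIN

open LIN in
theorem bLIN (hRES : St_RES) (hINC : St_INC) : St_LIN := by
  intro n M _ H ι _ _ D G T p
  refine ⟨⟨fun a z _ j => ⟨0, ⟨0, fun _ => Eventually.of_forall fun _ => contDiffAt_const,
    Eventually.of_forall fun y _ => ?_, fun _ _ => Eventually.of_forall fun _ _ => rfl⟩,
    fun _ _ _ => Eventually.of_forall fun _ _ => by simp⟩,
    fun F F' V V' t K hF hF' h h' a z hz j => ?_⟩, fun σ σ' t => ?_, avg_lin D,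
    ⟨fun I _ => sec_zero D I _, fun σ σ' t h h' I hI => sec_lin D t (h I hI) (h' I hI)⟩,
    ⟨⟨fun I _ => sec_zero D I _, fun _ _ _ _ => differentiableAt_const _, fun _ _ => rfl,
      fun _ _ _ _ => rfl, fun _ _ _ _ _ => rfl⟩, fun σ σ' t h h' =>
      ⟨fun I hI => sec_lin D t (h.sec I hI) (h'.sec I hI),
        fun I a z hz => (h.hol I a z hz).add ((h'.hol I a z hz).const_smul t),
        fun I hI => by simp [h.z1 I hI, h'.z1 I hI],
        fun I a z hz => by simp [h.z2 I a z hz, h'.z2 I a z hz],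
        fun I a i hi hc => by simp [h.z3 I a i hi hc, h'.z3 I a i hi hc]⟩⟩, fun V V' t => ?_⟩
  · have h0 : D.rd (0 : M.X → ℂ) a = fun _ => 0 := rfl
    simp [h0, dzb_const]
  · obtain ⟨ρ, h1, h2⟩ := h a z hz j
    obtain ⟨ρ', h3, h4⟩ := h' a z hz j
    have h5 := (hRES n ι _ G T p ρ' ρ' _ (dzb j (D.rd F' a)) z (D.inj a)).2.2.2.2.2.1 (fun _ => t)
      (Eventually.of_forall fun _ => contDiffAt_const) h3
    have h6 := (hRES n ι _ G T p _ _ _ _ z (D.inj a)).2.2.2.2.1 h1 h5
    have s1 := (hINC n ι _ K 0 T p _ z).2.2.2.2.2.2.2.2.2.2.2.2.2.2.2.1 (hF a z hz)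
    have s2 := (hINC n ι _ K 0 T p _ z).2.2.2.2.2.2.2.2.2.2.2.2.2.2.2.1 (hF' a z hz)
    refine ⟨_, (hRES n ι _ G T p _ _ _ _ z (D.inj a)).2.2.2.2.2.2.1 h6 ?_
      fun _ _ => Eventually.of_forall fun _ _ => rfl, fun I hI hj => ?_⟩
    · filter_upwards [s1, s2] with y y1 y2 hy
      have d1 := cd_diff (y1 hy).self_of_nhds
      have d2 := cd_diff (y2 hy).self_of_nhds
      have e : D.rd (F + t • F') a = fun w => D.rd F a w + t * D.rd F' a w := rfl
      rw [e, dzb_add d1 (d2.const_mul t), dzb_const_mul t d2]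
      rfl
    · filter_upwards [h2 I hI hj, h4 I hI hj] with y y1 y2 hy
      simp [y1 hy, y2 hy, Matrix.mulVec_add, Matrix.mulVec_smul]
  · rw [Ad.ext, Ad.ext, Ad.ext, ← avg_lin]
    congr 1
    funext a
    exact hat_lin (D.c a) G T p (fun I => σ I a) (fun I => σ' I a) t
  · funext J a z
    simp only [Ad.dl, Pi.add_apply, Pi.smul_apply, smul_eq_mul]
    split_ifs
    · simp only [del, Finset.mul_sum, ← Finset.sum_add_distrib]
      refine Finset.sum_congr rfl fun l _ => ?_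
      cases D.c a l <;> simp
    · simp

end Pool.Agent.Lib.EX
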