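import Pool.Agent.Lib.EX.K78

/-! Row LOC0. -/

open scoped Classical Topology ContDiff
open Set MeasureTheory Complex Metric Filter

namespace Pool.Agent.Lib.EX

open Pool.Agent.Lib.SV (E)
open Pool.Agent.Lib.HS32 K78
open Pool.Agent.Lib.EXA (Val SmN mon lN wt Loc RI)

theorem bLOC0 : St_LOC0 := by
  intro n ι _ _ c v r p Φ hv hr h0 hN
  set φ := (B2 n).indicator Φ with hφ
  have hK : IsCompact (closedBall (0 : E n) 1) := isCompact_closedBall _ _
  have e1 : ∀ z ∈ B2 n, φ =ᶠ[𝓝 z] Φ := fun z hz => (b2_ev hz).mono fun y hy => indicator_of_mem hy _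
  have e0 : ∀ z ∉ closedBall (0 : E n) 1, φ z = 0 := fun z hz => by
    by_cases h : z ∈ B2 n
    · rw [(e1 z h).self_of_nhds, h0 z h (by simpa using hz)]
    · exact indicator_of_notMem h _
  have sub : ∀ z ∉ B2 n, z ∉ closedBall (0 : E n) 1 := fun z a b => a (b2_of (by simpa using b))
  have e2 : ∀ j, ∀ z ∉ closedBall (0 : E n) 1, dzb j φ z = 0 := fun j z hz => by
    rw [dzb_congr (g := fun _ => 0) (mem_of_superset (hK.isClosed.isOpen_compl.mem_nhds hz) e0),
      dzb_const]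
  have hw : ∀ z ∈ closedBall (0 : E n) 1, SmN (fun y => -Real.log (v y)) z :=
    fun z hz => w_sm hv (b2_of (by simpa using hz))
  have hL : ∀ z ∈ closedBall (0 : E n) 1, Loc (cs c) (lf c r) (p - 1) z φ := fun z hz =>
    .congr _ _ (nul_loc hv.inj hr (hN z (by simpa using hz))).1
      ((e1 z (b2_of (by simpa using hz))).mono fun y hy _ => hy)
  have t0 := fun t : ℝ => int_tr (c := c) (f := fun z => cut c v t z * Φ z)
    (g := fun z => wt (cs c) (fun y => -Real.log (v y)) t z * φ z)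
    (fun z hz ho => by rw [cut_eq hv.inj ho (hv.vpos z hz), (e1 z hz).self_of_nhds])
    fun z hz => by rw [e0 z (sub z hz), mul_zero]
  have t1 := fun (t : ℝ) j => int_tr (c := c) (f := fun z => cut c v t z * dzb j Φ z)
    (g := fun z => wt (cs c) (fun y => -Real.log (v y)) t z * dzb j φ z)
    (fun z hz ho => by rw [cut_eq hv.inj ho (hv.vpos z hz), dzb_congr (e1 z hz)])
    fun z hz => by rw [e2 j z (sub z hz), mul_zero]
  have t2 := fun (t : ℝ) j => int_tr (c := c) (f := fun z => cut c v t z * (Φ z * dzb j (lg c v) z))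
    (g := fun z => wt (cs c) (fun y => -Real.log (v y)) t z *
      (φ z * dzb j (fun x => (lN (cs c) (fun y => -Real.log (v y)) x : ℂ)) z))
    (fun z hz ho => by
      rw [cut_eq hv.inj ho (hv.vpos z hz), (e1 z hz).self_of_nhds, dzb_congr (lg_eq hv hz ho)])
    fun z hz => by rw [e0 z (sub z hz), zero_mul, mul_zero]
  obtain ⟨a1, -, a3⟩ := aAC1 n _ _ _ _ _ φ hK hw e0 hL
  refine ⟨(a1.and (eventually_all.2 fun j => ((aAC1 n _ _ _ _ _ _ hK hw (e2 j) fun z hz =>
    EXA.LOCK.dzb_loc j (hL z hz)).1.and (aAC1 n _ _ _ _ _ _ hK hw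
      (fun z hz => by rw [e0 z hz, zero_mul]) fun z hz =>
        EXA.LOCK.lnb j (hL z hz) (hw z hz)).1).and (aDIVE n _ _ _ _ _ φ j hK hw e0 hL))).mono
    fun t ht => ⟨(t0 t).1 ht.1, fun j => ⟨(t1 t j).1 (ht.2 j).1.1, (t2 t j).1 (ht.2 j).1.2, ?_⟩⟩, ?_⟩
  · rw [(t1 t j).2, (t2 t j).2]; exact (ht.2 j).2
  · rcases p with _ | p
    · refine (Val.const 0).congr (Eventually.of_forall fun t => ?_)
      rw [(int_tr (c := c) (g := fun _ => 0) (fun z hz ho => ?_) fun _ _ => rfl).2]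
      · simp
      · by_cases h : ‖z‖ ≤ 1
        · rw [((nul_loc hv.inj hr (hN z h)).2 rfl).self_of_nhds ho, mul_zero]
        · rw [h0 z hz (not_le.1 h), mul_zero]
    · exact (a3 (p + 1) (Nat.lt_succ_self p)).congr
        (Eventually.of_forall fun t => by rw [(t0 t).2]; rfl)

end Pool.Agent.Lib.EX
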