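import Pool.Agent.Lib.EX.Blue

/-! Project ex41: the classes of germs are modules. -/

open scoped Classical Topology ContDiff ComplexOrder Matrix
open Set MeasureTheory Complex Metric Filter

noncomputable section

namespace Pool.Agent.Lib.EX

open Pool.Agent.Lib.SV (E)
open Pool.Agent.Lib.HS32
open Pool.Agent.Lib.EXA (Val SmN emb)

namespace MOD

variable {n : ℕ} {ι : Type} {c : ι → Option (Fin n)}

/-- A ring of germs. -/
structure Rg (R : (E n → ℂ) → E n → Prop) : Prop where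
  zero : ∀ z, R 0 z
  add : ∀ F F' z, R F z → R F' z → R (F + F') z
  mul : ∀ F F' z, R F z → R F' z → R (F * F') z
  ev : ∀ F z, R F z → ∀ᶠ y in 𝓝 z, R F y

theorem rgS : Rg (n := n) SmN where
  zero := fun _ => Eventually.of_forall fun _ => contDiffAt_const
  add := fun _ _ _ h h' => (h.and h').mono fun _ k => k.1.add k.2
  mul := fun _ _ _ h h' => (h.and h').mono fun _ k => k.1.mul k.2
  ev := fun _ _ h => h.eventually_nhds

theorem rgH : Rg (n := n) HolN where
  zero := fun _ => Eventually.of_forall fun _ => differentiableAt_const _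
  add := fun _ _ _ h h' => (h.and h').mono fun _ k => k.1.add k.2
  mul := fun _ _ _ h h' => (h.and h').mono fun _ k => k.1.mul k.2
  ev := fun _ _ h => h.eventually_nhds

/-- A module over a ring of germs. -/
structure Md (c : ι → Option (Fin n)) (R P : (E n → ℂ) → E n → Prop) : Prop where
  zero : ∀ z, P 0 z
  add : ∀ F F' z, P F z → P F' z → P (F + F') z
  mul : ∀ s F z, R s z → P F z → P (s * F) z
  cong : ∀ F F' z, P F z → (∀ᶠ y in 𝓝 z, Off c y → F' y = F y) → P F' z
  ev : ∀ F z, P F z → ∀ᶠ y in 𝓝 z, P F y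

variable {R P : (E n → ℂ) → E n → Prop}

theorem Md.sum (h : Md c R P) (τ : Type) (S : Finset τ) (F : τ → E n → ℂ) (z : E n)
    (hF : ∀ t ∈ S, P (F t) z) : P (∑ t ∈ S, F t) z :=
  Finset.sum_induction F (fun G => P G z) (fun _ _ => h.add _ _ z) (h.zero z) hF

theorem Md.mod (h : Md c SmN P) : Mod c P := ⟨h.zero, h.add, h.mul, h.cong, h.ev, h.sum⟩

theorem Md.modH (h : Md c HolN P) : ModH c P := ⟨h.zero, h.add, h.mul, h.cong, h.ev, h.sum⟩

/-- The module generated by finitely many functions. -/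
theorem gen (hR : Rg R) {α : Type} [Finite α] (S : Finset α) (m : α → E n → ℂ)
    (h : ∀ F z₀, P F z₀ ↔ ∃ s : α → E n → ℂ, (∀ J, R (s J) z₀) ∧
      ∀ᶠ z in 𝓝 z₀, Off c z → F z = ∑ J ∈ S, m J z * s J z) : Md c R P where
  zero := fun z => (h _ _).2 ⟨0, fun _ => hR.zero z, Eventually.of_forall fun _ _ => by simp⟩
  add := fun F F' z h1 h2 => by
    obtain ⟨s, a1, a2⟩ := (h _ _).1 h1
    obtain ⟨s', b1, b2⟩ := (h _ _).1 h2
    refine (h _ _).2 ⟨s + s', fun J => hR.add _ _ z (a1 J) (b1 J), ?_⟩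
    filter_upwards [a2, b2] with y k k' ho
    simp only [Pi.add_apply, k ho, k' ho, mul_add, Finset.sum_add_distrib]
  mul := fun t F z h1 h2 => by
    obtain ⟨s, a1, a2⟩ := (h _ _).1 h2
    refine (h _ _).2 ⟨fun J => t * s J, fun J => hR.mul _ _ z h1 (a1 J), ?_⟩
    filter_upwards [a2] with y k ho
    simp only [Pi.mul_apply, k ho, Finset.mul_sum, mul_left_comm]
  cong := fun F F' z h1 h2 => by
    obtain ⟨s, a1, a2⟩ := (h _ _).1 h1
    refine (h _ _).2 ⟨s, a1, ?_⟩
    filter_upwards [a2, h2] with y k k' ho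
    rw [k' ho, k ho]
  ev := fun F z h1 => by
    obtain ⟨s, a1, a2⟩ := (h _ _).1 h1
    filter_upwards [a2.eventually_nhds, eventually_all.2 fun J => hR.ev _ z (a1 J)] with y k k'
    exact (h _ _).2 ⟨s, k', k⟩

/-- The module generated by one function. -/
theorem gen1 (hR : Rg R) (m : E n → ℂ)
    (h : ∀ F z₀, P F z₀ ↔ ∃ s, R s z₀ ∧ ∀ᶠ z in 𝓝 z₀, Off c z → F z = m z * s z) : Md c R P :=
  gen hR (Finset.univ : Finset Unit) (fun _ => m) fun F z => by
    rw [h]
    exact ⟨fun ⟨s, a, b⟩ => ⟨fun _ => s, fun _ => a, by simpa using b⟩,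
      fun ⟨s, a, b⟩ => ⟨s (), a (), by simpa using b⟩⟩

variable [Fintype ι]

theorem nul (r : ι → ℝ) (q : ℕ) : Md c SmN (Nul c r q) where
  zero := fun z => ⟨Empty, inferInstance, fun t => t.elim, fun t => t.elim, fun t => t.elim,
    fun t => t.elim, fun t => t.elim, Eventually.of_forall fun _ _ => by simp⟩
  add := by
    rintro F F' z ⟨τ, _, P, Q, s, a1, a2, a3⟩ ⟨τ', _, P', Q', s', b1, b2, b3⟩
    refine ⟨τ ⊕ τ', inferInstance, Sum.elim P P', Sum.elim Q Q', Sum.elim s s',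
      Sum.rec a1 b1, Sum.rec a2 b2, ?_⟩
    filter_upwards [a3, b3] with y k k' ho
    simp only [Pi.add_apply, k ho, k' ho, Fintype.sum_sum_type, Sum.elim_inl, Sum.elim_inr, mul_add]
  mul := by
    rintro u F z h ⟨τ, _, P, Q, s, a1, a2, a3⟩
    refine ⟨τ, inferInstance, P, Q, fun t => u * s t, fun t => rgS.mul _ _ z h (a1 t), a2, ?_⟩
    filter_upwards [a3] with y k ho
    simp only [Pi.mul_apply, k ho, Finset.mul_sum]
    exact Finset.sum_congr rfl fun t _ => by ring
  cong := by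
    rintro F F' z ⟨τ, _, P, Q, s, a1, a2, a3⟩ h
    refine ⟨τ, inferInstance, P, Q, s, a1, a2, ?_⟩
    filter_upwards [a3, h] with y k k' ho
    rw [k' ho, k ho]
  ev := by
    rintro F z ⟨τ, _, P, Q, s, a1, a2, a3⟩
    filter_upwards [a3.eventually_nhds, eventually_all.2 fun t => rgS.ev _ z (a1 t)] with y k k'
    exact ⟨τ, inferInstance, P, Q, s, k', a2, k⟩

end MOD

open MOD

theorem bMOD : St_MOD := by
  intro n ι _ _ c G r T q
  refine ⟨(gen1 rgS (xm c (-G)) fun _ _ => Iff.rfl).mod,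
    (gen1 rgH (xm c (-G)) fun _ _ => Iff.rfl).modH,
    (gen rgS (lt T q) (fun J z => xm c (-G) z * xs c (T \ J) z) fun _ _ => ?_).mod,
    (gen rgH (lt T q) (fun J z => xm c (-G) z * xs c (T \ J) z) fun _ _ => ?_).modH,
    (gen rgS (wq r T q) (fun J z => xm c (-G) z * xs c T z / xs c (fr r) z / xs c J z)
      fun _ _ => ?_).mod,
    (gen rgS T (xi c) fun _ _ => Iff.rfl).mod, (nul r q).mod⟩
  · simp only [Wt, Finset.mul_sum, mul_assoc]
  · simp only [WtH, Finset.mul_sum, mul_assoc]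
  · simp only [WQ, Finset.mul_sum, mul_div_assoc', div_mul_eq_mul_div]

end Pool.Agent.Lib.EX
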