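import Pool.Agent.Lib.EX.B_LOC0
import Pool.Agent.Lib.EX.B_MOD
import Pool.Agent.Lib.EXA.AAll

/-! Row LOC1. -/

open scoped Classical Topology ContDiff Manifold
open Set MeasureTheory Complex Metric Filter

namespace Pool.Agent.Lib.EX

open Pool.Agent.Lib.SV (E)
open Pool.Agent.Lib.HS32 K78
open Pool.Agent.Lib.EXA (Val SmN mon lN wt Loc RI JM)

namespace LOC1

variable {n : ℕ} {ι : Type} [Fintype ι] [DecidableEq ι] {c : ι → Option (Fin n)} {r : ι → ℝ}
  {T : Finset ι} {p : ℕ} {ρ : Finset ι → E n → ℂ} {Φ : E n → ℂ} {χ v : E n → ℝ}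

theorem glue (hχ : ∀ z ∈ B2 n, ContDiffAt ℝ ∞ χ z) (h0 : ∀ z ∈ B2 n, 1 < ‖z‖ → χ z = 0)
    (hM : ∀ z, ‖z‖ ≤ 1 → Main c r T p ρ Φ z) : ∃ g : Finset ι → E n → ℂ,
    (∀ I z, SmN (g I) z) ∧ (∀ I z, 1 < ‖z‖ → g I z = 0) ∧
    (∀ z, ‖z‖ ≤ 1 → Nul c r p (fun y => χ y * Φ y - (xr c r y : ℝ) *
      ∑ I ∈ T.powersetCard p, g I y / (normSq (xs c I y) : ℝ)) z) ∧
    ∀ I ∈ T.powersetCard p, ∀ z ∈ B2 n, Sl c I z → g I z = χ z * ρ I z := by
  have md := (bMOD n ι c 0 r T p).2.2.2.2.2.2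
  choose! s s1 s2 s3 using hM
  set U : E n → Set (E n) := fun z => interior {y | y ∈ B2 n ∧ (∀ I, SmN (s z I) y) ∧
    Nul c r p (fun y => Φ y - (xr c r y : ℝ) *
      ∑ I ∈ T.powersetCard p, s z I y / (normSq (xs c I y) : ℝ)) y ∧
    ∀ I ∈ T.powersetCard p, Sl c I y → s z I y = ρ I y} with hU
  have hK : IsCompact (closedBall (0 : E n) 1) := isCompact_closedBall _ _
  obtain ⟨t, -, ht⟩ := hK.elim_nhds_subcover U fun z hz => by
    have hz : ‖z‖ ≤ 1 := by simpa using hz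
    refine interior_mem_nhds.2 ?_
    filter_upwards [b2_ev (b2_of hz), eventually_all.2 fun I => (s1 z hz I).eventually_nhds,
      md.ev _ _ (s2 z hz), (eventually_all_finset _).2 (s3 z hz)] with y a b d e
    exact ⟨a, b, d, e⟩
  obtain ⟨ψ, hψ⟩ := SmoothPartitionOfUnity.exists_isSubordinate (ι := t) 𝓘(ℝ, E n) hK.isClosed
    (fun a => U a) (fun a => isOpen_interior) fun x hx => by
      obtain ⟨i, hi, hx'⟩ := mem_iUnion₂.1 (ht hx)
      exact mem_iUnion.2 ⟨⟨i, hi⟩, hx'⟩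
  have k1 : ∀ a y, ψ a y ≠ 0 → y ∈ U a := fun a y h => hψ a (subset_tsupport _ h)
  have k2 : ∀ y ∈ B2 n, ∑ a, (ψ a y : ℂ) * χ y = χ y := fun y hy => by
    by_cases h : ‖y‖ ≤ 1
    · have := ψ.sum_eq_one (x := y) (by simpa using h)
      rw [finsum_eq_sum_of_fintype] at this
      rw [← Finset.sum_mul, ← ofReal_sum, this]; simp
    · simp [h0 y hy (not_le.1 h)]
  have k3 : ∀ a y, y ∈ tsupport (ψ a) → SmN (fun y => (ψ a y : ℂ) * χ y) y := fun a y h =>
    (b2_ev (interior_subset (hψ a h)).1).mono fun w hw =>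
      (cd_ofReal (ψ a).contMDiff.contDiff.contDiffAt).mul (cd_ofReal (hχ w hw))
  have k4 : ∀ a y, y ∉ tsupport (ψ a) → ∀ᶠ w in 𝓝 y, ψ a w = 0 := fun a y h =>
    notMem_tsupport_iff_eventuallyEq.1 h
  refine ⟨fun I y => ∑ a, (ψ a y : ℂ) * χ y * s a I y, fun I z => ?_, fun I z hz => ?_,
    fun z hz => ?_, fun I hI z hz hS => ?_⟩
  · refine (eventually_all.2 fun a : t => ?_).mono fun y hy => ContDiffAt.sum fun a _ => hy a
    by_cases h : z ∈ tsupport (ψ a)
    · exact EXA.LOCK.SmN.mul (k3 a z h) ((interior_subset (hψ a h)).2.1 I)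
    · exact (k4 a z h).eventually_nhds.mono fun y hy =>
        (contDiffAt_const (c := (0 : ℂ))).congr_of_eventuallyEq (hy.mono fun w hw => by simp [hw])
  · refine Finset.sum_eq_zero fun a _ => ?_
    by_cases h : ψ a z = 0
    · simp [h]
    · simp [h0 z (interior_subset (k1 a z h)).1 hz]
  · refine md.cong _ _ _ (md.sum t Finset.univ (fun a => (fun y => (ψ a y : ℂ) * χ y) * fun y =>
      Φ y - (xr c r y : ℝ) * ∑ I ∈ T.powersetCard p, s a I y / (normSq (xs c I y) : ℝ)) z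
      fun a _ => ?_) ((b2_ev (b2_of hz)).mono fun y hy _ => ?_)
    · by_cases h : z ∈ tsupport (ψ a)
      · exact md.mul _ _ _ (k3 a z h) (interior_subset (hψ a h)).2.2.1
      · exact md.cong _ _ _ (md.zero z) ((k4 a z h).mono fun y hy _ => by simp [hy])
    · simp only [Finset.sum_apply, Pi.mul_apply, mul_sub, Finset.sum_sub_distrib]
      rw [← Finset.sum_mul, k2 y hy]
      congr 1
      simp only [Finset.mul_sum, Finset.sum_div]
      rw [Finset.sum_comm]
      exact Finset.sum_congr rfl fun a _ => Finset.sum_congr rfl fun I _ => by ring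
  · rw [← k2 z hz, Finset.sum_mul]
    refine Finset.sum_congr rfl fun a _ => ?_
    by_cases h : ψ a z = 0
    · simp [h]
    · rw [(interior_subset (k1 a z h)).2.2.2 I hI hS]

theorem xm_ind (J : Finset ι) (z : E n) :
    xm c (fun i => if i ∈ J then -1 else 0) z = (xs c J z)⁻¹ := by
  rw [xm, xs, ← Finset.prod_inv_distrib, ← Finset.prod_ite_mem_eq J]
  refine Finset.prod_congr rfl fun i _ => ?_
  split_ifs <;> simp

theorem nul_of {I J : Finset ι} {q : ℕ} {g : E n → ℂ} {z : E n} (hJ : ∀ i ∈ J, r i = 0)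
    (hq : J.card < q) (e : ∀ y, xs c I y = xs c J y) (hg : SmN g z) :
    Nul c r q (fun y => (xr c r y : ℝ) * (g y / (normSq (xs c I y) : ℝ))) z := by
  refine ⟨Unit, inferInstance, fun _ i => if i ∈ J then -1 else 0,
    fun _ i => if i ∈ J then -1 else 0, fun _ => g, fun _ => hg,
    fun _ => ⟨fun i _ => by dsimp only; split_ifs <;> simp, Or.inl (lt_of_le_of_lt (Finset.card_le_card
      fun i hi => ?_) hq)⟩, Eventually.of_forall fun y _ => ?_⟩
  · by_contra h
    simp [h] at hi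
  · simp only [Finset.univ_unique, Finset.sum_singleton, xm_ind, e, normSq_eq_conj_mul_self,
      star_inv₀, div_eq_mul_inv, mul_inv, RCLike.star_def]
    ring

theorem main (hv : Tst c v) (hr : ∀ i, -1 < r i ∧ r i ≤ 0) {I : Finset ι} (hI : ∀ i ∈ I, r i = 0)
    {g f : E n → ℂ} (g1 : ∀ z, SmN g z) (g0 : ∀ z, 1 < ‖z‖ → g z = 0)
    (e : ∀ z, Sl c I z → (xr c r z : ℝ) * g z = f z) :
    Val (fun t => t ^ I.card * ∫ z in B2 n, cut c v t z *
      ((xr c r z : ℝ) * (g z / (normSq (xs c I z) : ℝ)))) (SI c I f) := by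
  by_cases h : ∀ i ∈ I, c i ≠ none
  swap
  · rw [SI, if_neg h]
    push Not at h
    obtain ⟨i, hi, e⟩ := h
    exact (bLOC0 n ι c v r _ _ hv hr (fun z _ hz => by simp [g0 z hz]) fun z _ =>
      nul_of (J := I.erase i) (fun l hl => hI l (Finset.mem_of_mem_erase hl))
        (Finset.card_erase_lt_of_mem hi)
        (fun y => by rw [xs, xs, ← Finset.mul_prod_erase _ _ hi, xi_none e, one_mul]) (g1 z)).2
  set I' : Finset (Fin n) := Finset.univ.filter (Nm c I) with hI'
  have m1 : ∀ j, j ∈ I' ↔ ∃ i ∈ I, c i = some j := fun j => by simp [hI', Nm]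
  have cd : I'.card = I.card := by
    rw [← Finset.card_image_of_injective I' (Option.some_injective _),
      ← Finset.card_image_of_injOn (s := I) (f := c) fun a ha b hb e => by
        obtain ⟨j, hj⟩ := Option.ne_none_iff_exists'.1 (h a ha)
        exact hv.inj a b j hj (e ▸ hj)]
    congr 1
    ext o
    simp only [Finset.mem_image, m1]
    refine ⟨fun ⟨j, ⟨i, a, b⟩, d⟩ => ⟨i, a, b.trans d⟩, fun ⟨i, a, b⟩ => ?_⟩
    obtain ⟨j, hj⟩ := Option.ne_none_iff_exists'.1 (h i a)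
    exact ⟨j, ⟨i, a, hj⟩, hj.symm.trans b⟩
  have rg : ∀ j, j ∈ range ((tg c I).orderEmbOfFin rfl) ↔ j ∉ I' := fun j => by
    rw [Finset.range_orderEmbOfFin]; simp [tg, hI']
  have sub : I' ⊆ cs c := fun j hj => by
    obtain ⟨i, -, a⟩ := (m1 j).1 hj
    exact mem_cs.2 ⟨i, a⟩
  have l0 : lf c (0 : ι → ℤ) = 0 := funext fun j => by simp [lf]
  set r' : ι → ℝ := fun i => r i - if i ∈ I then 1 else 0 with hr'
  have me : ∀ (s : ι → ℝ) z, (xr c s z : ℂ) = mon (cs c) (lf c s) 0 0 z := fun s z => by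
    rw [← l0, ← mon_eq hv.inj]; simp [xm]
  have o1 : ∀ j ∈ cs c \ I', ∃ i, c i = some j ∧ lf c r' j = r i := fun j hj => by
    obtain ⟨a, b⟩ := Finset.mem_sdiff.1 hj
    obtain ⟨i, d⟩ := mem_cs.1 a
    have : i ∉ I := fun x => b ((m1 j).2 ⟨i, x, d⟩)
    exact ⟨i, d, by simp [lf_eq hv.inj _ d, hr', this]⟩
  have a := (EXA.aAC2 n _ (cs c) I' (lf c r') 0 0 ((tg c I).orderEmbOfFin rfl)
    (fun y => -Real.log (v y)) (closedBall 0 1) g ((tg c I).orderEmbOfFin rfl).injective rg sub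
    (fun j hj => by
      obtain ⟨i, a, b⟩ := (m1 j).1 hj
      exact ⟨by simp [lf_eq hv.inj _ b, hr', a, hI i a], rfl, rfl⟩)
    (fun j hj => by
      obtain ⟨i, -, b⟩ := o1 j hj
      have := (hr i).1
      simp only [b, Pi.zero_apply, Int.cast_zero]; linarith)
    (isCompact_closedBall _ _) (fun z hz => w_sm hv (b2_of (by simpa using hz)))
    (fun z hz => g0 z (by simpa using hz)) fun z _ => g1 z).2
  rw [cd] at a
  rw [SI, if_pos h]
  convert a.congr (Eventually.of_forall fun t => ?_) using 3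
  · funext y
    rw [← e]
    · congr 1
      rw [me, mon, ← Finset.prod_sdiff sub, Finset.prod_eq_one (s := I'), mul_one]
      · refine Finset.prod_congr rfl fun j hj => ?_
        obtain ⟨i, a, b⟩ := o1 j hj
        rw [b, lf_eq hv.inj _ a]; rfl
      · intro j hj
        obtain ⟨i, a, b⟩ := (m1 j).1 hj
        simp [lf_eq hv.inj _ b, hI i a]
    · intro i hi
      obtain ⟨j, hj⟩ := Option.ne_none_iff_exists'.1 (h i hi)
      rw [xi_some hj]
      exact EXA.AC2.emb_not _ fun x => (rg j).1 x ((m1 j).2 ⟨i, hi, hj⟩)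
  · congr 1
    refine (int_tr (c := c) (fun z hz ho => ?_) fun z hz => ?_).2
    · dsimp only
      rw [cut_eq hv.inj ho (hv.vpos z hz), ← me]
      have : xr c r' z = xr c r z / normSq (xs c I z) := by
        simp only [xr, hr', xs, map_prod]
        rw [← Finset.prod_ite_mem_eq I, ← Finset.prod_div_distrib]
        refine Finset.prod_congr rfl fun i _ => ?_
        rw [Real.rpow_sub (normSq_pos.2 (ho i))]
        split_ifs <;> simp
      rw [this]; push_cast; ring
    · simp [g0 z (by have := not_lt.1 (mt mem_ball_zero_iff.2 hz); linarith)]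

end LOC1

open LOC1 in
theorem bLOC1 : St_LOC1 := by
  intro n ι _ _ c v r T p ρ Φ χ hv hr hT hχ h0 hM
  obtain ⟨g, g1, g0, g2, g3⟩ := glue hχ h0 hM
  have hI : ∀ I ∈ T.powersetCard p, (∀ i ∈ I, r i = 0) ∧ I.card = p := fun I h =>
    ⟨fun i hi => hT i ((Finset.mem_powersetCard.1 h).1 hi), (Finset.mem_powersetCard.1 h).2⟩
  obtain ⟨a1, a2⟩ := bLOC0 n ι c v r p _ hv hr
    (fun z hz h => by simp [h0 z hz h, g0 _ z h]) g2
  have b1 := (eventually_all_finset (T.powersetCard p)).2 fun I h =>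
    (bLOC0 n ι c v r _ _ hv hr (fun z _ hz => by simp [g0 I z hz]) fun z _ =>
      nul_of (I := I) (hI I h).1 (Nat.lt_succ_self _) (fun _ => rfl) (g1 I z)).1
  have e : ∀ (t : ℝ) z, cut c v t z * (χ z * Φ z) = cut c v t z * (χ z * Φ z - (xr c r z : ℝ) *
      ∑ I ∈ T.powersetCard p, g I z / (normSq (xs c I z) : ℝ)) + ∑ I ∈ T.powersetCard p,
        cut c v t z * ((xr c r z : ℝ) * (g I z / (normSq (xs c I z) : ℝ))) := fun t z => by
    rw [← Finset.mul_sum, ← Finset.mul_sum]; ring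
  refine ⟨?_, ?_⟩
  · filter_upwards [a1, b1] with t x y
    simp only [e]
    exact x.1.add (integrable_finsetSum _ fun I h => (y I h).1)
  · have := a2.add (Val.sum fun I h => (hI I h).2 ▸ main (f := (B2 n).indicator fun z =>
      (χ z * xr c r z : ℝ) * ρ I z) hv hr (hI I h).1 (g1 I) (g0 I) fun z hz => by
        by_cases hb : z ∈ B2 n
        · rw [indicator_of_mem hb, g3 I h z hb hz]; push_cast; ring
        · rw [indicator_of_notMem hb, g0 I z
            (by have := not_lt.1 (mt mem_ball_zero_iff.2 hb); linarith), mul_zero])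
    rw [zero_add] at this
    refine this.congr ?_
    filter_upwards [a1, b1] with t x y
    simp only [e]
    rw [integral_add x.1 (integrable_finsetSum _ fun I h => (y I h).1),
      integral_finsetSum _ fun I h => (y I h).1, mul_add, Finset.mul_sum]

end Pool.Agent.Lib.EX
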