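import Pool.Agent.Lib.EX.Blue

/-! Project ex41: rules for main terms. -/

open scoped Classical Topology ContDiff ComplexOrder Matrix
open Set MeasureTheory Complex Metric Filter

set_option linter.unusedVariables false

noncomputable section

namespace Pool.Agent.Lib.EX

open Pool.Agent.Lib.SV (E)
open Pool.Agent.Lib.HS32
open Pool.Agent.Lib.EXA (Val SmN emb)

namespace MAIN

variable {n : ℕ} {ι : Type} [Fintype ι] [DecidableEq ι] {c : ι → Option (Fin n)} {r : ι → ℝ}
  {T : Finset ι} {p : ℕ} {ρ ρ' : Finset ι → E n → ℂ} {F F' : E n → ℂ} {z : E n}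

theorem sm_zero : SmN (fun _ : E n => (0 : ℂ)) z := .of_forall fun _ => contDiffAt_const

theorem sm_add {f g : E n → ℂ} (hf : SmN f z) (hg : SmN g z) : SmN (f + g) z :=
  (Eventually.and hf hg).mono fun _ h => h.1.add h.2

theorem sm_mul {f g : E n → ℂ} (hf : SmN f z) (hg : SmN g z) : SmN (f * g) z :=
  (Eventually.and hf hg).mono fun _ h => h.1.mul h.2

theorem nul_congr (h : Nul c r p F z) (h' : ∀ᶠ y in 𝓝 z, Off c y → F' y = F y) :
    Nul c r p F' z := by
  obtain ⟨τ, _, P, Q, s, h1, h2, h3⟩ := h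
  exact ⟨τ, inferInstance, P, Q, s, h1, h2, (h3.and h').mono fun y hy ho => (hy.2 ho).trans (hy.1 ho)⟩

theorem nul_zero : Nul c r p 0 z :=
  ⟨Empty, inferInstance, fun t => t.elim, fun t => t.elim, fun t => t.elim, fun t => t.elim,
    fun t => t.elim, .of_forall fun y _ => by simp⟩

theorem nul_add (h : Nul c r p F z) (h' : Nul c r p F' z) : Nul c r p (F + F') z := by
  obtain ⟨τ, _, P, Q, s, h1, h2, h3⟩ := h
  obtain ⟨τ', _, P', Q', s', h1', h2', h3'⟩ := h'
  refine ⟨τ ⊕ τ', inferInstance, Sum.elim P P', Sum.elim Q Q', Sum.elim s s', ?_, ?_, ?_⟩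
  · rintro (t | t)
    exacts [h1 t, h1' t]
  · rintro (t | t)
    exacts [h2 t, h2' t]
  · filter_upwards [h3, h3'] with y a b ho
    rw [Pi.add_apply, a ho, b ho, Fintype.sum_sum_type, mul_add]
    rfl

theorem nul_mul {s : E n → ℂ} (hs : SmN s z) (h : Nul c r p F z) : Nul c r p (s * F) z := by
  obtain ⟨τ, _, P, Q, u, h1, h2, h3⟩ := h
  refine ⟨τ, inferInstance, P, Q, fun t => s * u t, fun t => sm_mul hs (h1 t), h2, ?_⟩
  filter_upwards [h3] with y a ho
  rw [Pi.mul_apply, a ho, mul_left_comm, Finset.mul_sum]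
  refine congrArg _ (Finset.sum_congr rfl fun t _ => ?_)
  rw [Pi.mul_apply]
  ring

theorem of_nul (h : Nul c r p F z) : Main c r T p 0 F z :=
  ⟨fun _ _ => 0, fun _ => sm_zero, nul_congr h (.of_forall fun y _ => by simp),
    fun _ _ => .of_forall fun _ _ => rfl⟩

theorem add (h : Main c r T p ρ F z) (h' : Main c r T p ρ' F' z) :
    Main c r T p (ρ + ρ') (F + F') z := by
  obtain ⟨s, h1, h2, h3⟩ := h
  obtain ⟨s', h1', h2', h3'⟩ := h'
  refine ⟨s + s', fun I => sm_add (h1 I) (h1' I),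
    nul_congr (nul_add h2 h2') (.of_forall fun y _ => ?_), fun I hI => ?_⟩
  · simp only [Pi.add_apply, add_div, Finset.sum_add_distrib]
    ring
  · filter_upwards [h3 I hI, h3' I hI] with y a b hy
    simp only [Pi.add_apply, a hy, b hy]

theorem mul {s : E n → ℂ} (hs : SmN s z) (h : Main c r T p ρ F z) :
    Main c r T p (fun I => s * ρ I) (s * F) z := by
  obtain ⟨u, h1, h2, h3⟩ := h
  refine ⟨fun I => s * u I, fun I => sm_mul hs (h1 I),
    nul_congr (nul_mul hs h2) (.of_forall fun y _ => ?_), fun I hI => ?_⟩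
  · simp only [Pi.mul_apply, mul_div_assoc, ← Finset.mul_sum]
    ring
  · filter_upwards [h3 I hI] with y a hy
    simp only [Pi.mul_apply, a hy]

theorem congr (h : Main c r T p ρ F z) (h' : ∀ᶠ y in 𝓝 z, Off c y → F' y = F y)
    (h'' : ∀ I ∈ T.powersetCard p, ∀ᶠ y in 𝓝 z, Sl c I y → ρ' I y = ρ I y) :
    Main c r T p ρ' F' z := by
  obtain ⟨u, h1, h2, h3⟩ := h
  refine ⟨u, h1, nul_congr h2 (h'.mono fun y hy ho => by simp only [hy ho]), fun I hI => ?_⟩
  filter_upwards [h3 I hI, h'' I hI] with y a b hy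
  rw [a hy, b hy]

theorem sum {τ : Type} (S : Finset τ) (σ : τ → Finset ι → E n → ℂ) (Φ : τ → E n → ℂ)
    (h : ∀ t ∈ S, Main c r T p (σ t) (Φ t) z) : Main c r T p (∑ t ∈ S, σ t) (∑ t ∈ S, Φ t) z := by
  induction S using Finset.induction_on with
  | empty => simpa using of_nul nul_zero
  | insert a S ha ih =>
    rw [Finset.sum_insert ha, Finset.sum_insert ha]
    exact add (h a (Finset.mem_insert_self a S)) (ih fun t ht => h t (Finset.mem_insert_of_mem ht))

end MAIN

theorem bMAIN : St_MAIN := fun n ι _ _ c r T p ρ ρ' F F' z =>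
  ⟨MAIN.of_nul, MAIN.add, fun _ => MAIN.mul, MAIN.congr, fun _ => MAIN.sum⟩

end Pool.Agent.Lib.EX
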