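import Pool.Agent.Lib.EX.Blue

/-! Project ex41: the master identity in one chart. -/

open scoped Classical Topology ContDiff ComplexOrder Matrix
open Set MeasureTheory Complex Metric Filter

noncomputable section

namespace Pool.Agent.Lib.EX

open Pool.Agent.Lib.SV (E)
open Pool.Agent.Lib.HS32
open Pool.Agent.Lib.EXA (Val SmN emb)

namespace ML1

variable {n : ℕ}

theorem mem_of_le {z : E n} (h : ‖z‖ ≤ 1) : z ∈ B2 n := by
  rw [mem_ball_zero_iff]
  linarith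

theorem smN_of {F : Type} [NormedAddCommGroup F] [NormedSpace ℝ F] {f : E n → F}
    (h : ∀ z ∈ B2 n, ContDiffAt ℝ ∞ f z) {z : E n} (hz : z ∈ B2 n) : SmN f z :=
  (isOpen_ball.eventually_mem hz).mono h

theorem smN_hol {X : E n → E n} (h : ∀ z ∈ B2 n, DifferentiableAt ℂ X z) {z : E n} (hz : z ∈ B2 n)
    (j : Fin n) : SmN (fun y => X y j) z :=
  smN_of (fun y hy => ((mHOL n (fun x => X x j) y).2.2
    ((isOpen_ball.eventually_mem hy).mono fun x hx => differentiableAt_pi.1 (h x hx) j)).1) hz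

/-- The computation with the integrals. -/
theorem split {μ : Measure (E n)} {w a0 a1 a2 a3 a4 : E n → ℂ} {t : ℂ}
    {f g : Fin n → E n → ℂ} (hf : ∀ j, Integrable (fun z => w z * f j z) μ)
    (hg : ∀ j, Integrable (fun z => w z * g j z) μ)
    (h : ∀ j, (∫ z, w z * f j z ∂μ) + t * ∫ z, w z * g j z ∂μ = 0)
    (i1 : Integrable (fun z => w z * a1 z) μ) (i2 : Integrable (fun z => w z * a2 z) μ)
    (i3 : Integrable (fun z => w z * a3 z) μ) (i4 : Integrable (fun z => w z * a4 z) μ)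
    (e : ∀ᵐ z ∂μ, ∑ j, f j z = a1 z + a2 z + a0 z ∧ ∑ j, g j z = a3 z + a4 z) :
    ∫ z, w z * a0 z ∂μ = -((∫ z, w z * a1 z ∂μ) + (∫ z, w z * a2 z ∂μ) +
      t * (∫ z, w z * a3 z ∂μ) + t * ∫ z, w z * a4 z ∂μ) := by
  have h1 : ∫ z, w z * a0 z ∂μ = ∫ z, ((∑ j, w z * f j z) - w z * a1 z - w z * a2 z) ∂μ := by
    refine integral_congr_ae (e.mono fun z hz => ?_)
    simp only [← Finset.mul_sum, hz.1]
    ring
  have h2 : (∫ z, w z * a3 z ∂μ) + ∫ z, w z * a4 z ∂μ = ∑ j, ∫ z, w z * g j z ∂μ := by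
    rw [← integral_add i3 i4, ← integral_finsetSum _ fun j _ => hg j]
    refine integral_congr_ae (e.mono fun z hz => ?_)
    simp only [← Finset.mul_sum, hz.2]
    ring
  have h3 := integrable_finsetSum Finset.univ fun j _ => hf j
  have h4 : (∑ j, ∫ z, w z * f j z ∂μ) + t * ∑ j, ∫ z, w z * g j z ∂μ = 0 := by
    rw [Finset.mul_sum, ← Finset.sum_add_distrib]
    exact Finset.sum_eq_zero fun j _ => h j
  have h5 : Integrable (fun z => (∑ j, w z * f j z) - w z * a1 z) μ := h3.sub i1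
  rw [h1, integral_sub h5 i2, integral_sub h3 i1, integral_finsetSum _ fun j _ => hf j]
  linear_combination h4 + t * h2

end ML1

open ML1 in
theorem bML1 (hV : EXA.St_VAL) (hL0 : St_LOC0) (hL1 : St_LOC1) (hEXP : St_EXP) (hPRD : St_PRD)
    (hQ2 : St_Q2) (hQ3 : St_Q3) (hRES : St_RES) (hINC : St_INC) (hUT : St_UT) (hTRF : St_TRF)
    (hMON : St_MON) (hMOD : St_MOD) : St_ML1 := by
  intro n M _ ι _ _ D κ _ L p V F K ρ ρ' d v hp hH hT hK hF h1 h3
  obtain ⟨-, -, -, vC, vA, vM, -, -, -⟩ := hV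
  have hU := (hUT n M ι D κ L).1 d
  have hχ := (hTRF n M ι D).2.1 d
  obtain ⟨m1, -, m3, -, m5, m6, -, m8, m9, -⟩ := hMON n ι (D.c d)
  set c := D.c d with hc
  set χ : E n → ℝ := D.rd (D.χ d) d with hχd
  have hrT : ∀ i ∈ L.T, L.r i = 0 := fun i hi => (L.rT i hi).1
  have hb : ∀ z ∈ B2 n, SmN (L.b d) z := fun z hz => smN_of (fun y hy => (hU y hy).2.2.2.1) hz
  have hχs : ∀ z ∈ B2 n, SmN (fun y => (χ y : ℂ)) z := fun z hz =>
    smN_of (fun y hy => cd_ofReal (hχ y hy).2.2.1) hz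
  have hχ0 : ∀ z ∈ B2 n, 1 < ‖z‖ → χ z = 0 := fun z hz => (hχ z hz).2.2.2
  have hXW : ∀ z ∈ B2 n, ∀ j, Wt c L.G L.T (p + 1) (fun y => L.vh p V d y j) z := fun z hz j =>
    ((hRES n ι c L.G L.T p (fun I y => V I d y j) 0 _ 0 z (D.inj d)).1
      ((hRES n ι c L.G L.T p (fun I y => V I d y j) 0 0 0 z (D.inj d)).2.2.2.2.2.2.2.2.1
        fun I hI => smN_hol ((hH I hI).hol d) hz j)).1
  have nul : ∀ (q : ℕ) (Q : E n → ℂ), (∀ z ∈ B2 n, WQ c L.G L.r L.T q Q z) → ∀ z, ‖z‖ ≤ 1 →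
      Nul c L.r q (fun y => χ y * ((L.dd d y : ℝ) * (F y * star (Q y)))) z := fun q Q hQ z hz =>
    (hMOD n ι c L.G L.r L.T q).2.2.2.2.2.2.mul _ _ z (hχs z (mem_of_le hz))
      ((hPRD n ι c L.G L.r L.T q (L.b d) F Q z (hb z (mem_of_le hz)) hrT).1 K hK
        (hF z (mem_of_le hz)) (hQ z (mem_of_le hz)))
  have loc := fun (q : ℕ) (Q : E n → ℂ) (hQ : ∀ z ∈ B2 n, WQ c L.G L.r L.T q Q z) =>
    hL0 n ι c v L.r q _ hT L.r0 (fun z hz h => by simp [hχ0 z hz h]) (nul q Q hQ)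
  have k0 := fun j => (loc (p + 1) (fun y => L.vh p V d y j) fun z hz =>
    (hINC n ι c L.G L.r L.T (p + 1) _ z).2.2.2.2.2.2.2.2.2.2.2.2.1 hrT (hXW z hz j)).1
  have k1 := hL1 n ι c v L.r L.T p ρ _ χ hT L.r0 hrT (fun z hz => (hχ z hz).2.2.1) hχ0
    fun z hz => h1 z (mem_of_le hz)
  have k2 := loc p _ (hQ3 n M ι D κ L p V hp hH d)
  have k3 := hL1 n ι c v L.r L.T (p + 1) ρ' _ χ hT L.r0 hrT (fun z hz => (hχ z hz).2.2.1) hχ0
    fun z hz => h3 z (mem_of_le hz)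
  have k4 := loc (p + 1) _ fun z hz => hQ2 n ι c L.G L.r L.T p v (fun I => V I d) z (D.inj d) hz hrT
    (smN_of hT.vsm hz) (hT.vpos z hz)
    fun I hI => ⟨(hH I hI).hol d, (hH I hI).iv d, (hH I hI).nm d⟩
  have val := vM _ _ (-1) (vA _ _ _ _ (vA _ _ _ _ (vA _ _ _ _ k1.2 k2.2) k3.2) k4.2)
  rw [add_zero, add_zero, neg_one_mul] at val
  refine vC _ _ _ val ?_
  filter_upwards [eventually_all.2 k0, k1.1, k2.1, k3.1, k4.1] with t j0 j1 j2 j3 j4
  rw [split (a0 := fun z => (L.dd d z : ℝ) *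
      (F z * star (app (L.vh p V d) (fun x => (χ x : ℂ)) z)))
    (fun j => ((j0 j).2 j).1) (fun j => ((j0 j).2 j).2.1) (fun j => ((j0 j).2 j).2.2) j1 j2.1 j3
    j4.1 ?_]
  · ring
  filter_upwards [ae_restrict_mem measurableSet_ball, ae_restrict_of_ae m3] with z hz ho
  have dF : DifferentiableAt ℝ F z := cd_diff
    (((hINC n ι c K L.r L.T 0 F z).2.2.2.2.2.2.2.2.2.2.2.2.2.2.2.1 (hF z hz)).self_of_nhds
      ho).self_of_nhds
  have dX : DifferentiableAt ℝ (L.vh p V d) z := differentiableAt_pi.2 fun j => cd_diff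
    (((hINC n ι c L.G L.r L.T 0 _ z).2.2.2.2.2.2.2.2.2.2.2.2.2.2.2.1
      ((hINC n ι c L.G L.r L.T (p + 1) _ z).2.2.2.2.2.1 (hXW z hz j))).self_of_nhds ho).self_of_nhds
  have ns : ∀ {f : E n → ℂ}, HolN f z → DifferentiableAt ℝ (fun y => normSq (f y)) z := fun hf =>
    cd_diff (Mf.cd_normSq ((mHOL n _ z).2.2 hf).1)
  have x0 : ∀ J, normSq (xs c J z) ≠ 0 := fun J =>
    (normSq_pos.2 (Finset.prod_ne_zero_iff.2 fun i _ => ho i)).ne'
  have dd : DifferentiableAt ℝ (L.dd d) z :=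
    (((cd_diff (hb z hz).self_of_nhds).mul (cd_diff (m8 L.r z ho).1.self_of_nhds)).mul
      (ns (m6 L.G z ho))).mul ((ns (m5 L.T z)).inv (x0 _))
  have d0 : L.dd d z ≠ 0 := div_ne_zero (mul_ne_zero (mul_ne_zero (hU z hz).2.2.2.2.1.ne'
    (m8 L.r z ho).2.ne') (normSq_pos.2 (m9 L.G 0 z ho).2.1).ne') (x0 _)
  have dl : DifferentiableAt ℝ (fun y => Real.log (v y * normSq (xs c Finset.univ y))) z :=
    ((cd_diff (hT.vsm z hz)).mul (ns (m5 _ z))).log (mul_ne_zero (hT.vpos z hz).ne' (x0 _))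
  obtain ⟨e1, e2⟩ := hEXP n (L.dd d) χ _ F (L.vh p V d) z dd d0 (cd_diff (hχ z hz).2.2.1) dl dF dX
  have e3 : hat c L.G L.T (p + 1) (fun J => D.dl L.T p V J d) z = hat c L.G L.T (p + 1)
      (fun J x => if ∀ i ∈ J, c i ≠ none then del c (fun I => V I d) J x else 0) z := by
    simp only [hat]
    congr 1
    refine Finset.sum_congr rfl fun J hJ => ?_
    simp only [Ad.dl, hJ, hz, true_and, hc]
  refine ⟨?_, ?_⟩
  · have a1 : ∑ j, L.nab d j F z * star (L.vh p V d z j) = (∑ j, dzb j F z * star (L.vh p V d z j))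
        - L.s * F z * ∑ j, L.eta d j z * star (L.vh p V d z j) := by
      rw [Finset.mul_sum, ← Finset.sum_sub_distrib]
      exact Finset.sum_congr rfl fun j _ => by rw [Lv.nab]; ring
    have a2 : star ((L.s : ℂ) * ∑ j, star (L.eta d j z) * L.vh p V d z j) =
        L.s * ∑ j, L.eta d j z * star (L.vh p V d z j) := by
      have a3 : star (L.s : ℂ) = L.s := conj_ofReal _
      rw [star_mul', star_sum, a3]
      simp only [star_mul', star_star]
    rw [e1, a1, star_add, a2]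
    ring
  · refine e2.trans ?_
    have e4 : app (L.vh p V d) (fun y => (Real.log (v y * normSq (xs c Finset.univ y)) : ℝ)) z =
        app (fun x j => hat c L.G L.T p (fun I x' => V I d x' j) x) (lg c v) z := rfl
    rw [e3, star_sub, e4]
    ring

end Pool.Agent.Lib.EX
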