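import Pool.Agent.Lib.EX.Blue

/-! Project ex41: the terms with a derivative of the partition of unity. -/

open scoped Classical Topology ContDiff ComplexOrder Matrix
open Set MeasureTheory Complex Metric Filter

noncomputable section

namespace Pool.Agent.Lib.EX

open Pool.Agent.Lib.SV (E)
open Pool.Agent.Lib.HS32
open Pool.Agent.Lib.EXA (Val SmN emb)

namespace ML2

variable {n : ℕ}

theorem smN_of {F : Type} [NormedAddCommGroup F] [NormedSpace ℝ F] {g : E n → F} {z : E n}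
    (hz : z ∈ B2 n) (h : ∀ y ∈ B2 n, ContDiffAt ℝ ∞ g y) : SmN g z :=
  (isOpen_ball.eventually_mem hz).mono h

theorem cd_of_hol {g : E n → E n} (h : ∀ y ∈ B2 n, DifferentiableAt ℂ g y) (j : Fin n) :
    ∀ y ∈ B2 n, ContDiffAt ℝ ∞ (fun x => g x j) y := fun y hy =>
  contDiffAt_pi.1 (mCHN n g y ((isOpen_ball.eventually_mem hy).mono h)).1 j

end ML2

open ML2 in
theorem bML2 (hCHG : St_CHG) (hLOC : St_LOC0) (hPRD : St_PRD) (hQ4 : St_Q4) (hUT : St_UT)
    (hTRF : St_TRF) (hRES : St_RES) (hINC : St_INC) (hMOD : St_MOD) (hVAL : EXA.St_VAL) :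
    St_ML2 := by
  intro n M _ ι _ _ D κ _ L p V F K N v hV hN hK hF
  obtain ⟨-, -, -, v1, -, -, v2, -⟩ := hVAL
  obtain ⟨u1, u2⟩ := hUT n M ι D κ L
  obtain ⟨-, t1, -⟩ := hTRF n M ι D
  have hT : ∀ i ∈ L.T, L.r i = 0 := fun i hi => (L.rT i hi).1
  have tst : ∀ d, Tst (D.c d) (v d) := fun d => ⟨D.inj d, hN.sm d, hN.pos d⟩
  have hχ : ∀ d, ∀ z ∈ B2 n, ContDiffAt ℝ ∞ (fun x => ((D.rd (D.χ d) d x : ℝ) : ℂ)) z :=
    fun d z hz => cd_ofReal (t1 d z hz).2.2.1
  have nul : ∀ d q (Q : E n → ℂ), ∀ z ∈ B2 n, Wt (D.c d) L.G L.T q Q z → Nul (D.c d) L.r q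
      (fun y => (L.dd d y : ℝ) * (D.rd F d y * star (Q y))) z := fun d q Q z hz hQ =>
    (hPRD n ι (D.c d) L.G L.r L.T q (L.b d) (D.rd F d) Q z
      (smN_of hz fun y hy => (u1 d y hy).2.2.2.1) hT).1 K hK (hF d z hz)
      ((hINC n ι (D.c d) L.G L.r L.T q Q z).2.2.2.2.2.2.2.2.2.2.2.2.1 hT hQ)
  have hB : ∀ z : E n, ‖z‖ ≤ 1 → z ∈ B2 n := fun z hz => mem_ball_zero_iff.2 (by linarith)
  set A : D.A → E n → ℂ := fun d =>
    app (L.vh p V d) fun x => ((D.rd (D.χ d) d x : ℝ) : ℂ) with hA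
  set R : D.A → M.X → ℂ := fun a => (D.e a).source.indicator fun y => A a (D.e a y) with hR
  have hRA : ∀ a, ∀ z ∈ B2 n, D.rd (R a) a z = A a z := fun a z hz => by
    simp only [Ad.rd, hR, indicator_of_mem (t1 a z hz).1, (t1 a z hz).2.1]
  have hcut : ∀ d t, ∀ z ∈ B2 n, cut (D.c d) (v d) t z = ((D.rd N d z ^ t : ℝ) : ℂ) :=
    fun d t z hz => by rw [cut, hN.rep d z hz]
  have wA : ∀ d, ∀ z ∈ B2 n, Wt (D.c d) L.G L.T (p + 1) (A d) z := by
    intro d z hz
    have m := (hMOD n ι (D.c d) L.G L.r L.T (p + 1)).2.2.1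
    refine m.cong _ _ z (m.sum _ Finset.univ (fun j =>
      dz j (fun x => ((D.rd (D.χ d) d x : ℝ) : ℂ)) *
        hat (D.c d) L.G L.T p fun I y => V I d y j) z fun j _ => ?_) (.of_forall fun y _ => ?_)
    · refine m.mul _ _ z (smN_of hz fun y hy => cd_dz (hχ d y hy) j) ?_
      have r := fun F => hRES n ι (D.c d) L.G L.T p (fun I y => V I d y j) 0 F 0 z (D.inj d)
      exact ((r _).1 ((r 0).2.2.2.2.2.2.2.2.1 fun I hI =>
        smN_of hz (cd_of_hol ((hV I hI).hol d) j))).1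
    · simp only [hA, app, Finset.sum_apply, Pi.mul_apply, Lv.vh]
      exact Finset.sum_congr rfl fun j _ => mul_comm _ _
  have zA : ∀ d, ∀ z ∈ B2 n, 1 < ‖z‖ → A d z = 0 := by
    intro d z hz h1
    have e : (fun x => ((D.rd (D.χ d) d x : ℝ) : ℂ)) =ᶠ[𝓝 z] fun _ => 0 := by
      filter_upwards [isOpen_ball.eventually_mem hz,
        (isOpen_lt continuous_const continuous_norm).eventually_mem h1] with y hy hy'
      rw [(t1 d y hy).2.2.2 hy', ofReal_zero]
    simp only [hA, app, dz_congr e, dz_const, mul_zero, Finset.sum_const_zero]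
  have i1 := fun d => (hLOC n ι (D.c d) (v d) L.r (p + 1)
    (fun y => (L.dd d y : ℝ) * (D.rd F d y * star (A d y))) (tst d) L.r0
    (fun z hz h1 => by simp only [zA d z hz h1, star_zero, mul_zero])
    (fun z hz => nul d _ _ z (hB z hz) (wA d z (hB z hz)))).1
  have i2 := fun b => (hLOC n ι (D.c b) (v b) L.r p
    ((fun x => ((D.rd (D.χ b) b x : ℝ) : ℂ)) * fun y => (L.dd b y : ℝ) *
      (D.rd F b y * star (D.rd (fun x => ∑ a, R a x) b y))) (tst b) L.r0
    (fun z hz h1 => by simp only [Pi.mul_apply, (t1 b z hz).2.2.2 h1, ofReal_zero, zero_mul])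
    (fun z hz => (hMOD n ι (D.c b) L.G L.r L.T p).2.2.2.2.2.2.mul _ _ z
      (smN_of (hB z hz) (hχ b)) (nul b _ _ z (hB z hz) (hQ4 n M ι D κ L p V hV b z (hB z hz))))).2
  have h3 := v2 _ Finset.univ _ _ fun b _ => i2 b
  rw [Finset.sum_const_zero] at h3
  refine v1 _ _ _ h3 ?_
  filter_upwards [eventually_all.2 i1] with t ht
  have e1 : ∀ a, EqOn (fun z => cut (D.c a) (v a) t z * ((L.dd a z : ℝ) *
      (D.rd F a z * star (A a z)))) (fun z => (L.dd a z : ℝ) *
        D.rd (fun x => ((N x ^ t : ℝ) : ℂ) * (F x * star (R a x))) a z) (B2 n) := by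
    intro a z hz
    simp only [hcut a t z hz, ← hRA a z hz, Ad.rd]
    ring
  have c := fun a => hCHG n M ι D L.dd (fun x => ((N x ^ t : ℝ) : ℂ) * (F x * star (R a x))) a
    (fun a b x h h' => (u2 a b x h h').2.2.2)
    (fun x hx => by
      by_contra h
      exact hx (by simp only [hR, indicator_of_notMem h, star_zero, mul_zero]))
    ((ht a).1.congr_fun (e1 a) measurableSet_ball)
  rw [← Finset.mul_sum, ← Finset.mul_sum]
  congr 1
  rw [Finset.sum_congr rfl fun a _ =>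
    (setIntegral_congr_fun measurableSet_ball (e1 a)).trans (c a).2, Finset.sum_comm]
  refine Finset.sum_congr rfl fun b _ => ?_
  rw [← integral_finsetSum _ fun a _ => (c a).1 b]
  refine setIntegral_congr_fun measurableSet_ball fun z hz => ?_
  simp only [hcut b t z hz, Pi.mul_apply, Ad.rd, star_sum, Finset.mul_sum]
  exact Finset.sum_congr rfl fun a _ => by ring

end Pool.Agent.Lib.EX
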