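import Pool.Agent.Lib.EX.Blue
import Pool.Agent.Lib.EX.K68A

/-! Project ex41: monomials in the equations of the components, projections on the strata. -/

open scoped Classical Topology ContDiff ComplexOrder Matrix
open Set MeasureTheory Complex Metric Filter

set_option linter.unusedVariables false
set_option linter.unusedSectionVars false

noncomputable section

namespace Pool.Agent.Lib.EX

open Pool.Agent.Lib.SV (E)
open Pool.Agent.Lib.HS32
open Pool.Agent.Lib.EXA (Val SmN emb)
open K68 (pz)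

namespace MON

variable {n : ℕ} {ι : Type} [Fintype ι] [DecidableEq ι] {c : ι → Option (Fin n)} {z : E n}
  {i : ι} {j : Fin n} {I : Finset ι}

theorem xi_none (h : c i = none) : xi c i = fun _ => 1 := by
  funext z
  simp [xi, h]

theorem xi_some (h : c i = some j) : xi c i = fun z => z j := by
  funext z
  simp [xi, h]

theorem xi_cases (c : ι → Option (Fin n)) (i : ι) :
    (c i = none ∧ xi c i = fun _ => 1) ∨ ∃ j, c i = some j ∧ xi c i = fun z => z j := by
  cases h : c i with
  | none => exact Or.inl ⟨rfl, xi_none h⟩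
  | some j => exact Or.inr ⟨j, rfl, xi_some h⟩

theorem diff_xi (c : ι → Option (Fin n)) (i : ι) : Differentiable ℂ (xi c i) := by
  rcases xi_cases c i with ⟨-, h⟩ | ⟨j, -, h⟩ <;> rw [h] <;> fun_prop

theorem cd_xi (c : ι → Option (Fin n)) (i : ι) : ContDiff ℝ ∞ (xi c i) := by
  rcases xi_cases c i with ⟨-, h⟩ | ⟨j, -, h⟩ <;> rw [h] <;> fun_prop

theorem dR_xi (c : ι → Option (Fin n)) (i : ι) (z : E n) : DifferentiableAt ℝ (xi c i) z :=
  cd_diff (cd_xi c i).contDiffAt

theorem dz_xi (c : ι → Option (Fin n)) (i : ι) (j : Fin n) (z : E n) :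
    dz j (xi c i) z = if c i = some j then 1 else 0 := by
  rcases xi_cases c i with ⟨h, e⟩ | ⟨k, h, e⟩
  · simp [h, e]
  · simp [h, e, dz_coord]

theorem dzb_xi (c : ι → Option (Fin n)) (i : ι) (j : Fin n) (z : E n) :
    dzb j (xi c i) z = 0 := by
  rcases xi_cases c i with ⟨h, e⟩ | ⟨k, h, e⟩
  · simp [e]
  · simp [e, dzb_coord]

theorem off_of (h : ∀ j, z j ≠ 0) : Off c z := fun i => by
  rcases xi_cases c i with ⟨-, e⟩ | ⟨k, -, e⟩ <;> simp [e, h]

theorem off_ev (h : Off c z) : ∀ᶠ y in 𝓝 z, Off c y :=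
  eventually_all.2 fun i => (diff_xi c i).continuous.continuousAt.eventually_ne (h i)

theorem off_freq (c : ι → Option (Fin n)) (z : E n) : ∃ᶠ y in 𝓝 z, Off c y :=
  (K68.freq_ne z Finset.univ).mono fun w hw => off_of fun j => hw.1 j (Finset.mem_univ j)

theorem off_dense (c : ι → Option (Fin n)) : Dense {z | Off c z} :=
  fun z => mem_closure_iff_frequently.2 (off_freq c z)

theorem off_ae (c : ι → Option (Fin n)) : ∀ᵐ z, Off c z := by
  have : ∀ᵐ z : E n, ∀ j, z j ≠ 0 :=
    ae_all_iff.2 fun j => Measure.ae_eval_ne (fun _ : Fin n => (volume : Measure ℂ)) j 0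
  exact this.mono fun z hz => off_of hz

theorem diff_xs (c : ι → Option (Fin n)) (J : Finset ι) : Differentiable ℂ (xs c J) :=
  fun z => (HasFDerivAt.finsetProd fun i _ => (diff_xi c i z).hasFDerivAt).differentiableAt

theorem diff_xm {G : ι → ℤ} (h : ∀ i, xi c i z ≠ 0 ∨ 0 ≤ G i) : DifferentiableAt ℂ (xm c G) z :=
  (HasFDerivAt.finsetProd fun i _ => ((diff_xi c i z).zpow (h i)).hasFDerivAt).differentiableAt

theorem cd_nsq (c : ι → Option (Fin n)) (i : ι) : ContDiff ℝ ∞ fun y => normSq (xi c i y) := by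
  have e : (fun y => normSq (xi c i y)) = fun y => (xi c i y * star (xi c i y)).re := by
    funext y
    rw [star_def, mul_conj, ofReal_re]
  rw [e]
  exact contDiff_iff_contDiffAt.2 fun y =>
    cd_re ((cd_xi c i).contDiffAt.mul (cd_star (cd_xi c i).contDiffAt))

theorem cd_xr (r : ι → ℝ) (h : Off c z) : ContDiffAt ℝ ∞ (xr c r) z :=
  contDiffAt_prod fun i _ => (cd_nsq c i).contDiffAt.rpow_const_of_ne (normSq_pos.2 (h i)).ne'

theorem xr_pos (r : ι → ℝ) (h : Off c z) : 0 < xr c r z :=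
  Finset.prod_pos fun i _ => Real.rpow_pos_of_pos (normSq_pos.2 (h i)) _

theorem xm_add (G G' : ι → ℤ) (h : Off c z) : xm c (G + G') z = xm c G z * xm c G' z := by
  rw [xm, xm, xm, ← Finset.prod_mul_distrib]
  exact Finset.prod_congr rfl fun i _ => zpow_add₀ (h i) _ _

theorem xm_ne (G : ι → ℤ) (h : Off c z) : xm c G z ≠ 0 :=
  Finset.prod_ne_zero_iff.2 fun i _ => zpow_ne_zero _ (h i)

theorem xm_neg (G : ι → ℤ) (z : E n) : xm c (-G) z = (xm c G z)⁻¹ := by
  rw [xm, xm, ← Finset.prod_inv_distrib]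
  exact Finset.prod_congr rfl fun i _ => zpow_neg _ _

theorem xm_ind (J : Finset ι) (z : E n) : xm c (fun i => if i ∈ J then 1 else 0) z = xs c J z := by
  rw [xm, xs, ← Finset.univ_inter J, ← Finset.prod_ite_mem, Finset.univ_inter]
  exact Finset.prod_congr rfl fun i _ => by split_ifs <;> simp

/-- The normal coordinates. -/
def nm (c : ι → Option (Fin n)) (I : Finset ι) : Finset (Fin n) := Finset.univ.filter (Nm c I)

theorem mem_nm : j ∈ nm c I ↔ Nm c I j := by simp [nm]

theorem prj_eq (c : ι → Option (Fin n)) (I : Finset ι) : prj c I = pz (nm c I) := by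
  funext z j
  simp only [prj, pz, mem_nm]

theorem sl_ne (h : Sl c I z) (hi : i ∈ I) : c i ≠ none := fun e => by
  have := h i hi
  rw [xi_none e] at this
  exact one_ne_zero this

theorem sl_nm (h : Sl c I z) : ∀ j ∈ nm c I, z j = 0 := fun j hj => by
  obtain ⟨i, hi, e⟩ := mem_nm.1 hj
  have := h i hi
  rwa [xi_some e] at this

theorem sl_of (h : ∀ i ∈ I, c i ≠ none) (hz : ∀ j ∈ nm c I, z j = 0) : Sl c I z := fun i hi => by
  rcases xi_cases c i with ⟨a, -⟩ | ⟨k, a, e⟩
  · exact absurd a (h i hi)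
  · rw [e]
    exact hz k (mem_nm.2 ⟨i, hi, a⟩)

theorem not_nm (hc : Inj c) (hi : i ∉ I) (h : c i = some j) : j ∉ nm c I := fun hj => by
  obtain ⟨i', hi', e⟩ := mem_nm.1 hj
  exact hi (hc i i' j h e ▸ hi')

theorem xi_prj (hc : Inj c) (hi : i ∉ I) (z : E n) : xi c i (prj c I z) = xi c i z := by
  rcases xi_cases c i with ⟨-, e⟩ | ⟨k, a, e⟩
  · rw [e]
  · rw [e, prj_eq]
    exact K68.pz_not_mem (not_nm hc hi a)

theorem dz_prod (s : Finset ι) {f : ι → E n → ℂ} {a : ι → ℂ}
    (hf : ∀ i, DifferentiableAt ℝ (f i) z) (ha : ∀ i, dz j (f i) z = f i z * a i) :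
    dz j (fun y => ∏ i ∈ s, f i y) z = (∏ i ∈ s, f i z) * ∑ i ∈ s, a i := by
  induction s using Finset.induction_on with
  | empty => simp
  | insert i s hi ih =>
    have d : DifferentiableAt ℝ (fun y => ∏ i ∈ s, f i y) z :=
      (HasFDerivAt.finsetProd fun i _ => (hf i).hasFDerivAt).differentiableAt
    simp only [Finset.prod_insert hi, Finset.sum_insert hi]
    rw [dz_mul (hf i) d, ih, ha]
    ring

theorem app_prod (X : E n → E n) {f : ι → E n → ℂ} {a : ι → ℂ}
    (hf : ∀ i, DifferentiableAt ℝ (f i) z)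
    (ha : ∀ i j, dz j (f i) z = f i z * (a i * dz j (xi c i) z / xi c i z)) :
    app X (fun y => ∏ i, f i y) z =
      (∏ i, f i z) * ∑ i, a i * (c i).elim 0 (X z) / xi c i z := by
  have e : ∀ i, (c i).elim 0 (X z) = ∑ j, X z j * dz j (xi c i) z := fun i => by
    simp only [dz_xi]
    cases c i <;> simp
  simp only [app, e, dz_prod Finset.univ hf (ha · _), Finset.mul_sum, Finset.sum_div]
  rw [Finset.sum_comm]
  exact Finset.sum_congr rfl fun i _ => Finset.sum_congr rfl fun j _ => by ring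

theorem app_xm (X : E n → E n) (G : ι → ℤ) (h : Off c z) :
    app X (xm c G) z = xm c G z * ∑ i, G i * (c i).elim 0 (X z) / xi c i z := by
  refine app_prod X (f := fun i y => xi c i y ^ G i)
    (fun i => ((diff_xi c i z).zpow (Or.inl (h i))).restrictScalars ℝ) fun i j => ?_
  rw [dz_comp (hasDerivAt_zpow (G i) _ (Or.inl (h i))) (dR_xi c i z), zpow_sub_one₀ (h i)]
  ring

theorem app_xr (X : E n → E n) (r : ι → ℝ) (h : Off c z) :
    app X (fun y => (xr c r y : ℂ)) z =
      (xr c r z : ℝ) * ∑ i, r i * (c i).elim 0 (X z) / xi c i z := by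
  simp only [xr, ofReal_prod]
  refine app_prod X (f := fun i y => ((normSq (xi c i y) ^ r i : ℝ) : ℂ))
    (fun i => cd_diff (cd_ofReal
      ((cd_nsq c i).contDiffAt.rpow_const_of_ne (normSq_pos.2 (h i)).ne'))) fun i j => ?_
  have n0 := (normSq_pos.2 (h i)).ne'
  have e : (fun y => (normSq (xi c i y) : ℂ)) = fun y => xi c i y * star (xi c i y) := by
    funext y
    rw [star_def, mul_conj]
  have s0 : star (xi c i z) ≠ 0 := star_ne_zero.2 (h i)
  have x0 := h i
  rw [dz_comp_real (u := fun y => normSq (xi c i y)) (Real.hasDerivAt_rpow_const (Or.inl n0))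
    (cd_diff (cd_nsq c i).contDiffAt), e, dz_mul (dR_xi c i z) (diff_star (dR_xi c i z)),
    dz_star (dR_xi c i z), dzb_xi, Real.rpow_sub_one n0]
  push_cast
  rw [congrFun e z, star_zero]
  field_simp
  ring

theorem sl_dense (hc : Inj c) {f : E n → ℂ} (hz : Sl c I z) (hf : ContinuousAt f z)
    (e : ∀ᶠ y in 𝓝 z, Sl c I y → (∀ i ∉ I, xi c i y ≠ 0) → f y = 0) : f z = 0 := by
  refine K68.eq_of_off (I := (nm c I)ᶜ) (g := fun _ => 0) hf continuousAt_const
    (e.mono fun w hw h1 h2 => hw (sl_of (fun i => sl_ne hz) fun j hj => ?_) fun i hi => ?_)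
  · rw [h2 j (by simpa using hj)]
    exact sl_nm hz j hj
  · rcases xi_cases c i with ⟨-, e⟩ | ⟨k, a, e⟩
    · simp [e]
    · rw [e]
      exact h1 k (Finset.mem_compl.2 (not_nm hc hi a))

end MON

open MON in
theorem bMON : St_MON := by
  intro n ι _ _ c
  refine ⟨fun z => off_ev, off_dense c, off_ae c, fun i z => .of_forall (diff_xi c i),
    fun J z => .of_forall (diff_xs c J),
    fun G z h => (off_ev h).mono fun y hy => diff_xm fun i => Or.inl (hy i),
    fun a z => .of_forall fun y => diff_xm fun i => Or.inr (Int.natCast_nonneg _),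
    fun r z h => ⟨(off_ev h).mono fun y => cd_xr r, xr_pos r h⟩,
    fun G G' z h => ⟨xm_add G G' h, xm_ne G h, xm_neg G z⟩, xm_ind, fun I z => ?_,
    fun I f z j h => ?_, fun I f g z j hz hj hf hg e => ?_, fun hc => ⟨fun I i z hi => xi_prj hc hi z,
      dz_xi c, fun X G z => app_xm X G, fun X r z => app_xr X r, fun I f z => sl_dense hc⟩⟩
  · rw [prj_eq]
    exact ⟨K68.norm_pz_le, K68.pz_idem, .of_forall (K68.diff_pz _), fun h => K68.pz_eq_self (sl_nm h),
      fun h => sl_of h fun j => K68.pz_mem, fun h i => sl_ne h⟩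
  · rw [prj_eq] at h ⊢
    rw [K68.dz_pz h, K68.dzb_pz h]
    simp only [mem_nm, and_self]
  · exact K68.dz_strat (sl_nm hz) hf hg (e.mono fun w hw h => hw (sl_of (fun i => sl_ne hz) h))
      fun h => hj (mem_nm.1 h)

end Pool.Agent.Lib.EX
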