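import Pool.Agent.Lib.EX.Blue

/-! Products against the density. -/

open scoped Classical Topology ContDiff ComplexOrder Matrix
open Set MeasureTheory Complex Metric Filter

set_option linter.unusedSectionVars false

noncomputable section

namespace Pool.Agent.Lib.EX

open Pool.Agent.Lib.SV (E)
open Pool.Agent.Lib.HS32
open Pool.Agent.Lib.EXA (Val SmN emb)

namespace PRD

variable {n : ℕ} {ι : Type} [Fintype ι] [DecidableEq ι] {c : ι → Option (Fin n)} {r : ι → ℝ}
  {p : ℕ} {z : E n} {T J J' : Finset ι}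

/-- Minus the indicator of a set. -/
def ng (J : Finset ι) : ι → ℤ := fun i => if i ∈ J then -1 else 0

theorem xm_add (h : Off c z) (G K : ι → ℤ) : xm c (G + K) z = xm c G z * xm c K z := by
  simp only [xm, Pi.add_apply, fun i => zpow_add₀ (h i), Finset.prod_mul_distrib]

theorem xm_ne (h : Off c z) (G : ι → ℤ) : xm c G z ≠ 0 :=
  Finset.prod_ne_zero_iff.2 fun i _ => zpow_ne_zero _ (h i)

theorem xm_neg (G : ι → ℤ) : xm c (-G) z = (xm c G z)⁻¹ := by
  simp only [xm, Pi.neg_apply, zpow_neg, Finset.prod_inv_distrib]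

theorem xs_ne (h : Off c z) (J : Finset ι) : xs c J z ≠ 0 :=
  Finset.prod_ne_zero_iff.2 fun i _ => h i

theorem xm_ng (J : Finset ι) : xm c (ng J) z = (xs c J z)⁻¹ := by
  have e : ∀ i, xi c i z ^ ng J i = if i ∈ J then (xi c i z)⁻¹ else 1 := fun i => by
    rw [ng]
    split_ifs <;> simp
  simp only [xm, xs, e, Finset.prod_ite_mem, Finset.univ_inter, Finset.prod_inv_distrib]

theorem xs_sd (h : Off c z) (hJ : J ⊆ T) : xs c (T \ J) z = xs c T z * (xs c J z)⁻¹ := by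
  rw [eq_mul_inv_iff_mul_eq₀ (xs_ne h J)]
  exact Finset.prod_sdiff hJ

theorem nulS {τ : Type} (S : Finset τ) (P Q : τ → ι → ℤ) (s : τ → E n → ℂ) {Φ : E n → ℂ}
    (hs : ∀ t, SmN (s t) z) (hh : ∀ t ∈ S, Harm r p (P t) (Q t))
    (he : ∀ᶠ y in 𝓝 z, Off c y →
      Φ y = (xr c r y : ℝ) * ∑ t ∈ S, xm c (P t) y * star (xm c (Q t) y) * s t y) :
    Nul c r p Φ z :=
  ⟨S, inferInstance, fun t => P t, fun t => Q t, fun t => s t, fun t => hs t,
    fun t => hh t t.2, he.mono fun y hy h => by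
      rw [hy h, ← Finset.sum_coe_sort S]⟩

theorem harm {P Q : ι → ℤ} (hQ : ∀ i, r i = 0 → Q i = ng J i) (hJ : ∀ i ∈ J, r i = 0)
    (h : J.card < p ∨ (J.card = p ∧ ∃ i ∈ J, 0 ≤ P i)) : Harm r p P Q := by
  have e : (Finset.univ.filter fun i => r i = 0 ∧ Q i = -1) = J := by
    ext i
    simp only [Finset.mem_filter, Finset.mem_univ, true_and]
    refine ⟨fun ⟨h1, h2⟩ => ?_, fun h1 => ⟨hJ i h1, by rw [hQ i (hJ i h1), ng, if_pos h1]⟩⟩
    by_contra h3
    rw [hQ i h1, ng, if_neg h3] at h2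
    omega
  refine ⟨fun i hi => ?_, ?_⟩
  · rw [hQ i hi, ng]
    split_ifs <;> omega
  · rw [e]
    exact h.imp id fun ⟨h1, i, h2, h3⟩ =>
      ⟨h1, i, hJ i h2, by rw [hQ i (hJ i h2), ng, if_pos h2], h3⟩

theorem harm2 (hT : ∀ i ∈ T, r i = 0) (hJ : J ∈ lt T (p + 1)) (h1 : J'.card ≤ p)
    (h2 : J.card = p → J' ≠ J) : Harm r p (ng J') (ng J) := by
  simp only [lt, Finset.mem_filter, Finset.mem_powerset] at hJ
  refine harm (fun _ _ => rfl) (fun i hi => hT i (hJ.1 hi)) ?_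
  rcases (Nat.lt_succ_iff.1 hJ.2).lt_or_eq with h | h
  · exact Or.inl h
  · refine Or.inr ⟨h, ?_⟩
    by_contra h3
    refine h2 h (Finset.eq_of_subset_of_card_le (fun i hi => ?_) (by omega)).symm
    by_contra h4
    exact h3 ⟨i, hi, by rw [ng, if_neg h4]⟩

theorem sm3 {b : E n → ℝ} {s s' : E n → ℂ} (hb : SmN b z) (hs : SmN s z) (hs' : SmN s' z) :
    SmN (fun y => (b y : ℂ) * (s y * star (s' y))) z := by
  filter_upwards [hb, hs, hs'] with y h1 h2 h3
  exact (cd_ofReal h1).mul (h2.mul (cd_star h3))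

theorem prod (h : Off c z) (G : ι → ℤ) (b : E n → ℝ) {A B : Finset (Finset ι)}
    (hA : ∀ J ∈ A, J ⊆ T) (hB : ∀ J ∈ B, J ⊆ T) (s s' : Finset ι → ℂ) :
    ((den c G r T b z : ℝ) : ℂ) * ((xm c (-G) z * ∑ J ∈ A, xs c (T \ J) z * s J) *
      star (xm c (-G) z * ∑ J ∈ B, xs c (T \ J) z * s' J)) = (xr c r z : ℝ) * ∑ t ∈ A ×ˢ B,
        xm c (ng t.1) z * star (xm c (ng t.2) z) * ((b z : ℂ) * (s t.1 * star (s' t.2))) := by
  have h1 := xm_ne h G
  have h2 := xs_ne h T
  have h3 : star (xm c G z) ≠ 0 := star_ne_zero.2 h1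
  have h4 : star (xs c T z) ≠ 0 := star_ne_zero.2 h2
  rw [Finset.sum_congr rfl fun J hJ => by rw [xs_sd h (hA J hJ)],
    Finset.sum_congr (s₁ := B) rfl fun J hJ => by rw [xs_sd h (hB J hJ)], Finset.sum_product]
  simp only [den, ofReal_div, ofReal_mul, normSq_eq_conj_mul_self, ← RCLike.star_def, xm_neg, xm_ng,
    star_mul', star_sum, star_inv₀, Finset.mul_sum, Finset.sum_mul]
  rw [Finset.sum_comm]
  refine Finset.sum_congr rfl fun J _ => Finset.sum_congr rfl fun J' _ => ?_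
  field_simp

theorem sub_lt {q : ℕ} : ∀ J ∈ lt T q, J ⊆ T := fun _ h =>
  Finset.mem_powerset.1 (Finset.mem_filter.1 h).1

end PRD

open PRD

theorem bPRD : St_PRD := by
  intro n ι _ _ c G r T p b F Q z hb hT
  refine ⟨fun K hK ⟨s, s1, s2⟩ ⟨s', s3, s4⟩ => ?_, fun ⟨s, s1, s2⟩ ⟨s', s3, s4⟩ => ?_,
    fun ρ ρ' ⟨s, s1, s2, s5⟩ ⟨s', s3, s4, s6⟩ => ?_⟩
  · refine nulS (wq r T p) (fun _ => G + -K + ng T) (fun J => ng (fr r) + ng J) _
      (fun J => sm3 hb s1 (s3 J)) (fun J hJ => ?_) ?_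
    · simp only [wq, fr, Finset.mem_filter, Finset.mem_powerset] at hJ
      have h0 : ∀ i ∈ J, r i = 0 := fun i hi => by simpa using hJ.1 hi
      refine harm (fun i hi => by simp [ng, fr, hi]) h0 (hJ.2.imp id fun ⟨h1, i, h2⟩ => ?_)
      rw [Finset.mem_sdiff] at h2
      refine ⟨h1, i, h2.1, ?_⟩
      have := hK i h2.2 (h0 i h2.1)
      simp only [Pi.add_apply, Pi.neg_apply, ng, if_neg h2.2]
      omega
    · filter_upwards [s2, s4] with y h1 h2 h
      have h3 := xm_ne h G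
      have h4 := xs_ne h T
      have h5 : star (xm c G y) ≠ 0 := star_ne_zero.2 h3
      have h6 : star (xs c T y) ≠ 0 := star_ne_zero.2 h4
      rw [h1 h, h2 h]
      simp only [den, ofReal_div, ofReal_mul, normSq_eq_conj_mul_self, ← RCLike.star_def, xm_add h,
        xm_neg, xm_ng, star_mul', star_sum, star_inv₀, star_div₀, Finset.mul_sum]
      refine Finset.sum_congr rfl fun J _ => ?_
      field_simp
  · refine nulS (lt T p ×ˢ lt T (p + 1)) (fun t => ng t.1) (fun t => ng t.2) _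
      (fun t => sm3 hb (s1 t.1) (s3 t.2)) (fun t ht => ?_) ?_
    · rw [Finset.mem_product] at ht
      have h1 := (Finset.mem_filter.1 ht.1).2
      exact harm2 hT ht.2 h1.le fun h2 h3 => by rw [h3] at h1; omega
    · filter_upwards [s2, s4] with y h1 h2 h
      rw [h1 h, h2 h, prod h G b sub_lt sub_lt]
  · refine ⟨_, fun I => sm3 hb (s1 I) (s3 I), ?_, fun I hI => ?_⟩
    · refine nulS ((lt T (p + 1) ×ˢ lt T (p + 1)).filter fun t => ¬ (t.2.card = p ∧ t.1 = t.2))
        (fun t => ng t.1) (fun t => ng t.2) _ (fun t => sm3 hb (s1 t.1) (s3 t.2))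
        (fun t ht => ?_) ?_
      · rw [Finset.mem_filter, Finset.mem_product] at ht
        exact harm2 hT ht.1.2 (Nat.lt_succ_iff.1 (Finset.mem_filter.1 ht.1.1).2)
          fun h2 h3 => ht.2 ⟨h2, h3⟩
      · filter_upwards [s2, s4] with y h1 h2 h
        rw [h1 h, h2 h, prod h G b sub_lt sub_lt, ← mul_sub, ← Finset.sum_filter_add_sum_filter_not _
          fun t : Finset ι × Finset ι => t.2.card = p ∧ t.1 = t.2, sub_eq_of_eq_add']
        congr 1
        refine Finset.sum_bij' (fun t _ => t.2) (fun I _ => (I, I)) (fun t ht => ?_)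
          (fun I hI => ?_) (fun t ht => ?_) (fun _ _ => rfl) (fun t ht => ?_)
        · simp only [Finset.mem_filter, Finset.mem_product] at ht
          exact Finset.mem_powersetCard.2 ⟨sub_lt _ ht.1.2, ht.2.1⟩
        · rw [Finset.mem_powersetCard] at hI
          simp [lt, hI.1, hI.2]
        · exact Prod.ext (Finset.mem_filter.1 ht).2.2.symm rfl
        · rw [(Finset.mem_filter.1 ht).2.2, xm_ng, normSq_eq_conj_mul_self, ← RCLike.star_def,
            star_inv₀]
          ring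
    · filter_upwards [s5 I hI, s6 I hI] with y h1 h2 h
      rw [h1 h, h2 h]

end Pool.Agent.Lib.EX
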