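import Pool.Agent.Lib.EX.Blue

/-! Block Q2: the derivative of the cut-off factor along the test field. -/

open scoped Classical Topology ContDiff
open Set Complex Metric Filter

set_option linter.unusedSectionVars false

noncomputable section

namespace Pool.Agent.Lib.EX

open Pool.Agent.Lib.SV (E)
open Pool.Agent.Lib.HS32
open Pool.Agent.Lib.EXA (SmN)

namespace Q2

variable {n : ℕ} {ι : Type} [Fintype ι] [DecidableEq ι]

theorem smn_of_hol {f : E n → ℂ} {z : E n} (h : HolN f z) : SmN f z :=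
  h.eventually_nhds.mono fun w hw => ((mHOL n f w).2.2 hw).1

theorem app_lg (hM : St_MON) {c : ι → Option (Fin n)} (hc : Inj c) (X : E n → E n)
    {v : E n → ℝ} {y : E n} (hy : Off c y) (hv : ContDiffAt ℝ ∞ v y) (h0 : 0 < v y) :
    app X (lg c v) y = app X (fun w => (v w : ℂ)) y / v y +
      ∑ i, (c i).elim 0 (X y) / xi c i y := by
  obtain ⟨-, -, -, -, -, -, -, m8, -, -, -, -, -, m14⟩ := hM n ι c
  obtain ⟨-, -, -, a4, -⟩ := m14 hc
  have hx : ∀ w, normSq (xs c Finset.univ w) = xr c 1 w := by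
    intro w
    simp [xs, xr]
  obtain ⟨hs, hp⟩ := m8 1 y hy
  have hs' : ContDiffAt ℝ ∞ (xr c 1) y := hs.self_of_nhds
  have hu : DifferentiableAt ℝ (fun w => v w * xr c 1 w) y := cd_diff (hv.mul hs')
  have hne : v y * xr c 1 y ≠ 0 := (mul_pos h0 hp).ne'
  have h1 : ∀ j, dz j (lg c v) y = ((v y * xr c 1 y)⁻¹ : ℝ) *
      (dz j (fun w => (v w : ℂ)) y * xr c 1 y + v y * dz j (fun w => (xr c 1 w : ℂ)) y) := by
    intro j
    have h2 : lg c v = fun w => ((Real.log (v w * xr c 1 w) : ℝ) : ℂ) := by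
      funext w
      rw [lg, hx]
    rw [h2, dz_comp_real (Real.hasDerivAt_log hne) hu]
    congr 1
    simp only [ofReal_mul]
    rw [dz_mul (cd_diff (cd_ofReal hv)) (cd_diff (cd_ofReal hs'))]
  have h3 := a4 X 1 y hy
  simp only [Pi.one_apply, ofReal_one, one_mul] at h3
  have h4 : app X (lg c v) y = ((v y * xr c 1 y)⁻¹ : ℝ) *
      (app X (fun w => (v w : ℂ)) y * xr c 1 y + v y * app X (fun w => (xr c 1 w : ℂ)) y) := by
    simp only [app, h1, Finset.sum_mul, Finset.mul_sum, ← Finset.sum_add_distrib]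
    refine Finset.sum_congr rfl fun j _ => ?_
    ring
  have h5 : (v y : ℂ) ≠ 0 := ofReal_ne_zero.2 h0.ne'
  have h6 : (xr c 1 y : ℂ) ≠ 0 := ofReal_ne_zero.2 hp.ne'
  rw [h4, h3]
  push_cast
  field_simp

theorem wq_single (c : ι → Option (Fin n)) (G : ι → ℤ) (r : ι → ℝ) (T : Finset ι) (q : ℕ)
    {J : Finset ι} (hJ : J ∈ wq r T q) {s : E n → ℂ} {z : E n} (hs : SmN s z) :
    WQ c G r T q (fun y => xm c (-G) y * xs c T y / xs c (fr r) y * (s y / xs c J y)) z := by
  refine ⟨fun J' => if J' = J then s else 0, fun J' => ?_, Eventually.of_forall fun y _ => ?_⟩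
  · beta_reduce
    split_ifs
    · exact hs
    · exact Eventually.of_forall fun _ => contDiffAt_const
  · rw [Finset.sum_eq_single J]
    · simp
    · intro J' _ h
      simp [h]
    · intro h
      exact absurd hJ h

theorem reindex (T : Finset ι) (p : ℕ) (F : Finset ι → ι → ℂ) :
    ∑ I ∈ T.powersetCard p, ∑ i ∈ T \ I, F I i =
      ∑ J ∈ T.powersetCard (p + 1), ∑ l ∈ J, F (J.erase l) l := by
  rw [Finset.sum_sigma', Finset.sum_sigma']
  refine Finset.sum_bij' (fun x _ => ⟨insert x.2 x.1, x.2⟩) (fun x _ => ⟨x.1.erase x.2, x.2⟩)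
    ?_ ?_ ?_ ?_ ?_
  · rintro ⟨I, i⟩ h
    simp only [Finset.mem_sigma, Finset.mem_powersetCard, Finset.mem_sdiff] at h ⊢
    exact ⟨⟨Finset.insert_subset h.2.1 h.1.1, by rw [Finset.card_insert_of_notMem h.2.2, h.1.2]⟩,
      Finset.mem_insert_self _ _⟩
  · rintro ⟨J, l⟩ h
    simp only [Finset.mem_sigma, Finset.mem_powersetCard, Finset.mem_sdiff] at h ⊢
    exact ⟨⟨(Finset.erase_subset _ _).trans h.1.1, by
      rw [Finset.card_erase_of_mem h.2, h.1.2]; rfl⟩, h.1.1 h.2, Finset.notMem_erase _ _⟩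
  · rintro ⟨I, i⟩ h
    simp only [Finset.mem_sigma, Finset.mem_powersetCard, Finset.mem_sdiff] at h
    simp only [Finset.erase_insert h.2.2]
  · rintro ⟨J, l⟩ h
    simp only [Finset.mem_sigma, Finset.mem_powersetCard] at h
    simp only [Finset.insert_erase h.2]
  · rintro ⟨I, i⟩ h
    simp only [Finset.mem_sigma, Finset.mem_powersetCard, Finset.mem_sdiff] at h
    simp only [Finset.erase_insert h.2.2]

theorem xs_ne {c : ι → Option (Fin n)} {y : E n} (hy : Off c y) (J : Finset ι) : xs c J y ≠ 0 :=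
  Finset.prod_ne_zero_iff.2 fun i _ => hy i

theorem xs_sdiff (c : ι → Option (Fin n)) {I T : Finset ι} (h : I ⊆ T) (y : E n) :
    xs c T y = xs c (T \ I) y * xs c I y := (Finset.prod_sdiff h).symm

theorem xs_erase (c : ι → Option (Fin n)) {J : Finset ι} {l : ι} (h : l ∈ J) (y : E n) :
    xs c J y = xi c l y * xs c (J.erase l) y := (Finset.mul_prod_erase _ _ h).symm

theorem hol_elim {c : ι → Option (Fin n)} {W : E n → E n} {z : E n} (h : HolN W z) (i : ι) :
    HolN (fun y => (c i).elim 0 (W y)) z := by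
  cases c i with
  | none => exact Eventually.of_forall fun _ => differentiableAt_const _
  | some j => exact h.mono fun w hw => differentiableAt_pi.1 hw j

end Q2

open Q2 in
theorem bQ2 (hM : St_MON) (hD : St_DIV) (hO : St_MOD) (hI : St_INC) (hR : St_RES) : St_Q2 := by
  intro n ι _ _ c G r T p v V z hc hz hr hv h0 hV
  obtain ⟨-, -, -, -, mW, -, -⟩ := hO n ι c G r T (p + 1)
  obtain ⟨-, -, -, -, m5, -, -, -, -, -, m11, -⟩ := hM n ι c
  have hB : ∀ᶠ y in 𝓝 z, y ∈ B2 n := isOpen_ball.mem_nhds hz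
  have hVh : ∀ I ∈ T.powersetCard p, HolN (V I) z := fun I h => hB.mono (hV I h).1
  have hWQ : ∀ F, Wt c G T (p + 1) F z → WQ c G r T (p + 1) F z := fun F =>
    (hI n ι c G r T (p + 1) F z).2.2.2.2.2.2.2.2.2.2.2.2.1 hr
  have hv0 : ∀ᶠ y in 𝓝 z, 0 < v y :=
    hv.self_of_nhds.continuousAt.eventually (lt_mem_nhds h0)
  set A : Finset ι → E n → ℂ := fun I y => app (V I) (fun w => (v w : ℂ)) y / v y with hA
  set e : Finset ι → ι → E n → ℂ := fun I i y => (c i).elim 0 (V I y) with he
  set δ : Finset ι → E n → ℂ := fun J x => if ∀ i ∈ J, c i ≠ none then del c V J x else 0 with hδ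
  have heh : ∀ I ∈ T.powersetCard p, ∀ i, HolN (e I i) z := fun I h i => hol_elim (hVh I h) i
  have t1 : WQ c G r T (p + 1) (hat c G T p A) z := by
    refine hWQ _ ((hR n ι c G T p A A _ 0 z hc).1
      ((hR n ι c G T p A A 0 0 z hc).2.2.2.2.2.2.2.2.1 fun I h => ?_)).1
    filter_upwards [hv, hv0, (hVh I h).eventually_nhds] with y h1 h2 h3
    simp only [hA, app, div_eq_mul_inv]
    refine ContDiffAt.mul (ContDiffAt.sum fun j _ => ?_)
      ((cd_ofReal h1).inv (ofReal_ne_zero.2 h2.ne'))
    exact (smn_of_hol (h3.mono fun w hw => differentiableAt_pi.1 hw j)).self_of_nhds.mul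
      (cd_dz (cd_ofReal h1) j)
  have t2 : ∀ J ∈ T.powersetCard (p + 1), WQ c G r T (p + 1)
      (fun y => xm c (-G) y * (xs c (T \ J) y * (∑ l ∈ J, e (J.erase l) l y - δ J y))) z := by
    intro J hJ
    have hJ' := Finset.mem_powersetCard.1 hJ
    have hl : ∀ l ∈ J, J.erase l ∈ T.powersetCard p := fun l h =>
      Finset.mem_powersetCard.2 ⟨(Finset.erase_subset _ _).trans hJ'.1, by
        rw [Finset.card_erase_of_mem h, hJ'.2]; rfl⟩
    have hs : HolN (fun y => ∑ l ∈ J, e (J.erase l) l y) z := by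
      have : ∀ᶠ y in 𝓝 z, ∀ l ∈ J, DifferentiableAt ℂ (e (J.erase l) l) y :=
        (Filter.eventually_all_finset J).2 fun l h => heh _ (hl l h) l
      exact this.mono fun y hy => DifferentiableAt.fun_sum hy
    refine hWQ _ ((hI n ι c G r T (p + 1) _ z).2.2.2.2.2.2.2.2.2.2.2.2.2.1 J hJ ?_).1
    by_cases hall : ∀ i ∈ J, c i ≠ none
    · have hd : HolN (fun y => ∑ l ∈ J, e (J.erase l) l y - δ J y) z := by
        filter_upwards [hs, hB] with y h1 h2
        refine h1.sub ?_
        simp only [hδ, if_pos hall, del]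
        refine DifferentiableAt.fun_sum fun l h => ?_
        have h3 : prj c J y ∈ B2 n :=
          mem_ball_zero_iff.2 ((m11 J y).1.trans_lt (mem_ball_zero_iff.1 h2))
        have h4 : HolN (V (J.erase l)) (prj c J y) :=
          (isOpen_ball.eventually_mem h3).mono (hV _ (hl l h)).1
        exact (hol_elim (c := c) h4 l).self_of_nhds.comp y (m11 J y).2.2.1.self_of_nhds
      obtain ⟨t, ht, hte⟩ := (hD n ι c _ z hc hd).1 J (Eventually.of_forall fun y hy => by
        simp only [hδ, if_pos hall, del, (m11 J y).2.2.2.1 hy, he, sub_self])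
      exact ⟨t, fun i => smn_of_hol (ht i), hte.mono fun y h _ => h⟩
    · have hall' := hall
      push Not at hall'
      obtain ⟨i, hi, hci⟩ := hall'
      refine (hI n ι c G r J 0 _ z).2.2.2.2.2.2.2.2.2.2.2.2.2.2.1 i hi (by simp [xi, hci]) ?_
      simp only [hδ, if_neg hall, sub_zero]
      exact smn_of_hol hs
  have t3 : ∀ I ∈ T.powersetCard p, ∀ i ∈ Tᶜ, WQ c G r T (p + 1)
      (fun y => xm c (-G) y * (xs c (T \ I) y * (e I i y / xi c i y))) z := by
    intro I hIp i hi
    have hI' := Finset.mem_powersetCard.1 hIp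
    have hiT : i ∉ T := Finset.mem_compl.1 hi
    have hiI : i ∉ I := fun h => hiT (hI'.1 h)
    have hsub : I ⊆ (fr r)ᶜ := fun l hl => by simp [fr, hr l (hI'.1 hl)]
    by_cases hri : r i = 0
    · have hm : insert i I ∈ wq r T (p + 1) := by
        simp only [wq, Finset.mem_filter, Finset.mem_powerset]
        refine ⟨Finset.insert_subset (by simp [fr, hri]) hsub, Or.inr ⟨?_, i, ?_⟩⟩
        · rw [Finset.card_insert_of_notMem hiI, hI'.2]
        · exact Finset.mem_sdiff.2 ⟨Finset.mem_insert_self _ _, hiT⟩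
      have hs : SmN (fun y => e I i y * xs c (fr r) y) z :=
        smn_of_hol (((heh I hIp i).and (m5 (fr r) z)).mono fun y h => h.1.mul h.2)
      refine mW.cong _ _ z (wq_single c G r T (p + 1) hm hs) (Eventually.of_forall fun y hy => ?_)
      have h1 := xs_ne hy (fr r)
      have h2 := xs_ne hy I
      have h3 := hy i
      rw [xs_sdiff c hI'.1, xs_erase c (Finset.mem_insert_self i I), Finset.erase_insert hiI]
      field_simp
    · have hm : I ∈ wq r T (p + 1) := by
        simp only [wq, Finset.mem_filter, Finset.mem_powerset]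
        exact ⟨hsub, Or.inl (by omega)⟩
      have hif : i ∈ fr r := by simp [fr, hri]
      have hs : SmN (fun y => e I i y * xs c ((fr r).erase i) y) z :=
        smn_of_hol (((heh I hIp i).and (m5 _ z)).mono fun y h => h.1.mul h.2)
      refine mW.cong _ _ z (wq_single c G r T (p + 1) hm hs) (Eventually.of_forall fun y hy => ?_)
      have h1 := xs_ne hy ((fr r).erase i)
      have h2 := xs_ne hy I
      have h3 := hy i
      rw [xs_sdiff c hI'.1, xs_erase c hif]
      field_simp
  have t4 := mW.add _ _ z (mW.add _ _ z t1 (mW.sum _ _ _ z t2))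
    (mW.sum _ _ _ z fun I h => mW.sum _ _ _ z (t3 I h))
  refine mW.cong _ _ z t4 ?_
  filter_upwards [hv, hv0, hB] with y h1 h2 h3 hy
  rw [app_lg hM hc _ hy h1 h2]
  have e1 : app (fun x j => hat c G T p (fun I x' => V I x' j) x) (fun w => (v w : ℂ)) y / v y =
      hat c G T p A y := by
    simp only [app, hat, hA, Finset.mul_sum, Finset.sum_mul, Finset.sum_div]
    rw [Finset.sum_comm]
    refine Finset.sum_congr rfl fun I _ => Finset.sum_congr rfl fun j _ => ?_
    ring
  have e2 : ∀ i, (c i).elim 0 (fun j => hat c G T p (fun I x' => V I x' j) y) / xi c i y =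
      ∑ I ∈ T.powersetCard p, xm c (-G) y * (xs c (T \ I) y * (e I i y / xi c i y)) := by
    intro i
    simp only [he]
    cases c i with
    | none => simp
    | some j =>
      simp only [Option.elim_some, hat, Finset.mul_sum, Finset.sum_div]
      refine Finset.sum_congr rfl fun I _ => ?_
      ring
  have e3 : ∀ I ∈ T.powersetCard p,
      ∑ i, xm c (-G) y * (xs c (T \ I) y * (e I i y / xi c i y)) =
        ∑ i ∈ T \ I, xm c (-G) y * (xs c (T \ insert i I) y * e I i y) +
          ∑ i ∈ Tᶜ, xm c (-G) y * (xs c (T \ I) y * (e I i y / xi c i y)) := by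
    intro I hIp
    have hI' := Finset.mem_powersetCard.1 hIp
    rw [← Finset.sum_add_sum_compl T, ← Finset.sum_sdiff hI'.1]
    have z1 : ∑ i ∈ I, xm c (-G) y * (xs c (T \ I) y * (e I i y / xi c i y)) = 0 := by
      refine Finset.sum_eq_zero fun i hi => ?_
      have : e I i y = 0 := by
        simp only [he]
        cases hci : c i with
        | none => rfl
        | some j => exact (hV I hIp).2.2 y h3 j ⟨i, hi, hci⟩
      rw [this, zero_div, mul_zero, mul_zero]
    rw [z1, add_zero]
    congr 1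
    refine Finset.sum_congr rfl fun i hi => ?_
    have := hy i
    rw [xs_erase c hi, Finset.sdiff_insert]
    field_simp
  have e4 : ∑ I ∈ T.powersetCard p, ∑ i ∈ T \ I,
      xm c (-G) y * (xs c (T \ insert i I) y * e I i y) = ∑ J ∈ T.powersetCard (p + 1),
        xm c (-G) y * (xs c (T \ J) y * ∑ l ∈ J, e (J.erase l) l y) := by
    rw [reindex T p fun I i => xm c (-G) y * (xs c (T \ insert i I) y * e I i y)]
    refine Finset.sum_congr rfl fun J _ => ?_
    rw [Finset.mul_sum, Finset.mul_sum]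
    refine Finset.sum_congr rfl fun l hl => ?_
    rw [Finset.insert_erase hl]
  rw [e1, Finset.sum_congr rfl fun i _ => e2 i, Finset.sum_comm, Finset.sum_congr rfl e3,
    Finset.sum_add_distrib, e4]
  simp only [Pi.add_apply, Finset.sum_apply, hat, mul_sub, Finset.sum_sub_distrib,
    ← Finset.mul_sum]
  ring

end Pool.Agent.Lib.EX
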