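import Pool.Agent.Lib.EX.Blue

/-! Project ex41: the divergence of the test field. -/

open scoped Classical Topology ContDiff ComplexOrder Matrix
open Set MeasureTheory Complex Metric Filter

set_option linter.unusedVariables false

noncomputable section

namespace Pool.Agent.Lib.EX

open Pool.Agent.Lib.SV (E)
open Pool.Agent.Lib.HS32
open Pool.Agent.Lib.EXA (Val SmN emb)

namespace Q3

variable {n : ℕ} {X : E n → E n} {y : E n} {f g : E n → ℂ} {a b : ℂ}

/-- The logarithmic derivative along a field. -/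
def LD (X : E n → E n) (y : E n) (f : E n → ℂ) (a : ℂ) : Prop :=
  DifferentiableAt ℝ f y ∧ app X f y = f y * a

theorem app_mul (hf : DifferentiableAt ℝ f y) (hg : DifferentiableAt ℝ g y) :
    app X (fun w => f w * g w) y = app X f y * g y + f y * app X g y := by
  simp only [app, dz_mul hf hg, Finset.sum_mul, Finset.mul_sum, ← Finset.sum_add_distrib]
  exact Finset.sum_congr rfl fun j _ => by ring

theorem LD.mul (hf : LD X y f a) (hg : LD X y g b) : LD X y (fun w => f w * g w) (a + b) :=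
  ⟨hf.1.mul hg.1, by rw [app_mul hf.1 hg.1, hf.2, hg.2]; ring⟩

theorem LD.inv (hf : LD X y f a) (h0 : f y ≠ 0) : LD X y (fun w => (f w)⁻¹) (-a) := by
  refine ⟨hf.1.inv h0, ?_⟩
  have : app X (fun w => (f w)⁻¹) y = -(app X f y / f y ^ 2) := by
    simp only [app, dz_inv hf.1 h0, Finset.sum_div, ← Finset.sum_neg_distrib]
    exact Finset.sum_congr rfl fun j _ => by ring
  rw [this, hf.2]
  field_simp

theorem coe_nsq (f : E n → ℂ) : (fun w => ((normSq (f w) : ℝ) : ℂ)) = fun w => f w * star (f w) :=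
  funext fun w => by rw [star_def, mul_conj]

theorem LD.nsq (hf : LD X y f a) (h : DifferentiableAt ℂ f y) :
    LD X y (fun w => ((normSq (f w) : ℝ) : ℂ)) a := by
  have h0 : LD X y (fun w => star (f w)) 0 := by
    refine ⟨diff_star hf.1, ?_⟩
    simp only [app, dz_star hf.1, ((mHOL n f y).1 hf.1).1 h, star_zero, mul_zero,
      Finset.sum_const_zero]
  rw [coe_nsq]
  simpa only [add_zero] using hf.mul h0

theorem LD.rpow {u : E n → ℝ} (hf : LD X y (fun w => (u w : ℂ)) a) (h0 : 0 < u y) (s : ℝ) :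
    LD X y (fun w => ((u w ^ s : ℝ) : ℂ)) (s * a) := by
  have hu : DifferentiableAt ℝ u y := reCLM.differentiableAt.comp y hf.1
  refine ⟨ofRealCLM.differentiableAt.comp y (hu.rpow_const (Or.inl h0.ne')), ?_⟩
  have h1 : app X (fun w => ((u w ^ s : ℝ) : ℂ)) y =
      ((s * u y ^ (s - 1) : ℝ) : ℂ) * app X (fun w => (u w : ℂ)) y := by
    simp only [app, dz_comp_real (Real.hasDerivAt_rpow_const (p := s) (Or.inl h0.ne')) hu,
      Finset.mul_sum]
    exact Finset.sum_congr rfl fun j _ => by ring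
  have h2 : (u y : ℂ) ≠ 0 := ofReal_ne_zero.2 h0.ne'
  rw [h1, hf.2, Real.rpow_sub_one h0.ne']
  push_cast
  field_simp

theorem LD.of (hf : DifferentiableAt ℝ f y) (h0 : f y ≠ 0) : LD X y f (app X f y / f y) :=
  ⟨hf, by field_simp⟩

theorem rdiff {F : Type} [NormedAddCommGroup F] [NormedSpace ℂ F] {f : E n → F}
    (h : DifferentiableAt ℂ f y) : DifferentiableAt ℝ f y := h.restrictScalars ℝ

theorem div_mul (hf : LD X y f a) (hX : DifferentiableAt ℝ X y) :
    ∑ j, dz j (fun w => f w * X w j) y = f y * (dv X y + a) := by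
  have : ∀ j, dz j (fun w => f w * X w j) y = X y j * dz j f y + f y * dz j (fun w => X w j) y :=
    fun j => by rw [dz_mul hf.1 (differentiableAt_pi.1 hX j), mul_comm]
  simp only [this, Finset.sum_add_distrib, ← Finset.mul_sum]
  rw [mul_add, ← hf.2, add_comm]
  rfl

variable {M : Mf n} [M.Cpt] {ι : Type} [Fintype ι] [DecidableEq ι] {D : Ad M ι} {κ : Type}
  [Fintype κ] (L : Lv D κ)

theorem one (hU : St_UT) (hM : St_MON) {I : Finset ι} (hI : I ⊆ L.T) {V : D.A → E n → E n}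
    (hV : L.Har I V) {d : D.A} (hy : y ∈ B2 n) (ho : Off (D.c d) y) :
    ∃ a, LD (V d) y (fun w => (L.dd d w : ℝ) * (xm (D.c d) (-L.G) w * xs (D.c d) (L.T \ I) w)) a ∧
      a + L.s * ∑ j, star (L.eta d j y) * V d y j = app (V d) (L.w d) y / (L.m * L.w d y) -
        L.s * (∑ l, app (V d) (L.ut l d) y * star (L.ut l d y)) / (L.nn d y : ℝ) +
        ∑ i, L.r i * (D.c d i).elim 0 (V d y) / xi (D.c d) i y := by
  obtain ⟨-, -, -, -, -, m6, -, m8, m9, m10, -, -, -, m14⟩ := hM n ι (D.c d)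
  obtain ⟨-, -, n3, n4, -⟩ := m14 (D.inj d)
  obtain ⟨u1, u2, u3, -⟩ := (hU n M ι D κ L).1 d y hy
  have hxm : ∀ G, LD (V d) y (xm (D.c d) G)
      (∑ i, G i * (D.c d i).elim 0 (V d y) / xi (D.c d) i y) := fun G =>
    ⟨rdiff (m6 G y ho).self_of_nhds, n3 _ G y ho⟩
  have hxs : ∀ J, xs (D.c d) J = xm (D.c d) fun i => if i ∈ J then 1 else 0 := fun J =>
    funext fun z => (m10 J z).symm
  have hw := L.wne d y hy
  have hnn : ((L.nn d y : ℝ) : ℂ) ≠ 0 := ofReal_ne_zero.2 u2.ne'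
  have l1 := (LD.of (X := V d) (cd_diff (cd_ofReal u3)) hnn).rpow u2 (-L.s)
  have l2 := ((LD.of (X := V d) (rdiff (L.whol d y hy)) hw).nsq (L.whol d y hy)).rpow
    (normSq_pos.2 hw) (1 / L.m)
  have l3 : LD (V d) y (fun w => ((xr (D.c d) L.r w : ℝ) : ℂ)) _ :=
    ⟨cd_diff (cd_ofReal (m8 L.r y ho).1.self_of_nhds), n4 _ L.r y ho⟩
  have l4 := (hxm L.G).nsq (m6 _ y ho).self_of_nhds
  have l5 := ((hxm fun i => if i ∈ L.T then 1 else 0).nsq (m6 _ y ho).self_of_nhds).inv
    (ofReal_ne_zero.2 (normSq_pos.2 (m9 _ 0 y ho).2.1).ne')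
  have l6 := ((((l1.mul l2).mul l3).mul l4).mul l5).mul
    ((hxm (-L.G)).mul (hxm fun i => if i ∈ L.T \ I then 1 else 0))
  refine ⟨_, by
    convert l6 using 3 with w
    · simp only [Lv.dd, den, Lv.b, hxs]
      push_cast
      rw [div_eq_mul_inv]
    · rw [hxs], ?_⟩
  have e1 : app (V d) (fun w => ((L.nn d w : ℝ) : ℂ)) y =
      ∑ l, app (V d) (L.ut l d) y * star (L.ut l d y) +
        (L.nn d y : ℝ) * ∑ j, star (L.eta d j y) * V d y j := by
    have h1 : (fun w => ((L.nn d w : ℝ) : ℂ)) = fun w => ∑ l, L.ut l d w * star (L.ut l d w) :=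
      funext fun w => by simp only [Lv.nn, ofReal_sum, star_def, mul_conj]
    have h2 : ∀ j, ((L.nn d y : ℝ) : ℂ) * star (L.eta d j y) =
        ∑ l, L.ut l d y * star (dzb j (L.ut l d) y) := fun j => by
      rw [Lv.eta, star_div₀, star_sum, star_def, conj_ofReal, mul_div_cancel₀ _ hnn]
      simp only [map_mul, conj_conj]
      exact Finset.sum_congr rfl fun l _ => mul_comm _ _
    have h3 : ∀ j, dz j (fun w => ∑ l, L.ut l d w * star (L.ut l d w)) y =
        ∑ l, dz j (L.ut l d) y * star (L.ut l d y) +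
          ∑ l, L.ut l d y * star (dzb j (L.ut l d) y) := fun j => by
      rw [dz_sum fun l _ => (cd_diff (u1 l)).fun_mul (diff_star (cd_diff (u1 l))),
        ← Finset.sum_add_distrib]
      exact Finset.sum_congr rfl fun l _ => by
        rw [dz_mul (cd_diff (u1 l)) (diff_star (cd_diff (u1 l))), dz_star (cd_diff (u1 l))]
    rw [h1, Finset.mul_sum]
    simp only [app, h3, mul_add, Finset.sum_add_distrib, ← mul_assoc, h2]
    congr 1
    · simp only [Finset.mul_sum, Finset.sum_mul]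
      rw [Finset.sum_comm]
      exact Finset.sum_congr rfl fun l _ => Finset.sum_congr rfl fun j _ => by ring
    · exact Finset.sum_congr rfl fun j _ => mul_comm _ _
  have e2 : (∑ i, (L.G i : ℂ) * (D.c d i).elim 0 (V d y) / xi (D.c d) i y) -
      (∑ i, ((if i ∈ L.T then 1 else 0 : ℤ) : ℂ) * (D.c d i).elim 0 (V d y) / xi (D.c d) i y) +
      ((∑ i, ((-L.G) i : ℂ) * (D.c d i).elim 0 (V d y) / xi (D.c d) i y) +
      ∑ i, ((if i ∈ L.T \ I then 1 else 0 : ℤ) : ℂ) * (D.c d i).elim 0 (V d y) / xi (D.c d) i y) =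
      0 := by
    rw [← Finset.sum_sub_distrib, ← Finset.sum_add_distrib, ← Finset.sum_add_distrib]
    refine Finset.sum_eq_zero fun i _ => ?_
    by_cases hi : i ∈ I
    · have : (D.c d i).elim 0 (V d y) = 0 := by
        cases h : D.c d i with
        | none => rfl
        | some j => exact hV.nm d y hy j ⟨i, hi, h⟩
      simp [this]
    · have : i ∈ L.T \ I ↔ i ∈ L.T := by simp [hi]
      simp only [this, Pi.neg_apply, Int.cast_neg]
      ring
  have hm : (L.m : ℂ) ≠ 0 := Nat.cast_ne_zero.2 L.m0.ne'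
  rw [e1]
  push_cast at e2 ⊢
  field_simp
  field_simp at e2
  linear_combination (L.m * L.w d y * (L.nn d y : ℝ)) * e2

end Q3

open Q3 in
theorem bQ3 (hVU : St_VU) (hU : St_UT) (hI : St_INC) (hM : St_MON) (hO : St_MOD) : St_Q3 := by
  intro n M _ ι _ _ D κ _ L p V hp hV d z hz
  have hB : ∀ᶠ y in 𝓝 z, y ∈ B2 n := isOpen_ball.mem_nhds hz
  have hsub : ∀ I ∈ L.T.powersetCard p, I ⊆ L.T := fun I h => (Finset.mem_powersetCard.1 h).1
  have hW := (hO n ι (D.c d) L.G L.r L.T p).2.2.2.2.1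
  set R : Finset ι → E n → ℂ := fun I y => dv (V I d) y +
    (app (V I d) (L.w d) y / (L.m * L.w d y) -
      L.s * (∑ l, app (V I d) (L.ut l d) y * star (L.ut l d y)) / (L.nn d y : ℝ) +
      ∑ i, L.r i * (D.c d i).elim 0 (V I d y) / xi (D.c d) i y) with hR
  have h1 : ∀ I ∈ L.T.powersetCard p, WQ (D.c d) L.G L.r L.T p
      (fun y => xm (D.c d) (-L.G) y * xs (D.c d) (L.T \ I) y * R I y) z := by
    intro I hIp
    have hId := (hO n ι (D.c d) L.G L.r I p).2.2.2.2.2.1
    obtain ⟨lam, -, v1, v2⟩ := hVU n M ι D κ L I (V I) (hsub I hIp)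
      (hp.imp_left fun h => Finset.card_pos.1 ((Finset.mem_powersetCard.1 hIp).2 ▸ h))
      (hV I hIp) d z hz
    have hs : ∀ l, SmN (fun y => -(xs (D.c d) (fr L.r) y * star (L.ut l d y) *
        (((L.nn d y : ℝ) : ℂ))⁻¹)) z := fun l => hB.mono fun y hy => by
      obtain ⟨u1, u2, u3, -⟩ := (hU n M ι D κ L).1 d y hy
      exact (((((mHOL n _ y).2.2 ((hM n ι (D.c d)).2.2.2.2.1 _ y)).1).mul (cd_star (u1 l))).mul
        ((cd_ofReal u3).inv (ofReal_ne_zero.2 u2.ne'))).neg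
    have h2 := hId.add _ _ z v2 (hId.sum κ Finset.univ _ z fun l _ => hId.mul _ _ z (hs l) (v1 l))
    have h3 := ((hI n ι (D.c d) L.G L.r L.T p _ z).2.2.2.2.2.2.2.2.2.2.2.2.2.1 I hIp h2).2
      fun i hi => (L.rT i hi).1
    refine hW.cong _ _ z h3 (hB.mono fun y hy ho => ?_)
    obtain ⟨-, u2, -⟩ := (hU n M ι D κ L).1 d y hy
    have hnn : ((L.nn d y : ℝ) : ℂ) ≠ 0 := ofReal_ne_zero.2 u2.ne'
    have hx : xs (D.c d) (fr L.r) y ≠ 0 := Finset.prod_ne_zero_iff.2 fun i _ => ho i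
    have h4 : ((L.nn d y : ℝ) : ℂ) = ∑ l, L.ut l d y * star (L.ut l d y) := by
      simp only [Lv.nn, ofReal_sum, star_def, mul_conj]
    have h5 : ∑ l, -(xs (D.c d) (fr L.r) y * star (L.ut l d y) * (((L.nn d y : ℝ) : ℂ))⁻¹) *
        (L.s * (app (V I d) (L.ut l d) y - lam y * L.ut l d y)) = xs (D.c d) (fr L.r) y *
          (L.s * lam y * ((∑ l, L.ut l d y * star (L.ut l d y)) / (L.nn d y : ℝ)) -
          L.s * (∑ l, app (V I d) (L.ut l d) y * star (L.ut l d y)) / (L.nn d y : ℝ)) := by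
      simp only [Finset.mul_sum, Finset.sum_div, ← Finset.sum_sub_distrib]
      exact Finset.sum_congr rfl fun l _ => by ring
    simp only [hR, Pi.add_apply, Finset.sum_apply, Pi.mul_apply, h5]
    rw [← h4, div_self hnn]
    field_simp
    ring
  refine hW.cong _ _ z (hW.sum _ _ _ z h1) (hB.mono fun y hy ho => ?_)
  choose! a ha1 ha2 using fun I hIp => one L hU hM (hsub I hIp) (hV I hIp) hy ho
  obtain ⟨-, -, -, -, u5, -⟩ := (hU n M ι D κ L).1 d y hy
  obtain ⟨-, -, -, -, -, -, -, m8, m9, m10, -⟩ := hM n ι (D.c d)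
  have hd : ((L.dd d y : ℝ) : ℂ) ≠ 0 := by
    refine ofReal_ne_zero.2 (ne_of_gt ?_)
    exact div_pos (mul_pos (mul_pos u5 (m8 L.r y ho).2) (normSq_pos.2 (m9 _ 0 y ho).2.1))
      (normSq_pos.2 (Finset.prod_ne_zero_iff.2 fun i _ => ho i))
  have h6 : ∀ j, dz j (fun w => ((L.dd d w : ℝ) : ℂ) * L.vh p V d w j) y =
      ∑ I ∈ L.T.powersetCard p, dz j (fun w => (L.dd d w : ℝ) *
        (xm (D.c d) (-L.G) w * xs (D.c d) (L.T \ I) w) * V I d w j) y := fun j => by
    rw [← dz_sum fun I hIp => (ha1 I hIp).1.fun_mul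
      (differentiableAt_pi.1 (rdiff ((hV I hIp).hol d y hy)) j)]
    congr 1
    funext w
    simp only [Lv.vh, hat, Finset.mul_sum, mul_assoc]
  have h7 : ∑ j, star (L.eta d j y) * L.vh p V d y j = ∑ I ∈ L.T.powersetCard p,
      xm (D.c d) (-L.G) y * xs (D.c d) (L.T \ I) y * ∑ j, star (L.eta d j y) * V I d y j := by
    simp only [Lv.vh, hat, Finset.mul_sum]
    rw [Finset.sum_comm]
    exact Finset.sum_congr rfl fun I _ => Finset.sum_congr rfl fun j _ => by ring
  simp only [dvD, h6, h7, Finset.sum_apply]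
  rw [Finset.sum_comm, Finset.sum_div, Finset.mul_sum, ← Finset.sum_add_distrib]
  refine Finset.sum_congr rfl fun I hIp => ?_
  rw [div_mul (ha1 I hIp) (rdiff ((hV I hIp).hol d y hy))]
  simp only [hR, ← ha2 I hIp]
  field_simp
  ring

end Pool.Agent.Lib.EX
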