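import Pool.Agent.Lib.EX.Blue

/-! Project ex41: the test fields of two charts differ by a field of lower weight. -/

open scoped Classical Topology ContDiff Matrix
open Set Filter

noncomputable section

namespace Pool.Agent.Lib.EX

open Pool.Agent.Lib.SV (E)
open Pool.Agent.Lib.HS32
open Pool.Agent.Lib.EXA (SmN)

namespace Q4

variable {n : ℕ} {M : Mf n} {ι : Type} [Fintype ι] [DecidableEq ι] (D : Ad M ι)

omit [Fintype ι] [DecidableEq ι] in
theorem chi_sm (a b : D.A) {z : E n} (hz : z ∈ B2 n) :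
    SmN (fun y => ((D.rd (D.χ b) a y : ℝ) : ℂ)) z :=
  (Mf.AllOn.ev (D.sm b) (D.mem a) (D.tgt a ▸ hz)).mono fun _ h => cd_ofReal h

omit [Fintype ι] [DecidableEq ι] in
/-- The chain rule for the partition of unity. -/
theorem chain (a d : D.A) {x : M.X} (ha : x ∈ (D.e a).source) (hd : x ∈ (D.e d).source)
    (X : E n → E n) : app X (fun t => ((D.rd (D.χ a) a t : ℝ) : ℂ)) (D.e a x) =
      ∑ k, dz k (fun t => ((D.rd (D.χ a) d t : ℝ) : ℂ)) (D.e d x) *
        (D.J d a x *ᵥ X (D.e a x)) k := by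
  obtain ⟨t1, -, -, t4, -⟩ := (mTR n M).2.1 _ (D.mem d) _ (D.mem a) x hd ha
  have e0 : (D.e d ∘ (D.e a).symm) (D.e a x) = D.e d x := by
    rw [Function.comp_apply, (D.e a).left_inv ha]
  have hf : DifferentiableAt ℝ (fun t => ((D.rd (D.χ a) d t : ℝ) : ℂ))
      ((D.e d ∘ (D.e a).symm) (D.e a x)) :=
    e0 ▸ cd_diff (chi_sm D d a (D.tgt d ▸ (D.e d).map_source hd)).self_of_nhds
  have c := (mCHN n _ _ t1).2.2.2.2.2.2.2.2.2.1 _ hf
  have ev : (fun t => ((D.rd (D.χ a) a t : ℝ) : ℂ)) =ᶠ[𝓝 (D.e a x)]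
      (fun t => ((D.rd (D.χ a) d t : ℝ) : ℂ)) ∘ (D.e d ∘ (D.e a).symm) :=
    t4.mono fun w hw => by simp only [Function.comp_apply, Ad.rd, hw.2.2.2.2.1]
  simp only [app, dz_congr ev, (c _).1, e0, Matrix.mulVec, dotProduct, Finset.mul_sum]
  rw [Finset.sum_comm]
  refine Finset.sum_congr rfl fun k _ => Finset.sum_congr rfl fun j _ => ?_
  change _ = _ * (jm (D.e d ∘ (D.e a).symm) (D.e a x) k j * _)
  ring

theorem hol_jm {ψ V : E n → E n} {z : E n} (h : HolN ψ z) (hV : HolN V z) (k : Fin n) :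
    HolN (fun w => (jm ψ w *ᵥ V w) k) z := by
  have h1 (j : Fin n) : HolN (fun w => jm ψ w k j) z :=
    (eventually_eventually_nhds.2 h).mono fun w hw =>
      ((mHOL n _ w).1 ((mCHN n ψ w hw).2.1.diff k j)).2 fun i =>
        congrFun (congrFun ((mCHN n ψ w hw).2.2.2.1 i) k) j
  filter_upwards [eventually_all.2 h1, hV] with w h1 h2
  simp only [Matrix.mulVec, dotProduct]
  exact DifferentiableAt.fun_sum fun j _ => (h1 j).fun_mul (differentiableAt_pi.1 h2 j)

/-- The difference of the fields on one stratum is in the ideal of the stratum. -/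
theorem idl [M.Cpt] (hT : St_TRF) (hD : St_DIV) {I : Finset ι} {K : ι → ℤ} {V : D.A → E n → E n}
    (hV : D.Fld I (D.um K) V) (a d : D.A) {x : M.X} (ha : x ∈ (D.e a).source)
    (hd : x ∈ (D.e d).source) (k : Fin n) :
    Idl (D.c d) I (fun y => D.um K a d ((D.e d).symm y) *
      (D.J d a ((D.e d).symm y) *ᵥ V a (D.e a ((D.e d).symm y))) k - V d y k) (D.e d x) := by
  obtain ⟨t1, -, -, t4⟩ := hT n M ι D
  have near (b : D.A) (hb : x ∈ (D.e b).source) : HolN (V b) (D.e b x) :=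
    mem_of_superset (Metric.isOpen_ball.mem_nhds (D.tgt b ▸ (D.e b).map_source hb : _ ∈ B2 n))
      fun y hy => hV.hol b y hy
  have h1 := ((t4 a d x ha hd).2.2.2.2.2.2.2.1 _).2
    (hol_jm ((mTR n M).2.1 _ (D.mem d) _ (D.mem a) x hd ha).1 (near a ha) k)
  have h2 := (t1 K).hol a d x ha hd
  obtain ⟨t, s1, s2⟩ := (hD n ι (D.c d) (fun y => D.um K a d ((D.e d).symm y) *
      (D.J d a ((D.e d).symm y) *ᵥ V a (D.e a ((D.e d).symm y))) k - V d y k) (D.e d x) (D.inj d)
    (by
      filter_upwards [h1, h2, near d hd] with w h1 h2 h3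
      exact (h2.fun_mul h1).fun_sub (differentiableAt_pi.1 h3 k))).1 I (by
      filter_upwards [((mTR n M).2.1 _ (D.mem a) _ (D.mem d) x ha hd).2.2.2.1] with w hw hs
      obtain ⟨-, w1, w2, -, -, w3, -⟩ := hw
      have c := hV.cmp a d _ w1 w2 (w3.symm ▸ hs)
      have j : D.J d a ((D.e d).symm w) * D.J a d ((D.e d).symm w) = 1 :=
        ((mTR n M).2.1 _ (D.mem d) _ (D.mem a) _ w2 w1).2.2.1
      have := congrArg (fun v => (D.J d a ((D.e d).symm w) *ᵥ v) k) c
      simp only [Matrix.mulVec_mulVec, j, Matrix.one_mulVec, w3, Matrix.mulVec_smul,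
        Pi.smul_apply, smul_eq_mul] at this
      rw [this, sub_self])
  exact ⟨t, fun i => (eventually_eventually_nhds.2 (s1 i)).mono fun w hw =>
    ((mHOL n _ w).2.2 hw).1, s2.mono fun _ h _ => h⟩

end Q4

theorem bQ4 (hT : St_TRF) (hD : St_DIV) (hI : St_INC) (hO : St_MOD) : St_Q4 := by
  intro n M _ ι _ _ D κ _ L p V hV d z hz
  obtain ⟨-, t2, t3, t4⟩ := hT n M ι D
  obtain ⟨m, r, -⟩ := t2 d z hz
  have mW := (hO n ι (D.c d) L.G L.r L.T p).2.2.1
  have hB : ∀ᶠ y in 𝓝 z, y ∈ B2 n := Metric.isOpen_ball.mem_nhds hz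
  let χ : D.A → E n → ℂ := fun a t => ((D.rd (D.χ a) d t : ℝ) : ℂ)
  let A : D.A → E n → ℂ := fun a y => (D.e a).source.indicator
    (fun x => app (L.vh p V a) (fun t => ((D.rd (D.χ a) a t : ℝ) : ℂ)) (D.e a x)) ((D.e d).symm y)
  have key (a : D.A) : Wt (D.c d) L.G L.T p (fun y => A a y - app (L.vh p V d) (χ a) y) z := by
    by_cases ha : (D.e d).symm z ∈ (D.e a).source
    · have h1 := fun k => mW.sum _ (L.T.powersetCard p) _ z fun I hI' =>
        ((hI n ι (D.c d) L.G L.r L.T p _ z).2.2.2.2.2.2.2.2.2.2.2.2.2.1 I hI'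
          (r ▸ Q4.idl D hT hD (hV I hI').toFld a d ha m k)).1
      have h2 := mW.sum _ Finset.univ _ z fun k _ => mW.mul (dz k (χ a)) _ z
        ((Q4.chi_sm D d a hz).mono fun _ h => cd_dz h k) (h1 k)
      refine mW.cong _ _ z h2 ?_
      have ev := ((mTR n M).2.1 _ (D.mem a) _ (D.mem d) _ ha m).2.2.2.1
      rw [r] at ev
      filter_upwards [ev] with y hy _
      obtain ⟨-, y1, y2, -, -, y3, -⟩ := hy
      have q := (t4 a d _ y1 y2).2.2.2.2.2.1 L.G L.T
      simp only [A, indicator_of_mem y1, Q4.chain D a d y1 y2, y3, Finset.sum_apply, Pi.mul_apply]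
      rw [app, ← Finset.sum_sub_distrib]
      refine Finset.sum_congr rfl fun k _ => ?_
      rw [mul_comm (L.vh p V d y k), ← mul_sub]
      congr 1
      have e1 : L.vh p V a (D.e a ((D.e d).symm y)) = ∑ I ∈ L.T.powersetCard p,
          (D.kap L.G L.T I a d ((D.e d).symm y) * (xm (D.c d) (-L.G) y * xs (D.c d) (L.T \ I) y)) •
            V I a (D.e a ((D.e d).symm y)) := by
        funext j
        simp only [Lv.vh, hat, Finset.mul_sum, Finset.sum_apply, Pi.smul_apply, smul_eq_mul]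
        refine Finset.sum_congr rfl fun I hI' => ?_
        rw [← mul_assoc, q I (Finset.mem_powersetCard.1 hI').1, y3]
      rw [e1, Matrix.mulVec_sum, Finset.sum_apply, Lv.vh, hat, Finset.mul_sum,
        ← Finset.sum_sub_distrib]
      refine Finset.sum_congr rfl fun I _ => ?_
      simp only [Matrix.mulVec_smul, Pi.smul_apply, smul_eq_mul, Ad.kap]
      ring
    · have h0 := t3 a d _ m ha
      rw [r] at h0
      refine mW.cong _ _ z (mW.zero z) ?_
      filter_upwards [eventually_eventually_nhds.2 h0, hB] with y hy hyB _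
      have e (k : Fin n) : dz k (χ a) y = 0 := by
        rw [dz_congr (g := fun _ => 0) (hy.mono fun w hw => by simp only [χ, hw]; simp), dz_const]
      obtain ⟨y2, y3, -⟩ := t2 d y hyB
      by_cases y1 : (D.e d).symm y ∈ (D.e a).source
      · simp only [A, indicator_of_mem y1, Q4.chain D a d y1 y2, y3]
        simp [app, e, χ]
      · simp [A, indicator_of_notMem y1, app, e]
  refine mW.cong _ _ z (mW.sum _ Finset.univ _ z fun a _ => key a) ?_
  filter_upwards [hB] with y hy _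
  have e (k : Fin n) : ∑ a, dz k (χ a) y = 0 := by
    rw [← dz_sum fun a _ => cd_diff (Q4.chi_sm D d a hy).self_of_nhds,
      dz_congr (g := fun _ => 1) (.of_forall fun w => by
        simp only [Ad.rd]; exact_mod_cast D.sum _), dz_const]
  have e' : ∑ a, app (L.vh p V d) (χ a) y = 0 := by
    simp only [app]
    rw [Finset.sum_comm]
    simp only [← Finset.mul_sum, e, mul_zero, Finset.sum_const_zero]
  rw [Finset.sum_apply, Finset.sum_sub_distrib, e', sub_zero]
  rfl

end Pool.Agent.Lib.EX
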