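import Pool.Agent.Lib.EX.Blue

/-! Row `Q5`: the derivative of the projector along the test field. -/

open scoped Classical Topology ContDiff ComplexOrder Matrix
open Set MeasureTheory Complex Metric Filter

noncomputable section

namespace Pool.Agent.Lib.EX

open Pool.Agent.Lib.SV (E)
open Pool.Agent.Lib.HS32
open Pool.Agent.Lib.EXA (Val SmN emb)

namespace Q5

variable {n : ℕ} {κ : Type} [Fintype κ]

/-- The derivative of the projector. -/
theorem dcc {u : κ → E n → ℂ} {y : E n} (hu : ∀ l, DifferentiableAt ℝ (u l) y)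
    (h0 : ((∑ m, normSq (u m y) : ℝ) : ℂ) ≠ 0) (l l' : κ) (j : Fin n) :
    dzb j (fun z => u l z * star (u l' z) / ((∑ m, normSq (u m z) : ℝ) : ℂ)) y =
      (dzb j (u l) y * star (u l' y) + u l y * star (dz j (u l') y)) /
          ((∑ m, normSq (u m y) : ℝ) : ℂ) -
        u l y * star (u l' y) / ((∑ m, normSq (u m y) : ℝ) : ℂ) *
          ((∑ m, dzb j (u m) y * star (u m y)) / ((∑ m, normSq (u m y) : ℝ) : ℂ) +
            (∑ m, u m y * star (dz j (u m) y)) / ((∑ m, normSq (u m y) : ℝ) : ℂ)) := by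
  have e : ∀ z, ((∑ m, normSq (u m z) : ℝ) : ℂ) = ∑ m, u m z * star (u m z) := fun z => by
    rw [ofReal_sum]
    exact Finset.sum_congr rfl fun m _ => (mul_conj _).symm
  have d1 : ∀ m m', DifferentiableAt ℝ (fun z => u m z * star (u m' z)) y := fun m m' =>
    (hu m).fun_mul (diff_star (hu m'))
  have d2 : DifferentiableAt ℝ (fun z => ∑ m, u m z * star (u m z)) y :=
    DifferentiableAt.fun_sum fun m _ => d1 m m
  simp only [e, div_eq_mul_inv] at h0 ⊢
  rw [dzb_mul (d1 l l') (d2.fun_inv h0), dzb_inv d2 h0, dzb_sum fun m _ => d1 m m]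
  simp only [fun m m' => dzb_mul (j := j) (hu m) (diff_star (hu m')),
    fun m => dzb_star (j := j) (hu m), Finset.sum_add_distrib]
  field_simp
  ring

end Q5

theorem bQ5 (hVU : St_VU) (hUT : St_UT) (hINC : St_INC) (hMOD : St_MOD) : St_Q5 := by
  intro n M _ ι _ _ D κ _ L p V hp hV l l' d z hz
  have hB : ∀ᶠ y in 𝓝 z, y ∈ B2 n := isOpen_ball.mem_nhds hz
  have U := (hUT n M ι D κ L).1 d
  have s1 : ∀ m, SmN (fun y => star (L.ut m d y) / (L.nn d y : ℝ)) z := fun m =>
    hB.mono fun y hy => (cd_star ((U y hy).1 m)).mul ((cd_ofReal (U y hy).2.2.1).inv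
      (ofReal_ne_zero.2 (U y hy).2.1.ne'))
  have s2 : SmN (fun y => -L.cc l l' d y) z := hB.mono fun y hy => ((U y hy).2.2.2.2.2.1 l l').neg
  have s3 : SmN (fun y => star (-L.cc l l' d y)) z := s2.mono fun y hy => cd_star hy
  obtain ⟨mP, -, mW, -⟩ := hMOD n ι (D.c d) (-sp L.a) L.r L.T p
  replace mW := (hMOD n ι (D.c d) L.G L.r L.T p).2.2.1
  obtain ⟨-, -, -, -, -, -, -, -, -, -, u⟩ := U z hz
  let F : Finset ι → E n → ℂ := fun I y => L.s * (star (L.ut l d y) / (L.nn d y : ℝ) *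
    app (V I d) (L.ut l' d) y + star (-L.cc l l' d y) *
      ∑ m, star (L.ut m d y) / (L.nn d y : ℝ) * app (V I d) (L.ut m d) y)
  have hF : ∀ I ∈ L.T.powersetCard p, Idl (D.c d) I (F I) z := fun I hI => by
    obtain ⟨h1, h2⟩ := Finset.mem_powersetCard.1 hI
    obtain ⟨lam, -, h3, -⟩ := hVU n M ι D κ L I (V I) h1
      (hp.imp_left fun h => Finset.card_pos.1 (h2 ▸ h)) (hV I hI) d z hz
    have mI := (hMOD n ι (D.c d) L.G L.r I p).2.2.2.2.2.1
    refine mI.cong _ _ _ (mI.add _ _ _ (mI.mul _ _ _ (s1 l) (h3 l')) (mI.mul _ _ _ s3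
      (mI.sum _ Finset.univ _ _ fun m _ => mI.mul _ _ _ (s1 m) (h3 m)))) (hB.mono fun y hy _ => ?_)
    have h0 : ((L.nn d y : ℝ) : ℂ) ≠ 0 := ofReal_ne_zero.2 (U y hy).2.1.ne'
    have e : ∑ m, star (L.ut m d y) / (L.nn d y : ℝ) * L.ut m d y = 1 := by
      simp only [div_mul_eq_mul_div, ← Finset.sum_div]
      rw [div_eq_one_iff_eq h0, Lv.nn, ofReal_sum]
      exact Finset.sum_congr rfl fun m _ => by rw [mul_comm]; exact mul_conj _
    have e2 : ∑ m, star (L.ut m d y) / (L.nn d y : ℝ) *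
        (L.s * (app (V I d) (L.ut m d) y - lam y * L.ut m d y)) = L.s *
          (∑ m, star (L.ut m d y) / (L.nn d y : ℝ) * app (V I d) (L.ut m d) y - lam y) := by
      conv_rhs => rw [← mul_one (lam y), ← e]
      simp only [Finset.mul_sum, ← Finset.sum_sub_distrib]
      exact Finset.sum_congr rfl fun m _ => by ring
    simp only [F, Pi.add_apply, Pi.mul_apply, Finset.sum_apply, e2]
    simp only [Lv.cc, map_neg, map_div₀, map_mul, RCLike.star_def, conj_conj, conj_ofReal]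
    ring
  refine ⟨∑ I ∈ L.T.powersetCard p, fun y => xm (D.c d) (-L.G) y * (xs (D.c d) (L.T \ I) y * F I y),
    fun j => (fun y => star (L.ut l' d y) / (L.nn d y : ℝ)) * dzb j (L.ut l d) +
      (fun y => -L.cc l l' d y) * L.eta d j, mW.sum _ _ _ _ fun I hI =>
        ((hINC n ι (D.c d) L.G L.r L.T p (F I) z).2.2.2.2.2.2.2.2.2.2.2.2.2.1 I hI (hF I hI)).1,
    fun j => mP.add _ _ _ (mP.mul _ _ _ (s1 l') ((u j).2 l)) (mP.mul _ _ _ s2 (u j).1),
    hB.mono fun y hy _ => ?_⟩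
  have h0 : ((L.nn d y : ℝ) : ℂ) ≠ 0 := ofReal_ne_zero.2 (U y hy).2.1.ne'
  have e1 : ∀ j, dzb j (L.cc l l' d) y = _ := fun j =>
    Q5.dcc (fun m => cd_diff ((U y hy).1 m)) h0 l l' j
  have e2 : (∑ I ∈ L.T.powersetCard p, fun y => xm (D.c d) (-L.G) y *
      (xs (D.c d) (L.T \ I) y * F I y)) y = L.s * ∑ j, L.vh p V d y j *
        (star (L.ut l d y) / (L.nn d y : ℝ) * dz j (L.ut l' d) y + star (-L.cc l l' d y) *
          ∑ m, star (L.ut m d y) / (L.nn d y : ℝ) * dz j (L.ut m d) y) := by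
    simp only [Finset.sum_apply, F, Lv.vh, hat, app, Finset.mul_sum, Finset.sum_mul, mul_add,
      Finset.sum_add_distrib]
    congr 1
    · rw [Finset.sum_comm]
      exact Finset.sum_congr rfl fun _ _ => Finset.sum_congr rfl fun _ _ => by ring
    · rw [Finset.sum_congr rfl fun I _ => Finset.sum_comm, Finset.sum_comm]
      refine Finset.sum_congr rfl fun _ _ => Finset.sum_comm.trans ?_
      exact Finset.sum_congr rfl fun _ _ => Finset.sum_congr rfl fun _ _ => by ring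
  rw [e2, star_mul', star_sum, RCLike.star_def, conj_ofReal, ← mul_add, ← Finset.sum_add_distrib]
  refine congrArg _ (Finset.sum_congr rfl fun j _ => ?_)
  simp only [e1, Pi.add_apply, Pi.mul_apply, Lv.eta, Lv.cc, Lv.nn, map_mul, map_add, map_sum,
    map_div₀, map_neg, RCLike.star_def, conj_conj, conj_ofReal, div_mul_eq_mul_div,
    ← Finset.sum_div]
  ring

end Pool.Agent.Lib.EX
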