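import Pool.Agent.Lib.EXA.ABlue
import Pool.Agent.Lib.EXA.K71
import Pool.Agent.Lib.EX.K68A
import Pool.Agent.Lib.EX.K62

/-! Project ex41: germs in the ideals of the strata and negligible terms. -/

open scoped Classical Topology ContDiff ComplexOrder Matrix
open Set Complex Filter MeasureTheory

set_option linter.unusedVariables false

noncomputable section

namespace Pool.Agent.Lib.EX.K62

open Pool.Agent.Lib.SV (E nsq)
open Pool.Agent.Lib.HS32 Pool.Agent.Lib.EXA

variable {n : ℕ} {T C : Finset (Fin n)} {p : ℕ} {z : E n} {φ ψ g f : E n → ℂ}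

/-! ### Smooth germs -/

theorem smN_const {F : Type} [NormedAddCommGroup F] [NormedSpace ℝ F] (c : F) :
    SmN (fun _ : E n => c) z := Eventually.of_forall fun _ => contDiffAt_const

theorem smN_mul (hf : SmN f z) (hg : SmN g z) : SmN (fun w => f w * g w) z :=
  (Eventually.and hf hg).mono fun w h => h.1.mul h.2

theorem smN_add (hf : SmN f z) (hg : SmN g z) : SmN (fun w => f w + g w) z :=
  (Eventually.and hf hg).mono fun w h => h.1.add h.2

theorem smN_sub (hf : SmN f z) (hg : SmN g z) : SmN (fun w => f w - g w) z :=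
  (Eventually.and hf hg).mono fun w h => h.1.sub h.2

theorem smN_neg (hf : SmN f z) : SmN (fun w => -f w) z := hf.mono fun w h => h.neg

theorem smN_star (hf : SmN f z) : SmN (fun w => star (f w)) z := hf.mono fun w h => cd_star h

theorem smN_dz (hf : SmN f z) (j : Fin n) : SmN (dz j f) z := hf.mono fun w h => cd_dz h j

theorem smN_dzb (hf : SmN f z) (j : Fin n) : SmN (dzb j f) z := hf.mono fun w h => cd_dzb h j

theorem smN_sum {ι : Type} {s : Finset ι} {f : ι → E n → ℂ} (h : ∀ a ∈ s, SmN (f a) z) :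
    SmN (fun w => ∑ a ∈ s, f a w) z :=
  ((eventually_all_finset s).2 h).mono fun w hw => ContDiffAt.sum hw

theorem smN_congr {F : Type} [NormedAddCommGroup F] [NormedSpace ℝ F] {f g : E n → F}
    (hf : SmN f z) (e : g =ᶠ[𝓝 z] f) : SmN g z :=
  (Eventually.and hf e.eventuallyEq_nhds).mono fun w h => h.1.congr_of_eventuallyEq h.2

theorem smN_hol (hf : HolN f z) : SmN f z :=
  (Eventually.eventually_nhds hf).mono fun w h => ((mHOL n f w).2.2 h).1

theorem smN_inv (hf : SmN f z) (h0 : f z ≠ 0) : SmN (fun w => (f w)⁻¹) z :=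
  (Eventually.and hf (hf.self_of_nhds.continuousAt.eventually_ne h0)).mono fun w h => h.1.inv h.2

theorem smN_ofReal {u : E n → ℝ} (hu : SmN u z) : SmN (fun w => (u w : ℂ)) z :=
  hu.mono fun w h => cd_ofReal h

theorem holN_prod (I : Finset (Fin n)) : HolN (fun w : E n => ∏ i ∈ I, w i) z :=
  Eventually.of_forall (K68.diff_prod I)

theorem smN_prod (I : Finset (Fin n)) : SmN (fun w : E n => ∏ i ∈ I, w i) z :=
  smN_hol (holN_prod I)

theorem holN_mul (hf : HolN f z) (hg : HolN g z) : HolN (fun w => f w * g w) z :=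
  (Eventually.and hf hg).mono fun w h => h.1.mul h.2

theorem holN_add (hf : HolN f z) (hg : HolN g z) : HolN (fun w => f w + g w) z :=
  (Eventually.and hf hg).mono fun w h => h.1.add h.2

theorem holN_sub (hf : HolN f z) (hg : HolN g z) : HolN (fun w => f w - g w) z :=
  (Eventually.and hf hg).mono fun w h => h.1.sub h.2

theorem holN_const (c : ℂ) : HolN (fun _ : E n => c) z :=
  Eventually.of_forall fun _ => differentiableAt_const c

theorem holN_sum {ι : Type} {s : Finset ι} {f : ι → E n → ℂ} (h : ∀ a ∈ s, HolN (f a) z) :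
    HolN (fun w => ∑ a ∈ s, f a w) z :=
  ((eventually_all_finset s).2 h).mono fun w hw => DifferentiableAt.fun_sum hw

theorem holN_dz (hf : HolN f z) (j : Fin n) : HolN (dz j f) z := ((mHOL n f z).2.2 hf).2.1 j

theorem holN_inv (hf : HolN f z) (h0 : f z ≠ 0) : HolN (fun w => (f w)⁻¹) z :=
  (Eventually.and hf (hf.self_of_nhds.continuousAt.eventually_ne h0)).mono fun w h =>
    h.1.fun_inv h.2

theorem holN_congr (hf : HolN f z) (e : g =ᶠ[𝓝 z] f) : HolN g z :=
  (Eventually.and hf e.eventuallyEq_nhds).mono fun w h => h.1.congr_of_eventuallyEq h.2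

/-! ### The ideals of the strata -/

/-- Germs at `z` in the ideal of the union of the `p`-fold intersections of the hyperplanes of
`T`, with smooth coefficients. -/
inductive Idl (T : Finset (Fin n)) (p : ℕ) (z : E n) : (E n → ℂ) → Prop
  | zero : Idl T p z 0
  | gen (J : Finset (Fin n)) (g : E n → ℂ) : J ⊆ T → J.card < p → SmN g z →
      Idl T p z fun w => (∏ i ∈ T \ J, w i) * g w
  | add (φ ψ : E n → ℂ) : Idl T p z φ → Idl T p z ψ → Idl T p z fun w => φ w + ψ w
  | congr (φ ψ : E n → ℂ) : Idl T p z φ → ψ =ᶠ[𝓝 z] φ → Idl T p z ψ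

theorem Idl.of_zero (h : ∀ᶠ w in 𝓝 z, φ w = 0) : Idl T p z φ := Idl.zero.congr _ _ h

theorem Idl.mul (h : Idl T p z φ) (hg : SmN g z) : Idl T p z fun w => φ w * g w := by
  induction h with
  | zero => exact Idl.of_zero (Eventually.of_forall fun w => zero_mul _)
  | gen J a h1 h2 h3 =>
    exact (Idl.gen J _ h1 h2 (smN_mul h3 hg)).congr _ _ (Eventually.of_forall fun w => mul_assoc ..)
  | add a b _ _ i1 i2 => exact (i1.add _ _ i2).congr _ _ (Eventually.of_forall fun w => add_mul ..)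
  | congr a b _ e i => exact i.congr _ _ (e.mono fun w hw => by simp only [hw])

theorem Idl.mul' (h : Idl T p z φ) (hg : SmN g z) : Idl T p z fun w => g w * φ w :=
  (h.mul hg).congr _ _ (Eventually.of_forall fun w => mul_comm ..)

theorem Idl.neg (h : Idl T p z φ) : Idl T p z fun w => -φ w :=
  (h.mul (smN_const (-1))).congr _ _ (Eventually.of_forall fun w => by simp)

theorem Idl.sub (h : Idl T p z φ) (h' : Idl T p z ψ) : Idl T p z fun w => φ w - ψ w :=
  (h.add _ _ h'.neg).congr _ _ (Eventually.of_forall fun w => sub_eq_add_neg ..)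

theorem Idl.sum {ι : Type} {s : Finset ι} {φ : ι → E n → ℂ} (h : ∀ a ∈ s, Idl T p z (φ a)) :
    Idl T p z fun w => ∑ a ∈ s, φ a w := by
  induction s using Finset.induction_on with
  | empty => exact Idl.of_zero (Eventually.of_forall fun w => Finset.sum_empty)
  | insert a s ha ih =>
    exact ((h a (Finset.mem_insert_self a s)).add _ _
      (ih fun b hb => h b (Finset.mem_insert_of_mem hb))).congr _ _
      (Eventually.of_forall fun w => Finset.sum_insert ha)

theorem Idl.mono (h : Idl T p z φ) {q : ℕ} (hq : p ≤ q) : Idl T q z φ := by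
  induction h with
  | zero => exact Idl.zero
  | gen J a h1 h2 h3 => exact Idl.gen J a h1 (h2.trans_le hq) h3
  | add a b _ _ i1 i2 => exact i1.add _ _ i2
  | congr a b _ e i => exact i.congr _ _ e

theorem Idl.sm (h : Idl T p z φ) : SmN φ z := by
  induction h with
  | zero => exact smN_const 0
  | gen J a h1 h2 h3 => exact smN_mul (smN_prod _) h3
  | add a b _ _ i1 i2 => exact smN_add i1 i2
  | congr a b _ e i => exact smN_congr i e

theorem Idl.eq_zero (h : Idl T 0 z φ) : ∀ᶠ w in 𝓝 z, φ w = 0 := by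
  induction h with
  | zero => exact Eventually.of_forall fun w => rfl
  | gen J a h1 h2 h3 => exact absurd h2 (Nat.not_lt_zero _)
  | add a b _ _ i1 i2 => exact (i1.and i2).mono fun w h => by simp only [h.1, h.2, add_zero]
  | congr a b _ e i => exact (Eventually.and e i).mono fun w h => h.1.trans h.2

/-- An element of the ideal vanishes on the strata. -/
theorem Idl.van (h : Idl T p z φ) :
    ∀ᶠ w in 𝓝 z, ∀ I ⊆ T, p ≤ I.card → (∀ i ∈ I, w i = 0) → φ w = 0 := by
  induction h with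
  | zero => exact Eventually.of_forall fun w I _ _ _ => rfl
  | gen J a h1 h2 h3 =>
    refine Eventually.of_forall fun w I hI hc h0 => ?_
    obtain ⟨i, hi, hi'⟩ := Finset.exists_mem_notMem_of_card_lt_card (h2.trans_le hc)
    simp only [Finset.prod_eq_zero (Finset.mem_sdiff.2 ⟨hI hi, hi'⟩) (h0 i hi), zero_mul]
  | add a b _ _ i1 i2 =>
    exact (i1.and i2).mono fun w h I hI hc h0 => by
      simp only [h.1 I hI hc h0, h.2 I hI hc h0, add_zero]
  | congr a b _ e i => exact (Eventually.and e i).mono fun w h I hI hc h0 => h.1.trans (h.2 I hI hc h0)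

/-- Multiples of the product of all coordinates. -/
theorem idl_top (hp : 0 < p) {S : Finset (Fin n)} (hS : T ⊆ S) (hg : SmN g z) :
    Idl T p z fun w => (∏ i ∈ S, w i) * g w :=
  (Idl.gen ∅ _ (Finset.empty_subset T) hp (smN_mul (smN_prod (S \ T)) hg)).congr _ _
    (Eventually.of_forall fun w => by
      simp only [Finset.sdiff_empty, ← Finset.prod_sdiff hS]; ring)

/-- If there is no stratum of depth `p`, the ideal is everything. -/
theorem idl_big (hp : T.card < p) (hg : SmN g z) : Idl T p z g :=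
  (Idl.gen T g Finset.Subset.rfl hp hg).congr _ _ (Eventually.of_forall fun w => by simp)

/-- The same at a point on few hyperplanes. -/
theorem idl_few (hp : (T.filter fun i => z i = 0).card < p) (hg : SmN g z) : Idl T p z g := by
  have h0 : ∀ᶠ w in 𝓝 z, ∏ i ∈ T \ T.filter fun i => z i = 0, w i ≠ 0 :=
    (K68.ev_ne z T).mono fun w hw => Finset.prod_ne_zero_iff.2 hw
  refine (Idl.gen _ _ (Finset.filter_subset _ T) hp
    (smN_mul (smN_inv (smN_prod _) h0.self_of_nhds) hg)).congr _ _ (h0.mono fun w hw => ?_)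
  simp only []
  rw [mul_inv_cancel_left₀ hw]

/-- A holomorphic function that vanishes on the strata lies in the ideal. -/
theorem idl_hol (hf : HolN f z)
    (h0 : ∀ᶠ w in 𝓝 z, ∀ I ⊆ T, I.card = p → (∀ i ∈ I, w i = 0) → f w = 0) : Idl T p z f := by
  rcases p with _ | q
  · exact Idl.of_zero (h0.mono fun w hw => hw ∅ (Finset.empty_subset T) rfl (by simp))
  by_cases hq : q ≤ T.card
  · obtain ⟨g, hg, e⟩ := K68.hol_ideal_germ hq hf h0
    refine (Idl.sum fun J hJ => Idl.gen J (g J) (Finset.mem_powersetCard.1 hJ).1 ?_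
      (smN_hol (hg J))).congr _ _ e
    rw [(Finset.mem_powersetCard.1 hJ).2]; exact Nat.lt_succ_self q
  · exact idl_big (by omega) (smN_hol hf)

/-- It suffices to test off the other hyperplanes. -/
theorem idl_hol' (hT : T ⊆ C) (hf : HolN f z)
    (h0 : ∀ᶠ w in 𝓝 z, ∀ I ⊆ T, I.card = p → (∀ i ∈ I, w i = 0) → (∀ i ∈ C \ I, w i ≠ 0) →
      f w = 0) : Idl T p z f := by
  refine idl_hol hf ?_
  filter_upwards [h0.eventually_nhds, hf] with w h1 h2 I hI hc hw
  refine K68.eq_of_off (I := C \ I) (g := fun _ => 0) h2.continuousAt continuousAt_const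
    (h1.mono fun y hy a b => hy I hI hc (fun i hi => ?_) a)
  rw [b i fun h => (Finset.mem_sdiff.1 h).2 hi, hw i hi]

/-! ### Negligible germs -/

variable {r : Fin n → ℝ} {P Q : Fin n → ℤ}

theorem off_ev (h : Off C z) : ∀ᶠ w in 𝓝 z, Off C w :=
  (eventually_all_finset C).2 fun i hi => (continuous_apply i).continuousAt.eventually_ne (h i hi)

theorem mon_conj {w : E n} (hw : Off C w) {A : Finset (Fin n)} (hA : A ⊆ C) :
    mon C r P Q w * star (∏ i ∈ A, w i) = mon C r P (fun i => Q i + if i ∈ A then 1 else 0) w := by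
  have e : star (∏ i ∈ A, w i) = ∏ i ∈ C, if i ∈ A then star (w i) else 1 := by
    rw [star_prod, Finset.prod_ite_mem, Finset.inter_eq_right.2 hA]
  rw [e, mon, mon, ← Finset.prod_mul_distrib]
  refine Finset.prod_congr rfl fun i hi => ?_
  split_ifs
  · rw [zpow_add_one₀ (star_ne_zero.2 (hw i hi))]; ring
  · simp

theorem mon_hol {w : E n} (hw : Off C w) {A : Finset (Fin n)} (hA : A ⊆ C) :
    mon C r P Q w * ∏ i ∈ A, w i = mon C r (fun i => P i + if i ∈ A then 1 else 0) Q w := by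
  have e : ∏ i ∈ A, w i = ∏ i ∈ C, if i ∈ A then w i else 1 := by
    rw [Finset.prod_ite_mem, Finset.inter_eq_right.2 hA]
  rw [e, mon, mon, ← Finset.prod_mul_distrib]
  refine Finset.prod_congr rfl fun i hi => ?_
  split_ifs
  · rw [zpow_add_one₀ (hw i hi)]; ring
  · simp

theorem mon_conj_inv {w : E n} (hw : Off C w) {A : Finset (Fin n)} (hA : A ⊆ C) :
    mon C r P Q w = mon C r P (fun i => Q i - if i ∈ A then 1 else 0) w * star (∏ i ∈ A, w i) := by
  rw [mon_conj hw hA]; simp

theorem dzb_mon (hz : Off C z) (j : Fin n) : DifferentiableAt ℝ (mon C r P Q) z ∧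
    dzb j (mon C r P Q) z =
      (if j ∈ C then ((r j : ℂ) + Q j) * (star (z j))⁻¹ else 0) * mon C r P Q z :=
  K71.dzb_prod C r P Q j hz

/-- The germ of `φ` at `z` has value zero after multiplication with `t ^ p`. -/
def Nul (C : Finset (Fin n)) (r : Fin n → ℝ) (p : ℕ) (z : E n) (φ : E n → ℂ) : Prop :=
  Loc C r (p - 1) z φ ∧ (p = 0 → ∀ᶠ w in 𝓝 z, Off C w → φ w = 0)

theorem Nul.of_zero (h : ∀ᶠ w in 𝓝 z, Off C w → φ w = 0) : Nul C r p z φ :=
  ⟨Loc.zero.congr _ _ h, fun _ => h⟩

theorem Nul.add (h : Nul C r p z φ) (h' : Nul C r p z ψ) : Nul C r p z fun w => φ w + ψ w :=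
  ⟨h.1.add _ _ h'.1, fun hp => ((h.2 hp).and (h'.2 hp)).mono fun w a hw => by
    simp only [a.1 hw, a.2 hw, add_zero]⟩

theorem Nul.congr (h : Nul C r p z φ) (e : ∀ᶠ w in 𝓝 z, Off C w → ψ w = φ w) : Nul C r p z ψ :=
  ⟨h.1.congr _ _ e, fun hp => (e.and (h.2 hp)).mono fun w a hw => (a.1 hw).trans (a.2 hw)⟩

theorem Nul.sum {ι : Type} {s : Finset ι} {φ : ι → E n → ℂ} (h : ∀ a ∈ s, Nul C r p z (φ a)) :
    Nul C r p z fun w => ∑ a ∈ s, φ a w := by
  induction s using Finset.induction_on with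
  | empty => exact Nul.of_zero (Eventually.of_forall fun w _ => Finset.sum_empty)
  | insert a s ha ih =>
    exact ((h a (Finset.mem_insert_self a s)).add
      (ih fun b hb => h b (Finset.mem_insert_of_mem hb))).congr
      (Eventually.of_forall fun w _ => Finset.sum_insert ha)

theorem loc_mul {k : ℕ} (h : Loc C r k z φ) (hg : SmN g z) : Loc C r k z fun w => φ w * g w := by
  induction h with
  | zero => exact Loc.zero.congr _ _ (Eventually.of_forall fun w _ => zero_mul _)
  | mon P Q a h1 h2 =>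
    exact (Loc.mon P Q _ (smN_mul h1 hg) h2).congr _ _
      (Eventually.of_forall fun w _ => mul_assoc ..)
  | add a b _ _ i1 i2 => exact (i1.add _ _ i2).congr _ _ (Eventually.of_forall fun w _ => add_mul ..)
  | congr a b _ e i => exact i.congr _ _ (e.mono fun w hw h => by simp only [hw h])

theorem Nul.mul (h : Nul C r p z φ) (hg : SmN g z) : Nul C r p z fun w => φ w * g w :=
  ⟨loc_mul h.1 hg, fun hp => (h.2 hp).mono fun w a hw => by simp only [a hw, zero_mul]⟩

theorem Nul.sub (h : Nul C r p z φ) (h' : Nul C r p z ψ) : Nul C r p z fun w => φ w - ψ w :=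
  (h.add (h'.mul (smN_const (-1)))).congr (Eventually.of_forall fun w _ => by ring)

theorem nul_succ {k : ℕ} : Nul C r (k + 1) z φ ↔ Loc C r k z φ :=
  ⟨fun h => h.1, fun h => ⟨h, fun hk => absurd hk (Nat.succ_ne_zero k)⟩⟩

/-- The conjugate of an element of the ideal, times a monomial, is negligible. -/
theorem nul_idl (hT : T ⊆ C) (hr : ∀ i ∈ T, r i = -1 ∧ 0 ≤ Q i)
    (hb : ∀ i ∈ C \ T, ¬BadC (r i) (P i) (Q i)) (h : Idl T p z φ) :
    Nul C r p z fun w => mon C r P Q w * star (φ w) := by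
  induction h with
  | zero => exact Nul.of_zero (Eventually.of_forall fun w _ => by simp)
  | gen J a h1 h2 h3 =>
    obtain ⟨q, rfl⟩ : ∃ q, p = q + 1 := ⟨p - 1, by omega⟩
    have hA : T \ J ⊆ C := Finset.sdiff_subset.trans hT
    refine nul_succ.2 ((Loc.mon P (fun i => Q i + if i ∈ T \ J then 1 else 0) _ (smN_star h3)
      ?_).congr _ _ (Eventually.of_forall fun w hw => ?_))
    · refine (Finset.card_le_card (t := J) fun i hi => ?_).trans (by omega)
      obtain ⟨i1, i2⟩ := Finset.mem_filter.1 hi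
      beta_reduce at i2
      by_contra hJ
      by_cases hi' : i ∈ T
      · rw [if_pos (Finset.mem_sdiff.2 ⟨hi', hJ⟩), (hr i hi').1] at i2
        obtain ⟨⟨j, hj⟩, -⟩ := i2
        have h4 : (0 : ℝ) ≤ Q i := by exact_mod_cast (hr i hi').2
        have h5 : (0 : ℝ) ≤ j := Nat.cast_nonneg j
        push_cast at hj
        linarith
      · rw [if_neg fun h => hi' (Finset.mem_sdiff.1 h).1, add_zero] at i2
        exact hb i (Finset.mem_sdiff.2 ⟨i1, hi'⟩) i2
    · rw [star_mul', ← mul_assoc, mon_conj hw hA]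
  | add a b _ _ i1 i2 =>
    exact (i1.add i2).congr (Eventually.of_forall fun w _ => by rw [star_add, mul_add])
  | congr a b _ e i => exact i.congr (e.mono fun w hw _ => by simp only [hw])

theorem not_bad_frac {ρ : ℝ} (h1 : -1 < ρ) (h2 : ρ < 0) (P Q : ℤ) : ¬BadC ρ P Q := by
  rintro ⟨⟨j, hj⟩, -⟩
  have e : ρ = ((-(Q + 1 + j) : ℤ) : ℝ) := by push_cast; linarith
  rw [e] at h1 h2
  have a : (-1 : ℤ) < -(Q + 1 + j) := by exact_mod_cast h1
  have b : -(Q + 1 + j) < (0 : ℤ) := by exact_mod_cast h2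
  omega

theorem not_bad_of_Q {ρ : ℝ} (h1 : -1 < ρ) (P : ℤ) {Q : ℤ} (hQ : 0 ≤ Q) : ¬BadC ρ P Q := by
  rintro ⟨⟨j, hj⟩, -⟩
  have h4 : (0 : ℝ) ≤ Q := by exact_mod_cast hQ
  have h5 : (0 : ℝ) ≤ j := Nat.cast_nonneg j
  linarith

theorem not_bad_of_P {ρ : ℝ} (h1 : -1 < ρ) {P : ℤ} (hP : 0 ≤ P) (Q : ℤ) : ¬BadC ρ P Q := by
  rintro ⟨-, h⟩
  have h4 : (0 : ℝ) ≤ P := by exact_mod_cast hP
  linarith

/-- The value of a negligible function is zero. -/
theorem val_nul (hV : St_VAL) (hM : St_MINT) (hA : St_AC1) {w : E n → ℝ} {K : Set (E n)}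
    (hK : IsCompact K) (hw : ∀ z ∈ K, SmN w z) (h0 : ∀ z ∉ K, φ z = 0)
    (h : ∀ z ∈ K, Nul C r p z φ) : Val (fun t => (t : ℂ) ^ p * RI C w φ t) 0 := by
  rcases p with _ | q
  · refine hV.2.2.2.1 _ _ _ hV.2.2.1 (Eventually.of_forall fun t => ?_)
    have : RI C w φ t = 0 := by
      refine integral_eq_zero_of_ae ((hM n C).1.mono fun z hz => ?_)
      by_cases hk : z ∈ K
      · simp [((h z hk).2 rfl).self_of_nhds hz]
      · simp [h0 z hk]
    rw [this, mul_zero]
  · exact (hA n C r q w K φ hK hw h0 fun z hz => (h z hz).1).2.2 _ (Nat.lt_succ_self q)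

/-- Change of adapted coordinates. -/
theorem nul_chg (hL : St_LCH) {n' : ℕ} {C' : Finset (Fin n')} {r' : Fin n' → ℝ} {χ : E n → E n'}
    {τ : Fin n' → Fin n} {φ : E n' → ℂ} (h1 : SmN χ z)
    (h2 : Set.BijOn τ {i | i ∈ C' ∧ χ z i = 0} {i | i ∈ C ∧ z i = 0})
    (h3 : ∀ i ∈ C', χ z i = 0 → r (τ i) = r' i ∧
      ∃ u : E n → ℂ, SmN u z ∧ u z ≠ 0 ∧ ∀ᶠ w in 𝓝 z, χ w i = u w * w (τ i))
    (h : Nul C' r' p (χ z) φ) : Nul C r p z (φ ∘ χ) := by
  refine ⟨hL n n' C C' r r' _ χ z τ φ h1 h2 h3 h.1, fun hp => ?_⟩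
  have hc := h1.self_of_nhds.continuousAt
  have e : ∀ᶠ w in 𝓝 z, ∀ i ∈ C', Off C w → χ w i ≠ 0 := by
    refine (eventually_all_finset C').2 fun i hi => ?_
    by_cases h0 : χ z i = 0
    · obtain ⟨-, u, u1, u2, u3⟩ := h3 i hi h0
      filter_upwards [u3, u1.self_of_nhds.continuousAt.eventually_ne u2] with w a b hw
      rw [a]
      exact mul_ne_zero b (hw _ (h2.mapsTo ⟨hi, h0⟩).1)
    · exact (((continuous_apply i).continuousAt.comp hc).eventually_ne h0).mono fun w a _ => a
  filter_upwards [hc.eventually (h.2 hp), e] with w a b hw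
  exact a fun i hi => b i hi hw

end Pool.Agent.Lib.EX.K62
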