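import Pool.Agent.Lib.EX.Blue
import Pool.Agent.Lib.EX.K62B

/-! Rules for residues. -/

open scoped Classical Topology ContDiff
open Set MeasureTheory Complex Metric Filter

set_option linter.unusedSectionVars false

noncomputable section

namespace Pool.Agent.Lib.EX

open Pool.Agent.Lib.SV (E)
open Pool.Agent.Lib.HS32
open Pool.Agent.Lib.EXA (SmN)
open K62 (smN_const smN_mul smN_add smN_sum smN_hol smN_dzb holN_const holN_mul holN_sum)

namespace RES

variable {n : ℕ} {ι : Type} [Fintype ι] [DecidableEq ι] {c : ι → Option (Fin n)} {G : ι → ℤ}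
  {T I : Finset ι} {p : ℕ} {ρ ρ' s s' : Finset ι → E n → ℂ} {F F' : E n → ℂ} {z : E n}

theorem mem_lt {q : ℕ} {J : Finset ι} : J ∈ lt T q ↔ J ⊆ T ∧ J.card < q := by
  simp only [lt, Finset.mem_filter, Finset.mem_powerset]

theorem slice (hI : I ∈ T.powersetCard p) (hz : Sl c I z) (a : Finset ι → ℂ) :
    ∑ J ∈ lt T (p + 1), xs c (T \ J) z * a J = xs c (T \ I) z * a I := by
  obtain ⟨h1, h2⟩ := Finset.mem_powersetCard.1 hI
  refine Finset.sum_eq_single_of_mem I (mem_lt.2 ⟨h1, by omega⟩) fun J hJ hne => ?_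
  obtain ⟨i, hi, hi'⟩ := Finset.not_subset.1 fun h : I ⊆ J =>
    hne (Finset.eq_of_subset_of_card_le h (by have := (mem_lt.1 hJ).2; omega)).symm
  rw [xs, Finset.prod_eq_zero (Finset.mem_sdiff.2 ⟨h1 hi, hi'⟩) (hz i hi), zero_mul]

theorem sum_top (a : Finset ι → ℂ) (b : Finset ι → E n → ℂ) :
    ∑ J ∈ lt T (p + 1), a J * (if J ∈ T.powersetCard p then b J else 0) z =
      ∑ J ∈ T.powersetCard p, a J * b J z := by
  rw [← Finset.sum_subset (s₁ := T.powersetCard p) (fun J hJ => mem_lt.2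
    ⟨(Finset.mem_powersetCard.1 hJ).1, by have := (Finset.mem_powersetCard.1 hJ).2; omega⟩)
    fun J _ hJ => by rw [if_neg hJ, Pi.zero_apply, mul_zero]]
  exact Finset.sum_congr rfl fun J hJ => by rw [if_pos hJ]

theorem ev_eq (hM : St_MON) {f g : E n → ℂ} (hf : SmN f z) (hg : SmN g z)
    (h : ∀ᶠ y in 𝓝 z, Off c y → f y = g y) : ∀ᶠ y in 𝓝 z, f y = g y := by
  filter_upwards [hf, hg, h.eventually_nhds] with y h1 h2 h3
  exact tendsto_nhds_unique_of_frequently_eq h1.continuousAt h2.continuousAt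
    (((mem_closure_iff_frequently.1 ((hM n ι c).2.1 y)).and_eventually h3).mono fun x hx => hx.2 hx.1)

theorem sm_num (hM : St_MON) (S : Finset (Finset ι)) (hs : ∀ J, SmN (s J) z) :
    SmN (fun y => ∑ J ∈ S, xs c (T \ J) y * s J y) z :=
  smN_sum fun J _ => smN_mul (smN_hol ((hM n ι c).2.2.2.2.1 _ z)) (hs J)

theorem uniq (hM : St_MON) (hc : Inj c) (hs : ∀ J, SmN (s J) z) (hs' : ∀ J, SmN (s' J) z)
    (h : ∀ᶠ y in 𝓝 z, Off c y → F y = xm c (-G) y * ∑ J ∈ lt T (p + 1), xs c (T \ J) y * s J y)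
    (h' : ∀ᶠ y in 𝓝 z, Off c y → F y = xm c (-G) y * ∑ J ∈ lt T (p + 1), xs c (T \ J) y * s' J y)
    (hI : I ∈ T.powersetCard p) : ∀ᶠ y in 𝓝 z, Sl c I y → s I y = s' I y := by
  obtain ⟨-, -, -, -, -, -, -, -, m1, -, -, -, -, m2⟩ := hM n ι c
  have e := ev_eq (c := c) hM (sm_num hM (lt T (p + 1)) hs) (sm_num hM (lt T (p + 1)) hs')
    ((h.and h').mono fun y hy ho => mul_left_cancel₀ (m1 (-G) 0 y ho).2.1
      ((hy.1 ho).symm.trans (hy.2 ho)))
  filter_upwards [hs I, hs' I, e.eventually_nhds] with y h1 h2 h3 h4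
  refine sub_eq_zero.1 ((m2 hc).2.2.2.2 I (fun x => s I x - s' I x) y h4
    (h1.continuousAt.sub h2.continuousAt) (h3.mono fun x hx h5 h6 => sub_eq_zero.2 ?_))
  rw [slice hI h5 fun J => s J x, slice hI h5 fun J => s' J x] at hx
  exact mul_left_cancel₀ (Finset.prod_ne_zero_iff.2 fun i hi => h6 i (Finset.mem_sdiff.1 hi).2) hx

theorem add (h : Res c G T p ρ F z) (h' : Res c G T p ρ' F' z) :
    Res c G T p (ρ + ρ') (F + F') z := by
  obtain ⟨s, h1, h2, h3⟩ := h
  obtain ⟨s', k1, k2, k3⟩ := h'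
  refine ⟨fun J y => s J y + s' J y, fun J => smN_add (h1 J) (k1 J),
    (h2.and k2).mono fun y hy ho => ?_, fun I hI => ((h3 I hI).and (k3 I hI)).mono fun y hy hs => ?_⟩
  · rw [Pi.add_apply, hy.1 ho, hy.2 ho, ← mul_add, ← Finset.sum_add_distrib]
    simp only [mul_add]
  · exact congrArg₂ (· + ·) (hy.1 hs) (hy.2 hs)

theorem zero : Res c G T p 0 0 z :=
  ⟨0, fun _ => smN_const (0 : ℂ), Eventually.of_forall fun y _ => by simp,
    fun _ _ => Eventually.of_forall fun _ _ => rfl⟩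

theorem dzb_hol {f g : E n → ℂ} (hf : HolN f z) (hg : DifferentiableAt ℝ g z) (j : Fin n) :
    dzb j (fun y => f y * g y) z = f z * dzb j g z := by
  have h := cd_diff (smN_hol hf).self_of_nhds
  rw [dzb_mul h hg, ((mHOL n f z).1 h).1 hf.self_of_nhds j]
  ring

end RES

open RES in
theorem bRES (hM : St_MON) (hD : St_DIV) : St_RES := by
  intro n ι _ _ c G T p ρ ρ' F F' z hc
  refine ⟨fun ⟨s, h1, h2, h3⟩ => ⟨⟨s, h1, h2⟩, ?_⟩,
    fun ⟨s, h1, h2⟩ => ⟨s, h1, s, h1, h2, fun _ _ => Eventually.of_forall fun _ _ => rfl⟩,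
    fun ⟨s, h1, h2⟩ => ⟨s, h1, s, fun J => smN_hol (h1 J), h2,
      fun _ _ => Eventually.of_forall fun _ _ => rfl⟩, fun ⟨s, h1, h2⟩ => ?_, add,
    fun t ht ⟨s, h1, h2, h3⟩ => ?_,
    fun ⟨s, h1, h2, h3⟩ e e' => ⟨s, h1, (h2.and e).mono fun y hy ho => (hy.2 ho).trans (hy.1 ho),
      fun I hI => ((h3 I hI).and (e' I hI)).mono fun y hy hs => (hy.1 hs).trans (hy.2 hs).symm⟩,
    fun ⟨s, h1, h2, h3⟩ ⟨s', k1, k2, k3⟩ I hI => ?_, fun h => ?_, fun h => ?_,
    fun ⟨s, h1, h2⟩ ⟨s', k1, k2, k3⟩ => ?_, fun ⟨s, h1, h2, h3⟩ j => ?_, fun τ S σ Φ h => ?_⟩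
  · filter_upwards [eventually_all.2 fun J => (h1 J).eventually_nhds, h2.eventually_nhds,
      (eventually_all_finset _).2 fun I hI => (h3 I hI).eventually_nhds] with y k1 k2 k3
    exact ⟨s, k1, k2, k3⟩
  · refine ⟨fun J => if J.card < p then s J else 0, fun J => ?_, h2.mono fun y hy ho => ?_,
      fun I hI => Eventually.of_forall fun y _ => ?_⟩
    · beta_reduce
      split_ifs
      exacts [h1 J, smN_const (0 : ℂ)]
    · rw [hy ho, ← Finset.sum_subset (s₁ := lt T p) (s₂ := lt T (p + 1))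
        (fun J hJ => mem_lt.2 ⟨(mem_lt.1 hJ).1, (mem_lt.1 hJ).2.trans p.lt_succ_self⟩)
        fun J h hJ => by
          beta_reduce
          rw [if_neg fun k => hJ (mem_lt.2 ⟨(mem_lt.1 h).1, k⟩), Pi.zero_apply, mul_zero]]
      exact congrArg _ (Finset.sum_congr rfl fun J hJ => by simp only [if_pos (mem_lt.1 hJ).2])
    · beta_reduce
      rw [if_neg (Finset.mem_powersetCard.1 hI).2.not_lt]
      rfl
  · refine ⟨fun J y => t y * s J y, fun J => smN_mul ht (h1 J), h2.mono fun y hy ho => ?_,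
      fun I hI => (h3 I hI).mono fun y hy hs => ?_⟩
    · rw [Pi.mul_apply, hy ho, mul_left_comm, Finset.mul_sum]
      simp only [mul_left_comm]
    · exact congrArg (t y * ·) (hy hs)
  · filter_upwards [uniq hM hc h1 k1 h2 k2 hI, h3 I hI, k3 I hI] with y e1 e2 e3 hs
    rw [← e2 hs, e1 hs, e3 hs]
  · refine ⟨fun J => if J ∈ T.powersetCard p then ρ J else 0, fun J => ?_,
      Eventually.of_forall fun y _ => by rw [sum_top, hat],
      fun I hI => Eventually.of_forall fun y _ => by simp only [if_pos hI]⟩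
    beta_reduce
    split_ifs with hJ
    exacts [h J hJ, smN_const (0 : ℂ)]
  · refine ⟨fun J => if J ∈ T.powersetCard p then ρ J else 0, fun J => ?_,
      Eventually.of_forall fun y _ => by rw [sum_top, hat]⟩
    beta_reduce
    split_ifs with hJ
    exacts [h J hJ, holN_const 0]
  · obtain ⟨t, t1, t2⟩ := (hD n ι c (fun y => ∑ J ∈ lt T (p + 1), xs c (T \ J) y * s J y) z hc
      (holN_sum fun J _ => holN_mul ((hM n ι c).2.2.2.2.1 _ z) (h1 J))).2 T p fun I hI => by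
        filter_upwards [uniq hM hc (fun J => smN_hol (h1 J)) k1 h2 k2 hI, k3 I hI] with y e1 e2 hs
        rw [slice hI hs fun J => s J y, e1 hs, e2 hs]
        exact mul_zero _
    exact ⟨t, t1, (h2.and t2).mono fun y hy ho => by rw [hy.1 ho, hy.2]⟩
  · obtain ⟨m0, -, -, -, m1, m2, -, -, -, -, -, -, m3, -⟩ := hM n ι c
    refine ⟨fun J => dzb j (s J), ⟨_, fun J => smN_dzb (h1 J) j, ?_,
      fun _ _ => Eventually.of_forall fun _ _ => rfl⟩, fun I hI hj hρ => ?_⟩
    · filter_upwards [eventually_all.2 h1, h2.eventually_nhds, sm_num (T := T) (c := c) hM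
        (lt T (p + 1)) h1] with y k1 k2 k3 ho
      rw [dzb_congr ((k2.and (m0 y ho)).mono fun x hx => hx.1 hx.2), dzb_hol (m2 _ y ho) (cd_diff k3),
        dzb_sum fun J _ => (cd_diff (smN_hol (m1 _ y)).self_of_nhds).fun_mul (cd_diff (k1 J))]
      exact congrArg _ (Finset.sum_congr rfl fun J _ => dzb_hol (m1 _ y) (cd_diff (k1 J)) j)
    · filter_upwards [h1 I, hρ, (h3 I hI).eventually_nhds] with y k1 k2 k3 hs
      exact (m3 I _ _ y j hs hj (cd_diff k1) (cd_diff k2) k3).2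
  · induction S using Finset.induction_on with
    | empty => exact zero
    | insert a S ha ih =>
      rw [Finset.sum_insert ha, Finset.sum_insert ha]
      exact add (h a (Finset.mem_insert_self _ _)) (ih fun t ht => h t (Finset.mem_insert_of_mem ht))

end Pool.Agent.Lib.EX
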