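import Pool.Agent.Lib.EX.Blue
import Pool.Agent.Lib.EXA.B_MINT
import Pool.Agent.Lib.EXA.B_AC2

/-! Integrals over a stratum. -/

open scoped Classical Topology ContDiff ComplexOrder Matrix
open Set MeasureTheory Complex Metric Filter

set_option linter.unusedVariables false
set_option linter.unusedSectionVars false

noncomputable section

namespace Pool.Agent.Lib.EX

open Pool.Agent.Lib.SV (E)
open Pool.Agent.Lib.HS32
open Pool.Agent.Lib.EXA (Val SmN emb)

namespace SIP

variable {n : ℕ} {ι : Type} [Fintype ι] [DecidableEq ι] (c : ι → Option (Fin n)) (I : Finset ι)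

/-- The enumeration of the tangential coordinates. -/
def jt : Fin (tg c I).card → Fin n := (tg c I).orderEmbOfFin rfl

theorem jt_inj : Function.Injective (jt c I) := ((tg c I).orderEmbOfFin rfl).injective

theorem mem_range {k : Fin n} : k ∈ range (jt c I) ↔ ¬ Nm c I k := by
  rw [jt, Finset.range_orderEmbOfFin]
  simp [tg]

theorem par_jt (y : E (tg c I).card) (a : Fin (tg c I).card) : par c I y (jt c I a) = y a :=
  EXA.AC2.emb_apply (jt_inj c I) y a

theorem par_nm (y : E (tg c I).card) {k : Fin n} (h : Nm c I k) : par c I y k = 0 :=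
  EXA.AC2.emb_not (j := jt c I) y fun h' => (mem_range c I).1 h' h

theorem par_cont : Continuous (par c I) := EXA.AC2.emb_cont (jt_inj c I)

theorem norm_le_par (y : E (tg c I).card) : ‖y‖ ≤ ‖par c I y‖ :=
  (pi_norm_le_iff_of_nonneg (norm_nonneg _)).2 fun a => by
    rw [← par_jt c I y a]
    exact norm_le_pi_norm _ _

theorem sl_par (h : ∀ i ∈ I, c i ≠ none) (y : E (tg c I).card) : Sl c I (par c I y) := by
  intro i hi
  obtain ⟨k, hk⟩ := Option.ne_none_iff_exists'.1 (h i hi)
  rw [xi, hk]
  exact par_nm c I y ⟨i, hi, hk⟩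

theorem ne_none {z : E n} (h : Sl c I z) : ∀ i ∈ I, c i ≠ none := fun i hi e => by
  have := h i hi
  simp [xi, e] at this

theorem par_surj {z : E n} (h : Sl c I z) : par c I (fun a => z (jt c I a)) = z := by
  funext k
  by_cases hk : Nm c I k
  · rw [par_nm c I _ hk]
    obtain ⟨i, hi, e⟩ := hk
    have := h i hi
    rw [xi, e] at this
    exact this.symm
  · obtain ⟨a, rfl⟩ := (mem_range c I).2 hk
    exact par_jt c I _ a

/-- The exponent of a tangential coordinate. -/
def rho (r : ι → ℝ) (a : Fin (tg c I).card) : ℝ := ∑ i, if c i = some (jt c I a) then r i else 0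

theorem rho_gt (hc : Inj c) {r : ι → ℝ} (hr : ∀ i, -1 < r i) (a : Fin (tg c I).card) :
    -1 < rho c I r a := by
  by_cases h : ∃ i, c i = some (jt c I a)
  · obtain ⟨i, hi⟩ := h
    rw [rho, Finset.sum_eq_single i (fun k _ hk => if_neg fun e => hk (hc k i _ e hi)) (by simp),
      if_pos hi]
    exact hr i
  · rw [rho, Finset.sum_eq_zero fun i _ => if_neg fun e => h ⟨i, e⟩]
    norm_num

theorem xr_par (hc : Inj c) {r : ι → ℝ} (hI : ∀ i ∈ I, r i = 0) {y : E (tg c I).card}
    (hy : ∀ a, y a ≠ 0) : xr c r (par c I y) = ∏ a, normSq (y a) ^ rho c I r a := by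
  simp only [rho, Real.rpow_sum_of_pos (normSq_pos.2 (hy _))]
  rw [Finset.prod_comm, xr]
  refine Finset.prod_congr rfl fun i _ => ?_
  by_cases h : ∃ a, c i = some (jt c I a)
  · obtain ⟨a, ha⟩ := h
    rw [Finset.prod_eq_single a (fun b _ hb => by
      rw [if_neg fun e => hb (jt_inj c I (Option.some.inj (e.symm.trans ha))), Real.rpow_zero])
      (by simp), if_pos ha, xi, ha, Option.elim_some, par_jt]
  · rw [Finset.prod_eq_one fun a _ => by rw [if_neg fun e => h ⟨a, e⟩, Real.rpow_zero]]
    cases hk : c i with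
    | none => simp [xi, hk]
    | some k =>
      have : Nm c I k := by
        by_contra hn
        obtain ⟨a, rfl⟩ := (mem_range c I).2 hn
        exact h ⟨a, hk⟩
      obtain ⟨i', hi', e⟩ := this
      rw [hc i i' k hk e, hI i' hi', Real.rpow_zero]

theorem ae_ne (m : ℕ) : ∀ᵐ y : E m, ∀ a, y a ≠ 0 :=
  (EXA.MINT.ae_off Finset.univ).mono fun y hy a => hy a (Finset.mem_univ a)

theorem xr_nonneg (r : ι → ℝ) (z : E n) : 0 ≤ xr c r z :=
  Finset.prod_nonneg fun i _ => Real.rpow_nonneg (normSq_nonneg _) _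

theorem int_par (hc : Inj c) {r : ι → ℝ} (hr : ∀ i, -1 < r i) (hI : ∀ i ∈ I, r i = 0)
    {φ : E n → ℂ} (h1 : ContinuousOn φ {z | Sl c I z}) (h2 : ∀ z, Sl c I z → 1 < ‖z‖ → φ z = 0) :
    SIi c I fun z => (xr c r z : ℝ) * φ z := by
  intro h
  have g1 : Continuous fun y => φ (par c I y) := h1.comp_continuous (par_cont c I) (sl_par c I h)
  have g2 : HasCompactSupport fun y => φ (par c I y) :=
    HasCompactSupport.intro (isCompact_closedBall 0 1) fun y hy =>
      h2 _ (sl_par c I h y) (lt_of_lt_of_le (by simpa using hy) (norm_le_par c I y))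
  refine (EXA.MINT.int_mon Finset.univ (rho c I r) 0 0 g1 g2 fun a _ => ?_).congr
    ((ae_ne _).mono fun y hy => ?_)
  · have := rho_gt c I hc hr a
    simp only [Pi.zero_apply, Int.cast_zero, add_zero]
    linarith
  · simp [EXA.mon, xr_par c I hc hI hy]

end SIP

open SIP in
theorem bSIP : St_SIP := by
  intro n ι _ _ c r I hc hr hI
  refine ⟨fun φ φ' => ⟨fun h => ?_, ?_, fun t => ?_, fun h h' => ⟨fun hn => (h hn).add (h' hn), ?_⟩⟩,
    fun φ h1 h2 => int_par c I hc (fun i => (hr i).1) hI h1 h2, fun φ h1 h2 h3 => ?_⟩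
  · by_cases hn : ∀ i ∈ I, c i ≠ none
    · have e : (fun y => φ (par c I y)) = fun y => φ' (par c I y) :=
        funext fun y => h _ (sl_par c I hn y)
      exact ⟨by rw [SI, SI, e], fun h' _ => e ▸ h' hn⟩
    · exact ⟨by rw [SI, SI, if_neg hn, if_neg hn], fun _ h' => (hn h').elim⟩
  · rw [SI, SI]
    split_ifs
    · rw [star_mul', star_pow, Complex.star_def, conj_ofReal, ← integral_conj]
      rfl
    · simp
  · rw [SI, SI]
    split_ifs
    · simp only [Pi.smul_apply, smul_eq_mul]
      rw [integral_const_mul]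
      ring
    · simp
  · rw [SI, SI, SI]
    split_ifs with hn
    · simp only [Pi.add_apply]
      rw [integral_add (h hn) (h' hn), mul_add]
    · simp
  · by_cases hn : ∀ i ∈ I, c i ≠ none
    · have p0 : ∀ y, 0 ≤ xr c r (par c I y) * φ (par c I y) := fun y =>
        mul_nonneg (xr_nonneg c r _) (h3 _ (sl_par c I hn y))
      have e : SI c I (fun z => (xr c r z * φ z : ℝ)) =
          ((Real.pi ^ I.card * ∫ y, xr c r (par c I y) * φ (par c I y) : ℝ) : ℂ) := by
        rw [SI, if_pos hn, integral_complex_ofReal]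
        push_cast
        rfl
      rw [e]
      refine ⟨zero_le_real.2 (mul_nonneg (by positivity) (integral_nonneg p0)), fun h0 z hz => ?_⟩
      have i1 := int_par c I hc (fun i => (hr i).1) hI (φ := fun z => (φ z : ℂ))
        (continuous_ofReal.comp_continuousOn h1) (fun z a b => by rw [h2 z a b, ofReal_zero]) hn
      have i2 : Integrable fun y => xr c r (par c I y) * φ (par c I y) := by
        simpa using i1.re
      have i3 := (integral_eq_zero_iff_of_nonneg p0 i2).1
        ((mul_eq_zero.1 (ofReal_eq_zero.1 h0)).resolve_left (by positivity))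
      have g1 : Continuous fun y => φ (par c I y) :=
        h1.comp_continuous (par_cont c I) (sl_par c I hn)
      have i4 : (fun y => φ (par c I y)) =ᵐ[volume] fun _ => 0 := by
        filter_upwards [i3, ae_ne _] with y h4 h5
        refine (mul_eq_zero.1 h4).resolve_left ?_
        rw [xr_par c I hc hI h5]
        exact (Finset.prod_pos fun a _ => Real.rpow_pos_of_pos (normSq_pos.2 (h5 a)) _).ne'
      rw [← par_surj c I hz]
      exact congrFun ((g1.ae_eq_iff_eq volume continuous_const).1 i4) _
    · rw [SI, if_neg hn]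
      exact ⟨le_rfl, fun _ z hz => (hn (ne_none c I hz)).elim⟩

end Pool.Agent.Lib.EX
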