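import Pool.Agent.Lib.EX.Blue

/-! Project ex41: rules for the sum of the integrals over the strata. -/

open scoped Classical Topology ContDiff ComplexOrder Matrix
open Set MeasureTheory Complex Metric Filter

noncomputable section

namespace Pool.Agent.Lib.EX

open Pool.Agent.Lib.SV (E)
open Pool.Agent.Lib.HS32

namespace SS86

variable {n : ℕ} {χ x : E n → ℝ} {ρ : E n → ℂ}

theorem eq (χ x : E n → ℝ) (ρ : E n → ℂ) : ((B2 n).indicator fun z => (χ z * x z : ℝ) * ρ z) =
    fun z => (x z : ℝ) * (B2 n).indicator (fun z => χ z * ρ z) z := funext fun z => by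
  by_cases h : z ∈ B2 n
  · simp only [indicator_of_mem h]; push_cast; ring
  · simp only [indicator_of_notMem h, mul_zero]

theorem out (h : ∀ z ∈ B2 n, 1 < ‖z‖ → χ z = 0) {z : E n} (hz : 1 < ‖z‖) :
    (B2 n).indicator (fun z => χ z * ρ z) z = 0 := by
  by_cases h1 : z ∈ B2 n
  · simp [indicator_of_mem h1, h z h1 hz]
  · exact indicator_of_notMem h1 _

theorem cont (h : ∀ z ∈ B2 n, 1 < ‖z‖ → χ z = 0) (hχ : ∀ z ∈ B2 n, ContinuousAt χ z)
    (hρ : ∀ z ∈ B2 n, ContinuousAt ρ z) : Continuous ((B2 n).indicator fun z => χ z * ρ z) := by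
  refine continuous_iff_continuousAt.2 fun z => ?_
  by_cases h1 : z ∈ B2 n
  · refine ((continuous_ofReal.continuousAt.comp (hχ z h1)).mul (hρ z h1)).congr ?_
    filter_upwards [isOpen_ball.mem_nhds h1] with y hy
    exact (indicator_of_mem hy _).symm
  · refine (continuousAt_const (y := (0 : ℂ))).congr ?_
    have h2 : 1 < ‖z‖ := by
      rw [mem_ball_zero_iff] at h1
      linarith
    filter_upwards [(isOpen_lt continuous_const continuous_norm).mem_nhds h2] with y hy
    exact (out h hy).symm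

end SS86

open SS86

theorem bSS (hS : St_SIP) (hT : St_TRF) : St_SS := by
  intro n M _ ι _ _ D r T q hr hT' ρ ρ'
  have t := (hT n M ι D).2.1
  have s := fun a I (hI : I ∈ T.powersetCard q) => hS n ι (D.c a) r I (D.inj a) hr
    fun i hi => hT' i ((Finset.mem_powersetCard.1 hI).1 hi)
  have o := fun a z hz => (t a z hz).2.2.2
  have k := fun a (f : E n → ℂ) => cont (ρ := f) (o a) fun z hz => (t a z hz).2.2.1.continuousAt
  refine ⟨fun h => ?_, ?_, fun u => ?_, fun h => ⟨fun h' => ?_, fun h' => ?_⟩⟩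
  · refine Finset.sum_congr rfl fun a _ => Finset.sum_congr rfl fun I hI =>
      (((s a I hI).1 _ _).1 fun z hz => ?_).1
    by_cases h1 : z ∈ B2 n
    · simp only [indicator_of_mem h1, h I hI a z h1 hz]
    · simp only [indicator_of_notMem h1]
  · simp only [Ad.SS, star_sum]
    refine Finset.sum_congr rfl fun a _ => Finset.sum_congr rfl fun I hI => ?_
    rw [← ((s a I hI).1 _ 0).2.1]
    refine congrArg _ (funext fun z => ?_)
    by_cases h1 : z ∈ B2 n <;> simp [h1, mul_comm]
  · simp only [Ad.SS, Finset.mul_sum]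
    refine Finset.sum_congr rfl fun a _ => Finset.sum_congr rfl fun I hI => ?_
    rw [← ((s a I hI).1 _ 0).2.2.1]
    refine congrArg _ (funext fun z => ?_)
    by_cases h1 : z ∈ B2 n <;> simp [h1, mul_left_comm]
  · simp only [Ad.SS, ← Finset.sum_add_distrib]
    refine Finset.sum_congr rfl fun a _ => Finset.sum_congr rfl fun I hI => ?_
    simp only [eq]
    rw [← (((s a I hI).1 _ _).2.2.2
      ((s a I hI).2.1 _ (k a _ (h I hI a)).continuousOn fun z _ hz => out (o a) hz)
      ((s a I hI).2.1 _ (k a _ (h' I hI a)).continuousOn fun z _ hz => out (o a) hz)).2]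
    refine congrArg _ (funext fun z => ?_)
    by_cases h1 : z ∈ B2 n <;> simp [h1, mul_add]
  · have p : ∀ a, ∀ I ∈ T.powersetCard q, ∀ z, Sl (D.c a) I z →
        0 ≤ (B2 n).indicator (fun z => D.rd (D.χ a) a z * ρ I a z) z := fun a I hI z hz => by
      by_cases h1 : z ∈ B2 n
      · rw [indicator_of_mem h1]
        exact mul_nonneg (zero_le_real.2 (D.nn a _)) (h' I hI a z h1 hz)
      · rw [indicator_of_notMem h1]
    have v := fun a I hI => (s a I hI).2.2
      (fun z => ((B2 n).indicator (fun z => D.rd (D.χ a) a z * ρ I a z) z).re)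
      (continuous_re.comp (k a _ (h I hI a))).continuousOn
      (fun z _ hz => by rw [out (o a) hz, zero_re]) fun z hz => (nonneg_iff.1 (p a I hI z hz)).1
    have e : D.SS r T q ρ = ∑ a, ∑ I ∈ T.powersetCard q, SI (D.c a) I fun z => (xr (D.c a) r z *
        ((B2 n).indicator (fun z => D.rd (D.χ a) a z * ρ I a z) z).re : ℝ) :=
      Finset.sum_congr rfl fun a _ => Finset.sum_congr rfl fun I hI =>
        (((s a I hI).1 _ _).1 fun z hz => by
          rw [eq, ofReal_mul, ← eq_re_of_ofReal_le (p a I hI z hz)]).1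
    rw [e]
    refine ⟨Finset.sum_nonneg fun a _ => Finset.sum_nonneg fun I hI => (v a I hI).1,
      fun h0 I hI a z hz hs hχ => ?_⟩
    have h1 := (v a I hI).2 ((Finset.sum_eq_zero_iff_of_nonneg fun I hI => (v a I hI).1).1
      ((Finset.sum_eq_zero_iff_of_nonneg fun a _ => Finset.sum_nonneg fun I hI => (v a I hI).1).1
        h0 a (Finset.mem_univ a)) I hI) z hs
    have h2 := eq_re_of_ofReal_le (p a I hI z hs)
    rw [h1, indicator_of_mem hz] at h2
    exact (mul_eq_zero.1 h2).resolve_left (ofReal_ne_zero.2 hχ)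

end Pool.Agent.Lib.EX
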