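import Pool.Agent.Lib.EX.Blue

/-! Project ex41, row TRF: change of chart. -/

open scoped Classical Topology ContDiff ComplexOrder Matrix
open Set MeasureTheory Complex Metric Filter

set_option linter.unusedVariables false
set_option linter.unusedSectionVars false

noncomputable section

namespace Pool.Agent.Lib.EX

open Pool.Agent.Lib.SV (E)
open Pool.Agent.Lib.HS32
open Pool.Agent.Lib.EXA (Val SmN emb)

namespace TRF

variable {n : ℕ} {M : Mf n} {ι : Type} [Fintype ι] [DecidableEq ι] (D : Ad M ι)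
  {a b : D.A} {x : M.X}

/-- Points near a point of an overlap. -/
theorem near (ha : x ∈ (D.e a).source) (hb : x ∈ (D.e b).source) :
    ∀ᶠ z in 𝓝 (D.e b x), (D.e b).symm z ∈ (D.e a).source ∧ (D.e b).symm z ∈ (D.e b).source ∧
      D.e b ((D.e b).symm z) = z := by
  filter_upwards [((mTR n M).2.1 _ (D.mem a) _ (D.mem b) x ha hb).2.2.2.1] with w hw
  exact ⟨hw.2.1, hw.2.2.1, hw.2.2.2.2.2.1⟩

/-- The change of chart is holomorphic. -/
theorem holT (ha : x ∈ (D.e a).source) (hb : x ∈ (D.e b).source) :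
    HolN (D.e a ∘ (D.e b).symm) (D.e b x) :=
  ((mTR n M).2.1 _ (D.mem a) _ (D.mem b) x ha hb).1

theorem tend (ha : x ∈ (D.e a).source) (hb : x ∈ (D.e b).source) :
    Tendsto (fun z => D.e a ((D.e b).symm z)) (𝓝 (D.e b x)) (𝓝 (D.e a x)) := by
  have h := (holT D ha hb).self_of_nhds.continuousAt
  have p : (D.e a ∘ (D.e b).symm) (D.e b x) = D.e a x := by
    simp only [Function.comp_apply, (D.e b).left_inv hb]
  rw [ContinuousAt, p] at h
  exact h

theorem smT (ha : x ∈ (D.e a).source) (hb : x ∈ (D.e b).source) {F : E n → ℂ}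
    (h : SmN F (D.e a x)) : SmN (D.tr a b F) (D.e b x) := by
  filter_upwards [(tend D ha hb).eventually h, (holT D ha hb).eventually_nhds] with w h1 h2
  exact ContDiffAt.comp (g := F) (f := D.e a ∘ (D.e b).symm) w h1 (mCHN n _ _ h2).1

theorem hoT (ha : x ∈ (D.e a).source) (hb : x ∈ (D.e b).source) {F : E n → ℂ}
    (h : HolN F (D.e a x)) : HolN (D.tr a b F) (D.e b x) := by
  filter_upwards [(tend D ha hb).eventually h, holT D ha hb] with w h1 h2
  exact DifferentiableAt.comp (g := F) (f := D.e a ∘ (D.e b).symm) w h1 h2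

theorem sm_of_hol {F : E n → ℂ} {z : E n} (h : HolN F z) : SmN F z := by
  filter_upwards [h.eventually_nhds] with w hw
  exact ((mHOL n _ _).2.2 hw).1

theorem um_hol (K : ι → ℤ) (ha : x ∈ (D.e a).source) (hb : x ∈ (D.e b).source) :
    HolN (D.rd (D.um K a b) b) (D.e b x) := by
  have h : ∀ᶠ w in 𝓝 (D.e b x), ∀ i, DifferentiableAt ℂ (D.u a b i ∘ (D.e b).symm) w :=
    eventually_all.2 fun i => D.uhol a b i x ha hb
  filter_upwards [h, near D ha hb] with w h1 h2
  exact (HasFDerivAt.finsetProd (u := Finset.univ)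
    (g := fun i z => D.u a b i ((D.e b).symm z) ^ K i) fun i _ =>
      ((h1 i).zpow (m := K i) (Or.inl (D.une a b i _ h2.1 h2.2.1))).hasFDerivAt).differentiableAt

theorem coc (K : ι → ℤ) : D.Coc (D.um K) :=
  ⟨fun a b x ha hb => um_hol D K ha hb,
    fun a b x ha hb => Finset.prod_ne_zero_iff.2 fun i _ => zpow_ne_zero _ (D.une a b i x ha hb),
    fun a b x ha hb d hd => by
      simp only [Ad.um, ← Finset.prod_mul_distrib, ← mul_zpow]
      exact Finset.prod_congr rfl fun i _ => by rw [D.umul a b d i x ha hb hd]⟩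

theorem xi_iff (ha : x ∈ (D.e a).source) (hb : x ∈ (D.e b).source) (i : ι) :
    xi (D.c a) i (D.e a x) = 0 ↔ xi (D.c b) i (D.e b x) = 0 := by
  rw [D.urel a b i x ha hb, mul_eq_zero, or_iff_right (D.une a b i x ha hb)]

theorem sl_iff (ha : x ∈ (D.e a).source) (hb : x ∈ (D.e b).source) (I : Finset ι) :
    Sl (D.c a) I (D.e a x) ↔ Sl (D.c b) I (D.e b x) :=
  forall₂_congr fun i _ => xi_iff D ha hb i

theorem off_iff (ha : x ∈ (D.e a).source) (hb : x ∈ (D.e b).source) :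
    Off (D.c a) (D.e a x) ↔ Off (D.c b) (D.e b x) :=
  forall_congr' fun i => (xi_iff D ha hb i).not

theorem xm_eq (ha : x ∈ (D.e a).source) (hb : x ∈ (D.e b).source) (K : ι → ℤ) :
    xm (D.c a) K (D.e a x) = D.um K a b x * xm (D.c b) K (D.e b x) := by
  simp only [xm, Ad.um, ← Finset.prod_mul_distrib, ← mul_zpow]
  exact Finset.prod_congr rfl fun i _ => by rw [D.urel a b i x ha hb]

theorem xs_eq (ha : x ∈ (D.e a).source) (hb : x ∈ (D.e b).source) (J : Finset ι) :
    xs (D.c a) J (D.e a x) = (∏ i ∈ J, D.u a b i x) * xs (D.c b) J (D.e b x) := by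
  simp only [xs, ← Finset.prod_mul_distrib]
  exact Finset.prod_congr rfl fun i _ => D.urel a b i x ha hb

theorem kap_val (ha : x ∈ (D.e a).source) (hb : x ∈ (D.e b).source) (G : ι → ℤ) (T I : Finset ι) :
    D.kap G T I a b x = D.um (-G) a b x * ∏ i ∈ T \ I, D.u a b i x := by
  rw [← Finset.prod_ite_mem_eq (T \ I), Ad.kap, Ad.um, Ad.um, ← Finset.prod_mul_distrib]
  refine Finset.prod_congr rfl fun i _ => ?_
  rw [zpow_add₀ (D.une a b i x ha hb), Pi.neg_apply]
  split_ifs <;> simp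

theorem kap_eq (ha : x ∈ (D.e a).source) (hb : x ∈ (D.e b).source) (G : ι → ℤ) (T I : Finset ι) :
    xm (D.c a) (-G) (D.e a x) * xs (D.c a) (T \ I) (D.e a x) =
      D.kap G T I a b x * (xm (D.c b) (-G) (D.e b x) * xs (D.c b) (T \ I) (D.e b x)) := by
  rw [xm_eq D ha hb, xs_eq D ha hb, kap_val D ha hb]
  ring

theorem kap_hol (ha : x ∈ (D.e a).source) (hb : x ∈ (D.e b).source) (G : ι → ℤ) (T I : Finset ι) :
    HolN (D.rd (D.kap G T I a b) b) (D.e b x) := um_hol D _ ha hb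

/-- Transfer of a representation with one term. -/
theorem rep1 (ha : x ∈ (D.e a).source) (hb : x ∈ (D.e b).source) {K : ι → ℤ} {F s : E n → ℂ}
    (h : ∀ᶠ z in 𝓝 (D.e a x), Off (D.c a) z → F z = xm (D.c a) (-K) z * s z) :
    ∀ᶠ z in 𝓝 (D.e b x), Off (D.c b) z → D.tr a b F z =
      xm (D.c b) (-K) z * (D.tr a b s * D.rd (D.um (-K) a b) b) z := by
  filter_upwards [(tend D ha hb).eventually h, near D ha hb] with w h1 h2 h3
  have h4 := h1 ((off_iff D h2.1 h2.2.1).2 (by rwa [h2.2.2]))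
  rw [xm_eq D h2.1 h2.2.1, h2.2.2] at h4
  simp only [Ad.tr, Ad.rd, Pi.mul_apply]
  rw [h4]
  ring

/-- Transfer of a representation as a sum. -/
theorem rep2 (ha : x ∈ (D.e a).source) (hb : x ∈ (D.e b).source) {G : ι → ℤ} {T : Finset ι}
    {S : Finset (Finset ι)} {F : E n → ℂ} {s : Finset ι → E n → ℂ}
    (h : ∀ᶠ z in 𝓝 (D.e a x), Off (D.c a) z →
      F z = xm (D.c a) (-G) z * ∑ J ∈ S, xs (D.c a) (T \ J) z * s J z) :
    ∀ᶠ z in 𝓝 (D.e b x), Off (D.c b) z → D.tr a b F z = xm (D.c b) (-G) z *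
      ∑ J ∈ S, xs (D.c b) (T \ J) z * (D.tr a b (s J) * D.rd (D.kap G T J a b) b) z := by
  filter_upwards [(tend D ha hb).eventually h, near D ha hb] with w h1 h2 h3
  have h4 := h1 ((off_iff D h2.1 h2.2.1).2 (by rwa [h2.2.2]))
  simp only [Ad.tr, Ad.rd, Pi.mul_apply]
  rw [h4, Finset.mul_sum, Finset.mul_sum]
  refine Finset.sum_congr rfl fun J _ => ?_
  have h5 := kap_eq D h2.1 h2.2.1 G T J
  rw [h2.2.2] at h5
  rw [← mul_assoc, h5]
  ring

theorem smN_mul {f g : E n → ℂ} {z : E n} (hf : SmN f z) (hg : SmN g z) : SmN (f * g) z := by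
  filter_upwards [hf, hg] with w h1 h2
  exact h1.mul h2

theorem holN_mul {f g : E n → ℂ} {z : E n} (hf : HolN f z) (hg : HolN g z) : HolN (f * g) z := by
  filter_upwards [hf, hg] with w h1 h2
  exact h1.mul h2

theorem mem_src {z : E n} (hz : z ∈ B2 n) : (D.e a).symm z ∈ (D.e a).source :=
  (D.e a).map_target (by rwa [D.tgt])

theorem rinv {z : E n} (hz : z ∈ B2 n) : D.e a ((D.e a).symm z) = z :=
  (D.e a).right_inv (by rwa [D.tgt])

theorem mem_B (ha : x ∈ (D.e a).source) : D.e a x ∈ B2 n := by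
  rw [← D.tgt a]
  exact (D.e a).map_source ha

/-- Away from the chart `a` the function `χ a` vanishes locally. -/
theorem chi_zero [M.Cpt] (hb : x ∈ (D.e b).source) (ha : x ∉ (D.e a).source) :
    ∀ᶠ z in 𝓝 (D.e b x), D.rd (D.χ a) b z = 0 := by
  have hs : closedBall (0 : E n) 1 ⊆ (D.e a).target := by
    rw [D.tgt]
    exact closedBall_subset_ball one_lt_two
  have hK : IsClosed ((D.e a).symm '' closedBall (0 : E n) 1) :=
    ((isCompact_closedBall 0 1).image_of_continuousOn ((D.e a).continuousOn_symm.mono hs)).isClosed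
  have hx : x ∉ (D.e a).symm '' closedBall (0 : E n) 1 := by
    rintro ⟨z, hz, rfl⟩
    exact ha ((D.e a).map_target (hs hz))
  have ht : Tendsto (D.e b).symm (𝓝 (D.e b x)) (𝓝 x) := by
    have := (D.e b).continuousAt_symm ((D.e b).map_source hb)
    rwa [ContinuousAt, (D.e b).left_inv hb] at this
  filter_upwards [ht.eventually (hK.isOpen_compl.mem_nhds hx)] with w hw
  by_contra h
  obtain ⟨h1, h2⟩ := D.supp a _ h
  exact hw ⟨_, mem_closedBall_zero_iff.2 h2, (D.e a).left_inv h1⟩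

end TRF

open TRF in
theorem bTRF : St_TRF := by
  intro n M _ ι _ _ D
  refine ⟨coc D, fun a z hz => ⟨mem_src D hz, rinv D hz, D.sm a _ (D.mem a) z (by rwa [D.tgt]),
    fun h => ?_⟩, fun a b x hb ha => chi_zero D hb ha, fun a b x ha hb => ⟨mem_B D ha,
      D.sm a _ (D.mem b) _ ((D.e b).map_source hb), sl_iff D ha hb, off_iff D ha hb, xm_eq D ha hb,
      fun G T I _ => kap_eq D ha hb G T I, fun p h => (tend D ha hb).eventually h,
      fun F => ⟨smT D ha hb, hoT D ha hb⟩, fun G T q F => ⟨?_, ?_, ?_, ?_, ?_⟩⟩⟩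
  · by_contra h'
    have := (D.supp a _ h').2
    rw [rinv D hz] at this
    exact absurd h (not_lt.2 this)
  · rintro ⟨s, h1, h2⟩
    exact ⟨_, smN_mul (smT D ha hb h1) (sm_of_hol (um_hol D _ ha hb)), rep1 D ha hb h2⟩
  · rintro ⟨s, h1, h2⟩
    exact ⟨_, holN_mul (hoT D ha hb h1) (um_hol D _ ha hb), rep1 D ha hb h2⟩
  · rintro ⟨s, h1, h2⟩
    exact ⟨_, fun J => smN_mul (smT D ha hb (h1 J)) (sm_of_hol (kap_hol D ha hb G T J)),
      rep2 D ha hb h2⟩
  · rintro ⟨s, h1, h2⟩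
    exact ⟨_, fun J => holN_mul (hoT D ha hb (h1 J)) (kap_hol D ha hb G T J), rep2 D ha hb h2⟩
  · rintro ρ ⟨s, h1, h2, h3⟩
    refine ⟨_, fun J => smN_mul (smT D ha hb (h1 J)) (sm_of_hol (kap_hol D ha hb G T J)),
      rep2 D ha hb h2, fun I hI => ?_⟩
    filter_upwards [(tend D ha hb).eventually (h3 I hI), near D ha hb] with w h4 h5 h6
    simp only [Ad.tr, Pi.mul_apply]
    rw [h4 ((sl_iff D h5.1 h5.2.1 I).2 (by rwa [h5.2.2]))]

end Pool.Agent.Lib.EX
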