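import Pool.Agent.Lib.EX.B_AVG
import Pool.Agent.Lib.EX.B_MON
import Pool.Agent.Lib.EX.B_MOD

/-! Project ex41: the smooth lifts. -/

open scoped Classical Topology ContDiff
open Set Filter Complex

noncomputable section

namespace Pool.Agent.Lib.EX

open Pool.Agent.Lib.SV (E)
open Pool.Agent.Lib.HS32
open Pool.Agent.Lib.EXA (SmN)

namespace UT

variable {n : ℕ} {M : Mf n} {ι : Type} [Fintype ι] [DecidableEq ι] {D : Ad M ι} {κ : Type}
  [Fintype κ] (L : Lv D κ)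

theorem ev_B2 {p : E n → Prop} (h : ∀ y ∈ B2 n, p y) {z : E n} (hz : z ∈ B2 n) :
    ∀ᶠ y in 𝓝 z, p y := (Metric.isOpen_ball.eventually_mem hz).mono h

theorem sm_of_hol {f : E n → ℂ} {z : E n} (hf : HolN f z) : SmN f z :=
  (Eventually.eventually_nhds hf).mono fun w h => ((mHOL n f w).2.2 h).1

theorem cd_div {f g : E n → ℂ} {z : E n} (hf : ContDiffAt ℝ ∞ f z) (hg : ContDiffAt ℝ ∞ g z)
    (h : g z ≠ 0) : ContDiffAt ℝ ∞ (fun y => f y / g y) z := by
  simp only [div_eq_mul_inv]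
  exact hf.mul (hg.inv h)

omit [DecidableEq ι] in
/-- Two continuous germs that agree off the divisor agree. -/
theorem eq_of_off (c : ι → Option (Fin n)) {f g : E n → ℂ} {z : E n} (hf : SmN f z) (hg : SmN g z)
    (h : ∀ᶠ y in 𝓝 z, Off c y → f y = g y) : ∀ᶠ y in 𝓝 z, f y = g y := by
  have hd := (bMON n ι c).2.1
  filter_upwards [hf, hg, h.eventually_nhds] with y h1 h2 h3
  have h4 : ∃ᶠ w in 𝓝 y, Off c w := mem_closure_iff_frequently.1 (hd y)
  exact tendsto_nhds_unique_of_frequently_eq h1.continuousAt h2.continuousAt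
    ((h4.and_eventually h3).mono fun w hw => hw.2 hw.1)

omit [DecidableEq ι] in
theorem hol_sp (c : ι → Option (Fin n)) (a : ι → ℕ) (z : E n) : HolN (xm c (sp a)) z := by
  have h := (bMON n ι c).2.2.2.2.2.2.1 (fun i => if a i = 0 then 0 else 1) z
  have e : (fun i => (((if a i = 0 then 0 else 1 : ℕ)) : ℤ)) = sp a := by
    funext i
    simp only [sp]
    split_ifs <;> simp
  rwa [e] at h

variable [M.Cpt]

omit [Fintype κ] in
theorem ut_cd (hT : St_TRF) (l : κ) : D.All fun d z => ContDiffAt ℝ ∞ (L.ut l d) z := by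
  intro d z hz
  obtain ⟨t1, t2, t3, t4⟩ := hT n M ι D
  obtain ⟨m, r, -⟩ := t2 d z hz
  have e : L.ut l d = fun y => ∑ b, ((D.rd (D.χ b) d y : ℝ) : ℂ) *
      (D.tr b d (L.U l b) y * D.rd (D.um (-fun i => (L.a i : ℤ)) b d) d y) := rfl
  rw [e]
  refine ContDiffAt.sum fun b _ => ?_
  by_cases hb : (D.e d).symm z ∈ (D.e b).source
  · obtain ⟨o1, -, -, -, -, -, -, o8, -⟩ := t4 b d _ hb m
    have h1 := sm_of_hol ((o8 (L.U l b)).2 (ev_B2 (L.Uhol l b) o1))
    have h2 := sm_of_hol ((t1 (-fun i => (L.a i : ℤ))).hol b d _ hb m)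
    rw [r] at h1 h2
    exact (AVG.chi_sm D d b hz).self_of_nhds.mul (h1.self_of_nhds.mul h2.self_of_nhds)
  · have := t3 b d _ m hb
    rw [r] at this
    exact (contDiffAt_const (c := (0 : ℂ))).congr_of_eventuallyEq
      (this.mono fun y hy => by simp [hy])

omit [Fintype κ] in
theorem avg_eq (hT : St_TRF) (l : κ) : D.All fun d z =>
    D.rd (D.avg (L.f l)) d z = xm (D.c d) (-fun i => (L.a i : ℤ)) z * L.ut l d z := by
  intro d z hz
  obtain ⟨-, t2, -, t4⟩ := hT n M ι D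
  obtain ⟨m, r, -⟩ := t2 d z hz
  simp only [Ad.rd, Ad.avg, Lv.ut, Lv.f, Finset.mul_sum]
  refine Finset.sum_congr rfl fun b _ => ?_
  by_cases hb : D.χ b ((D.e d).symm z) = 0
  · simp [hb]
  · obtain ⟨-, -, -, -, o5, -⟩ := t4 b d _ (D.supp b _ hb).1 m
    rw [o5, r]
    ring

omit [Fintype κ] in
theorem ut_k0 (hT : St_TRF) : D.All fun d z => L.ut L.k0 d z = xm (D.c d) (fun i => L.a i) z := by
  intro d z hz
  obtain ⟨-, t2, -, t4⟩ := hT n M ι D
  obtain ⟨m, r, -⟩ := t2 d z hz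
  have s : ∑ b, ((D.χ b ((D.e d).symm z) : ℝ) : ℂ) = 1 := by exact_mod_cast D.sum _
  simp only [Ad.rd, Lv.ut]
  rw [← one_mul (xm (D.c d) (fun i => L.a i) z), ← s, Finset.sum_mul]
  refine Finset.sum_congr rfl fun b _ => ?_
  by_cases hb : D.χ b ((D.e d).symm z) = 0
  · simp [hb]
  · have hb' := (D.supp b _ hb).1
    obtain ⟨-, -, -, -, o5, -⟩ := t4 b d _ hb' m
    have h1 : D.um (fun i => (L.a i : ℤ)) b d ((D.e d).symm z) *
        D.um (-fun i => (L.a i : ℤ)) b d ((D.e d).symm z) = 1 := by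
      simp only [Ad.um, ← Finset.prod_mul_distrib, Pi.neg_apply]
      exact Finset.prod_eq_one fun i _ => by
        rw [← zpow_add₀ (D.une b d i _ hb' m), add_neg_cancel, zpow_zero]
    rw [L.one, o5, r]
    linear_combination ((D.χ b ((D.e d).symm z) : ℝ) : ℂ) * xm (D.c d) (fun i => L.a i) z * h1

omit [Fintype κ] in
theorem ut_rep (hT : St_TRF) (l : κ) : D.All fun d z => ∃ t, SmN t z ∧
    ∀ᶠ y in 𝓝 z, L.ut l d y = L.U l d y + xm (D.c d) (sp L.a) y * t y := by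
  intro d z hz
  obtain ⟨t, h1, h2⟩ := (bAVG hT n M ι D (fun b => Pol (D.c b) fun i => L.a i - sp L.a i) (L.f l)
    (fun b => (bMOD n ι (D.c b) _ 0 ∅ 0).1)).1 (fun a b x ha hb => by
      obtain ⟨s, k1, k2⟩ := L.difS l a b x ha hb
      exact ⟨s, sm_of_hol k1, k2⟩) d z hz
  refine ⟨t, h1, eq_of_off (D.c d) (ev_B2 (ut_cd L hT l d) hz) ?_ ?_⟩
  · filter_upwards [sm_of_hol (ev_B2 (L.Uhol l d) hz), sm_of_hol (hol_sp (D.c d) L.a z), h1]
      with y k1 k2 k3
    exact k1.add (k2.mul k3)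
  · filter_upwards [h2, ev_B2 (avg_eq L hT l d) hz] with y k1 k2 ho
    have k3 := k1 ho
    obtain ⟨k4, k5, -⟩ := (bMON n ι (D.c d)).2.2.2.2.2.2.2.2.1 (-fun i => (L.a i : ℤ)) (sp L.a) y ho
    have e : (-fun i => (L.a i : ℤ) - sp L.a i) = (-fun i => (L.a i : ℤ)) + sp L.a := by
      funext i
      simp only [Pi.neg_apply, Pi.add_apply]
      ring
    rw [Pi.sub_apply, k2, e, k4, Lv.f] at k3
    apply mul_left_cancel₀ k5
    linear_combination k3

theorem nn_pos (hT : St_TRF) : D.All fun d z => 0 < L.nn d z := by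
  intro d z hz
  suffices h : ∃ l, L.ut l d z ≠ 0 by
    obtain ⟨l, hl⟩ := h
    exact Finset.sum_pos' (fun l _ => normSq_nonneg _) ⟨l, Finset.mem_univ _, normSq_pos.2 hl⟩
  by_cases h : xm (D.c d) (sp L.a) z = 0
  · obtain ⟨l, hl⟩ := L.gen d z hz
    obtain ⟨t, -, h2⟩ := ut_rep L hT l d z hz
    exact ⟨l, by rw [h2.self_of_nhds, h, zero_mul, add_zero]; exact hl⟩
  · refine ⟨L.k0, ?_⟩
    rw [ut_k0 L hT d z hz]
    refine Finset.prod_ne_zero_iff.2 fun i _ => ?_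
    have h1 := Finset.prod_ne_zero_iff.1 h i (Finset.mem_univ _)
    by_cases h2 : L.a i = 0
    · simp [h2]
    · simp only [sp, if_neg h2, zpow_one] at h1
      exact zpow_ne_zero _ h1

theorem nn_cd (hT : St_TRF) : D.All fun d z => ContDiffAt ℝ ∞ (L.nn d) z := fun d z hz =>
  ContDiffAt.sum fun l _ => Mf.cd_normSq (ut_cd L hT l d z hz)

omit [Fintype κ] in
theorem dzb_ut (hT : St_TRF) (l : κ) : D.All fun d z => ∃ t, SmN t z ∧
    ∀ᶠ y in 𝓝 z, ∀ j, dzb j (L.ut l d) y = xm (D.c d) (sp L.a) y * dzb j t y := by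
  intro d z hz
  obtain ⟨t, h1, h2⟩ := ut_rep L hT l d z hz
  refine ⟨t, h1, ?_⟩
  filter_upwards [h1, h2.eventually_nhds, ev_B2 (L.Uhol l d) hz] with y k1 k2 k3 j
  have k4 := (hol_sp (D.c d) L.a y).self_of_nhds
  rw [dzb_congr k2, dzb_add (k3.restrictScalars ℝ) ((k4.restrictScalars ℝ).fun_mul (cd_diff k1)),
    dzb_mul (k4.restrictScalars ℝ) (cd_diff k1), BHOL.dzb_zero k3, BHOL.dzb_zero k4]
  ring

omit [Fintype κ] in
theorem ut_ov (hT : St_TRF) (l : κ) : D.Ov fun a d x => L.ut l d (D.e d x) =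
    L.ut l a (D.e a x) * D.um (-fun i => (L.a i : ℤ)) a d x := by
  intro a d x ha hd
  obtain ⟨t1, -⟩ := hT n M ι D
  simp only [Ad.rd, Lv.ut, (D.e a).left_inv ha, (D.e d).left_inv hd, Finset.sum_mul]
  refine Finset.sum_congr rfl fun b _ => ?_
  by_cases hb : D.χ b x = 0
  · simp [hb]
  · rw [(t1 _).mul b a x (D.supp b _ hb).1 ha d hd]
    ring

theorem nn_ov (hT : St_TRF) : D.Ov fun a d x => L.nn d (D.e d x) =
    L.nn a (D.e a x) * normSq (D.um (-fun i => (L.a i : ℤ)) a d x) := by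
  intro a d x ha hd
  simp only [Lv.nn, ut_ov L hT _ a d x ha hd, map_mul, Finset.sum_mul]

omit [DecidableEq ι] [M.Cpt] in
theorem normSq_um (K : ι → ℤ) (a d : D.A) (x : M.X) :
    normSq (D.um K a d x) = ∏ i, normSq (D.u a d i x) ^ (K i : ℝ) := by
  simp only [Ad.um, map_prod, map_zpow₀, Real.rpow_intCast]

theorem b_ov (hT : St_TRF) : D.Ov fun a d x => L.b d (D.e d x) = L.b a (D.e a x) *
    (∏ i, normSq (D.u a d i x) ^ (L.r i + L.G i - if i ∈ L.T then 1 else 0)) *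
      normSq (D.J a d x).det := by
  intro a d x ha hd
  have hu : ∀ i, 0 < normSq (D.u a d i x) := fun i => normSq_pos.2 (D.une a d i x ha hd)
  have hn : 0 ≤ L.nn a (D.e a x) := Finset.sum_nonneg fun l _ => normSq_nonneg _
  have hp : ∀ K : ι → ℝ, 0 ≤ ∏ i, normSq (D.u a d i x) ^ K i :=
    fun K => Finset.prod_nonneg fun i _ => (Real.rpow_pos_of_pos (hu i) _).le
  have hq : ∀ (K : ι → ℝ) (t : ℝ), (∏ i, normSq (D.u a d i x) ^ K i) ^ t =
      ∏ i, normSq (D.u a d i x) ^ (K i * t) := fun K t => by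
    rw [← Real.finsetProd_rpow _ _ (fun i _ => (Real.rpow_pos_of_pos (hu i) _).le)]
    exact Finset.prod_congr rfl fun i _ => (Real.rpow_mul (hu i).le _ _).symm
  have hm : (L.m : ℝ) ≠ 0 := by exact_mod_cast L.m0.ne'
  have e : (∏ i, normSq (D.u a d i x) ^ (L.r i + L.G i - if i ∈ L.T then 1 else 0)) =
      (∏ i, normSq (D.u a d i x) ^ ((((-fun i => (L.a i : ℤ)) i : ℤ) : ℝ) * -L.s)) *
        ∏ i, normSq (D.u a d i x) ^ ((L.k i : ℝ) * (1 / L.m)) := by
    rw [← Finset.prod_mul_distrib]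
    refine Finset.prod_congr rfl fun i _ => ?_
    rw [← Real.rpow_add (hu i), ← L.rel i]
    congr 1
    simp only [Pi.neg_apply, Int.cast_neg, Int.cast_natCast]
    ring
  simp only [Lv.b]
  rw [nn_ov L hT a d x ha hd, L.wcmp a d x ha hd, map_mul, map_mul, map_pow, normSq_um, normSq_um,
    Real.mul_rpow hn (hp _), Real.mul_rpow (mul_nonneg (normSq_nonneg _) (hp _))
      (pow_nonneg (normSq_nonneg _) _), Real.mul_rpow (normSq_nonneg _) (hp _), hq, hq, e,
    one_div, Real.pow_rpow_inv_natCast (normSq_nonneg _) L.m0.ne']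
  ring

theorem dd_ov (hT : St_TRF) : D.Ov fun a d x =>
    L.dd d (D.e d x) = L.dd a (D.e a x) * normSq (D.J a d x).det := by
  intro a d x ha hd
  have hu : ∀ i, 0 < normSq (D.u a d i x) := fun i => normSq_pos.2 (D.une a d i x ha hd)
  obtain ⟨-, -, -, t4⟩ := hT n M ι D
  obtain ⟨-, -, -, -, o5, -⟩ := t4 a d x ha hd
  have e1 : xr (D.c a) L.r (D.e a x) =
      (∏ i, normSq (D.u a d i x) ^ L.r i) * xr (D.c d) L.r (D.e d x) := by
    simp only [xr, ← Finset.prod_mul_distrib]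
    refine Finset.prod_congr rfl fun i _ => ?_
    rw [D.urel a d i x ha hd, map_mul, Real.mul_rpow (hu i).le (normSq_nonneg _)]
  have e2 : normSq (xs (D.c a) L.T (D.e a x)) =
      (∏ i, normSq (D.u a d i x) ^ (if i ∈ L.T then 1 else 0 : ℝ)) *
        normSq (xs (D.c d) L.T (D.e d x)) := by
    have h := (bMON n ι (D.c a)).2.2.2.2.2.2.2.2.2.1 L.T (D.e a x)
    have h' := (bMON n ι (D.c d)).2.2.2.2.2.2.2.2.2.1 L.T (D.e d x)
    rw [← h, ← h', o5, map_mul, normSq_um]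
    congr 1
    refine Finset.prod_congr rfl fun i _ => ?_
    split_ifs <;> simp
  have e3 : (∏ i, normSq (D.u a d i x) ^ (L.r i + L.G i - if i ∈ L.T then 1 else 0)) =
      (∏ i, normSq (D.u a d i x) ^ L.r i) * (∏ i, normSq (D.u a d i x) ^ (L.G i : ℝ)) /
        ∏ i, normSq (D.u a d i x) ^ (if i ∈ L.T then 1 else 0 : ℝ) := by
    rw [← Finset.prod_mul_distrib, ← Finset.prod_div_distrib]
    exact Finset.prod_congr rfl fun i _ => by rw [Real.rpow_sub (hu i), Real.rpow_add (hu i)]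
  simp only [Lv.dd, den]
  rw [b_ov L hT a d x ha hd, e1, e2, e3, o5 L.G, map_mul, normSq_um]
  ring

end UT

open UT in
theorem bUT (hT : St_TRF) : St_UT := by
  intro n M _ ι _ _ D κ _ L
  have hc : D.All fun d z => ((L.nn d z : ℝ) : ℂ) ≠ 0 := fun d z hz => by
    exact_mod_cast (nn_pos L hT d z hz).ne'
  refine ⟨fun d z hz => ⟨fun l => ut_cd L hT l d z hz, nn_pos L hT d z hz, nn_cd L hT d z hz, ?_, ?_,
    fun l l' => ?_, fun l => ut_rep L hT l d z hz, fun l _ => avg_eq L hT l d z hz, fun l => ?_,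
    fun l => ?_, fun j => ⟨?_, fun l => ?_⟩⟩, fun a d x ha hd => ⟨fun l => ut_ov L hT l a d x ha hd,
    fun l l' => ?_, b_ov L hT a d x ha hd, dd_ov L hT a d x ha hd⟩⟩
  · exact ((nn_cd L hT d z hz).rpow_const_of_ne (nn_pos L hT d z hz).ne').mul
      ((Mf.cd_normSq (sm_of_hol (ev_B2 (L.whol d) hz)).self_of_nhds).rpow_const_of_ne
        (normSq_pos.2 (L.wne d z hz)).ne')
  · exact mul_pos (Real.rpow_pos_of_pos (nn_pos L hT d z hz) _)
      (Real.rpow_pos_of_pos (normSq_pos.2 (L.wne d z hz)) _)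
  · exact cd_div ((ut_cd L hT l d z hz).mul (cd_star (ut_cd L hT l' d z hz)))
      (cd_ofReal (nn_cd L hT d z hz)) (hc d z hz)
  · exact ⟨L.U l d, ev_B2 (L.Uhol l d) hz, Eventually.of_forall fun y _ => rfl⟩
  · exact ⟨L.ut l d, ev_B2 (ut_cd L hT l d) hz, (ev_B2 (avg_eq L hT l d) hz).mono fun y h _ => h⟩
  · choose t h1 h2 using fun l => dzb_ut L hT l d z hz
    refine ⟨fun y => (∑ l, dzb j (t l) y * star (L.ut l d y)) / (L.nn d y : ℝ), ?_, ?_⟩
    · filter_upwards [eventually_all.2 h1, ev_B2 (fun y hy => hy) hz] with y k1 k2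
      exact cd_div (ContDiffAt.sum fun l _ => (cd_dzb (k1 l) j).mul (cd_star (ut_cd L hT l d y k2)))
        (cd_ofReal (nn_cd L hT d y k2)) (hc d y k2)
    · filter_upwards [eventually_all.2 h2] with y k1 _
      simp only [Lv.eta, k1, neg_neg, mul_assoc, ← Finset.mul_sum, mul_div_assoc]
  · obtain ⟨t, h1, h2⟩ := dzb_ut L hT l d z hz
    exact ⟨dzb j t, h1.mono fun y k => cd_dzb k j, h2.mono fun y k _ => by rw [neg_neg, k]⟩
  · have h0 := ((hT n M ι D).1 (-fun i => (L.a i : ℤ))).ne a d x ha hd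
    have h1 : ((normSq (D.um (-fun i => (L.a i : ℤ)) a d x) : ℝ) : ℂ) ≠ 0 := by
      exact_mod_cast (normSq_pos.2 h0).ne'
    simp only [Lv.cc]
    rw [ut_ov L hT l a d x ha hd, ut_ov L hT l' a d x ha hd, nn_ov L hT a d x ha hd, ofReal_mul,
      ← mul_div_mul_right (L.ut l a (D.e a x) * star (L.ut l' a (D.e a x))) _ h1, ← mul_conj,
      star_mul', star_def]
    ring

end Pool.Agent.Lib.EX
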