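import Pool.Agent.Lib.EX.Blue

/-! Project ex41, row XT: extension from the strata. -/

open scoped Classical Topology ContDiff ComplexOrder Matrix
open Set MeasureTheory Complex Metric Filter

set_option linter.unusedVariables false

noncomputable section

namespace Pool.Agent.Lib.EX

open Pool.Agent.Lib.SV (E)
open Pool.Agent.Lib.HS32
open Pool.Agent.Lib.EXA (Val SmN emb)

theorem bXT (hTRF : St_TRF) (hRES : St_RES) : St_XT := by
  intro n M _ ι _ _ D G T q σ hσ a z hz
  obtain ⟨-, h1, h2, h3⟩ := hTRF n M ι D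
  have hR := fun b ρ ρ' F F' y => hRES n ι (D.c b) G T q ρ ρ' F F' y (D.inj b)
  obtain ⟨hx, hxz, -⟩ := h1 a z hz
  have hB : ∀ᶠ y in 𝓝 z, y ∈ B2 n := isOpen_ball.mem_nhds hz
  have hb : ∀ b, Res (D.c a) G T q (fun I y => ((D.rd (D.χ b) a y : ℝ) : ℂ) * σ I a y)
      (fun y => ((D.rd (D.χ b) a y : ℝ) : ℂ) * D.tr b a (hat (D.c b) G T q fun I => σ I b) y) z := by
    intro b
    by_cases hxb : (D.e a).symm z ∈ (D.e b).source
    · have hO := h3 b a _ hxb hx
      have hn : ∀ᶠ y in 𝓝 z, (D.e a).symm y ∈ (D.e b).source :=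
        ((D.e a).continuousAt_symm (by rwa [D.tgt])).preimage_mem_nhds
          ((D.e b).open_source.mem_nhds hxb)
      have r1 := (hR b (fun I => σ I b) 0 0 0 (D.e b ((D.e a).symm z))).2.2.2.2.2.2.2.2.1
        fun I hI => Eventually.mono (isOpen_ball.mem_nhds hO.1) fun y hy => (hσ I hI).sm b y hy
      have r2 := (hO.2.2.2.2.2.2.2.2 G T q _).2.2.2.2 _ r1
      rw [hxz] at r2
      have hs : SmN (fun y => ((D.rd (D.χ b) a y : ℝ) : ℂ)) z := by
        filter_upwards [hn, hB] with y hy hy'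
        have := (h3 b a _ hy (h1 a y hy').1).2.1
        rw [(h1 a y hy').2.1] at this
        exact ofRealCLM.contDiff.contDiffAt.comp y this
      refine (hR a _ _ _ _ z).2.2.2.2.2.2.1 ((hR a _ 0 _ 0 z).2.2.2.2.2.1 _ hs r2)
        (Eventually.of_forall fun y _ => rfl) fun I hI => ?_
      filter_upwards [hn, hB] with y hy hy' hS
      have := (hσ I hI).cmp b a _ hy (h1 a y hy').1
      simp only [(h1 a y hy').2.1] at this
      rw [this hS]
      rfl
    · have h0 := h2 b a _ hx hxb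
      rw [hxz] at h0
      refine (hR a _ _ _ _ z).2.2.2.2.2.2.1
        ((hR a 0 0 0 0 z).2.2.2.2.2.2.2.2.2.2.2.2 Unit ∅ 0 0 (by simp)) ?_ fun I hI => ?_
      · filter_upwards [h0] with y hy _
        simp [hy]
      · filter_upwards [h0] with y hy _
        simp [hy]
  refine (hR a _ _ _ _ z).2.2.2.2.2.2.1
    ((hR a 0 0 0 0 z).2.2.2.2.2.2.2.2.2.2.2.2 D.A Finset.univ _ _ fun b _ => hb b)
    (Eventually.of_forall fun y _ => ?_) fun I hI => Eventually.of_forall fun y _ => ?_
  · simp only [Finset.sum_apply]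
    rfl
  · simp only [Finset.sum_apply, Ad.rd]
    rw [← Finset.sum_mul, ← ofReal_sum, D.sum, ofReal_one, one_mul]

end Pool.Agent.Lib.EX
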