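import Pool.Agent.Lib.EXA.AAll
import Pool.Agent.Lib.EXH.All9
import Pool.Agent.Lib.EX.B_TRF
import Pool.Agent.Lib.EX.B_AVG
import Pool.Agent.Lib.EX.B_MON
import Pool.Agent.Lib.EX.B_DIV
import Pool.Agent.Lib.EX.B_RES
import Pool.Agent.Lib.EX.B_INC
import Pool.Agent.Lib.EX.B_MOD
import Pool.Agent.Lib.EX.B_CECH
import Pool.Agent.Lib.EX.B_UT
import Pool.Agent.Lib.EX.B_WGT
import Pool.Agent.Lib.EX.B_HL
import Pool.Agent.Lib.EX.B_THE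
import Pool.Agent.Lib.EX.B_XT
import Pool.Agent.Lib.EX.B_DEC
import Pool.Agent.Lib.EX.B_LA
import Pool.Agent.Lib.EX.B_FIN
import Pool.Agent.Lib.EX.B_DEL
import Pool.Agent.Lib.EX.B_SIP
import Pool.Agent.Lib.EX.B_SS
import Pool.Agent.Lib.EX.B_IP
import Pool.Agent.Lib.EX.B_LOC0
import Pool.Agent.Lib.EX.B_LOC1
import Pool.Agent.Lib.EX.B_EXP
import Pool.Agent.Lib.EX.B_PRD
import Pool.Agent.Lib.EX.B_Q2
import Pool.Agent.Lib.EX.B_VU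
import Pool.Agent.Lib.EX.B_Q3
import Pool.Agent.Lib.EX.B_ML1
import Pool.Agent.Lib.EX.B_CHG
import Pool.Agent.Lib.EX.B_Q4
import Pool.Agent.Lib.EX.B_ML2
import Pool.Agent.Lib.EX.B_CUT
import Pool.Agent.Lib.EX.B_ML
import Pool.Agent.Lib.EX.B_MAIN
import Pool.Agent.Lib.EX.B_ADJ98
import Pool.Agent.Lib.EX.B_HAT
import Pool.Agent.Lib.EX.B_LIN
import Pool.Agent.Lib.EX.B_GYS
import Pool.Agent.Lib.EX.B_Q5
import Pool.Agent.Lib.EX.B_KEY1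
import Pool.Agent.Lib.EX.B_KEY
import Pool.Agent.Lib.EX.B_GLUE
import Pool.Agent.Lib.EX.B_STEP
import Pool.Agent.Lib.EX.B_LEVEL

/-! Project ex41: assembly of the core. -/

namespace Pool.Agent.Lib.EX

theorem aTRF : St_TRF :=
  bTRF

theorem aAVG : St_AVG :=
  bAVG aTRF

theorem aMON : St_MON :=
  bMON

theorem aDIV : St_DIV :=
  bDIV

theorem aRES : St_RES :=
  bRES aMON aDIV

theorem aINC : St_INC :=
  bINC

theorem aMOD : St_MOD :=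
  bMOD

theorem aCECH : St_CECH :=
  bCECH aAVG aTRF aRES aINC aMOD aMON

theorem aUT : St_UT :=
  bUT aTRF

theorem aWGT : St_WGT :=
  bWGT aUT aMON

theorem aHL : St_HL :=
  bHL EXH.aHD9

theorem aTHE : St_THE :=
  bTHE aUT aMON

theorem aXT : St_XT :=
  bXT aTRF aRES

theorem aDEC : St_DEC :=
  bDEC aCECH aWGT aHL aTHE aXT aRES aINC aTRF

theorem aLA : St_LA :=
  bLA

theorem aFIN : St_FIN :=
  bFIN

theorem aDEL : St_DEL :=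
  bDEL

theorem aSIP : St_SIP :=
  bSIP

theorem aSS : St_SS :=
  bSS aSIP aTRF

theorem aIP : St_IP :=
  bIP aSS aUT aTRF

theorem aLOC0 : St_LOC0 :=
  bLOC0

theorem aLOC1 : St_LOC1 :=
  bLOC1

theorem aEXP : St_EXP :=
  bEXP

theorem aPRD : St_PRD :=
  bPRD

theorem aQ2 : St_Q2 :=
  bQ2 aMON aDIV aMOD aINC aRES

theorem aVU : St_VU :=
  bVU aMON aDIV aUT

theorem aQ3 : St_Q3 :=
  bQ3 aVU aUT aINC aMON aMOD

theorem aML1 : St_ML1 :=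
  bML1 EXA.aVAL aLOC0 aLOC1 aEXP aPRD aQ2 aQ3 aRES aINC aUT aTRF aMON aMOD

theorem aCHG : St_CHG :=
  bCHG

theorem aQ4 : St_Q4 :=
  bQ4 aTRF aDIV aINC aMOD

theorem aML2 : St_ML2 :=
  bML2 aCHG aLOC0 aPRD aQ4 aUT aTRF aRES aINC aMOD EXA.aVAL

theorem aCUT : St_CUT :=
  bCUT aTRF

theorem aML : St_ML :=
  bML aML1 aML2 aCUT EXA.aVAL

theorem aMAIN : St_MAIN :=
  bMAIN

theorem aADJ : St_ADJ :=
  bADJ98 aML aPRD aMAIN aRES aINC aUT aDEL aMOD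

theorem aHAT : St_HAT :=
  bHAT aTRF aRES aINC aMOD

theorem aLIN : St_LIN :=
  bLIN aRES aINC

theorem aGYS : St_GYS :=
  bGYS aLA aFIN aDEL aIP aADJ aHAT aDEC aLIN aXT aRES aINC

theorem aQ5 : St_Q5 :=
  bQ5 aVU aUT aINC aMOD

theorem aKEY1 : St_KEY1 :=
  bKEY1 aML aPRD aMAIN aRES aINC aUT aQ5 aMOD aMON

theorem aKEY : St_KEY :=
  bKEY aKEY1 aSS aUT aTRF

theorem aGLUE : St_GLUE :=
  bGLUE aCECH aXT aRES aINC aTRF aMON aMOD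

theorem aSTEP : St_STEP :=
  bSTEP aDEC aGYS aKEY aGLUE aLIN aHAT aAVG aXT aTRF aINC aRES aUT aMOD

theorem aLEVEL : St_LEVEL :=
  bLEVEL aSTEP aINC aMOD

end Pool.Agent.Lib.EX
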