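import Pool.Agent.Lib.EX.K68B
import Pool.Agent.Lib.VF72.Dol

/-! Coordinate hyperplanes: quotients, splitting along the `dbar` operator, germ forms. -/

open scoped Classical Topology ENNReal ComplexConjugate
open Set MeasureTheory Complex Metric Filter

set_option linter.unusedVariables false

noncomputable section

namespace Pool.Agent.Lib.EX.K68

open Pool.Agent.Lib.SV (E)
open Pool.Agent.Lib.HS32

/-! ### Gluing of local quotients -/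

section quo

variable {X : Type*} [TopologicalSpace X] {f g g' m : X → ℂ} {x : X}

theorem cancel_at (h0 : ∃ᶠ w in 𝓝 x, m w ≠ 0) (hg : ContinuousAt g x) (hg' : ContinuousAt g' x)
    (e : ∀ᶠ w in 𝓝 x, m w * g w = m w * g' w) : g x = g' x :=
  tendsto_nhds_unique_of_frequently_eq hg hg'
    ((h0.and_eventually e).mono fun _ hw => mul_left_cancel₀ hw.1 hw.2)

/-- The continuous extension of `f / m`. -/
def quo (f m : X → ℂ) (w : X) : ℂ := limUnder (𝓝[{y | m y ≠ 0}] w) fun y => f y / m y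

theorem quo_eq (h0 : ∃ᶠ w in 𝓝 x, m w ≠ 0) (hg : ContinuousAt g x)
    (e : ∀ᶠ w in 𝓝 x, m w ≠ 0 → f w = m w * g w) : quo f m x = g x := by
  have : (𝓝[{y | m y ≠ 0}] x).NeBot :=
    mem_closure_iff_nhdsWithin_neBot.1 (mem_closure_iff_frequently.2 h0)
  refine Tendsto.limUnder_eq ((hg.tendsto.mono_left nhdsWithin_le_nhds).congr' ?_)
  filter_upwards [e.filter_mono nhdsWithin_le_nhds, self_mem_nhdsWithin] with w h1 h2
  rw [h1 h2, mul_div_cancel_left₀ _ h2]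

theorem quo_ev (h0 : ∀ᶠ y in 𝓝 x, ∃ᶠ w in 𝓝 y, m w ≠ 0) (hg : ∀ᶠ w in 𝓝 x, ContinuousAt g w)
    (e : ∀ᶠ w in 𝓝 x, m w ≠ 0 → f w = m w * g w) : quo f m =ᶠ[𝓝 x] g := by
  filter_upwards [h0, hg, e.eventually_nhds] with y h1 h2 h3 using quo_eq h1 h2 h3

end quo

variable {n : ℕ} {I J T : Finset (Fin n)} {z x c w : E n} {f g m D : E n → ℂ} {i j : Fin n}
  {U : Set (E n)}

theorem SmN.cont (hf : SmN f x) : ∀ᶠ w in 𝓝 x, ContinuousAt f w :=
  Eventually.mono hf fun _ h => h.continuousAt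

theorem SmN.congr (hf : SmN f x) (e : g =ᶠ[𝓝 x] f) : SmN g x := by
  filter_upwards [hf, e.eventuallyEq_nhds] with w h1 h2 using h1.congr_of_eventuallyEq h2

theorem holN_congr (hf : HolN f x) (e : g =ᶠ[𝓝 x] f) : HolN g x := by
  filter_upwards [hf, e.eventuallyEq_nhds] with w h1 h2 using h1.congr_of_eventuallyEq h2

theorem glue_sm (hU : IsOpen U) (h0 : ∀ x ∈ U, ∃ᶠ w in 𝓝 x, m w ≠ 0)
    (h : ∀ x ∈ U, ∃ g, SmN g x ∧ ∀ᶠ w in 𝓝 x, f w = m w * g w) :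
    SmO U (quo f m) ∧ ∀ w ∈ U, f w = m w * quo f m w := by
  refine forall₂_and.1 fun x hx => ?_
  obtain ⟨g, h1, h2⟩ := h x hx
  have e := quo_ev ((hU.eventually_mem hx).mono h0) h1.cont (h2.mono fun _ h _ => h)
  exact ⟨h1.at.congr_of_eventuallyEq e, by rw [e.eq_of_nhds, h2.self_of_nhds]⟩

theorem glue_hol (hU : IsOpen U) (h0 : ∀ x ∈ U, ∃ᶠ w in 𝓝 x, m w ≠ 0)
    (h : ∀ x ∈ U, ∃ g, HolN g x ∧ ∀ᶠ w in 𝓝 x, f w = m w * g w) :
    DifferentiableOn ℂ (quo f m) U ∧ ∀ w ∈ U, f w = m w * quo f m w := by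
  refine forall₂_and.1 fun x hx => ?_
  obtain ⟨g, h1, h2⟩ := h x hx
  have e := quo_ev ((hU.eventually_mem hx).mono h0) (smN_of_holN h1).cont (h2.mono fun _ h _ => h)
  exact ⟨(h1.self_of_nhds.congr_of_eventuallyEq e).differentiableWithinAt,
    by rw [e.eq_of_nhds, h2.self_of_nhds]⟩

/-! ### Splitting -/

theorem dzb_hol_mul (hm : DifferentiableAt ℂ m z) (hg : DifferentiableAt ℝ g z) :
    dzb j (fun w => m w * g w) z = m z * dzb j g z := by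
  rw [dzb_mul (hm.restrictScalars ℝ) hg, BHOL.dzb_zero hm, zero_mul, zero_add]

theorem holN_of_dzb (hf : SmN f x) (h0 : ∀ᶠ w in 𝓝 x, ∀ j, dzb j f w = 0) : HolN f x := by
  filter_upwards [hf, h0] with w h1 h2 using BHOL.diff_of (cd_diff h1) h2

/-- A smooth function that is holomorphic where `m ≠ 0` is holomorphic. -/
theorem holN_of_off (hf : SmN f x) (h0 : ∀ᶠ y in 𝓝 x, ∃ᶠ w in 𝓝 y, m w ≠ 0)
    (h : ∀ᶠ w in 𝓝 x, m w ≠ 0 → DifferentiableAt ℂ f w) : HolN f x := by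
  refine holN_of_dzb hf ?_
  filter_upwards [hf, h0, h.eventually_nhds] with y h1 h2 h3 j
  exact tendsto_nhds_unique_of_frequently_eq (cd_dzb h1 j).continuousAt continuousAt_const
    ((h2.and_eventually h3).mono fun w hw => BHOL.dzb_zero (hw.2 hw.1) j)

/-- If `dbar f` is divisible by `m`, then `f` is holomorphic modulo `m`. -/
theorem dbar_split {ψ : Fin n → E n → ℂ} (hf : SmN f x) (hm : HolN m x)
    (h0 : ∀ᶠ y in 𝓝 x, ∃ᶠ w in 𝓝 y, m w ≠ 0) (hψ : ∀ j, SmN (ψ j) x)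
    (e : ∀ᶠ w in 𝓝 x, ∀ j, dzb j f w = m w * ψ j w) :
    ∃ h u, HolN h x ∧ SmN u x ∧ ∀ᶠ w in 𝓝 x, f w = h w + m w * u w ∧ ∀ j, dzb j u w = ψ j w := by
  have h1 : ∀ᶠ w in 𝓝 x, ∀ i j, m w * dzb i (ψ j) w = m w * dzb j (ψ i) w := by
    filter_upwards [hf, hm, eventually_all.2 hψ, e.eventually_nhds] with w a1 a2 a3 a4 i j
    rw [← dzb_hol_mul a2 (cd_diff (a3 j)), ← dzb_hol_mul a2 (cd_diff (a3 i)),
      ← dzb_congr (a4.mono fun y hy => hy j), ← dzb_congr (a4.mono fun y hy => hy i), dzb_dzb a1]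
  obtain ⟨R, R0, hR⟩ := Metric.eventually_nhds_iff_ball.1
    ((eventually_all.2 hψ).and (h0.and h1.eventually_nhds))
  obtain ⟨r, r0, -, u, hu⟩ := VF72.dolb R0 (fun i z hz => (hR z hz).1 i) fun z hz i j =>
    cancel_at (hR z hz).2.1 (cd_dzb ((hR z hz).1 j) i).continuousAt
      (cd_dzb ((hR z hz).1 i) j).continuousAt ((hR z hz).2.2.mono fun y hy => hy i j)
  have h2 : ∀ᶠ w in 𝓝 x, ContDiffAt ℝ (⊤ : ℕ∞) u w ∧ ∀ i, dzb i u w = ψ i w :=
    mem_of_superset (ball_mem_nhds x r0) hu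
  refine ⟨fun w => f w - m w * u w, u, ?_, h2.mono fun _ h => h.1,
    h2.mono fun w h => ⟨by ring, h.2⟩⟩
  filter_upwards [hf, hm, h2, e] with w a1 a2 a3 a4
  have a5 : DifferentiableAt ℝ (fun w => m w * u w) w :=
    (a2.restrictScalars ℝ).fun_mul (cd_diff a3.1)
  refine BHOL.diff_of ((cd_diff a1).fun_sub a5) fun j => ?_
  rw [dzb_sub (cd_diff a1) a5, dzb_hol_mul a2 (cd_diff a3.1), a3.2, a4, sub_self]

theorem sm_div_bdd {ψ : Fin n → E n → ℂ} {C : ℝ} (hf : SmN f x) (hm : HolN m x)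
    (h0 : ∀ᶠ y in 𝓝 x, ∃ᶠ w in 𝓝 y, m w ≠ 0) (hψ : ∀ j, SmN (ψ j) x)
    (e : ∀ᶠ w in 𝓝 x, ∀ j, dzb j f w = m w * ψ j w) (hb : ∀ᶠ w in 𝓝 x, ‖f w‖ ≤ C * ‖m w‖) :
    ∃ g, SmN g x ∧ ∀ᶠ w in 𝓝 x, f w = m w * g w := by
  obtain ⟨h, u, h1, h2, h3⟩ := dbar_split hf hm h0 hψ e
  obtain ⟨k, k1, k2⟩ := div_bdd_germ (C := C + (‖u x‖ + 1)) h1 hm h0 (by
    filter_upwards [h3, hb, h2.at.continuousAt.norm.eventually (gt_mem_nhds (lt_add_one _))]
      with w a1 a2 a3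
    rw [← sub_eq_iff_eq_add.2 a1.1, add_mul]
    refine (norm_sub_le _ _).trans (add_le_add a2 ?_)
    rw [norm_mul, mul_comm]
    exact mul_le_mul_of_nonneg_right a3.le (norm_nonneg _))
  refine ⟨fun w => k w + u w, ?_, ?_⟩
  · filter_upwards [smN_of_holN k1, h2] with w a1 a2 using a1.add a2
  · filter_upwards [h3, k2] with w a1 a2
    rw [a1.1, a2, mul_add]

theorem sm_div_prod {ψ : Fin n → E n → ℂ} (hf : SmN f x) (hψ : ∀ j, SmN (ψ j) x)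
    (e : ∀ᶠ w in 𝓝 x, ∀ j, dzb j f w = (∏ i ∈ I, w i) * ψ j w)
    (h0 : ∀ᶠ w in 𝓝 x, ∀ i ∈ I, w i = 0 → f w = 0) :
    ∃ g, SmN g x ∧ ∀ᶠ w in 𝓝 x, f w = (∏ i ∈ I, w i) * g w := by
  obtain ⟨C, hC⟩ := bd_prod hf h0
  exact sm_div_bdd (C := C) hf (Eventually.of_forall (diff_prod I))
    (Eventually.of_forall (freq_prod I)) hψ e (by simpa only [norm_prod] using hC)

/-! ### One stratum -/

/-- On the stratum of `I` only the generator of `I` survives. -/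
theorem sum_strat {p : ℕ} (hI : I ⊆ T) (hp : I.card = p) (hz : ∀ i ∈ I, z i = 0)
    (g : Finset (Fin n) → ℂ) :
    ∑ J ∈ T.powersetCard p, (∏ i ∈ T \ J, z i) * g J = (∏ i ∈ T \ I, z i) * g I := by
  refine Finset.sum_eq_single_of_mem I (Finset.mem_powersetCard.2 ⟨hI, hp⟩) fun J hJ h => ?_
  obtain ⟨i, h1, h2⟩ : ∃ i ∈ I, i ∉ J := by
    by_contra h'
    push Not at h'
    exact h (Finset.eq_of_subset_of_card_le h'
      ((Finset.mem_powersetCard.1 hJ).2.trans hp.symm).le).symm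
  rw [Finset.prod_eq_zero (Finset.mem_sdiff.2 ⟨hI h1, h2⟩) (hz i h1), zero_mul]

/-- The generators of depth `p` vanish on the strata of depth above `p`. -/
theorem prod_deep (hI : I ⊆ T) (hp : J.card < I.card) (hz : ∀ i ∈ I, z i = 0) :
    ∏ i ∈ T \ J, z i = 0 := by
  obtain ⟨i, h1, h2⟩ := Finset.exists_mem_notMem_of_card_lt_card hp
  exact Finset.prod_eq_zero (Finset.mem_sdiff.2 ⟨hI h1, h2⟩) (hz i h1)

theorem prod_pz (h : ∀ i ∈ I, i ∉ J) : ∏ i ∈ I, pz J z i = ∏ i ∈ I, z i :=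
  Finset.prod_congr rfl fun i hi => pz_not_mem (h i hi)

/-- Division on one stratum. -/
theorem div_strat (hU : IsOpen U) (hS : Stab I U)
    (hf : DifferentiableOn ℂ (fun w => f (pz I w)) U)
    (h0 : ∀ w ∈ U, (∀ i ∈ I, w i = 0) → ∀ j ∈ T \ I, w j = 0 → f w = 0) :
    ∃ g, DifferentiableOn ℂ g U ∧
      ∀ w ∈ U, f (pz I w) = (∏ i ∈ T \ I, w i) * g w ∧ g (pz I w) = g w := by
  obtain ⟨g, h1, h2⟩ := div_prod hU (T \ I) hf fun w hw j hj h =>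
    h0 _ (hS I subset_rfl w hw) (fun i hi => pz_mem hi) j hj (pz_of_zero h)
  refine ⟨fun w => g (pz I w), hol_comp_pz hS subset_rfl h1, fun w hw => ⟨?_, congrArg g pz_idem⟩⟩
  have := h2 _ (hS I subset_rfl w hw)
  rwa [pz_idem, prod_pz fun i hi => (Finset.mem_sdiff.1 hi).2] at this

theorem div_strat_germ (hx : ∀ i ∈ I, x i = 0) (hf : HolN (fun w => f (pz I w)) x)
    (h0 : ∀ᶠ w in 𝓝 x, (∀ i ∈ I, w i = 0) → ∀ j ∈ T \ I, w j = 0 → f w = 0) :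
    ∃ g, HolN g x ∧ ∀ᶠ w in 𝓝 x, f (pz I w) = (∏ i ∈ T \ I, w i) * g w ∧ g (pz I w) = g w := by
  obtain ⟨r, r0, h1, h2⟩ := holN_ball hf h0
  obtain ⟨g, g1, g2⟩ := div_strat isOpen_ball (stab_ball hx) h1 h2
  exact ⟨g, holN_of isOpen_ball g1 (mem_ball_self r0), mem_of_superset (ball_mem_nhds x r0) g2⟩

/-! ### Germ forms at any point -/

theorem sm_prod_germ (hx : ∀ i ∈ I, x i = 0) (hf : SmN f x)
    (h0 : ∀ᶠ w in 𝓝 x, ∀ i ∈ I, w i = 0 → f w = 0) :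
    ∃ g : Finset (Fin n) → E n → ℂ, (∀ A, SmN (g A) x) ∧
      ∀ᶠ w in 𝓝 x, f w = ∑ A ∈ I.powerset, mx I A w * g A w := by
  obtain ⟨r, r0, h1, h2⟩ := hf.ball h0
  obtain ⟨g, g1, g2⟩ := sm_prod isOpen_ball (convex_ball x r) I (stab_ball hx) h1 h2
  exact ⟨g, fun A => (g1 A).smN isOpen_ball (mem_ball_self r0),
    mem_of_superset (ball_mem_nhds x r0) g2⟩

theorem sm_ideal_germ {q : ℕ} (hx : ∀ i ∈ T, x i = 0) (hf : SmN f x)
    (h0 : ∀ᶠ w in 𝓝 x, ∀ I ⊆ T, I.card = q + 1 → (∀ i ∈ I, w i = 0) → f w = 0) :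
    ∃ g : Finset (Fin n) → Finset (Fin n) → E n → ℂ, (∀ J A, SmN (g J A) x) ∧
      ∀ᶠ w in 𝓝 x, f w = ∑ J ∈ T.powerset with J.card ≤ q,
        ∑ A ∈ (T \ J).powerset, mx (T \ J) A w * g J A w := by
  obtain ⟨r, r0, h1, h2⟩ := hf.ball h0
  obtain ⟨g, g1, g2⟩ := sm_ideal isOpen_ball (convex_ball x r) (stab_ball hx) h1
    fun I hI hc w hw => h2 w hw I hI hc
  exact ⟨g, fun J A => (g1 J A).smN isOpen_ball (mem_ball_self r0),
    mem_of_superset (ball_mem_nhds x r0) g2⟩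

theorem sub_filter (hI : I ⊆ T) (hw : ∀ i ∈ T \ T.filter fun i => x i = 0, w i ≠ 0)
    (h0 : ∀ i ∈ I, w i = 0) : I ⊆ T.filter fun i => x i = 0 := fun i hi => by
  by_contra h
  exact hw i (Finset.mem_sdiff.2 ⟨hI hi, h⟩) (h0 i hi)

theorem ext_sm_germ {p : ℕ} {c : Finset (Fin n) → E n → ℂ}
    (hs : ∀ I ⊆ T, I.card = p → (∀ i ∈ I, x i = 0) → SmN (fun w => c I (pz I w)) x)
    (hc : ∀ᶠ w in 𝓝 x, ∀ I ⊆ T, I.card = p → ∀ J ⊆ T, J.card = p →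
      (∀ i ∈ I, w i = 0) → (∀ i ∈ J, w i = 0) → c I w = c J w) :
    ∃ F, SmN F x ∧ ∀ᶠ w in 𝓝 x, ∀ I ⊆ T, I.card = p → (∀ i ∈ I, w i = 0) → F w = c I w := by
  have hS := Finset.filter_subset (fun i => x i = 0) T
  have h1 : ∀ᶠ w in 𝓝 x, ∀ I ⊆ T.filter fun i => x i = 0, I.card = p →
      ContDiffAt ℝ (⊤ : ℕ∞) (fun w => c I (pz I w)) w :=
    eventually_all.2 fun I => eventually_imp_distrib_left.2 fun hI =>
      eventually_imp_distrib_left.2 fun hp =>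
        hs I (hI.trans hS) hp fun i hi => (Finset.mem_filter.1 (hI hi)).2
  obtain ⟨r, r0, hr⟩ := Metric.eventually_nhds_iff_ball.1 (h1.and (hc.and (ev_ne x T)))
  obtain ⟨F, F1, F2⟩ := ext_sm (c := c) isOpen_ball
    (stab_ball (T := T.filter fun i => x i = 0) fun j hj => (Finset.mem_filter.1 hj).2)
    (fun I hI hp w hw => (hr w hw).1 I hI hp)
    fun I hI hp J hJ hq w hw => (hr w hw).2.1 I (hI.trans hS) hp J (hJ.trans hS) hq
  refine ⟨F, F1.smN isOpen_ball (mem_ball_self r0), ?_⟩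
  filter_upwards [ball_mem_nhds x r0] with w hw I hI hp h0
  exact F2 I (sub_filter hI (hr w hw).2.2 h0) hp w hw h0

theorem ext_hol_germ {p : ℕ} {c : Finset (Fin n) → E n → ℂ}
    (hs : ∀ I ⊆ T, I.card = p → (∀ i ∈ I, x i = 0) → HolN (fun w => c I (pz I w)) x)
    (hc : ∀ᶠ w in 𝓝 x, ∀ I ⊆ T, I.card = p → ∀ J ⊆ T, J.card = p →
      (∀ i ∈ I, w i = 0) → (∀ i ∈ J, w i = 0) → c I w = c J w) :
    ∃ F, HolN F x ∧ ∀ᶠ w in 𝓝 x, ∀ I ⊆ T, I.card = p → (∀ i ∈ I, w i = 0) → F w = c I w := by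
  have hS := Finset.filter_subset (fun i => x i = 0) T
  have h1 : ∀ᶠ w in 𝓝 x, ∀ I ⊆ T.filter fun i => x i = 0, I.card = p →
      DifferentiableAt ℂ (fun w => c I (pz I w)) w :=
    eventually_all.2 fun I => eventually_imp_distrib_left.2 fun hI =>
      eventually_imp_distrib_left.2 fun hp =>
        hs I (hI.trans hS) hp fun i hi => (Finset.mem_filter.1 (hI hi)).2
  obtain ⟨r, r0, hr⟩ := Metric.eventually_nhds_iff_ball.1 (h1.and (hc.and (ev_ne x T)))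
  obtain ⟨F, F1, F2⟩ := ext_hol (c := c) (U := ball x r)
    (stab_ball (T := T.filter fun i => x i = 0) fun j hj => (Finset.mem_filter.1 hj).2)
    (fun I hI hp w hw => ((hr w hw).1 I hI hp).differentiableWithinAt)
    fun I hI hp J hJ hq w hw => (hr w hw).2.1 I (hI.trans hS) hp J (hJ.trans hS) hq
  refine ⟨F, holN_of isOpen_ball F1 (mem_ball_self r0), ?_⟩
  filter_upwards [ball_mem_nhds x r0] with w hw I hI hp h0
  exact F2 I (sub_filter hI (hr w hw).2.2 h0) hp w hw h0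

/-! ### Extension across the hyperplanes -/

theorem ext_off_sq (hU : IsOpen U) (hf : ∀ w ∈ U, (∀ i ∈ I, w i ≠ 0) → DifferentiableAt ℂ f w)
    (hi : ∀ x ∈ U, ∃ V ∈ 𝓝 x,
      ∫⁻ w in {w | w ∈ V ∧ ∀ i ∈ I, w i ≠ 0}, ENNReal.ofReal (‖f w‖ ^ 2) ≠ ⊤) :
    ∃ g, DifferentiableOn ℂ g U ∧ ∀ w ∈ U, (∀ i ∈ I, w i ≠ 0) → g w = f w := by
  have := SV.H85.ext_sq volume (f := f) (j := fun w : E n => ∏ i ∈ I, w i) hU
    (diff_prod I).differentiableOn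
    (fun x hx h => freq_prod I x (h.mono fun w hw => not_not.2 hw))
    (fun w hw => (hf w hw.1 (Finset.prod_ne_zero_iff.1 hw.2)).differentiableWithinAt)
    (by simpa only [Finset.prod_ne_zero_iff] using hi)
  simpa only [Finset.prod_ne_zero_iff] using this

theorem ext_off_bdd (hU : IsOpen U) (hf : ∀ w ∈ U, (∀ i ∈ I, w i ≠ 0) → DifferentiableAt ℂ f w)
    (hb : ∀ x ∈ U, ∃ C, ∀ᶠ w in 𝓝 x, (∀ i ∈ I, w i ≠ 0) → ‖f w‖ ≤ C) :
    ∃ g, DifferentiableOn ℂ g U ∧ ∀ w ∈ U, (∀ i ∈ I, w i ≠ 0) → g w = f w := by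
  refine ext_off_sq hU hf fun x hx => ?_
  obtain ⟨C, hC⟩ := hb x hx
  obtain ⟨r, r0, hr⟩ := Metric.eventually_nhds_iff_ball.1 hC
  refine ⟨ball x r, ball_mem_nhds x r0, ?_⟩
  refine ne_top_of_le_ne_top ?_ (setLIntegral_mono (g := fun _ => ENNReal.ofReal (C ^ 2))
    measurable_const fun w hw => ENNReal.ofReal_le_ofReal
      (pow_le_pow_left₀ (norm_nonneg _) (hr w hw.1 hw.2) 2))
  rw [setLIntegral_const]
  exact ENNReal.mul_ne_top ENNReal.ofReal_ne_top (ne_top_of_le_ne_top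
    (measure_ball_lt_top (x := x) (r := r)).ne (measure_mono fun w hw => hw.1))

end Pool.Agent.Lib.EX.K68
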