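import Pool.Agent.Lib.HS32.MKit
import Pool.Agent.Lib.HS85.Frame

/-! Existence of charts adapted to functions with independent differentials. -/

open scoped Classical Topology ENNReal ComplexConjugate
open Set MeasureTheory Complex Metric Filter

set_option linter.unusedVariables false

noncomputable section

namespace Pool.Agent.Lib.EX.K68

open Pool.Agent.Lib.SV (E)
open Pool.Agent.Lib.HS32

variable {n : ℕ} {ι : Type}

/-- Independent linear forms are coordinates of a linear automorphism. -/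
theorem lin_ext {v : ι → E n →L[ℂ] ℂ} (hv : LinearIndependent ℂ v) :
    ∃ (τ : ι → Fin n) (l : Fin n → E n →L[ℂ] ℂ), Function.Injective τ ∧ (∀ i, l (τ i) = v i) ∧
      IsUnit (ContinuousLinearMap.pi l : E n →L[ℂ] E n) := by
  have hr : Module.finrank ℂ (E n →L[ℂ] ℂ) = n := by
    rw [← (LinearMap.toContinuousLinearMap (𝕜 := ℂ) (E := E n) (F' := ℂ)).finrank_eq,
      Module.finrank_linearMap]
    simp
  let b := Module.Basis.extend hv.linearIndepOn_id
  let σ := b.indexEquiv (Module.finBasisOfFinrankEq ℂ (E n →L[ℂ] ℂ) hr)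
  have hm : ∀ i, v i ∈ hv.linearIndepOn_id.extend (subset_univ _) := fun i =>
    Module.Basis.subset_extend _ ⟨i, rfl⟩
  refine ⟨fun i => σ ⟨v i, hm i⟩, fun k => b (σ.symm k), fun i j h =>
    hv.injective (congrArg Subtype.val (σ.injective h)), fun i => by
      beta_reduce
      rw [σ.symm_apply_apply]
      exact Module.Basis.extend_apply_self _ _, ?_⟩
  rw [ContinuousLinearMap.isUnit_iff_isUnit_toLinearMap, LinearMap.isUnit_iff_ker_eq_bot,
    LinearMap.ker_eq_bot']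
  intro x hx
  have h1 : ∀ a, b a x = 0 := fun a => by
    have := congrFun hx (σ a)
    rwa [← σ.symm_apply_apply a]
  funext j
  have h2 : ∀ u : E n →L[ℂ] ℂ, u x = 0 := fun u => by
    have : (ContinuousLinearMap.apply ℂ ℂ x : (E n →L[ℂ] ℂ) →L[ℂ] ℂ).toLinearMap = 0 :=
      b.ext fun a => h1 a
    exact LinearMap.congr_fun this u
  exact h2 (ContinuousLinearMap.proj j)

/-- Shrinking the target to a ball. -/
theorem to_ball {X : Type} [TopologicalSpace X] (φ : OpenPartialHomeomorph X (E n)) {x : X}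
    (hx : x ∈ φ.source) {r : ℝ} (r0 : 0 < r) (hr : ball (φ x) r ⊆ φ.target) :
    ∃ ψ : OpenPartialHomeomorph X (E n), (ψ : X → E n) = φ ∧ (ψ.symm : E n → X) = φ.symm ∧
      x ∈ ψ.source ∧ ψ.source ⊆ φ.source ∧ ψ.target = ball (φ x) r :=
  ⟨(φ.symm.restrOpen _ isOpen_ball).symm, rfl, rfl, ⟨hx, mem_ball_self r0⟩, fun _ h => h.1,
    inter_eq_right.2 hr⟩

/-- Adapted coordinates. -/
theorem adapt [Finite ι] {h : ι → E n → ℂ} {z : E n} (hh : ∀ i, HolN (h i) z)
    (hl : LinearIndependent ℂ fun i => fderiv ℂ (h i) z) {V : Set (E n)} (hV : V ∈ 𝓝 z) :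
    ∃ (τ : ι → Fin n) (ψ : OpenPartialHomeomorph (E n) (E n)) (r : ℝ), Function.Injective τ ∧
      0 < r ∧ z ∈ ψ.source ∧ ψ.source ⊆ V ∧ ψ.target = ball (ψ z) r ∧
      DifferentiableOn ℂ ψ ψ.source ∧ DifferentiableOn ℂ ψ.symm ψ.target ∧
      ∀ w i, ψ w (τ i) = h i w := by
  obtain ⟨τ, l, h1, h2, h3⟩ := lin_ext hl
  let g : Fin n → E n → ℂ := Function.extend τ h fun k => l k
  have g1 : ∀ i, g (τ i) = h i := fun i => h1.extend_apply _ _ i
  have g2 : ∀ k, HolN (g k) z ∧ fderiv ℂ (g k) z = l k := fun k => by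
    by_cases hk : ∃ i, τ i = k
    · obtain ⟨i, rfl⟩ := hk
      rw [g1, h2]
      exact ⟨hh i, rfl⟩
    · rw [show g k = l k from Function.extend_apply' _ _ _ hk]
      exact ⟨Eventually.of_forall (l k).differentiable, (l k).fderiv⟩
  obtain ⟨φ, e1, e2, e3, e4, e5, -⟩ := HS85.loc_inv (f := fun w k => g k w) (a := z)
    ((eventually_all.2 fun k => (g2 k).1).mono fun w hw => differentiableAt_pi.2 hw)
    (by
      rw [fderiv_pi fun k => (g2 k).1.self_of_nhds]
      simpa only [(g2 _).2] using h3) hV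
  obtain ⟨r, r0, hr⟩ := Metric.isOpen_iff.1 φ.open_target _ (φ.map_source e2)
  obtain ⟨ψ, a1, a2, a3, a4, a5⟩ := to_ball φ e2 r0 hr
  refine ⟨τ, ψ, r, h1, r0, a3, a4.trans e3, by rw [a5, a1], a1 ▸ e4.mono a4,
    a2 ▸ e5.mono (a5 ▸ hr), fun w i => ?_⟩
  rw [a1, e1, ← g1]

/-- Adapted charts on a manifold. -/
theorem adapt_mf [Finite ι] {M : Mf n} {e : M.Ch} (he : e ∈ M.C) {y : M.X} (hy : y ∈ e.source)
    {h : ι → M.X → ℂ} (hh : ∀ i, HolN (h i ∘ e.symm) (e y))
    (hl : LinearIndependent ℂ fun i => fderiv ℂ (h i ∘ e.symm) (e y)) {O : Set M.X}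
    (hO : O ∈ 𝓝 y) : ∃ (τ : ι → Fin n) (c : M.Ch) (r : ℝ), Function.Injective τ ∧ 0 < r ∧
      c ∈ M.C ∧ y ∈ c.source ∧ c.source ⊆ O ∩ e.source ∧ c.target = ball (c y) r ∧
      ∀ x ∈ c.source, ∀ i, c x (τ i) = h i x := by
  obtain ⟨τ, ψ, r, h1, r0, h2, h3, h4, h5, h6, h7⟩ := adapt hh hl (V := e.target ∩ e.symm ⁻¹' O)
    (inter_mem (e.open_target.mem_nhds (e.map_source hy))
      ((e.continuousAt_symm (e.map_source hy)).preimage_mem_nhds (by rwa [e.left_inv hy])))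
  refine ⟨τ, e.trans ψ, r, h1, r0, M.sat e he ψ h5 h6, ⟨hy, h2⟩, fun x hx => ⟨?_, hx.1⟩, ?_,
    fun x hx i => ?_⟩
  · have : e.symm (e x) ∈ O := (h3 hx.2).2
    rwa [e.left_inv hx.1] at this
  · exact (inter_eq_left.2 fun w hw => (h3 (ψ.map_target hw)).1).trans h4
  · change ψ (e x) (τ i) = _
    rw [h7, Function.comp_apply, e.left_inv hx.1]

end Pool.Agent.Lib.EX.K68
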