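import Pool.Agent.Lib.EX.BrBlue
import Pool.Agent.Lib.EX.B_MON
import Pool.Agent.Lib.EX.K68C
import Pool.Agent.Lib.EX.K68D
import Pool.Agent.Lib.HS32.MAll

/-! Project ex41: existence of adapted atlases. -/

open scoped Classical Topology ContDiff ComplexOrder Matrix
open Set MeasureTheory Complex Metric Filter

set_option linter.unusedVariables false
set_option linter.unusedSectionVars false

noncomputable section

namespace Pool.Agent.Lib.EX

open Pool.Agent.Lib.SV (E)
open Pool.Agent.Lib.HS32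

namespace ADA

variable {n : ℕ} {M : Mf n} {ι : Type} [Fintype ι] {S : ι → Set M.X}

/-- An adapted chart. -/
structure Ok (S : ι → Set M.X) (e : M.Ch) (c : ι → Option (Fin n)) : Prop where
  mem : e ∈ M.C
  tgt : e.target = B2 n
  inj : Inj c
  fit : ∀ y ∈ e.source, ∀ i, y ∈ S i ↔ xi c i (e y) = 0

theorem loc {x : M.X} {O : Set M.X} (hO : O ∈ 𝓝 x) {e : M.Ch} (he : e ∈ M.C) (hx : x ∈ e.source)
    {h : ι → E n → ℂ}
    (h1 : ∀ᶠ z in 𝓝 (e x), ∀ i, DifferentiableAt ℂ (h i) z ∧ (e.symm z ∈ S i ↔ h i z = 0))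
    (h2 : LinearIndependent ℂ fun i : {i // x ∈ S i} => fderiv ℂ (h i) (e x)) :
    ∃ (d : M.Ch) (c : ι → Option (Fin n)), Ok S d c ∧ x ∈ d.source ∧ d x = 0 ∧ d.source ⊆ O := by
  have h0 : ∀ i, x ∈ S i ↔ h i (e x) = 0 := fun i => by
    have := (h1.self_of_nhds i).2
    rwa [e.left_inv hx] at this
  have h3 : ∀ᶠ z in 𝓝 (e x), ∀ i, x ∉ S i → h i z ≠ 0 :=
    eventually_all.2 fun i => eventually_imp_distrib_left.2 fun hi =>
      (h1.self_of_nhds i).1.continuousAt.eventually_ne fun h => hi ((h0 i).2 h)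
  have h4 : ∀ᶠ z in 𝓝 (e x), e.symm z ∈ O :=
    (e.continuousAt_symm (e.map_source hx)).preimage_mem_nhds (by rwa [e.left_inv hx])
  obtain ⟨τ, ψ, r, a1, r0, a2, a3, a4, a5, a6, a7⟩ := K68.adapt
    (h := fun i : {i // x ∈ S i} => h i) (fun i => h1.mono fun z hz => (hz i).1) h2
    (h1.and (h3.and (h4.and (e.open_target.eventually_mem (e.map_source hx)))))
  have k0 : ((2 / r : ℝ) : ℂ) ≠ 0 := ofReal_ne_zero.2 (by positivity)
  let A : E n ≃ₜ E n := (Homeomorph.subRight (ψ (e x))).trans (Homeomorph.smulOfNeZero _ k0)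
  have eA : ∀ w, A w = ((2 / r : ℝ) : ℂ) • (w - ψ (e x)) := fun _ => rfl
  have eA' : ∀ w, A.symm w = ((2 / r : ℝ) : ℂ)⁻¹ • w + ψ (e x) := fun w => by
    rw [A.symm_apply_eq, eA, add_sub_cancel_right, smul_inv_smul₀ k0]
  have dA : Differentiable ℂ A := by rw [funext eA]; fun_prop
  have dA' : Differentiable ℂ A.symm := by rw [funext eA']; fun_prop
  refine ⟨e.trans (ψ.transHomeomorph A), fun i => if h : x ∈ S i then some (τ ⟨i, h⟩) else none,
    ⟨M.sat e he _ (dA.comp_differentiableOn a5) (a6.comp dA'.differentiableOn fun _ h => h),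
      ?_, fun i i' j e1 e2 => ?_, fun y hy i => ?_⟩, ⟨hx, a2⟩, ?_, fun y hy => ?_⟩
  · refine (inter_eq_left.2 fun w hw => (a3 (ψ.map_target (x := A.symm w) hw)).2.2.2).trans
      (Set.ext fun w => ?_)
    change A.symm w ∈ ψ.target ↔ _
    rw [a4, mem_ball, mem_ball, dist_eq_norm, eA', add_sub_cancel_right, norm_smul, norm_inv,
      norm_real, Real.norm_of_nonneg (by positivity), inv_div, dist_zero_right,
      div_mul_eq_mul_div, div_lt_iff₀ two_pos, mul_lt_mul_iff_right₀ r0]
  · beta_reduce at e1 e2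
    split_ifs at e1 e2
    exact congrArg Subtype.val (a1 (Option.some.inj (e1.trans e2.symm)))
  · have : e.symm (e y) ∈ S i ↔ h i (e y) = 0 := ((a3 hy.2).1 i).2
    rw [e.left_inv hy.1] at this
    rw [this, xi]
    split_ifs with hi
    · change _ ↔ A (ψ (e y)) (τ ⟨i, hi⟩) = 0
      rw [eA, Pi.smul_apply, Pi.sub_apply, a7, a7, (h0 i).1 hi, sub_zero, smul_eq_zero,
        or_iff_right k0]
    · exact iff_of_false ((a3 hy.2).2.1 i hi) one_ne_zero
  · change A (ψ (e x)) = 0
    rw [eA, sub_self, smul_zero]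
  · have : e.symm (e y) ∈ O := (a3 hy.2).2.2.1
    rwa [e.left_inv hy.1] at this

/-- The unit between two equations. -/
def un (e e' : M.Ch) (c c' : ι → Option (Fin n)) (i : ι) (x : M.X) : ℂ :=
  K68.quo (fun z => xi c i (e (e'.symm z))) (xi c' i) (e' x)

variable {e e' e'' : M.Ch} {c c' c'' : ι → Option (Fin n)} {x : M.X} {i : ι}

theorem un_spec (hU : St_UNI) (h : Ok S e c) (h' : Ok S e' c') (hx : x ∈ e.source)
    (hx' : x ∈ e'.source) : HolN (un e e' c c' i ∘ e'.symm) (e' x) ∧ un e e' c c' i x ≠ 0 ∧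
      xi c i (e x) = un e e' c c' i x * xi c' i (e' x) := by
  obtain ⟨t1, t2, -, t3, -⟩ := (mTR n M).2.1 e h.mem e' h'.mem x hx hx'
  obtain ⟨u, u1, u2, u3⟩ := hU n ι c' i (fun z => xi c i (e (e'.symm z))) (e' x)
    (t1.mono fun z hz => (MON.diff_xi c i _).comp z hz)
    (t3.mono fun z hz => by
      rw [← h.fit _ hz.2.1, h'.fit _ hz.2.2.1, hz.2.2.2.2.2.1])
    fun h0 h1 => by
      rcases MON.xi_cases c i with ⟨-, a⟩ | ⟨j, -, a⟩
      · rw [a] at h0; exact one_ne_zero h0
      · refine t2 (Matrix.det_eq_zero_of_row_eq_zero j fun k => ?_)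
        rw [a] at h1
        have := fderiv_apply t1.self_of_nhds j
        exact (DFunLike.congr_fun this (Pi.single k 1)).symm.trans
          (DFunLike.congr_fun h1 (Pi.single k 1))
  have q := K68.quo_ev (f := fun z => xi c i (e (e'.symm z))) (m := xi c' i)
    (Eventually.of_forall fun y => (MON.off_freq c' y).mono fun w hw => hw i)
    (u1.mono fun _ h => h.continuousAt) (u3.mono fun w hw _ => by rw [hw, mul_comm])
  have q0 : un e e' c c' i x = u (e' x) := q.eq_of_nhds
  refine ⟨K68.holN_congr u1 ?_, q0 ▸ u2, ?_⟩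
  · filter_upwards [q, t3] with z h1 h2
    rw [← h1, Function.comp_apply, un, h2.2.2.2.2.2.1]
  · have := u3.self_of_nhds
    rwa [e'.left_inv hx', ← q0] at this

theorem un_cont (hU : St_UNI) (h : Ok S e c) (h' : Ok S e' c') (hx : x ∈ e.source)
    (hx' : x ∈ e'.source) : ContinuousAt (un e e' c c' i) x :=
  (ContinuousAt.comp (un_spec (i := i) hU h h' hx hx').1.self_of_nhds.continuousAt
    (e'.continuousAt hx')).congr ((e'.eventually_left_inverse hx').mono fun y hy => by
      simp only [Function.comp_apply, hy])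

theorem un_mul (hU : St_UNI) (h : Ok S e c) (h' : Ok S e' c') (h'' : Ok S e'' c'')
    (hx : x ∈ e.source) (hx' : x ∈ e'.source) (hx'' : x ∈ e''.source) :
    un e e'' c c'' i x = un e e' c c' i x * un e' e'' c' c'' i x := by
  refine K68.cancel_at (m := fun y => xi c'' i (e'' y)) ?_ (un_cont hU h h'' hx hx'')
    ((un_cont hU h h' hx hx').mul (un_cont hU h' h'' hx' hx'')) ?_
  · have := (MON.off_freq c'' (e'' x)).mono fun w hw => hw i
    rwa [← e''.map_nhds_eq hx'', frequently_map] at this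
  · filter_upwards [e.open_source.mem_nhds hx, e'.open_source.mem_nhds hx',
      e''.open_source.mem_nhds hx''] with y a a' a''
    rw [Pi.mul_apply, mul_comm, ← (un_spec hU h h'' a a'').2.2, (un_spec hU h h' a a').2.2,
      (un_spec hU h' h'' a' a'').2.2]
    ring

end ADA

open ADA in
theorem bADA (hU : St_UNI) : St_ADA := by
  intro n M _ ι _ _ S O hO h
  have key : ∀ x, ∃ (d : M.Ch) (c : ι → Option (Fin n)),
      Ok S d c ∧ x ∈ d.source ∧ d x = 0 ∧ d.source ⊆ O x := fun x => by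
    obtain ⟨e, he, hx, h, h1, h2⟩ := h x
    exact loc (hO x) he hx h1 h2
  choose d c k1 k2 k3 k4 using key
  obtain ⟨t, -, ht⟩ := isCompact_univ.elim_nhds_subcover
    (fun x => (d x).source ∩ d x ⁻¹' ball 0 1) fun x _ =>
      ((d x).isOpen_inter_preimage isOpen_ball).mem_nhds
        ⟨k2 x, by rw [mem_preimage, k3]; exact mem_ball_self one_pos⟩
  let β : ContDiffBump (0 : E n) := ⟨1 / 2, 1, by norm_num, by norm_num⟩
  let φ : t → M.X → ℝ := fun a => (d a).source.indicator fun x => β (d a x)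
  have p1 : ∀ a, M.Sm (φ a) := fun a => (mCOV n M).2.2.2.1 ℝ (d a) (k1 a).mem (closedBall 0 1) β
    (isCompact_closedBall 0 1) ((k1 a).tgt ▸ closedBall_subset_ball (by norm_num))
    (fun z _ => β.contDiff.contDiffAt) fun z _ hz =>
      β.zero_of_le_dist (not_le.1 hz).le
  have p2 : ∀ a x, 0 ≤ φ a x := fun a x => indicator_nonneg (fun _ _ => β.nonneg) x
  have p3 : ∀ x, 0 < ∑ a, φ a x := fun x => by
    obtain ⟨a, ha, hx⟩ := mem_iUnion₂.1 (ht (mem_univ x))
    refine Finset.sum_pos' (fun a _ => p2 a x) ⟨⟨a, ha⟩, Finset.mem_univ _, ?_⟩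
    simp only [φ, indicator_of_mem hx.1]
    exact β.pos_of_mem_ball hx.2
  refine ⟨{
    A := t
    e := fun a => d a
    c := fun a => c a
    χ := fun a x => φ a x / ∑ b, φ b x
    u := fun a b => un (d a) (d b) (c a) (c b)
    mem := fun a => (k1 a).mem
    tgt := fun a => (k1 a).tgt
    inj := fun a => (k1 a).inj
    sm := fun a => (p1 a).div (Mf.Sm.sum fun b _ => p1 b) fun x => (p3 x).ne'
    nn := fun a x => div_nonneg (p2 a x) (p3 x).le
    sum := fun x => by rw [← Finset.sum_div, div_self (p3 x).ne']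
    supp := fun a x hx => ?_
    uhol := fun a b i x h h' => (un_spec hU (k1 a) (k1 b) h h').1
    une := fun a b i x h h' => (un_spec hU (k1 a) (k1 b) h h').2.1
    urel := fun a b i x h h' => (un_spec hU (k1 a) (k1 b) h h').2.2
    umul := fun a b e i x h h' h'' => un_mul hU (k1 a) (k1 b) (k1 e) h h' h'' },
    fun b z hz i => ?_, fun b => ⟨b, k4 b⟩⟩
  · have h1 : φ a x ≠ 0 := fun h => hx (by rw [h, zero_div])
    have h2 : x ∈ (d a).source := mem_of_indicator_ne_zero h1
    refine ⟨h2, not_lt.1 fun h => h1 ?_⟩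
    simp only [φ, indicator_of_mem h2]
    exact β.zero_of_le_dist (by rw [dist_zero_right]; exact h.le)
  · have hz' : z ∈ (d b).target := (k1 b).tgt ▸ hz
    have := (k1 b).fit _ ((d b).map_target hz') i
    rwa [(d b).right_inv hz'] at this

end Pool.Agent.Lib.EX
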