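import Pool.Agent.Lib.EX.B_UNI
import Pool.Agent.Lib.EX.B_MON

/-! Project ex41: the blow-up data read in the charts of an adapted atlas. -/

open scoped Classical Topology ContDiff ComplexOrder Matrix Manifold
open Set MeasureTheory Complex Metric Filter

set_option linter.unusedVariables false

noncomputable section

namespace Pool.Agent.Lib.EX

open Pool.Agent.Lib.SV (E)
open Pool.Agent.Lib.HS32
open Pool.Agent.Lib.HS.BBR (mf Cp)
open Pool.Agent.Lib.KP (HolAt)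

namespace BLW

variable {n : ℕ} {I : Type} [Fintype I] [DecidableEq I]
  {F : Type} [NormedAddCommGroup F] [NormedSpace ℂ F]

/-- The numerator of `f` as a limit along the complement of the divisor. -/
def num (c : I → Option (Fin n)) (G : I → ℤ) (f : E n → F) (z : E n) : F :=
  limUnder (𝓝[{y | Off c y}] z) fun y => (xm c G y)⁻¹ • f y

theorem num_eq {c : I → Option (Fin n)} {G : I → ℤ} {f T : E n → F} {z : E n} (hT : HolN T z)
    (e : ∀ᶠ y in 𝓝 z, Off c y → f y = xm c G y • T y) : num c G f =ᶠ[𝓝 z] T := by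
  filter_upwards [hT, e.eventually_nhds] with w h1 h2
  have : (𝓝[{y | Off c y}] w).NeBot := mem_closure_iff_nhdsWithin_neBot.1 (MON.off_dense c w)
  refine Tendsto.limUnder_eq ((h1.continuousAt.tendsto.mono_left nhdsWithin_le_nhds).congr' ?_)
  filter_upwards [nhdsWithin_le_nhds h2, self_mem_nhdsWithin] with y h3 h4
  rw [h3 h4, smul_smul, inv_mul_cancel₀ (MON.xm_ne G h4), one_smul]

variable {Y : Type} [TopologicalSpace Y] [ChartedSpace (E n) Y] [IsManifold 𝓘(ℂ, E n) ω Y]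
  {e : OpenPartialHomeomorph Y (E n)} {z : E n}

/-- The change to the preferred chart. -/
def ph (e : OpenPartialHomeomorph Y (E n)) (z : E n) : E n →L[ℂ] E n :=
  fderiv ℂ (chartAt (E n) (e.symm z) ∘ e.symm) z

theorem der (he : e ∈ (mf n Y).C) (hz : z ∈ e.target) {h : Y → F}
    (hh : DifferentiableAt ℂ (h ∘ (chartAt (E n) (e.symm z)).symm)
      (chartAt (E n) (e.symm z) (e.symm z))) :
    HasFDerivAt (h ∘ e.symm) ((dAt n h (e.symm z)).comp (ph e z)) z := by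
  have hy := mem_chart_source (E n) (e.symm z)
  have h1 := ((he (e.symm z)).2.at hz hy).hasFDerivAt
  refine (HasFDerivAt.comp z hh.hasFDerivAt h1).congr_of_eventuallyEq ?_
  filter_upwards [(e.isOpen_inter_preimage_symm (chartAt (E n) (e.symm z)).open_source).mem_nhds
    ⟨hz, hy⟩] with w hw
  simp only [Function.comp_apply, (chartAt (E n) (e.symm z)).left_inv hw.2]

theorem ph_inj (he : e ∈ (mf n Y).C) (hz : z ∈ e.target) : Function.Injective (ph e z) := by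
  have hy := mem_chart_source (E n) (e.symm z)
  have h1 := der he hz (h := e) (((he (e.symm z)).1).at ((chartAt (E n) (e.symm z)).map_source hy)
    (by rw [(chartAt (E n) (e.symm z)).left_inv hy]; exact e.map_target hz))
  have h2 : HasFDerivAt (e ∘ e.symm) (ContinuousLinearMap.id ℂ (E n)) z :=
    (hasFDerivAt_id z).congr_of_eventuallyEq (e.eventually_right_inverse hz)
  exact Function.LeftInverse.injective (g := dAt n e (e.symm z)) fun v =>
    congrArg (fun L : E n →L[ℂ] E n => L v) (h1.unique h2)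

theorem ph_surj (he : e ∈ (mf n Y).C) (hz : z ∈ e.target) : Function.Surjective (ph e z) :=
  (LinearMap.injective_iff_surjective (f := (ph e z : E n →ₗ[ℂ] E n))).1 (ph_inj he hz)

theorem hol0 {h : Y → ℂ} {y : Y} (hh : HolAt n 0 h y) :
    DifferentiableAt ℂ (h ∘ (chartAt (E n) y).symm) (chartAt (E n) y y) := by
  simp only [HolAt, pow_zero, mul_one] at hh
  exact hh

theorem holv {N : ℕ} {h : Y → E N} {y : Y} (hh : ∀ j, HolAt n 0 (h · j) y) :
    DifferentiableAt ℂ (h ∘ (chartAt (E n) y).symm) (chartAt (E n) y y) :=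
  differentiableAt_pi.2 fun j => hol0 (hh j)

theorem ev (hz : z ∈ e.target) {P : Y → Prop} (h : ∀ᶠ x in 𝓝 (e.symm z), P x) :
    ∀ᶠ w in 𝓝 z, w ∈ e.target ∧ P (e.symm w) :=
  Eventually.and (e.open_target.mem_nhds hz) ((e.continuousAt_symm hz).eventually h)

theorem holN (he : e ∈ (mf n Y).C) (hz : z ∈ e.target) {h : Y → F}
    (hh : ∀ᶠ x in 𝓝 (e.symm z),
      DifferentiableAt ℂ (h ∘ (chartAt (E n) x).symm) (chartAt (E n) x x)) :
    HolN (h ∘ e.symm) z :=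
  (ev hz hh).mono fun w hw => (der he hw.1 hw.2).differentiableAt

variable {S : I → Set Y} {c : I → Option (Fin n)}

/-- Local equations are units times the coordinates. -/
theorem unit (hU : St_UNI) (he : e ∈ (mf n Y).C) (hz : z ∈ e.target)
    (hF : ∀ w ∈ e.target, ∀ i, e.symm w ∈ S i ↔ xi c i w = 0) {h : I → Y → ℂ}
    (hE : Eqs n S (e.symm z) h) :
    ∃ u : I → E n → ℂ, (∀ i, HolN (u i) z ∧ u i z ≠ 0) ∧
      ∀ᶠ w in 𝓝 z, ∀ i, h i (e.symm w) = u i w * xi c i w := by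
  have key : ∀ i, ∃ u, HolN u z ∧ u z ≠ 0 ∧
      ∀ᶠ w in 𝓝 z, (h i ∘ e.symm) w = u w * xi c i w := fun i => by
    refine hU n I c i _ z (holN he hz (hE.1.mono fun x hx => hol0 (hx i).1)) ?_ ?_
    · filter_upwards [ev hz hE.1] with w hw
      exact (hw.2 i).2.symm.trans (hF w hw.1 i)
    · intro h0 h1
      have h2 := hE.1.self_of_nhds i
      refine hE.2.ne_zero ⟨i, h2.2.2 h0⟩ (ContinuousLinearMap.ext fun v => ?_)
      obtain ⟨v, rfl⟩ := ph_surj he hz v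
      have := (der he hz (hol0 h2.1)).fderiv
      rw [h1] at this
      exact (congrArg (fun L : E n →L[ℂ] ℂ => L v) this).symm
  choose u h1 h2 h3 using key
  exact ⟨u, fun i => ⟨h1 i, h2 i⟩, eventually_all.2 h3⟩

theorem hol_prod {u : I → E n → ℂ} (hu : ∀ i, HolN (u i) z ∧ u i z ≠ 0) (G : I → ℤ) :
    HolN (fun w => ∏ i, u i w ^ G i) z ∧ ∏ i, u i z ^ G i ≠ 0 := by
  refine ⟨?_, Finset.prod_ne_zero_iff.2 fun i _ => zpow_ne_zero _ (hu i).2⟩
  have : ∀ᶠ w in 𝓝 z, ∀ i, DifferentiableAt ℂ (u i) w ∧ u i w ≠ 0 := eventually_all.2 fun i =>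
    Eventually.and (hu i).1 ((hu i).1.self_of_nhds.continuousAt.eventually_ne (hu i).2)
  exact this.mono fun w hw => (HasFDerivAt.finsetProd fun i _ =>
    ((hw i).1.zpow (Or.inl (hw i).2)).hasFDerivAt).differentiableAt

theorem ord1 (hU : St_UNI) (he : e ∈ (mf n Y).C) (hz : z ∈ e.target)
    (hF : ∀ w ∈ e.target, ∀ i, e.symm w ∈ S i ↔ xi c i w = 0) {l : I → ℤ} {σ : Y → ℂ}
    (h : Ord n 0 S l σ (e.symm z)) : HolN (num c l (σ ∘ e.symm)) z ∧
      num c l (σ ∘ e.symm) z ≠ 0 ∧ σ (e.symm z) = num c l (σ ∘ e.symm) z * xm c l z := by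
  obtain ⟨g, w, hE, hw⟩ := h
  obtain ⟨u, hu, hg⟩ := unit hU he hz hF hE
  obtain ⟨p1, p2⟩ := hol_prod hu l
  have h1 : HolN (w ∘ e.symm) z := holN he hz (hw.mono fun x hx => hol0 hx.1)
  have h2 : HolN (fun y => (∏ i, u i y ^ l i) * w (e.symm y)) z :=
    (Eventually.and p1 h1).mono fun y hy => hy.1.mul hy.2
  have h3 : ∀ᶠ y in 𝓝 z, (σ ∘ e.symm) y = xm c l y • ((∏ i, u i y ^ l i) * w (e.symm y)) := by
    filter_upwards [ev hz hw, hg] with y a b
    simp only [Function.comp_apply, a.2.2.2, b, mul_zpow, Finset.prod_mul_distrib, xm,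
      smul_eq_mul]
    ring
  have h4 := num_eq h2 (h3.mono fun y a _ => a)
  refine ⟨(Eventually.and h2 h4.eventually_nhds).mono fun y a => a.1.congr_of_eventuallyEq a.2,
    ?_, ?_⟩
  · rw [h4.self_of_nhds]
    exact mul_ne_zero p2 hw.self_of_nhds.2.1
  · rw [h4.self_of_nhds, mul_comm]
    exact h3.self_of_nhds

theorem blw1 (hU : St_UNI) (he : e ∈ (mf n Y).C) (hz : z ∈ e.target)
    (hF : ∀ w ∈ e.target, ∀ i, e.symm w ∈ S i ↔ xi c i w = 0) {ex : Set I} {N r : ℕ}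
    {p : Y → E N} {τ : Y → E r} {a : I → ℕ} {h : I → Y → ℂ} {t : Y → E r}
    (hp : ∀ j, HolAt n 0 (p · j) (e.symm z)) (hE : Eqs n S (e.symm z) h) (t0 : t (e.symm z) ≠ 0)
    (ht : ∀ᶠ x in 𝓝 (e.symm z), (∀ j, HolAt n 0 (t · j) x) ∧ τ x = (∏ i, h i x ^ a i) • t x)
    (im : ∀ v (c : ℂ), dAt n p (e.symm z) v = 0 → dAt n t (e.symm z) v = c • t (e.symm z) → v = 0)
    (ec : ∀ i ∈ ex, e.symm z ∈ S i →
      ∃ v ≠ 0, dAt n (h i) (e.symm z) v = 0 ∧ dAt n p (e.symm z) v = 0) :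
    (HolN (num c (fun i => a i) (τ ∘ e.symm)) z ∧ num c (fun i => a i) (τ ∘ e.symm) z ≠ 0 ∧
      τ (e.symm z) = xm c (fun i => a i) z • num c (fun i => a i) (τ ∘ e.symm) z) ∧
    (∀ (y : E n) (b : ℂ), fderiv ℂ (p ∘ e.symm) z y = 0 →
      fderiv ℂ (num c (fun i => a i) (τ ∘ e.symm)) z y =
        b • num c (fun i => a i) (τ ∘ e.symm) z → y = 0) ∧
    ∀ i ∈ ex, ∀ j, c i = some j → z j = 0 →
      ∃ y : E n, y ≠ 0 ∧ y j = 0 ∧ fderiv ℂ (p ∘ e.symm) z y = 0 := by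
  obtain ⟨u, hu, hg⟩ := unit hU he hz hF hE
  obtain ⟨p1, p2⟩ := hol_prod hu fun i => (a i : ℤ)
  set U : E n → ℂ := fun w => ∏ i, u i w ^ (a i : ℤ) with hUd
  have a1 : HolN (t ∘ e.symm) z := holN he hz (ht.mono fun x hx => holv hx.1)
  have a2 : HolN (U • t ∘ e.symm) z := (Eventually.and p1 a1).mono fun y hy => hy.1.smul hy.2
  have a3 : ∀ᶠ y in 𝓝 z, (τ ∘ e.symm) y = xm c (fun i => a i) y • (U • t ∘ e.symm) y := by
    filter_upwards [ev hz ht, hg] with y b1 b2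
    simp only [Function.comp_apply, b1.2.2, b2, mul_pow, Finset.prod_mul_distrib, xm, hUd,
      zpow_natCast, smul_smul, mul_comm, Pi.smul_apply']
  have a4 := num_eq a2 (a3.mono fun y b _ => b)
  have dp := (der he hz (holv hp)).fderiv
  refine ⟨⟨(Eventually.and a2 a4.eventually_nhds).mono fun y b => b.1.congr_of_eventuallyEq b.2,
    ?_, ?_⟩, fun y b b1 b2 => ?_, fun i hi j hj z0 => ?_⟩
  · rw [a4.self_of_nhds]
    exact smul_ne_zero p2 t0
  · rw [a4.self_of_nhds]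
    exact a3.self_of_nhds
  · have dt := der he hz (holv ht.self_of_nhds.1)
    rw [a4.fderiv_eq, a4.self_of_nhds, (p1.self_of_nhds.hasFDerivAt.smul dt).fderiv] at b2
    rw [dp] at b1
    refine ph_inj he hz ((im _ ((U z)⁻¹ * (b * U z - fderiv ℂ U z y)) b1 ?_).trans
      (map_zero _).symm)
    have b3 : U z • dAt n t (e.symm z) (ph e z y) + fderiv ℂ U z y • t (e.symm z) =
      b • U z • t (e.symm z) := b2
    rw [mul_smul, sub_smul, mul_smul, ← b3, add_sub_cancel_right, smul_smul,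
      inv_mul_cancel₀ p2, one_smul]
    rfl
  · have e1 : xi c i = fun w => w j := MON.xi_some hj
    obtain ⟨w, w0, b1, b2⟩ := ec i hi ((hF z hz i).2 (by rw [e1]; exact z0))
    obtain ⟨y, rfl⟩ := ph_surj he hz w
    refine ⟨y, fun b => w0 (by rw [b, map_zero]), ?_, by rw [dp]; exact b2⟩
    have b3 := der he hz (hol0 (hE.1.self_of_nhds i).1)
    have b4 : HasFDerivAt (h i ∘ e.symm) _ z :=
      ((hu i).1.self_of_nhds.hasFDerivAt.mul (hasFDerivAt_apply j z)).congr_of_eventuallyEq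
        (hg.mono fun x hx => by simp only [Function.comp_apply, hx i, e1, Pi.mul_apply])
    have b5 : dAt n (h i) (e.symm z) (ph e z y) = u i z * y j + z j * fderiv ℂ (u i) z y :=
      congrArg (fun L : E n →L[ℂ] ℂ => L y) (b3.unique b4)
    rw [b1, z0, zero_mul, add_zero] at b5
    exact (mul_eq_zero.1 b5.symm).resolve_left (hu i).2

variable {D : Ad (mf n Y) I}

theorem tgt (D : Ad (mf n Y) I) (d : D.A) (hz : z ∈ B2 n) : z ∈ (D.e d).target :=
  (D.tgt d).symm ▸ hz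

theorem fit (hF : D.Fit S) (d : D.A) :
    ∀ w ∈ (D.e d).target, ∀ i, (D.e d).symm w ∈ S i ↔ xi (D.c d) i w = 0 :=
  fun w hw => hF d w (D.tgt d ▸ hw)

/-- The order of a function along the divisor, in the charts of the atlas. -/
theorem ord (hU : St_UNI) (hF : D.Fit S) {W : Set Y} {l : I → ℤ} {σ : Y → ℂ}
    (h : ∀ y ∈ W, Ord n 0 S l σ y) : ∃ v : D.A → E n → ℂ, D.On W fun d z =>
      HolN (v d) z ∧ v d z ≠ 0 ∧ D.rd σ d z = v d z * xm (D.c d) l z :=
  ⟨fun d => num (D.c d) l (σ ∘ (D.e d).symm), fun d z hz hW =>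
    ord1 (Y := Y) hU (D.mem d) (tgt D d hz) (fit hF d) (h _ hW)⟩

end BLW

open BLW in
/-- The blow-up data in the charts of the atlas. -/
theorem bBLW (hU : St_UNI) {n : ℕ} {Y I : Type} [TopologicalSpace Y] [ChartedSpace (E n) Y]
    [IsManifold 𝓘(ℂ, E n) ω Y] [Fintype I] [DecidableEq I] {D : Ad (mf n Y) I} {S : I → Set Y}
    (hF : D.Fit S) {ex : Set I} {W : Set Y} (ho : IsOpen W) (hc : IsPreconnected W) {N r : ℕ}
    {p : Y → E N} {τ : Y → E r} {a : I → ℕ} (h1 : ∀ i ∈ ex, 0 < a i)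
    (h2 : ∀ ρ < 1, IsCompact {y ∈ W | ‖p y‖ ≤ ρ})
    (h3 : ∀ y ∈ W, ‖p y‖ < 1 ∧ (∀ j, HolAt n 0 (p · j) y) ∧
      ∃ (h : I → Y → ℂ) (t : Y → E r), Eqs n S y h ∧ t y ≠ 0 ∧
        (∀ᶠ x in 𝓝 y, (∀ j, HolAt n 0 (t · j) x) ∧ τ x = (∏ i, h i x ^ a i) • t x) ∧
        (∀ v (c : ℂ), dAt n p y v = 0 → dAt n t y v = c • t y → v = 0) ∧
        ∀ i ∈ ex, y ∈ S i → ∃ v ≠ 0, dAt n (h i) y v = 0 ∧ dAt n p y v = 0)
    {k : I → ℕ} {σ : Y → ℂ} (hσ : ∀ y ∈ W, Ord n 0 S (fun i => k i) σ y) :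
    ∃ B : Bl D k ex, B.W = W ∧ B.σ = σ ∧ ∀ y, ‖B.p y‖ = ‖p y‖ := by
  obtain ⟨v, hv⟩ := ord hU hF hσ
  have key := fun (d : D.A) z (hz : z ∈ B2 n) (hW : (D.e d).symm z ∈ W) =>
    let ⟨_, hp, _, _, hE, t0, ht, im, ec⟩ := h3 _ hW
    blw1 (Y := Y) hU (D.mem d) (tgt D d hz) (fit hF d) hp hE t0 ht im ec
  exact ⟨⟨W, N, r, p, τ, a, fun d => num (D.c d) (fun i => a i) (τ ∘ (D.e d).symm), σ, v, ho, hc,
    h1, h2, fun y hy => (h3 y hy).1, fun d z hz hW => holN (Y := Y) (D.mem d) (tgt D d hz)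
      (mem_of_superset (ho.mem_nhds hW) fun x hx => holv (h3 x hx).2.1),
    fun d z hz hW => (key d z hz hW).1, fun d z hz hW => (key d z hz hW).2.1,
    fun d z hz hW => (key d z hz hW).2.2, hv⟩, rfl, rfl, fun _ => rfl⟩

end Pool.Agent.Lib.EX
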