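import Pool.Agent.Lib.EX.MDefs
import Pool.Agent.Lib.EX.B_MON

/-! Project ex41: from the global meromorphic function to the section. -/

open scoped Classical Topology ContDiff ComplexOrder Matrix
open Set MeasureTheory Complex Metric Filter

set_option linter.unusedVariables false
set_option linter.unusedSectionVars false

noncomputable section

namespace Pool.Agent.Lib.EX

open Pool.Agent.Lib.SV (E)
open Pool.Agent.Lib.HS32

namespace FINV

variable {n : ℕ} {M : Mf n} {I : Type} [Fintype I] [DecidableEq I] (D : Ad M I)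

/-- The complement of the divisor. -/
def O : Set M.X := {y | ∀ d, y ∈ (D.e d).source → Off (D.c d) (D.e d y)}

variable {D} {d : D.A} {z : E n}

theorem mem_O {y : M.X} (hy : y ∈ (D.e d).source) : y ∈ O D ↔ Off (D.c d) (D.e d y) := by
  refine ⟨fun h => h d hy, fun h b hb i => ?_⟩
  rw [D.urel b d i y hb hy]
  exact mul_ne_zero (D.une b d i y hb hy) (h i)

theorem tgt (hz : z ∈ B2 n) : z ∈ (D.e d).target := (D.tgt d).symm ▸ hz

theorem ev_W {W : Set M.X} (hW : IsOpen W) (hz : z ∈ B2 n) (h : (D.e d).symm z ∈ W) :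
    ∀ᶠ y in 𝓝 z, y ∈ B2 n ∧ (D.e d).symm y ∈ W :=
  (isOpen_ball.eventually_mem hz).and
    (((D.e d).continuousAt_symm (tgt hz)).eventually (hW.eventually_mem h))

theorem lim_eq {Φ : M.X → ℂ} {h : E n → ℂ} (hz : z ∈ B2 n) (hc : ContinuousAt h z)
    (e : ∀ᶠ y in 𝓝 z, Off (D.c d) y → D.rd Φ d y = h y) :
    limUnder (𝓝[O D] ((D.e d).symm z)) Φ = h z := by
  have hs := (D.e d).map_target (tgt (d := d) hz)
  have hr := (D.e d).right_inv (tgt (d := d) hz)
  have t1 : Tendsto (D.e d) (𝓝 ((D.e d).symm z)) (𝓝 z) := by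
    have := ((D.e d).continuousAt hs).tendsto
    rwa [hr] at this
  have nb : (𝓝[O D] ((D.e d).symm z)).NeBot := by
    rw [← mem_closure_iff_nhdsWithin_neBot, mem_closure_iff_frequently]
    refine ((D.e d).continuousAt_symm (tgt hz)).tendsto.frequently
      (((MON.off_freq (D.c d) z).and_eventually (isOpen_ball.eventually_mem hz)).mono
        fun y hy => ?_)
    rw [mem_O ((D.e d).map_target (tgt hy.2)), (D.e d).right_inv (tgt hy.2)]
    exact hy.1
  refine Tendsto.limUnder_eq (((hc.tendsto.comp t1).mono_left nhdsWithin_le_nhds).congr' ?_)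
  filter_upwards [nhdsWithin_le_nhds (t1.eventually e),
    nhdsWithin_le_nhds ((D.e d).open_source.mem_nhds hs), self_mem_nhdsWithin] with y h1 h2 h3
  have := h1 ((mem_O h2).1 h3)
  rw [Ad.rd, (D.e d).left_inv h2] at this
  exact this.symm

theorem lim_ev {Φ : M.X → ℂ} {h : E n → ℂ} (hz : z ∈ B2 n) (hc : HolN h z)
    (e : ∀ᶠ y in 𝓝 z, Off (D.c d) y → D.rd Φ d y = h y) :
    D.rd (fun x => limUnder (𝓝[O D] x) Φ) d =ᶠ[𝓝 z] h := by
  filter_upwards [isOpen_ball.eventually_mem hz, hc, e.eventually_nhds] with y h1 h2 h3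
  exact lim_eq h1 h2.continuousAt h3

theorem sp_zero {c : I → Option (Fin n)} {k : I → ℕ} (h : xm c (fun i => k i) z = 0) :
    xm c (sp k) z = 0 := by
  obtain ⟨i, -, hi⟩ := Finset.prod_eq_zero_iff.1 h
  rw [zpow_natCast, pow_eq_zero_iff'] at hi
  exact Finset.prod_eq_zero (Finset.mem_univ i) (by simp [sp, hi.1, hi.2])

theorem chart (D : Ad M I) (x : M.X) : ∃ d, ∃ z ∈ B2 n, (D.e d).symm z = x := by
  obtain ⟨d, -, h⟩ := Finset.exists_ne_zero_of_sum_ne_zero (s := Finset.univ)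
    (f := fun a => D.χ a x) (by rw [D.sum x]; exact one_ne_zero)
  have hs := (D.supp d x h).1
  exact ⟨d, D.e d x, D.tgt d ▸ (D.e d).map_source hs, (D.e d).left_inv hs⟩

end FINV

open FINV in
theorem bFINV {n : ℕ} {M : Mf n} {I ι : Type} [Fintype I] [DecidableEq I] (D : Ad M I) (k : I → ℕ)
    (W : ι → Set M.X) (σ u : ι → M.X → ℂ) (g : ι → ι → M.X → ℂ) (α : D.A → ι) (F : M.X → ℂ)
    (hW : ∀ a, IsOpen (W a)) (hα : D.All fun b z => (D.e b).symm z ∈ W (α b))
    (hσ : ∀ a, ∃ v : D.A → E n → ℂ, D.On (W a) fun d z =>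
      HolN (v d) z ∧ v d z ≠ 0 ∧ D.rd (σ a) d z = v d z * xm (D.c d) (fun i => k i) z)
    (hg : ∀ a b, D.On (W a ∩ W b) fun d z => HolN (D.rd (g a b) d) z)
    (hg2 : ∀ a b, ∀ x ∈ W a ∩ W b, σ a x = g a b x * σ b x)
    (hu : ∀ a, D.On (W a) fun d z => HolN (D.rd (u a) d) z)
    (hu2 : ∀ a b, D.On (W a ∩ W b) fun d z => xm (D.c d) (fun i => k i) z = 0 →
      D.rd (u a) d z = D.rd (g a b) d z * D.rd (u b) d z)
    (hF : D.All fun b z => PolH (D.c b) (fun i => k i - sp k i)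
      (D.rd (F - fun x => u (α b) x / σ (α b) x) b) z) :
    ∃ v : ι → M.X → ℂ, (∀ a, D.On (W a) fun d z => HolN (D.rd (v a) d) z ∧
      (xm (D.c d) (fun i => k i) z = 0 → D.rd (v a) d z = D.rd (u a) d z)) ∧
      ∀ a b, ∀ x ∈ W a ∩ W b, v a x = g a b x * v b x := by
  have key : ∀ a d, ∀ z ∈ B2 n, (D.e d).symm z ∈ W a → ∃ h, HolN h z ∧
      (xm (D.c d) (fun i => k i) z = 0 → h z = D.rd (u a) d z) ∧
      ∀ᶠ y in 𝓝 z, Off (D.c d) y → D.rd (fun x => σ a x * F x) d y = h y := by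
    intro a d z hz ha
    obtain ⟨s, hs, e⟩ := hF d z hz
    obtain ⟨v, hv⟩ := hσ (α d)
    have hb := hα d z hz
    refine ⟨fun y => D.rd (g a (α d)) d y * (D.rd (u (α d)) d y + v d y * xm (D.c d) (sp k) y * s y),
      ?_, fun h0 => ?_, ?_⟩
    · filter_upwards [hg a (α d) d z hz ⟨ha, hb⟩, hu (α d) d z hz hb, (hv d z hz hb).1, hs]
        with y h1 h2 h3 h4
      exact h1.mul (h2.add ((h3.mul (MON.diff_xm fun i => Or.inr (by
        unfold sp; split_ifs <;> simp))).mul h4))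
    · simp only [sp_zero h0, mul_zero, zero_mul, add_zero]
      exact (hu2 a (α d) d z hz ⟨ha, hb⟩ h0).symm
    · filter_upwards [e, ev_W (hW a) hz ha] with y h1 h2 h3
      have hb' := hα d y h2.1
      obtain ⟨-, v0, v1⟩ := hv d y h2.1 hb'
      have x0 := MON.xm_ne (fun i => (k i : ℤ)) h3
      have x1 : xm (D.c d) (sp k) y = xm (D.c d) (fun i => k i) y *
          xm (D.c d) (-fun i => (k i : ℤ) - sp k i) y := by
        rw [← MON.xm_add _ _ h3]
        exact congrArg (xm (D.c d) · y) (funext fun i => by simp)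
      have h4 := h1 h3
      simp only [Ad.rd, Pi.sub_apply] at h4 v1 ⊢
      rw [hg2 a (α d) _ ⟨h2.2, hb'⟩, eq_add_of_sub_eq h4, v1, x1]
      field_simp
      ring
  refine ⟨fun a x => limUnder (𝓝[O D] x) fun y => σ a y * F y, fun a d z hz ha => ?_,
    fun a b x hx => ?_⟩
  · obtain ⟨h, h1, h2, h3⟩ := key a d z hz ha
    have e := lim_ev hz h1 h3
    refine ⟨?_, fun h0 => e.eq_of_nhds.trans (h2 h0)⟩
    filter_upwards [h1, e.eventuallyEq_nhds] with y a1 a2
    exact a1.congr_of_eventuallyEq a2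
  · obtain ⟨d, z, hz, rfl⟩ := chart D x
    obtain ⟨h, h1, -, h3⟩ := key b d z hz hx.2
    have hc := (hg a b d z hz hx).self_of_nhds.continuousAt
    refine (lim_eq (h := fun y => D.rd (g a b) d y * h y) hz
      (hc.mul h1.self_of_nhds.continuousAt) ?_).trans ?_
    · filter_upwards [h3, ev_W ((hW a).inter (hW b)) hz hx] with y a1 a2 a3
      rw [← a1 a3]
      simp only [Ad.rd]
      rw [hg2 a b _ a2.2, mul_assoc]
    · beta_reduce
      rw [lim_eq hz h1.self_of_nhds.continuousAt h3]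
      rfl

end Pool.Agent.Lib.EX
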