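import Pool.Agent.Lib.EX.BrBlue
import Pool.Agent.Lib.EX.B_MON
import Pool.Agent.Lib.EX.B_DIV

/-! Project ex41, block LFT: a finite generating family and its local lifts. -/

open scoped Classical Topology ContDiff ComplexOrder Matrix Manifold
open Set MeasureTheory Complex Metric Filter

noncomputable section

namespace Pool.Agent.Lib.EX

open Pool.Agent.Lib.SV (E)
open Pool.Agent.Lib.HS32
open Pool.Agent.Lib.KP (HolAt)
open Pool.Agent.Lib.HS.BBR (mf)

/-- A finite generating family that contains a given section, and its lifts. -/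
def St_LFT : Prop := ∀ (n : ℕ) (Y ι I : Type) [TopologicalSpace Y] [ChartedSpace (E n) Y]
  [IsManifold 𝓘(ℂ, E n) ω Y] [Fintype I] [DecidableEq I] (m : ℕ) (S : I → Set Y) (ex : Set I)
  (l : I → ℤ) (η : Y → ℂ) (W : ι → Set Y) (σ : ι → Y → ℂ) (g : ι → ι → Y → ℂ)
  (D : Ad (mf n Y) I) (R : Rs D) (α : D.A → ι) (u₀ : ι → Y → ℂ),
  LogRes n m S ex R.a l η W σ g → D.Fit S → (∀ b, (R.B b).W = W (α b)) →
  (∀ a, ∃ v : D.A → E n → ℂ, D.On (W a) fun d z =>
    HolN (v d) z ∧ v d z ≠ 0 ∧ D.rd (σ a) d z = v d z * xm (D.c d) (fun i => R.a i) z) →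
  Gen n W g (⋃ i ∈ {i | 0 < R.a i}, S i) → SecOn n W g (⋃ i ∈ {i | 0 < R.a i}, S i) u₀ →
  ∃ (κ : Type) (_ : Fintype κ) (u : κ → ι → Y → ℂ) (j₀ : κ), u j₀ = u₀ ∧
    R.Lift fun j b x => u j (α b) x / σ (α b) x

namespace LFT

variable {n : ℕ} {I : Type} [Fintype I] [DecidableEq I]

section euc

variable {c : I → Option (Fin n)} {a : I → ℕ} {U U' g σ σ' v : E n → ℂ} {z : E n}

theorem quo (hU : HolN U z) (hv : HolN v z) (h0 : v z ≠ 0) : HolN (fun y => U y / v y) z := by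
  filter_upwards [hU, hv, hv.self_of_nhds.continuousAt.eventually_ne h0] with y a b d
  simp only [div_eq_mul_inv]
  exact a.fun_mul (b.fun_inv d)

theorem mer0 (h : ∀ᶠ y in 𝓝 z, σ y = v y * xm c (fun i => a i) y) :
    ∀ᶠ y in 𝓝 z, Off c y → U y / σ y = xm c (-fun i => (a i : ℤ)) y * (U y / v y) := by
  filter_upwards [h] with y h1 _
  rw [h1, MON.xm_neg, div_mul_eq_div_div, div_eq_inv_mul]

theorem dif0 (hc : Inj c) (hU : HolN U z) (hU' : HolN U' z) (hg : HolN g z) (hv : HolN v z)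
    (h0 : v z ≠ 0) (h : ∀ᶠ y in 𝓝 z, σ y = v y * xm c (fun i => a i) y ∧ σ y = g y * σ' y ∧
      ∀ i, a i ≠ 0 → xi c i y = 0 → U y = g y * U' y) :
    PolH c (fun i => a i - sp a i) (fun y => U y / σ y - U' y / σ' y) z := by
  obtain ⟨s, h1, h2⟩ := (bDIV n I c (fun y => U y - g y * U' y) z hc (by
    filter_upwards [hU, hU', hg] with y a b d using a.fun_sub (d.fun_mul b))).2
    (Finset.univ.filter fun i => a i ≠ 0) 1 fun J hJ => by
      obtain ⟨h3, h4⟩ := Finset.mem_powersetCard.1 hJ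
      obtain ⟨i, rfl⟩ := Finset.card_eq_one.1 h4
      filter_upwards [h] with y hy h5
      exact sub_eq_zero.2 (hy.2.2 i (Finset.mem_filter.1 (h3 (Finset.mem_singleton_self i))).2
        (h5 i (Finset.mem_singleton_self i)))
  have h3 : lt (Finset.univ.filter fun i => a i ≠ 0) 1 = {∅} := by
    ext J
    simp only [lt, Finset.mem_filter, Finset.mem_powerset, Nat.lt_one_iff, Finset.card_eq_zero,
      Finset.mem_singleton]
    exact ⟨fun h => h.2, fun h => ⟨h ▸ Finset.empty_subset _, h⟩⟩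
  have h4 : (-fun i => (a i : ℤ) - sp a i) = (-fun i => (a i : ℤ)) +
      fun i => if i ∈ Finset.univ.filter fun i => a i ≠ 0 then 1 else 0 := by
    funext i
    by_cases hi : a i = 0 <;> simp [sp, hi]
    ring
  refine ⟨_, quo (h1 ∅) hv h0, ?_⟩
  filter_upwards [h, h2, hv.self_of_nhds.continuousAt.eventually_ne h0] with y hy h5 h6 h7
  rw [h3, Finset.sum_singleton, Finset.sdiff_empty] at h5
  have h8 := MON.xm_ne (fun i => (a i : ℤ)) h7
  have h9 : g y ≠ 0 := left_ne_zero_of_mul (hy.2.1 ▸ hy.1 ▸ mul_ne_zero h6 h8)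
  rw [h4, MON.xm_add _ _ h7, MON.xm_ind, MON.xm_neg, ← mul_div_mul_left (U' y) _ h9, ← hy.2.1,
    ← sub_div, h5, hy.1]
  field_simp

end euc

variable {Y ι : Type} [TopologicalSpace Y] [ChartedSpace (E n) Y]

theorem cont {f : Y → ℂ} {y : Y} (h : HolAt n 0 f y) : ContinuousAt f y := by
  have hy := mem_chart_source (E n) y
  simp only [HolAt, pow_zero, mul_one] at h
  refine (h.continuousAt.comp ((chartAt (E n) y).continuousAt hy)).congr ?_
  filter_upwards [(chartAt (E n) y).open_source.mem_nhds hy] with x hx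
  rw [Function.comp_apply, (chartAt (E n) y).left_inv hx]

variable [IsManifold 𝓘(ℂ, E n) ω Y] {D : Ad (mf n Y) I} {O : Set Y} {d : D.A} {z : E n}

omit [Fintype I] [DecidableEq I] in
theorem near (hO : IsOpen O) (hz : z ∈ B2 n) (h : (D.e d).symm z ∈ O) :
    ∀ᶠ y in 𝓝 z, y ∈ B2 n ∧ (D.e d).symm y ∈ O :=
  (isOpen_ball.eventually_mem hz).and
    (((D.e d).continuousAt_symm (D.tgt d ▸ hz)).eventually (hO.mem_nhds h))

omit [Fintype I] [DecidableEq I] in
theorem diff {f : Y → ℂ} (hz : z ∈ B2 n) (h : HolAt n 0 f ((D.e d).symm z)) :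
    DifferentiableAt ℂ (D.rd f d) z := by
  have hy := mem_chart_source (E n) (M := Y) ((D.e d).symm z)
  have ht : z ∈ (D.e d).target := D.tgt d ▸ hz
  simp only [HolAt, pow_zero, mul_one] at h
  refine (h.comp z (f := chartAt (E n) (M := Y) ((D.e d).symm z) ∘ (D.e d).symm)
    ((D.mem d _).2.at ht hy)).congr_of_eventuallyEq ?_
  filter_upwards [((D.e d).continuousAt_symm ht).eventually
    ((chartAt (E n) (M := Y) ((D.e d).symm z)).open_source.mem_nhds hy)] with y h1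
  exact congrArg f ((chartAt (E n) (M := Y) ((D.e d).symm z)).left_inv h1).symm

omit [Fintype I] [DecidableEq I] in
theorem holN {f : Y → ℂ} (hO : IsOpen O) (hf : ∀ y ∈ O, HolAt n 0 f y) (hz : z ∈ B2 n)
    (h : (D.e d).symm z ∈ O) : HolN (D.rd f d) z :=
  (near hO hz h).mono fun _ hy => diff hy.1 (hf _ hy.2)

variable {m : ℕ} {S : I → Set Y} {ex : Set I} {k : I → ℕ} {l : I → ℤ} {η : Y → ℂ} {W : ι → Set Y}
  {σ : ι → Y → ℂ} {g : ι → ι → Y → ℂ} {u : ι → Y → ℂ}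

theorem dif (hR : LogRes n m S ex k l η W σ g) (hF : D.Fit S)
    (hu : SecOn n W g (⋃ i ∈ {i | 0 < k i}, S i) u) (a a' : ι) {v : D.A → E n → ℂ}
    (hv : D.On (W a) fun d z =>
      HolN (v d) z ∧ v d z ≠ 0 ∧ D.rd (σ a) d z = v d z * xm (D.c d) (fun i => k i) z) :
    D.On (W a ∩ W a') fun d z => PolH (D.c d) (fun i => k i - sp k i)
      (D.rd ((fun x => u a x / σ a x) - fun x => u a' x / σ a' x) d) z := by
  intro d z hz h
  have o := (hR.opn a).1.inter (hR.opn a').1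
  refine dif0 (g := D.rd (g a a') d) (D.inj d) (holN (hR.opn a).1 (hu.hol a) hz h.1)
    (holN (hR.opn a').1 (hu.hol a') hz h.2) (holN o (fun y hy => (hR.tr a a' y hy).1) hz h)
    (hv d z hz h.1).1 (hv d z hz h.1).2.1 ((near o hz h).mono fun y hy =>
      ⟨(hv d y hy.1 hy.2.1).2.2, (hR.tr a a' _ hy.2).2, fun i hi h0 => hu.glue a a' _ ⟨hy.2, ?_⟩⟩)
  exact mem_biUnion (s := {i | 0 < k i}) (Nat.pos_of_ne_zero hi) ((hF d y hy.1 i).2 h0)

omit [IsManifold 𝓘(ℂ, E n) ω Y] [DecidableEq I] in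
theorem loc (hR : LogRes n m S ex k l η W σ g) (hG : Gen n W g (⋃ i ∈ {i | 0 < k i}, S i))
    (hu : SecOn n W g (⋃ i ∈ {i | 0 < k i}, S i) u) (a : ι) (y : Y) :
    ∃ u, SecOn n W g (⋃ i ∈ {i | 0 < k i}, S i) u ∧
      (y ∈ W a → ∀ᶠ x in 𝓝 y, x ∈ (⋃ i ∈ {i | 0 < k i}, S i) → u a x ≠ 0) := by
  by_cases hy : y ∈ W a ∩ ⋃ i ∈ {i | 0 < k i}, S i
  · obtain ⟨u', h1, h2⟩ := hG a y hy
    exact ⟨u', h1, fun h => ((cont (h1.hol a y h)).eventually_ne h2).mono fun _ h _ => h⟩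
  refine ⟨u, hu, fun h => ?_⟩
  obtain ⟨f, -, ⟨h1, -⟩, -⟩ := hR.form y
  have h2 : ∀ i, ∀ᶠ x in 𝓝 y, 0 < k i → f i x ≠ 0 := fun i =>
    eventually_imp_distrib_left.2 fun hi => (cont (h1.self_of_nhds i).1).eventually_ne fun h0 =>
      hy ⟨h, mem_biUnion (s := {i | 0 < k i}) hi ((h1.self_of_nhds i).2.2 h0)⟩
  filter_upwards [h1, eventually_all.2 h2] with x h3 h4 h5
  obtain ⟨i, hi, h6⟩ := mem_iUnion₂.1 h5
  exact (h4 i hi ((h3 i).2.1 h6)).elim

end LFT

open LFT in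
theorem bLFT : St_LFT := by
  intro n Y ι I _ _ _ _ _ m S ex l η W σ g D R α u₀ hR hF hW hv hG hu
  choose v hv using hv
  choose u h1 h2 using loc hR hG hu
  have h3 := fun b => ((R.B b).cpt R.c0 R.c1).elim_nhds_subcover
    (fun y => {x | x ∈ (⋃ i ∈ {i | 0 < R.a i}, S i) → u (α b) y (α b) x ≠ 0})
    fun y hy => h2 (α b) y (hW b ▸ hy.1)
  choose t _ ht using h3
  let u' : Option (Σ b, t b) → ι → Y → ℂ := fun o => o.elim u₀ fun p => u (α p.1) p.2.1
  have h4 : ∀ j, SecOn n W g (⋃ i ∈ {i | 0 < R.a i}, S i) (u' j) := fun j => by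
    cases j
    exacts [hu, h1 _ _]
  have h5 : ∀ j a, D.On (W a) fun d z => HolN (fun y => D.rd (u' j a) d y / v a d y) z ∧
      ∀ᶠ y in 𝓝 z, Off (D.c d) y → D.rd (fun x => u' j a x / σ a x) d y =
        xm (D.c d) (-fun i => (R.a i : ℤ)) y * (D.rd (u' j a) d y / v a d y) := fun j a d z hz h =>
    ⟨quo (holN (hR.opn a).1 ((h4 j).hol a) hz h) (hv a d z hz h).1 (hv a d z hz h).2.1,
      mer0 ((near (hR.opn a).1 hz h).mono fun y hy => (hv a d y hy.1 hy.2).2.2)⟩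
  refine ⟨_, inferInstance, u', none, rfl, fun j b d z hz h => ⟨_, h5 j _ d z hz (hW b ▸ h)⟩,
    fun j b b' => ?_, fun b z hz h => ?_⟩
  · rw [hW, hW]
    exact dif hR hF (h4 j) _ _ (hv _)
  · obtain ⟨i, -, hi⟩ := Finset.prod_eq_zero_iff.1 h
    rw [zpow_natCast, pow_eq_zero_iff'] at hi
    obtain ⟨y, hy, h6⟩ := mem_iUnion₂.1 (ht b (R.sub b z hz))
    have h7 : (D.e b).symm z ∈ W (α b) := hW b ▸ (R.sub b z hz).1
    obtain ⟨h8, h9⟩ := h5 (some ⟨b, y, hy⟩) _ b z hz h7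
    exact ⟨_, _, h8, div_ne_zero (h6 (mem_biUnion (s := {i | 0 < R.a i}) (Nat.pos_of_ne_zero hi.2)
      ((hF b z hz i).2 hi.1))) (hv _ b z hz h7).2.1, h9⟩

end Pool.Agent.Lib.EX
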