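import Pool.Agent.Lib.EX.K1N
import Pool.Agent.Lib.EX.B_LFT
import Pool.Agent.Lib.EX.B_FINV
import Pool.Agent.Lib.RB.B_RBR

/-! Project ex41, block BRG: from the manifold layer to the statement. -/

open scoped Classical Topology ContDiff ComplexOrder Matrix Manifold
open Set MeasureTheory Complex Metric Filter

noncomputable section

namespace Pool.Agent.Lib.EX

open Pool.Agent.Lib.SV (E)
open Pool.Agent.Lib.HS32
open Pool.Agent.Lib.HS.BBR (mf)

theorem BRG.mem {n : ℕ} {M : Mf n} {I : Type} [Fintype I] [DecidableEq I] {D : Ad M I}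
    {S : I → Set M.X} (hF : D.Fit S) {k : I → ℕ} {d : D.A} {z : E n} (hz : z ∈ B2 n) :
    (D.e d).symm z ∈ (⋃ i ∈ {i | 0 < k i}, S i) ↔ xm (D.c d) (fun i => k i) z = 0 := by
  simp only [mem_iUnion, xm, Finset.prod_eq_zero_iff, zpow_natCast, pow_eq_zero_iff', hF d z hz,
    Finset.mem_univ, true_and, mem_ofPred_eq, Nat.pos_iff_ne_zero, exists_prop, and_comm]

theorem bBRG (hRSB : St_RSB) : St_BRG := by
  intro hS n Y ι I _ _ _ _ _ _ _ G m S ex k l η W σ g s u hG hm hR hs0 hs1 hC hGen hu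
  obtain ⟨D, R, α, hF, rfl, hW, hv⟩ := hRSB n Y ι I m S ex k l η W σ g s hm hR hs0 hs1 hC
  obtain ⟨κ, _, U, j, rfl, hL⟩ := bLFT n Y ι I m S ex l η W σ g D R α u hR hF hW hv hGen hu
  obtain ⟨g1, g2, -⟩ := RB.R32.fam_ok hG.toHermitian
  have : (mf n Y).Cpt := ⟨‹_›, ‹_›, ‹_›⟩
  obtain ⟨F, hF'⟩ := hS n (mf n Y) (RB.R32.fam G) I D R κ _ ⟨⟨g1.toForm, g2 hG⟩, g1.pos⟩ hL j
  obtain ⟨v, h1, h2⟩ := bFINV D R.a W σ (U j) g α F (fun a => (hR.opn a).1)
    (fun b z hz => (hW b).subset (R.sub b z hz).1) hv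
    (fun a b d z hz h => LFT.holN ((hR.opn a).1.inter (hR.opn b).1)
      (fun y hy => (hR.tr a b y hy).1) hz h) (fun a b x hx => (hR.tr a b x hx).2)
    (fun a d z hz h => LFT.holN (hR.opn a).1 (hu.hol a) hz h)
    (fun a b d z hz h h0 => hu.glue a b _ ⟨h, (BRG.mem hF hz).2 h0⟩) hF'
  refine ⟨v, ⟨fun a y hy => ?_, fun a b y hy => h2 a b y hy.1⟩, fun a y hy => ?_⟩
  · obtain ⟨d, z, hz, rfl⟩ := FINV.chart D y
    have h3 := (h1 a d z hz hy).1.self_of_nhds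
    rw [← (D.e d).right_inv (FINV.tgt hz)] at h3
    exact (K1.hol_iff0 (D.mem d) ((D.e d).map_target (FINV.tgt hz))).2 h3
  · obtain ⟨d, z, hz, rfl⟩ := FINV.chart D y
    exact (h1 a d z hz hy.1).2 ((BRG.mem hF hz).1 hy.2)

end Pool.Agent.Lib.EX
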