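import Pool.Agent.Lib.EX.Blue

/-! Project ex41: decomposition. -/

open scoped Classical Topology ContDiff ComplexOrder Matrix
open Set MeasureTheory Complex Metric Filter

noncomputable section

namespace Pool.Agent.Lib.EX

open Pool.Agent.Lib.SV (E)
open Pool.Agent.Lib.HS32
open Pool.Agent.Lib.EXA (Val SmN emb)

theorem bDEC39 (hC : St_CECH) (hW : St_WGT) (hL : St_HL) (hT : St_THE) (hX : St_XT) (hR : St_RES)
    (hI : St_INC) (hF : St_TRF) : St_DEC := by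
  intro n M _ H ι _ _ D κ _ L p K g hH hp hg hd
  obtain ⟨σ, s1, s2⟩ := hC n M ι D L.G L.T p g hd
  have sub : ∀ I ∈ L.T.powersetCard p, I ⊆ L.T ∧ (I.Nonempty ∨ L.s = 0) := fun I h => by
    obtain ⟨h1, h2⟩ := Finset.mem_powersetCard.1 h
    exact ⟨h1, hp.imp_left fun h3 => Finset.card_pos.1 (h2 ▸ h3)⟩
  choose! w V w1 w2 w3 using fun I (h : I ∈ L.T.powersetCard p) =>
    hL n M H ι D I hH (D.kap L.G L.T I) L.r L.b (σ I) ((hF n M ι D).1 _)
      (hW n M ι D κ L I (sub I h).1 (sub I h).2) (s1 I h)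
  refine ⟨w, V, w1, fun I h => hT n M ι D κ L I (V I) (sub I h).1 (sub I h).2 (w2 I h)
    fun a z hz hs => (w3 I h a z hz hs).2, fun a z hz j => ?_⟩
  have hb : ∀ᶠ y in 𝓝 z, y ∈ B2 n := isOpen_ball.mem_nhds hz
  have r := fun ρ ρ' F F' => hR n ι (D.c a) L.G L.T p ρ ρ' F F' z (D.inj a)
  have x1 := hX n M ι D L.G L.T p w w1 a z hz
  have x2 := (r _ 0 _ 0).2.2.2.2.2.1 (fun _ => -1)
    (Eventually.of_forall fun _ => contDiffAt_const) x1
  have x3 := (r _ _ _ _).2.2.2.2.1 (s2 a z hz) x2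
  set F : E n → ℂ := D.rd (D.avg g) a - g a + (fun _ => -1) * D.rd (D.ext L.G L.T p w) a with hFd
  have x4 : Res (D.c a) L.G L.T p (fun I => σ I a - w I a) F z :=
    (r _ _ _ _).2.2.2.2.2.2.1 x3 (Eventually.of_forall fun _ _ => rfl) fun I _ =>
      Eventually.of_forall fun y _ => by simp [sub_eq_add_neg]
  obtain ⟨ρ, q1, q2⟩ := (r _ 0 _ 0).2.2.2.2.2.2.2.2.2.2.2.1 x4 j
  have i1 := hI n ι (D.c a) L.G L.r L.T (p + 1) F z
  have i2 := hI n ι (D.c a) K L.r L.T p (g a) z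
  have f1 := i1.2.2.2.2.2.2.2.2.2.2.2.2.2.2.2.1 (i1.2.2.2.2.2.1 ((r _ 0 _ 0).1 x4).1)
  have f2 := i2.2.2.2.2.2.2.2.2.2.2.2.2.2.2.2.2.1 (hg a z hz)
  have f3 := (i2.2.2.2.2.2.2.2.2.2.2.2.2.2.2.2.2.2 j).2.2 (hg a z hz)
  refine ⟨ρ, (r _ _ _ _).2.2.2.2.2.2.1 q1 ?_ fun _ _ => Eventually.of_forall fun _ _ => rfl,
    fun I h hj => ?_⟩
  · filter_upwards [f1, f2, f3] with y k1 k2 k3 ho
    have e1 : D.rd (D.avg g - D.ext L.G L.T p w) a = fun y => F y + g a y := by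
      funext y
      simp only [hFd, Ad.rd, Pi.add_apply, Pi.sub_apply, Pi.mul_apply]
      ring
    rw [e1, dzb_add (cd_diff (k1 ho).self_of_nhds)
      ((k2 ho).self_of_nhds.restrictScalars ℝ), k3 ho, add_zero]
  · filter_upwards [hb, q2 I h hj
      (hb.mono fun y hy => ((s1 I h).sm a y hy).sub ((w1 I h).sm a y hy))] with y hy k hs
    rw [k hs]
    exact (w3 I h a y hy hs).1 j hj

end Pool.Agent.Lib.EX
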