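import Pool.Agent.Lib.EX.Blue
import Pool.Agent.Lib.SV.Hol85

/-! Project ex41: the holomorphic sections on the strata form a space of finite dimension. -/

open scoped Classical Topology
open Set Metric Filter

noncomputable section

namespace Pool.Agent.Lib.EX

open Pool.Agent.Lib.SV (E)
open Pool.Agent.Lib.HS32

namespace FIN18

variable {n : ℕ} {M : Mf n} {ι : Type} [Fintype ι] [DecidableEq ι] {D : Ad M ι}

omit [Fintype ι] [DecidableEq ι] in
/-- a cocycle is bounded on the compact overlaps -/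
theorem coc_bd [M.Cpt] {κ : D.A → D.A → M.X → ℂ} (hκ : D.Coc κ) (a b : D.A) :
    ∃ C, ∀ z, ‖z‖ ≤ 3 / 2 → (D.e a).symm z ∈ (D.e b).source → ‖D.e b ((D.e a).symm z)‖ ≤ 1 →
      ‖κ b a ((D.e a).symm z)‖ ≤ C := by
  have hs : ∀ d (ρ : ℝ), ρ < 2 → closedBall (0 : E n) ρ ⊆ (D.e d).target := fun d ρ h => by
    rw [D.tgt]; exact closedBall_subset_ball h
  have hL : IsClosed ((D.e b).symm '' closedBall 0 1) := ((isCompact_closedBall _ _).image_of_continuousOn
    ((D.e b).continuousOn_symm.mono (hs b 1 (by norm_num)))).isClosed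
  have hK : IsCompact (closedBall (0 : E n) (3 / 2) ∩ (D.e a).symm ⁻¹' ((D.e b).symm '' closedBall 0 1)) :=
    (isCompact_closedBall _ _).of_isClosed_subset
      (((D.e a).continuousOn_symm.mono (hs a _ (by norm_num))).preimage_isClosed_of_isClosed
        isClosed_closedBall hL) inter_subset_left
  obtain ⟨C, hC⟩ := hK.exists_bound_of_continuousOn (f := D.rd (κ b a) a) fun z hz => by
    have h1 := hs a _ (by norm_num) hz.1
    obtain ⟨y, hy, e⟩ := hz.2
    have h2 := hκ.hol b a _ (e ▸ (D.e b).map_target (hs b 1 (by norm_num) hy)) ((D.e a).map_target h1)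
    simp only [(D.e a).right_inv h1] at h2
    exact h2.self_of_nhds.continuousAt.continuousWithinAt
  exact ⟨C, fun z h1 h2 h3 => hC z ⟨mem_closedBall_zero_iff.2 h1,
    _, mem_closedBall_zero_iff.2 h3, (D.e b).left_inv h2⟩⟩

/-- reduction of a value to the unit polydisc of some chart -/
theorem red (hM : St_MON) {G : ι → ℤ} {T : Finset ι} {q : ℕ} {σ : Finset ι → D.A → E n → ℂ}
    (h : D.HSec G T q σ) (I : Finset ι) (a : D.A) (z : E n) : σ I a z = 0 ∨ ∃ b y, ‖y‖ ≤ ‖z‖ ∧
      (D.e a).symm y ∈ (D.e b).source ∧ ‖D.e b ((D.e a).symm y)‖ ≤ 1 ∧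
      σ I a z = σ I b (D.e b ((D.e a).symm y)) * D.kap G T I b a ((D.e a).symm y) := by
  by_cases hI : I ∈ T.powersetCard q
  swap
  · exact Or.inl (by rw [h.z1 I hI]; rfl)
  by_cases hz : z ∈ B2 n
  swap
  · exact Or.inl (h.z2 I a z hz)
  by_cases hc : ∀ i ∈ I, D.c a i ≠ none
  swap
  · push Not at hc
    obtain ⟨i, hi, hc⟩ := hc
    exact Or.inl (by rw [h.z3 I a i hi hc]; rfl)
  obtain ⟨p1, -, -, -, p2, -⟩ := (hM n ι (D.c a)).2.2.2.2.2.2.2.2.2.2.1 I z
  have hy : prj (D.c a) I z ∈ (D.e a).target := by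
    rw [D.tgt, mem_ball_zero_iff]
    exact p1.trans_lt (mem_ball_zero_iff.1 hz)
  obtain ⟨b, -, hb⟩ := Finset.exists_ne_zero_of_sum_ne_zero
    ((D.sum ((D.e a).symm (prj (D.c a) I z))).trans_ne one_ne_zero)
  refine Or.inr ⟨b, _, p1, (D.supp b _ hb).1, (D.supp b _ hb).2, ?_⟩
  have := (h.sec I hI).cmp b a _ (D.supp b _ hb).1 ((D.e a).map_target hy)
  simp only [(D.e a).right_inv hy] at this
  rw [← this (p2 hc), (h.sec I hI).iv a z hz]

end FIN18

open FIN18 in
theorem bFIN18 (hM : St_MON) (hT : St_TRF) : St_FIN := by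
  intro n M _ ι _ _ D G T q R hR
  choose C hC using fun p : Finset ι × D.A × D.A =>
    coc_bd (κ := D.kap G T p.1) ((hT n M ι D).1 _) p.2.1 p.2.2
  obtain ⟨C₀, hC₀⟩ := Finite.exists_le C
  set K := max C₀ 1 with hK
  have hK1 : 1 ≤ K := le_max_right _ _
  have hδ : 0 < 1 / (8 * K) := by positivity
  obtain ⟨Z, hZ, hZf, hcov⟩ := finite_cover_balls_of_compact (isCompact_closedBall (0 : E n) 1) hδ
  have := hZf.to_subtype
  let ev : R →ₗ[ℂ] (Finset ι × D.A × Z → ℂ) :=
    { toFun := fun σ p => σ.1 p.1 p.2.1 p.2.2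
      map_add' := fun _ _ => rfl
      map_smul' := fun _ _ => rfl }
  refine FiniteDimensional.of_injective ev ((injective_iff_map_eq_zero ev).2 fun σ h0 => ?_)
  have h := hR σ.1 σ.2
  have hd : ∀ I a, DifferentiableOn ℂ (σ.1 I a) (B2 n) := fun I a z hz =>
    (h.hol I a z hz).differentiableWithinAt
  have step : ∀ N : ℝ, (∀ I a z, ‖z‖ ≤ 1 → ‖σ.1 I a z‖ ≤ N) →
      ∀ I a z, ‖z‖ ≤ 1 → ‖σ.1 I a z‖ ≤ N * (1 / 2) := by
    intro N hN I a z hz
    have N0 : 0 ≤ N := (norm_nonneg _).trans (hN I a z hz)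
    obtain ⟨y, hy, hzy⟩ := mem_iUnion₂.1 (hcov (mem_closedBall_zero_iff.2 hz))
    have hy1 := mem_closedBall_zero_iff.1 (hZ hy)
    have hb : ∀ w ∈ ball y (1 / 2), ‖w‖ ≤ 3 / 2 := fun w hw => by
      have := norm_le_norm_add_norm_sub' w y
      rw [mem_ball_iff_norm] at hw
      linarith
    have h8 : 1 / (8 * K) ≤ 1 / 2 := one_div_le_one_div_of_le (by norm_num) (by linarith)
    have key := SV.H85.norm_sub_le_of_bound (M := N * K) ((hd I a).mono fun w hw =>
      mem_ball_zero_iff.2 ((hb w hw).trans_lt (by norm_num))) (fun w hw => ?_)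
      (ball_subset_ball h8 hzy)
    · rw [show σ.1 I a y = 0 from congrFun h0 (I, a, ⟨y, hy⟩), sub_zero] at key
      refine key.trans ((mul_le_mul_of_nonneg_left (mem_ball_iff_norm.1 hzy).le
        (by positivity)).trans (le_of_eq ?_))
      field_simp
      ring
    · rcases red hM h I a w with e | ⟨b, x, h1, h2, h3, e⟩
      · rw [e, norm_zero]; positivity
      · rw [e, norm_mul]
        exact mul_le_mul (hN I b _ h3) (((hC (I, a, b) x (h1.trans (hb w hw)) h2 h3).trans
          (hC₀ _)).trans (le_max_left _ _)) (norm_nonneg _) N0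
  choose B hB using fun p : Finset ι × D.A =>
    (isCompact_closedBall (0 : E n) 1).exists_bound_of_continuousOn
      ((hd p.1 p.2).continuousOn.mono (closedBall_subset_ball (by norm_num)))
  obtain ⟨N, hN⟩ := Finite.exists_le B
  have ind : ∀ k : ℕ, ∀ I a z, ‖z‖ ≤ 1 → ‖σ.1 I a z‖ ≤ N * (1 / 2) ^ k := by
    intro k
    induction k with
    | zero =>
      intro I a z hz
      rw [pow_zero, mul_one]
      exact (hB (I, a) z (mem_closedBall_zero_iff.2 hz)).trans (hN _)
    | succ k ih => rw [pow_succ, ← mul_assoc]; exact step _ ih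
  have zero : ∀ I a z, ‖z‖ ≤ 1 → σ.1 I a z = 0 := fun I a z hz => by
    have := (tendsto_pow_atTop_nhds_zero_of_lt_one (r := (1 / 2 : ℝ)) (by norm_num)
      (by norm_num)).const_mul N
    rw [mul_zero] at this
    exact norm_le_zero_iff.1 (ge_of_tendsto' this fun k => ind k I a z hz)
  refine Subtype.ext (funext fun I => funext fun a => funext fun z => ?_)
  rcases red hM h I a z with e | ⟨b, x, -, -, h3, e⟩
  · exact e
  · rw [e, zero I b _ h3, zero_mul]; rfl

end Pool.Agent.Lib.EX
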