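import Pool.Agent.Lib.EX.BrBlue
import Pool.Agent.Lib.EX.B_MON

/-! Project ex41: numerators of germs, and the statement layer read in charts. -/

open scoped Classical Topology ContDiff ComplexOrder Matrix Manifold
open Set Complex Metric Filter

set_option linter.unusedVariables false
set_option linter.unusedSectionVars false

noncomputable section

namespace Pool.Agent.Lib.EX.K1

open Pool.Agent.Lib.SV (E jacAt)
open Pool.Agent.Lib.HS32 Pool.Agent.Lib.HS.BBR
open Pool.Agent.Lib.KP (HolAt)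

variable {n m : ℕ} {F : Type} [NormedAddCommGroup F] [NormedSpace ℂ F]

section num

variable {ι : Type} [Fintype ι] [DecidableEq ι] {c : ι → Option (Fin n)} {K : ι → ℤ}
  {φ s f g : E n → F} {z : E n}

theorem eq_off (c : ι → Option (Fin n)) (hf : ContinuousAt f z) (hg : ContinuousAt g z)
    (h : ∀ᶠ y in 𝓝 z, Off c y → f y = g y) : f z = g z :=
  tendsto_nhds_unique_of_frequently_eq hf hg
    (((MON.off_freq c z).and_eventually h).mono fun y hy => hy.2 hy.1)

theorem ev_off (c : ι → Option (Fin n)) (hf : HolN f z) (hg : HolN g z)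
    (h : ∀ᶠ y in 𝓝 z, Off c y → f y = g y) : f =ᶠ[𝓝 z] g := by
  filter_upwards [hf, hg, h.eventually_nhds] with y a b d
    using eq_off c a.continuousAt b.continuousAt d

/-- The numerator of a germ. -/
def num (c : ι → Option (Fin n)) (K : ι → ℤ) (φ : E n → F) (z : E n) : F :=
  limUnder (𝓝[{y | Off c y}] z) fun y => (xm c K y)⁻¹ • φ y

theorem num_eq (hs : ContinuousAt s z) (h : ∀ᶠ y in 𝓝 z, Off c y → φ y = xm c K y • s y) :
    num c K φ z = s z := by
  haveI : (𝓝[{y | Off c y}] z).NeBot := mem_closure_iff_nhdsWithin_neBot.1 (MON.off_dense c z)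
  refine Tendsto.limUnder_eq ((hs.tendsto.mono_left nhdsWithin_le_nhds).congr' ?_)
  filter_upwards [nhdsWithin_le_nhds h, self_mem_nhdsWithin] with y a b
  rw [a b, smul_smul, inv_mul_cancel₀ (MON.xm_ne K b), one_smul]

theorem num_ev (hs : HolN s z) (h : ∀ᶠ y in 𝓝 z, Off c y → φ y = xm c K y • s y) :
    num c K φ =ᶠ[𝓝 z] s := by
  filter_upwards [hs, h.eventually_nhds] with y a b using num_eq a.continuousAt b

theorem holN_congr (hs : HolN s z) (h : f =ᶠ[𝓝 z] s) : HolN f z := by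
  filter_upwards [hs, h.eventually_nhds] with y a b using a.congr_of_eventuallyEq b

theorem num_hol (hs : HolN s z) (h : ∀ᶠ y in 𝓝 z, Off c y → φ y = xm c K y • s y) :
    HolN (num c K φ) z := holN_congr hs (num_ev hs h)

end num

section chart

variable {X : Type} [TopologicalSpace X] {e e' : OpenPartialHomeomorph X (E n)} {x : X}
  {v : X → ℂ} {z : E n}

theorem ev_sym {p : X → Prop} (hz : z ∈ e.target) (h : ∀ᶠ y in 𝓝 (e.symm z), p y) :
    ∀ᶠ w in 𝓝 z, w ∈ e.target ∧ p (e.symm w) :=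
  (e.open_target.eventually_mem hz).and ((e.continuousAt_symm hz).eventually h)

theorem ev_chart {p : E n → Prop} (hx : x ∈ e.source) (h : ∀ᶠ w in 𝓝 (e x), p w) :
    ∀ᶠ y in 𝓝 x, y ∈ e.source ∧ p (e y) :=
  (e.open_source.eventually_mem hx).and ((e.continuousAt hx).eventually h)

theorem ev_tr (hx : x ∈ e.source) (hx' : x ∈ e'.source) :
    ∀ᶠ z in 𝓝 (e' x), z ∈ e'.target ∧ e'.symm z ∈ e.source :=
  (e'.open_target.eventually_mem (e'.map_source hx')).and
    ((e'.tendsto_symm hx').eventually (e.open_source.mem_nhds hx))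

variable [ChartedSpace (E n) X]

/-- The Jacobian determinant of the change to the preferred chart. -/
def jd (e : OpenPartialHomeomorph X (E n)) (y : X) : ℂ := (jm (chartAt (E n) y ∘ e.symm) (e y)).det

variable [IsManifold 𝓘(ℂ, E n) ω X]

theorem ch_mf (x : X) : chartAt (E n) x ∈ (mf n X).C := fun y => ⟨cp_chart x y, cp_chart y x⟩

theorem jd_ne (he : e ∈ (mf n X).C) (hx : x ∈ e.source) : jd e x ≠ 0 :=
  ((mTR n (mf n X)).2.1 _ (ch_mf x) e he x (mem_chart_source _ x) hx).2.1

theorem jd_mul (he : e ∈ (mf n X).C) (he' : e' ∈ (mf n X).C) (hx : x ∈ e.source)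
    (hx' : x ∈ e'.source) : jd e' x = jd e x * (jm (e ∘ e'.symm) (e' x)).det :=
  (congrArg Matrix.det (((mTR n (mf n X)).2.1 _ (ch_mf x) e he x (mem_chart_source _ x)
    hx).2.2.2.2 e' he' hx')).trans (Matrix.det_mul _ _)

theorem jd_tr (he : e ∈ (mf n X).C) (he' : e' ∈ (mf n X).C) (hx : x ∈ e.source)
    (hx' : x ∈ e'.source)
    (h : DifferentiableAt ℂ (fun z => v (e.symm z) * jd e (e.symm z) ^ m) (e x)) :
    DifferentiableAt ℂ (fun z => v (e'.symm z) * jd e' (e'.symm z) ^ m) (e' x) := by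
  have t1 : HolN (e ∘ e'.symm) (e' x) := ((mTR n (mf n X)).2.1 e he e' he' x hx hx').1
  have p : (e ∘ e'.symm) (e' x) = e x := by simp only [Function.comp_apply, e'.left_inv hx']
  refine (((p ▸ h).comp _ t1.self_of_nhds).mul
    ((mCHN n _ _ t1).2.2.2.2.1.self_of_nhds.pow m)).congr_of_eventuallyEq
    ((ev_tr hx hx').mono fun z hz => ?_)
  simp only [Pi.mul_apply, Pi.pow_apply, Function.comp_apply, e.left_inv hz.2,
    jd_mul he he' hz.2 (e'.map_target hz.1), e'.right_inv hz.1]
  ring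

theorem hol_iff (he : e ∈ (mf n X).C) (hx : x ∈ e.source) : HolAt n m v x ↔
    DifferentiableAt ℂ (fun z => v (e.symm z) * jd e (e.symm z) ^ m) (e x) := by
  have h0 := mem_chart_source (E n) x
  refine Iff.trans (EventuallyEq.differentiableAt_iff ?_)
    ⟨jd_tr (ch_mf x) he h0 hx, jd_tr he (ch_mf x) hx h0⟩
  filter_upwards [(chartAt (E n) x).open_target.mem_nhds ((chartAt (E n) x).map_source h0)] with z hz
  have h1 : HolN (chartAt (E n) ((chartAt (E n) x).symm z) ∘ (chartAt (E n) x).symm)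
      (chartAt (E n) x ((chartAt (E n) x).symm z)) :=
    ((mTR n (mf n X)).2.1 _ (ch_mf _) _ (ch_mf x) _
      (mem_chart_source (M := X) _ _) ((chartAt (E n) x).map_target hz)).1
  rw [jd, ← (mCHN n _ _ h1).2.2.2.2.2.2.1, (chartAt (E n) x).right_inv hz]
  rfl

theorem hol_iff0 (he : e ∈ (mf n X).C) (hx : x ∈ e.source) :
    HolAt n 0 v x ↔ DifferentiableAt ℂ (fun z => v (e.symm z)) (e x) := by
  simpa only [pow_zero, mul_one] using hol_iff (m := 0) (v := v) he hx

theorem holN_m (he : e ∈ (mf n X).C) (hz : z ∈ e.target)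
    (h : ∀ᶠ y in 𝓝 (e.symm z), HolAt n m v y) :
    HolN (fun w => v (e.symm w) * jd e (e.symm w) ^ m) z :=
  (ev_sym hz h).mono fun w hw => by
    have := (hol_iff he (e.map_target hw.1)).1 hw.2
    rwa [e.right_inv hw.1] at this

theorem holN_0 (he : e ∈ (mf n X).C) (hz : z ∈ e.target)
    (h : ∀ᶠ y in 𝓝 (e.symm z), HolAt n 0 v y) : HolN (fun w => v (e.symm w)) z := by
  simpa only [pow_zero, mul_one] using holN_m he hz h

theorem holN_vec {r : ℕ} {t : X → E r} (he : e ∈ (mf n X).C) (hz : z ∈ e.target)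
    (h : ∀ᶠ y in 𝓝 (e.symm z), ∀ j, HolAt n 0 (t · j) y) : HolN (fun w => t (e.symm w)) z := by
  have a : ∀ᶠ w in 𝓝 z, ∀ j, DifferentiableAt ℂ (fun w => t (e.symm w) j) w :=
    eventually_all.2 fun j => holN_0 (v := (t · j)) he hz (h.mono fun y hy => hy j)
  exact a.mono fun w hw => differentiableAt_pi.2 hw

/-- The differential in an arbitrary chart. -/
theorem dAt_eq (he : e ∈ (mf n X).C) (hx : x ∈ e.source) : ∃ A : E n ≃L[ℂ] E n,
    ∀ (F : Type) [NormedAddCommGroup F] [NormedSpace ℂ F] (h : X → F),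
      DifferentiableAt ℂ (fun w => h (e.symm w)) (e x) →
        fderiv ℂ (fun w => h (e.symm w)) (e x) = (dAt n h x).comp (A : E n →L[ℂ] E n) := by
  have h0 := mem_chart_source (E n) x
  obtain ⟨t1, t2, -⟩ := (mTR n (mf n X)).2.1 _ (ch_mf x) e he x h0 hx
  obtain ⟨t3, -⟩ := (mTR n (mf n X)).2.1 e he _ (ch_mf x) x hx h0
  have d0 : (fderiv ℂ (chartAt (E n) x ∘ e.symm) (e x)).det ≠ 0 :=
    fun h => t2 ((mCHN n _ _ t1).2.2.2.2.2.2.1.symm.trans h)
  refine ⟨(fderiv ℂ (chartAt (E n) x ∘ e.symm) (e x)).toContinuousLinearEquivOfDetNeZero d0,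
    fun F _ _ h hh => ?_⟩
  have p : (chartAt (E n) x ∘ e.symm) (e x) = chartAt (E n) x x := by
    simp only [Function.comp_apply, e.left_inv hx]
  have p' : (e ∘ (chartAt (E n) x).symm) (chartAt (E n) x x) = e x := by
    simp only [Function.comp_apply, (chartAt (E n) x).left_inv h0]
  have a : DifferentiableAt ℂ (h ∘ (chartAt (E n) x).symm) (chartAt (E n) x x) :=
    ((p' ▸ hh).comp _ t3.self_of_nhds).congr_of_eventuallyEq ((ev_tr hx h0).mono fun w hw => by
      simp only [Function.comp_apply, e.left_inv hw.2])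
  rw [ContinuousLinearMap.coe_toContinuousLinearEquivOfDetNeZero, dAt]
  rw [← p] at a ⊢
  refine Eq.trans ?_ (fderiv_comp _ a t1.self_of_nhds)
  exact EventuallyEq.fderiv_eq ((ev_tr h0 hx).mono fun w hw => by
    simp only [Function.comp_apply, (chartAt (E n) x).left_inv hw.2])

end chart

end Pool.Agent.Lib.EX.K1
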