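import Pool.Agent.Lib.EX.B_BLW
import Pool.Agent.Lib.EX.K1N

/-! Project ex41: the meromorphic pluricanonical form read in the charts of an adapted atlas. -/

open scoped Classical Topology ContDiff ComplexOrder Matrix Manifold
open Set MeasureTheory Complex Metric Filter

set_option linter.unusedVariables false
set_option linter.unusedSectionVars false

noncomputable section

namespace Pool.Agent.Lib.EX

open Pool.Agent.Lib.SV (E)
open Pool.Agent.Lib.HS32
open Pool.Agent.Lib.HS.BBR (mf Cp)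
open Pool.Agent.Lib.KP (HolAt)

namespace FRM

open K1

variable {n m : ℕ} {I : Type} [Fintype I] [DecidableEq I] {Y : Type} [TopologicalSpace Y]
  [ChartedSpace (E n) Y] [IsManifold 𝓘(ℂ, E n) ω Y] {e e' : OpenPartialHomeomorph Y (E n)}
  {z : E n} {S : I → Set Y} {c c' : I → Option (Fin n)} {l : I → ℤ} {η : Y → ℂ}

/-- The coefficient of the form in the chart `e`. -/
def co (m : ℕ) (η : Y → ℂ) (e : OpenPartialHomeomorph Y (E n)) (z : E n) : ℂ :=
  η (e.symm z) * jd e (e.symm z) ^ m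

theorem one (hU : St_UNI) (he : e ∈ (mf n Y).C) (hz : z ∈ e.target)
    (hF : ∀ w ∈ e.target, ∀ i, e.symm w ∈ S i ↔ xi c i w = 0) (h : Ord n m S l η (e.symm z)) :
    HolN (num c l (co m η e)) z ∧ num c l (co m η e) z ≠ 0 ∧
      co m η e z = xm c l z * num c l (co m η e) z := by
  obtain ⟨g, w, hE, hw⟩ := h
  obtain ⟨u, hu, hg⟩ := BLW.unit hU he hz hF hE
  obtain ⟨p1, p2⟩ := BLW.hol_prod hu l
  have h1 := holN_m he hz (hw.mono fun x hx => hx.1)
  have h2 : HolN (fun y => (∏ i, u i y ^ l i) * (w (e.symm y) * jd e (e.symm y) ^ m)) z :=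
    (Eventually.and p1 h1).mono fun y hy => hy.1.mul hy.2
  have h3 : ∀ᶠ y in 𝓝 z, co m η e y =
      xm c l y • ((∏ i, u i y ^ l i) * (w (e.symm y) * jd e (e.symm y) ^ m)) := by
    filter_upwards [ev_sym hz hw, hg] with y a b
    simp only [co, a.2.2.2, b, mul_zpow, Finset.prod_mul_distrib, xm, smul_eq_mul]
    ring
  have h4 := num_ev h2 (h3.mono fun y a _ => a)
  refine ⟨holN_congr h2 h4, ?_, ?_⟩
  · rw [h4.self_of_nhds]
    exact mul_ne_zero p2 (mul_ne_zero hw.self_of_nhds.2.1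
      (pow_ne_zero _ (jd_ne he (e.map_target hz))))
  · rw [h4.self_of_nhds]
    exact h3.self_of_nhds

theorem two (he : e ∈ (mf n Y).C) (he' : e' ∈ (mf n Y).C) {w w' : E n → ℂ} {u : I → Y → ℂ}
    (hw : ∀ z ∈ e.target, HolN w z ∧ co m η e z = xm c l z * w z)
    (hw' : ∀ z ∈ e'.target, HolN w' z ∧ co m η e' z = xm c' l z * w' z)
    (hu : ∀ i, ∀ x ∈ e.source, x ∈ e'.source → HolN (u i ∘ e'.symm) (e' x) ∧ u i x ≠ 0 ∧
      xi c i (e x) = u i x * xi c' i (e' x)) {x : Y} (hx : x ∈ e.source) (hx' : x ∈ e'.source) :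
    w' (e' x) = w (e x) * (∏ i, u i x ^ l i) * (jm (e ∘ e'.symm) (e' x)).det ^ m := by
  have t1 : HolN (e ∘ e'.symm) (e' x) := ((mTR n (mf n Y)).2.1 e he e' he' x hx hx').1
  have p : (e ∘ e'.symm) (e' x) = e x := by simp only [Function.comp_apply, e'.left_inv hx']
  have a1 : ContinuousAt (w ∘ e ∘ e'.symm) (e' x) :=
    ContinuousAt.comp (p ▸ (hw _ (e.map_source hx)).1.self_of_nhds.continuousAt)
      t1.self_of_nhds.continuousAt
  have a2 := (BLW.hol_prod (u := fun i => u i ∘ e'.symm) (fun i => ⟨(hu i x hx hx').1, by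
    simpa only [Function.comp_apply, e'.left_inv hx'] using (hu i x hx hx').2.1⟩) l).1
  have := eq_off c' (hw' _ (e'.map_source hx')).1.self_of_nhds.continuousAt
    ((a1.mul a2.self_of_nhds.continuousAt).mul
      ((mCHN n _ _ t1).2.2.2.2.1.self_of_nhds.continuousAt.pow m)) ?_
  · simpa only [Pi.mul_apply, Pi.pow_apply, Function.comp_apply, e'.left_inv hx'] using this
  filter_upwards [ev_tr hx hx'] with y hy ho
  have b1 := (hw _ (e.map_source hy.2)).2
  have b2 := (hw' y hy.1).2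
  have b3 : xm c l (e (e'.symm y)) = (∏ i, u i (e'.symm y) ^ l i) * xm c' l y := by
    simp only [xm, fun i => (hu i _ hy.2 (e'.map_target hy.1)).2.2, e'.right_inv hy.1, mul_zpow,
      Finset.prod_mul_distrib]
  rw [co, e.left_inv hy.2, b3] at b1
  rw [co, jd_mul he he' hy.2 (e'.map_target hy.1), e'.right_inv hy.1, mul_pow, ← mul_assoc,
    b1] at b2
  refine mul_left_cancel₀ (MON.xm_ne l ho) (b2.symm.trans ?_)
  simp only [Pi.mul_apply, Pi.pow_apply, Function.comp_apply]
  ring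

end FRM

/-- The unit part of the form in the charts of the atlas. -/
theorem bFRM (hU : St_UNI) {n m : ℕ} {Y I : Type} [TopologicalSpace Y] [ChartedSpace (E n) Y]
    [IsManifold 𝓘(ℂ, E n) ω Y] [Fintype I] [DecidableEq I] {D : Ad (mf n Y) I} {S : I → Set Y}
    (hF : D.Fit S) {l : I → ℤ} {η : Y → ℂ} (h : ∀ y, Ord n m S l η y) :
    ∃ w : D.A → E n → ℂ, (D.All fun b z => DifferentiableAt ℂ (w b) z) ∧
      (D.All fun b z => w b z ≠ 0) ∧ D.Ov fun b d x =>
        w d (D.e d x) = w b (D.e b x) * D.um l b d x * (D.J b d x).det ^ m := by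
  let e : D.A → OpenPartialHomeomorph Y (E n) := D.e
  have key := fun (b : D.A) z (hz : z ∈ (e b).target) =>
    FRM.one (e := e b) hU (D.mem b) hz (BLW.fit hF b) (h _)
  exact ⟨fun b => K1.num (D.c b) l (FRM.co m η (e b)),
    fun b z hz => (key b z (BLW.tgt D b hz)).1.self_of_nhds,
    fun b z hz => (key b z (BLW.tgt D b hz)).2.1,
    fun b d x hx hx' => FRM.two (e := e b) (e' := e d) (D.mem b) (D.mem d)
      (fun z hz => ⟨(key b z hz).1, (key b z hz).2.2⟩)
      (fun z hz => ⟨(key d z hz).1, (key d z hz).2.2⟩)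
      (fun i y a a' => ⟨D.uhol b d i y a a', D.une b d i y a a', D.urel b d i y a a'⟩) hx hx'⟩

end Pool.Agent.Lib.EX
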