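import Pool.Agent.Lib.EX.Blue

/-! Project ex41, block KEY1: the polarised identity. -/

open scoped Classical Topology ContDiff ComplexOrder Matrix
open Set MeasureTheory Complex Metric Filter

noncomputable section

namespace Pool.Agent.Lib.EX

open Pool.Agent.Lib.SV (E)
open Pool.Agent.Lib.HS32
open Pool.Agent.Lib.EXA (Val SmN emb)

namespace KEY1

variable {n : ℕ}

theorem smN {F : Type} [NormedAddCommGroup F] [NormedSpace ℝ F] {f : E n → F} {z : E n}
    (h : ∀ y ∈ B2 n, ContDiffAt ℝ ∞ f y) (hz : z ∈ B2 n) : SmN f z :=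
  (isOpen_ball.eventually_mem hz).mono h

theorem smN_const (a : ℂ) (z : E n) : SmN (fun _ : E n => a) z :=
  Eventually.of_forall fun _ => contDiffAt_const

/-- The expansion of the twisted derivative at a point. -/
theorem expand {κ : Type} [Fintype κ] {A R C : κ → E n → ℂ} {y : E n} (l : κ) (j : Fin n)
    (s η : ℂ) (hA : ∀ l, DifferentiableAt ℝ (A l) y) (hR : ∀ l, DifferentiableAt ℝ (R l) y)
    (hC : ∀ l, DifferentiableAt ℝ (C l) y) (h : ∑ l', C l' y * dzb j (A l') y = A l y * η) :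
    dzb j (fun w => A l w - R l w + s * ∑ l', C l' w * R l' w) y -
        s * (A l y - R l y + s * ∑ l', C l' y * R l' y) * η =
      (dzb j (fun w => A l w - R l w) y +
        ∑ l', -s * C l' y * dzb j (fun w => A l' w - R l' w) y) +
      s * ∑ l', R l' y * dzb j (C l') y + s * ((R l y + ∑ l', -s * C l' y * R l' y) * η) := by
  have h1 : ∀ l', DifferentiableAt ℝ (fun w => C l' w * R l' w) y := fun l' =>
    (hC l').fun_mul (hR l')
  have h2 := DifferentiableAt.fun_sum (u := Finset.univ) fun l' _ => h1 l'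
  rw [dzb_add ((hA l).fun_sub (hR l)) (h2.const_mul s), dzb_const_mul s h2,
    dzb_sum fun l' _ => h1 l']
  simp only [dzb_mul (hC _) (hR _), dzb_sub (hA _) (hR _), mul_sub, Finset.sum_add_distrib,
    Finset.sum_sub_distrib, mul_assoc, ← Finset.mul_sum, h, mul_comm (R _ y) (dzb j _ y)]
  ring

variable {M : Mf n} {ι : Type} [Fintype ι] [DecidableEq ι] {D : Ad M ι}

omit [Fintype ι] [DecidableEq ι] in
/-- The average of compatible local functions. -/
theorem rd_avg {g : D.A → E n → ℂ} (h : D.Ov fun a d x => g d (D.e d x) = g a (D.e a x))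
    (d : D.A) {z : E n} (hz : z ∈ B2 n) : D.rd (D.avg g) d z = g d z := by
  have h1 : z ∈ (D.e d).target := (D.tgt d).symm ▸ hz
  have h2 : ∀ a, (D.χ a ((D.e d).symm z) : ℂ) * g a (D.e a ((D.e d).symm z)) =
      D.χ a ((D.e d).symm z) * g d z := fun a => by
    by_cases h0 : D.χ a ((D.e d).symm z) = 0
    · simp [h0]
    · rw [← h a d _ (D.supp a _ h0).1 ((D.e d).map_target h1), (D.e d).right_inv h1]
  simp only [Ad.rd, Ad.avg, h2, ← Finset.sum_mul, ← ofReal_sum, D.sum, ofReal_one, one_mul]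

end KEY1

open KEY1 in
theorem bKEY1 (hML : St_ML) (hPRD : St_PRD) (hMAIN : St_MAIN) (hRES : St_RES) (hINC : St_INC)
    (hUT : St_UT) (hQ5 : St_Q5) (hMOD : St_MOD) (hMON : St_MON) : St_KEY1 := by
  intro n M _ H ι _ _ D κ _ L p V F hp hV hdl hR hF l
  obtain ⟨u1, u2⟩ := hUT n M ι D κ L
  have hT : ∀ i ∈ L.T, L.r i = 0 := fun i hi => (L.rT i hi).1
  let R : κ → M.X → ℂ := fun l => D.avg (L.f l) - F l
  let Φ : M.X → ℂ := fun x => D.avg (L.f l) x - R l x + L.s * ∑ l', D.avg (L.cc l l') x * R l' x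
  have hΦ : ∀ d, ∀ y ∈ B2 n, D.rd Φ d y = D.rd (D.avg (L.f l)) d y - D.rd (R l) d y +
      L.s * ∑ l', L.cc l l' d y * D.rd (R l') d y := fun d y hy => by
    simp only [← fun l' => rd_avg (g := L.cc l l') (fun a d x h h' => (u2 a d x h h').2.1 l l') d hy]
    rfl
  have hC : ∀ d, ∀ z ∈ B2 n, ∀ l', SmN (fun y => -L.s * L.cc l l' d y) z := fun d z hz l' =>
    smN (fun y hy => contDiffAt_const.mul ((u1 d y hy).2.2.2.2.2.1 l l')) hz
  have hS : D.All fun d z => Pol (D.c d) L.G
      (D.rd (R l) d + ∑ l', (fun y => -L.s * L.cc l l' d y) * D.rd (R l') d) z := fun d z hz =>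
    have m := (hMOD n ι (D.c d) L.G L.r L.T p).1
    m.add _ _ _ (hR l d z hz) (m.sum _ _ _ _ fun l' _ => m.mul _ _ _ (hC d z hz l') (hR l' d z hz))
  have key := hML n M ι D κ L p (V l) Φ (fun i => max (L.a i) (L.G i)) (fun I d z => (L.b d z : ℝ) *
    (star (V l I d z) ⬝ᵥ H (D.e d) z *ᵥ V l I d z -
      L.s * ∑ l', L.cc l l' d z * (star (V l I d z) ⬝ᵥ H (D.e d) z *ᵥ V l' I d z))) 0 hp (hV l)
    (fun i hi h0 => ?_) (fun d z hz => ?_) (fun d z hz => ?_) (fun d z hz => ?_)
  · have h0 : D.SS L.r L.T (p + 1) 0 = 0 := by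
      simp [Ad.SS, SI]
    rwa [h0, add_zero] at key
  · obtain ⟨h1, h2⟩ := L.rZ i hi h0
    simp [h1, h2]
  · have m := (hMOD n ι (D.c d) (fun i => max (L.a i) (L.G i)) L.r L.T p).1
    refine m.cong _ _ _ (m.add _ _ _
      (((hINC n ι (D.c d) _ L.r L.T p _ z).2.2.1 _ fun i => le_max_left _ _).1
        ((u1 d z hz).2.2.2.2.2.2.2.2.2.1 l))
      (m.mul _ _ _ (smN_const (-1) z)
        (((hINC n ι (D.c d) _ L.r L.T p _ z).2.2.1 _ fun i => le_max_right _ _).1 (hS d z hz)))) ?_
    filter_upwards [isOpen_ball.eventually_mem hz] with y hy _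
    simp only [hΦ d y hy, Pi.add_apply, Pi.mul_apply, Finset.sum_apply, mul_assoc, ← Finset.mul_sum]
    ring
  · obtain ⟨o1, -, -, -, -, o6, -⟩ := hMON n ι (D.c d)
    obtain ⟨m1, -, m3, -, -, -, m7⟩ := hMOD n ι (D.c d) L.G L.r L.T p
    have inc := fun G q F => hINC n ι (D.c d) G L.r L.T q F z
    have res := fun ρ ρ' F F' => hRES n ι (D.c d) L.G L.T p ρ ρ' F F' z (D.inj d)
    have prd := fun F Q => hPRD n ι (D.c d) L.G L.r L.T p (L.b d) F Q z
      (smN (fun y hy => (u1 d y hy).2.2.2.1) hz) hT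
    have mai := fun ρ ρ' F F' => hMAIN n ι (D.c d) L.r L.T p ρ ρ' F F' z
    choose ρ hρ hρ' using fun l' => hF l' d z hz
    choose Q t hQ ht hQt using fun l' => hQ5 n M ι D κ L p (V l) hp (hV l) l l' d z hz
    have hv : ∀ j, Res (D.c d) L.G L.T p (fun I y => V l I d y j) (fun y => L.vh p (V l) d y j) z :=
      fun j => (res _ 0 0 0).2.2.2.2.2.2.2.2.1 fun I hI => smN (fun y hy =>
        ((mHOL n _ y).2.2 ((isOpen_ball.eventually_mem hy).mono fun w hw =>
          differentiableAt_pi.1 ((hV l I hI).hol d w hw) j)).1) hz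
    have t1 := (mai 0 0 0 0).2.2.2.2 _ Finset.univ _ _ fun j _ => (prd _ _).2.2 _ _
      ((res _ _ _ _).2.2.2.2.1 (hρ l j) ((res 0 0 0 0).2.2.2.2.2.2.2.2.2.2.2.2 _ Finset.univ _ _
        fun l' _ => (res _ 0 _ 0).2.2.2.2.2.1 _ (hC d z hz l') (hρ l' j))) (hv j)
    have t2 := m7.sum _ Finset.univ _ z fun l' _ => (prd _ _).1 L.G (fun _ _ _ => le_rfl)
      (hR l' d z hz) ((inc _ _ _).2.2.2.2.2.2.2.2.2.2.2.2.1 hT (hQ l'))
    have w3 : ∀ j, Wt (D.c d) L.G L.T p ((fun _ => (L.s : ℂ)) *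
        (∑ l', D.rd (R l') d * t l' j + (D.rd (R l) d +
          ∑ l', (fun y => -L.s * L.cc l l' d y) * D.rd (R l') d) * L.eta d j)) z := fun j => by
      rcases hp with hp | hp
      · have m := (hMOD n ι (D.c d) (L.G + -sp L.a) L.r L.T p).1
        refine m3.mul _ _ _ (smN_const _ z) (((inc _ 1 _).2.2.2.2.1 p hp).1
          ((inc _ 1 _).2.2.2.2.2.2.2.2.2.1.2 (((inc _ p _).2.2.1 _ fun i => ?_).1
            (m.add _ _ _ (m.sum _ _ _ _ fun l' _ =>
              ((inc _ p _).2.2.2.1 _ _).1 (hR l' d z hz) (ht l' j))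
              (((inc _ p _).2.2.2.1 _ _).1 (hS d z hz) ((u1 d z hz).2.2.2.2.2.2.2.2.2.2 j).1)))))
        simp only [Pi.add_apply, Pi.neg_apply, sp]
        split_ifs with h1 h2
        · exact absurd h1 (L.rT i h2).2
        all_goals omega
      · refine m3.cong _ _ _ (m3.zero z) (Eventually.of_forall fun y _ => ?_)
        simp [hp]
    have t3 := m7.sum _ Finset.univ _ z fun j _ => (prd _ _).2.1 (w3 j) ((res _ 0 _ 0).1 (hv j)).1
    refine (mai _ _ _ _).2.2.2.1 ((mai _ _ _ _).2.1 t1 ((mai 0 0 _ 0).1 (m7.add _ _ _ t2 t3))) ?_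
      fun I hI => ?_
    · filter_upwards [isOpen_ball.eventually_mem hz, eventually_all.2 hQt,
        eventually_all.2 fun l' => (inc _ p _).2.2.2.2.2.2.2.2.2.2.2.2.2.2.2.1 (hR l' d z hz)]
        with y hy e1 e2 ho
      have e3 : ∀ l', D.rd (D.avg (L.f l')) d =ᶠ[𝓝 y]
          fun w => xm (D.c d) (-fun i => (L.a i : ℤ)) w * L.ut l' d w := fun l' => by
        filter_upwards [isOpen_ball.eventually_mem hy, o1 y ho] with w h1 h2
        exact (u1 d w h1).2.2.2.2.2.2.2.1 l' h2
      have d1 := (o6 (-fun i => (L.a i : ℤ)) y ho).self_of_nhds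
      have d2 := fun l' => cd_diff ((u1 d y hy).1 l')
      have d3 := d1.restrictScalars ℝ
      have e4 := fun j => expand (A := fun l' => D.rd (D.avg (L.f l')) d)
        (R := fun l' => D.rd (R l') d) (C := fun l' => L.cc l l' d) l j L.s (L.eta d j y)
        (fun l' => (d3.fun_mul (d2 l')).congr_of_eventuallyEq (e3 l'))
        (fun l' => cd_diff (e2 l' ho).self_of_nhds)
        (fun l' => cd_diff ((u1 d y hy).2.2.2.2.2.1 l l')) (by
          simp only [dzb_congr (e3 _), dzb_mul d3 (d2 _), ((mHOL n _ y).1 d3).1 d1,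
            (e3 l).self_of_nhds, Lv.cc, Lv.eta, Finset.sum_div, Finset.mul_sum]
          exact Finset.sum_congr rfl fun l' _ => by ring)
      have e5 : ∀ l', (fun w => D.rd (D.avg (L.f l')) d w - D.rd (R l') d w) = D.rd (F l') d :=
        fun l' => funext fun w => sub_sub_cancel _ _
      have e6 : ∑ j, (L.s * ∑ l', D.rd (R l') d y * dzb j (L.cc l l' d) y) *
          star (L.vh p (V l) d y j) = ∑ l', D.rd (R l') d y * star (Q l' y) +
            ∑ j, (L.s * ∑ l', D.rd (R l') d y * t l' j y) * star (L.vh p (V l) d y j) := by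
        simp only [Finset.mul_sum, Finset.sum_mul]
        rw [Finset.sum_comm, Finset.sum_comm (f := fun j l' => L.s * (D.rd (R l') d y * t l' j y) *
          star (L.vh p (V l) d y j)), ← Finset.sum_add_distrib]
        refine Finset.sum_congr rfl fun l' _ => ?_
        have h := congrArg (D.rd (R l') d y * ·) (e1 l' ho)
        simp only [mul_add, Finset.mul_sum] at h
        refine (Finset.sum_congr rfl fun j _ => ?_).trans (h.trans (congrArg _
          (Finset.sum_congr rfl fun j _ => ?_))) <;> ring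
      simp only [Lv.nab, hΦ d y hy, dzb_congr ((isOpen_ball.eventually_mem hy).mono (hΦ d)), e4, e5]
      simp only [Pi.add_apply, Pi.mul_apply, Finset.sum_apply, ← Finset.mul_sum, add_mul,
        mul_add, Finset.sum_add_distrib, e6, Lv.dd, add_assoc]
      rfl
    · filter_upwards [isOpen_ball.eventually_mem hz, eventually_all.2 fun l' => eventually_all.2
        fun j => eventually_imp_distrib_left.2 (hρ' l' j I hI)] with y hy e1 hs
      simp only [Pi.add_apply, Pi.mul_apply, Finset.sum_apply, Pi.zero_apply, add_zero,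
        ← Finset.mul_sum, dotProduct]
      congr 1
      simp only [Finset.mul_sum]
      rw [Finset.sum_comm, ← Finset.sum_sub_distrib]
      refine Finset.sum_congr rfl fun j _ => ?_
      by_cases hj : Nm (D.c d) I j
      · simp [(hV l I hI).nm d y hy j hj]
      · simp only [e1 _ j hj hs, add_mul, Finset.sum_mul, sub_eq_add_neg, ← Finset.sum_neg_distrib,
          Pi.star_apply]
        exact congrArg₂ _ (mul_comm _ _) (Finset.sum_congr rfl fun l' _ => by ring)
  · refine (hMAIN n ι (D.c d) L.r L.T (p + 1) 0 0 _ 0 z).1 ?_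
    have m := (hMOD n ι (D.c d) L.G L.r L.T (p + 1)).2.2.2.2.2.2
    refine m.cong _ _ _ (m.zero z) (Eventually.of_forall fun y _ => ?_)
    simp [hdl l, hat]

end Pool.Agent.Lib.EX
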