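import Pool.Agent.Lib.EX.Blue

/-! Project ex41: linear algebra. -/

open scoped ComplexOrder

noncomputable section

namespace Pool.Agent.Lib.EX

theorem bLA18 : St_LA := by
  intro R H _ _ _ _ _ a b δ Γ ha hb a0 a1 b0 hs hadj v
  let c : InnerProductSpace.Core ℂ R :=
    { inner := fun x y => a y x
      conj_inner_symm := fun x y => (ha x y).symm
      re_inner_nonneg := fun x => (Complex.nonneg_iff.1 (a0 x)).1
      add_left := fun x y z => map_add (a z) x y
      smul_left := fun x y r => map_smulₛₗ (a y) r x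
      definite := a1 }
  let := c.toNormedAddCommGroup
  let := InnerProductSpace.ofCore c.toCore
  let d : PreInnerProductSpace.Core ℂ H :=
    { inner := fun x y => b y x
      conj_inner_symm := fun x y => (hb x y).symm
      re_inner_nonneg := fun x => (Complex.nonneg_iff.1 (b0 x)).1
      add_left := fun x y z => map_add (b z) x y
      smul_left := fun x y r => map_smulₛₗ (b y) r x }
  have hv : δ v ∈ (Γ.map (LinearMap.snd ℂ R H)).map δ := by
    rw [← Submodule.orthogonal_orthogonal ((Γ.map (LinearMap.snd ℂ R H)).map δ),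
      Submodule.mem_orthogonal']
    intro x hx
    obtain ⟨y, hy⟩ := hs x
    have h1 : a x (δ y) = 0 := hx _ ⟨y, ⟨_, hy, rfl⟩, rfl⟩
    have h2 : b y y = 0 := by simpa [h1] using hadj x y hy y
    have h3 : ‖b y v‖ * ‖b v y‖ ≤ (b v v).re * (b y y).re :=
      @InnerProductSpace.Core.inner_mul_inner_self_le ℂ H _ _ _ d v y
    rw [h2, hb y v, norm_star, Complex.zero_re, mul_zero] at h3
    have h4 : b y v = 0 := norm_eq_zero.1 (mul_self_eq_zero.1 (le_antisymm h3 (mul_self_nonneg _)))
    have h5 := hadj x y hy v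
    rw [h4, zero_add] at h5
    exact h5
  obtain ⟨y, ⟨⟨x, y'⟩, hp, rfl⟩, e⟩ := hv
  exact ⟨x, y', hp, by rw [map_sub, ← e]; exact sub_self _⟩

end Pool.Agent.Lib.EX
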