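import Pool.Agent.Lib.EX.Blue

/-! Project ex41, row LA: linear algebra. -/

open scoped Classical Topology ContDiff ComplexOrder Matrix
open Set MeasureTheory Complex Metric Filter

set_option linter.unusedVariables false

noncomputable section

namespace Pool.Agent.Lib.EX

namespace LA31

theorem null {H : Type} [AddCommGroup H] [Module ℂ H] (b : H →ₗ[ℂ] H →ₗ⋆[ℂ] ℂ)
    (hb : ∀ x y, b y x = star (b x y)) (h0 : ∀ x, 0 ≤ b x x) (y : H) (hy : b y y = 0) (v : H) :
    b y v = 0 := by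
  by_contra hne
  have hp : 0 < normSq (b y v) := normSq_pos.2 hne
  set l : ℝ := ((b v v).re + 1) / normSq (b y v) with hl
  have h1 := (Complex.nonneg_iff.1 (h0 (v - ((l : ℂ) * star (b y v)) • y))).1
  have h2 : b (v - ((l : ℂ) * star (b y v)) • y) (v - ((l : ℂ) * star (b y v)) • y) =
      b v v - ((2 * (l * normSq (b y v)) : ℝ) : ℂ) := by
    simp only [map_sub, map_smul, LinearMap.map_smulₛₗ, LinearMap.sub_apply, LinearMap.smul_apply,
      smul_eq_mul, hy, hb y v, map_mul, conj_ofReal, star_def, conj_conj, ofReal_mul,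
      normSq_eq_conj_mul_self, ofReal_ofNat]
    ring
  rw [h2, sub_re, ofReal_re, hl, div_mul_cancel₀ _ hp.ne'] at h1
  have h3 := (Complex.nonneg_iff.1 (h0 v)).1
  linarith

end LA31

theorem bLA31 : St_LA := by
  intro R H _ _ _ _ _ a b δ Γ ha hb _ ha0 hb0 hΓ hr v
  obtain ⟨s, hs⟩ := ((LinearMap.fst ℂ R H).comp Γ.subtype).exists_rightInverse_of_surjective
    (LinearMap.range_eq_top.2 fun x => (hΓ x).elim fun y hy => ⟨⟨(x, y), hy⟩, rfl⟩)
  set σ := (LinearMap.snd ℂ R H).comp (Γ.subtype.comp s) with hσ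
  have hm : ∀ x, (x, σ x) ∈ Γ := fun x => by
    have h1 : (s x).1.1 = x := LinearMap.congr_fun hs x
    have h2 : (x, σ x) = (s x).1 := Prod.ext h1.symm rfl
    rw [h2]
    exact (s x).2
  set T := δ.comp σ with hT
  have h1 : ∀ x x', a x (T x') = -b (σ x) (σ x') := fun x x' =>
    eq_neg_of_add_eq_zero_right (hr x _ (hm x) _)
  have h2 : ∀ x x', a (T x) x' = a x (T x') := fun x x' => by
    rw [ha, h1, h1, star_neg, ← hb]
  have h3 : LinearMap.range T ⊔ LinearMap.ker T = ⊤ := by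
    refine Submodule.eq_top_of_disjoint _ _ T.finrank_range_add_finrank_ker.ge ?_
    refine Submodule.disjoint_def.2 ?_
    rintro _ ⟨x, rfl⟩ hx
    refine ha0 _ ?_
    rw [h2, LinearMap.mem_ker.1 hx, map_zero]
  obtain ⟨_, ⟨x, rfl⟩, k, hk, e⟩ := Submodule.mem_sup.1 (h3 ▸ Submodule.mem_top (x := δ v))
  have hk' : T k = 0 := hk
  have h4 : b (σ k) v = 0 := LA31.null b hb hb0 _ (by
    rw [← neg_eq_zero, ← h1, hk', map_zero]) v
  have h5 := hr k _ (hm k) v
  rw [h4, zero_add, ← e, map_add, ← h2, hk', map_zero, LinearMap.zero_apply, zero_add] at h5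
  refine ⟨x, σ x, hm x, ?_⟩
  rw [map_sub, ← e, ha0 k h5, add_zero]
  exact sub_self _

end Pool.Agent.Lib.EX
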