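import Pool.Agent.Lib.EX.BrBlue
import Pool.Agent.Lib.EX.K68A

/-! Two reduced equations of a smooth hypersurface differ by a unit. -/

open scoped Topology
open Set Filter

set_option linter.unusedVariables false

namespace Pool.Agent.Lib.EX

open Pool.Agent.Lib.SV (E)
open Pool.Agent.Lib.HS32

theorem bUNI : St_UNI := by
  intro n ι c i h z hh h0 hd
  cases hc : c i with
  | none =>
    simp only [xi, hc, Option.elim, mul_one, one_ne_zero, iff_false] at h0 ⊢
    exact ⟨h, hh, h0.self_of_nhds, Eventually.of_forall fun _ => rfl⟩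
  | some j =>
    simp only [xi, hc, Option.elim] at h0 ⊢
    obtain ⟨g, hg, e⟩ := K68.div_prod_germ (I := {j}) hh
      (h0.mono fun w hw k hk h => hw.2 (Finset.mem_singleton.1 hk ▸ h))
    simp only [Finset.prod_singleton] at e
    refine ⟨g, hg, fun hz => ?_, e.mono fun w hw => hw.trans (mul_comm _ _)⟩
    have h1 : h z = 0 := by rw [e.self_of_nhds, hz, mul_zero]
    have h2 : z j = 0 := h0.self_of_nhds.1 h1
    have e' : h =ᶠ[𝓝 z] fun w => w j * g w := e
    refine hd h1 ?_
    rw [e'.fderiv_eq, fderiv_fun_mul (differentiableAt_apply j z) hg.self_of_nhds, hz, h2]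
    ext v
    simp

end Pool.Agent.Lib.EX
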