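import Pool.Agent.Lib.EX.B_LFT
import Pool.Agent.Lib.EX.B_BLW
import Pool.Agent.Lib.EX.B_UNI
import Pool.Agent.Lib.EX.K1N

/-! Project ex41, block LFT2: local lifts of sections over a thick divisor. -/

open scoped Classical Topology ContDiff ComplexOrder Matrix Manifold
open Set MeasureTheory Complex Metric Filter

noncomputable section

namespace Pool.Agent.Lib.EX

open Pool.Agent.Lib.SV (E)
open Pool.Agent.Lib.HS32
open Pool.Agent.Lib.KP (HolAt)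
open Pool.Agent.Lib.HS.BBR (mf)

namespace LFT2

variable {n : ℕ} {I Y ι : Type} [Fintype I] [DecidableEq I] [TopologicalSpace Y]
  [ChartedSpace (E n) Y] [IsManifold 𝓘(ℂ, E n) ω Y] {D : Ad (mf n Y) I} {m : ℕ} {S : I → Set Y}
  {ex : Set I} {k ν : I → ℕ} {l : I → ℤ} {η : Y → ℂ} {W : ι → Set Y} {σ : ι → Y → ℂ}
  {g : ι → ι → Y → ℂ}

theorem dif0 {c : I → Option (Fin n)} {U U' g σ σ' v w : E n → ℂ} {h s : I → E n → ℂ} {z : E n}
    (hw : HolN w z) (hs : ∀ i, HolN (s i) z ∧ s i z ≠ 0) (hv : HolN v z) (h0 : v z ≠ 0)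
    (H : ∀ᶠ y in 𝓝 z, σ y = v y * xm c (fun i => k i) y ∧ σ y = g y * σ' y ∧
      U y - g y * U' y = w y * ∏ i, h i y ^ ν i ∧ ∀ i, h i y = s i y * xi c i y) :
    PolH c (fun i => k i - ν i) (fun y => U y / σ y - U' y / σ' y) z := by
  have h8 : HolN (fun y => w y * ∏ i, s i y ^ (ν i : ℤ)) z := by
    filter_upwards [hw, (BLW.hol_prod hs fun i => ν i).1] with y a b using a.fun_mul b
  refine ⟨_, LFT.quo h8 hv h0, ?_⟩
  filter_upwards [H, hv.self_of_nhds.continuousAt.eventually_ne h0] with y ⟨b2, b3, a1, a2⟩ b1 a4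
  have b4 := MON.xm_ne (fun i => (k i : ℤ)) a4
  have b5 : g y ≠ 0 := left_ne_zero_of_mul ((b3.symm.trans b2).trans_ne (mul_ne_zero b1 b4))
  have b6 : (-fun i => (k i : ℤ) - ν i) = (-fun i => (k i : ℤ)) + fun i => (ν i : ℤ) := by
    funext i
    simp only [Pi.neg_apply, Pi.add_apply]
    ring
  have b7 : ∏ i, h i y ^ ν i = (∏ i, s i y ^ (ν i : ℤ)) * xm c (fun i => ν i) y := by
    simp only [a2, xm, zpow_natCast, mul_pow, Finset.prod_mul_distrib]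
  rw [b6, MON.xm_add _ _ a4, MON.xm_neg, ← mul_div_mul_left (U' y) _ b5, ← b3, ← sub_div, a1,
    b7, b2]
  field_simp

theorem dif (hR : LogRes n m S ex k l η W σ g) (hF : D.Fit S) {u : ι → Y → ℂ} {a a' : ι}
    (hu : ∀ y ∈ W a ∩ W a', ∃ h w, Eqs n S y h ∧ ∀ᶠ x in 𝓝 y, HolAt n 0 w x ∧
      u a x - g a a' x * u a' x = w x * ∏ i, h i x ^ ν i) {v : D.A → E n → ℂ}
    (hv : D.On (W a) fun d z =>
      HolN (v d) z ∧ v d z ≠ 0 ∧ D.rd (σ a) d z = v d z * xm (D.c d) (fun i => k i) z) :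
    D.On (W a ∩ W a') fun d z => PolH (D.c d) (fun i => k i - ν i)
      (D.rd ((fun x => u a x / σ a x) - fun x => u a' x / σ a' x) d) z := by
  intro d z hz hW
  obtain ⟨h, w, h1, h2⟩ := hu _ hW
  obtain ⟨s, h3, h4⟩ := BLW.unit (Y := Y) bUNI (D.mem d) (BLW.tgt D d hz) (BLW.fit hF d) h1
  have h7 := K1.ev_sym (X := Y) (BLW.tgt D d hz) h2
  refine dif0 (g := D.rd (g a a') d) (w := D.rd w d) (h := fun i => D.rd (h i) d)
    (h7.mono fun y a => LFT.diff (D.tgt d ▸ a.1) a.2.1) h3 (hv d z hz hW.1).1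
    (hv d z hz hW.1).2.1 ?_
  filter_upwards [h4, h7, LFT.near ((hR.opn a).1.inter (hR.opn a').1) hz hW] with y a1 a2 a3
  exact ⟨(hv d y a3.1 a3.2.1).2.2, (hR.tr a a' _ a3.2).2, a2.2.2, a1⟩

omit [IsManifold 𝓘(ℂ, E n) ω Y] [DecidableEq I] in
theorem loc (hR : LogRes n m S ex k l η W σ g) {P : (ι → Y → ℂ) → Prop}
    (hP : ∀ u, P u → ∀ a, ∀ y ∈ W a, HolAt n 0 (u a) y)
    (hG : ∀ a, ∀ y ∈ W a ∩ ⋃ i ∈ {i | 0 < k i}, S i, ∃ u, P u ∧ u a y ≠ 0) {u : ι → Y → ℂ}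
    (hu : P u) (a : ι) (y : Y) :
    ∃ u, P u ∧ (y ∈ W a → ∀ᶠ x in 𝓝 y, x ∈ (⋃ i ∈ {i | 0 < k i}, S i) → u a x ≠ 0) := by
  by_cases hy : y ∈ W a ∩ ⋃ i ∈ {i | 0 < k i}, S i
  · obtain ⟨u', h1, h2⟩ := hG a y hy
    exact ⟨u', h1, fun h => ((LFT.cont (hP _ h1 a y h)).eventually_ne h2).mono fun _ h _ => h⟩
  refine ⟨u, hu, fun h => ?_⟩
  obtain ⟨f, -, ⟨h1, -⟩, -⟩ := hR.form y
  have h2 : ∀ i, ∀ᶠ x in 𝓝 y, 0 < k i → f i x ≠ 0 := fun i =>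
    eventually_imp_distrib_left.2 fun hi => (LFT.cont (h1.self_of_nhds i).1).eventually_ne fun h0 =>
      hy ⟨h, mem_biUnion (s := {i | 0 < k i}) hi ((h1.self_of_nhds i).2.2 h0)⟩
  filter_upwards [h1, eventually_all.2 h2] with x h3 h4 h5
  obtain ⟨i, hi, h6⟩ := mem_iUnion₂.1 h5
  exact (h4 i hi ((h3 i).2.1 h6)).elim

omit [IsManifold 𝓘(ℂ, E n) ω Y] [DecidableEq I] in
theorem red (hν : ∀ i, 0 < k i → 0 < ν i) {f : Y → ℂ} {y : Y} (hy : y ∈ ⋃ i ∈ {i | 0 < k i}, S i)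
    (hu : ∃ h w, Eqs n S y h ∧ ∀ᶠ x in 𝓝 y, HolAt n 0 w x ∧ f x = w x * ∏ i, h i x ^ ν i) :
    f y = 0 := by
  obtain ⟨h, w, h1, h2⟩ := hu
  obtain ⟨i, hi, h3⟩ := mem_iUnion₂.1 hy
  rw [h2.self_of_nhds.2, Finset.prod_eq_zero (Finset.mem_univ i), mul_zero]
  rw [(h1.1.self_of_nhds i).2.1 h3, zero_pow (hν i hi).ne']

/-- A finite generating family that contains a given section, and its lifts. -/
theorem core (hR : LogRes n m S ex k l η W σ g) (hF : D.Fit S) (α : D.A → ι) {K : D.A → Set Y}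
    (hK : ∀ b, IsCompact (K b) ∧ K b ⊆ W (α b)) (hs : D.All fun b z => (D.e b).symm z ∈ K b)
    (hv : ∀ a, ∃ v : D.A → E n → ℂ, D.On (W a) fun d z =>
      HolN (v d) z ∧ v d z ≠ 0 ∧ D.rd (σ a) d z = v d z * xm (D.c d) (fun i => k i) z)
    {P : (ι → Y → ℂ) → Prop} (hP : ∀ u, P u → ∀ a, ∀ y ∈ W a, HolAt n 0 (u a) y)
    (hP' : ∀ u, P u → ∀ a a', ∀ y ∈ W a ∩ W a', ∃ h w, Eqs n S y h ∧ ∀ᶠ x in 𝓝 y,
      HolAt n 0 w x ∧ u a x - g a a' x * u a' x = w x * ∏ i, h i x ^ ν i)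
    (hG : ∀ a, ∀ y ∈ W a ∩ ⋃ i ∈ {i | 0 < k i}, S i, ∃ u, P u ∧ u a y ≠ 0) {u₀ : ι → Y → ℂ}
    (hu : P u₀) : ∃ (κ : Type) (_ : Fintype κ) (u : κ → ι → Y → ℂ) (j₀ : κ), u j₀ = u₀ ∧
      (∀ j b, D.On (W (α b)) fun d z =>
        PolH (D.c d) (fun i => k i) (D.rd (fun x => u j (α b) x / σ (α b) x) d) z) ∧
      (∀ j b b', D.On (W (α b) ∩ W (α b')) fun d z => PolH (D.c d) (fun i => k i - ν i)
        (D.rd ((fun x => u j (α b) x / σ (α b) x) - fun x => u j (α b') x / σ (α b') x) d) z) ∧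
      D.All fun b z => xm (D.c b) (fun i => k i) z = 0 → ∃ j s, HolN s z ∧ s z ≠ 0 ∧
        ∀ᶠ y in 𝓝 z, Off (D.c b) y → D.rd (fun x => u j (α b) x / σ (α b) x) b y =
          xm (D.c b) (-fun i => (k i : ℤ)) y * s y := by
  choose v hv using hv
  choose u h1 h2 using loc hR hP hG hu
  have h3 := fun b => (hK b).1.elim_nhds_subcover
    (fun y => {x | x ∈ (⋃ i ∈ {i | 0 < k i}, S i) → u (α b) y (α b) x ≠ 0})
    fun y hy => h2 (α b) y ((hK b).2 hy)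
  choose t _ ht using h3
  let u' : Option (Σ b, t b) → ι → Y → ℂ := fun o => o.elim u₀ fun p => u (α p.1) p.2.1
  have h4 : ∀ j, P (u' j) := fun j => by
    cases j
    exacts [hu, h1 _ _]
  have h5 : ∀ j a, D.On (W a) fun d z => HolN (fun y => D.rd (u' j a) d y / v a d y) z ∧
      ∀ᶠ y in 𝓝 z, Off (D.c d) y → D.rd (fun x => u' j a x / σ a x) d y =
        xm (D.c d) (-fun i => (k i : ℤ)) y * (D.rd (u' j a) d y / v a d y) := fun j a d z hz h =>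
    ⟨LFT.quo (LFT.holN (hR.opn a).1 (hP _ (h4 j) a) hz h) (hv a d z hz h).1 (hv a d z hz h).2.1,
      LFT.mer0 ((LFT.near (hR.opn a).1 hz h).mono fun y hy => (hv a d y hy.1 hy.2).2.2)⟩
  refine ⟨_, inferInstance, u', none, rfl, fun j b d z hz h => ⟨_, h5 j _ d z hz h⟩,
    fun j b b' => dif hR hF (hP' _ (h4 j) _ _) (hv _), fun b z hz h => ?_⟩
  obtain ⟨i, -, hi⟩ := Finset.prod_eq_zero_iff.1 h
  rw [zpow_natCast, pow_eq_zero_iff'] at hi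
  obtain ⟨y, hy, h6⟩ := mem_iUnion₂.1 (ht b (hs b z hz))
  have h7 := (hK b).2 (hs b z hz)
  obtain ⟨h8, h9⟩ := h5 (some ⟨b, y, hy⟩) _ b z hz h7
  exact ⟨_, _, h8, div_ne_zero (h6 (mem_biUnion (s := {i | 0 < k i}) (Nat.pos_of_ne_zero hi.2)
    ((hF b z hz i).2 hi.1))) (hv _ b z hz h7).2.1, h9⟩

end LFT2

end Pool.Agent.Lib.EX
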