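import Pool.Agent.Lib.EX.Blue

/-! The test fields of two charts differ by a field of lower weight. -/

open scoped Classical Topology ContDiff ComplexOrder Matrix
open Set MeasureTheory Complex Metric Filter

set_option linter.unusedSectionVars false

noncomputable section

namespace Pool.Agent.Lib.EX

open Pool.Agent.Lib.SV (E)
open Pool.Agent.Lib.HS32
open Pool.Agent.Lib.EXA (Val SmN emb)

namespace Q473

variable {n : ℕ} {M : Mf n} {ι : Type} [Fintype ι] [DecidableEq ι] {D : Ad M ι}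

theorem chain {a d : D.A} {x : M.X} (ha : x ∈ (D.e a).source) (hd : x ∈ (D.e d).source)
    {g : M.X → ℂ} (hg : DifferentiableAt ℝ (D.rd g a) (D.e a x)) (X : E n → E n) :
    app X (D.rd g d) (D.e d x) =
      ∑ j, (D.J a d x *ᵥ X (D.e d x)) j * dz j (D.rd g a) (D.e a x) := by
  obtain ⟨h1, -, -, h2, -⟩ := (mTR n M).2.1 _ (D.mem a) _ (D.mem d) x ha hd
  have e0 : (D.e a ∘ (D.e d).symm) (D.e d x) = D.e a x := congrArg _ ((D.e d).left_inv hd)
  have e1 : D.rd g d =ᶠ[𝓝 (D.e d x)] D.rd g a ∘ (D.e a ∘ (D.e d).symm) :=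
    h2.mono fun w hw => (congrArg g hw.2.2.2.2.1).symm
  have e2 := (mCHN n _ _ h1).2.2.2.2.2.2.2.2.2.1 (D.rd g a) (e0 ▸ hg)
  simp only [app, dz_congr e1, fun j => (e2 j).1, e0, Matrix.mulVec, dotProduct, Finset.mul_sum,
    Finset.sum_mul]
  rw [Finset.sum_comm]
  refine Finset.sum_congr rfl fun j _ => Finset.sum_congr rfl fun k _ => ?_
  show _ = jm _ _ j k * _ * _
  ring

theorem sm_of {f : E n → ℂ} {z : E n} (h : HolN f z) : SmN f z :=
  h.eventually_nhds.mono fun y hy => ((mHOL n f y).2.2 hy).1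

end Q473

open Q473

theorem bQ473 (hT : St_TRF) (hD : St_DIV) (hI : St_INC) (hM : St_MOD) : St_Q4 := by
  intro n M _ ι _ _ D κ _ L p V hV d z hz
  obtain ⟨t1, t2, t3, t4⟩ := hT n M ι D
  have mW := (hM n ι (D.c d) L.G L.r L.T p).2.2.1
  have hB : ∀ᶠ y in 𝓝 z, y ∈ B2 n := isOpen_ball.mem_nhds hz
  set g : D.A → M.X → ℂ := fun a x => (D.χ a x : ℂ) with hg
  have sg : ∀ a b, ∀ y ∈ B2 n, ContDiffAt ℝ ∞ (D.rd (g a) b) y := fun a b y hy =>
    cd_ofReal (D.sm a _ (D.mem b) y (by rw [D.tgt]; exact hy))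
  have key : ∀ a, Wt (D.c d) L.G L.T p (fun y => (D.e a).source.indicator
      (fun x => app (L.vh p V a) (D.rd (g a) a) (D.e a x)) ((D.e d).symm y) -
        app (L.vh p V d) (D.rd (g a) d) y) z := by
    intro a
    obtain ⟨x1, x2, -⟩ := t2 d z hz
    by_cases ha : (D.e d).symm z ∈ (D.e a).source
    · obtain ⟨u1, -, -, -, -, -, -, u2, -⟩ := t4 a d _ ha x1
      obtain ⟨h1, -, -, h2, -⟩ := (mTR n M).2.1 _ (D.mem a) _ (D.mem d) _ ha x1
      rw [x2] at u2 h1 h2
      have hA : ∀ᶠ y in 𝓝 (D.e a ((D.e d).symm z)), y ∈ B2 n := isOpen_ball.mem_nhds u1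
      set ν : Finset ι → Fin n → E n → ℂ := fun I j y => D.rd (D.kap L.G L.T I a d) d y *
        D.tr a d (fun t => V I a t j) y -
          ∑ k, jm (D.e a ∘ (D.e d).symm) y j k * V I d y k with hν
      have w1 : ∀ j, ∀ I ∈ L.T.powersetCard p, Wt (D.c d) L.G L.T p
          (fun y => xm (D.c d) (-L.G) y * (xs (D.c d) (L.T \ I) y * ν I j y)) z := by
        intro j I hI'
        have f := (hV I hI').toFld
        have k1 := (t1 fun i => -L.G i + if i ∈ L.T \ I then 1 else 0).hol a d _ ha x1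
        beta_reduce at k1
        rw [x2] at k1
        have k2 := (u2 fun t => V I a t j).2
          (hA.mono fun y hy => differentiableAt_pi.1 (f.hol a y hy) j)
        have k3 : ∀ k, HolN (fun y => jm (D.e a ∘ (D.e d).symm) y j k) z := fun k =>
          (((mHOL n _ z).2.2 (BCHN.hol_comp h1 j)).2.1 k).mp
            ((BCHN.jm_ev mHOL h1 j k).eventuallyEq_nhds.mono fun y e h =>
              h.congr_of_eventuallyEq e)
        have k4 : HolN (ν I j) z := by
          filter_upwards [k1, k2, eventually_all.2 k3, hB] with y a1 a2 a3 a4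
          exact (a1.mul a2).sub (DifferentiableAt.fun_sum fun k _ =>
            (a3 k).mul (differentiableAt_pi.1 (f.hol d y a4) k))
        obtain ⟨t, k5, k6⟩ := (hD n ι (D.c d) _ z (D.inj d) k4).1 I (by
          filter_upwards [h2] with y hy hs
          have e := congrFun (f.cmp a d _ hy.2.1 hy.2.2.1 (by rwa [hy.2.2.2.2.2.1])) j
          rw [hy.2.2.2.2.2.1, Ad.J, hy.2.2.2.2.2.2] at e
          exact sub_eq_zero.2 e.symm)
        exact ((hI n ι (D.c d) L.G L.r L.T p (ν I j) z).2.2.2.2.2.2.2.2.2.2.2.2.2.1 I hI'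
          ⟨t, fun i => sm_of (k5 i), k6.mono fun y hy _ => hy⟩).1
      refine mW.cong _ _ z (mW.sum _ Finset.univ _ z fun j _ => mW.mul _ _ z
        ((u2 (dz j (D.rd (g a) a))).1 (hA.mono fun y hy => cd_dz (sg a a y hy) j))
        (mW.sum _ _ _ z (w1 j))) ?_
      filter_upwards [h2] with y hy _
      obtain ⟨v1, -, -, -, -, v2, -⟩ := t4 a d _ hy.2.1 hy.2.2.1
      have c1 := chain hy.2.1 hy.2.2.1 (cd_diff (sg a a _ v1)) (L.vh p V d)
      rw [hy.2.2.2.2.2.1] at c1 v2
      rw [indicator_of_mem hy.2.1, c1, app, ← Finset.sum_sub_distrib, Finset.sum_apply]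
      refine Finset.sum_congr rfl fun j _ => ?_
      rw [Ad.J, hy.2.2.2.2.2.2, ← sub_mul, mul_comm, Pi.mul_apply, Finset.sum_apply]
      congr 1
      simp only [Lv.vh, hat, hν, Matrix.mulVec, dotProduct, Finset.mul_sum, mul_sub,
        Finset.sum_sub_distrib]
      rw [Finset.sum_comm]
      congr 1
      · refine Finset.sum_congr rfl fun I hI' => ?_
        rw [← mul_assoc, v2 _ _ _ (Finset.mem_powersetCard.1 hI').1]
        simp only [Ad.rd, Ad.tr]
        ring
      · refine Finset.sum_congr rfl fun I _ => Finset.sum_congr rfl fun k _ => by ring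
    · have h0 := t3 a d _ x1 ha
      rw [x2] at h0
      refine mW.cong _ _ z (mW.zero z) ?_
      filter_upwards [h0.eventually_nhds, hB] with y hy hy' _
      have e : D.rd (g a) d =ᶠ[𝓝 y] fun _ => 0 := hy.mono fun w hw => by
        simpa [Ad.rd, hg] using hw
      have e1 : ∀ j, dz j (D.rd (g a) d) y = 0 := fun j => by rw [dz_congr e, dz_const]
      obtain ⟨y1, y2, -⟩ := t2 d y hy'
      by_cases hy2 : (D.e d).symm y ∈ (D.e a).source
      · rw [indicator_of_mem hy2, chain y1 hy2 (cd_diff (by rw [y2]; exact sg a d y hy')), y2]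
        simp [app, e1]
      · simp [indicator_of_notMem hy2, app, e1]
  refine mW.cong _ _ z (mW.sum _ Finset.univ _ z fun a _ => key a) ?_
  filter_upwards [hB] with y hy _
  have e : ∑ a, app (L.vh p V d) (D.rd (g a) d) y = 0 := by
    simp only [app]
    rw [Finset.sum_comm]
    refine Finset.sum_eq_zero fun j _ => ?_
    rw [← Finset.mul_sum, ← dz_sum fun a _ => cd_diff (sg a d y hy)]
    simp only [Ad.rd, hg, ← ofReal_sum, D.sum, dz_const, mul_zero]
  rw [Finset.sum_apply, Finset.sum_sub_distrib, e, sub_zero]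
  rfl

end Pool.Agent.Lib.EX
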