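import Pool.Agent.Lib.EX.Blue
import Pool.Agent.Lib.EX.K62

/-! Row `THE`: from the output of the harmonic lemma to harmonic fields. -/

open scoped Classical Topology ContDiff ComplexOrder Matrix
open Set MeasureTheory Complex Metric Filter

noncomputable section

namespace Pool.Agent.Lib.EX

open Pool.Agent.Lib.SV (E nsq)
open Pool.Agent.Lib.HS32
open Pool.Agent.Lib.EXA (Val SmN emb)

namespace THE

open K62

variable {n : ℕ} {κ : Type} [Fintype κ] {u : E n → κ → ℂ} {w : E n → ℂ} {s μ : ℝ} {B : E n → ℝ}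
  {z : E n}

theorem log_b (hu : ∀ k, HolN (fun y => u y k) z) (h0 : 0 < nsq (u z)) (hw : HolN w z)
    (hw0 : w z ≠ 0) (hB : ∀ᶠ y in 𝓝 z, B y = nsq (u y) ^ (-s) * normSq (w y) ^ μ) :
    ∀ᶠ y in 𝓝 z, 0 < B y ∧
      Real.log (B y) = -s * Real.log (nsq (u y)) + μ * Real.log (normSq (w y)) := by
  filter_upwards [hB, (cd_nsq (hol_sm hu)).continuousAt.eventually (lt_mem_nhds h0),
    hw.self_of_nhds.continuousAt.eventually_ne hw0] with y e h1 h2
  have h3 := normSq_pos.2 h2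
  have h4 := Real.rpow_pos_of_pos h1 (-s)
  have h5 := Real.rpow_pos_of_pos h3 μ
  rw [e, Real.log_mul h4.ne' h5.ne', Real.log_rpow h1, Real.log_rpow h3]
  exact ⟨mul_pos h4 h5, rfl⟩

theorem log_bC (hu : ∀ k, HolN (fun y => u y k) z) (h0 : 0 < nsq (u z)) (hw : HolN w z)
    (hw0 : w z ≠ 0) (hB : ∀ᶠ y in 𝓝 z, B y = nsq (u y) ^ (-s) * normSq (w y) ^ μ) :
    (fun y => (Real.log (B y) : ℂ)) =ᶠ[𝓝 z] fun y => (-s : ℂ) * (Real.log (nsq (u y)) : ℂ) +
      (μ : ℂ) * (Real.log (normSq (w y)) : ℂ) :=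
  (log_b hu h0 hw hw0 hB).mono fun y h => by simp only [h.2]; push_cast; ring

/-- The Hessian of the logarithm of the weight. -/
theorem hess_b (hu : ∀ k, HolN (fun y => u y k) z) (h0 : 0 < nsq (u z)) (hw : HolN w z)
    (hw0 : w z ≠ 0) (hB : ∀ᶠ y in 𝓝 z, B y = nsq (u y) ^ (-s) * normSq (w y) ^ μ) :
    hess (fun y => (Real.log (B y) : ℂ)) z =
      (-s : ℂ) • hess (fun y => (Real.log (nsq (u y)) : ℂ)) z := by
  have h1 := cd_ofReal (cd_log (hol_sm hu) h0)
  obtain ⟨h2, h3, -⟩ := ((mHOL n w z).2.2 hw).2.2.2 hw0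
  have h4 := cd_ofReal h2
  rw [hess_congr (log_bC hu h0 hw hw0 hB), hess_add (contDiffAt_const.mul h1)
    (contDiffAt_const.mul h4), hess_const_mul _ h1, hess_const_mul _ h4, h3, smul_zero, add_zero]

/-- The derivative of the weight. -/
theorem dz_b (hu : ∀ k, HolN (fun y => u y k) z) (h0 : 0 < nsq (u z)) (hw : HolN w z)
    (hw0 : w z ≠ 0) (hB : ∀ᶠ y in 𝓝 z, B y = nsq (u y) ^ (-s) * normSq (w y) ^ μ) :
    DifferentiableAt ℝ (fun y => (B y : ℂ)) z ∧ ∀ j, dz j (fun y => (B y : ℂ)) z =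
      B z * (-s * (hp (u z) (fun k => dz j (fun y => u y k) z) / nsq (u z)) +
        μ * (dz j w z / w z)) := by
  have h1 := cd_log (hol_sm hu) h0
  obtain ⟨h2, -, h3⟩ := ((mHOL n w z).2.2 hw).2.2.2 hw0
  have hl := log_b hu h0 hw hw0 hB
  have h4 : DifferentiableAt ℝ (fun y => Real.log (B y)) z :=
    (((cd_diff h1).const_mul (-s)).add ((cd_diff h2).const_mul μ)).congr_of_eventuallyEq
      (hl.mono fun y h => h.2)
  have e : (fun y => (B y : ℂ)) =ᶠ[𝓝 z] fun y => (Real.exp (Real.log (B y)) : ℂ) :=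
    hl.mono fun y h => by simp only [Real.exp_log h.1]
  refine ⟨(ofRealCLM.differentiableAt.comp z h4.exp).congr_of_eventuallyEq e, fun j => ?_⟩
  have d1 := cd_diff (cd_ofReal h1)
  have d2 := cd_diff (cd_ofReal h2)
  rw [dz_congr e, dz_comp_real (Real.hasDerivAt_exp _) h4, Real.exp_log hl.self_of_nhds.1,
    dz_congr (log_bC hu h0 hw hw0 hB), dz_add (d1.const_mul _) (d2.const_mul _),
    dz_const_mul _ d1, dz_const_mul _ d2, h3,
    dz_log (fun k => cd_diff (hol_sm hu k)) h0, dz_nsq_hol fun k => (hu k).self_of_nhds]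

/-- The divergence with respect to a density. -/
theorem dvD_eq {d : E n → ℝ} {X : E n → E n} (hd : DifferentiableAt ℝ (fun y => (d y : ℂ)) z)
    (h0 : d z ≠ 0) (hX : DifferentiableAt ℝ X z) :
    dvD d X z = dv X z + app X (fun y => (d y : ℂ)) z / d z := by
  have h1 : (d z : ℂ) ≠ 0 := ofReal_ne_zero.2 h0
  have e : ∀ j, dz j (fun y => (d y : ℂ) * X y j) z =
      d z * dz j (fun y => X y j) z + X z j * dz j (fun y => (d y : ℂ)) z := fun j => by
    rw [dz_mul hd (differentiableAt_pi.1 hX j)]; ring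
  simp only [dvD, dv, app, e, Finset.sum_add_distrib, ← Finset.mul_sum]
  field_simp

theorem app_mul {f g : E n → ℂ} (X : E n → E n) (hf : DifferentiableAt ℝ f z)
    (hg : DifferentiableAt ℝ g z) :
    app X (fun y => f y * g y) z = app X f z * g z + f z * app X g z := by
  simp only [app, dz_mul hf hg, Finset.sum_mul, Finset.mul_sum, ← Finset.sum_add_distrib]
  exact Finset.sum_congr rfl fun j _ => by ring

variable {M : Mf n} {ι : Type} [Fintype ι] [DecidableEq ι] {D : Ad M ι}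

/-- On the stratum the weight is given by the holomorphic numerators. -/
theorem b_eq [M.Cpt] (hUT : St_UT) (L : Lv D κ) {I : Finset ι} (hI : I ⊆ L.T)
    (h : I.Nonempty ∨ L.s = 0) (d : D.A) {y : E n} (hy : y ∈ B2 n) (hs : Sl (D.c d) I y) :
    L.b d y = nsq (fun l => L.U l d y) ^ (-L.s) * normSq (L.w d y) ^ (1 / L.m : ℝ) := by
  rw [Lv.b]
  congr 1
  rcases h with ⟨i, hi⟩ | h
  · have e : xm (D.c d) (sp L.a) y = 0 :=
      Finset.prod_eq_zero (Finset.mem_univ i) (by
        rw [hs i hi, sp, if_neg (L.rT i (hI hi)).2, zpow_one])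
    congr 1
    refine Finset.sum_congr rfl fun l _ => ?_
    obtain ⟨t, -, ht⟩ := ((hUT n M ι D κ L).1 d y hy).2.2.2.2.2.2.1 l
    rw [ht.self_of_nhds, e, zero_mul, add_zero]
  · rw [h, neg_zero, Real.rpow_zero, Real.rpow_zero]

end THE

open THE K62 in
theorem bTHE (hUT : St_UT) (hM : St_MON) : St_THE := by
  intro n M _ ι _ _ D κ _ L I V hI h hF hH
  have key : ∀ d, ∀ z ∈ B2 n, Sl (D.c d) I z →
      (∀ k, HolN (fun y => L.U k d (prj (D.c d) I y)) z) ∧
      0 < nsq (fun l => L.U l d (prj (D.c d) I z)) ∧ HolN (fun y => L.w d (prj (D.c d) I y)) z ∧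
      L.w d (prj (D.c d) I z) ≠ 0 ∧
      (∀ᶠ y in 𝓝 z, L.b d (prj (D.c d) I y) = nsq (fun l => L.U l d (prj (D.c d) I y)) ^ (-L.s) *
        normSq (L.w d (prj (D.c d) I y)) ^ (1 / L.m : ℝ)) ∧ prj (D.c d) I z = z ∧
      ∀ f : E n → ℂ, DifferentiableAt ℂ f z →
        ∑ j, dz j (fun y => f (prj (D.c d) I y)) z * V d z j = app (V d) f z := by
    intro d z hz hs
    obtain ⟨-, -, -, -, -, -, -, -, -, -, hP, hD, -⟩ := hM n ι (D.c d)
    have hz' := (hP I z).2.2.2.1 hs
    have hb : ∀ᶠ y in 𝓝 z, prj (D.c d) I y ∈ B2 n :=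
      Eventually.mono (isOpen_ball.mem_nhds hz) fun y hy =>
        mem_ball_zero_iff.2 ((hP I y).1.trans_lt (mem_ball_zero_iff.1 hy))
    have hh : ∀ f : E n → ℂ, (∀ y ∈ B2 n, DifferentiableAt ℂ f y) →
        HolN (fun y => f (prj (D.c d) I y)) z := fun f hf =>
      hb.mono fun y hy => (hf _ hy).comp y (hP I y).2.2.1.self_of_nhds
    refine ⟨fun k => hh _ (L.Uhol k d), ?_, hh _ (L.whol d), ?_, hb.mono fun y hy =>
      b_eq hUT L hI h d hy ((hP I y).2.2.2.2.1 ((hP I z).2.2.2.2.2 hs)), hz', fun f hf => ?_⟩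
    · rw [hz']; exact (nsq_pos_iff _).2 (L.gen d z hz)
    · rw [hz']; exact L.wne d z hz
    · refine Finset.sum_congr rfl fun j _ => ?_
      rw [(hD I f z j (by rw [hz']; exact hf.restrictScalars ℝ)).1, hz']
      split_ifs with hj
      · rw [hF.nm d z hz j hj, mul_zero, zero_mul]
      · exact mul_comm _ _
  refine ⟨hF, fun d z hz hs l l' => ?_, fun d z hz hs h0 => ?_⟩
  · obtain ⟨hu, hp0, hw, hw0, hB, hz', ha⟩ := key d z hz hs
    by_cases hs0 : L.s = 0
    · rw [hs0, ofReal_zero, zero_mul]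
    have h1 := (hH d z hz hs).1
    rw [hess_b (u := fun y k => L.U k d (prj (D.c d) I y)) hu hp0 hw hw0 hB, Matrix.smul_mulVec,
      smul_eq_zero] at h1
    have h2 := par_of_mulVec (u := fun y k => L.U k d (prj (D.c d) I y)) hu hp0
      (h1.resolve_left (neg_ne_zero.2 (ofReal_ne_zero.2 hs0))) l' l
    simp only [du, ha _ (L.Uhol _ d z hz), hz'] at h2
    rw [h2, sub_self, mul_zero]
  · obtain ⟨hu, hp0, hw, hw0, hB, hz', ha⟩ := key d z hz hs
    have h1 := (hH d z hz hs).2 h0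
    obtain ⟨hd, hdz⟩ := dz_b (u := fun y k => L.U k d (prj (D.c d) I y)) hu hp0 hw hw0 hB
    have hb0 := (log_b (u := fun y k => L.U k d (prj (D.c d) I y)) hu hp0 hw hw0 hB).self_of_nhds.1
    set c' : ι → Option (Fin n) := fun i => if i ∈ I then none else D.c d i with hc'
    have hr : ∀ i ∈ I, L.r i = 0 := fun i hi => (L.rT i (hI hi)).1
    have e1 : xr (D.c d) L.r = xr c' L.r := by
      funext y
      refine Finset.prod_congr rfl fun i _ => ?_
      by_cases hi : i ∈ I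
      · rw [hr i hi, Real.rpow_zero, Real.rpow_zero]
      · simp only [xi, hc', if_neg hi]
    have ho : Off c' z := fun i => by
      by_cases hi : i ∈ I
      · simp [xi, hc', hi]
      · simpa only [xi, hc', if_neg hi] using h0 i hi
    have hj : Inj c' := fun i i' j a b => by
      by_cases hi : i ∈ I
      · simp [hc', hi] at a
      by_cases hi' : i' ∈ I
      · simp [hc', hi'] at b
      simp only [hc', if_neg hi, if_neg hi'] at a b
      exact D.inj d i i' j a b
    obtain ⟨-, -, -, -, -, -, -, hx, -, -, -, -, -, hA⟩ := hM n ι c'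
    have h2 := (hA hj).2.2.2.1 (V d) L.r z ho
    have h3 : ∑ i, (L.r i : ℂ) * (c' i).elim 0 (V d z) / xi c' i z =
        ∑ i, (L.r i : ℂ) * (D.c d i).elim 0 (V d z) / xi (D.c d) i z := by
      refine Finset.sum_congr rfl fun i _ => ?_
      by_cases hi : i ∈ I
      · simp [hr i hi]
      · simp only [xi, hc', if_neg hi]
    obtain ⟨hx1, hx2⟩ := hx L.r z ho
    have hx3 := cd_diff (cd_ofReal hx1.self_of_nhds)
    have h4 : app (V d) (fun y => (L.b d (prj (D.c d) I y) : ℂ)) z = L.b d (prj (D.c d) I z) *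
        (-L.s * ((∑ l, app (V d) (L.U l d) z * star (L.U l d z)) / (∑ l, normSq (L.U l d z) : ℝ)) +
          (1 / L.m : ℝ) * (app (V d) (L.w d) z / L.w d z)) := by
      have e2 := hp_du (u := fun y k => L.U k d (prj (D.c d) I y)) (z := z)
        (fun k => L.U k d (prj (D.c d) I z)) (V d z)
      have e3 : ∑ l, app (V d) (L.U l d) z * star (L.U l d z) =
          hp (fun k => L.U k d (prj (D.c d) I z))
            (du (fun y k => L.U k d (prj (D.c d) I y)) z (V d z)) := by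
        simp only [hp, du, ha _ (L.Uhol _ d z hz), hz']
        exact Finset.sum_congr rfl fun l _ => mul_comm _ _
      rw [e3, e2, ← ha _ (L.whol d z hz), app]
      simp only [hdz, Finset.sum_div, Finset.mul_sum, ← Finset.sum_add_distrib, nsq, hz']
      exact Finset.sum_congr rfl fun j _ => by ring
    rw [e1, dvD_eq (by simp only [ofReal_mul]; exact hd.mul hx3) (mul_pos hb0 hx2).ne'
      ((hF.hol d z hz).restrictScalars ℝ)] at h1
    simp only [ofReal_mul] at h1
    rw [app_mul _ hd hx3, h2, h3, h4] at h1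
    have h5 : (L.b d (prj (D.c d) I z) : ℂ) ≠ 0 := ofReal_ne_zero.2 hb0.ne'
    have h6 : (xr c' L.r z : ℂ) ≠ 0 := ofReal_ne_zero.2 hx2.ne'
    have h7 : ∀ A X Y W : ℂ, A ≠ 0 → W ≠ 0 →
        (A * X * W + A * (W * Y)) / (A * W) = X + Y := fun A X Y W a b => by field_simp
    rw [h7 _ _ _ _ h5 h6] at h1
    refine Eq.trans ?_ h1
    push_cast
    ring

end Pool.Agent.Lib.EX
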