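import Pool.Agent.Lib.EX.Blue

/-! Project ex41: the smooth lifts. -/

open scoped Classical Topology ContDiff ComplexOrder Matrix
open Set MeasureTheory Complex Metric Filter

noncomputable section

namespace Pool.Agent.Lib.EX

open Pool.Agent.Lib.SV (E)
open Pool.Agent.Lib.HS32
open Pool.Agent.Lib.EXA (SmN)

namespace UT86

variable {n : ℕ} {M : Mf n} [M.Cpt] {ι : Type} [Fintype ι] [DecidableEq ι] {D : Ad M ι}
  {κ : Type} [Fintype κ] (L : Lv D κ)

theorem smN_hol {f : E n → ℂ} {z : E n} (h : HolN f z) : SmN f z :=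
  h.eventually_nhds.mono fun _ hy => BHOL.smooth hy

omit [M.Cpt] [Fintype κ] in
theorem uhol (l : κ) (d : D.A) {z : E n} (hz : z ∈ B2 n) : HolN (L.U l d) z :=
  (isOpen_ball.eventually_mem hz).mono fun _ hy => L.Uhol l d _ hy

omit [Fintype κ] in
theorem sm (hT : St_TRF) (l : κ) : D.All fun d z => ContDiffAt ℝ ∞ (L.ut l d) z := fun d z hz => by
  obtain ⟨t1, t2, t3, t4⟩ := hT n M ι D
  obtain ⟨h1, h2, -⟩ := t2 d z hz
  refine ContDiffAt.sum (f := fun a y => ((D.rd (D.χ a) d y : ℝ) : ℂ) * (D.tr a d (L.U l a) y *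
    D.rd (D.um (-fun i => (L.a i : ℤ)) a d) d y)) fun a _ => ?_
  by_cases h : (D.e d).symm z ∈ (D.e a).source
  · obtain ⟨k1, k2, -, -, -, -, -, k3, -⟩ := t4 a d _ h h1
    have k4 := (t1 (-fun i => (L.a i : ℤ))).hol a d _ h h1
    have k5 := (k3 _).2 (uhol L l a k1)
    rw [h2] at k2 k4 k5
    exact (cd_ofReal k2).mul ((BHOL.smooth k5).mul (BHOL.smooth k4))
  · have k := t3 a d _ h1 h
    rw [h2] at k
    exact (contDiffAt_const (c := 0)).congr_of_eventuallyEq (k.mono fun y hy => by simp [hy])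

omit [Fintype κ] in
theorem avg_eq (hT : St_TRF) (l : κ) : D.All fun d z => D.rd (D.avg (L.f l)) d z =
    xm (D.c d) (-fun i => (L.a i : ℤ)) z * L.ut l d z := fun d z hz => by
  obtain ⟨-, t2, -, t4⟩ := hT n M ι D
  obtain ⟨h1, h2, -⟩ := t2 d z hz
  simp only [Ad.rd, Ad.avg, Lv.ut, Lv.f, Finset.mul_sum]
  refine Finset.sum_congr rfl fun a _ => ?_
  by_cases h : D.χ a ((D.e d).symm z) = 0
  · simp [h]
  · rw [(t4 a d _ (D.supp a _ h).1 h1).2.2.2.2.1, h2]; ring

omit [M.Cpt] [DecidableEq ι] in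
theorem um_inv (K : ι → ℤ) : D.Ov fun a b x => D.um K a b x * D.um (-K) a b x = 1 :=
  fun a b x h h' => by
    beta_reduce
    rw [Ad.um, Ad.um, ← Finset.prod_mul_distrib]
    exact Finset.prod_eq_one fun i _ => by
      rw [Pi.neg_apply, ← zpow_add₀ (D.une a b i x h h'), add_neg_cancel, zpow_zero]

omit [Fintype κ] in
theorem one (hT : St_TRF) : D.All fun d z => L.ut L.k0 d z = xm (D.c d) (fun i => L.a i) z :=
  fun d z hz => by
  obtain ⟨-, t2, -, t4⟩ := hT n M ι D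
  obtain ⟨h1, h2, -⟩ := t2 d z hz
  rw [← one_mul (xm _ _ z), ← ofReal_one, ← D.sum ((D.e d).symm z), ofReal_sum, Finset.sum_mul]
  refine Finset.sum_congr rfl fun a _ => ?_
  by_cases h : D.χ a ((D.e d).symm z) = 0
  · simp [h]
  · rw [L.one, (t4 a d _ (D.supp a _ h).1 h1).2.2.2.2.1, h2, mul_right_comm,
      um_inv _ a d _ (D.supp a _ h).1 h1, one_mul]

omit [Fintype κ] in
theorem near (hT : St_TRF) (hM : St_MON) (hI : St_INC) (hO : St_MOD) (hA : St_AVG) (l : κ) :
    D.All fun d z => ∃ t, SmN t z ∧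
      ∀ᶠ y in 𝓝 z, L.ut l d y = L.U l d y + xm (D.c d) (sp L.a) y * t y := fun d z hz => by
  obtain ⟨m1, m2, -, -, -, -, m3, -, m4, -⟩ := hM n ι (D.c d)
  obtain ⟨t, h1, h2⟩ := (hA n M ι D (fun b => Pol (D.c b) fun i => L.a i - sp L.a i) (L.f l)
    fun b => (hO n ι _ _ 0 ∅ 0).1).1 (fun a b x h h' =>
      (hI n ι _ _ 0 ∅ 0 _ _).1 (L.difS l a b x h h')) d z hz
  refine ⟨t, h1, ?_⟩
  have hs : ∀ y, HolN (xm (D.c d) (sp L.a)) y := fun y => by
    convert m3 (fun i => if L.a i = 0 then 0 else 1) y using 2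
    funext i
    simp [sp]
  filter_upwards [h2.eventually_nhds, h1, isOpen_ball.eventually_mem hz,
    (isOpen_ball.eventually_mem hz).eventually_nhds] with y k1 k2 k3 k4
  refine tendsto_nhds_unique_of_frequently_eq (l := 𝓝 y) (sm L hT l d y k3).continuousAt
    ((L.Uhol l d y k3).continuousAt.add ((hs y).self_of_nhds.continuousAt.mul k2.continuousAt)) ?_
  refine ((mem_closure_iff_frequently.1 (m2 y)).and_eventually (k1.and k4)).mono fun w hw => ?_
  have e1 := hw.2.1 hw.1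
  obtain ⟨e2, e3, -⟩ := m4 (-fun i => (L.a i : ℤ)) (sp L.a) w hw.1
  rw [Pi.sub_apply, avg_eq L hT l d w hw.2.2, Lv.f, show (-fun i => (L.a i : ℤ) - sp L.a i) =
    (-fun i => (L.a i : ℤ)) + sp L.a from funext fun i => by simp; ring, e2] at e1
  exact mul_left_cancel₀ e3 (by simp only [Pi.add_apply, Pi.mul_apply]; linear_combination e1)

theorem pos (hT : St_TRF) (hM : St_MON) (hI : St_INC) (hO : St_MOD) (hA : St_AVG) :
    D.All fun d z => 0 < L.nn d z := fun d z hz => by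
  have key : ∀ l, L.ut l d z ≠ 0 → 0 < L.nn d z := fun l h =>
    Finset.sum_pos' (fun _ _ => normSq_nonneg _) ⟨l, Finset.mem_univ l, normSq_pos.2 h⟩
  by_cases h : L.ut L.k0 d z = 0
  · obtain ⟨l, hl⟩ := L.gen d z hz
    obtain ⟨t, -, h1⟩ := near L hT hM hI hO hA l d z hz
    rw [one L hT d z hz, xm, Finset.prod_eq_zero_iff] at h
    obtain ⟨i, -, hi⟩ := h
    rw [zpow_natCast, pow_eq_zero_iff'] at hi
    have h2 : xm (D.c d) (sp L.a) z = 0 :=
      Finset.prod_eq_zero (Finset.mem_univ i) (by simp [sp, hi.1, hi.2])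
    exact key l (by rwa [h1.self_of_nhds, h2, zero_mul, add_zero])
  · exact key _ h

omit [Fintype κ] in
theorem cmp (hT : St_TRF) (l : κ) : D.Ov fun a d x => L.ut l d (D.e d x) =
    L.ut l a (D.e a x) * D.um (-fun i => (L.a i : ℤ)) a d x := fun a d x h h' => by
  simp only [Ad.rd, Lv.ut, Finset.sum_mul, (D.e a).left_inv h, (D.e d).left_inv h']
  refine Finset.sum_congr rfl fun b _ => ?_
  by_cases k : D.χ b x = 0
  · simp [k]
  · rw [((hT n M ι D).1 _).mul b a x (D.supp b x k).1 h d h']; ring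

theorem nn_cmp (hT : St_TRF) : D.Ov fun a d x => L.nn d (D.e d x) =
    L.nn a (D.e a x) * normSq (D.um (-fun i => (L.a i : ℤ)) a d x) := fun a d x h h' => by
  simp only [Lv.nn, cmp L hT _ a d x h h', map_mul, Finset.sum_mul]

omit [M.Cpt] [DecidableEq ι] in
theorem nsq_um (K : ι → ℤ) (t : ℝ) (a d : D.A) (x : M.X) :
    normSq (D.um K a d x) ^ t = ∏ i, normSq (D.u a d i x) ^ (K i * t) := by
  rw [Ad.um, map_prod, ← Real.finsetProd_rpow _ _ fun _ _ => normSq_nonneg _]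
  exact Finset.prod_congr rfl fun i _ => by
    rw [map_zpow₀, Real.rpow_mul (normSq_nonneg _), Real.rpow_intCast]

theorem b_cmp (hT : St_TRF) : D.Ov fun a d x => L.b d (D.e d x) = L.b a (D.e a x) *
    (∏ i, normSq (D.u a d i x) ^ (L.r i + L.G i - if i ∈ L.T then 1 else 0)) *
      normSq (D.J a d x).det := fun a d x h h' => by
  have h0 : 0 ≤ L.nn a (D.e a x) := Finset.sum_nonneg fun _ _ => normSq_nonneg _
  have h1 : (L.m : ℝ) ≠ 0 := Nat.cast_ne_zero.2 L.m0.ne'
  have h2 : ∏ i, normSq (D.u a d i x) ^ (L.r i + L.G i - if i ∈ L.T then 1 else 0) =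
      normSq (D.um (-fun i => (L.a i : ℤ)) a d x) ^ (-L.s) *
        normSq (D.um L.k a d x) ^ (1 / L.m : ℝ) := by
    rw [nsq_um, nsq_um, ← Finset.prod_mul_distrib]
    refine Finset.prod_congr rfl fun i _ => ?_
    rw [← Real.rpow_add (normSq_pos.2 (D.une a d i x h h')), ← L.rel i]
    congr 1
    simp only [Pi.neg_apply]
    push_cast
    ring
  beta_reduce
  rw [h2, Lv.b, Lv.b, nn_cmp L hT a d x h h', L.wcmp a d x h h', map_mul, map_mul, map_pow,
    Real.mul_rpow h0 (normSq_nonneg _), Real.mul_rpow (mul_nonneg (normSq_nonneg _)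
      (normSq_nonneg _)) (pow_nonneg (normSq_nonneg _) _),
    Real.mul_rpow (normSq_nonneg _) (normSq_nonneg _), one_div,
    Real.pow_rpow_inv_natCast (normSq_nonneg _) L.m0.ne']
  ring

theorem dd_cmp (hT : St_TRF) : D.Ov fun a d x =>
    L.dd d (D.e d x) = L.dd a (D.e a x) * normSq (D.J a d x).det := fun a d x h h' => by
  have p := fun i => normSq_pos.2 (D.une a d i x h h')
  have h1 : ∏ i, normSq (D.u a d i x) ^ (L.r i + L.G i - if i ∈ L.T then 1 else 0) =
      (∏ i, normSq (D.u a d i x) ^ L.r i) * normSq (D.um L.G a d x) /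
        ∏ i ∈ L.T, normSq (D.u a d i x) := by
    rw [Ad.um, map_prod, ← Finset.prod_mul_distrib, ← Finset.prod_ite_mem_eq L.T,
      ← Finset.prod_div_distrib]
    refine Finset.prod_congr rfl fun i _ => ?_
    rw [Real.rpow_sub (p i), Real.rpow_add (p i), map_zpow₀, Real.rpow_intCast]
    split_ifs <;> simp
  have h2 : xr (D.c a) L.r (D.e a x) =
      (∏ i, normSq (D.u a d i x) ^ L.r i) * xr (D.c d) L.r (D.e d x) := by
    rw [xr, xr, ← Finset.prod_mul_distrib]
    exact Finset.prod_congr rfl fun i _ => by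
      rw [D.urel a d i x h h', map_mul, Real.mul_rpow (normSq_nonneg _) (normSq_nonneg _)]
  have h3 : normSq (xs (D.c a) L.T (D.e a x)) =
      (∏ i ∈ L.T, normSq (D.u a d i x)) * normSq (xs (D.c d) L.T (D.e d x)) := by
    rw [xs, xs, map_prod, map_prod, ← Finset.prod_mul_distrib]
    exact Finset.prod_congr rfl fun i _ => by rw [D.urel a d i x h h', map_mul]
  beta_reduce
  rw [Lv.dd, Lv.dd, den, den, b_cmp L hT a d x h h', h1, h2, h3,
    ((hT n M ι D).2.2.2 a d x h h').2.2.2.2.1 L.G, map_mul, ← div_div]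
  ring

end UT86

open UT86

theorem bUT86 (hT : St_TRF) (hM : St_MON) (hI : St_INC) (hO : St_MOD) (hA : St_AVG) : St_UT := by
  intro n M _ ι _ _ D κ _ L
  refine ⟨fun d z hz => ?_, fun a d x h h' => ⟨fun l => cmp L hT l a d x h h', fun l l' => ?_,
    b_cmp L hT a d x h h', dd_cmp L hT a d x h h'⟩⟩
  · have ev := isOpen_ball.eventually_mem hz
    have s1 := fun l => sm L hT l d
    have p := pos L hT hM hI hO hA d
    have s2 : ∀ y ∈ B2 n, ContDiffAt ℝ ∞ (L.nn d) y := fun y hy =>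
      ContDiffAt.sum fun l _ => Mf.cd_normSq (s1 l y hy)
    have s3 : ∀ y ∈ B2 n, ContDiffAt ℝ ∞ (fun y => ((L.nn d y : ℝ) : ℂ)⁻¹) y := fun y hy =>
      (cd_ofReal (s2 y hy)).inv (ofReal_ne_zero.2 (p y hy).ne')
    have w0 := normSq_pos.2 (L.wne d z hz)
    have mo := (hO n ι (D.c d) (-sp L.a) 0 ∅ 0).1
    have q : ∀ j l, Pol (D.c d) (-sp L.a) (dzb j (L.ut l d)) z := fun j l => by
      obtain ⟨t, h1, h2⟩ := near L hT hM hI hO hA l d z hz
      refine ⟨dzb j t, h1.mono fun y hy => cd_dzb hy j, ?_⟩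
      filter_upwards [h1, h2.eventually_nhds, ev] with y k1 k2 k3 k4
      have k5 := ((hM n ι (D.c d)).2.2.2.2.2.1 (sp L.a) y k4).self_of_nhds
      rw [dzb_congr k2, dzb_add ((L.Uhol l d y k3).restrictScalars ℝ)
        ((k5.restrictScalars ℝ).fun_mul (cd_diff k1)), dzb_mul (k5.restrictScalars ℝ) (cd_diff k1),
        BHOL.dzb_zero (L.Uhol l d y k3), BHOL.dzb_zero k5, neg_neg]
      ring
    refine ⟨fun l => s1 l z hz, p z hz, s2 z hz,
      ((s2 z hz).rpow_const_of_ne (p z hz).ne').mul ((Mf.cd_normSq (BHOL.smooth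
        (ev.mono fun y hy => L.whol d y hy))).rpow_const_of_ne w0.ne'),
      mul_pos (Real.rpow_pos_of_pos (p z hz) _) (Real.rpow_pos_of_pos w0 _),
      fun l l' => ((s1 l z hz).mul (cd_star (s1 l' z hz))).mul (s3 z hz),
      fun l => near L hT hM hI hO hA l d z hz, fun l _ => avg_eq L hT l d z hz,
      fun l => ⟨_, uhol L l d hz, Eventually.of_forall fun _ _ => rfl⟩,
      fun l => ⟨_, ev.mono (s1 l), ev.mono fun y hy _ => avg_eq L hT l d y hy⟩,
      fun j => ⟨mo.cong _ _ _ (mo.sum κ Finset.univ _ z fun l _ => mo.mul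
        (fun y => star (L.ut l d y) * ((L.nn d y : ℝ) : ℂ)⁻¹) _ z
        (ev.mono fun y hy => (cd_star (s1 l y hy)).mul (s3 y hy)) (q j l))
        (Eventually.of_forall fun y _ => ?_), q j⟩⟩
    simp only [Lv.eta, Finset.sum_apply, Pi.mul_apply, div_eq_mul_inv, Finset.sum_mul]
    exact Finset.sum_congr rfl fun l _ => by ring
  · have h0 := ((hT n M ι D).1 (-fun i => (L.a i : ℤ))).ne a d x h h'
    have h1 : star (D.um (-fun i => (L.a i : ℤ)) a d x) ≠ 0 := star_ne_zero.2 h0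
    rw [Lv.cc, Lv.cc, cmp L hT l a d x h h', cmp L hT l' a d x h h', nn_cmp L hT a d x h h',
      ofReal_mul, ← mul_conj, star_mul', ← star_def, mul_mul_mul_comm,
      mul_div_mul_right _ _ (mul_ne_zero h0 h1)]

end Pool.Agent.Lib.EX
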