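import Pool.Agent.Lib.EX.Blue
import Pool.Agent.Lib.EX.K62B

/-! Project ex41: a harmonic field modulo the ideal of its stratum. -/

open scoped Classical Topology ContDiff ComplexOrder Matrix
open Set MeasureTheory Complex Metric Filter

set_option linter.unusedVariables false
set_option linter.unusedSectionVars false

noncomputable section

namespace Pool.Agent.Lib.EX

open Pool.Agent.Lib.SV (E)
open Pool.Agent.Lib.HS32
open Pool.Agent.Lib.EXA (Val SmN emb)
open K62 (smN_const smN_mul smN_add smN_sub smN_dz smN_sum smN_hol holN_mul holN_add holN_sub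
  holN_const holN_sum holN_dz holN_inv)

namespace VU

variable {n : ℕ} {ι : Type} [Fintype ι] [DecidableEq ι] {c : ι → Option (Fin n)} {I : Finset ι}
  {z : E n} {F F' g : E n → ℂ} {X : E n → E n}

theorem idl_xi {i : ι} (hi : i ∈ I) (hg : SmN g z) : Idl c I (fun y => xi c i y * g y) z := by
  refine ⟨fun k => if k = i then g else fun _ => 0, fun k => ?_,
    Eventually.of_forall fun y _ => ?_⟩
  · beta_reduce
    split_ifs
    exacts [hg, smN_const 0]
  · rw [Finset.sum_eq_single_of_mem i hi fun k _ hk => by simp [hk]]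
    simp

theorem idl_cong (h : Idl c I F z) (e : ∀ᶠ y in 𝓝 z, Off c y → F' y = F y) : Idl c I F' z := by
  obtain ⟨t, h1, h2⟩ := h
  exact ⟨t, h1, (e.and h2).mono fun y a hy => (a.1 hy).trans (a.2 hy)⟩

theorem idl_add (h : Idl c I F z) (h' : Idl c I F' z) : Idl c I (fun y => F y + F' y) z := by
  obtain ⟨t, h1, h2⟩ := h
  obtain ⟨t', h1', h2'⟩ := h'
  refine ⟨fun i y => t i y + t' i y, fun i => smN_add (h1 i) (h1' i),
    (h2.and h2').mono fun y a hy => ?_⟩
  simp only [a.1 hy, a.2 hy, mul_add, Finset.sum_add_distrib]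

theorem idl_hol (hDIV : St_DIV) (hc : Inj c) (hf : HolN F z)
    (h0 : ∀ᶠ y in 𝓝 z, Sl c I y → F y = 0) : Idl c I F z := by
  obtain ⟨t, h1, h2⟩ := (hDIV n ι c F z hc hf).1 I h0
  exact ⟨t, fun i => smN_hol (h1 i), h2.mono fun y a _ => a⟩

theorem hol_comp (hX : HolN X z) (j : Fin n) : HolN (fun y => X y j) z :=
  hX.mono fun y h => differentiableAt_pi.1 h j

theorem hol_app (hX : HolN X z) (hF : HolN F z) : HolN (app X F) z :=
  holN_sum fun j _ => holN_mul (hol_comp hX j) (holN_dz hF j)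

theorem sm_app (hX : HolN X z) (hF : SmN F z) : SmN (app X F) z :=
  smN_sum fun j _ => smN_mul (smN_hol (hol_comp hX j)) (smN_dz hF j)

theorem hol_dv (hX : HolN X z) : HolN (dv X) z :=
  holN_sum fun j _ => holN_dz (hol_comp hX j) j

theorem hol_elim (hX : HolN X z) (o : Option (Fin n)) : HolN (fun y => o.elim 0 (X y)) z := by
  cases o with
  | none => exact holN_const 0
  | some j => exact hol_comp hX j

theorem hol_ball {β : Type} [NormedAddCommGroup β] [NormedSpace ℂ β] {f : E n → β}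
    (h : ∀ z ∈ B2 n, DifferentiableAt ℂ f z) (hz : z ∈ B2 n) : HolN f z :=
  Filter.mem_of_superset (isOpen_ball.mem_nhds hz) h

/-- The derivative along a field that is tangent to the component `i`. -/
theorem app_xi {i : ι} (hi : i ∈ I) (hX : ∀ j, Nm c I j → X z j = 0) {U u : E n → ℂ}
    (hx : DifferentiableAt ℝ (xi c i) z) (hd : ∀ j, dz j (xi c i) z = if c i = some j then 1 else 0)
    (hU : DifferentiableAt ℝ U z) (hg : DifferentiableAt ℝ g z)
    (e : u =ᶠ[𝓝 z] fun y => U y + xi c i y * g y) :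
    app X u z = app X U z + xi c i z * app X g z := by
  simp only [app, Finset.mul_sum, ← Finset.sum_add_distrib]
  refine Finset.sum_congr rfl fun j _ => ?_
  rw [dz_congr e, dz_add hU (hx.fun_mul hg), dz_mul hx hg, hd]
  split_ifs with h
  · rw [hX j ⟨i, hi, h⟩]; ring
  · ring

/-- The numerator of the logarithmic derivative. -/
theorem num (r : ι → ℝ) (A : ℂ) (a : ι → ℂ) (hz : ∀ i ∈ fr r, xi c i z ≠ 0) :
    xs c (fr r) z * (A + ∑ i, r i * a i / xi c i z) =
      xs c (fr r) z * A + ∑ i ∈ fr r, r i * a i * xs c ((fr r).erase i) z := by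
  rw [mul_add, ← Finset.sum_subset (Finset.subset_univ (fr r)), Finset.mul_sum]
  · congr 1
    refine Finset.sum_congr rfl fun i hi => ?_
    have := hz i hi
    rw [xs, xs, ← Finset.mul_prod_erase _ _ hi]
    field_simp
  · intro i _ hi
    have : r i = 0 := by simpa [fr] using hi
    simp [this]

theorem quot {κ : Type} [Fintype κ] (s : ℂ) (U A : κ → ℂ) (l0 : κ) (h0 : U l0 ≠ 0)
    (h : ∀ l l', s * (U l' * A l - U l * A l') = 0) :
    (∀ l, s * (A l - A l0 * (U l0)⁻¹ * U l) = 0) ∧
      s * (∑ l, A l * star (U l)) / (∑ l, normSq (U l) : ℝ) = s * (A l0 * (U l0)⁻¹) := by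
  have e : ∀ l, s * (A l - A l0 * (U l0)⁻¹ * U l) = 0 := fun l => by
    have := h l l0
    field_simp
    linear_combination this
  refine ⟨e, ?_⟩
  have hp : (0 : ℝ) < ∑ l, normSq (U l) :=
    Finset.sum_pos' (fun l _ => normSq_nonneg _) ⟨l0, Finset.mem_univ _, normSq_pos.2 h0⟩
  rw [div_eq_iff (by exact_mod_cast hp.ne'), Finset.mul_sum, ofReal_sum, Finset.mul_sum]
  refine Finset.sum_congr rfl fun l _ => ?_
  rw [normSq_eq_conj_mul_self, ← star_def]
  linear_combination star (U l) * e l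

end VU

open VU

theorem bVU (hMON : St_MON) (hDIV : St_DIV) (hUT : St_UT) : St_VU := by
  intro n M _ ι _ _ D κ _ L I V hI hs hV d z hz
  obtain ⟨-, -, -, m4, m5, -, -, -, -, m10, -, -, -, m14⟩ := hMON n ι (D.c d)
  obtain ⟨-, m15, -, -, m16⟩ := m14 (D.inj d)
  obtain ⟨l0, h0⟩ := L.gen d z hz
  have hB : ∀ᶠ y in 𝓝 z, y ∈ B2 n := isOpen_ball.mem_nhds hz
  have hX : HolN (V d) z := hol_ball (hV.hol d) hz
  have hU : ∀ l, HolN (L.U l d) z := fun l => hol_ball (L.Uhol l d) hz
  have hw : HolN (L.w d) z := hol_ball (L.whol d) hz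
  have h1 : ∀ᶠ y in 𝓝 z, L.U l0 d y ≠ 0 := (hU l0).self_of_nhds.continuousAt.eventually_ne h0
  have hl : HolN (fun y => app (V d) (L.U l0 d) y * (L.U l0 d y)⁻¹) z :=
    holN_mul (hol_app hX (hU l0)) (holN_inv (hU l0) h0)
  refine ⟨_, smN_hol hl, fun l => ?_, ?_⟩
  · have a : Idl (D.c d) I (fun y => L.s * (app (V d) (L.U l d) y -
        app (V d) (L.U l0 d) y * (L.U l0 d y)⁻¹ * L.U l d y)) z := by
      refine idl_hol hDIV (D.inj d) (holN_mul (holN_const _)
        (holN_sub (hol_app hX (hU l)) (holN_mul hl (hU l)))) ?_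
      filter_upwards [hB, h1] with y y1 y2 y3
      exact (quot _ (fun l => L.U l d y) (fun l => app (V d) (L.U l d) y) l0 y2
        (hV.th d y y1 y3)).1 l
    rcases hs with ⟨i, hi⟩ | hs
    · obtain ⟨t, t1, t2⟩ := ((hUT n M ι D κ L).1 d z hz).2.2.2.2.2.2.1 l
      have hi' : i ∈ Finset.univ.filter fun k => L.a k ≠ 0 :=
        Finset.mem_filter.2 ⟨Finset.mem_univ _, (L.rT i (hI hi)).2⟩
      have e : sp L.a = fun k => if k ∈ Finset.univ.filter fun k => L.a k ≠ 0 then 1 else 0 := by
        funext k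
        by_cases hk : L.a k = 0 <;> simp [sp, hk]
      have hg : SmN (fun y => xs (D.c d) ((Finset.univ.filter fun k => L.a k ≠ 0).erase i) y * t y)
          z := smN_mul (smN_hol (m5 _ z)) t1
      have t3 : L.ut l d =ᶠ[𝓝 z] fun y => L.U l d y + xi (D.c d) i y *
          (xs (D.c d) ((Finset.univ.filter fun k => L.a k ≠ 0).erase i) y * t y) :=
        t2.mono fun y hy => by
          beta_reduce
          rw [hy, e, m10, xs, xs, ← Finset.mul_prod_erase _ _ hi', mul_assoc]
      refine idl_cong (idl_add a (idl_xi hi (smN_mul (smN_const (L.s : ℂ))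
        (smN_sub (sm_app hX hg) (smN_mul (smN_hol hl) hg))))) ?_
      filter_upwards [hB, t3.eventuallyEq_nhds, hU l, hg] with y y1 y2 y3 y4 _
      rw [app_xi hi (hV.nm d y y1) ((m4 i y).self_of_nhds.restrictScalars ℝ) (fun j => m15 i j y)
        (y3.restrictScalars ℝ) (y4.differentiableAt (by simp)) y2, y2.self_of_nhds]
      ring
    · exact idl_cong a (Eventually.of_forall fun y _ => by simp [hs])
  · have hm : (L.m : ℂ) ≠ 0 := by exact_mod_cast L.m0.ne'
    have hN : HolN (fun y => xs (D.c d) (fr L.r) y * (dv (V d) y +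
        app (V d) (L.w d) y * (L.m * L.w d y)⁻¹ -
        L.s * (app (V d) (L.U l0 d) y * (L.U l0 d y)⁻¹)) + ∑ i ∈ fr L.r,
          L.r i * (D.c d i).elim 0 (V d y) * xs (D.c d) ((fr L.r).erase i) y) z :=
      holN_add (holN_mul (m5 _ z) (holN_sub (holN_add (hol_dv hX) (holN_mul (hol_app hX hw)
        (holN_inv (holN_mul (holN_const _) hw) (mul_ne_zero hm (L.wne d z hz)))))
        (holN_mul (holN_const _) hl)))
        (holN_sum fun i _ => holN_mul (holN_mul (holN_const _) (hol_elim hX _)) (m5 _ z))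
    refine idl_cong (idl_hol hDIV (D.inj d) hN ?_) (Eventually.of_forall fun y hy => ?_)
    · filter_upwards [hB.eventually_nhds, h1.eventually_nhds, hN] with y y1 y2 y3 y4
      refine m16 I _ y y4 y3.continuousAt ?_
      filter_upwards [y1, y2] with x x1 x2 x3 x4
      have := hV.dv d x x1 x3 x4
      rw [(quot _ (fun l => L.U l d x) (fun l => app (V d) (L.U l d) x) l0 x2
        (hV.th d x x1 x3)).2, div_eq_mul_inv] at this
      rw [← num _ _ _ fun i hi => x4 i fun h => ?_, this, mul_zero]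
      exact (Finset.mem_filter.1 hi).2 (L.rT i (hI h)).1
    · rw [← num _ _ _ fun i _ => hy i, div_eq_mul_inv]

end Pool.Agent.Lib.EX
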