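import Pool.Agent.Lib.EX.Defs

/-! Project ex41: blueprint of the core. -/

open scoped Classical Topology ContDiff ComplexOrder Matrix
open Set MeasureTheory Complex Metric Filter

set_option linter.unusedVariables false

noncomputable section

namespace Pool.Agent.Lib.EX

open Pool.Agent.Lib.SV (E)
open Pool.Agent.Lib.HS32
open Pool.Agent.Lib.EXA (Val SmN emb)

/-! ### Analytic continuation -/

/-- The data of the cut-off function in a chart. -/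
structure Tst {n : ℕ} {ι : Type} (c : ι → Option (Fin n)) (v : E n → ℝ) : Prop where
  inj : Inj c
  vsm : ∀ z ∈ B2 n, ContDiffAt ℝ ∞ v z
  vpos : ∀ z ∈ B2 n, 0 < v z

/-- Integrals over a stratum: convergence and positivity. -/
def St_SIP : Prop := ∀ (n : ℕ) (ι : Type) [Fintype ι] [DecidableEq ι] (c : ι → Option (Fin n))
  (r : ι → ℝ) (I : Finset ι), Inj c → (∀ i, -1 < r i ∧ r i ≤ 0) → (∀ i ∈ I, r i = 0) →
  (∀ φ φ' : E n → ℂ, ((∀ z, Sl c I z → φ z = φ' z) →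
      SI c I φ = SI c I φ' ∧ (SIi c I φ → SIi c I φ')) ∧
    SI c I (star φ) = star (SI c I φ) ∧ (∀ t : ℂ, SI c I (t • φ) = t * SI c I φ) ∧
    (SIi c I φ → SIi c I φ' → SIi c I (φ + φ') ∧ SI c I (φ + φ') = SI c I φ + SI c I φ')) ∧
  (∀ φ : E n → ℂ, ContinuousOn φ {z | Sl c I z} → (∀ z, Sl c I z → 1 < ‖z‖ → φ z = 0) →
    SIi c I fun z => (xr c r z : ℝ) * φ z) ∧
  ∀ φ : E n → ℝ, ContinuousOn φ {z | Sl c I z} → (∀ z, Sl c I z → 1 < ‖z‖ → φ z = 0) →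
    (∀ z, Sl c I z → 0 ≤ φ z) → 0 ≤ SI c I (fun z => (xr c r z * φ z : ℝ)) ∧
      (SI c I (fun z => (xr c r z * φ z : ℝ)) = 0 → ∀ z, Sl c I z → φ z = 0)

/-- Localisation of terms without contribution. -/
def St_LOC0 : Prop := ∀ (n : ℕ) (ι : Type) [Fintype ι] [DecidableEq ι] (c : ι → Option (Fin n))
  (v : E n → ℝ) (r : ι → ℝ) (p : ℕ) (Φ : E n → ℂ), Tst c v → (∀ i, -1 < r i ∧ r i ≤ 0) →
  (∀ z ∈ B2 n, 1 < ‖z‖ → Φ z = 0) → (∀ z, ‖z‖ ≤ 1 → Nul c r p Φ z) →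
    (∀ᶠ t : ℝ in atTop, IntegrableOn (fun z => cut c v t z * Φ z) (B2 n) ∧
      ∀ j, IntegrableOn (fun z => cut c v t z * dzb j Φ z) (B2 n) ∧
        IntegrableOn (fun z => cut c v t z * (Φ z * dzb j (lg c v) z)) (B2 n) ∧
        (∫ z in B2 n, cut c v t z * dzb j Φ z) +
          t * ∫ z in B2 n, cut c v t z * (Φ z * dzb j (lg c v) z) = 0) ∧
    Val (fun t => t ^ p * ∫ z in B2 n, cut c v t z * Φ z) 0

/-- Localisation of the main term. -/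
def St_LOC1 : Prop := ∀ (n : ℕ) (ι : Type) [Fintype ι] [DecidableEq ι] (c : ι → Option (Fin n))
  (v : E n → ℝ) (r : ι → ℝ) (T : Finset ι) (p : ℕ) (ρ : Finset ι → E n → ℂ) (Φ : E n → ℂ)
  (χ : E n → ℝ), Tst c v → (∀ i, -1 < r i ∧ r i ≤ 0) → (∀ i ∈ T, r i = 0) →
  (∀ z ∈ B2 n, ContDiffAt ℝ ∞ χ z) → (∀ z ∈ B2 n, 1 < ‖z‖ → χ z = 0) →
  (∀ z, ‖z‖ ≤ 1 → Main c r T p ρ Φ z) →
    (∀ᶠ t : ℝ in atTop, IntegrableOn (fun z => cut c v t z * (χ z * Φ z)) (B2 n)) ∧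
    Val (fun t => t ^ p * ∫ z in B2 n, cut c v t z * (χ z * Φ z))
      (∑ I ∈ T.powersetCard p, SI c I ((B2 n).indicator fun z => (χ z * xr c r z : ℝ) * ρ I z))

/-! ### Algebra of germs -/

/-- Monomials, projections, density. -/
def St_MON : Prop := ∀ (n : ℕ) (ι : Type) [Fintype ι] [DecidableEq ι] (c : ι → Option (Fin n)),
  (∀ z, Off c z → ∀ᶠ y in 𝓝 z, Off c y) ∧ Dense {z | Off c z} ∧ (∀ᵐ z, Off c z) ∧
  (∀ i z, HolN (xi c i) z) ∧ (∀ J z, HolN (xs c J) z) ∧ (∀ G z, Off c z → HolN (xm c G) z) ∧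
  (∀ (a : ι → ℕ) z, HolN (xm c fun i => a i) z) ∧
  (∀ r z, Off c z → SmN (xr c r) z ∧ 0 < xr c r z) ∧
  (∀ G G' z, Off c z → xm c (G + G') z = xm c G z * xm c G' z ∧ xm c G z ≠ 0 ∧
    xm c (-G) z = (xm c G z)⁻¹) ∧
  (∀ J z, xm c (fun i => if i ∈ J then 1 else 0) z = xs c J z) ∧
  (∀ I z, ‖prj c I z‖ ≤ ‖z‖ ∧ prj c I (prj c I z) = prj c I z ∧ HolN (prj c I) z ∧
    (Sl c I z → prj c I z = z) ∧ ((∀ i ∈ I, c i ≠ none) → Sl c I (prj c I z)) ∧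
    (Sl c I z → ∀ i ∈ I, c i ≠ none)) ∧
  (∀ I (f : E n → ℂ) z j, DifferentiableAt ℝ f (prj c I z) →
    dz j (fun y => f (prj c I y)) z = (if Nm c I j then 0 else dz j f (prj c I z)) ∧
    dzb j (fun y => f (prj c I y)) z = if Nm c I j then 0 else dzb j f (prj c I z)) ∧
  (∀ I (f g : E n → ℂ) z j, Sl c I z → ¬ Nm c I j → DifferentiableAt ℝ f z →
    DifferentiableAt ℝ g z → (∀ᶠ y in 𝓝 z, Sl c I y → f y = g y) →
      dz j f z = dz j g z ∧ dzb j f z = dzb j g z) ∧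
  (Inj c → (∀ I i z, i ∉ I → xi c i (prj c I z) = xi c i z) ∧
    (∀ i j z, dz j (xi c i) z = if c i = some j then 1 else 0) ∧
    (∀ (X : E n → E n) G z, Off c z →
      app X (xm c G) z = xm c G z * ∑ i, G i * (c i).elim 0 (X z) / xi c i z) ∧
    (∀ (X : E n → E n) r z, Off c z → app X (fun y => (xr c r y : ℂ)) z =
      (xr c r z : ℝ) * ∑ i, r i * (c i).elim 0 (X z) / xi c i z) ∧
    ∀ I (f : E n → ℂ) z, Sl c I z → ContinuousAt f z →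
      (∀ᶠ y in 𝓝 z, Sl c I y → (∀ i ∉ I, xi c i y ≠ 0) → f y = 0) → f z = 0)

/-- Holomorphic division. -/
def St_DIV : Prop := ∀ (n : ℕ) (ι : Type) [Fintype ι] [DecidableEq ι] (c : ι → Option (Fin n))
  (ν : E n → ℂ) (z₀ : E n), Inj c → HolN ν z₀ →
  (∀ I, (∀ᶠ z in 𝓝 z₀, Sl c I z → ν z = 0) → ∃ t : ι → E n → ℂ, (∀ i, HolN (t i) z₀) ∧
    ∀ᶠ z in 𝓝 z₀, ν z = ∑ i ∈ I, xi c i z * t i z) ∧
  ∀ (T : Finset ι) (p : ℕ), (∀ I ∈ T.powersetCard p, ∀ᶠ z in 𝓝 z₀, Sl c I z → ν z = 0) →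
    ∃ s : Finset ι → E n → ℂ, (∀ J, HolN (s J) z₀) ∧
      ∀ᶠ z in 𝓝 z₀, ν z = ∑ J ∈ lt T p, xs c (T \ J) z * s J z

/-- A class of germs that is a module over the smooth functions. -/
structure Mod {n : ℕ} {ι : Type} (c : ι → Option (Fin n)) (P : (E n → ℂ) → E n → Prop) : Prop where
  zero : ∀ z, P 0 z
  add : ∀ F F' z, P F z → P F' z → P (F + F') z
  mul : ∀ s F z, SmN s z → P F z → P (s * F) z
  cong : ∀ F F' z, P F z → (∀ᶠ y in 𝓝 z, Off c y → F' y = F y) → P F' z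
  ev : ∀ F z, P F z → ∀ᶠ y in 𝓝 z, P F y
  sum : ∀ (τ : Type) (S : Finset τ) (F : τ → E n → ℂ) z, (∀ t ∈ S, P (F t) z) → P (∑ t ∈ S, F t) z

/-- A class of germs that is a module over the holomorphic functions. -/
structure ModH {n : ℕ} {ι : Type} (c : ι → Option (Fin n)) (P : (E n → ℂ) → E n → Prop) :
    Prop where
  zero : ∀ z, P 0 z
  add : ∀ F F' z, P F z → P F' z → P (F + F') z
  mul : ∀ s F z, HolN s z → P F z → P (s * F) z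
  cong : ∀ F F' z, P F z → (∀ᶠ y in 𝓝 z, Off c y → F' y = F y) → P F' z
  ev : ∀ F z, P F z → ∀ᶠ y in 𝓝 z, P F y
  sum : ∀ (τ : Type) (S : Finset τ) (F : τ → E n → ℂ) z, (∀ t ∈ S, P (F t) z) → P (∑ t ∈ S, F t) z

/-- The classes are modules. -/
def St_MOD : Prop := ∀ (n : ℕ) (ι : Type) [Fintype ι] [DecidableEq ι] (c : ι → Option (Fin n))
  (G : ι → ℤ) (r : ι → ℝ) (T : Finset ι) (q : ℕ),
  Mod c (Pol c G) ∧ ModH c (PolH c G) ∧ Mod c (Wt c G T q) ∧ ModH c (WtH c G T q) ∧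
    Mod c (WQ c G r T q) ∧ Mod c (Idl c T) ∧ Mod c (Nul c r q)

/-- Inclusions between the classes. -/
def St_INC : Prop := ∀ (n : ℕ) (ι : Type) [Fintype ι] [DecidableEq ι] (c : ι → Option (Fin n))
  (G : ι → ℤ) (r : ι → ℝ) (T : Finset ι) (q : ℕ) (F : E n → ℂ) (z : E n),
  (PolH c G F z → Pol c G F z) ∧ (WtH c G T q F z → Wt c G T q F z) ∧
  (∀ K, G ≤ K → (Pol c G F z → Pol c K F z) ∧ (PolH c G F z → PolH c K F z)) ∧
  (∀ K F', (Pol c G F z → Pol c K F' z → Pol c (G + K) (F * F') z) ∧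
    (PolH c G F z → PolH c K F' z → PolH c (G + K) (F * F') z)) ∧
  (∀ q', q ≤ q' → (Wt c G T q F z → Wt c G T q' F z) ∧ (WtH c G T q F z → WtH c G T q' F z) ∧
    (WQ c G r T q F z → WQ c G r T q' F z) ∧ (Nul c r q F z → Nul c r q' F z)) ∧
  (Wt c G T q F z → Pol c G F z) ∧ (WtH c G T q F z → PolH c G F z) ∧
  (Pol c G F z → Wt c G T (T.card + 1) F z) ∧ (PolH c G F z → WtH c G T (T.card + 1) F z) ∧
  (Wt c G T 1 F z ↔ Pol c (fun i => G i - if i ∈ T then 1 else 0) F z) ∧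
  (WtH c G T 1 F z ↔ PolH c (fun i => G i - if i ∈ T then 1 else 0) F z) ∧
  (WtH c G T 0 F z ↔ ∀ᶠ y in 𝓝 z, Off c y → F y = 0) ∧
  ((∀ i ∈ T, r i = 0) → Wt c G T q F z → WQ c G r T q F z) ∧
  (∀ I ∈ T.powersetCard q, Idl c I F z →
    Wt c G T q (fun y => xm c (-G) y * (xs c (T \ I) y * F y)) z ∧ ((∀ i ∈ T, r i = 0) →
      WQ c G r T q (fun y => xm c (-G) y * (xs c (T \ I) y * F y) / xs c (fr r) y) z)) ∧
  (∀ i ∈ T, xi c i z ≠ 0 → SmN F z → Idl c T F z) ∧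
  (Pol c G F z → ∀ᶠ y in 𝓝 z, Off c y → SmN F y) ∧
  (PolH c G F z → ∀ᶠ y in 𝓝 z, Off c y → HolN F y) ∧
  ∀ j, (Pol c G F z → Pol c G (dzb j F) z) ∧ (Wt c G T q F z → Wt c G T q (dzb j F) z) ∧
    (PolH c G F z → ∀ᶠ y in 𝓝 z, Off c y → dzb j F y = 0)

/-- Rules for residues. -/
def St_RES : Prop := ∀ (n : ℕ) (ι : Type) [Fintype ι] [DecidableEq ι] (c : ι → Option (Fin n))
  (G : ι → ℤ) (T : Finset ι) (p : ℕ) (ρ ρ' : Finset ι → E n → ℂ) (F F' : E n → ℂ) (z : E n),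
  Inj c → (Res c G T p ρ F z → Wt c G T (p + 1) F z ∧ ∀ᶠ y in 𝓝 z, Res c G T p ρ F y) ∧
  (Wt c G T (p + 1) F z → ∃ σ, (∀ I, SmN (σ I) z) ∧ Res c G T p σ F z) ∧
  (WtH c G T (p + 1) F z → ∃ σ, (∀ I, HolN (σ I) z) ∧ Res c G T p σ F z) ∧
  (Wt c G T p F z → Res c G T p 0 F z) ∧
  (Res c G T p ρ F z → Res c G T p ρ' F' z → Res c G T p (ρ + ρ') (F + F') z) ∧
  (∀ s, SmN s z → Res c G T p ρ F z → Res c G T p (fun I => s * ρ I) (s * F) z) ∧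
  (Res c G T p ρ F z → (∀ᶠ y in 𝓝 z, Off c y → F' y = F y) →
    (∀ I ∈ T.powersetCard p, ∀ᶠ y in 𝓝 z, Sl c I y → ρ' I y = ρ I y) → Res c G T p ρ' F' z) ∧
  (Res c G T p ρ F z → Res c G T p ρ' F z →
    ∀ I ∈ T.powersetCard p, ∀ᶠ y in 𝓝 z, Sl c I y → ρ I y = ρ' I y) ∧
  ((∀ I ∈ T.powersetCard p, SmN (ρ I) z) → Res c G T p ρ (hat c G T p ρ) z) ∧
  ((∀ I ∈ T.powersetCard p, HolN (ρ I) z) → WtH c G T (p + 1) (hat c G T p ρ) z) ∧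
  (WtH c G T (p + 1) F z → Res c G T p 0 F z → WtH c G T p F z) ∧
  (Res c G T p ρ F z → ∀ j, ∃ σ, Res c G T p σ (dzb j F) z ∧ ∀ I ∈ T.powersetCard p, ¬ Nm c I j →
    SmN (ρ I) z → ∀ᶠ y in 𝓝 z, Sl c I y → σ I y = dzb j (ρ I) y) ∧
  ∀ (τ : Type) (S : Finset τ) (σ : τ → Finset ι → E n → ℂ) (Φ : τ → E n → ℂ),
    (∀ t ∈ S, Res c G T p (σ t) (Φ t) z) → Res c G T p (∑ t ∈ S, σ t) (∑ t ∈ S, Φ t) z

/-- Rules for main terms. -/
def St_MAIN : Prop := ∀ (n : ℕ) (ι : Type) [Fintype ι] [DecidableEq ι] (c : ι → Option (Fin n))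
  (r : ι → ℝ) (T : Finset ι) (p : ℕ) (ρ ρ' : Finset ι → E n → ℂ) (F F' : E n → ℂ) (z : E n),
  (Nul c r p F z → Main c r T p 0 F z) ∧
  (Main c r T p ρ F z → Main c r T p ρ' F' z → Main c r T p (ρ + ρ') (F + F') z) ∧
  (∀ s, SmN s z → Main c r T p ρ F z → Main c r T p (fun I => s * ρ I) (s * F) z) ∧
  (Main c r T p ρ F z → (∀ᶠ y in 𝓝 z, Off c y → F' y = F y) →
    (∀ I ∈ T.powersetCard p, ∀ᶠ y in 𝓝 z, Sl c I y → ρ' I y = ρ I y) → Main c r T p ρ' F' z) ∧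
  ∀ (τ : Type) (S : Finset τ) (σ : τ → Finset ι → E n → ℂ) (Φ : τ → E n → ℂ),
    (∀ t ∈ S, Main c r T p (σ t) (Φ t) z) → Main c r T p (∑ t ∈ S, σ t) (∑ t ∈ S, Φ t) z

/-- Products against the density. -/
def St_PRD : Prop := ∀ (n : ℕ) (ι : Type) [Fintype ι] [DecidableEq ι] (c : ι → Option (Fin n))
  (G : ι → ℤ) (r : ι → ℝ) (T : Finset ι) (p : ℕ) (b : E n → ℝ) (F Q : E n → ℂ) (z : E n),
  SmN b z → (∀ i ∈ T, r i = 0) →
  (∀ K : ι → ℤ, (∀ i ∉ T, r i = 0 → K i ≤ G i) → Pol c K F z → WQ c G r T p Q z →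
    Nul c r p (fun y => (den c G r T b y : ℝ) * (F y * star (Q y))) z) ∧
  (Wt c G T p F z → Wt c G T (p + 1) Q z →
    Nul c r p (fun y => (den c G r T b y : ℝ) * (F y * star (Q y))) z) ∧
  ∀ ρ ρ', Res c G T p ρ F z → Res c G T p ρ' Q z →
    Main c r T p (fun I y => (b y : ℝ) * (ρ I y * star (ρ' I y)))
      (fun y => (den c G r T b y : ℝ) * (F y * star (Q y))) z

/-- The pointwise expansion of the divergence. -/
def St_EXP : Prop := ∀ (n : ℕ) (d χ l : E n → ℝ) (F : E n → ℂ) (X : E n → E n) (z : E n),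
  DifferentiableAt ℝ d z → d z ≠ 0 → DifferentiableAt ℝ χ z → DifferentiableAt ℝ l z →
  DifferentiableAt ℝ F z → DifferentiableAt ℝ X z →
  ∑ j, dzb j (fun y => χ y * (d y * (F y * star (X y j)))) z =
      χ z * (d z * ∑ j, dzb j F z * star (X z j)) + χ z * (d z * (F z * star (dvD d X z))) +
        d z * (F z * star (app X (fun y => (χ y : ℂ)) z)) ∧
    ∑ j, χ z * (d z * (F z * star (X z j))) * dzb j (fun y => (l y : ℂ)) z =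
      χ z * (d z * (F z * star (app X (fun y => (l y : ℂ)) z)))

/-- The derivative of the cut-off factor along the test field. -/
def St_Q2 : Prop := ∀ (n : ℕ) (ι : Type) [Fintype ι] [DecidableEq ι] (c : ι → Option (Fin n))
  (G : ι → ℤ) (r : ι → ℝ) (T : Finset ι) (p : ℕ) (v : E n → ℝ) (V : Finset ι → E n → E n)
  (z : E n), Inj c → z ∈ B2 n → (∀ i ∈ T, r i = 0) → SmN v z → 0 < v z →
  (∀ I ∈ T.powersetCard p, (∀ y ∈ B2 n, DifferentiableAt ℂ (V I) y) ∧ Iv c I (V I) ∧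
    ∀ y ∈ B2 n, ∀ j, Nm c I j → V I y j = 0) →
  WQ c G r T (p + 1) (fun y => app (fun x j => hat c G T p (fun I x' => V I x' j) x)
    (lg c v) y - hat c G T (p + 1) (fun J x => if ∀ i ∈ J, c i ≠ none then del c V J x else 0) y) z

/-- Linear algebra. -/
def St_LA : Prop := ∀ (R H : Type) [AddCommGroup R] [Module ℂ R] [AddCommGroup H] [Module ℂ H]
  [FiniteDimensional ℂ R] (a : R →ₗ[ℂ] R →ₗ⋆[ℂ] ℂ) (b : H →ₗ[ℂ] H →ₗ⋆[ℂ] ℂ) (δ : H →ₗ[ℂ] R)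
  (Γ : Submodule ℂ (R × H)), (∀ x y, a y x = star (a x y)) → (∀ x y, b y x = star (b x y)) →
  (∀ x, 0 ≤ a x x) → (∀ x, a x x = 0 → x = 0) → (∀ x, 0 ≤ b x x) → (∀ x, ∃ y, (x, y) ∈ Γ) →
  (∀ x y, (x, y) ∈ Γ → ∀ v, b y v + a x (δ v) = 0) → ∀ v, ∃ x y, (x, y) ∈ Γ ∧ δ (v - y) = 0

/-! ### Adapted atlases -/

/-- Change of chart. -/
def St_TRF : Prop := ∀ (n : ℕ) (M : Mf n) [M.Cpt] (ι : Type) [Fintype ι] [DecidableEq ι] (D : Ad M ι),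
  (∀ K, D.Coc (D.um K)) ∧
  (∀ a, ∀ z ∈ B2 n, (D.e a).symm z ∈ (D.e a).source ∧ D.e a ((D.e a).symm z) = z ∧
    ContDiffAt ℝ ∞ (D.rd (D.χ a) a) z ∧ (1 < ‖z‖ → D.rd (D.χ a) a z = 0)) ∧
  (∀ a b, ∀ x ∈ (D.e b).source, x ∉ (D.e a).source → ∀ᶠ z in 𝓝 (D.e b x), D.rd (D.χ a) b z = 0) ∧
  D.Ov fun a b x => D.e a x ∈ B2 n ∧ ContDiffAt ℝ ∞ (D.rd (D.χ a) b) (D.e b x) ∧
    (∀ I, Sl (D.c a) I (D.e a x) ↔ Sl (D.c b) I (D.e b x)) ∧
    (Off (D.c a) (D.e a x) ↔ Off (D.c b) (D.e b x)) ∧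
    (∀ K, xm (D.c a) K (D.e a x) = D.um K a b x * xm (D.c b) K (D.e b x)) ∧
    (∀ G T I, I ⊆ T → xm (D.c a) (-G) (D.e a x) * xs (D.c a) (T \ I) (D.e a x) =
      D.kap G T I a b x * (xm (D.c b) (-G) (D.e b x) * xs (D.c b) (T \ I) (D.e b x))) ∧
    (∀ p : E n → Prop, (∀ᶠ z in 𝓝 (D.e a x), p z) →
      ∀ᶠ z in 𝓝 (D.e b x), p (D.e a ((D.e b).symm z))) ∧
    (∀ F : E n → ℂ, (SmN F (D.e a x) → SmN (D.tr a b F) (D.e b x)) ∧
      (HolN F (D.e a x) → HolN (D.tr a b F) (D.e b x))) ∧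
    ∀ G T q (F : E n → ℂ), (Pol (D.c a) G F (D.e a x) → Pol (D.c b) G (D.tr a b F) (D.e b x)) ∧
      (PolH (D.c a) G F (D.e a x) → PolH (D.c b) G (D.tr a b F) (D.e b x)) ∧
      (Wt (D.c a) G T q F (D.e a x) → Wt (D.c b) G T q (D.tr a b F) (D.e b x)) ∧
      (WtH (D.c a) G T q F (D.e a x) → WtH (D.c b) G T q (D.tr a b F) (D.e b x)) ∧
      ∀ ρ, Res (D.c a) G T q ρ F (D.e a x) → Res (D.c b) G T q
        (fun I => D.tr a b (ρ I) * D.rd (D.kap G T I a b) b) (D.tr a b F) (D.e b x)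

/-- Averages of local functions. -/
def St_AVG : Prop := ∀ (n : ℕ) (M : Mf n) [M.Cpt] (ι : Type) [Fintype ι] [DecidableEq ι] (D : Ad M ι)
  (P : D.A → (E n → ℂ) → E n → Prop) (g : D.A → E n → ℂ), (∀ a, Mod (D.c a) (P a)) →
  (D.Dif P g → D.All fun a z => P a (D.rd (D.avg g) a - g a) z) ∧
  ((D.Ov fun a b x => P b (D.tr a b (g a)) (D.e b x)) → D.All fun a z => P a (D.rd (D.avg g) a) z)

/-- The global cut-off function. -/
def St_CUT : Prop := ∀ (n : ℕ) (M : Mf n) [M.Cpt] (ι : Type) [Fintype ι] [DecidableEq ι] (D : Ad M ι),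
  ∃ N v, D.Cut N v

/-- Change of variables. -/
def St_CHG : Prop := ∀ (n : ℕ) (M : Mf n) [M.Cpt] (ι : Type) [Fintype ι] [DecidableEq ι]
  (D : Ad M ι) (d : D.A → E n → ℝ) (Φ : M.X → ℂ) (a : D.A),
  (D.Ov fun a b x => d b (D.e b x) = d a (D.e a x) * normSq (D.J a b x).det) →
  (∀ x, Φ x ≠ 0 → x ∈ (D.e a).source) → IntegrableOn (fun z => d a z * D.rd Φ a z) (B2 n) →
  (∀ b, IntegrableOn (fun z => D.rd (D.χ b) b z * (d b z * D.rd Φ b z)) (B2 n)) ∧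
    ∫ z in B2 n, d a z * D.rd Φ a z =
      ∑ b, ∫ z in B2 n, D.rd (D.χ b) b z * (d b z * D.rd Φ b z)

/-- Extension from the strata. -/
def St_XT : Prop := ∀ (n : ℕ) (M : Mf n) [M.Cpt] (ι : Type) [Fintype ι] [DecidableEq ι] (D : Ad M ι)
  (G : ι → ℤ) (T : Finset ι) (q : ℕ) (σ : Finset ι → D.A → E n → ℂ), D.SecF G T q σ →
  D.All fun a z => Res (D.c a) G T q (fun I => σ I a) (D.rd (D.ext G T q σ) a) z

/-- From holomorphic differences to potentials on the strata. -/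
def St_CECH : Prop := ∀ (n : ℕ) (M : Mf n) [M.Cpt] (ι : Type) [Fintype ι] [DecidableEq ι] (D : Ad M ι)
  (G : ι → ℤ) (T : Finset ι) (p : ℕ) (g : D.A → E n → ℂ),
  D.Dif (fun a => WtH (D.c a) G T (p + 1)) g → ∃ σ : Finset ι → D.A → E n → ℂ,
    (∀ I ∈ T.powersetCard p, D.Pot I (D.kap G T I) (σ I)) ∧
    D.All fun a z => Res (D.c a) G T p (fun I => σ I a) (D.rd (D.avg g) a - g a) z

/-- One step down. -/
def St_GLUE : Prop := ∀ (n : ℕ) (M : Mf n) [M.Cpt] (H : M.Fam (Mat n)) (ι : Type) [Fintype ι]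
  [DecidableEq ι] (D : Ad M ι) (G K : ι → ℤ) (T : Finset ι) (p : ℕ) (g : D.A → E n → ℂ)
  (w : Finset ι → D.A → E n → ℂ), (D.All fun a z => PolH (D.c a) K (g a) z) →
  D.Dif (fun a => WtH (D.c a) G T (p + 1)) g → D.SecF G T p w →
  D.Rep H G T p (D.avg g - D.ext G T p w) 0 → ∃ g' : D.A → E n → ℂ,
    (D.All fun a z => PolH (D.c a) G (g' a - g a) z) ∧ D.Dif (fun a => WtH (D.c a) G T p) g'

/-- Holomorphic sections on the strata of depth `p + 1`. -/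
def St_HAT : Prop := ∀ (n : ℕ) (M : Mf n) [M.Cpt] (ι : Type) [Fintype ι] [DecidableEq ι] (D : Ad M ι)
  (G : ι → ℤ) (T : Finset ι) (q : ℕ) (σ : Finset ι → D.A → E n → ℂ), D.HSec G T q σ →
  (D.All fun a z => PolH (D.c a) G (hat (D.c a) G T q fun I => σ I a) z) ∧
  D.Dif (fun a => WtH (D.c a) G T q) fun a => hat (D.c a) G T q fun I => σ I a

/-- Linearity. -/
def St_LIN : Prop := ∀ (n : ℕ) (M : Mf n) [M.Cpt] (H : M.Fam (Mat n)) (ι : Type) [Fintype ι]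
  [DecidableEq ι] (D : Ad M ι) (G : ι → ℤ) (T : Finset ι) (p : ℕ),
  (D.Rep H G T p 0 0 ∧ ∀ F F' V V' (t : ℂ) (K : ι → ℤ),
    (D.All fun a z => Pol (D.c a) K (D.rd F a) z) → (D.All fun a z => Pol (D.c a) K (D.rd F' a) z) →
    D.Rep H G T p F V → D.Rep H G T p F' V' → D.Rep H G T p (F + t • F') (V + t • V')) ∧
  (∀ σ σ' (t : ℂ), D.ext G T p (σ + t • σ') = D.ext G T p σ + t • D.ext G T p σ') ∧
  (∀ g g' (t : ℂ), D.avg (g + t • g') = D.avg g + t • D.avg g') ∧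
  (D.SecF G T p 0 ∧ ∀ σ σ' (t : ℂ), D.SecF G T p σ → D.SecF G T p σ' → D.SecF G T p (σ + t • σ')) ∧
  (D.HSec G T p 0 ∧ ∀ σ σ' (t : ℂ), D.HSec G T p σ → D.HSec G T p σ' → D.HSec G T p (σ + t • σ')) ∧
  ∀ V V' (t : ℂ), D.dl T p (V + t • V') = D.dl T p V + t • D.dl T p V'

/-- Finite dimension. -/
def St_FIN : Prop := ∀ (n : ℕ) (M : Mf n) [M.Cpt] (ι : Type) [Fintype ι] [DecidableEq ι]
  (D : Ad M ι) (G : ι → ℤ) (T : Finset ι) (q : ℕ) (R : Submodule ℂ (Finset ι → D.A → E n → ℂ)),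
  (∀ σ ∈ R, D.HSec G T q σ) → FiniteDimensional ℂ R

/-- The normal components form a holomorphic section. -/
def St_DEL : Prop := ∀ (n : ℕ) (M : Mf n) [M.Cpt] (ι : Type) [Fintype ι] [DecidableEq ι] (D : Ad M ι)
  (G : ι → ℤ) (T : Finset ι) (p : ℕ) (V : Finset ι → D.A → E n → E n),
  (∀ I ∈ T.powersetCard p, D.Fld I (D.kap G T I) (V I)) → D.HSec G T (p + 1) (D.dl T p V)

/-- Rules for the sum of the integrals over the strata. -/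
def St_SS : Prop := ∀ (n : ℕ) (M : Mf n) [M.Cpt] (ι : Type) [Fintype ι] [DecidableEq ι] (D : Ad M ι)
  (r : ι → ℝ) (T : Finset ι) (q : ℕ), (∀ i, -1 < r i ∧ r i ≤ 0) → (∀ i ∈ T, r i = 0) →
  ∀ ρ ρ' : Finset ι → D.A → E n → ℂ,
    ((∀ I ∈ T.powersetCard q, D.All fun a z => Sl (D.c a) I z → ρ I a z = ρ' I a z) →
      D.SS r T q ρ = D.SS r T q ρ') ∧
    D.SS r T q (star ρ) = star (D.SS r T q ρ) ∧ (∀ t : ℂ, D.SS r T q (t • ρ) = t * D.SS r T q ρ) ∧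
    ((∀ I ∈ T.powersetCard q, D.All fun a z => ContinuousAt (ρ I a) z) →
      ((∀ I ∈ T.powersetCard q, D.All fun a z => ContinuousAt (ρ' I a) z) →
        D.SS r T q (ρ + ρ') = D.SS r T q ρ + D.SS r T q ρ') ∧
      ((∀ I ∈ T.powersetCard q, D.All fun a z => Sl (D.c a) I z → 0 ≤ ρ I a z) →
        0 ≤ D.SS r T q ρ ∧ (D.SS r T q ρ = 0 → ∀ I ∈ T.powersetCard q, D.All fun a z =>
          Sl (D.c a) I z → D.rd (D.χ a) a z ≠ 0 → ρ I a z = 0)))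

/-- The harmonic lemma on the whole manifold. -/
def St_HL0 : Prop := ∀ (n : ℕ) (M : Mf n) [M.Cpt] (H : M.Fam (Mat n)) (ι : Type) [Fintype ι]
  [DecidableEq ι] (D : Ad M ι), M.Kae H → D.HL H ∅

/-- The harmonic lemma on all strata. -/
def St_HL : Prop := ∀ (n : ℕ) (M : Mf n) [M.Cpt] (H : M.Fam (Mat n)) (ι : Type) [Fintype ι]
  [DecidableEq ι] (D : Ad M ι) (I : Finset ι), M.Kae H → D.HL H I

/-! ### One level -/

/-- The smooth lifts. -/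
def St_UT : Prop := ∀ (n : ℕ) (M : Mf n) [M.Cpt] (ι : Type) [Fintype ι] [DecidableEq ι] (D : Ad M ι)
  (κ : Type) [Fintype κ] (L : Lv D κ),
  (D.All fun d z => (∀ l, ContDiffAt ℝ ∞ (L.ut l d) z) ∧ 0 < L.nn d z ∧
    ContDiffAt ℝ ∞ (L.nn d) z ∧ ContDiffAt ℝ ∞ (L.b d) z ∧ 0 < L.b d z ∧
    (∀ l l', ContDiffAt ℝ ∞ (L.cc l l' d) z) ∧
    (∀ l, ∃ t, SmN t z ∧ ∀ᶠ y in 𝓝 z, L.ut l d y = L.U l d y + xm (D.c d) (sp L.a) y * t y) ∧
    (∀ l, Off (D.c d) z →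
      D.rd (D.avg (L.f l)) d z = xm (D.c d) (-fun i => (L.a i : ℤ)) z * L.ut l d z) ∧
    (∀ l, PolH (D.c d) (fun i => L.a i) (L.f l d) z) ∧
    (∀ l, Pol (D.c d) (fun i => L.a i) (D.rd (D.avg (L.f l)) d) z) ∧
    ∀ j, Pol (D.c d) (-sp L.a) (L.eta d j) z ∧ ∀ l, Pol (D.c d) (-sp L.a) (dzb j (L.ut l d)) z) ∧
  D.Ov fun a d x => (∀ l, L.ut l d (D.e d x) =
      L.ut l a (D.e a x) * D.um (-fun i => (L.a i : ℤ)) a d x) ∧
    (∀ l l', L.cc l l' d (D.e d x) = L.cc l l' a (D.e a x)) ∧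
    L.b d (D.e d x) = L.b a (D.e a x) *
      (∏ i, normSq (D.u a d i x) ^ (L.r i + L.G i - if i ∈ L.T then 1 else 0)) *
        normSq (D.J a d x).det ∧
    L.dd d (D.e d x) = L.dd a (D.e a x) * normSq (D.J a d x).det

/-- The weight of the level on a stratum. -/
def St_WGT : Prop := ∀ (n : ℕ) (M : Mf n) [M.Cpt] (ι : Type) [Fintype ι] [DecidableEq ι] (D : Ad M ι)
  (κ : Type) [Fintype κ] (L : Lv D κ) (I : Finset ι), I ⊆ L.T → (I.Nonempty ∨ L.s = 0) →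
  D.Wgt I (D.kap L.G L.T I) L.r L.b

/-- From the output of the harmonic lemma to harmonic fields. -/
def St_THE : Prop := ∀ (n : ℕ) (M : Mf n) [M.Cpt] (ι : Type) [Fintype ι] [DecidableEq ι] (D : Ad M ι)
  (κ : Type) [Fintype κ] (L : Lv D κ) (I : Finset ι) (V : D.A → E n → E n), I ⊆ L.T →
  (I.Nonempty ∨ L.s = 0) → D.Fld I (D.kap L.G L.T I) V →
  (D.All fun a z => Sl (D.c a) I z →
    hess (fun y => (Real.log (L.b a (prj (D.c a) I y)) : ℂ)) z *ᵥ V a z = 0 ∧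
    ((∀ i ∉ I, xi (D.c a) i z ≠ 0) →
      dvD (fun y => L.b a (prj (D.c a) I y) * xr (D.c a) L.r y) (V a) z = 0)) → L.Har I V

/-- Decomposition. -/
def St_DEC : Prop := ∀ (n : ℕ) (M : Mf n) [M.Cpt] (H : M.Fam (Mat n)) (ι : Type) [Fintype ι]
  [DecidableEq ι] (D : Ad M ι) (κ : Type) [Fintype κ] (L : Lv D κ) (p : ℕ) (K : ι → ℤ)
  (g : D.A → E n → ℂ), M.Kae H → (0 < p ∨ L.s = 0) → (D.All fun a z => PolH (D.c a) K (g a) z) →
  D.Dif (fun a => WtH (D.c a) L.G L.T (p + 1)) g → ∃ w V, D.SecF L.G L.T p w ∧ L.HarF p V ∧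
    D.Rep H L.G L.T p (D.avg g - D.ext L.G L.T p w) V

/-- A harmonic field modulo the ideal of its stratum. -/
def St_VU : Prop := ∀ (n : ℕ) (M : Mf n) [M.Cpt] (ι : Type) [Fintype ι] [DecidableEq ι] (D : Ad M ι)
  (κ : Type) [Fintype κ] (L : Lv D κ) (I : Finset ι) (V : D.A → E n → E n), I ⊆ L.T →
  (I.Nonempty ∨ L.s = 0) → L.Har I V → D.All fun d z => ∃ lam, SmN lam z ∧
    (∀ l, Idl (D.c d) I (fun y => L.s * (app (V d) (L.ut l d) y - lam y * L.ut l d y)) z) ∧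
    Idl (D.c d) I (fun y => xs (D.c d) (fr L.r) y * (dv (V d) y +
      app (V d) (L.w d) y / (L.m * L.w d y) - L.s * lam y +
      ∑ i, L.r i * (D.c d i).elim 0 (V d y) / xi (D.c d) i y)) z

/-- The divergence of the test field. -/
def St_Q3 : Prop := ∀ (n : ℕ) (M : Mf n) [M.Cpt] (ι : Type) [Fintype ι] [DecidableEq ι] (D : Ad M ι)
  (κ : Type) [Fintype κ] (L : Lv D κ) (p : ℕ) (V : Finset ι → D.A → E n → E n),
  (0 < p ∨ L.s = 0) → L.HarF p V → D.All fun d z => WQ (D.c d) L.G L.r L.T p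
    (fun y => dvD (L.dd d) (L.vh p V d) y + L.s * ∑ j, star (L.eta d j y) * L.vh p V d y j) z

/-- The test fields of two charts differ by a field of lower weight. -/
def St_Q4 : Prop := ∀ (n : ℕ) (M : Mf n) [M.Cpt] (ι : Type) [Fintype ι] [DecidableEq ι] (D : Ad M ι)
  (κ : Type) [Fintype κ] (L : Lv D κ) (p : ℕ) (V : Finset ι → D.A → E n → E n), L.HarF p V →
  D.All fun d z => Wt (D.c d) L.G L.T p (D.rd (fun x => ∑ a, (D.e a).source.indicator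
    (fun y => app (L.vh p V a) (fun t => ((D.rd (D.χ a) a t : ℝ) : ℂ)) (D.e a y)) x) d) z

/-- The derivative of the projector along the test field. -/
def St_Q5 : Prop := ∀ (n : ℕ) (M : Mf n) [M.Cpt] (ι : Type) [Fintype ι] [DecidableEq ι] (D : Ad M ι)
  (κ : Type) [Fintype κ] (L : Lv D κ) (p : ℕ) (V : Finset ι → D.A → E n → E n),
  (0 < p ∨ L.s = 0) → L.HarF p V → ∀ l l', D.All fun d z => ∃ (Q : E n → ℂ) (t : Fin n → E n → ℂ),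
    Wt (D.c d) L.G L.T p Q z ∧ (∀ j, Pol (D.c d) (-sp L.a) (t j) z) ∧
    ∀ᶠ y in 𝓝 z, Off (D.c d) y → L.s * ∑ j, dzb j (L.cc l l' d) y * star (L.vh p V d y j) =
      star (Q y) + L.s * ∑ j, t j y * star (L.vh p V d y j)

/-- The master identity in one chart. -/
def St_ML1 : Prop := ∀ (n : ℕ) (M : Mf n) [M.Cpt] (ι : Type) [Fintype ι] [DecidableEq ι]
  (D : Ad M ι) (κ : Type) [Fintype κ] (L : Lv D κ) (p : ℕ) (V : Finset ι → D.A → E n → E n)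
  (F : E n → ℂ) (K : ι → ℤ) (ρ ρ' : Finset ι → E n → ℂ) (d : D.A) (v : E n → ℝ),
  (0 < p ∨ L.s = 0) → L.HarF p V → Tst (D.c d) v →
  (∀ i ∉ L.T, L.r i = 0 → K i ≤ L.G i) → (∀ z ∈ B2 n, Pol (D.c d) K F z) →
  (∀ z ∈ B2 n, Main (D.c d) L.r L.T p ρ (fun y => (L.dd d y : ℝ) *
    ∑ j, L.nab d j F y * star (L.vh p V d y j)) z) →
  (∀ z ∈ B2 n, Main (D.c d) L.r L.T (p + 1) ρ' (fun y => (L.dd d y : ℝ) *
    (F y * star (hat (D.c d) L.G L.T (p + 1) (fun J => D.dl L.T p V J d) y))) z) →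
  Val (fun t => t ^ p * ∫ z in B2 n, cut (D.c d) v t z * ((L.dd d z : ℝ) *
      (F z * star (app (L.vh p V d) (fun x => ((D.rd (D.χ d) d x : ℝ) : ℂ)) z))))
    (-((∑ I ∈ L.T.powersetCard p, SI (D.c d) I
        ((B2 n).indicator fun z => (D.rd (D.χ d) d z * xr (D.c d) L.r z : ℝ) * ρ I z)) +
      ∑ I ∈ L.T.powersetCard (p + 1), SI (D.c d) I
        ((B2 n).indicator fun z => (D.rd (D.χ d) d z * xr (D.c d) L.r z : ℝ) * ρ' I z)))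

/-- The terms with a derivative of the partition of unity. -/
def St_ML2 : Prop := ∀ (n : ℕ) (M : Mf n) [M.Cpt] (ι : Type) [Fintype ι] [DecidableEq ι]
  (D : Ad M ι) (κ : Type) [Fintype κ] (L : Lv D κ) (p : ℕ) (V : Finset ι → D.A → E n → E n)
  (F : M.X → ℂ) (K : ι → ℤ) (N : M.X → ℝ) (v : D.A → E n → ℝ), L.HarF p V → D.Cut N v →
  (∀ i ∉ L.T, L.r i = 0 → K i ≤ L.G i) → (D.All fun d z => Pol (D.c d) K (D.rd F d) z) →
  Val (fun t => ∑ d, t ^ p * ∫ z in B2 n, cut (D.c d) (v d) t z * ((L.dd d z : ℝ) *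
      (D.rd F d z * star (app (L.vh p V d) (fun x => ((D.rd (D.χ d) d x : ℝ) : ℂ)) z)))) 0

/-- The master identity. -/
def St_ML : Prop := ∀ (n : ℕ) (M : Mf n) [M.Cpt] (ι : Type) [Fintype ι] [DecidableEq ι]
  (D : Ad M ι) (κ : Type) [Fintype κ] (L : Lv D κ) (p : ℕ) (V : Finset ι → D.A → E n → E n)
  (F : M.X → ℂ) (K : ι → ℤ) (ρ ρ' : Finset ι → D.A → E n → ℂ), (0 < p ∨ L.s = 0) → L.HarF p V →
  (∀ i ∉ L.T, L.r i = 0 → K i ≤ L.G i) → (D.All fun d z => Pol (D.c d) K (D.rd F d) z) →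
  (D.All fun d z => Main (D.c d) L.r L.T p (fun I => ρ I d) (fun y => (L.dd d y : ℝ) *
    ∑ j, L.nab d j (D.rd F d) y * star (L.vh p V d y j)) z) →
  (D.All fun d z => Main (D.c d) L.r L.T (p + 1) (fun I => ρ' I d) (fun y => (L.dd d y : ℝ) *
    (D.rd F d y * star (hat (D.c d) L.G L.T (p + 1) (fun J => D.dl L.T p V J d) y))) z) →
  D.SS L.r L.T p ρ + D.SS L.r L.T (p + 1) ρ' = 0

/-- The adjoint of the sum of the normal components. -/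
def St_ADJ : Prop := ∀ (n : ℕ) (M : Mf n) [M.Cpt] (H : M.Fam (Mat n)) (ι : Type) [Fintype ι]
  [DecidableEq ι] (D : Ad M ι) (κ : Type) [Fintype κ] (L : Lv D κ) (p : ℕ)
  (V V' : Finset ι → D.A → E n → E n) (F : M.X → ℂ) (σ : Finset ι → D.A → E n → ℂ),
  (0 < p ∨ L.s = 0) → L.HarF p V →
  (D.All fun d z => Res (D.c d) L.G L.T (p + 1) (fun I => σ I d) (D.rd F d) z) →
  D.Rep H L.G L.T p F V' → L.ipV H p V' V + L.ipS (p + 1) σ (D.dl L.T p V) = 0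

/-- The polarised identity. -/
def St_KEY1 : Prop := ∀ (n : ℕ) (M : Mf n) [M.Cpt] (H : M.Fam (Mat n)) (ι : Type) [Fintype ι]
  [DecidableEq ι] (D : Ad M ι) (κ : Type) [Fintype κ] (L : Lv D κ) (p : ℕ)
  (V : κ → Finset ι → D.A → E n → E n) (F : κ → M.X → ℂ), (0 < p ∨ L.s = 0) →
  (∀ l, L.HarF p (V l)) → (∀ l, D.dl L.T p (V l) = 0) →
  (∀ l, D.All fun d z => Pol (D.c d) L.G (D.rd (D.avg (L.f l) - F l) d) z) →
  (∀ l, D.Rep H L.G L.T p (F l) (V l)) → ∀ l, D.SS L.r L.T p (fun I d z => (L.b d z : ℝ) *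
    (star (V l I d z) ⬝ᵥ H (D.e d) z *ᵥ V l I d z -
      L.s * ∑ l', L.cc l l' d z * (star (V l I d z) ⬝ᵥ H (D.e d) z *ᵥ V l' I d z))) = 0

/-- The harmonic parts vanish. -/
def St_KEY : Prop := ∀ (n : ℕ) (M : Mf n) [M.Cpt] (H : M.Fam (Mat n)) (ι : Type) [Fintype ι]
  [DecidableEq ι] (D : Ad M ι) (κ : Type) [Fintype κ] (L : Lv D κ) (p : ℕ)
  (V : κ → Finset ι → D.A → E n → E n) (F : κ → M.X → ℂ), M.Met H → (0 < p ∨ L.s = 0) →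
  (∀ l, L.HarF p (V l)) → (∀ l, D.dl L.T p (V l) = 0) →
  (∀ l, D.All fun d z => Pol (D.c d) L.G (D.rd (D.avg (L.f l) - F l) d) z) →
  (∀ l, D.Rep H L.G L.T p (F l) (V l)) → ∀ l, D.Rep H L.G L.T p (F l) 0

/-- Harmonic fields form a vector space, and the scalar products. -/
def St_IP : Prop := ∀ (n : ℕ) (M : Mf n) [M.Cpt] (H : M.Fam (Mat n)) (ι : Type) [Fintype ι]
  [DecidableEq ι] (D : Ad M ι) (κ : Type) [Fintype κ] (L : Lv D κ) (p : ℕ), M.Met H →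
  (L.HarF p 0 ∧ ∀ V V' (t : ℂ), L.HarF p V → L.HarF p V' → L.HarF p (V + t • V')) ∧
  (∀ V V' W (t : ℂ), L.HarF p V → L.HarF p V' → L.HarF p W →
    L.ipV H p (V + t • V') W = L.ipV H p V W + t * L.ipV H p V' W ∧
    L.ipV H p W V = star (L.ipV H p V W) ∧ 0 ≤ L.ipV H p V V) ∧
  ∀ σ σ' τ (t : ℂ), D.HSec L.G L.T p σ → D.HSec L.G L.T p σ' → D.HSec L.G L.T p τ →
    L.ipS p (σ + t • σ') τ = L.ipS p σ τ + t * L.ipS p σ' τ ∧
    L.ipS p τ σ = star (L.ipS p σ τ) ∧ 0 ≤ L.ipS p σ σ ∧ (L.ipS p σ σ = 0 → σ = 0)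

/-- The correction by holomorphic sections on the deeper strata. -/
def St_GYS : Prop := ∀ (n : ℕ) (M : Mf n) [M.Cpt] (H : M.Fam (Mat n)) (ι : Type) [Fintype ι]
  [DecidableEq ι] (D : Ad M ι) (κ : Type) [Fintype κ] (L : Lv D κ) (p : ℕ)
  (V : Finset ι → D.A → E n → E n), M.Kae H → (0 < p ∨ L.s = 0) → L.HarF p V →
  ∃ σ w V', D.HSec L.G L.T (p + 1) σ ∧ D.SecF L.G L.T p w ∧ L.HarF p V' ∧ L.HarF p (V - V') ∧
    D.Rep H L.G L.T p (D.ext L.G L.T (p + 1) σ - D.ext L.G L.T p w) V' ∧ D.dl L.T p (V - V') = 0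

/-- One step of the induction on the depth. -/
def St_STEP : Prop := ∀ (n : ℕ) (M : Mf n) [M.Cpt] (H : M.Fam (Mat n)) (ι : Type) [Fintype ι]
  [DecidableEq ι] (D : Ad M ι) (κ : Type) [Fintype κ] (L : Lv D κ) (p : ℕ)
  (g : κ → D.A → E n → ℂ), M.Kae H → (0 < p ∨ L.s = 0) → L.Cor (p + 1) g → ∃ g', L.Cor p g'

/-- One level. -/
def St_LEVEL : Prop := ∀ (n : ℕ) (M : Mf n) [M.Cpt] (H : M.Fam (Mat n)) (ι : Type) [Fintype ι]
  [DecidableEq ι] (D : Ad M ι) (κ : Type) [Fintype κ] (L : Lv D κ), M.Kae H →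
  (∃ g, L.Cor 1 g) ∧ (L.s = 0 → ∃ g, L.Cor 0 g)

end Pool.Agent.Lib.EX
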