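import Pool.Agent.Lib.EX.SDefs

/-! Project ex41: the two target statements. -/

open scoped Manifold ContDiff

namespace Pool.Agent.Lib.EX

open Pool.Agent.Lib.SV Pool.Agent.Lib.HS Pool.Agent.Lib.GH Pool.Agent.Lib.KP

/-- The coefficients `δ i = s k i - l i / m` of the boundary. -/
structure Coef {I : Type} (m : ℕ) (ex : Set I) (k : I → ℕ) (l : I → ℤ) (s : ℝ) : Prop where
  top : ∀ i, 0 < k i → s * k i - l i / m ≤ 2 ∧ (i ∉ ex → 1 < s * k i - l i / m)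
  off : ∀ i, k i = 0 → -m < l i ∧ (i ∉ ex → l i ≤ 0)

/-- The extension theorem. -/
def St_TARGET : Prop := ∀ (n : ℕ) (Y ι I : Type) [TopologicalSpace Y] [ChartedSpace (E n) Y]
  [IsManifold 𝓘(ℂ, E n) ω Y] [CompactSpace Y] [T2Space Y] [ConnectedSpace Y] [Fintype I]
  (G : Y → Mat n) (m : ℕ) (D : I → Set Y) (ex : Set I) (k : I → ℕ) (l : I → ℤ) (η : Y → ℂ)
  (W : ι → Set Y) (σ : ι → Y → ℂ) (g : ι → ι → Y → ℂ) (s : ℝ) (u : ι → Y → ℂ),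
  Kaehler G → 0 < m → LogRes n m D ex k l η W σ g → 0 < s → s ≤ 1 → Coef m ex k l s →
  Gen n W g (⋃ i ∈ {i | 0 < k i}, D i) → SecOn n W g (⋃ i ∈ {i | 0 < k i}, D i) u →
  ∃ v, SecOn n W g Set.univ v ∧ ∀ a, ∀ y ∈ W a ∩ ⋃ i ∈ {i | 0 < k i}, D i, v a y = u a y

/-- Semi-ampleness. -/
def St_SA : Prop := ∀ (n : ℕ) (Y ι I : Type) [TopologicalSpace Y] [ChartedSpace (E n) Y]
  [IsManifold 𝓘(ℂ, E n) ω Y] [CompactSpace Y] [T2Space Y] [ConnectedSpace Y] [Fintype I]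
  (G : Y → Mat n) (m : ℕ) (D : I → Set Y) (ex : Set I) (k : I → ℕ) (l : I → ℤ) (η : Y → ℂ)
  (W : ι → Set Y) (σ : ι → Y → ℂ) (g : ι → ι → Y → ℂ) (s : ℝ),
  Kaehler G → 0 < m → LogRes n m D ex k l η W σ g → 0 < s → s ≤ 1 → Coef m ex k l s →
  Gen n W g (⋃ i ∈ {i | 0 < k i}, D i) → Gen n W g Set.univ

end Pool.Agent.Lib.EX
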