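import Pool.Agent.Lib.EX.MDefs
import Pool.Agent.Lib.EX.Stmt
import Pool.Agent.Lib.HS.B_BRIDGE

/-! Project ex41: blueprint of the bridge between the statement and the manifold layer. -/

open scoped Classical Topology ContDiff ComplexOrder Matrix Manifold
open Set MeasureTheory Complex Metric Filter

set_option linter.unusedVariables false

noncomputable section

namespace Pool.Agent.Lib.EX

open Pool.Agent.Lib.SV (E)
open Pool.Agent.Lib.HS32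
open Pool.Agent.Lib.HS.BBR (mf)

/-- The atlas is adapted to the sets `S i`. -/
def Ad.Fit {n : ℕ} {M : Mf n} {ι : Type} [Fintype ι] [DecidableEq ι] (D : Ad M ι)
    (S : ι → Set M.X) : Prop :=
  D.All fun b z => ∀ i, (D.e b).symm z ∈ S i ↔ xi (D.c b) i z = 0

/-- Two reduced equations differ by a unit. -/
def St_UNI : Prop := ∀ (n : ℕ) (ι : Type) (c : ι → Option (Fin n)) (i : ι) (h : E n → ℂ) (z : E n),
  HolN h z → (∀ᶠ y in 𝓝 z, h y = 0 ↔ xi c i y = 0) → (h z = 0 → fderiv ℂ h z ≠ 0) →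
  ∃ u, HolN u z ∧ u z ≠ 0 ∧ ∀ᶠ y in 𝓝 z, h y = u y * xi c i y

/-- Adapted atlases exist and can be taken fine. -/
def St_ADA : Prop := ∀ (n : ℕ) (M : Mf n) [M.Cpt] (ι : Type) [Fintype ι] [DecidableEq ι]
  (S : ι → Set M.X) (O : M.X → Set M.X), (∀ x, O x ∈ 𝓝 x) →
  (∀ x, ∃ e ∈ M.C, x ∈ e.source ∧ ∃ h : ι → E n → ℂ,
    (∀ᶠ z in 𝓝 (e x), ∀ i, DifferentiableAt ℂ (h i) z ∧ (e.symm z ∈ S i ↔ h i z = 0)) ∧
    LinearIndependent ℂ fun i : {i // x ∈ S i} => fderiv ℂ (h i) (e x)) →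
  ∃ D : Ad M ι, D.Fit S ∧ ∀ b, ∃ x, (D.e b).source ⊆ O x

/-- The data on the manifold layer. -/
def St_RSB : Prop := ∀ (n : ℕ) (Y ι I : Type) [TopologicalSpace Y] [ChartedSpace (E n) Y]
  [IsManifold 𝓘(ℂ, E n) ω Y] [CompactSpace Y] [T2Space Y] [ConnectedSpace Y] [Fintype I]
  [DecidableEq I] (m : ℕ) (S : I → Set Y) (ex : Set I) (k : I → ℕ) (l : I → ℤ) (η : Y → ℂ)
  (W : ι → Set Y) (σ : ι → Y → ℂ) (g : ι → ι → Y → ℂ) (s : ℝ), 0 < m →
  LogRes n m S ex k l η W σ g → 0 < s → s ≤ 1 → Coef m ex k l s →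
  ∃ (D : Ad (mf n Y) I) (R : Rs D) (α : D.A → ι), D.Fit S ∧ R.a = k ∧
    (∀ b, (R.B b).W = W (α b)) ∧ ∀ a, ∃ v : D.A → E n → ℂ, D.On (W a) fun d z =>
      HolN (v d) z ∧ v d z ≠ 0 ∧ D.rd (σ a) d z = v d z * xm (D.c d) (fun i => k i) z

/-- The bridge. -/
def St_BRG : Prop := St_SING → St_TARGET

end Pool.Agent.Lib.EX
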