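import Pool.Agent.Lib.KP.Kit

/-! Coordinate slices and closed submanifolds as manifolds. -/

open scoped Classical Topology ContDiff ComplexOrder Matrix
open Set Complex Metric Filter Function

set_option linter.unusedVariables false

noncomputable section

namespace Pool.Agent.Lib.EX.K19

open Pool.Agent.Lib.SV (E)
open Pool.Agent.Lib.HS32

variable {n m : ℕ}

/-! ### The coordinate subspace -/

/-- Extension by zero. -/
def up (ι : Fin m → Fin n) (z : E m) : E n := fun i => ∑ j, if ι j = i then z j else 0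

/-- Restriction of the coordinates. -/
def dn (ι : Fin m → Fin n) (w : E n) : E m := fun j => w (ι j)

/-- Extension by zero as a linear map. -/
def upL (ι : Fin m → Fin n) : E m →L[ℂ] E n :=
  ContinuousLinearMap.pi fun i => ∑ j, if ι j = i then ContinuousLinearMap.proj j else 0

/-- Restriction of the coordinates as a linear map. -/
def dnL (ι : Fin m → Fin n) : E n →L[ℂ] E m :=
  ContinuousLinearMap.pi fun j => ContinuousLinearMap.proj (ι j)

variable {ι ι' : Fin m → Fin n}

theorem upL_eq (ι : Fin m → Fin n) : (upL ι : E m → E n) = up ι := by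
  funext z i
  simp only [upL, up, ContinuousLinearMap.pi_apply, sum_apply]
  refine Finset.sum_congr rfl fun j _ => ?_
  split_ifs <;> simp

theorem dnL_eq (ι : Fin m → Fin n) : (dnL ι : E n → E m) = dn ι := rfl

theorem up_in (h : Injective ι) (z : E m) (j : Fin m) : up ι z (ι j) = z j := by
  simp only [up, h.eq_iff, Finset.sum_ite_eq', Finset.mem_univ, if_true]

theorem up_out (z : E m) {i : Fin n} (hi : i ∉ range ι) : up ι z i = 0 :=
  Finset.sum_eq_zero fun j _ => if_neg fun h => hi ⟨j, h⟩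

theorem up_eq (h : Injective ι) (z : E m) : Function.extend ι z 0 = up ι z := by
  funext i
  by_cases hi : i ∈ range ι
  · obtain ⟨j, rfl⟩ := hi
    rw [up_in h, h.extend_apply]
  · rw [up_out _ hi, Function.extend_apply' _ _ _ hi]; rfl

theorem dn_up (h : Injective ι) (z : E m) : dn ι (up ι z) = z := funext fun j => up_in h z j

theorem up_dn (h : Injective ι) {w : E n} (hw : ∀ i ∉ range ι, w i = 0) : up ι (dn ι w) = w := by
  funext i
  by_cases hi : i ∈ range ι
  · obtain ⟨j, rfl⟩ := hi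
    exact up_in h _ j
  · rw [up_out _ hi, hw i hi]

theorem up_single (h : Injective ι) (j : Fin m) (c : ℂ) :
    up ι (Pi.single j c) = Pi.single (ι j) c := by
  funext i
  by_cases hi : i ∈ range ι
  · obtain ⟨k, rfl⟩ := hi
    rw [up_in h]
    simp only [Pi.single_apply, h.eq_iff]
  · rw [up_out _ hi, Pi.single_apply, if_neg fun e => hi ⟨j, e.symm⟩]

theorem up_fd (ι : Fin m → Fin n) (z : E m) : HasFDerivAt (up ι) (upL ι) z := by
  rw [← upL_eq]; exact (upL ι).hasFDerivAt

theorem dn_fd (ι : Fin m → Fin n) (w : E n) : HasFDerivAt (dn ι) (dnL ι) w := (dnL ι).hasFDerivAt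

theorem up_diff (ι : Fin m → Fin n) : Differentiable ℂ (up ι) :=
  fun z => (up_fd ι z).differentiableAt

theorem dn_diff (ι : Fin m → Fin n) : Differentiable ℂ (dn ι) :=
  fun z => (dn_fd ι z).differentiableAt

theorem up_cont (ι : Fin m → Fin n) : Continuous (up ι) := (up_diff ι).continuous

theorem dn_cont (ι : Fin m → Fin n) : Continuous (dn ι) := (dn_diff ι).continuous

theorem up_cd (ι : Fin m → Fin n) : ContDiff ℝ ∞ (up ι) := by
  rw [← upL_eq]; exact ((upL ι).restrictScalars ℝ).contDiff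

theorem dn_cd (ι : Fin m → Fin n) : ContDiff ℝ ∞ (dn ι) := ((dnL ι).restrictScalars ℝ).contDiff

theorem up_zero (ι : Fin m → Fin n) : up ι 0 = 0 := by rw [← upL_eq, map_zero]

theorem norm_up (h : Injective ι) (z : E m) : ‖up ι z‖ = ‖z‖ := by
  refine le_antisymm ((pi_norm_le_iff_of_nonneg (norm_nonneg z)).2 fun i => ?_)
    ((pi_norm_le_iff_of_nonneg (norm_nonneg _)).2 fun j => ?_)
  · by_cases hi : i ∈ range ι
    · obtain ⟨k, rfl⟩ := hi
      rw [up_in h]; exact norm_le_pi_norm z k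
    · rw [up_out _ hi, norm_zero]; exact norm_nonneg z
  · rw [← up_in h z j]; exact norm_le_pi_norm _ _

theorem fderiv_up {F : Type} [NormedAddCommGroup F] [NormedSpace ℝ F] {f : E n → F} {z : E m}
    (hf : DifferentiableAt ℝ f (up ι z)) (v : E m) :
    fderiv ℝ (f ∘ up ι) z v = fderiv ℝ f (up ι z) (up ι v) := by
  rw [(hf.hasFDerivAt.comp z ((up_fd ι z).restrictScalars ℝ)).fderiv, ← upL_eq]; rfl

theorem dz_up (h : Injective ι) {f : E n → ℂ} {z : E m} (hf : DifferentiableAt ℝ f (up ι z))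
    (j : Fin m) : dz j (f ∘ up ι) z = dz (ι j) f (up ι z) := by
  simp only [dz, fderiv_up hf, up_single h]

theorem dzb_up (h : Injective ι) {f : E n → ℂ} {z : E m} (hf : DifferentiableAt ℝ f (up ι z))
    (j : Fin m) : dzb j (f ∘ up ι) z = dzb (ι j) f (up ι z) := by
  simp only [dzb, fderiv_up hf, up_single h]

theorem cd_up {F : Type} [NormedAddCommGroup F] [NormedSpace ℝ F] {f : E n → F} {z : E m}
    (hf : ContDiffAt ℝ ∞ f (up ι z)) : ContDiffAt ℝ ∞ (f ∘ up ι) z :=
  hf.comp z (up_cd ι).contDiffAt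

theorem hess_up (h : Injective ι) {f : E n → ℂ} {z : E m} (hf : ContDiffAt ℝ ∞ f (up ι z)) :
    hess (f ∘ up ι) z = (hess f (up ι z)).submatrix ι ι := by
  ext i j
  have e : dz j (f ∘ up ι) =ᶠ[𝓝 z] dz (ι j) f ∘ up ι :=
    ((up_cont ι).continuousAt.eventually (cd_ev_diff hf)).mono fun w hw => dz_up h hw j
  rw [hess_apply, dzb_congr e, dzb_up h (cd_diff (cd_dz hf _))]
  rfl

theorem holN_up {F : Type} [NormedAddCommGroup F] [NormedSpace ℂ F] {f : E n → F} {z : E m}
    (hf : HolN f (up ι z)) : HolN (f ∘ up ι) z :=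
  ((up_cont ι).continuousAt.eventually hf).mono fun w hw => hw.comp w (up_diff ι w)

theorem holN_dn {F : Type} [NormedAddCommGroup F] [NormedSpace ℂ F] {f : E m → F} {w : E n}
    (hf : HolN f (dn ι w)) : HolN (f ∘ dn ι) w :=
  ((dn_cont ι).continuousAt.eventually hf).mono fun v hv => hv.comp v (dn_diff ι v)

theorem cd_dn {F : Type} [NormedAddCommGroup F] [NormedSpace ℝ F] {f : E m → F} {w : E n}
    (hf : ContDiffAt ℝ ∞ f (dn ι w)) : ContDiffAt ℝ ∞ (f ∘ dn ι) w :=
  hf.comp w (dn_cd ι).contDiffAt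

theorem smM_up {T : E n → Mat n} {z : E m} (hT : SmM T (up ι z)) :
    SmM (fun w => (T (up ι w)).submatrix ι ι) z := fun i j => cd_up (hT (ι i) (ι j))

theorem clM_up (h : Injective ι) {T : E n → Mat n} {z : E m} (hT : SmM T (up ι z))
    (hc : ClM T (up ι z)) : ClM (fun w => (T (up ι w)).submatrix ι ι) z := fun i j k =>
  ((dz_up h (hT.diff (ι i) (ι j)) k).trans (hc (ι i) (ι j) (ι k))).trans
    (dz_up h (hT.diff (ι i) (ι k)) j).symm

/-- The Jacobian matrix of a map that respects the coordinate subspaces. -/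
theorem jm_slice (h' : Injective ι') {ψ : E n → E n} {z : E m}
    (hψ : DifferentiableAt ℂ ψ (up ι' z)) :
    jm (dn ι ∘ ψ ∘ up ι') z = (jm ψ (up ι' z)).submatrix ι ι' := by
  ext i j
  have := ((dn_fd ι _).comp z (hψ.hasFDerivAt.comp z (up_fd ι' z))).fderiv
  simp only [jm, Matrix.of_apply, Matrix.submatrix_apply]
  rw [this]
  simp only [ContinuousLinearMap.comp_apply, upL_eq, up_single h']
  rfl

theorem jm_out (h' : Injective ι') {ψ : E n → E n} {z : E m}
    (hψ : DifferentiableAt ℂ ψ (up ι' z)) {i : Fin n}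
    (h0 : ∀ᶠ w in 𝓝 z, ψ (up ι' w) i = 0) (j : Fin m) : jm ψ (up ι' z) i (ι' j) = 0 := by
  have h1 := ((ContinuousLinearMap.proj (R := ℂ) (φ := fun _ : Fin n => ℂ) i).hasFDerivAt.comp z
    (hψ.hasFDerivAt.comp z (up_fd ι' z)))
  have h2 : HasFDerivAt (fun _ : E m => (0 : ℂ)) _ z := h1.congr_of_eventuallyEq
    (h0.mono fun w hw => hw.symm)
  have h3 := DFunLike.congr_fun (h2.unique (hasFDerivAt_const (0 : ℂ) z)) (Pi.single j 1)
  simp only [ContinuousLinearMap.comp_apply, upL_eq, up_single h'] at h3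
  exact h3

/-- Sums over the coordinates of the subspace. -/
theorem sum_range (h : Injective ι) {f : Fin n → ℂ} (h0 : ∀ i ∉ range ι, f i = 0) :
    ∑ i, f i = ∑ j, f (ι j) := by
  rw [← Finset.sum_image (s := Finset.univ) (g := ι) (f := f) h.injOn]
  refine (Finset.sum_subset (Finset.subset_univ _) fun i _ hi => h0 i fun ⟨j, e⟩ => hi ?_).symm
  exact Finset.mem_image.2 ⟨j, Finset.mem_univ j, e⟩

theorem sub_pull (h : Injective ι) {J T : Mat n} (h0 : ∀ i ∉ range ι, ∀ j, J i (ι' j) = 0) :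
    (Jᴴ * T * J).submatrix ι' ι' =
      (J.submatrix ι ι')ᴴ * T.submatrix ι ι * J.submatrix ι ι' := by
  ext a b
  simp only [Matrix.submatrix_apply, Matrix.mul_apply, Matrix.conjTranspose_apply]
  rw [sum_range h fun i hi => by rw [h0 i hi, mul_zero]]
  refine Finset.sum_congr rfl fun j _ => ?_
  rw [sum_range h fun i hi => by rw [h0 i hi, star_zero, zero_mul]]

theorem mulVec_up (h : Injective ι) (h' : Injective ι') {J : Mat n}
    (h0 : ∀ i ∉ range ι, ∀ j, J i (ι' j) = 0) (v : E m) :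
    J *ᵥ up ι' v = up ι (J.submatrix ι ι' *ᵥ v) := by
  have e : ∀ i, (J *ᵥ up ι' v) i = ∑ j, J i (ι' j) * v j := fun i => by
    simp only [Matrix.mulVec, dotProduct]
    rw [sum_range h' fun k hk => by rw [up_out _ hk, mul_zero]]
    simp only [up_in h']
  funext i
  by_cases hi : i ∈ range ι
  · obtain ⟨k, rfl⟩ := hi
    rw [up_in h, e]; rfl
  · rw [up_out _ hi, e]
    exact Finset.sum_eq_zero fun j _ => by rw [h0 i hi, zero_mul]

/-! ### Slices -/

variable {M : Mf n}

/-- Near the points of `W` the chart `e` maps `W` to the coordinate subspace. -/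
structure Adp (W : Set M.X) (e : M.Ch) (ι : Fin m → Fin n) : Prop where
  mem : e ∈ M.C
  inj : Injective ι
  loc : ∀ x ∈ W, x ∈ e.source → ∀ᶠ y in 𝓝 x, y ∈ W ↔ ∀ i ∉ range ι, e y i = 0

variable {W : Set M.X} {e e' : M.Ch}

theorem Adp.up_dn (h : Adp W e ι) {x : M.X} (hW : x ∈ W) (hx : x ∈ e.source) :
    up ι (dn ι (e x)) = e x := K19.up_dn h.inj ((h.loc x hW hx).self_of_nhds.1 hW)

theorem Adp.ev (h : Adp W e ι) {z : E m} (hz : up ι z ∈ e.target) (hW : e.symm (up ι z) ∈ W) :
    ∀ᶠ w in 𝓝 z, up ι w ∈ e.target ∧ e.symm (up ι w) ∈ W := by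
  have h1 := (up_cont ι).continuousAt.eventually (e.open_target.mem_nhds hz)
  have h2 := ((e.continuousAt_symm hz).comp (up_cont ι).continuousAt).eventually
    (h.loc _ hW (e.map_target hz))
  filter_upwards [h1, h2] with w a b
  exact ⟨a, b.2 fun i hi => by rw [Function.comp_apply, e.right_inv a, up_out _ hi]⟩

/-- The chart of `W` cut out by an adapted chart. -/
def sl (x₀ : W) (h : Adp W e ι) : OpenPartialHomeomorph W (E m) where
  toFun x := dn ι (e x)
  invFun z := if hz : e.symm (up ι z) ∈ W then ⟨_, hz⟩ else x₀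
  source := Subtype.val ⁻¹' e.source
  target := {z | up ι z ∈ e.target ∧ e.symm (up ι z) ∈ W}
  map_source' x hx := by
    have := h.up_dn x.2 hx
    exact ⟨this.symm ▸ e.map_source hx, by rw [this, e.left_inv hx]; exact x.2⟩
  map_target' z hz := by
    simp only [dif_pos hz.2]; exact e.map_target hz.1
  left_inv' x hx := by
    have h1 : e.symm (up ι (dn ι (e x))) = x := by rw [h.up_dn x.2 hx, e.left_inv hx]
    have h2 : e.symm (up ι (dn ι (e x))) ∈ W := h1.symm ▸ x.2
    simp only [dif_pos h2]; exact Subtype.ext h1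
  right_inv' z hz := by
    simp only [dif_pos hz.2]; rw [e.right_inv hz.1, dn_up h.inj]
  open_source := e.open_source.preimage continuous_subtype_val
  open_target := isOpen_iff_mem_nhds.2 fun z hz => h.ev hz.1 hz.2
  continuousOn_toFun := (dn_cont ι).comp_continuousOn
    (e.continuousOn.comp continuous_subtype_val.continuousOn fun x hx => hx)
  continuousOn_invFun := by
    rw [Topology.IsInducing.subtypeVal.continuousOn_iff]
    refine (e.continuousOn_symm.comp (up_cont ι).continuousOn fun z hz => hz.1).congr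
      fun z hz => ?_
    simp only [Function.comp_apply, dif_pos hz.2]

variable {x₀ : W}

theorem sl_apply (h : Adp W e ι) (x : W) : sl x₀ h x = dn ι (e x) := rfl

theorem sl_source (h : Adp W e ι) : (sl x₀ h).source = Subtype.val ⁻¹' e.source := rfl

theorem sl_target (h : Adp W e ι) :
    (sl x₀ h).target = {z | up ι z ∈ e.target ∧ e.symm (up ι z) ∈ W} := rfl

theorem sl_symm (h : Adp W e ι) {z : E m} (hz : z ∈ (sl x₀ h).target) :
    ((sl x₀ h).symm z : M.X) = e.symm (up ι z) := by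
  show ((if hz : e.symm (up ι z) ∈ W then ⟨_, hz⟩ else x₀ : W) : M.X) = _
  rw [dif_pos hz.2]

theorem sl_symm_ev (h : Adp W e ι) {z : E m} (hz : z ∈ (sl x₀ h).target) :
    ∀ᶠ w in 𝓝 z, ((sl x₀ h).symm w : M.X) = e.symm (up ι w) :=
  ((sl x₀ h).open_target.eventually_mem hz).mono fun w hw => sl_symm h hw

/-- The charts of `W` that are compatible with `M` and small with respect to the family `S`. -/
structure Cmp (S : Set M.Ch) (c : OpenPartialHomeomorph W (E m)) : Prop where
  sml : ∃ e ∈ S, ∀ x ∈ c.source, (x : M.X) ∈ e.source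
  inc : ∀ e ∈ M.C, ∀ z ∈ c.target, (c.symm z : M.X) ∈ e.source →
    DifferentiableAt ℂ (fun w => e (c.symm w)) z
  ext : ∀ x ∈ c.source, ∃ e ∈ M.C, (x : M.X) ∈ e.source ∧ ∃ F : E n → E m,
    DifferentiableAt ℂ F (e x) ∧ ∀ᶠ y in 𝓝 x, c y = F (e y)

theorem Adp.cmp {S : Set M.Ch} (h : Adp W e ι) (hS : e ∈ S) : Cmp S (sl x₀ h) where
  sml := ⟨e, hS, fun x hx => hx⟩
  inc e' he' z hz hx := by
    rw [sl_symm h hz] at hx
    have h1 := ((mTR n M).2.1 e' he' e h.mem _ hx (e.map_target hz.1)).1.self_of_nhds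
    rw [e.right_inv hz.1] at h1
    refine (h1.comp z (up_diff ι z)).congr_of_eventuallyEq ((sl_symm_ev h hz).mono fun w hw => ?_)
    simp only [Function.comp_apply, hw]
  ext x hx := ⟨e, h.mem, hx, dn ι, dn_diff ι _, Eventually.of_forall fun y => rfl⟩

/-- The submanifold. -/
def sub (x₀ : W) (S : Set M.Ch)
    (hc : ∀ x ∈ W, ∃ e ∈ S, x ∈ e.source ∧ ∃ ι : Fin m → Fin n, Adp W e ι) : Mf m where
  X := W
  C := {c | Cmp S c}
  cov x := by
    obtain ⟨e, he, hx, ι, h⟩ := hc x x.2
    exact ⟨sl x₀ h, h.cmp he, hx⟩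
  hol c hc c' hc' z hz := by
    obtain ⟨e, he, hx, F, hF, hev⟩ := hc.ext _ hz.2
    refine ((hF.comp z (f := fun w => e (c'.symm w)) (hc'.inc e he z hz.1 hx)).congr_of_eventuallyEq
      ((c'.continuousAt_symm hz.1).eventually hev)).differentiableWithinAt
  sat c hc ψ h1 h2 := by
    refine ⟨hc.sml.imp fun e he => ⟨he.1, fun x hx => he.2 x hx.1⟩, fun e he z hz hx => ?_,
      fun x hx => ?_⟩
    · exact (hc.inc e he (ψ.symm z) hz.2 hx).comp z
        (h2.differentiableAt (ψ.open_target.mem_nhds hz.1))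
    · obtain ⟨e, he, hx', F, hF, hev⟩ := hc.ext x hx.1
      refine ⟨e, he, hx', ψ ∘ F, DifferentiableAt.comp _ ?_ hF, hev.mono fun y hy => ?_⟩
      · rw [← hev.self_of_nhds]; exact h1.differentiableAt (ψ.open_source.mem_nhds hx.2)
      · exact congrArg ψ hy

/-! ### Transitions between slices -/

section tr

variable {S : Set M.Ch} {hc : ∀ x ∈ W, ∃ e ∈ S, x ∈ e.source ∧ ∃ ι : Fin m → Fin n, Adp W e ι}

theorem sl_mem (h : Adp W e ι) (he : e ∈ S) : sl x₀ h ∈ (sub x₀ S hc).C := h.cmp he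

theorem J_out (h : Adp W e ι) (h' : Adp W e' ι') {x : M.X} (hW : x ∈ W) (hx : x ∈ e.source)
    (hx' : x ∈ e'.source) : ∀ i ∉ range ι, ∀ j, M.J e e' x i (ι' j) = 0 := fun i hi j => by
  have u := h'.up_dn hW hx'
  have t := (mTR n M).2.1 e h.mem e' h'.mem x hx hx'
  have a : up ι' (dn ι' (e' x)) ∈ e'.target := u.symm ▸ e'.map_source hx'
  have b : e'.symm (up ι' (dn ι' (e' x))) = x := by rw [u, e'.left_inv hx']
  have c := ((e'.continuousAt_symm a).comp (up_cont ι').continuousAt).eventually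
    (p := fun y => y ∈ W ↔ ∀ i ∉ range ι, e y i = 0) (by
      rw [Function.comp_apply, b]; exact h.loc x hW hx)
  have := jm_out (ψ := e ∘ e'.symm) (z := dn ι' (e' x)) (i := i) h'.inj
    (by rw [u]; exact t.1.self_of_nhds) (by
      filter_upwards [c, h'.ev a (b.symm ▸ hW)] with w h1 h2
      exact h1.1 h2.2 i hi) j
  rwa [u] at this

theorem J_sl (h : Adp W e ι) (h' : Adp W e' ι') {x : W} (hx : (x : M.X) ∈ e.source)
    (hx' : (x : M.X) ∈ e'.source) :
    (sub x₀ S hc).J (sl x₀ h) (sl x₀ h') x = (M.J e e' x).submatrix ι ι' := by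
  have u := h'.up_dn x.2 hx'
  have t := (mTR n M).2.1 e h.mem e' h'.mem x hx hx'
  have a : sl x₀ h ∘ (sl x₀ h').symm =ᶠ[𝓝 (dn ι' (e' x))] dn ι ∘ (e ∘ e'.symm) ∘ up ι' :=
    (sl_symm_ev (x₀ := x₀) h' ((sl x₀ h').map_source hx')).mono fun w hw => by
      simp only [Function.comp_apply, sl_apply, hw]
  have b := jm_slice (ι := ι) (ψ := e ∘ e'.symm) (z := dn ι' (e' x)) h'.inj
    (by rw [u]; exact t.1.self_of_nhds)
  rw [u] at b
  refine Eq.trans ?_ b
  show jm (sl x₀ h ∘ (sl x₀ h').symm) (dn ι' (e' x)) = _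
  simp only [jm, a.fderiv_eq]

theorem cpt [T2Space M.X] (h1 : IsCompact W) (h2 : IsConnected W) : (sub x₀ S hc).Cpt where
  t2 := inferInstanceAs (T2Space W)
  cpt := isCompact_iff_compactSpace.1 h1
  con := isConnected_iff_connectedSpace.1 h2

end tr

/-! ### Components -/

theorem Adp.rel {T : Set M.X} (h : Adp T e ι) (hW : W ⊆ T)
    (ho : ∀ x ∈ W, ∀ᶠ y in 𝓝 x, y ∈ T → y ∈ W) : Adp W e ι where
  mem := h.mem
  inj := h.inj
  loc x hx hx' := by
    filter_upwards [h.loc x (hW hx) hx', ho x hx] with y a b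
    exact ⟨fun c => a.1 (hW c), fun c => b (a.2 c)⟩

theorem locCon (N : Mf m) : LocallyConnectedSpace N.X := by
  let _ : ChartedSpace (E m) N.X :=
    ⟨N.C, N.ch, fun x => Mf.mem_ch x, fun x => Mf.ch_mem x⟩
  exact ChartedSpace.locallyConnectedSpace (E m) N.X

/-- The components of a closed submanifold. -/
theorem comps [M.Cpt] {T : Set M.X} (hT : IsClosed T)
    (hc : ∀ x ∈ T, ∃ e : M.Ch, x ∈ e.source ∧ ∃ ι : Fin m → Fin n, Adp T e ι) :
    ∃ K : M.X → Set M.X, (K '' T).Finite ∧ ∀ x ∈ T, x ∈ K x ∧ K x ⊆ T ∧ IsCompact (K x) ∧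
      IsConnected (K x) ∧ (∀ y ∈ K x, K y = K x) ∧ ∀ᶠ y in 𝓝 x, y ∈ T → K y = K x := by
  refine ⟨connectedComponentIn T, ?_⟩
  rcases T.eq_empty_or_nonempty with rfl | ⟨x₁, h₁⟩
  · simp
  have hc' : ∀ x ∈ T, ∃ e ∈ M.C, x ∈ e.source ∧ ∃ ι : Fin m → Fin n, Adp T e ι :=
    fun x hx => (hc x hx).imp fun e he => ⟨he.2.choose_spec.mem, he⟩
  have : LocallyConnectedSpace T := locCon (sub ⟨x₁, h₁⟩ M.C hc')
  have : CompactSpace T := isCompact_iff_compactSpace.1 hT.isCompact
  have key : ∀ x ∈ T, ∀ᶠ y in 𝓝 x, y ∈ T → connectedComponentIn T y = connectedComponentIn T x :=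
    fun x hx => by
      have := (isOpen_connectedComponent (x := (⟨x, hx⟩ : T))).mem_nhds mem_connectedComponent
      rw [nhds_subtype, mem_comap] at this
      obtain ⟨U, hU, hs⟩ := this
      filter_upwards [hU] with y hy hyT
      refine (connectedComponentIn_eq ?_).symm
      rw [connectedComponentIn_eq_image hx]
      exact ⟨⟨y, hyT⟩, hs hy, rfl⟩
  refine ⟨?_, fun x hx => ⟨mem_connectedComponentIn hx, connectedComponentIn_subset _ _, ?_,
    isConnected_connectedComponentIn_iff.2 hx, fun y hy => (connectedComponentIn_eq hy).symm,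
    key x hx⟩⟩
  · obtain ⟨t, ht, hcov⟩ := hT.isCompact.elim_nhds_subcover _ key
    refine (t.finite_toSet.image (connectedComponentIn T)).subset ?_
    rintro _ ⟨y, hy, rfl⟩
    obtain ⟨x, hx, hyx⟩ := mem_iUnion₂.1 (hcov hy)
    exact ⟨x, hx, (hyx hy).symm⟩
  · rw [connectedComponentIn_eq_image hx]
    exact isClosed_connectedComponent.isCompact.image continuous_subtype_val

end Pool.Agent.Lib.EX.K19
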