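import Pool.Agent.Lib.EX.K19a

/-! Families indexed by a covering; restriction to a submanifold; adjunction. -/

open scoped Classical Topology ContDiff ComplexOrder Matrix
open Set Complex Metric Filter Function

set_option linter.unusedVariables false

noncomputable section

namespace Pool.Agent.Lib.EX.K19

open Pool.Agent.Lib.SV (E)
open Pool.Agent.Lib.HS32

variable {n m : ℕ}

/-! ### Change of chart -/

section chg

variable {N : Mf m} {d d' : N.Ch} {x : N.X}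

theorem holN_chg {F : Type} [NormedAddCommGroup F] [NormedSpace ℂ F] {f : N.X → F} (hd : d ∈ N.C)
    (hd' : d' ∈ N.C) (hx : x ∈ d.source) (hx' : x ∈ d'.source)
    (h : HolN (fun w => f (d.symm w)) (d x)) : HolN (fun w => f (d'.symm w)) (d' x) := by
  obtain ⟨t1, -, -, t3, -⟩ := (mTR m N).2.1 d hd d' hd' x hx hx'
  have c := t1.self_of_nhds.continuousAt.eventually
    (p := fun v => DifferentiableAt ℂ (fun w => f (d.symm w)) v) (by
      rw [Function.comp_apply, d'.left_inv hx']; exact h)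
  filter_upwards [t1, c, t3.eventually_nhds] with w h1 h2 h3
  refine (h2.comp w h1).congr_of_eventuallyEq (h3.mono fun y hy => ?_)
  simp only [Function.comp_apply, hy.2.2.2.2.1]

theorem cd_chg {F : Type} [NormedAddCommGroup F] [NormedSpace ℝ F] {f : N.X → F} (hd : d ∈ N.C)
    (hd' : d' ∈ N.C) (hx : x ∈ d.source) (hx' : x ∈ d'.source)
    (h : ContDiffAt ℝ ∞ (fun w => f (d.symm w)) (d x)) :
    ContDiffAt ℝ ∞ (fun w => f (d'.symm w)) (d' x) :=
  ((mTR m N).2.2.2.1 F f).2.1 d hd d' hd' x hx hx' h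

theorem iTen {A : Type} {c : A → N.Ch} (hc : ∀ a, c a ∈ N.C) (cov : ∀ x, ∃ a, x ∈ (c a).source)
    {T : A → E m → Mat m} (sm : ∀ a, ∀ z ∈ (c a).target, SmM (T a) z)
    (cmp : ∀ a b, ∀ x ∈ (c a).source, x ∈ (c b).source →
      T b (c b x) = (N.J (c a) (c b) x)ᴴ * T a (c a x) * N.J (c a) (c b) x) :
    N.Sub (range c) ∧ ∃ T', N.Ten T' ∧ ∀ a, ∀ z ∈ (c a).target, T' (c a) z = T a z := by
  have hS : N.Sub (range c) := ⟨range_subset_iff.2 hc, fun x => by
    obtain ⟨a, ha⟩ := cov x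
    exact ⟨_, ⟨a, rfl⟩, ha⟩⟩
  have key : ∀ a, ∀ z ∈ (c a).target, T (mem_range_self (f := c) a).choose z = T a z :=
    fun a z hz => by
      have e := (mem_range_self (f := c) a).choose_spec
      have := cmp (mem_range_self (f := c) a).choose a _
        (by rw [e]; exact (c a).map_target hz) ((c a).map_target hz)
      rw [e, (mTR m N).2.2.1 _ (hc a) _ ((c a).map_target hz), (c a).right_inv hz] at this
      simpa using this.symm
  obtain ⟨T', h1, h2⟩ := (mEXT m N _ hS).1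
    (fun d z => if h : d ∈ range c then T h.choose z else 0) (by
      rintro _ ⟨a, rfl⟩ z hz
      refine (sm a z hz).congr (((c a).open_target.eventually_mem hz).mono fun w hw => ?_)
      simp only [dif_pos (mem_range_self a), key a w hw]) (by
      rintro _ ⟨a, rfl⟩ _ ⟨b, rfl⟩ x hx hx'
      simp only [dif_pos (mem_range_self _), key a _ ((c a).map_source hx),
        key b _ ((c b).map_source hx')]
      exact cmp a b x hx hx')
  refine ⟨hS, T', h1, fun a z hz => ?_⟩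
  rw [h2 _ ⟨a, rfl⟩ z hz]
  simp only [dif_pos (mem_range_self a), key a z hz]

end chg

/-! ### Restriction of tensors -/

section res

variable {M : Mf n} {W : Set M.X} {x₀ : W} {S : Set M.Ch}
  {hc : ∀ x ∈ W, ∃ e ∈ S, x ∈ e.source ∧ ∃ ι : Fin m → Fin n, Adp W e ι}

/-- `T'` is the restriction of `T`. -/
def Res (x₀ : W) (hc : ∀ x ∈ W, ∃ e ∈ S, x ∈ e.source ∧ ∃ ι : Fin m → Fin n, Adp W e ι)
    (T : M.Fam (Mat n)) (T' : (sub x₀ S hc).Fam (Mat m)) : Prop :=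
  ∀ e ∈ S, ∀ (ι : Fin m → Fin n) (h : Adp W e ι), ∀ z ∈ (sl x₀ h).target,
    T' (sl x₀ h) z = (T e (up ι z)).submatrix ι ι

/-- The slices. -/
def Sls (x₀ : W) (hc : ∀ x ∈ W, ∃ e ∈ S, x ∈ e.source ∧ ∃ ι : Fin m → Fin n, Adp W e ι) :
    Set (sub x₀ S hc).Ch := {d | ∃ e ∈ S, ∃ (ι : Fin m → Fin n) (h : Adp W e ι), d = sl x₀ h}

theorem sls_sub : (sub x₀ S hc).Sub (Sls x₀ hc) := by
  refine ⟨?_, fun x => ?_⟩
  · rintro _ ⟨e, he, ι, h, rfl⟩
    exact sl_mem h he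
  · obtain ⟨e, he, hx, ι, h⟩ := hc x.1 x.2
    exact ⟨_, ⟨e, he, ι, h, rfl⟩, hx⟩

theorem resTen {T : M.Fam (Mat n)} (hT : M.Ten T) :
    ∃ T', (sub x₀ S hc).Ten T' ∧ Res x₀ hc T T' := by
  obtain ⟨-, T', h1, h2⟩ := iTen (N := sub x₀ S hc)
    (A := {p : M.Ch × (Fin m → Fin n) // p.1 ∈ S ∧ Adp W p.1 p.2})
    (c := fun a => sl x₀ a.2.2) (fun a => sl_mem a.2.2 a.2.1) (fun x => by
      obtain ⟨e, he, hx, ι, h⟩ := hc x.1 x.2
      exact ⟨⟨(e, ι), he, h⟩, hx⟩)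
    (T := fun a z => (T a.1.1 (up a.1.2 z)).submatrix a.1.2 a.1.2)
    (fun a z hz => smM_up (hT.sm _ a.2.2.mem _ hz.1)) (fun a b x hx hx' => by
      rw [J_sl a.2.2 b.2.2 hx hx']
      show (T b.1.1 (up b.1.2 (dn b.1.2 (b.1.1 x.1)))).submatrix b.1.2 b.1.2 =
        _ * (T a.1.1 (up a.1.2 (dn a.1.2 (a.1.1 x.1)))).submatrix a.1.2 a.1.2 * _
      rw [a.2.2.up_dn x.2 hx, b.2.2.up_dn x.2 hx', hT.cmp _ a.2.2.mem _ b.2.2.mem x.1 hx hx',
        sub_pull a.2.2.inj (J_out a.2.2 b.2.2 x.2 hx hx')])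
  exact ⟨T', h1, fun e he ι h z hz => h2 ⟨(e, ι), he, h⟩ z hz⟩

variable {T : M.Fam (Mat n)} {T' : (sub x₀ S hc).Fam (Mat m)}

theorem Res.form (h : Res x₀ hc T T') (h' : (sub x₀ S hc).Ten T') (hT : M.Form T) :
    (sub x₀ S hc).Form T' := by
  refine ⟨h', ((mSUB m _ _ sls_sub).1 T' h').1 ?_⟩
  rintro _ ⟨e, he, ι, a, rfl⟩ z hz
  rw [h e he ι a z hz]
  exact (hT.herm e a.mem _ hz.1).submatrix ι

theorem Res.clo (h : Res x₀ hc T T') (h' : (sub x₀ S hc).Ten T') (hT : M.Clo T) :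
    (sub x₀ S hc).Clo T' := by
  refine ⟨h.form h' hT.toForm, ((mSUB m _ _ sls_sub).1 T' h').2.2.2.1 ?_⟩
  rintro _ ⟨e, he, ι, a, rfl⟩ z hz
  exact (clM_up a.inj (hT.sm e a.mem _ hz.1) (hT.cl e a.mem _ hz.1)).congr
    (((sl x₀ a).open_target.eventually_mem hz).mono fun w hw => h e he ι a w hw)

theorem Res.met (h : Res x₀ hc T T') (h' : (sub x₀ S hc).Ten T') (hT : M.Met T) :
    (sub x₀ S hc).Met T' := by
  refine ⟨h.form h' hT.toForm, ((mSUB m _ _ sls_sub).1 T' h').2.1 ?_⟩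
  rintro _ ⟨e, he, ι, a, rfl⟩ z hz
  rw [h e he ι a z hz]
  exact (hT.pos e a.mem _ hz.1).submatrix a.inj

theorem Res.psd (h : Res x₀ hc T T') (h' : (sub x₀ S hc).Ten T')
    (hT : M.All fun e z => (T e z).PosSemidef) :
    (sub x₀ S hc).All fun e z => (T' e z).PosSemidef := by
  refine ((mSUB m _ _ sls_sub).1 T' h').2.2.1 ?_
  rintro _ ⟨e, he, ι, a, rfl⟩ z hz
  rw [h e he ι a z hz]
  exact (hT e a.mem _ hz.1).submatrix ι

theorem resKae {H : M.Fam (Mat n)} (hH : M.Kae H) :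
    ∃ H', (sub x₀ S hc).Kae H' ∧ Res x₀ hc H H' := by
  obtain ⟨H', h1, h2⟩ := resTen (x₀ := x₀) (hc := hc) hH.toTen
  exact ⟨H', ⟨h2.clo h1 hH.toClo, (h2.met h1 hH.toMet).pos⟩, h2⟩

theorem resSm {F : Type} [NormedAddCommGroup F] [NormedSpace ℝ F] {f : M.X → F} (hf : M.Sm f) :
    (sub x₀ S hc).Sm fun x => f x.1 := by
  refine (mSUB m _ _ sls_sub).2.1 F _ ?_
  rintro _ ⟨e, he, ι, a, rfl⟩ z hz
  refine (cd_up (hf e a.mem _ hz.1)).congr_of_eventuallyEq ((sl_symm_ev a hz).mono fun w hw => ?_)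
  exact congrArg f hw

end res

/-! ### Bundles given on an indexed covering -/

/-- An indexed covering such that every chart is small. -/
structure Ix (N : Mf m) (A : Type) where
  c : A → N.Ch
  mem : ∀ a, c a ∈ N.C
  ix : N.Ch → A
  sub : ∀ d ∈ N.C, d.source ⊆ (c (ix d)).source

namespace Ix

variable {N : Mf m} {A : Type} (X : Ix N A)

theorem cov (x : N.X) : ∃ a, x ∈ (X.c a).source := ⟨_, X.sub _ (Mf.ch_mem x) (Mf.mem_ch x)⟩

/-- A holomorphic cocycle on the covering. -/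
structure Coc (g : A → A → N.X → ℂ) : Prop where
  hol : ∀ a b, ∀ x ∈ (X.c a).source, x ∈ (X.c b).source →
    HolN (fun w => g a b ((X.c b).symm w)) (X.c b x)
  ne : ∀ a b, ∀ x ∈ (X.c a).source, x ∈ (X.c b).source → g a b x ≠ 0
  mul : ∀ a b c, ∀ x ∈ (X.c a).source, x ∈ (X.c b).source → x ∈ (X.c c).source →
    g a c x = g a b x * g b c x

variable {X} {g : A → A → N.X → ℂ}

/-- The bundle. -/
def Coc.co (h : X.Coc g) : N.Co where
  c d d' x := g (X.ix d) (X.ix d') x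
  hol d hd d' hd' x hx hx' := holN_chg (X.mem _) hd' (X.sub _ hd' hx') hx'
    (h.hol _ _ x (X.sub _ hd hx) (X.sub _ hd' hx'))
  ne d hd d' hd' x hx hx' := h.ne _ _ x (X.sub _ hd hx) (X.sub _ hd' hx')
  mul d hd d' hd' x hx hx' d'' hd'' hx'' :=
    h.mul _ _ _ x (X.sub _ hd hx) (X.sub _ hd' hx') (X.sub _ hd'' hx'')

theorem Coc.self (h : X.Coc g) {a : A} {x : N.X} (hx : x ∈ (X.c a).source) : g a a x = 1 :=
  mul_left_cancel₀ (h.ne a a x hx hx) (by rw [← h.mul a a a x hx hx hx, mul_one])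

theorem Coc.holN (h : X.Coc g) {a b : A} {d : N.Ch} (hd : d ∈ N.C) {x : N.X}
    (ha : x ∈ (X.c a).source) (hb : x ∈ (X.c b).source) (hx : x ∈ d.source) :
    HolN (fun w => g a b (d.symm w)) (d x) := holN_chg (X.mem b) hd hb hx (h.hol a b x ha hb)

variable (X) in
/-- From indexed functions to a family. -/
def fam {F : Type} (s : A → N.X → F) : N.Fam F := fun d z => s (X.ix d) (d.symm z)

theorem fam_sm {F : Type} [NormedAddCommGroup F] [NormedSpace ℝ F] {s : A → N.X → F}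
    (h : ∀ a, ∀ x ∈ (X.c a).source, ContDiffAt ℝ ∞ (fun w => s a ((X.c a).symm w)) (X.c a x)) :
    N.All fun d z => ContDiffAt ℝ ∞ (X.fam s d) z := Mf.allOn_of_source fun d hd x hx =>
  cd_chg (X.mem _) hd (X.sub _ hd hx) hx (h _ x (X.sub _ hd hx))

theorem fam_hol {F : Type} [NormedAddCommGroup F] [NormedSpace ℂ F] {s : A → N.X → F}
    (h : ∀ a, ∀ x ∈ (X.c a).source, HolN (fun w => s a ((X.c a).symm w)) (X.c a x)) :
    N.All fun d z => HolN (X.fam s d) z := Mf.allOn_of_source fun d hd x hx =>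
  holN_chg (X.mem _) hd (X.sub _ hd hx) hx (h _ x (X.sub _ hd hx))

theorem fam_at {F : Type} (s : A → N.X → F) {d : N.Ch} {x : N.X} (hx : x ∈ d.source) :
    X.fam s d (d x) = s (X.ix d) x := by simp only [fam, d.left_inv hx]

theorem Coc.sec (h : X.Coc g) {s : A → N.X → ℂ}
    (h1 : ∀ a, ∀ x ∈ (X.c a).source, ContDiffAt ℝ ∞ (fun w => s a ((X.c a).symm w)) (X.c a x))
    (h2 : ∀ a b, ∀ x ∈ (X.c a).source, x ∈ (X.c b).source → s b x = s a x * g a b x) :
    N.SecC h.co (X.fam s) :=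
  ⟨fam_sm h1, fun d hd d' hd' x hx hx' => by
    beta_reduce
    rw [fam_at s hx, fam_at s hx']; exact h2 _ _ x (X.sub _ hd hx) (X.sub _ hd' hx')⟩

theorem Coc.hsec (h : X.Coc g) {s : A → N.X → ℂ}
    (h1 : ∀ a, ∀ x ∈ (X.c a).source, HolN (fun w => s a ((X.c a).symm w)) (X.c a x))
    (h2 : ∀ a b, ∀ x ∈ (X.c a).source, x ∈ (X.c b).source → s b x = s a x * g a b x) :
    N.HSecC h.co (X.fam s) :=
  ⟨h.sec (fun a x hx => ((mHOL m _ _).2.2 (h1 a x hx)).1) h2,
    fun d hd z hz => (fam_hol h1 d hd z hz).self_of_nhds⟩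

theorem Coc.wt (h : X.Coc g) {φ : A → N.X → ℝ}
    (h1 : ∀ a, ∀ x ∈ (X.c a).source, ContDiffAt ℝ ∞ (fun w => φ a ((X.c a).symm w)) (X.c a x))
    (h2 : ∀ a b, ∀ x ∈ (X.c a).source, x ∈ (X.c b).source →
      φ b x = φ a x + Real.log (normSq (g a b x))) : N.WtC h.co (X.fam φ) :=
  ⟨fam_sm h1, fun d hd d' hd' x hx hx' => by
    beta_reduce
    rw [fam_at φ hx, fam_at φ hx']; exact h2 _ _ x (X.sub _ hd hx) (X.sub _ hd' hx')⟩

variable (X) in
/-- From a family back to indexed functions. -/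
def un (g : A → A → N.X → ℂ) (σ : N.Fam ℂ) (a : A) (x : N.X) : ℂ :=
  σ (X.c a) (X.c a x) * g (X.ix (X.c a)) a x

theorem Coc.un_eq (h : X.Coc g) {σ : N.Fam ℂ} (hσ : N.SecC h.co σ) {d : N.Ch} (hd : d ∈ N.C)
    {a : A} {x : N.X} (hx : x ∈ d.source) (ha : x ∈ (X.c a).source) :
    X.un g σ a x = σ d (d x) * g (X.ix d) a x := by
  rw [un, hσ.cmp d hd _ (X.mem a) x hx ha, mul_assoc]
  exact congrArg _ (h.mul _ _ _ x (X.sub _ hd hx) (X.sub _ (X.mem a) ha) ha).symm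

theorem Coc.un_cmp (h : X.Coc g) {σ : N.Fam ℂ} (hσ : N.SecC h.co σ) (a b : A) {x : N.X}
    (ha : x ∈ (X.c a).source) (hb : x ∈ (X.c b).source) :
    X.un g σ b x = X.un g σ a x * g a b x := by
  rw [h.un_eq hσ (X.mem a) ha hb, un, mul_assoc,
    ← h.mul _ _ _ x (X.sub _ (X.mem a) ha) ha hb]

theorem un_ev (g : A → A → N.X → ℂ) (σ : N.Fam ℂ) {a : A} {x : N.X} (ha : x ∈ (X.c a).source) :
    (fun w => X.un g σ a ((X.c a).symm w)) =ᶠ[𝓝 (X.c a x)]
      fun w => σ (X.c a) w * g (X.ix (X.c a)) a ((X.c a).symm w) :=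
  ((X.c a).open_target.eventually_mem ((X.c a).map_source ha)).mono fun w hw => by
    simp only [un, (X.c a).right_inv hw]

theorem Coc.un_sm (h : X.Coc g) {σ : N.Fam ℂ} {a : A} {x : N.X} (ha : x ∈ (X.c a).source)
    (hσ : ContDiffAt ℝ ∞ (σ (X.c a)) (X.c a x)) :
    ContDiffAt ℝ ∞ (fun w => X.un g σ a ((X.c a).symm w)) (X.c a x) :=
  (hσ.mul ((mHOL m _ _).2.2 (h.hol _ a x (X.sub _ (X.mem a) ha) ha)).1).congr_of_eventuallyEq
    (un_ev g σ ha)

theorem Coc.un_hol (h : X.Coc g) {σ : N.Fam ℂ} {a : A} {x : N.X} (ha : x ∈ (X.c a).source)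
    (hσ : HolN (σ (X.c a)) (X.c a x)) :
    HolN (fun w => X.un g σ a ((X.c a).symm w)) (X.c a x) := by
  filter_upwards [hσ, h.hol _ a x (X.sub _ (X.mem a) ha) ha, (un_ev g σ ha).eventually_nhds]
    with w h1 h2 h3
  exact (h1.mul h2).congr_of_eventuallyEq h3

theorem Coc.un_fam (h : X.Coc g) {s : A → N.X → ℂ}
    (h2 : ∀ a b, ∀ x ∈ (X.c a).source, x ∈ (X.c b).source → s b x = s a x * g a b x) {a : A}
    {x : N.X} (ha : x ∈ (X.c a).source) : X.un g (X.fam s) a x = s a x := by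
  rw [un, fam_at s ha, ← h2 _ _ x (X.sub _ (X.mem a) ha) ha]

end Ix

/-! ### Adjunction -/

section adj

variable {P : Type} [Fintype P] {ι ι' : Fin m → Fin n} {κ κ' : P → Fin n}

theorem normSq_det_sub {α : Type} [Fintype α] [DecidableEq α] (J : Mat n) (σ τ : α ≃ Fin n) :
    normSq (J.submatrix σ τ).det = normSq J.det := by
  have e : J.submatrix σ τ = (J.submatrix id (σ.symm.trans τ)).submatrix σ σ := by
    ext i j; simp
  rw [e, Matrix.det_submatrix_equiv_self, Matrix.det_permute', map_mul]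
  rcases Int.units_eq_one_or (Equiv.Perm.sign (σ.symm.trans τ)) with h | h <;> simp [h]

theorem adjunction (hb : Bijective (Sum.elim ι κ)) (hb' : Bijective (Sum.elim ι' κ')) {J : Mat n}
    {u : P → ℂ} (h : ∀ i j, J (κ i) j = if j = κ' i then u i else 0) :
    normSq J.det = normSq (J.submatrix ι ι').det * ∏ i, normSq (u i) := by
  have e : J.submatrix (Equiv.ofBijective _ hb) (Equiv.ofBijective _ hb') =
      Matrix.fromBlocks (J.submatrix ι ι') (J.submatrix ι κ') 0 (Matrix.diagonal u) := by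
    ext (i | i) (j | j)
    · rfl
    · rfl
    · exact (h i _).trans (if_neg fun e => Sum.inl_ne_inr (hb'.1 (a₁ := .inl j) (a₂ := .inr i) e))
    · refine (h i _).trans ?_
      have : κ' j = κ' i ↔ i = j :=
        ⟨fun e => (Sum.inr_injective (hb'.1 (a₁ := .inr j) (a₂ := .inr i) e)).symm,
          fun e => e ▸ rfl⟩
      show (if κ' j = κ' i then u i else 0) = Matrix.diagonal u i j
      rw [Matrix.diagonal_apply]
      exact if_congr this rfl rfl
  rw [← normSq_det_sub J (Equiv.ofBijective _ hb) (Equiv.ofBijective _ hb'), e,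
    Matrix.det_fromBlocks_zero₂₁, Matrix.det_diagonal, map_mul, map_prod]

/-- The row of the Jacobian matrix for two local equations of the same hypersurface. -/
theorem jm_row {ψ : E n → E n} {z : E n} (hψ : DifferentiableAt ℂ ψ z) {i i' : Fin n}
    {u : E n → ℂ} (hu : DifferentiableAt ℂ u z) (h : ∀ᶠ w in 𝓝 z, ψ w i = u w * w i')
    (h0 : z i' = 0) (j : Fin n) : jm ψ z i j = if j = i' then u z else 0 := by
  have h1 := (ContinuousLinearMap.proj (R := ℂ) (φ := fun _ : Fin n => ℂ) i).hasFDerivAt.comp z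
    hψ.hasFDerivAt
  have h2 := hu.hasFDerivAt.mul
    (ContinuousLinearMap.proj (R := ℂ) (φ := fun _ : Fin n => ℂ) i').hasFDerivAt
  have h3 := DFunLike.congr_fun ((h1.congr_of_eventuallyEq
    (h.mono fun w hw => hw.symm)).unique h2) (Pi.single j 1)
  refine Eq.trans h3 ?_
  simp [h0, Pi.single_apply, eq_comm]

end adj

end Pool.Agent.Lib.EX.K19
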