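import Pool.Agent.Lib.EX.K19b
import Pool.Agent.Lib.EXH.Blue
import Pool.Agent.Lib.KP.B_KLI
import Pool.Agent.Lib.KP.B_WT

/-! The decomposition theorem for data given on an indexed covering. -/

open scoped Classical Topology ContDiff ComplexOrder Matrix ENNReal
open Set Complex Metric Filter Function MeasureTheory

set_option linter.unusedVariables false

noncomputable section

namespace Pool.Agent.Lib.EX.K19

open Pool.Agent.Lib.SV (E)
open Pool.Agent.Lib.HS32 Pool.Agent.Lib.EXH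
open Pool.Agent.Lib.HS68 (dual wdv)

variable {m : ℕ} {N : Mf m}

/-! ### Integrability of a product -/

section itg

variable [N.Cpt] {H : N.Fam (Mat m)} {B : Type} [Fintype B] {p : B → N.X → ℝ} {a : B → ℝ}

theorem prod_loc (hH : N.Met H) {x : N.X} {e : N.Ch} (he : e ∈ N.C) (hx : x ∈ e.source)
    {f : B → E m → ℂ} {ψ : B → E m → ℝ} (hψ : ∀ i, ContinuousAt (ψ i) (e x))
    (hp : ∀ᶠ z in 𝓝 (e x), ∀ i, p i (e.symm z) = normSq (f i z) * Real.exp (-ψ i z))
    {W : Set (E m)} (hW : W ∈ 𝓝 (e x)) (hI : ∫⁻ z in W, ∏ i, ‖f i z‖ₑ ^ (-2 * a i) < ⊤) :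
    ∃ U ∈ 𝓝 x, ∫⁻ y in U, ∏ i, ENNReal.ofReal (p i y) ^ (-a i) ∂N.mu H < ⊤ := by
  have hz := e.map_source hx
  have c1 : ContinuousAt (fun z => H e z) (e x) := (hH.sm e he _ hz).continuousAt
  have c2 : ContinuousAt (fun z => (H e z).det.re) (e x) :=
    (continuous_re.comp (continuous_id.matrix_det)).continuousAt.comp c1
  have c3 : ContinuousAt (fun z => (H e z).det.re * ∏ i, Real.exp (a i * ψ i z)) (e x) :=
    c2.mul (tendsto_finsetProd _ fun i _ => (continuousAt_const.mul (hψ i)).rexp)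
  have c4 := c3.eventually (gt_mem_nhds (lt_add_one _))
  obtain ⟨U, hB, hBo, hxB⟩ := _root_.mem_nhds_iff.1
    (inter_mem (inter_mem (inter_mem hW (e.open_target.mem_nhds hz)) c4) hp)
  have hBt : U ⊆ e.target := fun z hz => (hB hz).1.1.2
  refine ⟨e.symm '' U, ?_, ?_⟩
  · have := e.symm.image_mem_nhds hz (hBo.mem_nhds hxB)
    rwa [e.left_inv hx] at this
  · rw [((mMU m N H hH).2.2.2.2.2.1 e he U hBo.measurableSet hBt).2.1]
    refine lt_of_le_of_lt (setLIntegral_mono' (g := fun z =>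
      ENNReal.ofReal ((H e (e x)).det.re * ∏ i, Real.exp (a i * ψ i (e x)) + 1) *
        ∏ i, ‖f i z‖ₑ ^ (-2 * a i)) hBo.measurableSet fun z hz => ?_) ?_
    · have h1 : ∀ i, p i (e.symm z) = normSq (f i z) * Real.exp (-ψ i z) := (hB hz).2
      simp only [h1, KP.T13.pw]
      rw [Finset.prod_mul_distrib, ← mul_assoc,
        ← ENNReal.ofReal_prod_of_nonneg fun i _ => (Real.exp_pos _).le,
        ← ENNReal.ofReal_mul' (Finset.prod_nonneg fun i _ => (Real.exp_pos _).le)]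
      exact mul_le_mul_left (ENNReal.ofReal_le_ofReal (le_of_lt (hB hz).1.2)) _
    · rw [lintegral_const_mul' _ _ ENNReal.ofReal_ne_top]
      exact ENNReal.mul_lt_top ENNReal.ofReal_lt_top
        (lt_of_le_of_lt (lintegral_mono_set fun z hz => (hB hz).1.1.1) hI)

theorem lint_fin {μ : Measure N.X} {p : N.X → ℝ≥0∞}
    (h : ∀ x, ∃ U ∈ 𝓝 x, ∫⁻ y in U, p y ∂μ < ⊤) : ∫⁻ y, p y ∂μ < ⊤ := by
  choose U hU hI using h
  obtain ⟨t, -, ht⟩ := isCompact_univ.elim_nhds_subcover U fun x _ => hU x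
  rw [← setLIntegral_univ]
  refine lt_of_le_of_lt (lintegral_mono_set ht) ?_
  clear ht
  induction t using Finset.induction_on with
  | empty => simp
  | insert a s ha ih =>
    rw [Finset.set_biUnion_insert]
    exact lt_of_le_of_lt (lintegral_union_le _ _ _) (ENNReal.add_lt_top.2 ⟨hI a, ih⟩)

theorem prod_bound {μ : Measure N.X} (hN : ∀ i, Continuous (p i)) (h0 : ∀ i x, 0 ≤ p i x)
    (ha : ∀ i, 0 ≤ a i)
    (hl : ∀ x, ∃ U ∈ 𝓝 x, ∫⁻ y in U, ∏ i, ENNReal.ofReal (p i y) ^ (-a i) ∂μ < ⊤) :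
    ∃ D : ℝ, ∀ δ ∈ Ioc (0 : ℝ) 1, ∫ x, ∏ i, (p i x + δ) ^ (-a i) ∂μ ≤ D := by
  have hg := lint_fin hl
  refine ⟨(∫⁻ y, ∏ i, ENNReal.ofReal (p i y) ^ (-a i) ∂μ).toReal, fun δ hδ => ?_⟩
  have hp : ∀ i x, 0 < p i x + δ := fun i x => add_pos_of_nonneg_of_pos (h0 i x) hδ.1
  rw [integral_eq_lintegral_of_nonneg_ae (Eventually.of_forall fun x =>
      Finset.prod_nonneg fun i _ => Real.rpow_nonneg (hp i x).le _)
    (continuous_finsetProd _ fun i _ => ((hN i).add continuous_const).rpow_const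
      fun x => Or.inl (hp i x).ne').aestronglyMeasurable]
  refine ENNReal.toReal_mono hg.ne (lintegral_mono fun x => ?_)
  beta_reduce
  rw [ENNReal.ofReal_prod_of_nonneg fun i _ => Real.rpow_nonneg (hp i x).le _]
  refine Finset.prod_le_prod' fun i _ => ?_
  rw [← ENNReal.ofReal_rpow_of_pos (hp i x), ENNReal.rpow_neg, ENNReal.rpow_neg]
  exact ENNReal.inv_le_inv.2
    (ENNReal.rpow_le_rpow (ENNReal.ofReal_le_ofReal (le_add_of_nonneg_right hδ.1.le)) (ha i))

end itg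

/-! ### Local calculus -/

section loc

variable {z : E m} {f g h : E m → ℂ}

theorem dzb_hol (hg : HolN g z) (i : Fin m) : dzb i g z = 0 :=
  ((mHOL m g z).1 (cd_diff ((mHOL m g z).2.2 hg).1)).1 hg.self_of_nhds i

theorem cd_hol (hg : HolN g z) : ContDiffAt ℝ ∞ g z := ((mHOL m g z).2.2 hg).1

/-- The `(0,1)` derivative of `f g + h` for holomorphic `g`, `h`. -/
theorem dzb_twist {k : E m → ℂ} (hf : DifferentiableAt ℝ f z) (hk : DifferentiableAt ℝ k z)
    (hg : HolN g z) (hh : HolN (fun w => k w - f w * g w) z) (i : Fin m) :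
    dzb i k z = g z * dzb i f z := by
  have h1 := dzb_hol hh i
  rw [dzb_sub hk (hf.fun_mul (cd_diff (cd_hol hg))), dzb_mul hf (cd_diff (cd_hol hg)),
    dzb_hol hg] at h1
  linear_combination h1

theorem wdv_congr {Φ Ψ : E m → ℝ} {V V' : E m → E m} (h1 : Φ =ᶠ[𝓝 z] Ψ) (h2 : V =ᶠ[𝓝 z] V') :
    wdv Φ V z = wdv Ψ V' z := by
  refine Finset.sum_congr rfl fun k _ => ?_
  rw [dz_congr (f := fun w => V w k) (g := fun w => V' w k) (h2.mono fun w hw => congrFun hw k),
    dz_congr (f := fun w => (Φ w : ℂ)) (g := fun w => (Ψ w : ℂ))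
      (h1.mono fun w hw => congrArg _ hw), h2.self_of_nhds]

theorem wdv_twist {Φ : E m → ℝ} {V : E m → E m} (hΦ : ContDiffAt ℝ ∞ Φ z)
    (hV : ∀ k, DifferentiableAt ℝ (fun w => V w k) z) (hg : HolN g z) (h0 : g z ≠ 0) :
    wdv (fun w => Φ w + Real.log (normSq (g w))) (fun w => g w • V w) z = g z * wdv Φ V z := by
  obtain ⟨h1, -, h2⟩ := ((mHOL m g z).2.2 hg).2.2.2 h0
  rw [wdv, wdv, Finset.mul_sum]
  refine Finset.sum_congr rfl fun k _ => ?_
  simp only [Pi.smul_apply, smul_eq_mul, ofReal_add]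
  rw [dz_mul (cd_diff (cd_hol hg)) (hV k), dz_add (cd_diff (cd_ofReal hΦ))
    (cd_diff (cd_ofReal h1)), h2]
  field_simp
  ring

end loc

/-! ### The field dual to local functions -/

theorem dual_chg {H : N.Fam (Mat m)} (hH : N.Met H) {d d' : N.Ch} (hd : d ∈ N.C) (hd' : d' ∈ N.C)
    {x : N.X} (hx : x ∈ d.source) (hx' : x ∈ d'.source) {c c' g : N.X → ℂ}
    (hc : ContDiffAt ℝ ∞ (fun w => c (d.symm w)) (d x))
    (hc' : ContDiffAt ℝ ∞ (fun w => c' (d'.symm w)) (d' x))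
    (hg : HolN (fun w => g (d'.symm w)) (d' x))
    (hh : HolN (fun w => c' (d'.symm w) - c (d'.symm w) * g (d'.symm w)) (d' x)) :
    N.J d d' x *ᵥ dual (H d') (fun w => c' (d'.symm w)) (d' x) =
      g x • dual (H d) (fun w => c (d.symm w)) (d x) := by
  obtain ⟨t1, t2, -, t3, -⟩ := (mTR m N).2.1 d hd d' hd' x hx hx'
  have e0 : (d ∘ d'.symm) (d' x) = d x := by rw [Function.comp_apply, d'.left_inv hx']
  have e1 : (fun w => c (d'.symm w)) =ᶠ[𝓝 (d' x)] (fun w => c (d.symm w)) ∘ (d ∘ d'.symm) :=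
    t3.mono fun w hw => by simp only [Function.comp_apply, hw.2.2.2.2.1]
  have e2 : (fun i => dzb i (fun w => c' (d'.symm w)) (d' x)) =
      g x • ((N.J d d' x)ᴴ *ᵥ fun i => dzb i (fun w => c (d.symm w)) (d x)) := by
    funext i
    rw [dzb_twist (cd_diff (cd_chg hd hd' hx hx' hc)) (cd_diff hc') hg hh, d'.left_inv hx',
      dzb_congr e1, ((mCHN m _ _ t1).2.2.2.2.2.2.2.2.2.1 _ (e0.symm ▸ cd_diff hc) i).2, e0]
    simp only [Pi.smul_apply, smul_eq_mul, Matrix.mulVec, dotProduct, Matrix.conjTranspose_apply]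
    exact congrArg _ (Finset.sum_congr rfl fun a _ => mul_comm _ _)
  have u1 : IsUnit (N.J d d' x).det := t2.isUnit
  have u2 : IsUnit (N.J d d' x)ᴴ.det := by rw [Matrix.det_conjTranspose]; exact u1.star
  rw [dual, dual, e2, hH.cmp d hd d' hd' x hx hx', Matrix.mul_inv_rev, Matrix.mul_inv_rev,
    Matrix.mulVec_smul, Matrix.mulVec_smul, Matrix.mulVec_mulVec, Matrix.mulVec_mulVec,
    ← Matrix.mul_assoc, Matrix.mul_nonsing_inv _ u1, Matrix.one_mul, Matrix.mul_assoc,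
    Matrix.nonsing_inv_mul _ u2, Matrix.mul_one]

theorem mul_dual {H : E m → Mat m} {z : E m} (h : (H z).det ≠ 0) (c : E m → ℂ) :
    H z *ᵥ dual H c z = fun i => dzb i c z := by
  rw [dual, Matrix.mulVec_mulVec, Matrix.mul_nonsing_inv _ h.isUnit, Matrix.one_mulVec]

/-! ### The decomposition -/

/-- The data on an indexed covering. -/
structure Dat {A B : Type} [Fintype B] (X : Ix N A) (g : A → A → N.X → ℂ) (a : B → ℝ)
    (f : B → A → N.X → ℂ) (k : B → A → A → N.X → ℂ) (l : A → N.X → ℝ) : Prop where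
  cg : X.Coc g
  ck : ∀ i, X.Coc (k i)
  a0 : ∀ i, 0 ≤ a i ∧ a i ≤ 1
  fh : ∀ i b, ∀ x ∈ (X.c b).source, HolN (fun w => f i b ((X.c b).symm w)) (X.c b x)
  fc : ∀ i b b', ∀ x ∈ (X.c b).source, x ∈ (X.c b').source → f i b' x = f i b x * k i b b' x
  ls : ∀ b, ∀ x ∈ (X.c b).source, ContDiffAt ℝ ∞ (fun w => l b ((X.c b).symm w)) (X.c b x)
  lc : ∀ b b', ∀ x ∈ (X.c b).source, x ∈ (X.c b').source →
    l b' x + Real.log (normSq (g b b' x)) = l b x +
      Real.log (normSq (N.J (X.c b) (X.c b') x).det) + ∑ i, a i * Real.log (normSq (k i b b' x))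
  psd : ∀ b, ∀ x ∈ (X.c b).source,
    (-hess (fun w => (l b ((X.c b).symm w) : ℂ)) (X.c b x)).PosSemidef
  itg : ∀ x, ∃ b, x ∈ (X.c b).source ∧ ∃ W ∈ 𝓝 (X.c b x),
    ∫⁻ z in W, ∏ i, ‖f i b ((X.c b).symm z)‖ₑ ^ (-2 * a i) < ⊤

section main

variable {A B : Type} [Fintype B] {X : Ix N A} {g : A → A → N.X → ℂ} {a : B → ℝ}
  {f : B → A → N.X → ℂ} {k : B → A → A → N.X → ℂ} {l : A → N.X → ℝ} {H : N.Fam (Mat m)}

variable (X H) in
/-- The logarithm of the determinant of the metric in the chart `b`. -/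
def ldt (b : A) (x : N.X) : ℝ := Real.log (H (X.c b) (X.c b x)).det.re

theorem ldt_ev {b : A} {x : N.X} (hx : x ∈ (X.c b).source) :
    ∀ᶠ w in 𝓝 (X.c b x), ldt X H b ((X.c b).symm w) = Real.log (H (X.c b) w).det.re :=
  ((X.c b).open_target.eventually_mem ((X.c b).map_source hx)).mono fun w hw => by
    rw [ldt, (X.c b).right_inv hw]

theorem Dat.rel (D : Dat X g a f k l) (hH : N.Met H) (b b' : A) {x : N.X}
    (hx : x ∈ (X.c b).source) (hx' : x ∈ (X.c b').source) :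
    ldt X H b' x - l b' x = ldt X H b x - l b x + Real.log (normSq (g b b' x)) -
      ∑ i, a i * Real.log (normSq (k i b b' x)) := by
  have h1 := (mINV m N H hH).2.2.2.2.2.2.1.cmp _ (X.mem b) _ (X.mem b') x hx hx'
  have h2 := D.lc b b' x hx hx'
  simp only [ldt]
  beta_reduce at h1
  linarith

theorem Dat.wt (D : Dat X g a f k l) (hH : N.Met H) {ψ : B → N.Fam ℝ}
    (hψ : ∀ i, N.WtC (D.ck i).co (ψ i)) :
    N.WtC D.cg.co fun d z => X.fam (fun b x => ldt X H b x - l b x) d z + ∑ i, a i * ψ i d z := by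
  refine ⟨fun d hd z hz => (Ix.fam_sm (fun b x hx => ?_) d hd z hz).add
    (ContDiffAt.sum fun i _ => contDiffAt_const.mul ((hψ i).sm d hd z hz)),
    fun d hd d' hd' x hx hx' => ?_⟩
  · exact (((mINV m N H hH).2.2.2.2.2.2.1.sm _ (X.mem b) _
      ((X.c b).map_source hx)).congr_of_eventuallyEq (ldt_ev hx)).sub (D.ls b x hx)
  · beta_reduce
    have h : ∀ i, ψ i d' (d' x) = ψ i d (d x) + Real.log (normSq (k i (X.ix d) (X.ix d') x)) :=
      fun i => (hψ i).cmp d hd d' hd' x hx hx'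
    rw [Ix.fam_at _ hx, Ix.fam_at _ hx', D.rel hH _ _ (X.sub _ hd hx) (X.sub _ hd' hx')]
    simp only [h, mul_add, Finset.sum_add_distrib]
    show _ = _ + Real.log (normSq (g (X.ix d) (X.ix d') x))
    ring

theorem Dat.ev (D : Dat X g a f k l) (hH : N.Met H) (b : A) {x : N.X} (hx : x ∈ (X.c b).source) :
    ∀ᶠ w in 𝓝 (X.c b x), w ∈ (X.c b).target ∧
      X.fam (fun b x => ldt X H b x - l b x) (X.c b) w =
        Real.log (H (X.c b) w).det.re - l b ((X.c b).symm w) +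
          Real.log (normSq (g b (X.ix (X.c b)) ((X.c b).symm w))) -
          ∑ i, a i * Real.log (normSq (k i b (X.ix (X.c b)) ((X.c b).symm w))) := by
  filter_upwards [ldt_ev (H := H) hx,
    (X.c b).open_target.eventually_mem ((X.c b).map_source hx)] with w h1 h2
  refine ⟨h2, ?_⟩
  rw [← h1]
  exact D.rel hH b _ ((X.c b).map_target h2) (X.sub _ (X.mem b) ((X.c b).map_target h2))

theorem lg_cd {k : A → A → N.X → ℂ} (h : X.Coc k) (b : A) {x : N.X} (hx : x ∈ (X.c b).source) :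
    ContDiffAt ℝ ∞ (fun w => Real.log (normSq (k b (X.ix (X.c b)) ((X.c b).symm w)))) (X.c b x) ∧
    hess (fun w => (Real.log (normSq (k b (X.ix (X.c b)) ((X.c b).symm w))) : ℝ)) (X.c b x) = 0 := by
  have := ((mHOL m _ _).2.2 (h.holN (X.mem b) hx (X.sub _ (X.mem b) hx) hx)).2.2.2 (by
    rw [(X.c b).left_inv hx]; exact h.ne _ _ x hx (X.sub _ (X.mem b) hx))
  exact ⟨this.1, this.2.1⟩

omit [Fintype B] in
theorem hess_sum {z : E m} {s : Finset B} {u : B → E m → ℝ} (h : ∀ i, ContDiffAt ℝ ∞ (u i) z) :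
    hess (fun w => ((∑ i ∈ s, a i * u i w : ℝ) : ℂ)) z =
      ∑ i ∈ s, a i • hess (fun w => (u i w : ℂ)) z := by
  induction s using Finset.induction_on with
  | empty => simp
  | insert j s hj ih =>
    simp only [Finset.sum_insert hj, ofReal_add]
    rw [hess_add (cd_ofReal (contDiffAt_const.mul (h j)))
      (cd_ofReal (ContDiffAt.sum fun i _ => contDiffAt_const.mul (h i))), ih]
    simp only [ofReal_mul]
    rw [hess_const_mul _ (cd_ofReal (h j))]
    rfl

theorem Dat.curv (D : Dat X g a f k l) (hH : N.Met H) {ψ : B → N.Fam ℝ}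
    (hψ : ∀ i, N.WtC (D.ck i).co (ψ i)) (b : A) {x : N.X} (hx : x ∈ (X.c b).source) :
    N.hw (fun d z => X.fam (fun b x => ldt X H b x - l b x) d z + ∑ i, a i * ψ i d z)
      (X.c b) (X.c b x) + N.ric H (X.c b) (X.c b x) - ∑ i, a i • N.hw (ψ i) (X.c b) (X.c b x) =
      -hess (fun w => (l b ((X.c b).symm w) : ℂ)) (X.c b x) := by
  have hz := (X.c b).map_source hx
  have s1 := (mINV m N H hH).2.2.2.2.2.2.1.sm _ (X.mem b) _ hz
  have s2 := D.ls b x hx
  have s3 := lg_cd D.cg b hx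
  have s4 := fun i => lg_cd (D.ck i) b hx
  have s5 := fun i => (hψ i).sm _ (X.mem b) _ hz
  have s6 : ContDiffAt ℝ ∞ (fun w => ∑ i, a i *
      Real.log (normSq (k i b (X.ix (X.c b)) ((X.c b).symm w)))) (X.c b x) :=
    ContDiffAt.sum fun i _ => contDiffAt_const.mul (s4 i).1
  have s7 : ContDiffAt ℝ ∞ (fun w => ∑ i, a i * ψ i (X.c b) w) (X.c b x) :=
    ContDiffAt.sum fun i _ => contDiffAt_const.mul (s5 i)
  rw [Mf.hw, hess_congr (g := fun w => ((Real.log (H (X.c b) w).det.re : ℝ) : ℂ) -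
      (l b ((X.c b).symm w) : ℝ) +
      (Real.log (normSq (g b (X.ix (X.c b)) ((X.c b).symm w))) : ℝ) -
      ((∑ i, a i * Real.log (normSq (k i b (X.ix (X.c b)) ((X.c b).symm w))) : ℝ) : ℂ) +
      ((∑ i, a i * ψ i (X.c b) w : ℝ) : ℂ)) ((D.ev hH b hx).mono fun w hw => by
        simp only [hw.2, ofReal_add, ofReal_sub]),
    hess_add ((((cd_ofReal s1).sub (cd_ofReal s2)).add (cd_ofReal s3.1)).sub (cd_ofReal s6))
      (cd_ofReal s7),
    hess_sub (((cd_ofReal s1).sub (cd_ofReal s2)).add (cd_ofReal s3.1)) (cd_ofReal s6),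
    hess_add ((cd_ofReal s1).sub (cd_ofReal s2)) (cd_ofReal s3.1),
    hess_sub (cd_ofReal s1) (cd_ofReal s2), hess_sum fun i => (s4 i).1, hess_sum s5, s3.2]
  simp only [fun i => (s4 i).2, smul_zero, Finset.sum_const_zero]
  show hess (ld (H (X.c b))) (X.c b x) - _ + 0 - 0 + ∑ i, a i • N.hw (ψ i) (X.c b) (X.c b x) +
    -hess (ld (H (X.c b))) (X.c b x) - _ = _
  abel

/-- The output of the decomposition. -/
structure Out (X : Ix N A) (H : N.Fam (Mat m)) (g : A → A → N.X → ℂ) (a : B → ℝ)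
    (f : B → A → N.X → ℂ) (l : A → N.X → ℝ) (c s : A → N.X → ℂ) (V : A → N.X → E m) : Prop where
  ss : ∀ b, ∀ x ∈ (X.c b).source, ContDiffAt ℝ ∞ (fun w => s b ((X.c b).symm w)) (X.c b x)
  sc : ∀ b b', ∀ x ∈ (X.c b).source, x ∈ (X.c b').source → s b' x = s b x * g b b' x
  vh : ∀ b, ∀ x ∈ (X.c b).source, ∀ j, HolN (fun w => V b ((X.c b).symm w) j) (X.c b x)
  vc : ∀ b b', ∀ x ∈ (X.c b).source, x ∈ (X.c b').source →
    N.J (X.c b) (X.c b') x *ᵥ V b' x = g b b' x • V b x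
  eq : ∀ b, ∀ x ∈ (X.c b).source, ∀ i,
    dzb i (fun w => c b ((X.c b).symm w) - s b ((X.c b).symm w)) (X.c b x) =
      (H (X.c b) (X.c b x) *ᵥ V b x) i
  ker : ∀ b, ∀ x ∈ (X.c b).source,
    hess (fun w => (l b ((X.c b).symm w) : ℂ)) (X.c b x) *ᵥ V b x = 0
  dv : ∀ b, ∀ x ∈ (X.c b).source, (∀ i, f i b x ≠ 0) →
    wdv (fun w => ∑ i, a i * Real.log (normSq (f i b ((X.c b).symm w))) - l b ((X.c b).symm w))
      (fun w => V b ((X.c b).symm w)) (X.c b x) = 0

theorem Dat.hd [N.Cpt] (hHD : St_HD) (D : Dat X g a f k l) (hH : N.Kae H) {c : A → N.X → ℂ}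
    (cs : ∀ b, ∀ x ∈ (X.c b).source, ContDiffAt ℝ ∞ (fun w => c b ((X.c b).symm w)) (X.c b x))
    (cc : ∀ b b', ∀ x ∈ (X.c b).source, x ∈ (X.c b').source → HolN
      (fun w => c b' ((X.c b').symm w) - c b ((X.c b').symm w) * g b b' ((X.c b').symm w))
      (X.c b' x)) : ∃ s V, Out X H g a f l c s V := by
  choose ψ hψ using fun i => KP.st_WT m N (D.ck i).co
  have hM := hH.toMet
  have hF : ∀ i, N.HSecC (D.ck i).co (X.fam (f i)) := fun i => (D.ck i).hsec (D.fh i) (D.fc i)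
  have hφ := D.wt hM hψ
  have sx : ∀ b, ∀ x ∈ (X.c b).source, x ∈ (X.c (X.ix (X.c b))).source :=
    fun b x hx => X.sub _ (X.mem b) hx
  have hS : N.Sub (range X.c) := ⟨range_subset_iff.2 X.mem, fun x => by
    obtain ⟨b, hb⟩ := X.cov x
    exact ⟨_, ⟨b, rfl⟩, hb⟩⟩
  have hB : N.Form fun d z => ∑ i, a i • N.hw (ψ i) d z := by
    have : ∀ t : Finset B, N.Form fun d z => ∑ i ∈ t, a i • N.hw (ψ i) d z := fun t => by
      induction t using Finset.induction_on with
      | empty => exact Mf.form_zero.congr fun e he z hz => Finset.sum_empty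
      | insert j t hj ih =>
        exact (((hψ j).clo.toForm.smul (a j)).add ih).congr fun e he z hz => Finset.sum_insert hj
    exact this _
  have hθ := (hφ.clo.toForm.add ((mHES m N).2.2.2.2.2.2.2.2.1 H hM).toForm).sub hB
  have hnr : ∀ i b, ∀ x ∈ (X.c b).source, ∀ᶠ w in 𝓝 (X.c b x),
      N.nrC (ψ i) (X.fam (f i)) ((X.c b).symm w) = normSq (f i b ((X.c b).symm w)) *
        Real.exp (-(ψ i (X.c b) w -
          Real.log (normSq (k i b (X.ix (X.c b)) ((X.c b).symm w))))) := fun i b x hx => by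
    filter_upwards [(X.c b).open_target.eventually_mem ((X.c b).map_source hx)] with w hw
    have h1 := (X.c b).map_target hw
    have h2 := (D.ck i).ne _ _ _ h1 (sx b _ h1)
    have h3 : _ = normSq (f i (X.ix (X.c b)) ((X.c b).symm w)) * Real.exp (-ψ i (X.c b) w) :=
      (hψ i).nr_rep (hF i).toSecC _ (X.mem b) w hw
    rw [h3, D.fc i b _ _ h1 (sx b _ h1), map_mul,
      neg_sub, sub_eq_add_neg, Real.exp_add, Real.exp_log (normSq_pos.2 h2), mul_assoc]
  obtain ⟨C, hC⟩ := prod_bound (μ := N.mu H) (a := a)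
    (fun i => ((hψ i).nr_sm (hF i).toSecC).continuous) (fun i x => Mf.nrC_nonneg _ _ _)
    (fun i => (D.a0 i).1) fun x => by
      obtain ⟨b, hx, W, hW, hI⟩ := D.itg x
      exact prod_loc hM (X.mem b) hx (fun i => ((hψ i).sm _ (X.mem b) _
        ((X.c b).map_source hx)).continuousAt.sub (lg_cd (D.ck i) b hx).1.continuousAt)
        (eventually_all.2 fun i => hnr i b x hx) hW hI
  have cF := Ix.fam_sm cs
  have hW : VeC N D.cg.co fun d => dual (H d) (X.fam c d) := by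
    refine ⟨fun d hd z hz => ((hM.sm d hd z hz).inv (hM.det_ne d hd z hz)).mulVec
      (contDiffAt_pi.2 fun i => cd_dzb (cF d hd z hz) i), fun d hd d' hd' x hx hx' => ?_⟩
    have h1 := X.sub _ hd hx
    have h2 := X.sub _ hd' hx'
    exact dual_chg hM hd hd' hx hx' (cF d hd _ (d.map_source hx)) (cF d' hd' _ (d'.map_source hx'))
      (D.cg.holN hd' h1 h2 hx')
      (holN_chg (f := fun y => c (X.ix d') y - c (X.ix d) y * g (X.ix d) (X.ix d') y)
        (X.mem _) hd' h2 hx' (cc _ _ x h1 h2))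
  have hcl : ClV N H fun d => dual (H d) (X.fam c d) := fun d hd z hz i j => by
    have e : ∀ j, (fun w => (H d w *ᵥ dual (H d) (X.fam c d) w) j) =ᶠ[𝓝 z] dzb j (X.fam c d) :=
      fun j => (hM.det_ne.ev hd hz).mono fun w hw => by simp only [mul_dual hw]
    rw [dzb_congr (e j), dzb_congr (e i), dzb_dzb (cF d hd z hz)]
  obtain ⟨σ, V, h1, h2, h3, h4⟩ := hHD m N H _ D.cg.co _ B (fun i => (D.ck i).co)
    (fun i => X.fam (f i)) ψ a C _ hH hφ hθ (fun d hd z hz => by
      beta_reduce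
      rw [Pi.zero_apply, Pi.zero_apply, sub_zero]
      refine ((mSUB m N _ hS).1 _ hθ.toTen).2.2.1 (Mf.allOn_of_source ?_) d hd z hz
      rintro _ ⟨b, rfl⟩ x hx
      have := D.psd b x hx
      rwa [← D.curv hM hψ b hx] at this) (fun i => ⟨hF i, hψ i, D.a0 i⟩)
    (fun d hd z hz => by simp only [Pi.sub_apply, Pi.add_apply, sub_add_cancel]) hC hW hcl
  have gh : ∀ b, ∀ x ∈ (X.c b).source,
      HolN (fun w => g (X.ix (X.c b)) b ((X.c b).symm w)) (X.c b x) :=
    fun b x hx => D.cg.hol _ b x (sx b x hx) hx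
  have ve : ∀ b, ∀ x ∈ (X.c b).source, (fun w => g (X.ix (X.c b)) b ((X.c b).symm w) •
      V (X.c b) (X.c b ((X.c b).symm w))) =ᶠ[𝓝 (X.c b x)]
      fun w => g (X.ix (X.c b)) b ((X.c b).symm w) • V (X.c b) w := fun b x hx =>
    ((X.c b).open_target.eventually_mem ((X.c b).map_source hx)).mono fun w hw => by
      simp only [(X.c b).right_inv hw]
  have vh : ∀ b, ∀ x ∈ (X.c b).source, ∀ j, HolN (fun w => (g (X.ix (X.c b)) b ((X.c b).symm w) •
      V (X.c b) (X.c b ((X.c b).symm w))) j) (X.c b x) := fun b x hx j => by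
    filter_upwards [gh b x hx, h3 _ (X.mem b) _ ((X.c b).map_source hx) j,
      (ve b x hx).eventually_nhds] with w a1 a2 a3
    exact (a1.mul a2).congr_of_eventuallyEq (a3.mono fun y hy => congrFun hy j)
  refine ⟨X.un g σ, fun b x => g (X.ix (X.c b)) b x • V (X.c b) (X.c b x),
    fun b x hx => D.cg.un_sm hx (h1.sm _ (X.mem b) _ ((X.c b).map_source hx)),
    fun b b' x hx hx' => D.cg.un_cmp h1 b b' hx hx', vh, fun b b' x hx hx' => ?_,
    fun b x hx i => ?_, fun b x hx => ?_, fun b x hx h0 => ?_⟩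
  · rw [Matrix.mulVec_smul, h2.cmp _ (X.mem b) _ (X.mem b') x hx hx', smul_smul, smul_smul]
    refine congrArg (· • _) ?_
    show _ * g (X.ix (X.c b)) (X.ix (X.c b')) x = _
    rw [mul_comm, ← D.cg.mul _ _ _ x (sx b x hx) (sx b' x hx') hx', mul_comm,
      ← D.cg.mul _ _ _ x (sx b x hx) hx hx']
  · have hz := (X.c b).map_source hx
    have hd := hM.det_ne _ (X.mem b) _ hz
    have e := congrFun (congrArg (H (X.c b) (X.c b x) *ᵥ ·) (h4 _ (X.mem b) _ hz).1) i
    simp only [Matrix.mulVec_add, du, mul_dual hd, Pi.add_apply] at e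
    have s1 := h1.sm _ (X.mem b) _ hz
    have s2 := D.cg.un_sm (σ := σ) hx s1
    rw [dzb_sub (cd_diff (cs b x hx)) (cd_diff s2),
      dzb_twist (cd_diff (cF _ (X.mem b) _ hz)) (cd_diff (cs b x hx)) (gh b x hx)
        (cc _ b x (sx b x hx) hx),
      dzb_twist (cd_diff s1) (cd_diff s2) (gh b x hx) (by
        filter_upwards [(Ix.un_ev g σ hx).eventually_nhds] with w hw
        exact (differentiableAt_const (0 : ℂ)).congr_of_eventuallyEq
          (hw.mono fun y hy => sub_eq_zero.2 hy)), e, (X.c b).left_inv hx, Matrix.mulVec_smul,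
      Pi.smul_apply, smul_eq_mul]
    ring
  · have e := (h4 _ (X.mem b) _ ((X.c b).map_source hx)).2.1
    simp only [Pi.sub_apply, Pi.add_apply] at e
    rw [D.curv hM hψ b hx, Matrix.neg_mulVec, neg_eq_zero] at e
    rw [Matrix.mulVec_smul, e, smul_zero]
  · have hz := (X.c b).map_source hx
    have hy := sx b x hx
    have e := (h4 _ (X.mem b) _ hz).2.2 fun i => by
      rw [Ix.fam_at _ hx, D.fc i b _ x hx hy]
      exact mul_ne_zero (h0 i) ((D.ck i).ne _ _ x hx hy)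
    have f0 : ∀ i, f i b ((X.c b).symm (X.c b x)) ≠ 0 := fun i => by
      rw [(X.c b).left_inv hx]; exact h0 i
    have g0 : g b (X.ix (X.c b)) ((X.c b).symm (X.c b x)) ≠ 0 := by
      rw [(X.c b).left_inv hx]; exact D.cg.ne _ _ x hx hy
    have t := wdv_twist (Φ := fun w => ∑ i, a i * Real.log (normSq (f i b ((X.c b).symm w))) -
        l b ((X.c b).symm w))
      ((ContDiffAt.sum fun i _ => contDiffAt_const.mul
        (((mHOL m _ _).2.2 (D.fh i b x hx)).2.2.2 (f0 i)).1).sub (D.ls b x hx))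
      (fun j => cd_diff (cd_hol (vh b x hx j))) (D.cg.holN (X.mem b) hx hy hx) g0
    refine (mul_eq_zero.1 (t.symm.trans (Eq.trans (wdv_congr ?_ ?_) e))).resolve_left g0
    · filter_upwards [D.ev hM b hx, eventually_all.2 fun i => hnr i b x hx,
        eventually_all.2 fun i => (D.fh i b x hx).self_of_nhds.continuousAt.eventually_ne (f0 i)]
        with w a1 a2 a3
      have a4 : ∀ i, Real.log (N.nrC (ψ i) (X.fam (f i)) ((X.c b).symm w)) =
          Real.log (normSq (f i b ((X.c b).symm w))) - ψ i (X.c b) w +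
            Real.log (normSq (k i b (X.ix (X.c b)) ((X.c b).symm w))) := fun i => by
        rw [a2 i, Real.log_mul (normSq_pos.2 (a3 i)).ne' (Real.exp_pos _).ne', Real.log_exp]
        ring
      simp only [KP.T60.phC, aw, Pi.add_apply, a1.2, a4, mul_add, mul_sub, Finset.sum_add_distrib,
        Finset.sum_sub_distrib]
      ring
    · filter_upwards [(X.c b).open_target.eventually_mem hz] with w hw
      have h5 := (X.c b).map_target hw
      rw [(X.c b).right_inv hw, smul_smul, mul_comm, ← D.cg.mul _ _ _ _ (sx b _ h5) h5 (sx b _ h5),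
        D.cg.self (sx b _ h5), one_smul]

end main

end Pool.Agent.Lib.EX.K19
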