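import Pool.Agent.Lib.EX.K1N

/-! Project ex41: orders along the divisor, read in an adapted atlas. -/

open scoped Classical Topology ContDiff ComplexOrder Matrix Manifold
open Set Complex Metric Filter

set_option linter.unusedVariables false
set_option linter.unusedSectionVars false

noncomputable section

namespace Pool.Agent.Lib.EX.K1

open Pool.Agent.Lib.SV (E jacAt)
open Pool.Agent.Lib.HS32 Pool.Agent.Lib.HS.BBR
open Pool.Agent.Lib.KP (HolAt)

variable {n m : ℕ} {I : Type} [Fintype I] [DecidableEq I] {z : E n} {l : I → ℤ}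

theorem holN_prod {u : I → E n → ℂ} (h : ∀ i, HolN (u i) z ∧ u i z ≠ 0) (l : I → ℤ) :
    HolN (fun y => ∏ i, u i y ^ l i) z ∧ ∏ i, u i z ^ l i ≠ 0 := by
  refine ⟨?_, Finset.prod_ne_zero_iff.2 fun i _ => zpow_ne_zero _ (h i).2⟩
  have a : ∀ᶠ y in 𝓝 z, ∀ i, DifferentiableAt ℂ (u i) y ∧ u i y ≠ 0 := eventually_all.2 fun i =>
    (h i).1.and ((h i).1.self_of_nhds.continuousAt.eventually_ne (h i).2)
  exact a.mono fun y hy => (HasFDerivAt.finsetProd fun i _ =>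
    ((hy i).1.zpow (Or.inl (hy i).2)).hasFDerivAt).differentiableAt

section mf

variable {M : Mf n} {D : Ad M I} {b d : D.A} {x : M.X}

theorem tgt (hz : z ∈ B2 n) : z ∈ (D.e b).target := (D.tgt b).symm ▸ hz

theorem b2 (hx : x ∈ (D.e b).source) : D.e b x ∈ B2 n := D.tgt b ▸ (D.e b).map_source hx

theorem xm_rel (hb : x ∈ (D.e b).source) (hd : x ∈ (D.e d).source) (l : I → ℤ) :
    xm (D.c b) l (D.e b x) = D.um l b d x * xm (D.c d) l (D.e d x) := by
  simp only [xm, Ad.um, D.urel b d _ x hb hd, mul_zpow, Finset.prod_mul_distrib]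

theorem unit_of {c : I → Option (Fin n)} {φ : E n → ℂ}
    (h : ∃ s, HolN s z ∧ s z ≠ 0 ∧ ∀ᶠ y in 𝓝 z, φ y = xm c l y • s y) :
    HolN (num c l φ) z ∧ num c l φ z ≠ 0 ∧ φ z = num c l φ z * xm c l z := by
  obtain ⟨s, s1, s2, s3⟩ := h
  have a : num c l φ =ᶠ[𝓝 z] s := num_ev s1 (s3.mono fun y hy _ => hy)
  refine ⟨holN_congr s1 a, a.self_of_nhds ▸ s2, ?_⟩
  rw [a.self_of_nhds, mul_comm]
  exact s3.self_of_nhds

theorem form_of {Φ : D.A → E n → ℂ}
    (h1 : D.All fun b z => ∃ s, HolN s z ∧ s z ≠ 0 ∧ ∀ᶠ y in 𝓝 z, Φ b y = xm (D.c b) l y • s y)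
    (h2 : D.Ov fun b d x => Φ d (D.e d x) = Φ b (D.e b x) * (D.J b d x).det ^ m) :
    ∃ w : D.A → E n → ℂ, (D.All fun b z => DifferentiableAt ℂ (w b) z) ∧
      (D.All fun b z => w b z ≠ 0) ∧
      D.Ov fun b d x => w d (D.e d x) = w b (D.e b x) * D.um l b d x * (D.J b d x).det ^ m := by
  obtain ⟨w, hw⟩ : ∃ w : D.A → E n → ℂ, D.All fun b z => HolN (w b) z ∧ w b z ≠ 0 ∧
      Φ b z = w b z * xm (D.c b) l z :=
    ⟨fun b => num (D.c b) l (Φ b), fun b z hz => unit_of (h1 b z hz)⟩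
  refine ⟨w, fun b z hz => (hw b z hz).1.self_of_nhds, fun b z hz => (hw b z hz).2.1,
    fun b d x hb hd => ?_⟩
  obtain ⟨t1, -, -, t2, -⟩ := (mTR n M).2.1 _ (D.mem b) _ (D.mem d) x hb hd
  have e0 := (D.e d).left_inv hd
  have k := eq_off (D.c d) (z := D.e d x) (f := w d) (g := fun y => w b (D.e b ((D.e d).symm y)) *
    (∏ i, D.u b d i ((D.e d).symm y) ^ l i) * (jm (D.e b ∘ (D.e d).symm) y).det ^ m)
    (hw d _ (b2 hd)).1.self_of_nhds.continuousAt ?_ ?_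
  · rw [e0] at k
    exact k
  · refine (ContinuousAt.mul ?_ (holN_prod (u := fun i y => D.u b d i ((D.e d).symm y))
      (fun i => ⟨D.uhol b d i x hb hd, by rw [e0]; exact D.une b d i x hb hd⟩)
        l).1.self_of_nhds.continuousAt).mul
      ((mCHN n _ _ t1).2.2.2.2.1.self_of_nhds.continuousAt.pow m)
    refine ContinuousAt.comp (g := w b) (f := D.e b ∘ (D.e d).symm) ?_ t1.self_of_nhds.continuousAt
    rw [Function.comp_apply, e0]
    exact (hw b _ (b2 hb)).1.self_of_nhds.continuousAt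
  · filter_upwards [t2] with y hy ho
    have a1 := (hw d _ (b2 hy.2.2.1)).2.2
    have a2 := (hw b _ (b2 hy.2.1)).2.2
    have a3 := h2 b d _ hy.2.1 hy.2.2.1
    have a4 := xm_rel hy.2.1 hy.2.2.1 l
    beta_reduce at a1 a2 a3
    rw [a1, a2, a4, hy.2.2.2.2.2.1, Ad.J, hy.2.2.2.2.2.2, Ad.um] at a3
    refine mul_right_cancel₀ (MON.xm_ne l ho) (a3.trans ?_)
    ring

end mf

variable {Y : Type} [TopologicalSpace Y] [ChartedSpace (E n) Y] [IsManifold 𝓘(ℂ, E n) ω Y]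
  {S : I → Set Y} {η : Y → ℂ} {e : OpenPartialHomeomorph Y (E n)} {c : I → Option (Fin n)}

/-- Local equations in an arbitrary chart. -/
theorem eqs_chart (he : e ∈ (mf n Y).C) {x : Y} (hx : x ∈ e.source) {h : I → Y → ℂ}
    (hh : Eqs n S x h) : (∀ᶠ w in 𝓝 (e x), ∀ i, DifferentiableAt ℂ (fun y => h i (e.symm y)) w ∧
      (e.symm w ∈ S i ↔ h i (e.symm w) = 0)) ∧
    LinearIndependent ℂ fun i : {i // x ∈ S i} => fderiv ℂ (fun y => h i (e.symm y)) (e x) := by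
  have h1 : ∀ᶠ y in 𝓝 (e.symm (e x)), ∀ i, HolAt n 0 (h i) y ∧ (y ∈ S i ↔ h i y = 0) := by
    rw [e.left_inv hx]
    exact hh.1
  have h2 := fun i => holN_0 (v := h i) he (e.map_source hx) (h1.mono fun y hy => (hy i).1)
  refine ⟨((eventually_all.2 h2).and (ev_sym (e.map_source hx) h1)).mono fun w hw i =>
    ⟨hw.1 i, (hw.2.2 i).2⟩, ?_⟩
  obtain ⟨A, hA⟩ := dAt_eq he hx
  have a := hh.2.map' (A.symm.arrowCongr (ContinuousLinearEquiv.refl ℂ ℂ)).toLinearEquiv.toLinearMap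
    (LinearEquiv.ker _)
  refine (congrArg (fun f => LinearIndependent ℂ f) (funext fun i => ?_)).mp a
  rw [hA ℂ (h i) (h2 i).self_of_nhds]
  ext1 v
  simp

/-- Local equations are units times coordinates. -/
theorem eqs_unit (hU : St_UNI) (he : e ∈ (mf n Y).C) (hz : z ∈ e.target)
    (hF : ∀ᶠ y in 𝓝 z, ∀ i, e.symm y ∈ S i ↔ xi c i y = 0) {h : I → Y → ℂ}
    (hh : Eqs n S (e.symm z) h) : ∃ u : I → E n → ℂ, (∀ i, HolN (u i) z ∧ u i z ≠ 0) ∧
      ∀ᶠ y in 𝓝 z, ∀ i, h i (e.symm y) = u i y * xi c i y := by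
  obtain ⟨h1, h2⟩ := eqs_chart he (e.map_target hz) hh
  rw [e.right_inv hz] at h1 h2
  have h3 : ∀ i, ∃ u, HolN u z ∧ u z ≠ 0 ∧
      ∀ᶠ y in 𝓝 z, h i (e.symm y) = u y * xi c i y := fun i => by
    refine hU n I c i (fun y => h i (e.symm y)) z (h1.mono fun y hy => (hy i).1) ?_
      fun h0 => h2.ne_zero ⟨i, (h1.self_of_nhds i).2.2 h0⟩
    filter_upwards [h1, hF] with y a c using (a i).2.symm.trans (c i)
  choose u u1 u2 u3 using h3
  exact ⟨u, fun i => ⟨u1 i, u2 i⟩, eventually_all.2 u3⟩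

/-- The order along the divisor in an adapted chart. -/
theorem ord_chart (hU : St_UNI) (he : e ∈ (mf n Y).C) (hz : z ∈ e.target)
    (hF : ∀ᶠ y in 𝓝 z, ∀ i, e.symm y ∈ S i ↔ xi c i y = 0) (h : Ord n m S l η (e.symm z)) :
    ∃ s, HolN s z ∧ s z ≠ 0 ∧
      ∀ᶠ y in 𝓝 z, η (e.symm y) * jd e (e.symm y) ^ m = xm c l y • s y := by
  obtain ⟨h, w, h1, h2⟩ := h
  obtain ⟨u, u1, u2⟩ := eqs_unit hU he hz hF h1
  obtain ⟨p1, p2⟩ := holN_prod u1 l
  have w1 := holN_m he hz (h2.mono fun y hy => hy.1)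
  refine ⟨fun y => w (e.symm y) * jd e (e.symm y) ^ m * ∏ i, u i y ^ l i,
    (w1.and p1).mono fun y hy => hy.1.mul hy.2, mul_ne_zero (mul_ne_zero h2.self_of_nhds.2.1
      (pow_ne_zero _ (jd_ne he (e.map_target hz)))) p2, ?_⟩
  filter_upwards [u2, ev_sym hz h2] with y a c
  simp only [c.2.2.2, a, mul_zpow, Finset.prod_mul_distrib, xm, smul_eq_mul]
  ring

theorem jd_rel {e' : OpenPartialHomeomorph Y (E n)} (he : e ∈ (mf n Y).C) (he' : e' ∈ (mf n Y).C)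
    {x : Y} (hx : x ∈ e.source) (hx' : x ∈ e'.source) :
    η (e'.symm (e' x)) * jd e' (e'.symm (e' x)) ^ m =
      η (e.symm (e x)) * jd e (e.symm (e x)) ^ m * (jm (e ∘ e'.symm) (e' x)).det ^ m := by
  rw [e.left_inv hx, e'.left_inv hx', jd_mul he he' hx hx']
  ring

/-- The coefficient of a pluricanonical form in a chart. -/
def cf (η : Y → ℂ) (m : ℕ) (e : OpenPartialHomeomorph Y (E n)) (y : E n) : ℂ :=
  η (e.symm y) * jd e (e.symm y) ^ m

variable {D : Ad (mf n Y) I}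

theorem fit_ev (hF : D.Fit S) (b : D.A) (hz : z ∈ B2 n) :
    ∀ᶠ y in 𝓝 z, ∀ i, (D.e b).symm y ∈ S i ↔ xi (D.c b) i y = 0 :=
  (isOpen_ball.eventually_mem hz).mono fun y hy => hF b y hy

/-- The unit of a function with given divisor. -/
theorem ord_unit (hU : St_UNI) (hF : D.Fit S) {W : Set Y} {σ : Y → ℂ}
    (h : ∀ y ∈ W, Ord n 0 S l σ y) : ∃ v : D.A → E n → ℂ, D.On W fun d z =>
      HolN (v d) z ∧ v d z ≠ 0 ∧ D.rd σ d z = v d z * xm (D.c d) l z := by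
  refine ⟨fun d => num (D.c d) l (D.rd σ d), fun d z hz hW => unit_of ?_⟩
  have := ord_chart (Y := Y) hU (D.mem d) (tgt hz) (fit_ev hF d hz) (h _ hW)
  simp only [pow_zero, mul_one] at this
  exact this

/-- The unit of the pluricanonical form. -/
theorem ord_form (hU : St_UNI) (hF : D.Fit S) (h : ∀ y, Ord n m S l η y) :
    ∃ w : D.A → E n → ℂ, (D.All fun b z => DifferentiableAt ℂ (w b) z) ∧
      (D.All fun b z => w b z ≠ 0) ∧
      D.Ov fun b d x => w d (D.e d x) = w b (D.e b x) * D.um l b d x * (D.J b d x).det ^ m :=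
  form_of (Φ := fun b => cf η m (show OpenPartialHomeomorph Y (E n) from D.e b))
    (fun b z hz => ord_chart (Y := Y) hU (D.mem b) (tgt hz) (fit_ev hF b hz) (h _))
    fun b d x hb hd => jd_rel (Y := Y) (D.mem b) (D.mem d) hb hd

end Pool.Agent.Lib.EX.K1
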