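import Mathlib

/-! Laplace transforms are holomorphic; identity theorem on a half plane. -/

open scoped Classical Topology
open Set MeasureTheory Complex Metric Filter

noncomputable section

namespace Pool.Agent.Lib.EX.K27

theorem half_open (a : ℝ) : IsOpen {μ : ℂ | a < μ.re} := isOpen_lt continuous_const continuous_re

theorem half_zero {G : ℂ → ℂ} {a R : ℝ} (hG : DifferentiableOn ℂ G {μ | a < μ.re})
    (h : ∀ t : ℝ, R < t → G t = 0) {μ : ℂ} (hμ : a < μ.re) : G μ = 0 := by
  have hA := hG.analyticOnNhd (half_open a)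
  have hc : IsPreconnected {μ : ℂ | a < μ.re} := (convex_halfSpace_re_gt a).isPreconnected
  have h0 : ((max a R + 1 : ℝ) : ℂ) ∈ {μ : ℂ | a < μ.re} := by
    change a < max a R + 1
    linarith [le_max_left a R]
  refine hA.eqOn_zero_of_preconnected_of_frequently_eq_zero hc h0 ?_ hμ
  have ht : Tendsto (fun t : ℝ => (t : ℂ)) (𝓝[≠] (max a R + 1)) (𝓝[≠] ((max a R + 1 : ℝ) : ℂ)) :=
    tendsto_nhdsWithin_of_tendsto_nhds_of_eventually_within _
      (continuous_ofReal.continuousAt.tendsto.mono_left nhdsWithin_le_nhds)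
      (eventually_mem_nhdsWithin.mono fun t ht h => ht (ofReal_injective h))
  refine ht.frequently (Eventually.frequently ?_)
  have : ∀ᶠ t : ℝ in 𝓝 (max a R + 1), R < t := lt_mem_nhds (by linarith [le_max_right a R])
  exact (this.filter_mono nhdsWithin_le_nhds).mono h

theorem abs_mul_exp_le {l s s₀ δ : ℝ} (hδ : 0 < δ) (hs : |s - s₀| ≤ δ) :
    |l| * Real.exp (s * l) ≤ δ⁻¹ * (Real.exp ((s₀ + 2 * δ) * l) + Real.exp ((s₀ - 2 * δ) * l)) := by
  obtain ⟨h1, h2⟩ := abs_le.1 hs
  have k : δ * |l| ≤ Real.exp (δ * |l|) := by linarith [Real.add_one_le_exp (δ * |l|)]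
  rw [le_inv_mul_iff₀ hδ, ← mul_assoc]
  refine (mul_le_mul_of_nonneg_right k (Real.exp_pos _).le).trans ?_
  rw [← Real.exp_add]
  rcases le_total 0 l with h | h
  · rw [abs_of_nonneg h]
    exact le_add_of_le_of_nonneg (Real.exp_le_exp.2 (by nlinarith)) (Real.exp_pos _).le
  · rw [abs_of_nonpos h]
    exact le_add_of_nonneg_of_le (Real.exp_pos _).le (Real.exp_le_exp.2 (by nlinarith))

/-- Two-sided Laplace transforms are holomorphic. -/
theorem ana {α : Type*} [MeasurableSpace α] {ν : Measure α} {l : α → ℝ} {g : α → ℂ} {a : ℝ}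
    (hl : AEMeasurable l ν) (hg : ∀ s : ℝ, a < s → Integrable (fun x => cexp (s * l x) * g x) ν) :
    DifferentiableOn ℂ (fun μ : ℂ => ∫ x, cexp (μ * l x) * g x ∂ν) {μ | a < μ.re} := by
  intro μ₀ h0
  have h0' : a < μ₀.re := h0
  set δ : ℝ := (μ₀.re - a) / 3 with hδ
  have δ0 : 0 < δ := by rw [hδ]; linarith
  have lm : AEMeasurable (fun x => (l x : ℂ)) ν := measurable_ofReal.comp_aemeasurable hl
  have em : ∀ μ : ℂ, AEStronglyMeasurable (fun x => cexp (μ * l x)) ν := fun μ =>
    (measurable_exp.comp_aemeasurable (lm.const_mul μ)).aestronglyMeasurable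
  have gm : AEStronglyMeasurable g ν := by
    refine ((em (-(μ₀.re : ℂ))).mul (hg _ h0').1).congr (Eventually.of_forall fun x => ?_)
    simp only [Pi.mul_apply]
    rw [← mul_assoc, ← Complex.exp_add]; simp
  have nr : ∀ (μ : ℂ) x, ‖cexp (μ * l x) * g x‖ = Real.exp (μ.re * l x) * ‖g x‖ := fun μ x => by
    rw [norm_mul, norm_exp]; simp
  have i0 : Integrable (fun x => cexp (μ₀ * l x) * g x) ν :=
    (hg _ h0').norm.mono' ((em _).mul gm) (Eventually.of_forall fun x => by rw [nr, nr]; simp)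
  refine (hasDerivAt_integral_of_dominated_loc_of_deriv_le (F := fun μ x => cexp (μ * l x) * g x)
    (F' := fun μ x => l x * (cexp (μ * l x) * g x))
    (bound := fun x => δ⁻¹ * (‖cexp (((μ₀.re + 2 * δ : ℝ) : ℂ) * l x) * g x‖ +
      ‖cexp (((μ₀.re - 2 * δ : ℝ) : ℂ) * l x) * g x‖)) (ball_mem_nhds μ₀ δ0)
    (Eventually.of_forall fun μ => (em μ).mul gm) i0 (lm.aestronglyMeasurable.mul ((em _).mul gm))
    (Eventually.of_forall fun x μ hμ => ?_)
    (((hg _ (by linarith)).norm.add (hg _ (by linarith)).norm).const_mul _)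
    (Eventually.of_forall fun x μ _ => ?_)).2.differentiableAt.differentiableWithinAt
  · rw [norm_mul, nr, nr, nr, ofReal_re, ofReal_re, norm_real, Real.norm_eq_abs, ← mul_assoc,
      ← add_mul, ← mul_assoc]
    refine mul_le_mul_of_nonneg_right (abs_mul_exp_le δ0 ?_) (norm_nonneg _)
    rw [← sub_re]
    exact (abs_re_le_norm _).trans (mem_ball_iff_norm.1 hμ).le
  · have := (((hasDerivAt_id μ).mul_const (l x : ℂ)).cexp).mul_const (g x)
    simp only [id, one_mul] at this
    rwa [show cexp (μ * l x) * l x * g x = l x * (cexp (μ * l x) * g x) by ring] at this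

end Pool.Agent.Lib.EX.K27
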