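import Pool.Agent.Lib.SV.Hol85
import Pool.Agent.Lib.EX.K67A

/-! Holomorphic sections over a compact set are determined by finitely many values. -/

open scoped Topology
open Set Filter Metric

noncomputable section

namespace Pool.Agent.Lib.EX.K67

variable {X A E F : Type*} [TopologicalSpace X] [NormedAddCommGroup E] [NormedSpace ℂ E]
  [NormedAddCommGroup F] [NormedSpace ℂ F]

/-- Local oscillation bound. -/
theorem osc {T : Type*} {f : T → E → F} {B : T → ℝ} {y : E} {C : ℝ} {U : Set E} (hU : U ∈ 𝓝 y)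
    (hd : ∀ t, DifferentiableOn ℂ (f t) U) (hb : ∀ t, ∀ w ∈ U, ‖f t w‖ ≤ C * B t)
    (h0 : ∀ t, 0 ≤ B t) : ∀ᶠ w in 𝓝 y, ∀ t, ‖f t w - f t y‖ ≤ B t / 2 := by
  obtain ⟨R, hR, hRU⟩ := Metric.mem_nhds_iff.1 hU
  have h1 : Tendsto (fun w : E => 2 * C / R * ‖w - y‖) (𝓝 y) (𝓝 (2 * C / R * ‖y - y‖)) :=
    Continuous.tendsto (by fun_prop) y
  filter_upwards [ball_mem_nhds y hR, h1.eventually (gt_mem_nhds (a := 1 / 2) (by simp))]
    with w hw h t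
  refine (SV.H85.norm_sub_le_of_bound ((hd t).mono hRU) (fun z hz => hb t z (hRU hz)) hw).trans ?_
  calc 2 * (C * B t) / R * ‖w - y‖ = 2 * C / R * ‖w - y‖ * B t := by ring
    _ ≤ 1 / 2 * B t := mul_le_mul_of_nonneg_right h.le (h0 t)
    _ = B t / 2 := by ring

/-- A compact set `Z` is covered by the images of the open sets `D a`; a class `𝒜` of families of
holomorphic maps that control each other on the overlaps has a finite set of uniqueness. -/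
theorem cpts [FiniteDimensional ℂ E] {Z : Set X} (hZ : IsCompact Z) (I : Set A) (D : A → Set E)
    (ψ : A → E → X) (ho : ∀ a ∈ I, IsOpen (D a)) (hc : ∀ a ∈ I, ContinuousOn (ψ a) (D a))
    (hm : ∀ a ∈ I, MapsTo (ψ a) (D a) Z)
    (hz : ∀ x ∈ Z, ∃ a ∈ I, ∃ y ∈ D a, ∀ U ∈ 𝓝 y, ψ a '' U ∈ 𝓝[Z] x)
    (𝒜 : (A → E → F) → Prop) (hd : ∀ s, 𝒜 s → ∀ a ∈ I, DifferentiableOn ℂ (s a) (D a))
    (hb : ∀ a ∈ I, ∀ b ∈ I, ∀ y ∈ D a, ψ a y ∈ ψ b '' D b → ∃ C, ∀ᶠ w in 𝓝 y, ∀ s, 𝒜 s →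
      ∀ w' ∈ D b, ψ b w' = ψ a w → ‖s a w‖ ≤ C * ‖s b w'‖) :
    ∃ P : Finset (A × E), (∀ p ∈ P, p.1 ∈ I ∧ p.2 ∈ D p.1) ∧
      ∀ s, 𝒜 s → (∀ p ∈ P, s p.1 p.2 = 0) → ∀ a ∈ I, ∀ y ∈ D a, s a y = 0 := by
  classical
  have : ProperSpace E := FiniteDimensional.proper ℂ E
  have h1 : ∀ x : Z, ∃ a ∈ I, ∃ K ⊆ D a, IsCompact K ∧ ∃ O, IsOpen O ∧ x.1 ∈ O ∧
      O ∩ Z ⊆ ψ a '' K := fun x => by
    obtain ⟨a, ha, y, hy, h⟩ := hz x x.2
    obtain ⟨K, hK, h2, h3⟩ := local_compact_nhds ((ho a ha).mem_nhds hy)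
    exact ⟨a, ha, K, h2, h3, mem_nhdsWithin.1 (h K hK)⟩
  choose α hα K hK cK O oO mO sO using h1
  obtain ⟨t, ht⟩ := hZ.elim_finite_subcover O oO fun x hx => mem_iUnion.2 ⟨⟨x, hx⟩, mO _⟩
  let Bd : (A → E → F) → ℝ → Prop := fun s B => ∀ x ∈ t, ∀ w ∈ K x, ‖s (α x) w‖ ≤ B
  have h2 : ∀ a ∈ I, ∀ y ∈ D a, ∃ C, ∀ᶠ w in 𝓝 y, ∀ s B, 𝒜 s → Bd s B → ‖s a w‖ ≤ C * B := by
    intro a ha y hy
    obtain ⟨x, hx, h⟩ := mem_iUnion₂.1 (ht (hm a ha hy))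
    have hn := (ho a ha).mem_nhds hy
    obtain ⟨C, hC⟩ := hb a ha _ (hα x) y hy (image_mono (hK x) (sO x ⟨h, hm a ha hy⟩))
    refine ⟨|C|, ?_⟩
    filter_upwards [hC, hn, ((hc a ha).continuousAt hn).eventually ((oO x).mem_nhds h)]
      with w w1 w2 w3 s B hs hB
    obtain ⟨w', w4, w5⟩ := sO x ⟨w3, hm a ha w2⟩
    exact (w1 s hs w' (hK x w4) w5).trans (mul_le_mul (le_abs_self C) (hB x hx w' w4)
      (norm_nonneg _) (abs_nonneg C))
  have h3 : ∀ x : Z, ∃ Q : Finset E, (∀ y ∈ Q, y ∈ K x) ∧ ∀ w ∈ K x, ∃ y ∈ Q, ∀ s B, 𝒜 s →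
      Bd s B → 0 ≤ B → ‖s (α x) w - s (α x) y‖ ≤ B / 2 := fun x => by
    obtain ⟨Q, q1, q2⟩ := (cK x).elim_nhds_subcover (fun y => {w | ∀ s B, 𝒜 s →
      Bd s B → 0 ≤ B → ‖s (α x) w - s (α x) y‖ ≤ B / 2}) fun y hy => by
        obtain ⟨C, hC⟩ := h2 _ (hα x) y (hK x hy)
        filter_upwards [osc (T := {p : (A → E → F) × ℝ // 𝒜 p.1 ∧ Bd p.1 p.2 ∧ 0 ≤ p.2})
          (f := fun p => p.1.1 (α x)) (B := fun p => p.1.2) (C := C)
          (inter_mem hC ((ho _ (hα x)).mem_nhds (hK x hy)))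
          (fun p => (hd _ p.2.1 _ (hα x)).mono inter_subset_right)
          (fun p w hw => hw.1 _ _ p.2.1 p.2.2.1) fun p => p.2.2.2] with w hw s B a1 a2 a3
        exact hw ⟨(s, B), a1, a2, a3⟩
    exact ⟨Q, q1, fun w hw => by simpa only [mem_iUnion₂, exists_prop, mem_ofPred_eq] using q2 hw⟩
  choose Q q1 q2 using h3
  refine ⟨t.biUnion fun x => (Q x).image fun y => (α x, y), fun p hp => ?_, fun s hs h0 => ?_⟩
  · obtain ⟨x, -, hx⟩ := Finset.mem_biUnion.1 hp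
    obtain ⟨y, hy, rfl⟩ := Finset.mem_image.1 hx
    exact ⟨hα x, hK x (q1 x y hy)⟩
  have h4 : ∀ B, 0 ≤ B → Bd s B → Bd s (B / 2) := fun B hB h x hx w hw => by
    obtain ⟨y, hy, h5⟩ := q2 x w hw
    have h6 := h5 s B hs h hB
    rwa [h0 (α x, y) (Finset.mem_biUnion.2 ⟨x, hx, Finset.mem_image_of_mem _ hy⟩), sub_zero] at h6
  obtain ⟨B, hB, h5⟩ : ∃ B, 0 ≤ B ∧ Bd s B := by
    choose β hβ using fun x : Z => (cK x).exists_bound_of_continuousOn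
      ((hd s hs _ (hα x)).continuousOn.mono (hK x))
    exact ⟨∑ x ∈ t, |β x|, Finset.sum_nonneg fun _ _ => abs_nonneg _, fun x hx w hw =>
      (hβ x w hw).trans ((le_abs_self _).trans
        (Finset.single_le_sum (f := fun x => |β x|) (fun _ _ => abs_nonneg _) hx))⟩
  have h6 : ∀ k : ℕ, Bd s (B / 2 ^ k) := fun k => by
    induction k with
    | zero => simpa using h5
    | succ k ih => simpa only [pow_succ, div_div] using h4 _ (by positivity) ih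
  have h7 : Bd s 0 := fun x hx w hw => ge_of_tendsto' (tendsto_const_nhds.div_atTop
    (tendsto_pow_atTop_atTop_of_one_lt one_lt_two)) fun k => h6 k x hx w hw
  intro a ha y hy
  obtain ⟨C, hC⟩ := h2 a ha y hy
  simpa using hC.self_of_nhds s 0 hs h7

/-- Evaluation of a family at the points of a finite set. -/
def evP (P : Finset (A × E)) : (A → E → F) →ₗ[ℂ] (P → F) where
  toFun s p := s p.1.1 p.1.2
  map_add' _ _ := rfl
  map_smul' _ _ := rfl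

/-- The families that vanish on the sets `D a`. -/
def nul (I : Set A) (D : A → Set E) : Submodule ℂ (A → E → F) where
  carrier := {s | ∀ a ∈ I, ∀ y ∈ D a, s a y = 0}
  add_mem' h h' a ha y hy := by simp only [Pi.add_apply, h a ha y hy, h' a ha y hy, add_zero]
  zero_mem' _ _ _ _ := rfl
  smul_mem' c _ h a ha y hy := by simp only [Pi.smul_apply, h a ha y hy, smul_zero]

omit [NormedAddCommGroup E] [NormedSpace ℂ E] in
theorem mem_nul {I : Set A} {D : A → Set E} {s : A → E → F} :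
    s ∈ nul I D ↔ ∀ a ∈ I, ∀ y ∈ D a, s a y = 0 := Iff.rfl

omit [NormedAddCommGroup E] [NormedSpace ℂ E] in
/-- From a finite set of uniqueness to a finite spanning family. -/
theorem span_of_pts [FiniteDimensional ℂ F] {I : Set A} {D : A → Set E} {P : Finset (A × E)}
    (S : Submodule ℂ (A → E → F))
    (h : ∀ s ∈ S, (∀ p ∈ P, s p.1 p.2 = 0) → ∀ a ∈ I, ∀ y ∈ D a, s a y = 0) :
    (∀ s ∈ S, evP P s = 0 → s ∈ nul I D) ∧ ∃ (m : ℕ) (g : Fin m → A → E → F), (∀ i, g i ∈ S) ∧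
      ∀ s ∈ S, ∃ c : Fin m → ℂ, ∀ a ∈ I, ∀ y ∈ D a, s a y = ∑ i, c i • g i a y := by
  have h1 : ∀ s ∈ S, evP P s = 0 → s ∈ nul I D := fun s hs h0 =>
    h s hs fun p hp => congrFun h0 ⟨p, hp⟩
  obtain ⟨m, g, hg, h2⟩ := span_fin S _ _ h1
  refine ⟨h1, m, g, hg, fun s hs => (h2 s hs).imp fun c hc a ha y hy => ?_⟩
  simpa only [Pi.sub_apply, Finset.sum_apply, Pi.smul_apply, sub_eq_zero] using hc a ha y hy

end Pool.Agent.Lib.EX.K67
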