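import Pool.Agent.Lib.KP.Defs
import Pool.Agent.Lib.EX.K67B

/-! Finite dimension of spaces of holomorphic sections on a compact manifold. -/

open scoped Topology Matrix
open Set Filter Metric

noncomputable section

namespace Pool.Agent.Lib.EX.K67

open Pool.Agent.Lib.HS32
open Pool.Agent.Lib.SV (E)

variable {n : ℕ} {M : Mf n} {F : Type} [NormedAddCommGroup F] [NormedSpace ℂ F]

/-- A finite set of uniqueness for holomorphic families on a covering set `S` of charts, whose
values in two charts control each other by a locally bounded factor. -/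
theorem mpts [CompactSpace M.X] {S : Set M.Ch} (hS : ∀ x, ∃ e ∈ S, x ∈ e.source)
    (D : M.Ch → M.Ch → M.X → ℝ) (hD : M.OvOn S fun e e' x => ∃ C, ∀ᶠ y in 𝓝 x, D e e' y ≤ C) :
    ∃ P : Finset (M.Ch × E n), (∀ p ∈ P, p.1 ∈ S ∧ p.2 ∈ p.1.target) ∧ ∀ s : M.Fam F,
      (M.AllOn S fun e z => DifferentiableAt ℂ (s e) z) →
      (M.OvOn S fun e e' x => ‖s e' (e' x)‖ ≤ D e e' x * ‖s e (e x)‖) →
      (∀ p ∈ P, s p.1 p.2 = 0) → M.AllOn S fun e z => s e z = 0 := by
  obtain ⟨P, h1, h2⟩ := cpts (F := F) (isCompact_univ (X := M.X)) S (fun e => e.target)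
    (fun e => e.symm) (fun e _ => e.open_target) (fun e _ => e.continuousOn_symm)
    (fun e _ => mapsTo_univ _ _) (fun x _ => by
      obtain ⟨e, he, hx⟩ := hS x
      refine ⟨e, he, e x, e.map_source hx, fun U hU => ?_⟩
      have h := e.symm.image_mem_nhds (e.map_source hx) hU
      rwa [e.left_inv hx, ← nhdsWithin_univ] at h)
    (fun s => (M.AllOn S fun e z => DifferentiableAt ℂ (s e) z) ∧
      M.OvOn S fun e e' x => ‖s e' (e' x)‖ ≤ D e e' x * ‖s e (e x)‖)
    (fun s hs e he z hz => (hs.1 e he z hz).differentiableWithinAt) (by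
      rintro a ha b hb y hy ⟨y', hy', h⟩
      obtain ⟨C, hC⟩ := hD b hb a ha (a.symm y) (h ▸ b.map_target hy') (a.map_target hy)
      refine ⟨C, ?_⟩
      filter_upwards [(a.continuousAt_symm hy).eventually hC, a.open_target.mem_nhds hy]
        with w w1 w2 s hs w' w3 w4
      have h3 := hs.2 b hb a ha (a.symm w) (w4 ▸ b.map_target w3) (a.map_target w2)
      beta_reduce at h3
      rw [a.right_inv w2, ← w4, b.right_inv w3, w4] at h3
      exact h3.trans (mul_le_mul_of_nonneg_right w1 (norm_nonneg _)))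
  exact ⟨P, h1, fun s a b => h2 s ⟨a, b⟩⟩

theorem bd_of_cont {f : M.X → ℝ} {x : M.X} (h : ContinuousAt f x) : ∃ C, ∀ᶠ y in 𝓝 x, f y ≤ C :=
  ⟨f x + 1, (h.eventually (gt_mem_nhds (lt_add_one _))).mono fun _ h => h.le⟩

/-- Continuity on the manifold from continuity in a chart. -/
theorem cont_of_chart {G : Type} [TopologicalSpace G] {f : M.X → G} {e : M.Ch} {x : M.X}
    (hx : x ∈ e.source) (h : ContinuousAt (fun w => f (e.symm w)) (e x)) : ContinuousAt f x :=
  (h.comp (e.continuousAt hx)).congr ((e.eventually_left_inverse hx).mono fun y hy => by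
    simp only [Function.comp, hy])

theorem cont_c (L : M.Co) : M.Ov fun e e' x => ContinuousAt (L.c e e') x :=
  fun e he e' he' x hx hx' =>
    cont_of_chart hx' (L.hol e he e' he' x hx hx').self_of_nhds.continuousAt

theorem cont_J : M.Ov fun e e' x => ∀ i j, ContinuousAt (fun y => M.J e e' y i j) x :=
  fun e he e' he' x hx hx' i j => by
    obtain ⟨t1, -, -, t3, -⟩ := (mTR n M).2.1 e he e' he' x hx hx'
    refine cont_of_chart hx' (ContinuousAt.congr ?_ (t3.mono fun y hy => by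
      simp only [hy.2.2.2.2.2.2]; rfl))
    exact ((mCHN n _ _ t1).2.1 i j).continuousAt

/-- The holomorphic families on `S` with the transition maps `A`. -/
def hsecA (S : Set M.Ch) (A : M.Ch → M.Ch → M.X → F →L[ℂ] F) : Submodule ℂ (M.Fam F) where
  carrier := {s | (M.AllOn S fun e z => DifferentiableAt ℂ (s e) z) ∧
    M.OvOn S fun e e' x => s e' (e' x) = A e e' x (s e (e x))}
  add_mem' h h' := ⟨fun e he z hz => (h.1 e he z hz).add (h'.1 e he z hz),
    fun e he e' he' x hx hx' => by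
      simp only [Pi.add_apply, map_add, h.2 e he e' he' x hx hx', h'.2 e he e' he' x hx hx']⟩
  zero_mem' := ⟨fun _ _ _ _ => differentiableAt_const _, fun _ _ _ _ _ _ _ => (map_zero _).symm⟩
  smul_mem' c _ h := ⟨fun e he z hz => (h.1 e he z hz).const_smul c,
    fun e he e' he' x hx hx' => by simp only [Pi.smul_apply, map_smul, h.2 e he e' he' x hx hx']⟩

/-- The holomorphic sections of a line bundle. -/
def hsec (L : M.Co) : Submodule ℂ (M.Fam ℂ) where
  carrier := {s | M.HSecC L s}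
  add_mem' h h' := ⟨⟨fun e he z hz => (h.sm e he z hz).add (h'.sm e he z hz),
    fun e he e' he' x hx hx' => by
      simp only [Pi.add_apply, add_mul, h.cmp e he e' he' x hx hx', h'.cmp e he e' he' x hx hx']⟩,
    fun e he z hz => (h.hol e he z hz).add (h'.hol e he z hz)⟩
  zero_mem' := ⟨⟨fun _ _ _ _ => contDiffAt_const, fun _ _ _ _ _ _ _ => (zero_mul _).symm⟩,
    fun _ _ _ _ => differentiableAt_const _⟩
  smul_mem' c _ h := ⟨⟨fun e he z hz => (h.sm e he z hz).const_smul c,
    fun e he e' he' x hx hx' => by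
      simp only [Pi.smul_apply, smul_eq_mul, mul_assoc, h.cmp e he e' he' x hx hx']⟩,
    fun e he z hz => (h.hol e he z hz).const_smul c⟩

theorem mem_hsec {L : M.Co} {s : M.Fam ℂ} : s ∈ hsec L ↔ M.HSecC L s := Iff.rfl

/-- The families that vanish in the charts of `S`. -/
abbrev nulM (S : Set M.Ch) : Submodule ℂ (M.Fam F) := nul S fun e => e.target

theorem mem_nulM {S : Set M.Ch} {s : M.Fam F} :
    s ∈ nulM S ↔ M.AllOn S fun e z => s e z = 0 := Iff.rfl

/-- Finite dimension for transition maps that are continuous. -/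
theorem hsecA_fin [CompactSpace M.X] [FiniteDimensional ℂ F] {S : Set M.Ch}
    (hS : ∀ x, ∃ e ∈ S, x ∈ e.source) {A : M.Ch → M.Ch → M.X → F →L[ℂ] F}
    (hA : M.OvOn S fun e e' x => ContinuousAt (A e e') x) (T : Submodule ℂ (M.Fam F))
    (hT : T ≤ hsecA S A) :
    (∃ P : Finset (M.Ch × E n), ∀ s ∈ T, evP P s = 0 → s ∈ nulM S) ∧
      ∃ (m : ℕ) (g : Fin m → M.Fam F), (∀ i, g i ∈ T) ∧
        ∀ s ∈ T, ∃ c : Fin m → ℂ, M.AllOn S fun e z => s e z = ∑ i, c i • g i e z := by
  obtain ⟨P, -, h⟩ := mpts (F := F) hS (fun e e' x => ‖A e e' x‖) fun e he e' he' x hx hx' =>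
    bd_of_cont (hA e he e' he' x hx hx').norm
  obtain ⟨h1, h2⟩ := span_of_pts (I := S) (D := fun e => e.target) (P := P) T fun s hs =>
    h s (hT hs).1 fun e he e' he' x hx hx' => by
      beta_reduce
      rw [(hT hs).2 e he e' he' x hx hx']
      exact (A e e' x).le_opNorm _
  exact ⟨⟨P, h1⟩, h2⟩

/-- A finite set of uniqueness for the holomorphic sections of a line bundle. -/
theorem hsec_pts [CompactSpace M.X] (L : M.Co) : ∃ P : Finset (M.Ch × E n),
    (∀ p ∈ P, p.1 ∈ M.C ∧ p.2 ∈ p.1.target) ∧ ∀ s, M.HSecC L s → (∀ p ∈ P, s p.1 p.2 = 0) →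
      M.All fun e z => s e z = 0 := by
  obtain ⟨P, h0, h⟩ := mpts (F := ℂ) M.cov (fun e e' x => ‖L.c e e' x‖)
    fun e he e' he' x hx hx' => bd_of_cont (cont_c L e he e' he' x hx hx').norm
  exact ⟨P, h0, fun s hs => h s hs.hol fun e he e' he' x hx hx' => by
    beta_reduce
    rw [hs.cmp e he e' he' x hx hx', norm_mul, mul_comm]⟩

/-- The evaluation map that the linear algebra lemma asks for. -/
theorem hsec_ev [CompactSpace M.X] (L : M.Co) :
    ∃ P : Finset (M.Ch × E n), ∀ s ∈ hsec L, evP P s = 0 → s ∈ nulM M.C := by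
  obtain ⟨P, -, h⟩ := hsec_pts L
  exact ⟨P, (span_of_pts (I := M.C) (D := fun e => e.target) (P := P) (hsec L) h).1⟩

/-- The holomorphic sections of a line bundle on a compact manifold are spanned by finitely many
of them. -/
theorem hsec_fin [CompactSpace M.X] (L : M.Co) : ∃ (m : ℕ) (g : Fin m → M.Fam ℂ),
    (∀ i, M.HSecC L (g i)) ∧ ∀ s, M.HSecC L s →
      ∃ c : Fin m → ℂ, M.All fun e z => s e z = ∑ i, c i * g i e z := by
  obtain ⟨P, -, h⟩ := hsec_pts L
  exact (span_of_pts (I := M.C) (D := fun e => e.target) (P := P) (hsec L) h).2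

/-- A finite set of uniqueness for vector valued families whose transition matrices have
continuous entries. -/
theorem mat_pts [CompactSpace M.X] {ι : Type} [Fintype ι] {S : Set M.Ch}
    (hS : ∀ x, ∃ e ∈ S, x ∈ e.source) {A : M.Ch → M.Ch → M.X → Matrix ι ι ℂ}
    (hA : M.OvOn S fun e e' x => ∀ i j, ContinuousAt (fun y => A e e' y i j) x) :
    ∃ P : Finset (M.Ch × E n), (∀ p ∈ P, p.1 ∈ S ∧ p.2 ∈ p.1.target) ∧ ∀ s : M.Fam (ι → ℂ),
      (M.AllOn S fun e z => DifferentiableAt ℂ (s e) z) →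
      (M.OvOn S fun e e' x => s e' (e' x) = A e e' x *ᵥ s e (e x)) →
      (∀ p ∈ P, s p.1 p.2 = 0) → M.AllOn S fun e z => s e z = 0 := by
  obtain ⟨P, h0, h⟩ := mpts (F := ι → ℂ) hS (fun e e' x => ∑ i, ∑ j, ‖A e e' x i j‖)
    fun e he e' he' x hx hx' => bd_of_cont (tendsto_finsetSum _ fun i _ =>
      tendsto_finsetSum _ fun j _ => (hA e he e' he' x hx hx' i j).norm)
  refine ⟨P, h0, fun s h1 h2 => h s h1 fun e he e' he' x hx hx' => ?_⟩
  beta_reduce
  rw [h2 e he e' he' x hx hx']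
  refine (pi_norm_le_iff_of_nonneg (by positivity)).2 fun i => (norm_sum_le _ _).trans ?_
  refine le_trans ?_ (mul_le_mul_of_nonneg_right (Finset.single_le_sum
    (f := fun i => ∑ j, ‖A e e' x i j‖) (fun _ _ => by positivity) (Finset.mem_univ i))
    (norm_nonneg _))
  rw [Finset.sum_mul]
  exact Finset.sum_le_sum fun j _ => (norm_mul_le _ _).trans
    (mul_le_mul_of_nonneg_left (norm_le_pi_norm _ j) (norm_nonneg _))

/-- Finite sets of uniqueness for finitely many spaces give one evaluation map on the product. -/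
theorem pi_ev {κ : Type} {R W : κ → Type*} [∀ k, AddCommGroup (R k)] [∀ k, Module ℂ (R k)]
    [∀ k, AddCommGroup (W k)] [∀ k, Module ℂ (W k)] {S N : ∀ k, Submodule ℂ (R k)}
    (π : ∀ k, R k →ₗ[ℂ] W k) (h : ∀ k, ∀ x ∈ S k, π k x = 0 → x ∈ N k) :
    ∀ x ∈ Submodule.pi univ S, LinearMap.piMap π x = 0 → x ∈ Submodule.pi univ N :=
  fun _ hx h0 k hk => h k _ (hx k hk) (congrFun h0 k)

end Pool.Agent.Lib.EX.K67
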