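import Pool.Agent.Lib.EX.K68A
import Pool.Agent.Lib.MP_0281e9_an.TurSm

/-! Coordinate hyperplanes: Hadamard's lemma, smooth ideals, extension from strata. -/

open scoped Classical Topology ENNReal ComplexConjugate
open Set MeasureTheory Complex Metric Filter

set_option linter.unusedVariables false

noncomputable section

namespace Pool.Agent.Lib.EX.K68

open Pool.Agent.Lib.SV (E)
open Pool.Agent.Lib.HS32

variable {n : ℕ} {I J T : Finset (Fin n)} {z x c w : E n} {f g m D : E n → ℂ} {i j : Fin n}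
  {U : Set (E n)}

/-- Smooth at every point of `U`. -/
def SmO (U : Set (E n)) (f : E n → ℂ) : Prop := ∀ z ∈ U, ContDiffAt ℝ (⊤ : ℕ∞) f z

/-- Smooth near `x`. -/
def SmN (f : E n → ℂ) (x : E n) : Prop := ∀ᶠ w in 𝓝 x, ContDiffAt ℝ (⊤ : ℕ∞) f w

theorem SmO.smN (hf : SmO U f) (hU : IsOpen U) (hx : x ∈ U) : SmN f x :=
  (hU.eventually_mem hx).mono hf

theorem SmN.at (hf : SmN f x) : ContDiffAt ℝ (⊤ : ℕ∞) f x := hf.self_of_nhds

theorem SmN.ball (hf : SmN f x) {P : E n → Prop} (hP : ∀ᶠ w in 𝓝 x, P w) :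
    ∃ r, 0 < r ∧ SmO (ball x r) f ∧ ∀ w ∈ ball x r, P w := by
  obtain ⟨r, r0, hr⟩ := Metric.eventually_nhds_iff_ball.1 (Eventually.and hf hP)
  exact ⟨r, r0, fun w hw => (hr w hw).1, fun w hw => (hr w hw).2⟩

theorem smN_of_holN (hf : HolN f x) : SmN f x :=
  (Eventually.eventually_nhds hf).mono fun _ h => BHOL.smooth h

theorem smO_of_hol (hU : IsOpen U) (hf : DifferentiableOn ℂ f U) : SmO U f :=
  fun _ hx => BHOL.smooth (holN_of hU hf hx)

theorem SmO.comp_pz (hf : SmO U f) (hS : Stab T U) (hJ : J ⊆ T) : SmO U fun w => f (pz J w) :=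
  fun z hz => (hf _ (hS J hJ z hz)).comp z (cd_pz J).contDiffAt

theorem SmO.rm (hf : SmO U f) (hS : Stab I U) : SmO U (rm I f) := fun z hz =>
  ContDiffAt.sum fun K hK => contDiffAt_const.mul (hf.comp_pz hS (Finset.mem_powerset.1 hK) z hz)

theorem cd_coord (i : Fin n) : ContDiffAt ℝ (⊤ : ℕ∞) (fun w : E n => w i) z :=
  (contDiff_apply ℝ ℂ i).contDiffAt

theorem cd_prod (I : Finset (Fin n)) :
    ContDiffAt ℝ (⊤ : ℕ∞) (fun w : E n => ∏ i ∈ I, w i) z :=
  contDiffAt_prod fun i _ => cd_coord i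

/-- A function smooth on an open set agrees near a closed subset with a global one. -/
theorem ext_closed {X F : Type} [NormedAddCommGroup X] [NormedSpace ℝ X] [FiniteDimensional ℝ X]
    [NormedAddCommGroup F] [NormedSpace ℝ F] {U K : Set X} {f : X → F} (hU : IsOpen U)
    (hK : IsClosed K) (hKU : K ⊆ U) (hf : ∀ z ∈ U, ContDiffAt ℝ (⊤ : ℕ∞) f z) :
    ∃ G, ContDiff ℝ (⊤ : ℕ∞) G ∧ (∀ᶠ z in 𝓝ˢ K, G z = f z) ∧ ∀ z, f z = 0 → G z = 0 := by
  obtain ⟨χ, h0, h1, -⟩ := exists_contMDiffMap_zero_one_nhds_of_isClosed (modelWithCornersSelf ℝ X)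
    (n := ⊤) hU.isClosed_compl hK (disjoint_compl_left_iff_subset.2 hKU)
  refine ⟨fun z => χ z • f z, contDiff_iff_contDiffAt.2 fun z => ?_,
    h1.mono fun z hz => by simp only [hz, one_smul], fun z hz => by simp only [hz, smul_zero]⟩
  by_cases hz : z ∈ U
  · exact χ.contMDiff.contDiff.contDiffAt.smul (hf z hz)
  · refine (contDiffAt_const (c := (0 : F))).congr_of_eventuallyEq ?_
    filter_upwards [eventually_nhdsSet_iff_forall.1 h0 z hz] with y hy
    simp only [hy, zero_smul]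

theorem SmN.ext (hf : SmN f x) : ∃ G, ContDiff ℝ (⊤ : ℕ∞) G ∧ G =ᶠ[𝓝 x] f := by
  obtain ⟨r, r0, h, -⟩ := hf.ball (Eventually.of_forall fun _ => trivial)
  obtain ⟨G, h1, h2, -⟩ := ext_closed isOpen_ball isClosed_singleton
    (singleton_subset_iff.2 (mem_ball_self r0)) h
  exact ⟨G, h1, by rwa [nhdsSet_singleton] at h2⟩

/-! ### Hadamard's lemma -/

/-- The segment from the projection of `w` to `w`. -/
def sg (I : Finset (Fin n)) (w : E n) (s : ℝ) : E n := pz I w + s • (w - pz I w)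

/-- The mean of `D` over the segment. -/
def hd (I : Finset (Fin n)) (D : E n → ℂ) (w : E n) : ℂ := ∫ s in (0 : ℝ)..1, D (sg I w s)

theorem cd_sg (I : Finset (Fin n)) : ContDiff ℝ (⊤ : ℕ∞) fun q : E n × ℝ => sg I q.1 q.2 :=
  ((cd_pz I).comp contDiff_fst).add
    (contDiff_snd.smul (contDiff_fst.sub ((cd_pz I).comp contDiff_fst)))

theorem sg_mem (hc : Convex ℝ U) (hS : Stab I U) (hw : w ∈ U) {s : ℝ} (hs : s ∈ Icc (0 : ℝ) 1) :
    sg I w s ∈ U := hc.add_smul_sub_mem (hS I subset_rfl w hw) hw hs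

theorem sg_zero (h : w j = 0) (s : ℝ) : sg I w s j = 0 := by
  simp [sg, h, pz_of_zero h]

theorem hd_strat (hw : ∀ j ∈ I, w j = 0) : hd I D w = D w := by
  simp [hd, sg, pz_eq_self hw]

theorem hd_zero (h : ∀ s ∈ Icc (0 : ℝ) 1, D (sg I w s) = 0) : hd I D w = 0 := by
  rw [hd, intervalIntegral.integral_congr (g := fun _ => 0) fun s hs => h s (by simpa using hs)]
  simp

theorem SmO.hd (hD : SmO U D) (hU : IsOpen U) (hc : Convex ℝ U) (hS : Stab I U) :
    SmO U (hd I D) := by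
  intro w hw
  have hs : Continuous (sg I w) := (cd_sg I).continuous.comp (f := fun s => (w, s)) (by fun_prop)
  obtain ⟨G, h1, h2, -⟩ := ext_closed hU (isCompact_Icc.image hs).isClosed
    (image_subset_iff.2 fun s hs => sg_mem hc hS hw hs) hD
  have h3 : ∀ᶠ y in 𝓝 w, ∀ s ∈ Icc (0 : ℝ) 1, G (sg I y s) = D (sg I y s) :=
    isCompact_Icc.eventually_forall_of_forall_eventually fun s hs =>
      ((cd_sg I).continuous.tendsto (w, s)).eventually
        (eventually_nhdsSet_iff_forall.1 h2 _ (mem_image_of_mem _ hs))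
  refine (MP_0281e9_an.BT.contDiff_param_integral (G := fun q : E n × ℝ => G (sg I q.1 q.2))
    (h1.comp (cd_sg I))).contDiffAt.congr_of_eventuallyEq (h3.mono fun y hy => ?_)
  exact intervalIntegral.integral_congr fun s hs => (hy s (by simpa using hs)).symm

/-- Hadamard's lemma along a stratum. -/
theorem hadamard (hf : SmO U f) (hc : Convex ℝ U) (hS : Stab I U) (hw : w ∈ U) :
    f w = f (pz I w) + ∑ j ∈ I, (w j * hd I (dz j f) w + star (w j) * hd I (dzb j f) w) := by
  have hs : Continuous (sg I w) := (cd_sg I).continuous.comp (f := fun s => (w, s)) (by fun_prop)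
  have hi : ∀ D : E n → ℂ, SmO U D → IntervalIntegrable (fun s => D (sg I w s)) volume 0 1 :=
    fun D hD => ContinuousOn.intervalIntegrable fun s hs' =>
      ((hD _ (sg_mem hc hS hw (by simpa using hs'))).continuousAt.comp
        hs.continuousAt).continuousWithinAt
  have h1 : ∀ j, IntervalIntegrable (fun s => w j * dz j f (sg I w s)) volume 0 1 := fun j =>
    (hi _ fun z hz => cd_dz (hf z hz) j).const_mul _
  have h2 : ∀ j, IntervalIntegrable (fun s => star (w j) * dzb j f (sg I w s)) volume 0 1 :=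
    fun j => (hi _ fun z hz => cd_dzb (hf z hz) j).const_mul _
  have := intervalIntegral.integral_eq_sub_of_hasDerivAt (a := 0) (b := 1)
    (f := fun s => f (sg I w s))
    (f' := fun s => ∑ j ∈ I, (w j * dz j f (sg I w s) + star (w j) * dzb j f (sg I w s)))
    (fun s hs' => by
      have h3 : HasDerivAt (sg I w) (w - pz I w) s := by
        have := ((hasDerivAt_id s).smul_const (w - pz I w)).const_add (pz I w)
        rwa [one_smul] at this
      have h4 := (cd_diff (hf _ (sg_mem hc hS hw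
        (by simpa using hs' : s ∈ Icc (0 : ℝ) 1)))).hasFDerivAt.comp_hasDerivAt s h3
      rw [fderiv_eq_sum, ← Finset.sum_subset (Finset.subset_univ I) fun j _ hj => by
        simp [pz_not_mem hj]] at h4
      rw [Finset.sum_congr rfl fun j hj => ?_]
      · exact h4
      · simp only [Pi.sub_apply, pz_mem hj, sub_zero]
        ring)
    (by simpa only [Finset.sum_fn] using IntervalIntegrable.sum I fun j _ => (h1 j).add (h2 j))
  rw [intervalIntegral.integral_finsetSum fun j _ => (h1 j).add (h2 j)] at this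
  have e1 : sg I w 1 = w := by simp [sg]
  have e0 : sg I w 0 = pz I w := by simp [sg]
  rw [e1, e0] at this
  rw [← sub_eq_iff_eq_add', ← this]
  refine Finset.sum_congr rfl fun j _ => ?_
  rw [intervalIntegral.integral_add (h1 j) (h2 j), intervalIntegral.integral_const_mul,
    intervalIntegral.integral_const_mul, hd, hd]

/-- Existential form; on the stratum the coefficients are the derivatives. -/
theorem had_ex (hU : IsOpen U) (hc : Convex ℝ U) (hS : Stab I U) (hf : SmO U f) :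
    ∃ a b : Fin n → E n → ℂ, (∀ j, SmO U (a j) ∧ SmO U (b j)) ∧
      (∀ w ∈ U, f w = f (pz I w) + ∑ j ∈ I, (w j * a j w + star (w j) * b j w)) ∧
      ∀ j w, (∀ i ∈ I, w i = 0) → a j w = dz j f w ∧ b j w = dzb j f w :=
  ⟨fun j => hd I (dz j f), fun j => hd I (dzb j f), fun j =>
    ⟨SmO.hd (fun z hz => cd_dz (hf z hz) j) hU hc hS,
      SmO.hd (fun z hz => cd_dzb (hf z hz) j) hU hc hS⟩,
    fun w hw => hadamard hf hc hS hw, fun j w hw => ⟨hd_strat hw, hd_strat hw⟩⟩

theorem had_germ (hx : ∀ i ∈ I, x i = 0) (hf : SmN f x) :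
    ∃ a b : Fin n → E n → ℂ, (∀ j, SmN (a j) x ∧ SmN (b j) x) ∧
      (∀ᶠ w in 𝓝 x, f w = f (pz I w) + ∑ j ∈ I, (w j * a j w + star (w j) * b j w)) ∧
      ∀ j w, (∀ i ∈ I, w i = 0) → a j w = dz j f w ∧ b j w = dzb j f w := by
  obtain ⟨r, r0, h, -⟩ := hf.ball (Eventually.of_forall fun _ => trivial)
  obtain ⟨a, b, h1, h2, h3⟩ := had_ex isOpen_ball (convex_ball x r) (stab_ball hx) h
  exact ⟨a, b, fun j => ⟨(h1 j).1.smN isOpen_ball (mem_ball_self r0),
    (h1 j).2.smN isOpen_ball (mem_ball_self r0)⟩, mem_of_superset (ball_mem_nhds x r0) h2, h3⟩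

/-- Holomorphic form. -/
theorem had_hol (hU : IsOpen U) (hS : Stab I U) (hf : DifferentiableOn ℂ f U) :
    ∃ a : Fin n → E n → ℂ, (∀ j, DifferentiableOn ℂ (a j) U) ∧
      ∀ w ∈ U, f w = f (pz I w) + ∑ j ∈ I, w j * a j w := by
  induction I using Finset.induction_on with
  | empty => exact ⟨fun _ _ => 0, fun _ => differentiableOn_const 0, fun w _ => by simp⟩
  | insert k I hk ih =>
    obtain ⟨a, h1, h2⟩ := ih (hS.mono (Finset.subset_insert k I))
    have hk' : {k} ⊆ insert k I := Finset.singleton_subset_iff.2 (Finset.mem_insert_self k I)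
    obtain ⟨b, h3, h4⟩ := div_coord (i := k) hU (hf.fun_sub (hol_comp_pz hS hk' hf))
      fun w _ h => by rw [pz_single_self h, sub_self]
    refine ⟨fun j w => if j = k then b w else a j (pz {k} w), fun j => ?_, fun w hw => ?_⟩
    · beta_reduce
      split_ifs
      · exact h3
      · exact hol_comp_pz hS hk' (h1 j)
    · beta_reduce
      rw [Finset.sum_insert hk, if_pos rfl, ← h4 w hw, pz_insert,
        Finset.sum_congr rfl (g := fun j => pz {k} w j * a j (pz {k} w)) fun j hj => ?_,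
        h2 _ (hS _ hk' w hw)]
      · ring
      · have : j ≠ k := fun h => hk (h ▸ hj)
        rw [if_neg this, pz_not_mem (Finset.notMem_singleton.2 this)]

theorem had_hol_germ (hx : ∀ i ∈ I, x i = 0) (hf : HolN f x) :
    ∃ a : Fin n → E n → ℂ, (∀ j, HolN (a j) x) ∧
      ∀ᶠ w in 𝓝 x, f w = f (pz I w) + ∑ j ∈ I, w j * a j w := by
  obtain ⟨r, r0, h, -⟩ := holN_ball hf (Eventually.of_forall fun _ => trivial)
  obtain ⟨a, h1, h2⟩ := had_hol isOpen_ball (stab_ball hx) h
  exact ⟨a, fun j => holN_of isOpen_ball (h1 j) (mem_ball_self r0),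
    mem_of_superset (ball_mem_nhds x r0) h2⟩

/-! ### Functions that vanish on a union of hyperplanes or strata -/

/-- The mixed monomial `z_A conj z_(I - A)`. -/
def mx (I A : Finset (Fin n)) (z : E n) : ℂ := (∏ i ∈ A, z i) * ∏ i ∈ I \ A, star (z i)

theorem norm_mx {A : Finset (Fin n)} (hA : A ⊆ I) : ‖mx I A z‖ = ∏ i ∈ I, ‖z i‖ := by
  simp only [mx, norm_mul, norm_prod, norm_star]
  rw [mul_comm, Finset.prod_sdiff hA]

theorem mx_pz {A : Finset (Fin n)} (hA : A ⊆ I) (h : ∀ i ∈ I, i ∉ J) :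
    mx I A (pz J z) = mx I A z := by
  rw [mx, mx, Finset.prod_congr rfl fun i hi => pz_not_mem (h i (hA hi)),
    Finset.prod_congr rfl fun i hi => congrArg star (pz_not_mem (h i (Finset.mem_sdiff.1 hi).1))]

theorem sm_prod (hU : IsOpen U) (hc : Convex ℝ U) (I : Finset (Fin n)) : ∀ {f : E n → ℂ},
    Stab I U → SmO U f → (∀ w ∈ U, ∀ i ∈ I, w i = 0 → f w = 0) →
    ∃ g : Finset (Fin n) → E n → ℂ, (∀ A, SmO U (g A)) ∧
      ∀ w ∈ U, f w = ∑ A ∈ I.powerset, mx I A w * g A w := by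
  induction I using Finset.induction_on with
  | empty => exact fun {f} _ hf _ => ⟨fun _ => f, fun _ => hf, fun w _ => by simp [mx]⟩
  | insert k I hk ih =>
    intro f hS hf h0
    have hk' : Stab {k} U := hS.mono (Finset.singleton_subset_iff.2 (Finset.mem_insert_self k I))
    have hI := hS.mono (Finset.subset_insert k I)
    have tan : ∀ w ∈ U, ∀ i ∈ I, w i = 0 → dz k f w = 0 ∧ dzb k f w = 0 := fun w hw i hi h => by
      have := dz_strat (J := {i}) (g := fun _ => 0) (i := k)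
        (fun j hj => by rw [Finset.mem_singleton.1 hj, h]) (cd_diff (hf w hw))
        (differentiableAt_const 0) ((hU.eventually_mem hw).mono fun y hy h' =>
          h0 y hy i (Finset.mem_insert_of_mem hi) (h' i (Finset.mem_singleton_self i)))
        (Finset.notMem_singleton.2 fun h' => hk (h' ▸ hi))
      simpa using this
    obtain ⟨a, a1, a2⟩ := ih hI (SmO.hd (fun z hz => cd_dz (hf z hz) k) hU hc hk')
      fun w hw i hi h => hd_zero fun s hs => (tan _ (sg_mem hc hk' hw hs) i hi (sg_zero h s)).1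
    obtain ⟨b, b1, b2⟩ := ih hI (SmO.hd (fun z hz => cd_dzb (hf z hz) k) hU hc hk')
      fun w hw i hi h => hd_zero fun s hs => (tan _ (sg_mem hc hk' hw hs) i hi (sg_zero h s)).2
    refine ⟨fun A => if k ∈ A then a (A.erase k) else b A, fun A => ?_, fun w hw => ?_⟩
    · beta_reduce
      split_ifs
      · exact a1 _
      · exact b1 _
    · beta_reduce
      rw [hadamard hf hc hk' hw, h0 _ (hk' _ subset_rfl w hw) k (Finset.mem_insert_self k I)
        (pz_mem (Finset.mem_singleton_self k)), zero_add, Finset.sum_singleton, a2 w hw, b2 w hw,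
        Finset.sum_powerset_insert hk, add_comm, Finset.mul_sum, Finset.mul_sum]
      refine congrArg₂ _ (Finset.sum_congr rfl fun A hA => ?_) (Finset.sum_congr rfl fun A hA => ?_)
      · have hA' : k ∉ A := fun h => hk (Finset.mem_powerset.1 hA h)
        rw [if_neg hA', mx, mx, Finset.insert_sdiff_of_notMem _ hA',
          Finset.prod_insert fun h => hk (Finset.mem_sdiff.1 h).1]
        ring
      · have hA' : k ∉ A := fun h => hk (Finset.mem_powerset.1 hA h)
        rw [if_pos (Finset.mem_insert_self k A), Finset.erase_insert hA', mx, mx,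
          Finset.insert_sdiff_insert, Finset.sdiff_insert_of_notMem hk, Finset.prod_insert hA']
        ring

/-- A smooth function that vanishes on all strata of depth `q + 1`. -/
theorem sm_ideal {q : ℕ} (hU : IsOpen U) (hc : Convex ℝ U) (hS : Stab T U) (hf : SmO U f)
    (h0 : ∀ I ⊆ T, I.card = q + 1 → ∀ w ∈ U, (∀ i ∈ I, w i = 0) → f w = 0) :
    ∃ g : Finset (Fin n) → Finset (Fin n) → E n → ℂ, (∀ J A, SmO U (g J A)) ∧
      ∀ w ∈ U, f w = ∑ J ∈ T.powerset with J.card ≤ q,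
        ∑ A ∈ (T \ J).powerset, mx (T \ J) A w * g J A w := by
  choose g g1 g2 using fun J : Finset (Fin n) => sm_prod hU hc (T \ J)
    (hS.mono Finset.sdiff_subset) (hf.rm (hS.mono Finset.sdiff_subset))
    fun w _ i hi h => rm_zero hi h
  refine ⟨fun J A w => g J A (pz (J ∩ T) w), fun J A => (g1 J A).comp_pz hS
    Finset.inter_subset_right, fun w hw => ?_⟩
  beta_reduce
  rw [sum_rm T f w, Finset.sum_filter]
  refine Finset.sum_congr rfl fun J hJ => ?_
  have hJ' := Finset.mem_powerset.1 hJ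
  split_ifs with h
  · rw [g2 J _ (hS J hJ' w hw), Finset.inter_eq_left.2 hJ']
    exact Finset.sum_congr rfl fun A hA => by
      rw [mx_pz (Finset.mem_powerset.1 hA) fun i hi => (Finset.mem_sdiff.1 hi).2]
  · exact rm_deep hS hJ' (not_le.1 h) hw h0

theorem ev_bd {ι : Type} (s : Finset ι) {g : ι → E n → ℂ} (hg : ∀ a ∈ s, ContinuousAt (g a) x) :
    ∃ C, 0 ≤ C ∧ ∀ᶠ w in 𝓝 x, ∑ a ∈ s, ‖g a w‖ ≤ C :=
  ⟨∑ a ∈ s, ‖g a x‖ + 1, by positivity,
    ((tendsto_finsetSum s fun a ha => (hg a ha).norm).eventually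
      (gt_mem_nhds (lt_add_one _))).mono fun _ h => h.le⟩

/-- The bound by the product of the coordinates, at any point. -/
theorem bd_prod (hf : SmN f x) (h0 : ∀ᶠ w in 𝓝 x, ∀ i ∈ I, w i = 0 → f w = 0) :
    ∃ C, ∀ᶠ w in 𝓝 x, ‖f w‖ ≤ C * ∏ i ∈ I, ‖w i‖ := by
  obtain ⟨r, r0, h1, h2⟩ := hf.ball (h0.and (ev_ne x I))
  have hS := Finset.filter_subset (fun i => x i = 0) I
  obtain ⟨g, g1, g2⟩ := sm_prod isOpen_ball (convex_ball x r) (I.filter fun i => x i = 0)
    (stab_ball fun j hj => (Finset.mem_filter.1 hj).2) h1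
    fun w hw i hi => (h2 w hw).1 i (hS hi)
  obtain ⟨C, C0, hC⟩ := ev_bd (I.filter fun i => x i = 0).powerset
    (g := fun A w => g A w / ∏ i ∈ I \ I.filter fun i => x i = 0, w i) fun A _ =>
      (g1 A x (mem_ball_self r0)).continuousAt.div (cd_prod _).continuousAt
        (Finset.prod_ne_zero_iff.2 (h2 x (mem_ball_self r0)).2)
  refine ⟨C, ?_⟩
  filter_upwards [hC, ball_mem_nhds x r0] with w h3 hw
  rw [g2 w hw]
  refine (norm_sum_le _ _).trans (le_trans (le_of_eq ?_)
    (mul_le_mul_of_nonneg_right h3 (Finset.prod_nonneg fun _ _ => norm_nonneg _)))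
  rw [Finset.sum_mul]
  refine Finset.sum_congr rfl fun A hA => ?_
  have h4 : ∏ i ∈ I \ I.filter fun i => x i = 0, ‖w i‖ ≠ 0 :=
    Finset.prod_ne_zero_iff.2 fun i hi => norm_ne_zero_iff.2 ((h2 w hw).2 i hi)
  rw [norm_mul, norm_mx (Finset.mem_powerset.1 hA), norm_div, norm_prod, ← Finset.prod_sdiff hS]
  field_simp

/-! ### Extension from a union of strata -/

/-- The extension of `f` from the strata of depth `p`. -/
def exs (T : Finset (Fin n)) (p : ℕ) (f : E n → ℂ) (z : E n) : ℂ :=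
  ∑ J ∈ T.powerset with p ≤ J.card, rm (T \ J) f (pz J z)

theorem exs_eq {p : ℕ} (hI : I ⊆ T) (hp : p ≤ I.card) (hz : ∀ i ∈ I, z i = 0) :
    exs T p f z = f z := by
  rw [sum_rm T f z, exs, Finset.sum_filter]
  refine Finset.sum_congr rfl fun J hJ => ?_
  split_ifs with h
  · rfl
  · obtain ⟨i, h1, h2⟩ := Finset.exists_mem_notMem_of_card_lt_card ((not_le.1 h).trans_le hp)
    exact (rm_zero (Finset.mem_sdiff.2 ⟨hI h1, h2⟩) (pz_of_zero (hz i h1))).symm

theorem rm_pz_sub (hI : I ⊆ J) :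
    rm (T \ J) f (pz J z) = rm (T \ J) (fun w => f (pz I w)) (pz J z) := by
  rw [rm_pz, pz_pz, Finset.union_eq_right.2 hI]

theorem sm_exs {p : ℕ} (hS : Stab T U)
    (hf : ∀ I ⊆ T, I.card = p → SmO U fun w => f (pz I w)) : SmO U (exs T p f) := fun z hz =>
  ContDiffAt.sum fun J hJ => by
    obtain ⟨h1, h2⟩ := Finset.mem_filter.1 hJ
    obtain ⟨I, hI, hc⟩ := Finset.exists_subset_card_eq h2
    have h3 := Finset.mem_powerset.1 h1
    simp only [rm_pz_sub (f := f) hI]
    exact ((hf I (hI.trans h3) hc).rm (hS.mono Finset.sdiff_subset)).comp_pz hS h3 z hz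

theorem hol_exs {p : ℕ} (hS : Stab T U)
    (hf : ∀ I ⊆ T, I.card = p → DifferentiableOn ℂ (fun w => f (pz I w)) U) :
    DifferentiableOn ℂ (exs T p f) U :=
  DifferentiableOn.fun_sum fun J hJ => by
    obtain ⟨h1, h2⟩ := Finset.mem_filter.1 hJ
    obtain ⟨I, hI, hc⟩ := Finset.exists_subset_card_eq h2
    have h3 := Finset.mem_powerset.1 h1
    simp only [rm_pz_sub (f := f) hI]
    exact hol_comp_pz hS h3 (hol_rm (hS.mono Finset.sdiff_subset) (hf I (hI.trans h3) hc))

theorem glue_strata {p : ℕ} {c : Finset (Fin n) → E n → ℂ}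
    (hc : ∀ I ⊆ T, I.card = p → ∀ J ⊆ T, J.card = p → ∀ w ∈ U,
      (∀ i ∈ I, w i = 0) → (∀ i ∈ J, w i = 0) → c I w = c J w) :
    ∃ f : E n → ℂ, ∀ I ⊆ T, I.card = p → ∀ w ∈ U, (∀ i ∈ I, w i = 0) → f w = c I w := by
  refine ⟨fun w => if h : ∃ I, I ⊆ T ∧ I.card = p ∧ ∀ i ∈ I, w i = 0 then c h.choose w else 0,
    fun I hI hp w hw h0 => ?_⟩
  have h : ∃ I, I ⊆ T ∧ I.card = p ∧ ∀ i ∈ I, w i = 0 := ⟨I, hI, hp, h0⟩
  beta_reduce
  rw [dif_pos h]
  exact hc _ h.choose_spec.1 h.choose_spec.2.1 I hI hp w hw h.choose_spec.2.2 h0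

/-- Compatible functions on the strata of depth `p` extend: smooth case. -/
theorem ext_sm {p : ℕ} {c : Finset (Fin n) → E n → ℂ} (hU : IsOpen U) (hS : Stab T U)
    (hs : ∀ I ⊆ T, I.card = p → SmO U fun w => c I (pz I w))
    (hc : ∀ I ⊆ T, I.card = p → ∀ J ⊆ T, J.card = p → ∀ w ∈ U,
      (∀ i ∈ I, w i = 0) → (∀ i ∈ J, w i = 0) → c I w = c J w) :
    ∃ F, SmO U F ∧ ∀ I ⊆ T, I.card = p → ∀ w ∈ U, (∀ i ∈ I, w i = 0) → F w = c I w := by
  obtain ⟨f, hf⟩ := glue_strata hc
  refine ⟨exs T p f, sm_exs hS fun I hI hp z hz => (hs I hI hp z hz).congr_of_eventuallyEq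
    ((hU.eventually_mem hz).mono fun w hw => hf I hI hp _ (hS I hI w hw) fun i hi => pz_mem hi),
    fun I hI hp w hw h0 => (exs_eq hI hp.ge h0).trans (hf I hI hp w hw h0)⟩

/-- Holomorphic case. -/
theorem ext_hol {p : ℕ} {c : Finset (Fin n) → E n → ℂ} (hS : Stab T U)
    (hs : ∀ I ⊆ T, I.card = p → DifferentiableOn ℂ (fun w => c I (pz I w)) U)
    (hc : ∀ I ⊆ T, I.card = p → ∀ J ⊆ T, J.card = p → ∀ w ∈ U,
      (∀ i ∈ I, w i = 0) → (∀ i ∈ J, w i = 0) → c I w = c J w) :
    ∃ F, DifferentiableOn ℂ F U ∧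
      ∀ I ⊆ T, I.card = p → ∀ w ∈ U, (∀ i ∈ I, w i = 0) → F w = c I w := by
  obtain ⟨f, hf⟩ := glue_strata hc
  refine ⟨exs T p f, hol_exs hS fun I hI hp => (hs I hI hp).congr
    fun w hw => hf I hI hp _ (hS I hI w hw) fun i hi => pz_mem hi,
    fun I hI hp w hw h0 => (exs_eq hI hp.ge h0).trans (hf I hI hp w hw h0)⟩

end Pool.Agent.Lib.EX.K68
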