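import Pool.Agent.Lib.EX.Blue
import Pool.Agent.Lib.EXA.B_LOCK
import Pool.Agent.Lib.EXA.B_GLOB
import Pool.Agent.Lib.EXA.B_LAP
import Pool.Agent.Lib.EXA.B_AC1
import Pool.Agent.Lib.EXA.B_ACM
import Pool.Agent.Lib.EXA.B_IBP
import Pool.Agent.Lib.EXA.B_MINT
import Pool.Agent.Lib.EXA.B_VAL
import Pool.Agent.Lib.EXA.B_DIVE

/-! From components to coordinates. -/

open scoped Classical Topology ContDiff
open Set MeasureTheory Complex Metric Filter

noncomputable section

namespace Pool.Agent.Lib.EX.K78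

open Pool.Agent.Lib.SV (E)
open Pool.Agent.Lib.HS32
open Pool.Agent.Lib.EXA (Val SmN mon lN wt bad BadC Loc RI)

theorem aAC1 : EXA.St_AC1 :=
  EXA.bAC1 EXA.st_VAL EXA.bMINT (EXA.bACM EXA.st_LAP EXA.bMINT EXA.bIBP) EXA.st_GLOB

theorem aDIVE : EXA.St_DIVE := EXA.bDIVE EXA.st_GLOB

variable {n : ℕ} {ι : Type} [Fintype ι] [DecidableEq ι] {c : ι → Option (Fin n)} {z : E n}

/-- The coordinates that are equations of components. -/
def cs (c : ι → Option (Fin n)) : Finset (Fin n) := Finset.univ.filter fun j => ∃ i, c i = some j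

/-- Data on components as data on coordinates. -/
def lf {α : Type} [AddCommMonoid α] (c : ι → Option (Fin n)) (f : ι → α) (j : Fin n) : α :=
  ∑ i, if c i = some j then f i else 0

omit [DecidableEq ι] in
theorem mem_cs {j : Fin n} : j ∈ cs c ↔ ∃ i, c i = some j := by simp [cs]

omit [DecidableEq ι] in
theorem lf_eq {α : Type} [AddCommMonoid α] (hc : Inj c) (f : ι → α) {i : ι} {j : Fin n}
    (h : c i = some j) : lf c f j = f i := by
  rw [lf, Finset.sum_eq_single i (fun b _ hb => if_neg fun e => hb (hc _ _ _ e h)) (by simp),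
    if_pos h]

omit [Fintype ι] [DecidableEq ι] in
theorem xi_some {i : ι} {j : Fin n} (h : c i = some j) : xi c i z = z j := by simp [xi, h]

omit [Fintype ι] [DecidableEq ι] in
theorem xi_none {i : ι} (h : c i = none) : xi c i z = 1 := by simp [xi, h]

omit [DecidableEq ι] in
theorem prod_cs {M : Type} [CommMonoid M] (hc : Inj c) (φ : ι → ℂ → M) (ψ : Fin n → ℂ → M)
    (h1 : ∀ i, φ i 1 = 1) (h2 : ∀ i j, c i = some j → ψ j = φ i) :
    ∏ i, φ i (xi c i z) = ∏ j ∈ cs c, ψ j (z j) := by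
  rw [← Finset.prod_subset (Finset.filter_subset (fun i => (c i).isSome) Finset.univ)
    fun i _ hi => by rw [xi_none (by simpa using hi), h1]]
  refine Finset.prod_bij (fun i hi => (c i).get (Finset.mem_filter.1 hi).2)
    (fun i hi => mem_cs.2 ⟨i, (Option.some_get _).symm⟩)
    (fun a ha b hb e => hc a b _ (Option.some_get _).symm (by rw [e, Option.some_get]))
    (fun j hj => ?_) fun i hi => ?_
  · obtain ⟨i, h⟩ := mem_cs.1 hj
    exact ⟨i, by simp [h], by simp [h]⟩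
  · have h := (Option.some_get (Finset.mem_filter.1 hi).2).symm
    rw [h2 i _ h, xi_some h]

omit [DecidableEq ι] in
theorem off_iff : Off c z ↔ EXA.Off (cs c) z := by
  refine ⟨fun h j hj => ?_, fun h i => ?_⟩
  · obtain ⟨i, e⟩ := mem_cs.1 hj
    exact xi_some (z := z) e ▸ h i
  · rcases e : c i with _ | j
    · rw [xi_none e]; exact one_ne_zero
    · rw [xi_some e]; exact h j (mem_cs.2 ⟨i, e⟩)

omit [DecidableEq ι] in
theorem mon_eq (hc : Inj c) (r : ι → ℝ) (P Q : ι → ℤ) :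
    (xr c r z : ℂ) * (xm c P z * star (xm c Q z)) = mon (cs c) (lf c r) (lf c P) (lf c Q) z := by
  rw [mon, ← prod_cs hc (fun i ζ => ((normSq ζ ^ r i : ℝ) : ℂ) * ζ ^ P i * star ζ ^ Q i)
    (fun j ζ => ((normSq ζ ^ lf c r j : ℝ) : ℂ) * ζ ^ lf c P j * star ζ ^ lf c Q j) (by simp)
    fun i j h => by simp only [lf_eq hc _ h]]
  simp only [xr, xm, ofReal_prod, star_prod, star_zpow₀, Finset.prod_mul_distrib, mul_assoc]

omit [DecidableEq ι] in
theorem log_eq (hc : Inj c) {v : E n → ℝ} (ho : Off c z) (hv : 0 < v z) :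
    0 < v z * normSq (xs c Finset.univ z) ∧ Real.log (v z * normSq (xs c Finset.univ z)) =
      lN (cs c) (fun y => -Real.log (v y)) z := by
  have h : 0 < normSq (xs c Finset.univ z) := normSq_pos.2 (Finset.prod_ne_zero_iff.2 fun i _ => ho i)
  refine ⟨mul_pos hv h, ?_⟩
  rw [Real.log_mul hv.ne' h.ne', xs, map_prod,
    prod_cs hc (fun _ ζ => normSq ζ) (fun _ ζ => normSq ζ) (by simp) fun _ _ _ => rfl,
    Real.log_prod fun j hj => (normSq_pos.2 (off_iff.1 ho j hj)).ne', lN]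
  ring

omit [DecidableEq ι] in
theorem cut_eq (hc : Inj c) {v : E n → ℝ} (ho : Off c z) (hv : 0 < v z) (t : ℝ) :
    cut c v t z = wt (cs c) (fun y => -Real.log (v y)) t z := by
  rw [cut, wt, Real.rpow_def_of_pos (log_eq hc ho hv).1, (log_eq hc ho hv).2, mul_comm]

theorem b2_ev (hz : z ∈ B2 n) : ∀ᶠ y in 𝓝 z, y ∈ B2 n := isOpen_ball.mem_nhds hz

theorem b2_of (hz : ‖z‖ ≤ 1) : z ∈ B2 n := mem_ball_zero_iff.2 (by linarith)

omit [DecidableEq ι] in
theorem lg_eq {v : E n → ℝ} (hv : Tst c v) (hz : z ∈ B2 n) (ho : Off c z) :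
    lg c v =ᶠ[𝓝 z] fun y => (lN (cs c) (fun y => -Real.log (v y)) y : ℂ) :=
  ((b2_ev hz).and (EXA.LOCK.off_ev (off_iff.1 ho))).mono fun y h => by
    rw [lg, (log_eq hv.inj (off_iff.2 h.2) (hv.vpos y h.1)).2]

omit [Fintype ι] [DecidableEq ι] in
theorem w_sm {v : E n → ℝ} (hv : Tst c v) (hz : z ∈ B2 n) : SmN (fun y => -Real.log (v y)) z :=
  (b2_ev hz).mono fun y h => ((hv.vsm y h).log (hv.vpos y h).ne').neg

omit [DecidableEq ι] in
theorem bad_lt (hc : Inj c) {r : ι → ℝ} (hr : ∀ i, -1 < r i ∧ r i ≤ 0) {p : ℕ} {P Q : ι → ℤ}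
    (h : Harm r p P Q) : bad (cs c) (lf c r) (lf c P) (lf c Q) < p := by
  have k : bad (cs c) (lf c r) (lf c P) (lf c Q) ≤
      (Finset.univ.filter fun i => (r i = 0 ∧ Q i = -1) ∧ P i < 0).card := by
    rw [bad, ← Finset.card_image_of_injective _ (Option.some_injective _)]
    refine (Finset.card_le_card fun o ho => ?_).trans (Finset.card_image_le (f := c))
    obtain ⟨j, hj, rfl⟩ := Finset.mem_image.1 ho
    obtain ⟨a, ⟨m, b⟩, d⟩ := Finset.mem_filter.1 hj
    obtain ⟨i, e⟩ := mem_cs.1 a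
    simp only [lf_eq hc _ e] at b d
    have r0 : r i = 0 := by
      have e1 : r i = ((-(Q i + 1 + m) : ℤ) : ℝ) := by push_cast; linarith
      have e2 := hr i
      rw [e1] at e2 ⊢
      have a : (-1 : ℤ) < -(Q i + 1 + m) := by exact_mod_cast e2.1
      have b : -(Q i + 1 + m) ≤ (0 : ℤ) := by exact_mod_cast e2.2
      exact_mod_cast (by omega : -(Q i + 1 + m) = (0 : ℤ))
    rw [r0, zero_add] at b d
    have b' : Q i + 1 + m = 0 := by exact_mod_cast b
    have d' : P i ≤ -1 := by exact_mod_cast d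
    have := h.1 i r0
    exact Finset.mem_image.2 ⟨i, Finset.mem_filter.2 ⟨Finset.mem_univ i, ⟨r0, by omega⟩, by omega⟩, e⟩
  have s : (Finset.univ.filter fun i => (r i = 0 ∧ Q i = -1) ∧ P i < 0) ⊆
      Finset.univ.filter fun i => r i = 0 ∧ Q i = -1 :=
    Finset.monotone_filter_right _ fun _ _ h => h.1
  rcases h.2 with h2 | ⟨h2, i, a, b, d⟩
  · exact (k.trans (Finset.card_le_card s)).trans_lt h2
  · refine k.trans_lt (h2 ▸ Finset.card_lt_card ⟨s, fun t => ?_⟩)
    exact absurd (Finset.mem_filter.1 (t (Finset.mem_filter.2 ⟨Finset.mem_univ i, a, b⟩))).2.2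
      (not_lt.2 d)

omit [DecidableEq ι] in
theorem nul_loc (hc : Inj c) {r : ι → ℝ} (hr : ∀ i, -1 < r i ∧ r i ≤ 0) {p : ℕ} {Φ : E n → ℂ}
    (h : Nul c r p Φ z) : Loc (cs c) (lf c r) (p - 1) z Φ ∧
      (p = 0 → ∀ᶠ y in 𝓝 z, Off c y → Φ y = 0) := by
  obtain ⟨τ, _, P, Q, s, h1, h2, h3⟩ := h
  refine ⟨.congr _ _ (EXA.LOCK.sum Finset.univ fun t _ => .mon (lf c (P t)) (lf c (Q t)) (s t)
    (h1 t) (Nat.le_sub_one_of_lt (bad_lt hc hr (h2 t)))) (h3.mono fun y hy ho => ?_), fun hp => ?_⟩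
  · rw [hy (off_iff.2 ho), Finset.mul_sum]
    exact Finset.sum_congr rfl fun t _ => by rw [← mon_eq hc]; ring
  · refine h3.mono fun y hy ho => ?_
    rw [hy ho, Finset.sum_eq_zero fun t _ => absurd (hp ▸ bad_lt hc hr (h2 t)) (Nat.not_lt_zero _),
      mul_zero]

omit [DecidableEq ι] in
/-- Integrals over the polydisc as integrals over the space. -/
theorem int_tr {f g : E n → ℂ} (h : ∀ z ∈ B2 n, Off c z → f z = g z) (h0 : ∀ z ∉ B2 n, g z = 0) :
    (Integrable g → IntegrableOn f (B2 n)) ∧ ∫ z in B2 n, f z = ∫ z, g z := by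
  have e : (B2 n).indicator f =ᵐ[volume] g := (EXA.MINT.ae_off (cs c)).mono fun z ho => by
    by_cases hz : z ∈ B2 n
    · rw [indicator_of_mem hz, h z hz (off_iff.2 ho)]
    · rw [indicator_of_notMem hz, h0 z hz]
  exact ⟨fun hg => (integrable_indicator_iff measurableSet_ball).1 (hg.congr e.symm),
    by rw [← integral_indicator measurableSet_ball, integral_congr_ae e]⟩

end Pool.Agent.Lib.EX.K78
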