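import Pool.Agent.Lib.EX.Defs

/-! Project ex41: the data of a log resolution on the manifold layer, and the main statement. -/

open scoped Classical Topology ContDiff ComplexOrder Matrix
open Set MeasureTheory Complex Metric Filter

set_option linter.unusedVariables false

noncomputable section

namespace Pool.Agent.Lib.EX

open Pool.Agent.Lib.SV (E)
open Pool.Agent.Lib.HS32

variable {n : ℕ} {M : Mf n} {ι : Type} [Fintype ι] [DecidableEq ι]

/-- A property holds at all points of `W`, in all charts. -/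
def Ad.On (D : Ad M ι) (W : Set M.X) (p : D.A → E n → Prop) : Prop :=
  D.All fun d z => (D.e d).symm z ∈ W → p d z

/-- The open set `W` is the blow-up of an ideal on an analytic subset of a polydisc, and `σ` is an
equation on `W` of the divisor with coefficients `a`. -/
structure Bl (D : Ad M ι) (a : ι → ℕ) (ex : Set ι) where
  W : Set M.X
  N : ℕ
  r : ℕ
  p : M.X → E N
  τ : M.X → E r
  e : ι → ℕ
  t : D.A → E n → E r
  σ : M.X → ℂ
  v : D.A → E n → ℂ
  opn : IsOpen W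
  con : IsPreconnected W
  epos : ∀ i ∈ ex, 0 < e i
  cpt : ∀ ρ < 1, IsCompact {y ∈ W | ‖p y‖ ≤ ρ}
  lt : ∀ y ∈ W, ‖p y‖ < 1
  phol : D.On W fun d z => HolN (D.rd p d) z
  thol : D.On W fun d z => HolN (t d) z ∧ t d z ≠ 0 ∧
    D.rd τ d z = xm (D.c d) (fun i => e i) z • t d z
  imm : D.On W fun d z => ∀ (y : E n) (c : ℂ), fderiv ℂ (D.rd p d) z y = 0 →
    fderiv ℂ (t d) z y = c • t d z → y = 0
  exc : D.On W fun d z => ∀ i ∈ ex, ∀ j, D.c d i = some j → z j = 0 →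
    ∃ y : E n, y ≠ 0 ∧ y j = 0 ∧ fderiv ℂ (D.rd p d) z y = 0
  vhol : D.On W fun d z => HolN (v d) z ∧ v d z ≠ 0 ∧
    D.rd σ d z = v d z * xm (D.c d) (fun i => a i) z

/-- A log resolution; the levels run from `s0` down to zero. -/
structure Rs (D : Ad M ι) where
  a : ι → ℕ
  k : ι → ℤ
  m : ℕ
  w : D.A → E n → ℂ
  ex : Set ι
  B : D.A → Bl D a ex
  c0 : ℝ
  s0 : ℝ
  m0 : 0 < m
  whol : D.All fun b z => DifferentiableAt ℂ (w b) z
  wne : D.All fun b z => w b z ≠ 0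
  wcmp : D.Ov fun b d x => w d (D.e d x) = w b (D.e b x) * D.um k b d x * (D.J b d x).det ^ m
  c1 : c0 < 1
  sub : D.All fun b z => (D.e b).symm z ∈ (B b).W ∧ ‖(B b).p ((D.e b).symm z)‖ ≤ c0
  s00 : 0 ≤ s0
  s01 : s0 < 1
  top : ∀ i, a i ≠ 0 → (a i : ℝ) - 1 ≤ s0 * a i + k i / m + 1 ∧
    (i ∉ ex → s0 * a i + k i / m + 1 < a i)
  off : ∀ i, a i = 0 → -(m : ℤ) < k i ∧ (i ∉ ex → k i ≤ 0)

/-- Local lifts of a generating family of sections over the support. -/
structure Rs.Lift {D : Ad M ι} (R : Rs D) {κ : Type} (f : κ → D.A → M.X → ℂ) : Prop where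
  mer : ∀ l b, D.On (R.B b).W fun d z => PolH (D.c d) (fun i => R.a i) (D.rd (f l b) d) z
  dif : ∀ l b b', D.On ((R.B b).W ∩ (R.B b').W) fun d z =>
    PolH (D.c d) (fun i => R.a i - sp R.a i) (D.rd (f l b - f l b') d) z
  gen : D.All fun b z => xm (D.c b) (fun i => R.a i) z = 0 → ∃ l s, HolN s z ∧ s z ≠ 0 ∧
    ∀ᶠ y in 𝓝 z, Off (D.c b) y → D.rd (f l b) b y = xm (D.c b) (-fun i => (R.a i : ℤ)) y * s y

/-- The theorem on the manifold layer. -/
def St_SING : Prop := ∀ (n : ℕ) (M : Mf n) [M.Cpt] (H : M.Fam (Mat n)) (ι : Type) [Fintype ι]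
  [DecidableEq ι] (D : Ad M ι) (R : Rs D) (κ : Type) [Fintype κ] (f : κ → D.A → M.X → ℂ),
  M.Kae H → R.Lift f → ∀ l, ∃ F : M.X → ℂ, D.All fun b z =>
    PolH (D.c b) (fun i => R.a i - sp R.a i) (D.rd (F - f l b) b) z

end Pool.Agent.Lib.EX
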