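import Pool.Agent.Lib.KP.SDefs

/-! Definitions used in the statement: divisors with simple normal crossings, orders along them,
local models of a log resolution, sections of a line bundle over the zero set of a section. -/

open scoped Topology

noncomputable section

namespace Pool.Agent.Lib.EX

open Pool.Agent.Lib.SV Pool.Agent.Lib.KP

variable (n : ℕ) {Y ι I : Type} [TopologicalSpace Y] [ChartedSpace (E n) Y] [Fintype I]

/-- The differential of `h` at `y`, in the preferred chart. -/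
def dAt {F : Type} [NormedAddCommGroup F] [NormedSpace ℂ F] (h : Y → F) (y : Y) : E n →L[ℂ] F :=
  fderiv ℂ (h ∘ (chartAt (E n) y).symm) (chartAt (E n) y y)

/-- The functions `h i` are local equations near `y` of the hypersurfaces `D i`, which are smooth
and cross normally at `y`. -/
def Eqs (D : I → Set Y) (y : Y) (h : I → Y → ℂ) : Prop :=
  (∀ᶠ x in 𝓝 y, ∀ i, HolAt n 0 (h i) x ∧ (x ∈ D i ↔ h i x = 0)) ∧
    LinearIndependent ℂ fun i : {i // y ∈ D i} => dAt n (h i) y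

/-- Near `y`, `s` is a meromorphic section of `a K` with divisor `∑ l i D i` (and value zero at
its poles). -/
def Ord (a : ℕ) (D : I → Set Y) (l : I → ℤ) (s : Y → ℂ) (y : Y) : Prop :=
  ∃ h w, Eqs n D y h ∧ ∀ᶠ x in 𝓝 y, HolAt n a w x ∧ w x ≠ 0 ∧ s x = w x * ∏ i, h i x ^ l i

/-- `W` is the blow-up of an ideal `τ` on a closed analytic subset of the unit polydisc: `p` is
proper, `τ = t ∏ h i ^ a i`, and `(p, [t])` is an immersion. The `D i` with `i ∈ ex` lie in the
zero set of the ideal and are contracted by `p`. -/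
def Blow (D : I → Set Y) (ex : Set I) (W : Set Y) : Prop :=
  ∃ (N r : ℕ) (p : Y → E N) (τ : Y → E r) (a : I → ℕ), (∀ i ∈ ex, 0 < a i) ∧
    (∀ ρ < 1, IsCompact {y ∈ W | ‖p y‖ ≤ ρ}) ∧ ∀ y ∈ W, ‖p y‖ < 1 ∧ (∀ j, HolAt n 0 (p · j) y) ∧
      ∃ (h : I → Y → ℂ) (t : Y → E r), Eqs n D y h ∧ t y ≠ 0 ∧
        (∀ᶠ x in 𝓝 y, (∀ j, HolAt n 0 (t · j) x) ∧ τ x = (∏ i, h i x ^ a i) • t x) ∧
        (∀ v (c : ℂ), dAt n p y v = 0 → dAt n t y v = c • t y → v = 0) ∧
        ∀ i ∈ ex, y ∈ D i → ∃ v ≠ 0, dAt n (h i) y v = 0 ∧ dAt n p y v = 0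

/-- A log resolution: `η` is a meromorphic section of `m K` with divisor `∑ l i D i`, and `σ` is a
section with divisor `∑ k i D i` of the line bundle with transition functions `g`, which is
trivial on the sets `W a`. -/
structure LogRes (m : ℕ) (D : I → Set Y) (ex : Set I) (k : I → ℕ) (l : I → ℤ) (η : Y → ℂ)
    (W : ι → Set Y) (σ : ι → Y → ℂ) (g : ι → ι → Y → ℂ) : Prop where
  form : ∀ y, Ord n m D l η y
  opn : ∀ a, IsOpen (W a) ∧ IsPreconnected (W a)
  cov : ∀ y, ∃ a, y ∈ W a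
  blow : ∀ a, Blow n D ex (W a)
  div : ∀ a, ∀ y ∈ W a, Ord n 0 D (fun i => k i) (σ a) y
  tr : ∀ a b, ∀ y ∈ W a ∩ W b, HolAt n 0 (g a b) y ∧ σ a y = g a b y * σ b y

/-- `u` represents a section of the line bundle over the set `S`. -/
structure SecOn (W : ι → Set Y) (g : ι → ι → Y → ℂ) (S : Set Y) (u : ι → Y → ℂ) : Prop where
  hol : ∀ a, ∀ y ∈ W a, HolAt n 0 (u a) y
  glue : ∀ a b, ∀ y ∈ W a ∩ W b ∩ S, u a y = g a b y * u b y

/-- The sections over `S` have no common zero on `S`. -/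
def Gen (W : ι → Set Y) (g : ι → ι → Y → ℂ) (S : Set Y) : Prop :=
  ∀ a, ∀ y ∈ W a ∩ S, ∃ u, SecOn n W g S u ∧ u a y ≠ 0

end Pool.Agent.Lib.EX
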