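import Pool.Agent.Lib.EX.SDefs

/-! Definition used in the statement: the coefficients of the boundary. -/

namespace Pool.Agent.Lib.EX

/-- The coefficients `δ i = k i / M - l i / m` of the boundary: over the support of `∑ k i D i`
they are less than `2`, elsewhere less than `1`; for `i ∉ ex` their integral part is `1` on that
support and `0` elsewhere. -/
structure Bdry {I : Type} (m : ℕ) (ex : Set I) (k : I → ℕ) (l : I → ℤ) (M : ℝ) : Prop where
  top : ∀ i, 0 < k i → k i / M - l i / m < 2 ∧ (i ∉ ex → 1 ≤ k i / M - l i / m)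
  off : ∀ i, k i = 0 → -m < l i ∧ (i ∉ ex → l i ≤ 0)

end Pool.Agent.Lib.EX
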