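import Pool.Agent.Lib.EX.Stmt
import Pool.Agent.Lib.EX.SDefs2

/-! Project ex41: the two target statements with the boundary of the pair itself. -/

open scoped Classical Manifold ContDiff Topology
open Filter

namespace Pool.Agent.Lib.EX

open Pool.Agent.Lib.SV Pool.Agent.Lib.HS Pool.Agent.Lib.GH Pool.Agent.Lib.KP

theorem Bdry.coef {I : Type} [Fintype I] {m : ℕ} {ex : Set I} {k : I → ℕ} {l : I → ℤ} {M : ℝ}
    (hM : 1 < M) (h : Bdry m ex k l M) : ∃ s : ℝ, 0 < s ∧ s ≤ 1 ∧ Coef m ex k l s := by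
  have h0 : 0 < M⁻¹ := by positivity
  have h1 : ∀ᶠ s : ℝ in 𝓝 M⁻¹, s < 1 := eventually_lt_nhds (inv_lt_one_of_one_lt₀ hM)
  have h2 : ∀ᶠ s : ℝ in 𝓝 M⁻¹, ∀ i, 0 < k i → s * k i - l i / m < 2 :=
    eventually_all.2 fun i => by
      by_cases hi : 0 < k i
      · have hc : Continuous fun s : ℝ => s * k i - l i / m := by fun_prop
        have := (h.top i hi).1
        rw [div_eq_inv_mul] at this
        exact (hc.continuousAt.eventually_lt continuousAt_const this).mono fun s hs _ => hs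
      · exact Eventually.of_forall fun s hs => absurd hs hi
  obtain ⟨s, ⟨s1, s2⟩, s3⟩ :=
    (((h1.and h2).filter_mono nhdsWithin_le_nhds).and (self_mem_nhdsWithin (s := Set.Ioi M⁻¹))).exists
  refine ⟨s, h0.trans s3, s1.le, fun i hi => ⟨(s2 i hi).le, fun hx => ?_⟩, h.off⟩
  have h3 := (h.top i hi).2 hx
  have h4 : M⁻¹ * k i < s * k i := mul_lt_mul_of_pos_right s3 (Nat.cast_pos.2 hi)
  rw [div_eq_inv_mul] at h3
  linarith

theorem ext_of (h : St_TARGET) (n : ℕ) (Y ι I : Type) [TopologicalSpace Y] [ChartedSpace (E n) Y]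
    [IsManifold 𝓘(ℂ, E n) ω Y] [CompactSpace Y] [T2Space Y] [ConnectedSpace Y] [Fintype I]
    (G : Y → Mat n) (m : ℕ) (D : I → Set Y) (ex : Set I) (k : I → ℕ) (l : I → ℤ) (η : Y → ℂ)
    (W : ι → Set Y) (σ : ι → Y → ℂ) (g : ι → ι → Y → ℂ) (M : ℝ) (u : ι → Y → ℂ)
    (hG : Kaehler G) (hm : 0 < m) (hR : LogRes n m D ex k l η W σ g) (hM : 1 < M)
    (hB : Bdry m ex k l M) (hS : Gen n W g (⋃ i ∈ {i | 0 < k i}, D i))
    (hu : SecOn n W g (⋃ i ∈ {i | 0 < k i}, D i) u) :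
    ∃ v, SecOn n W g Set.univ v ∧ ∀ a, ∀ y ∈ W a ∩ ⋃ i ∈ {i | 0 < k i}, D i, v a y = u a y := by
  obtain ⟨s, s0, s1, s2⟩ := hB.coef hM
  exact h n Y ι I G m D ex k l η W σ g s u hG hm hR s0 s1 s2 hS hu

theorem sa_of_ext (h : St_TARGET) : St_SA := by
  intro n Y ι I _ _ _ _ _ _ _ G m D ex k l η W σ g s hG hm hR s0 s1 s2 hS a y hy
  by_cases hyS : y ∈ ⋃ i ∈ {i | 0 < k i}, D i
  · obtain ⟨u, u1, u2⟩ := hS a y ⟨hy.1, hyS⟩
    obtain ⟨v, v1, v2⟩ := h n Y ι I G m D ex k l η W σ g s u hG hm hR s0 s1 s2 hS u1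
    exact ⟨v, v1, by rwa [v2 a y ⟨hy.1, hyS⟩]⟩
  · refine ⟨σ, ⟨fun b x hx => ?_, fun b c x hx => (hR.tr b c x hx.1).2⟩, ?_⟩
    · obtain ⟨f, w, f1, f2⟩ := hR.div b x hx
      have hc : ContinuousAt (chartAt (E n) x).symm (chartAt (E n) x x) :=
        (chartAt (E n) x).continuousAt_symm (mem_chart_target _ x)
      have ht : Tendsto (chartAt (E n) x).symm (𝓝 (chartAt (E n) x x)) (𝓝 x) := by
        have := hc.tendsto
        rwa [(chartAt (E n) x).left_inv (mem_chart_source _ x)] at this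
      have h1 := f2.self_of_nhds.1
      have h2 := fun i => (f1.1.self_of_nhds i).1
      simp only [HolAt, pow_zero, mul_one] at h1 h2 ⊢
      have h3 : DifferentiableAt ℂ (fun z => ∏ i, f i ((chartAt (E n) x).symm z) ^ k i)
          (chartAt (E n) x x) :=
        (HasFDerivAt.finsetProd fun i _ => ((h2 i).fun_pow (k i)).hasFDerivAt).differentiableAt
      refine (h1.fun_mul h3).congr_of_eventuallyEq ((ht.eventually f2).mono fun z hz => ?_)
      simpa using hz.2.2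
    · obtain ⟨f, w, f1, f2⟩ := hR.div a y hy.1
      rw [f2.self_of_nhds.2.2]
      refine mul_ne_zero f2.self_of_nhds.2.1 (Finset.prod_ne_zero_iff.2 fun i _ => ?_)
      rcases Nat.eq_zero_or_pos (k i) with hi | hi
      · simp [hi]
      · exact zpow_ne_zero _ fun h0 => hyS (Set.mem_biUnion (s := {i | 0 < k i}) hi
          ((f1.1.self_of_nhds i).2.2 h0))

theorem sa_of (h : St_TARGET) (n : ℕ) (Y ι I : Type) [TopologicalSpace Y] [ChartedSpace (E n) Y]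
    [IsManifold 𝓘(ℂ, E n) ω Y] [CompactSpace Y] [T2Space Y] [ConnectedSpace Y] [Fintype I]
    (G : Y → Mat n) (m : ℕ) (D : I → Set Y) (ex : Set I) (k : I → ℕ) (l : I → ℤ) (η : Y → ℂ)
    (W : ι → Set Y) (σ : ι → Y → ℂ) (g : ι → ι → Y → ℂ) (M : ℝ)
    (hG : Kaehler G) (hm : 0 < m) (hR : LogRes n m D ex k l η W σ g) (hM : 1 < M)
    (hB : Bdry m ex k l M) (hS : Gen n W g (⋃ i ∈ {i | 0 < k i}, D i)) :
    Gen n W g Set.univ := by
  obtain ⟨s, s0, s1, s2⟩ := hB.coef hM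
  exact sa_of_ext h n Y ι I G m D ex k l η W σ g s hG hm hR s0 s1 s2 hS

end Pool.Agent.Lib.EX
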